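import Pool.Agent.Z9.G6

open MvPolynomial Pool.Agent.MP_dd1803_nt Pool.Agent.ZPA Pool.Agent.ZL2

namespace Pool.Agent.Z9

open Filter Topology
open Pool.Agent.Z7 (HC Cv HHp Rat)
open Pool.Agent.Z8 (Fam xs ys Cyl rk_le_y tors_pt)

variable {k m : ℕ} [NeZero m] {C : Set (Fin m → ℂˣ)}

/-- Row Z9-CO. An atypical `X` in the fibre over a point of rank at most one is a translate of a subtorus.
PROOF. `Y := {x | p * x ∈ X}` is the image of `X` under the bijection `x ↦ p⁻¹ * x`, which maps closed sets to closed sets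
(substitute `p i * X i` in the polynomials, `p i ≠ 0`), so `Irr Y` and `td ℂ Y = td ℂ X` (both are the dimension of the
irreducible set: `dm_irr` and the order isomorphism of the closed irreducible subsets, or the algebra automorphism
`X i ↦ p i * X i` of the polynomial ring and `td`). `exists_special` (MP_dd1803_nt/Interface.lean) for `Y`: `T` special,
`Y ⊆ T`, with `rk Y + td T ≤ k + m`. It is enough that `k + m ≤ rk Y + td Y`: then `Y = T` (`eq_of_td_le`).
RANKS. `1 ∈ Y`. `Lam X ≤ Lam Y` (if `ch v x ^ N = 1` on `X`, in particular at `p`, then `ch v (p⁻¹ x) ^ N = 1`).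
`inrM v ∈ Lam Y` for every `v : Fin m → ℤ` (the `y`-part of `Y` is `1`). If `inrM v ∈ Lam X` then `v ∈ Lam {y0}`. So with the
projection `π : Lam X → (Fin k → ℤ)` to the `x`-part: `rk X ≤ finrank (range π) + finrank (ker π)`, `finrank (ker π) ≤ rk {y0} ≤ 1`,
and `finrank (range π) + m ≤ rk Y` (the elements of `Lam Y` with given `x`-part ...). So `rk X + m ≤ rk Y + 1`, and
`k + 1 ≤ rk X + td X` gives the claim. -/
theorem coset_of {X : Set (Fin k ⊕ Fin m → ℂˣ)} (hX : Irr X) {y0 : Fin m → ℂˣ}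
    (hy : ∀ x ∈ X, ∀ i, x (Sum.inr i) = y0 i) (hrk : rk ({y0} : Set (Fin m → ℂˣ)) ≤ 1) (hcd : k + 1 ≤ cd X)
    {p : Fin k ⊕ Fin m → ℂˣ} (hp : p ∈ X) : Special {x : Fin k ⊕ Fin m → ℂˣ | p * x ∈ X} := by
  classical
  -- the translate
  obtain ⟨Y, hYdef⟩ : ∃ Y : Set (Fin k ⊕ Fin m → ℂˣ), Y = {x | p * x ∈ X} := ⟨_, rfl⟩
  have hmY : ∀ x, x ∈ Y ↔ p * x ∈ X := fun x => by rw [hYdef]; rfl
  have himg : MP_dd1803_nt.Tr.tr (fun i => (p i)⁻¹) '' X = Y := by
    ext x
    rw [hmY]
    constructor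
    · rintro ⟨z, hz, rfl⟩
      have h1 : p * MP_dd1803_nt.Tr.tr (fun i => (p i)⁻¹) z = z := by
        funext i
        show p i * ((p i)⁻¹ * z i) = z i
        rw [mul_inv_cancel_left]
      rw [h1]
      exact hz
    · intro hx
      refine ⟨p * x, hx, ?_⟩
      funext i
      show (p i)⁻¹ * (p i * x i) = x i
      rw [inv_mul_cancel_left]
  have hY : Irr Y := himg ▸ MP_dd1803_nt.Tr.irr_image_tr _ hX
  have htd : td ℂ Y = td ℂ X := by
    have h1 := MP_dd1803_nt.Tr.dm_image_tr (fun i => (p i)⁻¹) X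
    rw [himg, dm_irr hY, dm_irr hX] at h1
    exact_mod_cast h1
  -- the lattices
  have hXY : Lam X ≤ Lam Y := by
    rintro v ⟨N, hN, hv⟩
    refine ⟨N, hN, fun x hx => ?_⟩
    have h1 := hv _ ((hmY x).1 hx)
    have h2 := hv _ hp
    rw [ch_mul, mul_pow, h2, one_mul] at h1
    exact h1
  have hinr : ∀ v : Fin m → ℤ, (inrM v : Fin k ⊕ Fin m → ℤ) ∈ Lam Y := by
    intro v
    refine ⟨1, one_pos, fun x hx => ?_⟩
    have h1 : x ∘ Sum.inr = (1 : Fin m → ℂˣ) := by
      funext i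
      have h2 := hy _ ((hmY x).1 hx) i
      have h3 := hy _ hp i
      have h4 : (p * x) (Sum.inr i) = p (Sum.inr i) * x (Sum.inr i) := rfl
      rw [h4, h3] at h2
      show x (Sum.inr i) = 1
      exact mul_eq_left.1 h2
    rw [pow_one, ch_inrM, h1, ch_one]
  let f : Lam X →ₗ[ℤ] (Fin k → ℤ) := (LinearMap.funLeft ℤ ℤ (Sum.inl : Fin k → Fin k ⊕ Fin m)).comp (Lam X).subtype
  have hf := finrank_le_ker_add f
  have hker : Module.finrank ℤ (LinearMap.ker f) ≤ 1 := by
    refine le_trans ?_ hrk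
    unfold MP_dd1803_nt.rk
    let g : LinearMap.ker f →ₗ[ℤ] Lam ({y0} : Set (Fin m → ℂˣ)) :=
      LinearMap.codRestrict (Lam ({y0} : Set (Fin m → ℂˣ)))
        (((LinearMap.funLeft ℤ ℤ (Sum.inr : Fin m → Fin k ⊕ Fin m)).comp (Lam X).subtype).comp (LinearMap.ker f).subtype) (by
        rintro ⟨⟨w, hw⟩, hw0⟩
        have h1 : w ∘ Sum.inl = 0 := hw0
        obtain ⟨N, hN, h2⟩ := hw
        refine ⟨N, hN, fun y hyy => ?_⟩
        rw [Set.mem_singleton_iff] at hyy
        have h3 := h2 p hp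
        rw [ch_sum, h1, ch_zero, one_mul] at h3
        have h4 : p ∘ Sum.inr = y0 := funext fun i => hy p hp i
        rw [h4] at h3
        rw [hyy]
        exact h3)
    apply LinearMap.finrank_le_finrank_of_injective (f := g)
    rintro ⟨⟨w, hw⟩, hw0⟩ ⟨⟨w', hw'⟩, hw0'⟩ h
    have h1 : w ∘ Sum.inl = 0 := hw0
    have h1' : w' ∘ Sum.inl = 0 := hw0'
    have h2 : w ∘ Sum.inr = w' ∘ Sum.inr := congrArg Subtype.val h
    have h3 : w = w' := by
      funext i
      rcases i with i | i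
      · exact (congrFun h1 i).trans (congrFun h1' i).symm
      · exact congrFun h2 i
    exact Subtype.ext (Subtype.ext h3)
  have hran : Module.finrank ℤ (LinearMap.range f) + m ≤ rk Y := by
    have h1 : Module.finrank ℤ (⊤ : Submodule ℤ (Fin m → ℤ)) = m := by
      rw [finrank_top, Module.finrank_fintype_fun_eq_card, Fintype.card_fin]
    have h2 : ∀ u ∈ LinearMap.range f, (inlM u : Fin k ⊕ Fin m → ℤ) ∈ Lam Y := by
      rintro _ ⟨⟨w, hw⟩, rfl⟩
      have h3 : (inlM (f ⟨w, hw⟩) : Fin k ⊕ Fin m → ℤ) = w - inrM (w ∘ Sum.inr) := by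
        funext i
        rcases i with i | i
        · show w (Sum.inl i) = w (Sum.inl i) - 0
          rw [sub_zero]
        · show (0 : ℤ) = w (Sum.inr i) - w (Sum.inr i)
          rw [sub_self]
      rw [h3]
      exact Submodule.sub_mem _ (hXY hw) (hinr _)
    let g : (LinearMap.range f × (⊤ : Submodule ℤ (Fin m → ℤ))) →ₗ[ℤ] Lam Y :=
      LinearMap.codRestrict (Lam Y)
        ((inlM (κ' := Fin m)).comp ((LinearMap.range f).subtype.comp (LinearMap.fst ℤ _ _)) +
          (inrM (κ := Fin k)).comp ((⊤ : Submodule ℤ (Fin m → ℤ)).subtype.comp (LinearMap.snd ℤ _ _))) (by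
        rintro ⟨⟨a, ha⟩, ⟨b, hb⟩⟩
        exact Submodule.add_mem _ (h2 a ha) (hinr b))
    have h3 := finrank_prod_le g (by
      rintro ⟨⟨a, ha⟩, ⟨b, hb⟩⟩ ⟨⟨a', ha'⟩, ⟨b', hb'⟩⟩ h
      have h4 : (inlM a + inrM b : Fin k ⊕ Fin m → ℤ) = inlM a' + inrM b' := congrArg Subtype.val h
      have h5 : a = a' := by
        funext i
        have := congrFun h4 (Sum.inl i)
        simpa [inlM, inrM] using this
      have h6 : b = b' := by
        funext i
        have := congrFun h4 (Sum.inr i)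
        simpa [inlM, inrM] using this
      subst h5
      subst h6
      rfl)
    rw [h1] at h3
    exact h3
  obtain ⟨T, hT, hYT, hle⟩ := exists_special hY
  rw [Fintype.card_sum, Fintype.card_fin, Fintype.card_fin] at hle
  have hrX : rk X = Module.finrank ℤ (Lam X) := rfl
  unfold MP_dd1803_nt.cd at hcd
  have h1 : Y = T := eq_of_td_le hY hT.irr hYT (by
    rw [htd]
    omega)
  rw [← hYdef, h1]
  exact hT

end Pool.Agent.Z9
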