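import Pool.Agent.Z7.G0
import Pool.Agent.Z5.HHc

open MvPolynomial Pool.Agent.MP_dd1803_nt Pool.Agent.ZPA Pool.Agent.ZL2

namespace Pool.Agent.Z9

open Filter Topology
open Pool.Agent.Z7 (HC)

/-- The line `y_i = c_i (t - d_i)`. -/
def Line {m : ℕ} (c d : Fin m → ℂ) : Set (Fin m → ℂˣ) := {y | ∃ t : ℂ, ∀ i, (y i : ℂ) = c i * (t - d i)}

theorem k9ex_iff {m : ℕ} {c d : Fin m → ℂ} (hc : ∀ i, c i ≠ 0) (i0 : Fin m) (y : Fin m → ℂˣ) :
    y ∈ Line c d ↔ ∀ i, c i0 * (y i : ℂ) - c i * (y i0 : ℂ) - c i0 * c i * (d i0 - d i) = 0 := by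
  have h0 := hc i0
  constructor
  · rintro ⟨t, ht⟩ i
    rw [ht i, ht i0]
    ring
  · intro h1
    refine ⟨(c i0)⁻¹ * (y i0 : ℂ) + d i0, fun i => ?_⟩
    have h3 := h1 i
    apply mul_left_cancel₀ h0
    field_simp
    linear_combination h3

theorem k9ex_alg {m : ℕ} (hm : 0 < m) {c d : Fin m → ℂ} (hc : ∀ i, c i ≠ 0)
    (hca : ∀ i, IsAlgebraic ℚ (c i)) (hda : ∀ i, IsAlgebraic ℚ (d i)) :
    cl (acl (∅ : Set ℂ)) (Line c d) = Line c d := by
  classical
  obtain ⟨c', hc'⟩ : ∃ c' : Fin m → acl (∅ : Set ℂ), ∀ i, algebraMap (acl (∅ : Set ℂ)) ℂ (c' i) = c i :=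
    ⟨fun i => ⟨c i, mem_acl_empty.2 (hca i)⟩, fun i => rfl⟩
  obtain ⟨d', hd'⟩ : ∃ d' : Fin m → acl (∅ : Set ℂ), ∀ i, algebraMap (acl (∅ : Set ℂ)) ℂ (d' i) = d i :=
    ⟨fun i => ⟨d i, mem_acl_empty.2 (hda i)⟩, fun i => rfl⟩
  have key : Line c d = zl (acl (∅ : Set ℂ)) (Set.range fun i : Fin m =>
      (MvPolynomial.C (c' ⟨0, hm⟩) * X i - MvPolynomial.C (c' i) * X ⟨0, hm⟩ -
        MvPolynomial.C (c' ⟨0, hm⟩ * c' i * (d' ⟨0, hm⟩ - d' i)) : MvPolynomial (Fin m) (acl (∅ : Set ℂ)))) := by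
    ext x
    rw [k9ex_iff hc ⟨0, hm⟩, mem_zl, Set.forall_mem_range]
    refine forall_congr' fun i => ?_
    have e2 : aeval (co x) (MvPolynomial.C (c' ⟨0, hm⟩) * X i - MvPolynomial.C (c' i) * X ⟨0, hm⟩ -
        MvPolynomial.C (c' ⟨0, hm⟩ * c' i * (d' ⟨0, hm⟩ - d' i)) : MvPolynomial (Fin m) (acl (∅ : Set ℂ))) =
        c ⟨0, hm⟩ * (x i : ℂ) - c i * (x ⟨0, hm⟩ : ℂ) - c ⟨0, hm⟩ * c i * (d ⟨0, hm⟩ - d i) := by
      rw [map_sub, map_sub, map_mul, map_mul, aeval_X, aeval_X, aeval_C, aeval_C, aeval_C, map_mul, map_mul,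
        map_sub, hc', hc', hd', hd']
      rfl
    rw [e2]
  rw [key, cl_zl]

/-- The point of the line with parameter `t`. -/
noncomputable def k9ex_pt {m : ℕ} (c d : Fin m → ℂ) (t : ℂ) : Fin m → ℂˣ := fun i => Pool.Agent.Z6.tp1u (c i * (t - d i))

theorem k9ex_pt_val {m : ℕ} {c d : Fin m → ℂ} (hc : ∀ i, c i ≠ 0) {t : ℂ} (ht : ∀ i, t ≠ d i) (i : Fin m) :
    ((k9ex_pt c d t i : ℂˣ) : ℂ) = c i * (t - d i) :=
  Pool.Agent.Z6.tp1u_val (mul_ne_zero (hc i) (sub_ne_zero.2 (ht i)))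

theorem k9ex_eq {m : ℕ} {c d : Fin m → ℂ} {y : Fin m → ℂˣ} {t : ℂ}
    (hy : ∀ i, (y i : ℂ) = c i * (t - d i)) : (∀ i, t ≠ d i) ∧ y = k9ex_pt c d t := by
  have h1 : ∀ i, t ≠ d i := by
    intro i h2
    apply (y i).ne_zero
    rw [hy i, h2, sub_self, mul_zero]
  refine ⟨h1, ?_⟩
  funext i
  apply Units.ext
  show (y i : ℂ) = (Pool.Agent.Z6.tp1u (c i * (t - d i)) : ℂ)
  rw [Pool.Agent.Z6.tp1u_val (by rw [← hy i]; exact (y i).ne_zero), hy i]

theorem k9ex_irr {m : ℕ} (hm : 0 < m) {c d : Fin m → ℂ} (hc : ∀ i, c i ≠ 0) : PIrr (Line c d) := by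
  classical
  obtain ⟨i0, -⟩ : ∃ i0 : Fin m, i0 = ⟨0, hm⟩ := ⟨_, rfl⟩
  obtain ⟨T, hT⟩ : ∃ T : MvPolynomial (Fin 1) ℂ, ∀ z : Fin 1 → ℂˣ, aeval (co z) T = (c i0)⁻¹ * (z 0 : ℂ) + d i0 := by
    refine ⟨MvPolynomial.C (c i0)⁻¹ * MvPolynomial.X 0 + MvPolynomial.C (d i0), fun z => ?_⟩
    rw [map_add, map_mul, aeval_C, aeval_C, aeval_X]
    rfl
  have hh : ∀ z : Fin 1 → ℂˣ, aeval (co z) (∏ i, (T - MvPolynomial.C (d i))) =
      ∏ i, ((c i0)⁻¹ * (z 0 : ℂ) + d i0 - d i) := by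
    intro z
    rw [map_prod]
    refine Finset.prod_congr rfl fun i _ => ?_
    rw [map_sub, hT, aeval_C]
    rfl
  have hdom : ∀ z : Fin 1 → ℂˣ, z ∈ Set.univ \ zp (∏ i, (T - MvPolynomial.C (d i))) ↔
      ∀ i, (c i0)⁻¹ * (z 0 : ℂ) + d i0 ≠ d i := by
    intro z
    rw [Set.mem_sdiff, mem_zp, hh, Finset.prod_eq_zero_iff]
    simp only [Set.mem_univ, true_and, Finset.mem_univ, not_exists, sub_eq_zero, ne_eq]
  have h1 : PIrr (Set.univ \ zp (∏ i, (T - MvPolynomial.C (d i)))) := by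
    refine PIrr.diff (irr_univ.pirr) (zclosed_zp _) ?_
    intro hsub
    obtain ⟨t, ht⟩ := (Set.finite_range d).infinite_compl.nonempty
    have ht' : ∀ i, t ≠ d i := fun i h => ht ⟨i, h.symm⟩
    have h2 : c i0 * (t - d i0) ≠ 0 := mul_ne_zero (hc i0) (sub_ne_zero.2 (ht' i0))
    have h3 : (fun _ => Units.mk0 _ h2 : Fin 1 → ℂˣ) ∈ Set.univ \ zp (∏ i, (T - MvPolynomial.C (d i))) := by
      rw [hdom]
      intro i
      rw [Units.val_mk0, inv_mul_cancel_left₀ (hc i0), sub_add_cancel]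
      exact ht' i
    exact h3.2 (hsub (Set.mem_univ _))
  have h2 := h1.image (φ := fun z => k9ex_pt c d ((c i0)⁻¹ * (z 0 : ℂ) + d i0)) (by
    intro i
    refine Pool.Agent.Z6.tp1_congr ((ratOn_const _ (c i)).mul ((ratOn_poly _ T).sub (ratOn_const _ (d i))))
      fun z hz => ?_
    rw [hT]
    exact k9ex_pt_val hc ((hdom z).1 hz) i)
  have h3 : Line c d = (fun z : Fin 1 → ℂˣ => k9ex_pt c d ((c i0)⁻¹ * (z 0 : ℂ) + d i0)) ''
      (Set.univ \ zp (∏ i, (T - MvPolynomial.C (d i)))) := by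
    ext y
    constructor
    · rintro ⟨t, ht⟩
      obtain ⟨h4, h5⟩ := k9ex_eq ht
      have h6 : (c i0)⁻¹ * ((y i0 : ℂˣ) : ℂ) + d i0 = t := by
        rw [ht i0, inv_mul_cancel_left₀ (hc i0), sub_add_cancel]
      refine ⟨fun _ => y i0, ?_, ?_⟩
      · rw [hdom]
        intro i
        rw [h6]
        exact h4 i
      · simp only [h6]
        exact h5.symm
    · rintro ⟨z, hz, rfl⟩
      exact ⟨_, fun i => k9ex_pt_val hc ((hdom z).1 hz) i⟩
  rw [h3]
  exact h2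

theorem k9ex_point {κ : Type} [Finite κ] {X : Set (κ → ℂˣ)} (hX : Irr X) {p q : κ → ℂˣ} (hp : p ∈ X) (hq : q ∈ X)
    (hpq : p ≠ q) : 1 ≤ td ℂ X := by
  have h1 : ({p} : Set (κ → ℂˣ)) ⊂ X :=
    ⟨fun x hx => by rw [Set.mem_singleton_iff.1 hx]; exact hp, fun h2 => hpq (Set.mem_singleton_iff.1 (h2 hq)).symm⟩
  have h2 := td_lt (irr_singleton p) hX h1
  omega

theorem k9ex_td {m : ℕ} (hm : 0 < m) {c d : Fin m → ℂ} (hc : ∀ i, c i ≠ 0) (hI : Irr (Line c d)) :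
    td ℂ (Line c d) = 1 := by
  classical
  obtain ⟨i0, -⟩ : ∃ i0 : Fin m, i0 = ⟨0, hm⟩ := ⟨_, rfl⟩
  apply le_antisymm
  · have hP := vI_isPrime (k := ℂ) hI.pirr
    have hne : Nontrivial (MvPolynomial (Fin m) ℂ ⧸ vI ℂ (Line c d)) := inferInstance
    have hinj : Function.Injective (fun _ : Fin 1 => i0) := fun a b _ => Subsingleton.elim a b
    have h1 := td_le_pull (k := ℂ) hI.pirr hinj (Set.range fun _ : Fin 1 => i0) (by
      intro i
      have hmem : gen ℂ (Line c d) i ∈ Algebra.adjoin ℂ (gen ℂ (Line c d) '' Set.range fun _ : Fin 1 => i0) := by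
        have h3 : (MvPolynomial.X i - (c i0)⁻¹ • (c i • MvPolynomial.X i0 +
            (c i0 * c i * (d i0 - d i)) • 1) : MvPolynomial (Fin m) ℂ) ∈ vI ℂ (Line c d) := by
          rw [mem_vI]
          intro y hy
          have h5 := (k9ex_iff hc i0 y).1 hy i
          rw [map_sub, map_smul, map_add, map_smul, map_smul, aeval_X, aeval_X, map_one, sub_eq_zero]
          simp only [co_apply, smul_eq_mul]
          have h6 := hc i0
          field_simp
          linear_combination h5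
        have h4 := Ideal.Quotient.eq_zero_iff_mem.mpr h3
        have h5 : Ideal.Quotient.mkₐ ℂ (vI ℂ (Line c d)) (MvPolynomial.X i - (c i0)⁻¹ • (c i • MvPolynomial.X i0 +
            (c i0 * c i * (d i0 - d i)) • 1)) = 0 := h4
        rw [map_sub, map_smul, map_add, map_smul, map_smul, map_one, sub_eq_zero] at h5
        have h6 : gen ℂ (Line c d) i = (c i0)⁻¹ • (c i • gen ℂ (Line c d) i0 + (c i0 * c i * (d i0 - d i)) • 1) := h5
        rw [h6]
        exact Subalgebra.smul_mem _ (Subalgebra.add_mem _ (Subalgebra.smul_mem _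
          (Algebra.subset_adjoin (Set.mem_image_of_mem _ (Set.mem_range_self (0 : Fin 1)))) _) (Subalgebra.smul_mem _ (Subalgebra.one_mem _) _)) _
      exact isAlgebraic_algebraMap (⟨_, hmem⟩ : Algebra.adjoin ℂ (gen ℂ (Line c d) '' Set.range fun _ : Fin 1 => i0)))
    rw [Set.sdiff_self, Set.ncard_empty, add_zero] at h1
    refine h1.trans ((td_le_card (hI.pirr.pull _)).trans ?_)
    rw [Nat.card_eq_fintype_card, Fintype.card_fin]
  · obtain ⟨t, ht, t', ht', htt⟩ := (Set.finite_range d).infinite_compl.nontrivial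
    have h1 : ∀ i, t ≠ d i := fun i h => ht ⟨i, h.symm⟩
    have h2 : ∀ i, t' ≠ d i := fun i h => ht' ⟨i, h.symm⟩
    have m1 : k9ex_pt c d t ∈ Line c d := ⟨t, fun i => k9ex_pt_val hc h1 i⟩
    have m2 : k9ex_pt c d t' ∈ Line c d := ⟨t', fun i => k9ex_pt_val hc h2 i⟩
    refine k9ex_point hI m1 m2 fun h3 => htt ?_
    have h4 := congrArg (fun y : Fin m → ℂˣ => ((y i0 : ℂˣ) : ℂ)) h3
    simp only [k9ex_pt_val hc h1, k9ex_pt_val hc h2] at h4
    exact sub_left_injective (mul_left_cancel₀ (hc i0) h4)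

theorem k9ex_mon {m : ℕ} {c d : Fin m → ℂ} (hc : ∀ i, c i ≠ 0) (hd : Function.Injective d) (n : Fin m → ℤ) {z : ℂ}
    (hz : z ≠ 0) {E : Set ℂ} (hE : E.Infinite)
    (hEd : ∀ t ∈ E, ∀ i, t ≠ d i) (h : ∀ t ∈ E, ∏ i, (c i * (t - d i)) ^ n i = z) (j : Fin m) : ¬ 0 < n j := by
  intro hj
  let P : Polynomial ℂ := ∏ i, (Polynomial.C (c i) * (Polynomial.X - Polynomial.C (d i))) ^ (n i).toNat
  let Q : Polynomial ℂ := ∏ i, (Polynomial.C (c i) * (Polynomial.X - Polynomial.C (d i))) ^ (-n i).toNat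
  have hP : ∀ t, P.eval t = ∏ i, (c i * (t - d i)) ^ (n i).toNat := by
    intro t
    simp only [P, Polynomial.eval_prod, Polynomial.eval_pow, Polynomial.eval_mul, Polynomial.eval_C,
      Polynomial.eval_sub, Polynomial.eval_X]
  have hQ : ∀ t, Q.eval t = ∏ i, (c i * (t - d i)) ^ (-n i).toNat := by
    intro t
    simp only [Q, Polynomial.eval_prod, Polynomial.eval_pow, Polynomial.eval_mul, Polynomial.eval_C,
      Polynomial.eval_sub, Polynomial.eval_X]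
  have hPQ : P = Polynomial.C z * Q := by
    refine Polynomial.eq_of_infinite_eval_eq P (Polynomial.C z * Q) ?_
    refine hE.mono fun t ht => ?_
    have ht' := hEd t ht
    show P.eval t = (Polynomial.C z * Q).eval t
    rw [Polynomial.eval_mul, Polynomial.eval_C, hP, hQ]
    have h1 := h t ht
    have h2 : ∏ i, (c i * (t - d i)) ^ (n i).toNat =
        (∏ i, (c i * (t - d i)) ^ n i) * ∏ i, (c i * (t - d i)) ^ (-n i).toNat := by
      rw [← Finset.prod_mul_distrib]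
      refine Finset.prod_congr rfl fun i _ => ?_
      have h3 : c i * (t - d i) ≠ 0 := mul_ne_zero (hc i) (sub_ne_zero.2 (ht' i))
      rw [← zpow_natCast, ← zpow_natCast, ← zpow_add₀ h3]
      congr 1
      omega
    rw [h2, h1]
  have h1 := hP (d j)
  rw [hPQ, Polynomial.eval_mul, Polynomial.eval_C, hQ] at h1
  have h2 : ∏ i, (c i * (d j - d i)) ^ (n i).toNat = 0 := by
    refine Finset.prod_eq_zero (Finset.mem_univ j) ?_
    rw [sub_self, mul_zero, zero_pow]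
    omega
  rw [h2, mul_eq_zero] at h1
  have h1 := h1.resolve_left hz
  rw [Finset.prod_eq_zero_iff] at h1
  obtain ⟨i, _, hi⟩ := h1
  by_cases hij : i = j
  · subst hij
    have h4 : (-n i).toNat = 0 := by omega
    rw [h4, pow_zero] at hi
    exact one_ne_zero hi
  · exact pow_ne_zero _ (mul_ne_zero (hc i) (sub_ne_zero.2 fun e => hij (hd e).symm)) hi

theorem k9ex_nc {m : ℕ} {c d : Fin m → ℂ} (hc : ∀ i, c i ≠ 0) (hd : Function.Injective d) (v : Fin m → ℤ)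
    (hv : v ≠ 0) (z : ℂˣ) : ¬ ∀ y ∈ Line c d, ch v y = z := by
  intro h
  obtain ⟨j, hj⟩ := Function.ne_iff.1 hv
  have hE : ((Set.range d)ᶜ : Set ℂ).Infinite := (Set.finite_range d).infinite_compl
  have hEd : ∀ t ∈ ((Set.range d)ᶜ : Set ℂ), ∀ i, t ≠ d i := fun t ht i h => ht ⟨i, h.symm⟩
  have key : ∀ t ∈ ((Set.range d)ᶜ : Set ℂ), ∏ i, (c i * (t - d i)) ^ v i = (z : ℂ) := by
    intro t ht
    rw [← h (k9ex_pt c d t) ⟨t, fun i => k9ex_pt_val hc (hEd t ht) i⟩, ← Pool.Agent.Z7.g0_ch]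
    refine Finset.prod_congr rfl fun i _ => ?_
    rw [← k9ex_pt_val hc (hEd t ht) i]
    rfl
  rcases lt_or_gt_of_ne hj with h1 | h1
  · refine k9ex_mon hc hd (fun i => - v i) (z := (z : ℂ)⁻¹) (inv_ne_zero z.ne_zero) hE hEd (fun t ht => ?_) j ?_
    · rw [← key t ht, ← Finset.prod_inv_distrib]
      exact Finset.prod_congr rfl fun i _ => zpow_neg _ _
    · show 0 < - v j
      have : v j < 0 := h1
      omega
  · exact k9ex_mon hc hd v z.ne_zero hE hEd key j h1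

theorem k9ex_log {m : ℕ} {c d : Fin m → ℂ} {y : Fin m → ℂˣ} {t : ℂ} (hy : ∀ i, (y i : ℂ) = c i * (t - d i))
    (n : Fin m → ℤ) : Real.log ‖((ch n y : ℂˣ) : ℂ)‖ =
      Pool.Agent.Z6.dt (fun i => (n i : ℝ)) (Pool.Agent.Z6.LY c d t) := by
  rw [← Pool.Agent.Z7.g0_ch, norm_prod, Real.log_prod]
  · unfold Pool.Agent.Z6.dt Pool.Agent.Z6.LY
    refine Finset.sum_congr rfl fun i _ => ?_
    rw [norm_zpow, Real.log_zpow, ← hy i]
    rfl
  · intro i _
    rw [norm_ne_zero_iff]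
    exact zpow_ne_zero _ (y i).ne_zero

theorem k9ex_fin {m : ℕ} {c d : Fin m → ℂ} (hH : Pool.Agent.Z6.HH c d) {u v : Fin m → ℝ}
    (hi : LinearIndependent ℝ ![u, v]) : {y : Fin m → ℂˣ | ∃ t, (∀ i, (y i : ℂ) = c i * (t - d i)) ∧
      Pool.Agent.Z6.dt u (Pool.Agent.Z6.LY c d t) = 0 ∧ Pool.Agent.Z6.dt v (Pool.Agent.Z6.LY c d t) = 0}.Finite := by
  refine ((hH u v hi).image (k9ex_pt c d)).subset ?_
  rintro y ⟨t, h1, h2, h3⟩
  obtain ⟨h4, h5⟩ := k9ex_eq h1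
  exact ⟨t, ⟨h4, h2, h3⟩, h5.symm⟩

theorem k9ex_dt {m : ℕ} (x : Fin 3 → ℝ) (N : Fin 3 → Fin m → ℝ) (w : Fin m → ℝ) :
    Pool.Agent.Z6.dt (∑ k, x k • N k) w = ∑ k, x k * Pool.Agent.Z6.dt (N k) w := by
  unfold Pool.Agent.Z6.dt
  simp only [Finset.sum_apply, Pi.smul_apply, smul_eq_mul, Finset.sum_mul, Finset.mul_sum]
  rw [Finset.sum_comm]
  exact Finset.sum_congr rfl fun k _ => Finset.sum_congr rfl fun i _ => by ring

theorem k9ex_real {ι : Type} {m : ℕ} {n : ι → Fin m → ℤ} (hn : LinearIndependent ℤ n) :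
    LinearIndependent ℝ (fun k i => (n k i : ℝ) : ι → Fin m → ℝ) :=
  (linearIndependent_algebraMap_comp_iff (R := ℤ) (S := ℝ)).2 hn

/-- Two independent relations. -/
theorem k9ex_two (a : Fin 3 → ℝ) : ∃ x x' : Fin 3 → ℝ, LinearIndependent ℝ ![x, x'] ∧ ∑ k, x k * a k = 0 ∧
    ∑ k, x' k * a k = 0 := by
  obtain ⟨f, hf⟩ : ∃ f : (Fin 3 → ℝ) →ₗ[ℝ] ℝ, ∀ x, f x = ∑ k, x k * a k := by
    refine ⟨∑ k, a k • LinearMap.proj k, fun x => ?_⟩
    simp only [LinearMap.sum_apply, LinearMap.smul_apply, LinearMap.proj_apply, smul_eq_mul]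
    exact Finset.sum_congr rfl fun k _ => mul_comm _ _
  have h1 : 2 ≤ Module.finrank ℝ (LinearMap.ker f) := by
    have h2 := LinearMap.finrank_range_add_finrank_ker f
    rw [Module.finrank_fintype_fun_eq_card, Fintype.card_fin] at h2
    have h3 := Submodule.finrank_le (LinearMap.range f)
    rw [Module.finrank_self] at h3
    omega
  obtain ⟨w, hw⟩ := exists_linearIndependent_of_le_finrank h1
  have hw' : LinearIndependent ℝ (fun j => ((w j : LinearMap.ker f) : Fin 3 → ℝ)) :=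
    hw.map' (LinearMap.ker f).subtype (Submodule.ker_subtype _)
  refine ⟨w 0, w 1, ?_, ?_, ?_⟩
  · have h2 : (fun j => ((w j : LinearMap.ker f) : Fin 3 → ℝ)) = ![(w 0 : Fin 3 → ℝ), (w 1 : Fin 3 → ℝ)] := by
      funext j
      match j with
      | 0 => rfl
      | 1 => rfl
    rw [← h2]
    exact hw'
  · rw [← hf]
    exact (w 0).2
  · rw [← hf]
    exact (w 1).2

/-- Row Z9-EX. The lines satisfying condition (H) are allowed base curves. PROOF. `alg`, `dim`, `irr`: the line is the zero set of linear equations over `acl ∅` between `y_0` and `y_i` and its points are parametrised by `t` (compare the proofs for the surfaces of Z6 and Z7 (`Z6.G3`, `Z7.G5`, `Z7.G7`), or `LineDim`; irreducible: the image of the irreducible set `{t ≠ d_i}`; `td = 1`). `nc`: `∏ (c_i (t - d_i))^(v_i)` is not constant (`d` injective). `hh2`: `hH` with `u = n`, `v = n'` (real independence of integer vectors: `linearIndependent_algebraMap_comp_iff`).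
`hh3`: if all `r_k = 1`, as `hh2`; if `r_k ≤ 0` the set is empty; otherwise some `log r_k ≠ 0`, say `k = 0`: use `hH` with `u = log r_1 • n_0 - log r_0 • n_1`, `v = log r_2 • n_0 - log r_0 • n_2`, independent. `t ↦ y` is injective; `LY c d t i = log ‖c_i (t - d_i)‖`. -/
theorem hc_line {m : ℕ} (hm : 2 ≤ m) {c d : Fin m → ℂ} (hc : ∀ i, c i ≠ 0) (hd : Function.Injective d)
    (hca : ∀ i, IsAlgebraic ℚ (c i)) (hda : ∀ i, IsAlgebraic ℚ (d i)) (hH : Pool.Agent.Z6.HH c d) : HC (Line c d) := by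
  have hm0 : 0 < m := by omega
  have halg := k9ex_alg hm0 hc hca hda (d := d)
  have hI : Irr (Line c d) := ⟨by rw [← halg]; exact zclosed_cl _, k9ex_irr hm0 hc⟩
  refine ⟨hI, k9ex_td hm0 hc hI, halg, fun v hv z => k9ex_nc hc hd v hv z, ?_, ?_⟩
  · intro n n' hn
    have h1 : LinearIndependent ℝ ![fun i => (n i : ℝ), fun i => (n' i : ℝ)] := by
      have h2 := k9ex_real hn
      have h3 : (fun k i => ((![n, n'] : Fin 2 → Fin m → ℤ) k i : ℝ)) =
          ![fun i => (n i : ℝ), fun i => (n' i : ℝ)] := by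
        funext k
        match k with
        | 0 => rfl
        | 1 => rfl
      rw [← h3]
      exact h2
    refine (k9ex_fin hH h1).subset ?_
    rintro y ⟨⟨t, ht⟩, h2, h3⟩
    refine ⟨t, ht, ?_, ?_⟩
    · rw [← k9ex_log ht, h2, Real.log_one]
    · rw [← k9ex_log ht, h3, Real.log_one]
  · intro n hn r
    obtain ⟨x, x', hx, h1, h2⟩ := k9ex_two fun k => Real.log (r k)
    have hN := k9ex_real hn
    have hinj : Function.Injective (Fintype.linearCombination ℝ (fun k i => (n k i : ℝ) : Fin 3 → Fin m → ℝ)) :=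
      hN.fintypeLinearCombination_injective
    have h3 := hx.map' (Fintype.linearCombination ℝ (fun k i => (n k i : ℝ) : Fin 3 → Fin m → ℝ))
      (LinearMap.ker_eq_bot.2 hinj)
    have h4 : (Fintype.linearCombination ℝ (fun k i => (n k i : ℝ) : Fin 3 → Fin m → ℝ)) ∘ ![x, x'] =
        ![∑ k, x k • (fun i => (n k i : ℝ) : Fin m → ℝ), ∑ k, x' k • (fun i => (n k i : ℝ) : Fin m → ℝ)] := by
      funext k
      match k with
      | 0 => exact Fintype.linearCombination_apply ℝ _ _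
      | 1 => exact Fintype.linearCombination_apply ℝ _ _
    rw [h4] at h3
    refine (k9ex_fin hH h3).subset ?_
    rintro y ⟨⟨t, ht⟩, h5⟩
    have h6 : ∀ k, Pool.Agent.Z6.dt (fun i => (n k i : ℝ)) (Pool.Agent.Z6.LY c d t) = Real.log (r k) := fun k => by
      rw [← k9ex_log ht, h5 k]
    refine ⟨t, ht, ?_, ?_⟩
    · rw [k9ex_dt, ← h1]
      exact Finset.sum_congr rfl fun k _ => by rw [h6]
    · rw [k9ex_dt, ← h2]
      exact Finset.sum_congr rfl fun k _ => by rw [h6]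

/-- Row Z9-EXb. `Z5.HH` is `Z6.HH` for `m = 3` (unfold `dt`, `LY`). -/
theorem hh_three {c d : Fin 3 → ℂ} (hH : Pool.Agent.Z5.HH c d) : Pool.Agent.Z6.HH c d := by
  exact hH

end Pool.Agent.Z9
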