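import Pool.Agent.Z9.G0

open MvPolynomial Pool.Agent.MP_dd1803_nt Pool.Agent.ZPA Pool.Agent.ZL2

namespace Pool.Agent.Z9

open Filter Topology
open Pool.Agent.Z7 (HC Cv HHp Rat)
open Pool.Agent.Z8 (Fam FinStab xs ys VSk Cyl AlgCk levs lev evk sp)

variable {k l m : ℕ}

/-- The map `(x, y) ↦ (x^(b_1), …, x^(b_l), y)`. -/
noncomputable def pr (b : Fin l → Fin k → ℤ) (p : Fin k ⊕ Fin m → ℂˣ) : Fin l ⊕ Fin m → ℂˣ :=
  Sum.elim (fun j => ch (b j) (fun i => p (Sum.inl i))) (fun i => p (Sum.inr i))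

/-- The exponents of the map `pr b`. -/
def k9pra_B (m : ℕ) (b : Fin l → Fin k → ℤ) : Fin l ⊕ Fin m → Fin k ⊕ Fin m → ℤ :=
  Sum.elim (fun j => Sum.elim (b j) 0) (fun i => Pi.single (Sum.inr i) 1)

theorem k9pra_pr (b : Fin l → Fin k → ℤ) (p : Fin k ⊕ Fin m → ℂˣ) :
    pr b p = fun j => ch (k9pra_B m b j) p := by
  funext j
  rcases j with j | i
  · show ch (b j) (fun i => p (Sum.inl i)) = ch (Sum.elim (b j) 0) p
    unfold ch
    rw [Fintype.prod_sum_type]
    simp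
  · show p (Sum.inr i) = ch (Pi.single (Sum.inr i) 1) p
    rw [ch_single, zpow_one]

theorem k9pra_ratMap (b : Fin l → Fin k → ℤ) (S : Set (Fin k ⊕ Fin m → ℂˣ)) : RatMap S (pr (m := m) b) := by
  intro j
  have h := ratOn_ch S (k9pra_B m b j)
  have h2 : (fun x : Fin k ⊕ Fin m → ℂˣ => (pr b x j : ℂ)) = fun x => (ch (k9pra_B m b j) x : ℂ) := by
    funext x
    rw [k9pra_pr]
  rw [h2]
  exact h

theorem k9pra_zpow {z : ℂ} (hz : IsAlgebraic ℚ z) (n : ℤ) : IsAlgebraic ℚ (z ^ n) := by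
  rcases n with n | n
  · rw [Int.ofNat_eq_natCast, zpow_natCast]
    exact hz.pow n
  · rw [zpow_negSucc]
    exact (hz.pow _).inv

/-- Clearing denominators: a character times a monomial is a monomial. -/
theorem k9pra_mono {F K κ : Type} [Field F] [Field K] [Algebra K F] [Fintype κ] (c : κ → ℤ) :
    ∃ u v : MvPolynomial κ K, ∀ x : κ → Fˣ, aeval (co x) v ≠ 0 ∧
      aeval (co x) u = aeval (co x) v * (ch c x : F) := by
  classical
  refine ⟨∏ j, X j ^ (c j).toNat, ∏ j, X j ^ (-c j).toNat, fun x => ⟨?_, ?_⟩⟩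
  · rw [map_prod]
    simp only [map_pow, aeval_X]
    exact Finset.prod_ne_zero_iff.mpr fun j _ => pow_ne_zero _ (co_ne_zero x j)
  · rw [map_prod, map_prod]
    simp only [map_pow, aeval_X]
    have h2 : ch c x * (∏ j, x j ^ (-c j).toNat) = ∏ j, x j ^ (c j).toNat := by
      unfold ch
      rw [← Finset.prod_mul_distrib]
      apply Finset.prod_congr rfl
      intro j _
      rw [← zpow_natCast, ← zpow_natCast, ← zpow_add]
      congr 1
      rw [Int.toNat_eq_max, Int.toNat_eq_max]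
      omega
    have h3 := congrArg Units.val h2
    push_cast at h3
    rw [mul_comm]
    exact h3.symm

/-- Pull back of polynomials under a monomial map, compatible with the components over a subfield. -/
theorem k9pra_pull {F K κ κ' : Type} [Field F] [Field K] [Algebra K F] [Fintype κ]
    (B : κ' → κ → ℤ) (p : MvPolynomial κ' F) :
    ∃ (h : MvPolynomial κ F) (u : MvPolynomial κ K), ∀ x : κ → Fˣ, aeval (co x) u ≠ 0 ∧
      aeval (co x) h = aeval (co x) u * aeval (co (fun j => ch (B j) x)) p ∧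
      ∀ φ : F →ₗ[K] K, aeval (co x) (cmpl φ h) =
        aeval (co x) u * aeval (co (fun j => ch (B j) x)) (cmpl φ p) := by
  induction p using MvPolynomial.induction_on with
  | C c => exact ⟨C c, 1, fun x => ⟨by rw [map_one]; exact one_ne_zero, by
      rw [map_one, one_mul, aeval_C, aeval_C], fun φ => by
      rw [map_one, one_mul, cmpl_C, cmpl_C, aeval_C, aeval_C]⟩⟩
  | add p q hp hq =>
    obtain ⟨h1, m1, hh1⟩ := hp
    obtain ⟨h2, m2, hh2⟩ := hq
    refine ⟨MvPolynomial.map (algebraMap K F) m2 * h1 + MvPolynomial.map (algebraMap K F) m1 * h2, m1 * m2,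
      fun x => ?_⟩
    obtain ⟨e1, e2, e3⟩ := hh1 x
    obtain ⟨f1, f2, f3⟩ := hh2 x
    refine ⟨by rw [map_mul]; exact mul_ne_zero e1 f1, ?_, fun φ => ?_⟩
    · rw [map_add, map_mul, map_mul, aeval_map_algebraMap, aeval_map_algebraMap, e2, f2, map_mul, map_add]
      ring
    · rw [cmpl_add, cmpl_map_mul, cmpl_map_mul, cmpl_add, map_add, map_mul, map_mul, e3, f3, map_mul, map_add]
      ring
  | mul_X p i hp =>
    obtain ⟨h1, m1, hh1⟩ := hp
    obtain ⟨u, v, huv⟩ := k9pra_mono (F := F) (K := K) (B i)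
    refine ⟨MvPolynomial.map (algebraMap K F) u * h1, m1 * v, fun x => ?_⟩
    obtain ⟨e1, e2, e3⟩ := hh1 x
    obtain ⟨f1, f2⟩ := huv x
    have hc : co (fun j => ch (B j) x) i = (ch (B i) x : F) := rfl
    refine ⟨by rw [map_mul]; exact mul_ne_zero e1 f1, ?_, fun φ => ?_⟩
    · rw [map_mul, aeval_map_algebraMap, e2, f2, map_mul, map_mul, aeval_X, hc]
      ring
    · rw [cmpl_map_mul, map_mul, e3, f2, cmpl_mul_X, map_mul, map_mul, aeval_X, hc]
      ring

theorem k9pra_pull0 {F K κ κ' : Type} [Field F] [Field K] [Algebra K F] [Fintype κ]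
    (B : κ' → κ → ℤ) (p : MvPolynomial κ' K) :
    ∃ (h : MvPolynomial κ K) (u : MvPolynomial κ K), ∀ x : κ → Fˣ, aeval (co x) u ≠ 0 ∧
      aeval (co x) h = aeval (co x) u * aeval (co (fun j => ch (B j) x)) p := by
  induction p using MvPolynomial.induction_on with
  | C c => exact ⟨C c, 1, fun x => ⟨by rw [map_one]; exact one_ne_zero, by
      rw [map_one, one_mul, aeval_C, aeval_C]⟩⟩
  | add p q hp hq =>
    obtain ⟨h1, m1, hh1⟩ := hp
    obtain ⟨h2, m2, hh2⟩ := hq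
    refine ⟨m2 * h1 + m1 * h2, m1 * m2, fun x => ?_⟩
    obtain ⟨e1, e2⟩ := hh1 x
    obtain ⟨f1, f2⟩ := hh2 x
    refine ⟨by rw [map_mul]; exact mul_ne_zero e1 f1, ?_⟩
    rw [map_add, map_mul, map_mul, e2, f2, map_mul, map_add]
    ring
  | mul_X p i hp =>
    obtain ⟨h1, m1, hh1⟩ := hp
    obtain ⟨u, v, huv⟩ := k9pra_mono (F := F) (K := K) (B i)
    refine ⟨u * h1, m1 * v, fun x => ?_⟩
    obtain ⟨e1, e2⟩ := hh1 x
    obtain ⟨f1, f2⟩ := huv x
    have hc : co (fun j => ch (B j) x) i = (ch (B i) x : F) := rfl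
    refine ⟨by rw [map_mul]; exact mul_ne_zero e1 f1, ?_⟩
    rw [map_mul, e2, f2, map_mul, map_mul, aeval_X, hc]
    ring

/-- Row Z9-PRa. PROOF. Images of irreducible sets under monomial maps: `PIrr.image`, `d1_ratMap`, `phi b` (used in Z5/G2.lean, ZPA); the closure of a `PIrr` set is irreducible (`irr_cl`). -/
theorem pr_irr (b : Fin l → Fin k → ℤ) {V : Set (Fin k ⊕ Fin m → ℂˣ)} (hV : Irr V) :
    Irr (cl ℂ (pr b '' V) : Set (Fin l ⊕ Fin m → ℂˣ)) :=
  (hV.pirr.image (k9pra_ratMap b V)).cl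

/-- A polynomial over `acl ∅` pulls back to a polynomial over `acl ∅` (times a monomial); so the closure of the image of a set defined over `acl ∅` is defined over `acl ∅` (see `cl_core`, `mem_vI_cl`, `k8g4f_cl` or Image.lean, Ext.lean). -/
theorem pr_acl (b : Fin l → Fin k → ℤ) {V : Set (Fin k ⊕ Fin m → ℂˣ)} (hVa : cl (acl (∅ : Set ℂ)) V = V) :
    cl (acl (∅ : Set ℂ)) (cl ℂ (pr b '' V)) = cl ℂ (pr b '' V) := by
  have hac := isAlgClosed_acl (∅ : Set ℂ)
  apply Set.Subset.antisymm _ (subset_cl _)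
  intro x hx p hp
  apply aeval_eq_zero_of_cmpl (k := acl (∅ : Set ℂ))
  intro φ
  have h1 : cmpl φ p ∈ vI (acl (∅ : Set ℂ)) (pr b '' V) := by
    rw [mem_vI]
    rintro _ ⟨v, hv, rfl⟩
    obtain ⟨X, hX, hvX⟩ := exists_comp_mem (closed_of_cl hVa) hv
    have hXa := Comp.cl hVa hX
    obtain ⟨h, u, huh⟩ := k9pra_pull (K := acl (∅ : Set ℂ)) (k9pra_B m b) p
    have h2 : h ∈ vI ℂ X := by
      rw [mem_vI]
      intro y hy
      obtain ⟨-, e2, -⟩ := huh y
      rw [e2, ← k9pra_pr]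
      have h3 := (mem_vI.mp hp) (pr b y) ⟨y, hX.subset hy, rfl⟩
      rw [h3, mul_zero]
    rw [← hXa, mem_vI_cl hX.irr.pirr] at h2
    have h4 := (mem_vI.mp (h2 φ)) v hvX
    obtain ⟨e1, -, e3⟩ := huh v
    rw [e3 φ, ← k9pra_pr] at h4
    exact (mul_eq_zero.mp h4).resolve_left e1
  have h5 : cmpl φ p ∈ vI (acl (∅ : Set ℂ)) (cl ℂ (pr b '' V)) := by
    rw [mem_vI]
    intro y hy
    have h6 : MvPolynomial.map (algebraMap (acl (∅ : Set ℂ)) ℂ) (cmpl φ p) ∈ vI ℂ (pr b '' V) := by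
      rw [mem_vI]
      intro z hz
      rw [aeval_map_algebraMap]
      exact mem_vI.mp h1 z hz
    have h7 := hy _ h6
    rw [aeval_map_algebraMap] at h7
    exact h7
  exact hx _ h5

theorem pr_gn (b : Fin l → Fin k → ℤ) {V : Set (Fin k ⊕ Fin m → ℂˣ)} {P : ℕ → Fin k ⊕ Fin m → ℂˣ} (hP : Gn V P) :
    Gn (cl ℂ (pr b '' V)) (fun n => pr b (P n)) where
  mem n := subset_cl _ ⟨P n, hP.mem n, rfl⟩
  alg n i := by
    rw [k9pra_pr]
    show IsAlgebraic ℚ ((ch (k9pra_B m b i) (P n) : ℂˣ) : ℂ)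
    unfold ch
    rw [Units.coe_prod]
    have h1 : ∀ s : Finset (Fin k ⊕ Fin m), IsAlgebraic ℚ (∏ j ∈ s, ((P n j ^ k9pra_B m b i j : ℂˣ) : ℂ)) := by
      intro s
      induction s using Finset.induction_on with
      | empty => simpa using isAlgebraic_one
      | insert a s ha ih =>
        rw [Finset.prod_insert ha]
        refine IsAlgebraic.mul ?_ ih
        rw [Units.val_zpow_eq_zpow_val]
        exact k9pra_zpow (hP.alg n a) _
    exact h1 _
  gen Z hZ hZa hV := by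
    have h1 := hP.gen (pr b ⁻¹' Z) ((k9pra_ratMap b Set.univ).preimage_closed hZ) ?_ ?_
    · exact h1
    · apply Set.Subset.antisymm _ (subset_cl _)
      intro x hx
      show pr b x ∈ Z
      rw [← hZa]
      intro q hq
      obtain ⟨h, u, huh⟩ := k9pra_pull0 (F := ℂ) (K := acl (∅ : Set ℂ)) (k9pra_B m b) q
      have h2 : h ∈ vI (acl (∅ : Set ℂ)) (pr b ⁻¹' Z) := by
        rw [mem_vI]
        intro y hy
        obtain ⟨-, e2⟩ := huh y
        rw [e2, ← k9pra_pr, mem_vI.mp hq (pr b y) hy, mul_zero]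
      have h3 := hx h h2
      obtain ⟨e1, e2⟩ := huh x
      rw [e2, ← k9pra_pr] at h3
      exact (mul_eq_zero.mp h3).resolve_left e1
    · intro h
      exact hV (cl_subset (by rintro _ ⟨v, hv, rfl⟩; exact h hv) hZ)

/-- The transposed map on exponent vectors. -/
def k9prb_T (m : ℕ) (b : Fin l → Fin k → ℤ) : (Fin l ⊕ Fin m → ℤ) →ₗ[ℤ] (Fin k ⊕ Fin m → ℤ) where
  toFun v := Sum.elim (fun i => ∑ j, v (Sum.inl j) * b j i) (fun i => v (Sum.inr i))
  map_add' v w := by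
    funext i
    rcases i with i | i
    · simp [add_mul, Finset.sum_add_distrib]
    · simp
  map_smul' c v := by
    funext i
    rcases i with i | i
    · simp [Finset.mul_sum, mul_assoc]
    · simp

theorem k9prb_ch (b : Fin l → Fin k → ℤ) (v : Fin l ⊕ Fin m → ℤ) (p : Fin k ⊕ Fin m → ℂˣ) :
    ch v (pr b p) = ch (k9prb_T m b v) p := by
  unfold ch pr
  rw [Fintype.prod_sum_type, Fintype.prod_sum_type]
  congr 1
  simp only [k9prb_T, LinearMap.coe_mk, AddHom.coe_mk, Sum.elim_inl]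
  have h1 : ∀ i : Fin k, p (Sum.inl i) ^ (∑ j, v (Sum.inl j) * b j i) =
      ∏ j, (p (Sum.inl i) ^ b j i) ^ v (Sum.inl j) := by
    intro i
    have h2 : ∀ s : Finset (Fin l), p (Sum.inl i) ^ (∑ j ∈ s, v (Sum.inl j) * b j i) =
        ∏ j ∈ s, (p (Sum.inl i) ^ b j i) ^ v (Sum.inl j) := by
      intro s
      classical
      induction s using Finset.induction_on with
      | empty => simp
      | insert a s ha ih =>
        rw [Finset.sum_insert ha, Finset.prod_insert ha, zpow_add, ih, ← zpow_mul, mul_comm (v _)]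
    exact h2 _
  simp only [h1]
  rw [Finset.prod_comm]
  apply Finset.prod_congr rfl
  intro j _
  unfold ch
  rw [← Finset.prod_zpow]

theorem k9prb_inj {b : Fin l → Fin k → ℤ} (hb : LinearIndependent ℤ b) :
    Function.Injective (k9prb_T m b) := by
  rw [injective_iff_map_eq_zero]
  intro v hv
  funext i
  rcases i with i | i
  · have h1 := Fintype.linearIndependent_iff.mp hb (fun j => v (Sum.inl j)) (by
      funext i
      have h2 := congrFun hv (Sum.inl i)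
      simp only [k9prb_T, LinearMap.coe_mk, AddHom.coe_mk, Sum.elim_inl, Pi.zero_apply] at h2
      simpa [Finset.sum_apply] using h2) i
    simpa using h1
  · have h2 := congrFun hv (Sum.inr i)
    simpa [k9prb_T] using h2

theorem k9prb_mem (b : Fin l → Fin k → ℤ) (v : Fin l ⊕ Fin m → ℤ) (V : Set (Fin k ⊕ Fin m → ℂˣ)) :
    v ∈ Lam (pr b '' V) ↔ k9prb_T m b v ∈ Lam V := by
  rw [mem_Lam, mem_Lam]
  simp only [Set.forall_mem_image, k9prb_ch]

/-- Row Z9-PRb. PROOF. `b` linearly independent: the pull back of characters `ℤ^l × ℤ^m → ℤ^k × ℤ^m` is injective, maps `Lam {pr b p}` to `Lam {p}`, and `Lam {p}` modulo the part in the image (saturated up to finite index) has rank `≤ k - l`. -/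
theorem pr_rk {b : Fin l → Fin k → ℤ} (hb : LinearIndependent ℤ b) (p : Fin k ⊕ Fin m → ℂˣ) :
    rk ({p} : Set (Fin k ⊕ Fin m → ℂˣ)) + l ≤ rk ({pr b p} : Set (Fin l ⊕ Fin m → ℂˣ)) + k := by
  have hi : Function.Injective (k9prb_T m b) := k9prb_inj hb
  set T := k9prb_T m b with hT
  let Λ := Lam ({p} : Set (Fin k ⊕ Fin m → ℂˣ))
  let Λ' := Lam ({pr b p} : Set (Fin l ⊕ Fin m → ℂˣ))
  let f : Λ →ₗ[ℤ] ((Fin k ⊕ Fin m → ℤ) ⧸ LinearMap.range T) := (LinearMap.range T).mkQ.comp Λ.subtype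
  have h1 := finrank_le_ker_add f
  have h2 : Module.finrank ℤ (LinearMap.range f) ≤
      Module.finrank ℤ ((Fin k ⊕ Fin m → ℤ) ⧸ LinearMap.range T) := Submodule.finrank_le _
  have h3 := Submodule.finrank_quotient_add_finrank (LinearMap.range T)
  have h4 : Module.finrank ℤ (LinearMap.range T) = l + m := by
    rw [LinearMap.finrank_range_of_inj hi, Module.finrank_fintype_fun_eq_card]
    simp
  have h5 : Module.finrank ℤ (Fin k ⊕ Fin m → ℤ) = k + m := by
    rw [Module.finrank_fintype_fun_eq_card]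
    simp
  have h6 : Module.finrank ℤ (LinearMap.ker f) ≤ Module.finrank ℤ (Λ'.map T) := by
    have hmem : ∀ x : LinearMap.ker f, ((x : Λ) : Fin k ⊕ Fin m → ℤ) ∈ Λ'.map T := by
      rintro ⟨⟨v, hv⟩, hx⟩
      have h7 : v ∈ LinearMap.range T := by
        rw [LinearMap.mem_ker] at hx
        exact (Submodule.Quotient.mk_eq_zero _).mp hx
      obtain ⟨w, rfl⟩ := h7
      refine ⟨w, ?_, rfl⟩
      have h8 : w ∈ Lam (pr b '' {p}) := (k9prb_mem b w {p}).mpr hv
      rwa [Set.image_singleton] at h8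
    let g : LinearMap.ker f →ₗ[ℤ] Λ'.map T :=
      LinearMap.codRestrict _ (Λ.subtype.comp (LinearMap.ker f).subtype) hmem
    apply LinearMap.finrank_le_finrank_of_injective (f := g)
    intro x y hxy
    have h7 : ((g x : Λ'.map T) : Fin k ⊕ Fin m → ℤ) = (g y : Λ'.map T) := congrArg Subtype.val hxy
    apply Subtype.ext
    apply Subtype.ext
    exact h7
  have h9 : Module.finrank ℤ (Λ'.map T) ≤ Module.finrank ℤ Λ' := Submodule.finrank_map_le T Λ'
  have h10 : rk ({p} : Set (Fin k ⊕ Fin m → ℂˣ)) = Module.finrank ℤ Λ := rfl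
  have h11 : rk ({pr b p} : Set (Fin l ⊕ Fin m → ℂˣ)) = Module.finrank ℤ Λ' := rfl
  omega

theorem rk_pr {b : Fin l → Fin k → ℤ} (hb : LinearIndependent ℤ b) (V : Set (Fin k ⊕ Fin m → ℂˣ)) :
    rk (cl ℂ (pr b '' V) : Set (Fin l ⊕ Fin m → ℂˣ)) ≤ rk V := by
  rw [rk_cl]
  unfold rk
  have hi : Function.Injective (k9prb_T m b) := k9prb_inj hb
  have hmem : ∀ x : Lam (pr b '' V), ((k9prb_T m b).comp (Lam (pr b '' V)).subtype) x ∈ Lam V := by
    rintro ⟨v, hv⟩
    have h1 : k9prb_T m b v ∈ Lam V := (k9prb_mem b v V).mp hv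
    exact h1
  let g : Lam (pr b '' V) →ₗ[ℤ] Lam V :=
    LinearMap.codRestrict (Lam V) ((k9prb_T m b).comp (Lam (pr b '' V)).subtype) hmem
  have hg : Function.Injective g := by
    intro x y hxy
    have h7 : ((g x : Lam V) : Fin k ⊕ Fin m → ℤ) = (g y : Lam V) := congrArg Subtype.val hxy
    apply Subtype.ext
    exact hi h7
  exact LinearMap.finrank_le_finrank_of_injective hg

theorem pr_sub {C : Set (Fin m → ℂˣ)} (hC : ZClosed C) (b : Fin l → Fin k → ℤ) {V : Set (Fin k ⊕ Fin m → ℂˣ)}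
    (hV : ∀ p ∈ V, (fun i => p (Sum.inr i)) ∈ C) :
    ∀ p ∈ (cl ℂ (pr b '' V) : Set (Fin l ⊕ Fin m → ℂˣ)), (fun i => p (Sum.inr i)) ∈ C := by
  have h1 : ZClosed (pull (Sum.inr : Fin m → Fin l ⊕ Fin m) ⁻¹' C : Set (Fin l ⊕ Fin m → ℂˣ)) :=
    (ratMap_pull Set.univ _).preimage_closed hC
  have h2 : cl ℂ (pr b '' V) ⊆ (pull (Sum.inr : Fin m → Fin l ⊕ Fin m) ⁻¹' C : Set (Fin l ⊕ Fin m → ℂˣ)) :=
    cl_subset (by rintro _ ⟨v, hv, rfl⟩; exact hV v hv) h1
  exact fun p hp => h2 hp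

theorem k9prc_pull {κ κ' : Type} [Finite κ] [Finite κ'] {X : Set (κ → ℂˣ)} (hX : PIrr X) (e : κ' → κ) :
    td ℂ (pull e '' X) ≤ td ℂ X := by
  obtain ⟨s, hs, hc⟩ := exists_basis' (k := ℂ) (hX.pull e)
  rw [← hc, ← Nat.card_coe_set_eq]
  refine IndF.card_le (f := fun i : s => e i) ?_ hX
  intro p hp
  apply hs p
  rintro _ ⟨x, hx, rfl⟩
  exact hp x hx

theorem k9prc_algl {κ κ' : Type} [Fintype κ] [Fintype κ'] {X : Set (κ → ℂˣ)} {u : (κ → ℂˣ) → (κ' → ℂˣ)}
    (hX : PIrr (gr u '' X)) (a : κ) {N : ℤ} (hN : N ≠ 0) (w : κ' → ℤ) (h : ∀ x ∈ X, x a ^ N = ch w (u x)) :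
    IsAlgebraic (Algebra.adjoin ℂ (gen ℂ (gr u '' X) '' Set.range Sum.inr)) (gen ℂ (gr u '' X) (Sum.inl a)) := by
  classical
  have hm : (inlM (Pi.single a N) - inrM w : κ ⊕ κ' → ℤ) ∈ Lam (gr u '' X) := by
    rw [mem_Lam]
    refine ⟨1, one_pos, ?_⟩
    rintro _ ⟨y, hy, rfl⟩
    rw [pow_one, sub_eq_add_neg, ch_add, ch_neg, ch_inlM, ch_inrM, ch_single]
    have h1 : (gr u y ∘ Sum.inl) a = y a := rfl
    have h2 : gr u y ∘ Sum.inr = u y := rfl
    rw [h1, h2, h y hy, mul_inv_cancel]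
  refine gen_alg_of_torsion hX hm (i0 := Sum.inl a) ?_ _ ?_
  · simpa [inrM, inlM] using hN
  · rintro (j | n) h1 h2
    · exfalso
      apply h2
      have h3 : j ≠ a := fun h => h1 (congrArg Sum.inl h)
      show (Pi.single a N : κ → ℤ) j - 0 = 0
      rw [Pi.single_eq_of_ne h3, sub_zero]
    · exact ⟨n, rfl⟩

theorem k9prc_algr {κ κ' : Type} [Fintype κ] [Fintype κ'] {X : Set (κ → ℂˣ)} {u : (κ → ℂˣ) → (κ' → ℂˣ)}
    (hX : PIrr (gr u '' X)) (n : κ') (w : κ → ℤ) (h : ∀ x ∈ X, u x n = ch w x) :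
    IsAlgebraic (Algebra.adjoin ℂ (gen ℂ (gr u '' X) '' Set.range Sum.inl)) (gen ℂ (gr u '' X) (Sum.inr n)) := by
  classical
  have hm : (inrM (Pi.single n 1) - inlM w : κ ⊕ κ' → ℤ) ∈ Lam (gr u '' X) := by
    rw [mem_Lam]
    refine ⟨1, one_pos, ?_⟩
    rintro _ ⟨y, hy, rfl⟩
    rw [pow_one, sub_eq_add_neg, ch_add, ch_neg, ch_inlM, ch_inrM, ch_single, zpow_one]
    have h1 : (gr u y ∘ Sum.inr) n = u y n := rfl
    have h2 : gr u y ∘ Sum.inl = y := rfl
    rw [h1, h2, h y hy, mul_inv_cancel]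
  refine gen_alg_of_torsion hX hm (i0 := Sum.inr n) ?_ _ ?_
  · simp [inrM, inlM]
  · rintro (j | n') h1 h2
    · exact ⟨j, rfl⟩
    · exfalso
      apply h2
      have h3 : n' ≠ n := fun h => h1 (congrArg Sum.inr h)
      show (Pi.single n 1 : κ' → ℤ) n' - 0 = 0
      rw [Pi.single_eq_of_ne h3, sub_zero]

/-- A monomial map which determines the coordinates up to finitely many values keeps the dimension. -/
theorem k9prc_td {κ κ' : Type} [Fintype κ] [Fintype κ'] {X : Set (κ → ℂˣ)} (hX : PIrr X)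
    {u : (κ → ℂˣ) → (κ' → ℂˣ)} (hu : RatMap X u) (hr : ∀ n, ∃ w : κ → ℤ, ∀ x ∈ X, u x n = ch w x)
    (hl : ∀ a, ∃ N : ℤ, N ≠ 0 ∧ ∃ w : κ' → ℤ, ∀ x ∈ X, x a ^ N = ch w (u x)) :
    td ℂ (u '' X) = td ℂ X := by
  have hX' : PIrr (gr u '' X) := hX.image hu.gr
  have hP := vI_isPrime (k := ℂ) hX'
  have hdom : IsDomain (MvPolynomial (κ ⊕ κ') ℂ ⧸ vI ℂ (gr u '' X)) := Ideal.Quotient.isDomain _
  have h1 : ∀ i, IsAlgebraic (Algebra.adjoin ℂ (gen ℂ (gr u '' X) '' Set.range Sum.inl))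
      (gen ℂ (gr u '' X) i) := by
    rintro (j | n)
    · exact isAlgebraic_algebraMap (⟨gen ℂ (gr u '' X) (Sum.inl j), Algebra.subset_adjoin ⟨_, ⟨j, rfl⟩, rfl⟩⟩ :
        Algebra.adjoin ℂ (gen ℂ (gr u '' X) '' Set.range Sum.inl))
    · obtain ⟨w, hw⟩ := hr n
      exact k9prc_algr hX' n w hw
  have h2 : ∀ i, IsAlgebraic (Algebra.adjoin ℂ (gen ℂ (gr u '' X) '' Set.range Sum.inr))
      (gen ℂ (gr u '' X) i) := by
    rintro (j | n)
    · obtain ⟨N, hN, w, hw⟩ := hl j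
      exact k9prc_algl hX' j hN w hw
    · exact isAlgebraic_algebraMap (⟨gen ℂ (gr u '' X) (Sum.inr n), Algebra.subset_adjoin ⟨_, ⟨n, rfl⟩, rfl⟩⟩ :
        Algebra.adjoin ℂ (gen ℂ (gr u '' X) '' Set.range Sum.inr))
  have h3 := td_le_pull (k := ℂ) hX' (e := (Sum.inl : κ → κ ⊕ κ')) Sum.inl_injective (Set.range Sum.inl) h1
  have h4 := td_le_pull (k := ℂ) hX' (e := (Sum.inr : κ' → κ ⊕ κ')) Sum.inr_injective (Set.range Sum.inr) h2
  have h5 := k9prc_pull hX' (Sum.inl : κ → κ ⊕ κ')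
  have h6 := k9prc_pull hX' (Sum.inr : κ' → κ ⊕ κ')
  rw [Set.sdiff_self, Set.ncard_empty, add_zero] at h3 h4
  rw [pull_inl_gr] at h3 h5
  rw [pull_inr_gr] at h4 h6
  omega

theorem k9prc_root {n : ℤ} (hn : n ≠ 0) (t : ℂˣ) : ∃ g : ℂˣ, g ^ n = t := by
  have hnat : ∀ (N : ℕ), N ≠ 0 → ∀ t : ℂˣ, ∃ g : ℂˣ, g ^ N = t := by
    intro N hN t
    obtain ⟨z, hz⟩ := IsAlgClosed.exists_pow_nat_eq (t : ℂ) (Nat.pos_of_ne_zero hN)
    have hz0 : z ≠ 0 := by
      rintro rfl
      rw [zero_pow hN] at hz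
      exact t.ne_zero hz.symm
    exact ⟨Units.mk0 z hz0, Units.ext (by rw [Units.val_pow_eq_pow_val, Units.val_mk0, hz])⟩
  obtain ⟨N, rfl | rfl⟩ := n.eq_nat_or_neg
  · obtain ⟨g, hg⟩ := hnat N (by simpa using hn) t
    exact ⟨g, by rw [zpow_natCast, hg]⟩
  · obtain ⟨g, hg⟩ := hnat N (by simpa using hn) t⁻¹
    exact ⟨g, by rw [zpow_neg, zpow_natCast, hg, inv_inv]⟩

/-- Row Z9-PRc. PROOF. `e = (e_0, …, e_k) ≠ 0`, `b` a basis of the lattice of the `v` with `∑ e_j v_j = 0` (rank `k`). Say `e_i ≠ 0`. The coordinate `x_i` is transcendental over the coordinates of `pr b` on `V`: if `F(pr b p, x_i) = 0` on `V`, `F = ∑_s F_s x_i^s`, then for all `g` also `∑_s F_s(pr b p) g^(s e_i) x_i^s = 0`, so all `F_s (pr b p) = 0`. And the other `x_j` are algebraic over `pr b`, `x_i` (`e_i (Pi.single j 1) - e_j (Pi.single i 1)` is a combination of the `b`). So `td V = td (pr b V) + 1`. -/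
theorem td_pr_stab {V : Set (Fin (k + 1) ⊕ Fin m → ℂˣ)} (hV : Irr V) {e : Fin (k + 1) → ℤ} (he : e ≠ 0)
    (hst : ∀ p ∈ V, ∀ g : ℂˣ, (Sum.elim (fun j => p (Sum.inl j) * g ^ e j) (fun i => p (Sum.inr i)) :
      Fin (k + 1) ⊕ Fin m → ℂˣ) ∈ V) :
    ∃ b : Fin k → Fin (k + 1) → ℤ, LinearIndependent ℤ b ∧
      td ℂ V = td ℂ (cl ℂ (pr b '' V) : Set (Fin k ⊕ Fin m → ℂˣ)) + 1 := by
  classical
  obtain ⟨i, hi⟩ : ∃ i, e i ≠ 0 := by
    by_contra h
    push Not at h
    exact he (funext h)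
  set b : Fin k → Fin (k + 1) → ℤ := fun j =>
    Pi.single (i.succAbove j) (e i) - Pi.single i (e (i.succAbove j)) with hb
  have hbl : LinearIndependent ℤ b := by
    rw [Fintype.linearIndependent_iff]
    intro g hg j
    have h1 := congrFun hg (i.succAbove j)
    rw [Finset.sum_apply, Finset.sum_eq_single j] at h1
    · rw [hb] at h1
      simp only [Pi.smul_apply, Pi.sub_apply, Pi.single_eq_same, smul_eq_mul, Pi.zero_apply,
        Pi.single_eq_of_ne (Fin.succAbove_ne i j), sub_zero] at h1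
      exact (mul_eq_zero.1 h1).resolve_right hi
    · intro l _ hl
      rw [hb]
      have h2 : i.succAbove j ≠ i.succAbove l := fun h => hl (Fin.succAbove_right_injective h).symm
      simp only [Pi.smul_apply, Pi.sub_apply, Pi.single_eq_of_ne h2,
        Pi.single_eq_of_ne (Fin.succAbove_ne i j), sub_zero, smul_zero]
    · intro h
      exact absurd (Finset.mem_univ _) h
  have hchb : ∀ (j : Fin k) (z : Fin (k + 1) → ℂˣ), ch (b j) z = z (i.succAbove j) ^ e i *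
      (z i ^ e (i.succAbove j))⁻¹ := by
    intro j z
    rw [hb]
    simp only
    rw [sub_eq_add_neg, ch_add, ch_neg, ch_single, ch_single]
  refine ⟨b, hbl, ?_⟩
  rw [td_cl]
  -- the map to the product
  set u : (Fin (k + 1) ⊕ Fin m → ℂˣ) → ((Fin k ⊕ Fin m) ⊕ Unit → ℂˣ) := fun p =>
    Sum.elim (pr b p) (fun _ => p (Sum.inl i)) with hu
  have hr : ∀ n, ∃ w : Fin (k + 1) ⊕ Fin m → ℤ, ∀ x, u x n = ch w x := by
    rintro ((j | l) | -)
    · refine ⟨inlM (b j), fun x => ?_⟩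
      rw [ch_inlM]
      rfl
    · refine ⟨Pi.single (Sum.inr l) 1, fun x => ?_⟩
      rw [ch_single, zpow_one]
      rfl
    · refine ⟨Pi.single (Sum.inl i) 1, fun x => ?_⟩
      rw [ch_single, zpow_one]
      rfl
  have hrat : RatMap V u := by
    intro n
    obtain ⟨w, hw⟩ := hr n
    simp only [hw]
    exact ratOn_ch V w
  have hl : ∀ a, ∃ N : ℤ, N ≠ 0 ∧ ∃ w : (Fin k ⊕ Fin m) ⊕ Unit → ℤ, ∀ x ∈ V, x a ^ N = ch w (u x) := by
    rintro (l | l)
    · by_cases hli : l = i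
      · refine ⟨1, one_ne_zero, Pi.single (Sum.inr ()) 1, fun x _ => ?_⟩
        rw [ch_single, hli]
        rfl
      · obtain ⟨j, rfl⟩ := Fin.exists_succAbove_eq hli
        refine ⟨e i, hi, Pi.single (Sum.inl (Sum.inl j)) 1 + Pi.single (Sum.inr ()) (e (i.succAbove j)),
          fun x _ => ?_⟩
        rw [ch_add, ch_single, ch_single, zpow_one]
        show x (Sum.inl (i.succAbove j)) ^ e i = ch (b j) (fun i => x (Sum.inl i)) *
          x (Sum.inl i) ^ e (i.succAbove j)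
        rw [hchb, inv_mul_cancel_right]
    · refine ⟨1, one_ne_zero, Pi.single (Sum.inl (Sum.inr l)) 1, fun x _ => ?_⟩
      rw [ch_single]
      rfl
  have h1 := k9prc_td hV.pirr hrat (fun n => (hr n).imp fun w h x _ => h x) hl
  -- the image is a product
  have himg : u '' V = prodSet (pr b '' V) (Set.univ : Set (Unit → ℂˣ)) := by
    apply Set.Subset.antisymm
    · rintro _ ⟨p, hp, rfl⟩
      exact ⟨⟨p, hp, rfl⟩, trivial⟩
    · rintro w ⟨⟨p, hp, hp2⟩, -⟩
      obtain ⟨g, hg⟩ : ∃ g : ℂˣ, g ^ e i = w (Sum.inr ()) * (p (Sum.inl i))⁻¹ := k9prc_root hi _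
      refine ⟨Sum.elim (fun j => p (Sum.inl j) * g ^ e j) (fun i => p (Sum.inr i)), hst p hp g, ?_⟩
      have h2 : pr b (Sum.elim (fun j => p (Sum.inl j) * g ^ e j) (fun i => p (Sum.inr i)) :
          Fin (k + 1) ⊕ Fin m → ℂˣ) = pr b p := by
        funext n
        rcases n with j | l
        · show ch (b j) (fun l => p (Sum.inl l) * g ^ e l) = ch (b j) (fun l => p (Sum.inl l))
          rw [hchb, hchb]
          simp only [mul_zpow, ← zpow_mul]
          rw [mul_comm (e (i.succAbove j)) (e i), mul_inv, mul_mul_mul_comm, mul_inv_cancel, mul_one]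
        · rfl
      funext n
      rcases n with n | n
      · show pr b _ n = w (Sum.inl n)
        rw [h2]
        exact congrFun hp2 n
      · show p (Sum.inl i) * g ^ e i = w (Sum.inr n)
        rw [hg, mul_comm (w _), mul_inv_cancel_left]
  have hW : PIrr (pr b '' V) := by
    have h2 : pull Sum.inl '' (u '' V) = pr b '' V := by
      rw [Set.image_image]
      rfl
    rw [← h2]
    exact (hV.pirr.image hrat).pull _
  have h2 : td ℂ (pr b '' V) + 1 ≤ td ℂ (u '' V) := by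
    rw [himg]
    have h3 := td_prod_ge (F := ℂ) (k := ℂ) hW (B := (Set.univ : Set (Unit → ℂˣ))) irr_univ.pirr
    rwa [td_univ, Fintype.card_unit] at h3
  have h3 : td ℂ (u '' V) ≤ td ℂ (pr b '' V) + 1 := by
    have h4 := td_le_pull' (k := ℂ) (hV.pirr.image hrat) (e := (Sum.inl : Fin k ⊕ Fin m → (Fin k ⊕ Fin m) ⊕ Unit))
      Sum.inl_injective
    have h5 : pull Sum.inl '' (u '' V) = pr b '' V := by
      rw [Set.image_image]
      rfl
    have h6 : (Set.range (Sum.inl : Fin k ⊕ Fin m → (Fin k ⊕ Fin m) ⊕ Unit))ᶜ.ncard = 1 := by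
      rw [Set.ncard_eq_one]
      refine ⟨Sum.inr (), ?_⟩
      ext x
      rcases x with x | x
      · simp
      · simp
    rwa [h5, h6] at h4
  omega

end Pool.Agent.Z9
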