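import Pool.Agent.Z9.LN
import Pool.Agent.Z9.EX
import Pool.Agent.Z9.PR
import Pool.Agent.Z9.CO
import Pool.Agent.Z9.T8

open MvPolynomial Pool.Agent.MP_dd1803_nt Pool.Agent.ZPA Pool.Agent.ZL2

namespace Pool.Agent.Z9

open Filter Topology
open Pool.Agent.Z8 (Fam Cyl k8g4d_fib)

variable {k m : ℕ} {C : Set (Fin m → ℂˣ)}

/-- The linear equation. -/
noncomputable def k9t9_pol (m : ℕ) (a b : ℂ) : MvPolynomial (Fin 2 ⊕ Fin m) ℂ :=
  MvPolynomial.C a * X (Sum.inl 0) + MvPolynomial.C b * X (Sum.inl 1) - 1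

/-- The line over the point `y0`. -/
def k9t9_E (a b : ℂ) (y0 : Fin m → ℂˣ) : Set (Fin 2 ⊕ Fin m → ℂˣ) := Cyl 2 {y0} ∩ zp (k9t9_pol m a b)

theorem k9t9_mem {a b : ℂ} {y0 : Fin m → ℂˣ} {x : Fin 2 ⊕ Fin m → ℂˣ} : x ∈ k9t9_E a b y0 ↔
    (fun i => x (Sum.inr i)) = y0 ∧ a * (x (Sum.inl 0) : ℂ) + b * (x (Sum.inl 1) : ℂ) = 1 := by
  unfold k9t9_E k9t9_pol
  rw [Set.mem_inter_iff, mem_zp, map_sub, map_add, map_mul, map_mul, aeval_C, aeval_C, aeval_X, aeval_X, map_one,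
    sub_eq_zero]
  rfl

theorem k9t9_closed (a b : ℂ) (y0 : Fin m → ℂˣ) : ZClosed (k9t9_E a b y0) :=
  (k8g4d_fib y0).1.closed.inter (zclosed_zp _)

/-- The dimension is at most one. -/
theorem k9t9_td {a b : ℂ} (ha : a ≠ 0) {y0 : Fin m → ℂˣ} {W : Set (Fin 2 ⊕ Fin m → ℂˣ)} (hW : Irr W)
    (hWE : W ⊆ k9t9_E a b y0) : td ℂ W ≤ 1 := by
  obtain ⟨h1, h2⟩ := k8g4d_fib (k := 2) y0
  have h3 : W ⊂ Cyl 2 {y0} := by
    refine ⟨hWE.trans Set.inter_subset_left, fun h4 => ?_⟩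
    have h5 : ∀ t : ℂˣ, a * (t : ℂ) + b = 1 := by
      intro t
      have h6 : (Sum.elim ![t, 1] y0 : Fin 2 ⊕ Fin m → ℂˣ) ∈ k9t9_E a b y0 := hWE (h4 (by
        show (fun i => (Sum.elim ![t, 1] y0 : Fin 2 ⊕ Fin m → ℂˣ) (Sum.inr i)) ∈ ({y0} : Set (Fin m → ℂˣ))
        rfl))
      have h7 := (k9t9_mem.1 h6).2
      have h8 : a * (t : ℂ) + b * ((1 : ℂˣ) : ℂ) = 1 := h7
      rwa [Units.val_one, mul_one] at h8
    have h6 := h5 1
    have h7 := h5 (-1)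
    rw [Units.val_neg, Units.val_one] at h7
    rw [Units.val_one] at h6
    apply ha
    linear_combination (h6 - h7) / 2
  have h4 := td_lt hW h1 h3
  omega

/-- Characters with a nonzero part at `x` take a value finitely often on the line. -/
theorem k9t9_mono {a b : ℂ} (ha : a ≠ 0) (hb : b ≠ 0) {y0 : Fin m → ℂˣ} {v : Fin 2 ⊕ Fin m → ℤ}
    (hv : v ∘ Sum.inl ≠ 0) (z : ℂˣ) : {x : Fin 2 ⊕ Fin m → ℂˣ | x ∈ k9t9_E a b y0 ∧ ch v x = z}.Finite := by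
  by_contra hinf
  let φ : (Fin 2 ⊕ Fin m → ℂˣ) → ℂ := fun x => (x (Sum.inl 0) : ℂ)
  have hx1 : ∀ x ∈ k9t9_E a b y0, (x (Sum.inl 1) : ℂ) = (-a / b) * ((x (Sum.inl 0) : ℂ) - 1 / a) := by
    intro x hx
    have h1 := (k9t9_mem.1 hx).2
    field_simp
    linear_combination h1
  have hφ : Set.InjOn φ {x : Fin 2 ⊕ Fin m → ℂˣ | x ∈ k9t9_E a b y0 ∧ ch v x = z} := by
    rintro x ⟨hx, -⟩ x' ⟨hx', -⟩ h
    have h0 : (x (Sum.inl 0) : ℂ) = (x' (Sum.inl 0) : ℂ) := h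
    have h1 : (x (Sum.inl 1) : ℂ) = (x' (Sum.inl 1) : ℂ) := by
      rw [hx1 x hx, hx1 x' hx', h0]
    funext i
    rcases i with i | i
    · fin_cases i
      · exact Units.ext h0
      · exact Units.ext h1
    · have h2 := (k9t9_mem.1 hx).1
      have h3 := (k9t9_mem.1 hx').1
      rw [← h3] at h2
      exact congrFun h2 i
  have hE : (φ '' {x : Fin 2 ⊕ Fin m → ℂˣ | x ∈ k9t9_E a b y0 ∧ ch v x = z}).Infinite := Set.Infinite.image hφ hinf
  have hcc : ∀ i : Fin 2, (![1, -a / b] : Fin 2 → ℂ) i ≠ 0 := by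
    intro i
    fin_cases i
    · exact one_ne_zero
    · exact div_ne_zero (neg_ne_zero.2 ha) hb
  have hdd : Function.Injective (![0, 1 / a] : Fin 2 → ℂ) := by
    have h1 : (1 / a : ℂ) ≠ 0 := one_div_ne_zero ha
    intro i j hij
    fin_cases i <;> fin_cases j
    · rfl
    · exact absurd hij.symm h1
    · exact absurd hij h1
    · rfl
  have hEd : ∀ t ∈ φ '' {x : Fin 2 ⊕ Fin m → ℂˣ | x ∈ k9t9_E a b y0 ∧ ch v x = z}, ∀ i, t ≠ (![0, 1 / a] : Fin 2 → ℂ) i := by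
    rintro _ ⟨x, ⟨hx, -⟩, rfl⟩ i
    fin_cases i
    · exact (x (Sum.inl 0)).ne_zero
    · intro h
      have h1 := hx1 x hx
      have h2 : (x (Sum.inl 0) : ℂ) = 1 / a := h
      rw [h2, sub_self, mul_zero] at h1
      exact (x (Sum.inl 1)).ne_zero h1
  have key : ∀ t ∈ φ '' {x : Fin 2 ⊕ Fin m → ℂˣ | x ∈ k9t9_E a b y0 ∧ ch v x = z},
      ∏ i, ((![1, -a / b] : Fin 2 → ℂ) i * (t - (![0, 1 / a] : Fin 2 → ℂ) i)) ^ (v ∘ Sum.inl) i =
        ((z * (ch (v ∘ Sum.inr) y0)⁻¹ : ℂˣ) : ℂ) := by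
    rintro _ ⟨x, ⟨hx, hxz⟩, rfl⟩
    rw [Fin.prod_univ_two]
    show (1 * ((x (Sum.inl 0) : ℂ) - 0)) ^ v (Sum.inl 0) *
      ((-a / b) * ((x (Sum.inl 0) : ℂ) - 1 / a)) ^ v (Sum.inl 1) = _
    rw [one_mul, sub_zero, ← hx1 x hx, ← hxz, ch_sum]
    have h1 : x ∘ Sum.inr = y0 := (k9t9_mem.1 hx).1
    rw [h1, mul_inv_cancel_right]
    unfold ch
    rw [Fin.prod_univ_two, Units.val_mul, Units.val_zpow_eq_zpow_val, Units.val_zpow_eq_zpow_val]
    rfl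
  obtain ⟨j, hj⟩ := Function.ne_iff.1 hv
  rcases lt_or_gt_of_ne hj with h1 | h1
  · refine k9ex_mon hcc hdd (fun i => - (v ∘ Sum.inl) i) (z := (((z * (ch (v ∘ Sum.inr) y0)⁻¹ : ℂˣ) : ℂ))⁻¹)
      (inv_ne_zero (Units.ne_zero _)) hE hEd (fun t ht => ?_) j ?_
    · rw [← key t ht, ← Finset.prod_inv_distrib]
      exact Finset.prod_congr rfl fun i _ => zpow_neg _ _
    · show 0 < - (v ∘ Sum.inl) j
      have h2 : (v ∘ Sum.inl) j < 0 := h1
      omega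
  · exact k9ex_mon hcc hdd (v ∘ Sum.inl) (Units.ne_zero _) hE hEd key j h1

/-- The division hull of the group generated by the coordinates of `y0`. -/
def k9t9_R (y0 : Fin m → ℂˣ) (z : ℂˣ) : Prop := ∃ (e : ℤ) (n : Fin m → ℤ), e ≠ 0 ∧ z ^ e = ch n y0

theorem k9t9_root {A : Set ℂ} {z : ℂˣ} {e : ℤ} (he : e ≠ 0) (h : ((z ^ e : ℂˣ) : ℂ) ∈ acl A) : (z : ℂ) ∈ acl A := by
  have h1 : ((z ^ e.natAbs : ℂˣ) : ℂ) ∈ acl A := by
    rcases Int.natAbs_eq e with h2 | h2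
    · rw [h2, zpow_natCast] at h
      exact h
    · rw [h2, zpow_neg, zpow_natCast, Units.val_inv_eq_inv_val] at h
      have h3 := inv_mem h
      rwa [inv_inv] at h3
  rw [Units.val_pow_eq_pow_val] at h1
  rw [mem_acl] at h1 ⊢
  exact h1.of_pow (Int.natAbs_pos.2 he)

theorem k9t9_chmem {κ : Type} [Fintype κ] {A : Set ℂ} {y : κ → ℂˣ} (h : ∀ i, (y i : ℂ) ∈ acl A) (n : κ → ℤ) :
    ((ch n y : ℂˣ) : ℂ) ∈ acl A := by
  unfold ch
  rw [Units.coe_prod]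
  refine prod_mem fun i _ => ?_
  rw [Units.val_zpow_eq_zpow_val]
  exact zpow_mem (h i) _

theorem k9t9_Rmem {A : Set ℂ} {y0 : Fin m → ℂˣ} (h : ∀ i, (y0 i : ℂ) ∈ acl A) {z : ℂˣ} (hz : k9t9_R y0 z) :
    (z : ℂ) ∈ acl A := by
  obtain ⟨e, n, he, hen⟩ := hz
  apply k9t9_root he
  rw [hen]
  exact k9t9_chmem h n

theorem k9t9_clpt {κ : Type} [Fintype κ] {A : Set ℂ} {P : κ → ℂˣ} (h : ∀ i, (P i : ℂ) ∈ acl A) :
    cl (acl A) ({P} : Set (κ → ℂˣ)) = {P} := by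
  refine Set.Subset.antisymm ?_ (subset_cl _)
  intro x hx
  rw [Set.mem_singleton_iff]
  funext i
  apply Units.ext
  have h1 : (MvPolynomial.X i - MvPolynomial.C ⟨(P i : ℂ), h i⟩ : MvPolynomial κ (acl A)) ∈
      vI (acl A) ({P} : Set (κ → ℂˣ)) := by
    rw [mem_vI]
    intro p hp
    rw [Set.mem_singleton_iff.1 hp, map_sub, aeval_X, aeval_C]
    exact sub_self _
  have h2 := hx _ h1
  rw [map_sub, aeval_X, aeval_C] at h2
  exact sub_eq_zero.1 h2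

/-- The closure of a union of irreducible sets over `acl A` is defined over `acl A`. -/
theorem k9t9_cl {κ : Type} [Fintype κ] {A : Set ℂ} {S : Set (κ → ℂˣ)} (hS : ∀ P ∈ S, ∀ i, (P i : ℂ) ∈ acl A) :
    cl (acl A) (cl ℂ S) = cl ℂ S := by
  have hac : IsAlgClosed (acl A) := isAlgClosed_acl A
  apply Set.Subset.antisymm _ (subset_cl _)
  rw [cl_cl (acl A) ℂ]
  intro x hx p hp
  apply aeval_eq_zero_of_cmpl (k := acl A)
  intro φ
  apply hx
  rw [SetLike.mem_coe, mem_vI]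
  intro y hy
  have h1 : p ∈ vI ℂ (cl (acl A) ({y} : Set (κ → ℂˣ))) := by
    rw [k9t9_clpt (hS y hy)]
    exact vI_anti (Set.singleton_subset_iff.2 hy) hp
  rw [mem_vI_cl (pirr_singleton y)] at h1
  exact mem_vI.1 (h1 φ) y rfl

/-- A generic sequence of points. -/
theorem k9t9_seq {κ : Type} [Fintype κ] {A : Set ℂ} (hA : A.Finite) {Ps : Set (κ → ℂˣ)}
    (hPA : ∀ P ∈ Ps, ∀ i, (P i : ℂ) ∈ acl A) (hinf : Ps.Infinite) :
    ∃ (W : Set (κ → ℂˣ)) (P : ℕ → κ → ℂˣ), Irr W ∧ W ⊆ cl ℂ Ps ∧ W.Infinite ∧ (∀ n, P n ∈ Ps) ∧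
      GenS (acl A) W (fun n => ({P n} : Set (κ → ℂˣ))) ∧ ∀ q, ∀ᶠ n in cofinite, P n ≠ q := by
  have hac : IsAlgClosed (acl A) := isAlgClosed_acl A
  have hD : ZClosed (cl ℂ Ps) := zclosed_cl _
  obtain ⟨W, hW, hWi⟩ : ∃ W, Comp (cl ℂ Ps) W ∧ (Ps ∩ W).Infinite := by
    by_contra hcon
    push Not at hcon
    apply hinf
    refine ((finite_comp hD).biUnion fun W (hW : Comp (cl ℂ Ps) W) => hcon W hW).subset ?_
    intro P hP
    obtain ⟨W, hW, hPW⟩ := exists_comp_mem hD (subset_cl _ hP)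
    exact Set.mem_biUnion (x := W) hW ⟨hP, hPW⟩
  have hWinf : W.Infinite := hWi.mono Set.inter_subset_right
  obtain ⟨X, hg, hX⟩ := exists_gens hA hW.irr (Comp.cl (k9t9_cl hPA) hW)
    (S := {X | ∃ P ∈ Ps, P ∈ W ∧ ({P} : Set (κ → ℂˣ)) = X}) (by
      rintro _ ⟨P, hP, hPW, rfl⟩
      exact ⟨irr_singleton P, k9t9_clpt (hPA P hP), Set.singleton_subset_iff.2 hPW⟩) (by
      intro Z hZ hSZ
      refine k9g5_dense hW hZ ?_
      rintro P ⟨hP, hPW⟩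
      exact Set.singleton_subset_iff.1 (hSZ {P} ⟨P, hP, hPW, rfl⟩))
  choose P hP hPW hPX using hX
  have hX' : X = fun n => ({P n} : Set (κ → ℂˣ)) := funext fun n => (hPX n).symm
  rw [hX'] at hg
  refine ⟨W, P, hW.irr, hW.subset, hWinf, hP, hg, fun q => ?_⟩
  by_cases hq : ∃ n, P n = q
  · obtain ⟨n0, hn0⟩ := hq
    have h5 : cl (acl A) ({q} : Set (κ → ℂˣ)) = {q} := by
      rw [← hn0]
      exact k9t9_clpt (hPA _ (hP n0))
    have h6 : ¬ W ⊆ ({q} : Set (κ → ℂˣ)) := fun h7 => hWinf ((Set.finite_singleton q).subset h7)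
    filter_upwards [hg.gen {q} h5 h6] with n hn h7
    exact hn (by rw [h7])
  · push Not at hq
    exact Filter.Eventually.of_forall hq

/-- The rank of the lattice of algebraic characters of a point over `y0` whose `x`-part is in the division hull. -/
theorem k9t9_ar {y0 : Fin m → ℂˣ} {P : Fin k ⊕ Fin m → ℂˣ} (hy : P ∘ Sum.inr = y0)
    (hR : ∀ j, k9t9_R y0 (P (Sum.inl j))) : k + ar ({y0} : Set (Fin m → ℂˣ)) ≤ ar ({P} : Set (Fin k ⊕ Fin m → ℂˣ)) := by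
  choose e n he hen using hR
  let b : Fin k → Fin k ⊕ Fin m → ℤ := fun j => Sum.elim (Pi.single j (e j)) (-n j)
  have hb : ∀ j, ch (b j) P = 1 := by
    intro j
    rw [ch_sum, hy]
    show ch (Pi.single j (e j)) (P ∘ Sum.inl) * ch (-n j) y0 = 1
    rw [ch_single, ch_neg]
    show P (Sum.inl j) ^ e j * (ch (n j) y0)⁻¹ = 1
    rw [hen j, mul_inv_cancel]
  have hLmem : ∀ u : Fin k → ℤ, Fintype.linearCombination ℤ b u ∈ Alat ({P} : Set (Fin k ⊕ Fin m → ℂˣ)) := by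
    intro u
    rw [Fintype.linearCombination_apply]
    refine Submodule.sum_mem _ fun j _ => Submodule.smul_mem _ _ ?_
    refine ⟨1, by rw [Units.val_one]; exact one_mem _, fun x hx => ?_⟩
    rw [Set.mem_singleton_iff.1 hx]
    exact hb j
  have hRmem : ∀ w ∈ Alat ({y0} : Set (Fin m → ℂˣ)), (inrM w : Fin k ⊕ Fin m → ℤ) ∈
      Alat ({P} : Set (Fin k ⊕ Fin m → ℂˣ)) := by
    rintro w ⟨c, hc, hw⟩
    refine ⟨c, hc, fun x hx => ?_⟩
    rw [Set.mem_singleton_iff.1 hx, ch_inrM, hy]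
    exact hw y0 rfl
  let g : ((⊤ : Submodule ℤ (Fin k → ℤ)) × Alat ({y0} : Set (Fin m → ℂˣ))) →ₗ[ℤ]
      Alat ({P} : Set (Fin k ⊕ Fin m → ℂˣ)) :=
    LinearMap.codRestrict (Alat ({P} : Set (Fin k ⊕ Fin m → ℂˣ)))
      ((Fintype.linearCombination ℤ b).comp ((⊤ : Submodule ℤ (Fin k → ℤ)).subtype.comp (LinearMap.fst ℤ _ _)) +
        (inrM (κ := Fin k)).comp ((Alat ({y0} : Set (Fin m → ℂˣ))).subtype.comp (LinearMap.snd ℤ _ _))) (by
      rintro ⟨⟨u, hu⟩, ⟨w, hw⟩⟩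
      exact Submodule.add_mem _ (hLmem u) (hRmem w hw))
  have h1 := finrank_prod_le g (by
    rw [injective_iff_map_eq_zero]
    rintro ⟨⟨u, hu⟩, ⟨w, hw⟩⟩ h
    have h4 : Fintype.linearCombination ℤ b u + (inrM w : Fin k ⊕ Fin m → ℤ) = 0 := congrArg Subtype.val h
    rw [Fintype.linearCombination_apply] at h4
    have h5 : u = 0 := by
      funext j
      have h6 := congrFun h4 (Sum.inl j)
      rw [Pi.add_apply, Finset.sum_apply] at h6
      have h7 : ∀ i ∈ Finset.univ, i ≠ j → (u i • b i) (Sum.inl j) = 0 := by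
        intro i _ hij
        show u i * (Pi.single i (e i) : Fin k → ℤ) j = 0
        rw [Pi.single_eq_of_ne (Ne.symm hij), mul_zero]
      rw [Finset.sum_eq_single j h7 (fun h => absurd (Finset.mem_univ j) h)] at h6
      have h8 : u j * (Pi.single j (e j) : Fin k → ℤ) j + 0 = 0 := h6
      rw [Pi.single_eq_same, add_zero] at h8
      exact (mul_eq_zero.1 h8).resolve_right (he j)
    have h6 : w = 0 := by
      subst h5
      funext i
      have h6 := congrFun h4 (Sum.inr i)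
      simp only [Pi.zero_apply, zero_smul, Finset.sum_const_zero, zero_add] at h6
      exact h6
    subst h5
    subst h6
    rfl)
  have h2 : Module.finrank ℤ (⊤ : Submodule ℤ (Fin k → ℤ)) = k := by
    rw [finrank_top, Module.finrank_fintype_fun_eq_card, Fintype.card_fin]
  rw [h2] at h1
  exact h1

/-- Unit equation, the case where the coordinates are algebraic up to fixed factors. -/
theorem k9t9_alg {a b : ℂ} (ha : a ≠ 0) (hb : b ≠ 0) {y0 : Fin m → ℂˣ} {τ : Fin 2 → ℂˣ} (hτ : ∀ j, k9t9_R y0 (τ j))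
    {G : Set (Fin 2 ⊕ Fin m → ℂˣ)} (hG : ∀ P ∈ G, P ∈ k9t9_E a b y0) (hR : ∀ P ∈ G, ∀ j, k9t9_R y0 (P (Sum.inl j)))
    (hal : ∀ P ∈ G, ∀ j, ((P (Sum.inl j) * (τ j)⁻¹ : ℂˣ) : ℂ) ∈ acl (∅ : Set ℂ)) : G.Finite := by
  classical
  by_contra hinf
  -- the values are determined by the quotients
  have hline : ∀ P ∈ G, (a * (τ 0 : ℂ)) * ((P (Sum.inl 0) * (τ 0)⁻¹ : ℂˣ) : ℂ) +
      (b * (τ 1 : ℂ)) * ((P (Sum.inl 1) * (τ 1)⁻¹ : ℂˣ) : ℂ) = 1 := by
    intro P hP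
    have h1 := (k9t9_mem.1 (hG P hP)).2
    rw [Units.val_mul, Units.val_mul, Units.val_inv_eq_inv_val, Units.val_inv_eq_inv_val]
    have h2 := (τ 0).ne_zero
    have h3 := (τ 1).ne_zero
    field_simp
    linear_combination h1
  have hinj : ∀ P ∈ G, ∀ Q ∈ G, ((P (Sum.inl 0) * (τ 0)⁻¹ : ℂˣ) : ℂ) = ((Q (Sum.inl 0) * (τ 0)⁻¹ : ℂˣ) : ℂ) →
      ((P (Sum.inl 1) * (τ 1)⁻¹ : ℂˣ) : ℂ) = ((Q (Sum.inl 1) * (τ 1)⁻¹ : ℂˣ) : ℂ) → P = Q := by
    intro P hP Q hQ h0 h1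
    funext i
    rcases i with i | i
    · fin_cases i
      · exact mul_right_cancel (Units.ext h0)
      · exact mul_right_cancel (Units.ext h1)
    · have h2 := (k9t9_mem.1 (hG P hP)).1
      have h3 := (k9t9_mem.1 (hG Q hQ)).1
      rw [← h3] at h2
      exact congrFun h2 i
  obtain ⟨P, hP, Q, hQ, hPQ⟩ := Set.Infinite.nontrivial hinf
  have hal' : ∀ P ∈ G, ∀ j, IsAlgebraic ℚ ((P (Sum.inl j) * (τ j)⁻¹ : ℂˣ) : ℂ) := fun P hP j =>
    mem_acl_empty.1 (hal P hP j)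
  obtain ⟨haa, hba⟩ := Z6.g3d_alg (hline P hP) (hline Q hQ) (Units.ne_zero _) (hal' P hP 0) (hal' P hP 1) (hal' Q hQ 0)
    (hal' Q hQ 1) (fun h => hPQ (hinj P hP Q hQ h.1 h.2))
  -- the lattice of algebraic characters of `y0`
  obtain ⟨s, hs⟩ : ∃ s, s = Module.finrank ℤ (Alat ({y0} : Set (Fin m → ℂˣ))) := ⟨_, rfl⟩
  let B : Module.Basis (Fin s) ℤ (Alat ({y0} : Set (Fin m → ℂˣ))) := hs ▸ Module.finBasis ℤ (Alat ({y0} : Set (Fin m → ℂˣ)))
  let b0 : Fin s → Fin m → ℤ := fun l => (B l : Fin m → ℤ)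
  have hη : ∀ l, IsAlgebraic ℚ ((phi b0 y0 l : ℂˣ) : ℂ) := by
    intro l
    obtain ⟨c, hc, hcc⟩ := (B l).2
    have h1 : phi b0 y0 l = c := hcc y0 rfl
    rw [h1]
    exact mem_acl_empty.1 hc
  have hrep : ∀ n ∈ Alat ({y0} : Set (Fin m → ℂˣ)), ∃ c : Fin s → ℤ, ch c (phi b0 y0) = ch n y0 := by
    intro n hn
    refine ⟨fun l => B.repr ⟨n, hn⟩ l, ?_⟩
    rw [d1_ch]
    congr 1
    have h1 := congrArg (fun z : Alat ({y0} : Set (Fin m → ℂˣ)) => (z : Fin m → ℤ)) (B.sum_repr ⟨n, hn⟩)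
    simp only [Submodule.coe_sum, Submodule.coe_smul] at h1
    exact h1
  -- the quotients are in the division hull of the algebraic values
  have hrel : ∀ P ∈ G, ∀ j, ∃ (e : ℤ) (c : Fin s → ℤ), e ≠ 0 ∧ (P (Sum.inl j) * (τ j)⁻¹) ^ e = ch c (phi b0 y0) := by
    intro P hP j
    obtain ⟨e, n, he, hen⟩ := hR P hP j
    obtain ⟨e', n', he', hen'⟩ := hτ j
    have h1 : (P (Sum.inl j) * (τ j)⁻¹) ^ (e * e') = ch (e' • n - e • n') y0 := by
      rw [sub_eq_add_neg, ch_add, ch_neg, ch_zsmul, ch_zsmul, ← hen, ← hen', mul_zpow, inv_zpow, ← zpow_mul, ← zpow_mul,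
        mul_comm e' e]
    have h2 : e' • n - e • n' ∈ Alat ({y0} : Set (Fin m → ℂˣ)) := by
      refine ⟨_, ?_, fun x hx => by rw [Set.mem_singleton_iff.1 hx]⟩
      rw [← h1, Units.val_zpow_eq_zpow_val]
      exact zpow_mem (hal P hP j) _
    obtain ⟨c, hc⟩ := hrep _ h2
    exact ⟨e * e', c, mul_ne_zero he he', by rw [h1, hc]⟩
  -- the number field
  obtain ⟨α, hα⟩ : ∃ α : ℂ, α = a * (τ 0 : ℂ) := ⟨_, rfl⟩
  obtain ⟨β, hβ⟩ : ∃ β : ℂ, β = b * (τ 1 : ℂ) := ⟨_, rfl⟩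
  rw [← hα] at haa
  rw [← hβ] at hba
  have hα0 : α ≠ 0 := by rw [hα]; exact mul_ne_zero ha (τ 0).ne_zero
  have hβ0 : β ≠ 0 := by rw [hβ]; exact mul_ne_zero hb (τ 1).ne_zero
  set S : Set ℂ := {α, β} ∪ Set.range (fun l => ((phi b0 y0 l : ℂˣ) : ℂ)) with hS
  have hSfin : S.Finite := ((Set.finite_singleton β).insert α).union (Set.finite_range _)
  have hSalg : ∀ z ∈ S, IsIntegral ℚ z := by
    rintro z ((rfl | rfl) | ⟨i, rfl⟩)
    · exact haa.isIntegral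
    · exact hba.isIntegral
    · exact (hη i).isIntegral
  have : Finite S := hSfin
  let F : IntermediateField ℚ ℂ := IntermediateField.adjoin ℚ S
  have hFfin : FiniteDimensional ℚ F := IntermediateField.finiteDimensional_adjoin hSalg
  have hFn : NumberField F := ⟨⟩
  let a' : F := ⟨α, IntermediateField.subset_adjoin ℚ S (Or.inl (Or.inl rfl))⟩
  let b' : F := ⟨β, IntermediateField.subset_adjoin ℚ S (Or.inl (Or.inr rfl))⟩
  let y' : Fin s → F := fun i => ⟨((phi b0 y0 i : ℂˣ) : ℂ), IntermediateField.subset_adjoin ℚ S (Or.inr ⟨i, rfl⟩)⟩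
  have ha' : a' ≠ 0 := fun h => hα0 (congrArg Subtype.val h)
  have hb' : b' ≠ 0 := fun h => hβ0 (congrArg Subtype.val h)
  have hy' : ∀ i, y' i ≠ 0 := fun i h => (phi b0 y0 i).ne_zero (congrArg Subtype.val h)
  have hfin := Z6.k2_fin ha' hb' hy'
  let ψ : (Fin 2 ⊕ Fin m → ℂˣ) → ℂ × ℂ := fun P =>
    (((P (Sum.inl 0) * (τ 0)⁻¹ : ℂˣ) : ℂ), ((P (Sum.inl 1) * (τ 1)⁻¹ : ℂˣ) : ℂ))
  have hψ : Set.InjOn ψ G := by
    intro P hP P' hP' h
    exact hinj P hP P' hP' (congrArg Prod.fst h) (congrArg Prod.snd h)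
  have hR' : ∀ P ∈ G, ∀ j : Fin 2, Z6.k2_R y' ℂ ((P (Sum.inl j) * (τ j)⁻¹ : ℂˣ) : ℂ) := by
    intro P hP j
    obtain ⟨e, n, he, h⟩ := hrel P hP j
    refine ⟨e, n, he, ?_⟩
    have h1 := congrArg Units.val h
    rw [Units.val_zpow_eq_zpow_val] at h1
    rw [h1]
    unfold ch
    rw [Units.coe_prod]
    refine Finset.prod_congr rfl fun i _ => ?_
    rw [Units.val_zpow_eq_zpow_val]
    rfl
  refine Set.Infinite.image hψ hinf (hfin.subset ?_)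
  rintro _ ⟨P, hP, rfl⟩
  refine ⟨(P (Sum.inl 0) * (τ 0)⁻¹).ne_zero, (P (Sum.inl 1) * (τ 1)⁻¹).ne_zero, ?_, hR' P hP 0, hR' P hP 1⟩
  have h1 := hline P hP
  rw [← hα, ← hβ] at h1
  exact h1

/-- THE UNIT EQUATION over the complex numbers: the line `a x_0 + b x_1 = 1`, `a b ≠ 0`, has only finitely many points with
coordinates in the division hull of a finitely generated group. -/
theorem k9t9_unit {a b : ℂ} (ha : a ≠ 0) (hb : b ≠ 0) {y0 : Fin m → ℂˣ} {Ps : Set (Fin 2 ⊕ Fin m → ℂˣ)}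
    (hE : ∀ P ∈ Ps, P ∈ k9t9_E a b y0) (hR : ∀ P ∈ Ps, ∀ j, k9t9_R y0 (P (Sum.inl j))) : Ps.Finite := by
  classical
  by_contra hinf
  obtain ⟨A, hAdef⟩ : ∃ A : Set ℂ, A = Set.range (fun i => (y0 i : ℂ)) := ⟨_, rfl⟩
  have hA : A.Finite := hAdef ▸ Set.finite_range _
  have hyA : ∀ i, (y0 i : ℂ) ∈ acl A := fun i => subset_acl A (hAdef ▸ Set.mem_range_self (f := fun i => (y0 i : ℂ)) i)
  have hPA : ∀ P ∈ Ps, ∀ i, (P i : ℂ) ∈ acl A := by
    rintro P hP (j | i)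
    · exact k9t9_Rmem hyA (hR P hP j)
    · have h1 : P (Sum.inr i) = y0 i := congrFun (k9t9_mem.1 (hE P hP)).1 i
      rw [h1]
      exact hyA i
  obtain ⟨W, P, hW, hWD, hWinf, hP, hg, hne⟩ := k9t9_seq hA hPA hinf
  have hWE : W ⊆ k9t9_E a b y0 := hWD.trans (cl_subset hE (k9t9_closed a b y0))
  have htdW := k9t9_td ha hW hWE
  obtain ⟨U, hU⟩ : ∃ U : Ultrafilter ℕ, (U : Filter ℕ) ≤ cofinite := ⟨Filter.hyperfilter ℕ, Filter.hyperfilter_le_cofinite⟩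
  let Γ : Submodule ℤ (Fin 2 ⊕ Fin m → ℤ) :=
    { carrier := {v | ∀ᶠ n in (U : Filter ℕ), v ∈ Alat ({P n} : Set (Fin 2 ⊕ Fin m → ℂˣ))}
      zero_mem' := Filter.Eventually.of_forall fun n => Submodule.zero_mem _
      add_mem' := by
        intro v w hv hw
        filter_upwards [hv, hw] with n h1 h2
        exact Submodule.add_mem _ h1 h2
      smul_mem' := by
        intro a v hv
        filter_upwards [hv] with n h1
        exact Submodule.smul_mem _ _ h1 }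
  have hΓ : ∀ v, v ∈ Γ ↔ ∀ᶠ n in (U : Filter ℕ), v ∈ Alat ({P n} : Set (Fin 2 ⊕ Fin m → ℂˣ)) := fun v => Iff.rfl
  have hPy : ∀ n, P n ∘ Sum.inr = y0 := fun n => (k9t9_mem.1 (hE _ (hP n))).1
  -- the inequality
  obtain ⟨hg0, hcd⟩ := hg.down hA
  have hac : IsAlgClosed (acl (∅ : Set ℂ)) := isAlgClosed_acl _
  have hWr : ∀ n, cd ({P n} : Set (Fin 2 ⊕ Fin m → ℂˣ)) = rk ({P n} : Set (Fin 2 ⊕ Fin m → ℂˣ)) := by
    intro n
    unfold cd
    rw [td_singleton']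
    omega
  have htd : ∀ᶠ n in (U : Filter ℕ), td ℂ (cl (acl (∅ : Set ℂ)) W) ≤
      td ℂ (cl (acl (∅ : Set ℂ)) ({P n} : Set (Fin 2 ⊕ Fin m → ℂˣ))) + 1 := by
    filter_upwards [hU hcd] with n hn
    rw [hWr] at hn
    unfold cd at hn
    rw [rk_cl, rk_cl] at hn
    omega
  have hΓ' : ∀ v, v ∈ Γ ↔ ∀ᶠ n in (U : Filter ℕ), v ∈ Alat (cl (acl (∅ : Set ℂ)) ({P n} : Set (Fin 2 ⊕ Fin m → ℂˣ))) := by
    intro v
    rw [hΓ]
    simp only [Alat_cl]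
  have hax : ∀ {r : ℕ} (b : Fin r → Fin 2 ⊕ Fin m → ℤ), (∀ j, b j ∈ Γ) → ∀ᶠ n in (U : Filter ℕ),
      ar ({P n} : Set (Fin 2 ⊕ Fin m → ℂˣ)) + td (acl (∅ : Set ℂ)) (phi b '' cl (acl (∅ : Set ℂ)) W) ≤
        Module.finrank ℤ Γ + 1 := by
    intro r b hb
    filter_upwards [hg0.ax hU hΓ' b hb, htd] with n hn1 hn2
    have h1 : ar (cl (acl (∅ : Set ℂ)) ({P n} : Set (Fin 2 ⊕ Fin m → ℂˣ))) = ar ({P n} : Set (Fin 2 ⊕ Fin m → ℂˣ)) := by
      unfold ar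
      rw [Alat_cl]
    rw [h1] at hn1
    omega
  have hDi : Irr (cl (acl (∅ : Set ℂ)) W) := hg0.irr
  have hpt : ∀ {r : ℕ} (b : Fin r → Fin 2 ⊕ Fin m → ℤ), PIrr (phi b '' cl (acl (∅ : Set ℂ)) W) := fun b =>
    hDi.pirr.image (d1_ratMap _ b)
  have har : ∀ n, 2 + ar ({y0} : Set (Fin m → ℂˣ)) ≤ ar ({P n} : Set (Fin 2 ⊕ Fin m → ℂˣ)) := fun n =>
    k9t9_ar (hPy n) (hR _ (hP n))
  -- the projection to the `x`-part
  let f : Γ →ₗ[ℤ] (Fin 2 → ℤ) := (LinearMap.funLeft ℤ ℤ (Sum.inl : Fin 2 → Fin 2 ⊕ Fin m)).comp Γ.subtype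
  have hfr := finrank_le_ker_add f
  have hker : Module.finrank ℤ (LinearMap.ker f) ≤ ar ({y0} : Set (Fin m → ℂˣ)) := by
    have hmem : ∀ w : LinearMap.ker f, (LinearMap.funLeft ℤ ℤ (Sum.inr : Fin m → Fin 2 ⊕ Fin m))
        ((w : Γ) : Fin 2 ⊕ Fin m → ℤ) ∈ Alat ({y0} : Set (Fin m → ℂˣ)) := by
      rintro ⟨⟨w, hw⟩, hw0⟩
      have h1 : w ∘ Sum.inl = 0 := hw0
      obtain ⟨n, c, hc, hcc⟩ := ((hΓ w).1 hw).exists
      refine ⟨c, hc, fun x hx => ?_⟩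
      rw [Set.mem_singleton_iff.1 hx]
      have h3 := hcc (P n) rfl
      rw [ch_sum, h1, ch_zero, one_mul, hPy n] at h3
      exact h3
    let g : LinearMap.ker f →ₗ[ℤ] Alat ({y0} : Set (Fin m → ℂˣ)) := LinearMap.codRestrict _
      ((LinearMap.funLeft ℤ ℤ (Sum.inr : Fin m → Fin 2 ⊕ Fin m)).comp (Γ.subtype.comp (LinearMap.ker f).subtype)) hmem
    apply LinearMap.finrank_le_finrank_of_injective (f := g)
    rw [injective_iff_map_eq_zero]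
    rintro ⟨⟨w, hw⟩, hw0⟩ h
    have h1 : w ∘ Sum.inl = 0 := hw0
    have h2 : w ∘ Sum.inr = 0 := congrArg Subtype.val h
    have h3 : w = 0 := by
      funext i
      rcases i with i | i
      · exact congrFun h1 i
      · exact congrFun h2 i
    subst h3
    rfl
  have h1 : 1 ≤ Module.finrank ℤ (LinearMap.range f) := by
    obtain ⟨n, hn⟩ := (hax (fun i : Fin 0 => (0 : Fin 2 ⊕ Fin m → ℤ)) (fun j => j.elim0)).exists
    have := har n
    omega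
  obtain ⟨v, hv, hv0⟩ : ∃ v ∈ Γ, v ∘ Sum.inl ≠ 0 := by
    by_contra hcon
    push Not at hcon
    have h2 : LinearMap.range f = ⊥ := by
      rw [LinearMap.range_eq_bot]
      apply LinearMap.ext
      rintro ⟨v, hv⟩
      exact hcon v hv
    rw [h2, finrank_bot] at h1
    omega
  have h2 : 2 ≤ Module.finrank ℤ (LinearMap.range f) := by
    have h3 : 1 ≤ td (acl (∅ : Set ℂ)) (phi ![v] '' cl (acl (∅ : Set ℂ)) W) := by
      rw [← td_cl_eq (F := ℂ) (hpt _)]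
      obtain ⟨p, hp⟩ := hW.nonempty
      obtain ⟨q, hq, hqp⟩ := (hWinf.sdiff (k9t9_mono ha hb (y0 := y0) hv0 (ch v p))).nonempty
      refine k9g4_point (irr_cl (hpt _)) (subset_cl _ ⟨p, subset_cl _ hp, rfl⟩)
        (subset_cl _ ⟨q, subset_cl _ hq, rfl⟩) fun h3 => hqp ⟨hWE hq, ?_⟩
      exact (congrFun h3 0).symm
    obtain ⟨n, hn⟩ := (hax ![v] (fun j => by rw [Subsingleton.elim j 0]; exact hv)).exists
    have := har n
    omega
  have h3 : ∀ j : Fin 2, ∃ (N : ℤ) (w : Fin m → ℤ), N ≠ 0 ∧ Sum.elim (Pi.single j N) w ∈ Γ := by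
    intro j
    obtain ⟨N, hN, ⟨⟨v, hv⟩, hvN⟩⟩ := k9laa_fin h2 (Pi.single j 1)
    refine ⟨N, v ∘ Sum.inr, hN, ?_⟩
    have h4 : v ∘ Sum.inl = Pi.single j N := by
      have h5 : v ∘ Sum.inl = N • (Pi.single j 1 : Fin 2 → ℤ) := hvN
      rw [h5, ← Pi.single_smul, smul_eq_mul, mul_one]
    rw [← h4, Sum.elim_comp_inl_inr]
    exact hv
  choose N w hN hNw using h3
  have h4 : ∀ j : Fin 2, ∃ t : ℂˣ, t ^ N j = (ch (w j) y0)⁻¹ := fun j => k9prc_root (hN j) _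
  choose τ hτ using h4
  have hτR : ∀ j, k9t9_R y0 (τ j) := fun j => ⟨N j, - w j, hN j, by rw [hτ j, ch_neg]⟩
  have hfin := k9t9_alg ha hb hτR
    (G := {P | P ∈ Ps ∧ ∀ j, ((P (Sum.inl j) * (τ j)⁻¹ : ℂˣ) : ℂ) ∈ acl (∅ : Set ℂ)}) (fun P hP => hE P hP.1)
    (fun P hP => hR P hP.1) (fun P hP => hP.2)
  have h5 : ∀ᶠ n in (U : Filter ℕ), P n ∈ {P | P ∈ Ps ∧ ∀ j, ((P (Sum.inl j) * (τ j)⁻¹ : ℂˣ) : ℂ) ∈ acl (∅ : Set ℂ)} := by
    have h6 : ∀ᶠ n in (U : Filter ℕ), ∀ j, Sum.elim (Pi.single j (N j)) (w j) ∈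
        Alat ({P n} : Set (Fin 2 ⊕ Fin m → ℂˣ)) := by
      rw [Filter.eventually_all]
      exact fun j => hNw j
    filter_upwards [h6] with n hn
    refine ⟨hP n, fun j => ?_⟩
    obtain ⟨c, hc, hcc⟩ := hn j
    apply k9t9_root (hN j)
    have h7 := hcc (P n) rfl
    rw [ch_sum, hPy n, Sum.elim_comp_inl, Sum.elim_comp_inr, ch_single] at h7
    rw [mul_zpow, inv_zpow, hτ j, inv_inv]
    have h8 : P n (Sum.inl j) ^ N j * ch (w j) y0 = c := h7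
    rw [h8]
    exact hc
  have h6 : ∀ᶠ n in (U : Filter ℕ), ∀ z ∈ hfin.toFinset, P n ≠ z := by
    rw [Filter.eventually_all_finset]
    intro z hz
    exact hU (hne z)
  obtain ⟨n, hn1, hn2⟩ := (h5.and h6).exists
  exact hn2 (P n) ((Set.Finite.mem_toFinset hfin).2 hn1) rfl

section Lines

open Pool.Agent.Z7 (VS Lin g5_W g7_mem_VS g5_eq zclosed_VS)

theorem k9t9_irr (h : HCx C) : Irr (g5_W C) := irr_univ.prodSet h.irr

theorem k9t9_ge (h : HCx C) : 3 ≤ td ℂ (g5_W C) := by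
  have h1 := td_prod_ge (F := ℂ) (k := ℂ) (A := (Set.univ : Set (Fin 2 → ℂˣ))) (B := C) irr_univ.pirr h.irr.pirr
  rw [td_univ, h.dim, Fintype.card_fin] at h1
  exact h1

theorem k9t9_le (h : HCx C) : td ℂ (g5_W C) ≤ 3 := by
  have h1 := td_le_pull' (k := ℂ) (k9t9_irr h).pirr (e := (Sum.inr : Fin m → Fin 2 ⊕ Fin m)) Sum.inr_injective
  have h2 : pull (Sum.inr : Fin m → Fin 2 ⊕ Fin m) '' (g5_W C) ⊆ C := by
    rintro _ ⟨x, hx, rfl⟩
    exact hx.2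
  have h3 : td ℂ (pull (Sum.inr : Fin m → Fin 2 ⊕ Fin m) '' (g5_W C)) ≤ td ℂ C :=
    td_mono ((k9t9_irr h).pirr.pull _) h.irr.pirr h2
  have h4 : (Set.range (Sum.inr : Fin m → Fin 2 ⊕ Fin m))ᶜ.ncard ≤ 2 := by
    rw [Set.compl_range_inr, ← Set.image_univ]
    refine (Set.ncard_image_le Set.finite_univ).trans ?_
    rw [Set.ncard_univ, Nat.card_eq_fintype_card, Fintype.card_fin]
  rw [h.dim] at h3
  omega

/-- Polynomials with a nonzero value on `C` have finitely many zeros on `C`. -/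
theorem k9t9_poly (h : HCx C) {A : MvPolynomial (Fin m) ℂ} (hA : ∃ y ∈ C, MvPolynomial.eval (co y) A ≠ 0) :
    {y : Fin m → ℂˣ | y ∈ C ∧ MvPolynomial.eval (co y) A = 0}.Finite := by
  obtain ⟨y, hy, hyA⟩ := hA
  refine (k9t1_fin h.irr h.dim (zclosed_zp A) fun h1 => hyA ?_).subset ?_
  · have h2 := h1 hy
    rwa [mem_zp, MvPolynomial.aeval_eq_eval] at h2
  · rintro z ⟨hz, hzA⟩
    refine ⟨hz, ?_⟩
    rw [mem_zp, MvPolynomial.aeval_eq_eval]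
    exact hzA

theorem k9t9_dom (h : HCx C) {A B D : MvPolynomial (Fin m) ℂ}
    (hA : ∃ y ∈ C, MvPolynomial.eval (co y) A ≠ 0) (hB : ∃ y ∈ C, MvPolynomial.eval (co y) B ≠ 0)
    (hD : ∃ y ∈ C, MvPolynomial.eval (co y) D ≠ 0) :
    ∃ y ∈ C, MvPolynomial.eval (co y) A ≠ 0 ∧ MvPolynomial.eval (co y) B ≠ 0 ∧ MvPolynomial.eval (co y) D ≠ 0 := by
  have hfin := ((k9t9_poly h hA).union (k9t9_poly h hB)).union (k9t9_poly h hD)
  obtain ⟨y, hyC, hy⟩ := ((k9t1_inf h.irr h.dim).sdiff hfin).nonempty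
  simp only [Set.mem_union, Set.mem_ofPred_eq, not_or, not_and] at hy
  exact ⟨y, hyC, hy.1.1 hyC, hy.1.2 hyC, hy.2 hyC⟩

theorem k9t9_dm [NeZero m] (h : HCx C) {A B D : MvPolynomial (Fin m) ℂ}
    (hA : ∃ y ∈ C, MvPolynomial.eval (co y) A ≠ 0) (hB : ∃ y ∈ C, MvPolynomial.eval (co y) B ≠ 0)
    (hD : ∃ y ∈ C, MvPolynomial.eval (co y) D ≠ 0) : dm (VS C (Lin A B D)) = (2 : WithBot ℕ∞) := by
  obtain ⟨y, hyC, hA0, hB0, hD0⟩ := k9t9_dom h hA hB hD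
  -- a point of the surface and a point of the product outside
  obtain ⟨s, hs0, hs2⟩ : ∃ s : ℂ, s ≠ 0 ∧ MvPolynomial.eval (co y) D - MvPolynomial.eval (co y) A * s ≠ 0 := by
    have hinf : ({0, (MvPolynomial.eval (co y) A)⁻¹ * MvPolynomial.eval (co y) D} : Set ℂ)ᶜ.Infinite :=
      Set.Finite.infinite_compl (Set.toFinite _)
    obtain ⟨s, hs⟩ := hinf.nonempty
    simp only [Set.mem_compl_iff, Set.mem_insert_iff, Set.mem_singleton_iff, not_or] at hs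
    refine ⟨s, hs.1, fun h => hs.2 ?_⟩
    field_simp
    linear_combination -h
  obtain ⟨x, hx⟩ : ∃ x, x ∈ VS C (Lin A B D) := by
    refine ⟨Sum.elim ![Units.mk0 s hs0, Units.mk0 ((MvPolynomial.eval (co y) B)⁻¹ *
      (MvPolynomial.eval (co y) D - MvPolynomial.eval (co y) A * s)) (mul_ne_zero (inv_ne_zero hB0) hs2)] y, ?_⟩
    rw [g7_mem_VS]
    refine ⟨hyC, ?_⟩
    show MvPolynomial.eval (co y) A * s + MvPolynomial.eval (co y) B * ((MvPolynomial.eval (co y) B)⁻¹ *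
      (MvPolynomial.eval (co y) D - MvPolynomial.eval (co y) A * s)) = MvPolynomial.eval (co y) D
    field_simp
    ring
  obtain ⟨d, hd, -, hmax, Z, hZ, hZV, hZd⟩ := exists_dm (F := ℂ) (V := VS C (Lin A B D)) ⟨x, hx⟩
  obtain ⟨p, hp⟩ := g5_eq (C := C) (Φ := Lin A B D)
  have h1 : Z ⊂ g5_W C := by
    refine ⟨fun z hz => ?_, fun hWX => ?_⟩
    · have h2 := hZV hz
      rw [hp] at h2
      exact h2.1
    · have h2 : ∀ t : ℂˣ, MvPolynomial.eval (co y) A * (t : ℂ) + MvPolynomial.eval (co y) B =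
          MvPolynomial.eval (co y) D := by
        intro t
        have h3 : (Sum.elim ![t, 1] y : Fin 2 ⊕ Fin m → ℂˣ) ∈ VS C (Lin A B D) := hZV (hWX ⟨trivial, hyC⟩)
        have h4 : MvPolynomial.eval (co y) A * (t : ℂ) + MvPolynomial.eval (co y) B * ((1 : ℂˣ) : ℂ) =
          MvPolynomial.eval (co y) D := (g7_mem_VS.1 h3).2
        rwa [Units.val_one, mul_one] at h4
      have h6 := h2 1
      have h7 := h2 (-1)
      rw [Units.val_neg, Units.val_one] at h7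
      rw [Units.val_one] at h6
      apply hA0
      linear_combination (h6 - h7) / 2
  have h2 := td_lt hZ (k9t9_irr h) h1
  have h3 := k9t9_le h
  have hcl : ZClosed (g5_W C ∩ zp p) := (k9t9_irr h).closed.inter (zclosed_zp p)
  obtain ⟨Y, hY, -⟩ := exists_comp_mem hcl (hp ▸ hx)
  have h4 := krull (k9t9_irr h) p hY
  have h5 := k9t9_ge h
  have h6 := hmax Y (Comp.irr hY) (by rw [hp]; exact Comp.subset hY)
  have h7 : d = 2 := by omega
  rw [hd, h7]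
  rfl

/-- The fibres over the points of rank at least two. -/
theorem k9t9_two [NeZero m] (h : HCx C) {Φ : MvPolynomial (Fin 2) (MvPolynomial (Fin m) ℂ)} {V : Set (Fin 2 ⊕ Fin m → ℂˣ)}
    (hVd : V = VS C Φ) {y0 : Fin m → ℂˣ} (h2 : 2 ≤ rk ({y0} : Set (Fin m → ℂˣ))) :
    {X | X ∈ MaxE m V ∧ ∀ x ∈ X, ∀ i, x (Sum.inr i) = y0 i}.Finite := by
  have hV : ZClosed V := by
    rw [hVd]
    exact zclosed_VS h.irr.closed
  have hVC : ∀ p ∈ V, (fun i => p (Sum.inr i)) ∈ C := fun p hp => by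
    rw [hVd] at hp
    exact hp.1
  have hcl : ∀ W, Comp V W → ZClosed (W ∩ Pool.Agent.Z8.Cyl 2 {y0}) := fun W hW =>
    hW.irr.closed.inter (Pool.Agent.Z8.k8g4d_fib y0).1.closed
  refine ((finite_comp hV).biUnion fun W (hW : Comp V W) => finite_comp (hcl W hW)).subset ?_
  rintro X ⟨hX, hXy⟩
  obtain ⟨W, hW, hXW⟩ := exists_comp hV (MaxE.irr hX) (MaxE.subset hX)
  obtain ⟨Y, hY, hXY⟩ := exists_comp (hcl W hW) (MaxE.irr hX) (Set.subset_inter hXW fun x hx => funext fun i => hXy x hx i)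
  have h0 : 2 ≤ td ℂ W := by
    obtain ⟨p, hp⟩ := g5_eq (C := C) (Φ := Φ)
    have h1 : Comp (g5_W C ∩ zp p) W := by
      rw [← hp, ← hVd]
      exact hW
    have h3 := krull (k9t9_irr h) p h1
    have h4 := k9t9_ge h
    omega
  have h3 := k9t8_krull h hW.irr (fun p hp => hVC p (hW.subset hp)) hY
  have h4 : 2 ≤ rk Y := by
    have h5 := rk_pull_le (X := Y) (e := (Sum.inr : Fin m → Fin 2 ⊕ Fin m)) Sum.inr_injective
    have h6 : pull (Sum.inr : Fin m → Fin 2 ⊕ Fin m) '' Y ⊆ {y0} := by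
      rintro _ ⟨x, hx, rfl⟩
      exact (hY.subset hx).2
    have h7 := rk_anti h6
    omega
  have h5 : cd Y = rk Y + td ℂ Y := rfl
  have h7 := k9g6_card (k := 2) (m := m)
  rw [MaxE.eq hX hY.irr ((hY.subset.trans Set.inter_subset_left).trans hW.subset) (by omega) hXY]
  exact Set.mem_biUnion (x := W) hW hY

/-- Infinitely many points of rank three over one point of rank at most one: the line is degenerate and lies in a set with
`3 ≤ cd`. -/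
theorem k9t9_fibre {a b c : ℂ} (habc : ¬ (a = 0 ∧ b = 0 ∧ c = 0)) {V : Set (Fin 2 ⊕ Fin m → ℂˣ)} (hV : ZClosed V)
    {y0 : Fin m → ℂˣ} (hy1 : rk ({y0} : Set (Fin m → ℂˣ)) ≤ 1) {Ps : Set (Fin 2 ⊕ Fin m → ℂˣ)}
    (hl : ∀ P ∈ Ps, a * (P (Sum.inl 0) : ℂ) + b * (P (Sum.inl 1) : ℂ) = c) (hPV : Ps ⊆ V)
    (hy : ∀ P ∈ Ps, ∀ i, P (Sum.inr i) = y0 i)
    (hrk : ∀ P ∈ Ps, 3 ≤ rk ({P} : Set (Fin 2 ⊕ Fin m → ℂˣ))) (hinf : Ps.Infinite) :
    ∃ Y, Irr Y ∧ Y ⊆ V ∧ 1 ≤ td ℂ Y ∧ 3 ≤ cd Y ∧ ∃ P ∈ Ps, P ∈ Y := by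
  classical
  obtain ⟨P, hP⟩ := hinf.nonempty
  have hchY : ∀ (v : Fin 2 ⊕ Fin m → ℤ) (R : Fin 2 ⊕ Fin m → ℂˣ), R ∈ Ps →
      ch v R = R (Sum.inl 0) ^ v (Sum.inl 0) * R (Sum.inl 1) ^ v (Sum.inl 1) * ∏ i, y0 i ^ v (Sum.inr i) := by
    intro v R hR
    unfold ch
    rw [Fintype.prod_sum_type, Fin.prod_univ_two]
    congr 1
    exact Finset.prod_congr rfl fun i _ => by rw [hy R hR i]
  by_cases hA0 : a = 0
  · -- `x_1` is constant
    have hB0 : b ≠ 0 := by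
      intro h
      refine habc ⟨hA0, h, ?_⟩
      rw [← hl P hP, hA0, h]
      ring
    refine Z6.g3d_case2 hV hPV hrk hinf (LinearMap.proj (Sum.inl 0)) fun v hv R hR R' hR' => ?_
    have hv0 : v (Sum.inl 0) = 0 := hv
    have e1 := hl R hR
    have e2 := hl R' hR'
    have e3 : R (Sum.inl 1) = R' (Sum.inl 1) := by
      apply Units.ext
      apply mul_left_cancel₀ hB0
      rw [hA0] at e1 e2
      linear_combination e1 - e2
    rw [hchY v R hR, hchY v R' hR', hv0, zpow_zero, zpow_zero, e3]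
  by_cases hB0 : b = 0
  · refine Z6.g3d_case2 hV hPV hrk hinf (LinearMap.proj (Sum.inl 1)) fun v hv R hR R' hR' => ?_
    have hv0 : v (Sum.inl 1) = 0 := hv
    have e1 := hl R hR
    have e2 := hl R' hR'
    have e3 : R (Sum.inl 0) = R' (Sum.inl 0) := by
      apply Units.ext
      apply mul_left_cancel₀ hA0
      rw [hB0] at e1 e2
      linear_combination e1 - e2
    rw [hchY v R hR, hchY v R' hR', hv0, zpow_zero, zpow_zero, e3]
  by_cases hC0 : c = 0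
  · refine Z6.g3d_case2 hV hPV hrk hinf ((LinearMap.proj (Sum.inl 0) : (Fin 2 ⊕ Fin m → ℤ) →ₗ[ℤ] ℤ) +
      LinearMap.proj (Sum.inl 1))
      fun v hv R hR R' hR' => ?_
    have hv0 : v (Sum.inl 0) + v (Sum.inl 1) = 0 := hv
    have e1 := hl R hR
    have e2 := hl R' hR'
    have hv1 : v (Sum.inl 1) = - v (Sum.inl 0) := by omega
    have e3 : R (Sum.inl 0) * (R (Sum.inl 1))⁻¹ = R' (Sum.inl 0) * (R' (Sum.inl 1))⁻¹ := by
      rw [← div_eq_mul_inv, ← div_eq_mul_inv, div_eq_div_iff_mul_eq_mul]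
      apply Units.ext
      rw [Units.val_mul, Units.val_mul]
      apply mul_left_cancel₀ hA0
      rw [hC0] at e1 e2
      linear_combination (R' (Sum.inl 1) : ℂ) * e1 - (R (Sum.inl 1) : ℂ) * e2
    have e4 : ∀ S : Fin 2 ⊕ Fin m → ℂˣ, S (Sum.inl 0) ^ v (Sum.inl 0) * S (Sum.inl 1) ^ v (Sum.inl 1) =
        (S (Sum.inl 0) * (S (Sum.inl 1))⁻¹) ^ v (Sum.inl 0) := by
      intro S
      rw [hv1, mul_zpow, inv_zpow, zpow_neg]
    rw [hchY v R hR, hchY v R' hR', e4, e4, e3]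
  -- the general case
  exfalso
  refine hinf (k9t9_unit (a := a / c) (b := b / c) (y0 := y0) (div_ne_zero hA0 hC0) (div_ne_zero hB0 hC0) ?_ ?_)
  · intro R hR
    rw [k9t9_mem]
    refine ⟨funext fun i => hy R hR i, ?_⟩
    have h1 := hl R hR
    field_simp
    linear_combination h1
  · intro R hR j
    obtain ⟨e, n, he, hen⟩ := Z6.k2_rel hy1 (hy R hR) (hrk R hR) j
    exact ⟨e, n, he, hen⟩

/-- Full finiteness for bundles of lines, complex coefficients. -/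
theorem lines_Cx [NeZero m] (h : HCx C) {A B D : MvPolynomial (Fin m) ℂ}
    (hA : ∃ y ∈ C, MvPolynomial.eval (fun i => (y i : ℂ)) A ≠ 0) (hB : ∃ y ∈ C, MvPolynomial.eval (fun i => (y i : ℂ)) B ≠ 0)
    (hD : ∃ y ∈ C, MvPolynomial.eval (fun i => (y i : ℂ)) D ≠ 0)
    (hcop : ∀ y ∈ C, ¬ (MvPolynomial.eval (fun i => (y i : ℂ)) A = 0 ∧ MvPolynomial.eval (fun i => (y i : ℂ)) B = 0 ∧
      MvPolynomial.eval (fun i => (y i : ℂ)) D = 0)) :
    dm (LB C A B D) = 2 ∧ {X | Maximal (Atypical (LB C A B D)) X}.Finite := by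
  classical
  have hLV : LB C A B D = VS C (Lin A B D) := by
    ext x
    exact g7_mem_VS.symm
  rw [hLV]
  have hdm := k9t9_dm h hA hB hD
  refine ⟨hdm, ?_⟩
  obtain ⟨V, hVdef⟩ : ∃ V, V = VS C (Lin A B D) := ⟨_, rfl⟩
  rw [← hVdef] at hdm ⊢
  have hmemV : ∀ x, x ∈ V ↔ (fun i => x (Sum.inr i)) ∈ C ∧
      MvPolynomial.eval (co fun i => x (Sum.inr i)) A * (x (Sum.inl 0) : ℂ) +
        MvPolynomial.eval (co fun i => x (Sum.inr i)) B * (x (Sum.inl 1) : ℂ) =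
          MvPolynomial.eval (co fun i => x (Sum.inr i)) D := by
    intro x
    rw [hVdef]
    exact g7_mem_VS
  have hcard : Fintype.card (Fin 2 ⊕ Fin m) = m + 2 := by simp [add_comm]
  have hV : ZClosed V := by
    rw [hVdef]
    exact zclosed_VS h.irr.closed
  have hVC : ∀ p ∈ V, (fun i => p (Sum.inr i)) ∈ C := fun p hp => ((hmemV p).1 hp).1
  have hdm' : dm V = ((2 : ℕ) : WithBot ℕ∞) := hdm
  have hcdZ : ∀ Z : Set (Fin 2 ⊕ Fin m → ℂˣ), cd Z = rk Z + td ℂ Z := fun Z => rfl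
  have hmax : ∀ X, Maximal (Atypical V) X → X ∈ MaxE m V := by
    intro X hX
    rw [maximal_atypical_iff hV hdm' (by omega) X] at hX
    have h1 : Fintype.card (Fin 2 ⊕ Fin m) - 2 = m := by omega
    rwa [h1] at hX
  obtain ⟨F, hF, hF1, hfin⟩ := fin_maxx h hV hVC
  -- one fibre
  have hone : ∀ y0 ∈ F, {X | X ∈ MaxE m V ∧ ∀ x ∈ X, ∀ i, x (Sum.inr i) = y0 i}.Finite := by
    intro y0 hy0
    by_cases h2 : 2 ≤ rk ({y0} : Set (Fin m → ℂˣ))
    · exact k9t9_two h hVdef h2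
    have habc := hcop y0 (hF1 y0 hy0).1
    have hline : ∀ x ∈ V, (∀ i, x (Sum.inr i) = y0 i) →
        MvPolynomial.eval (co y0) A * (x (Sum.inl 0) : ℂ) + MvPolynomial.eval (co y0) B * (x (Sum.inl 1) : ℂ) =
          MvPolynomial.eval (co y0) D := by
      intro x hx hy
      have h1 := ((hmemV x).1 hx).2
      have h2 : (fun i => x (Sum.inr i)) = y0 := funext hy
      rw [h2] at h1
      exact h1
    obtain ⟨Ps, hPs⟩ : ∃ Ps : Set (Fin 2 ⊕ Fin m → ℂˣ), Ps = {P | {P} ∈ MaxE m V ∧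
      ∀ i, P (Sum.inr i) = y0 i} := ⟨_, rfl⟩
    have hPmem : ∀ P ∈ Ps, {P} ∈ MaxE m V ∧ ∀ i, P (Sum.inr i) = y0 i := fun P hP => by
      rw [hPs] at hP
      exact hP
    have hPfin : Ps.Finite := by
      by_contra hinf
      have hE : ∀ P ∈ Ps, ({P} : Set (Fin 2 ⊕ Fin m → ℂˣ)) ⊆ V ∧ 3 ≤ rk ({P} : Set (Fin 2 ⊕ Fin m → ℂˣ)) := by
        intro P hP
        have hX' := (hPmem P hP).1
        have hlt := MaxE.lt hX'
        have hcd1 := hcdZ {P}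
        rw [td_singleton'] at hcd1
        exact ⟨MaxE.subset hX', by omega⟩
      obtain ⟨Y, hY, hYV, htd, hcd, P, hP, hPY⟩ := k9t9_fibre habc hV (Ps := Ps) (y0 := y0) (by omega)
        (fun P hP => hline P ((hE P hP).1 rfl) (hPmem P hP).2) (fun P hP => (hE P hP).1 rfl)
        (fun P hP => (hPmem P hP).2) (fun P hP => (hE P hP).2) hinf
      have hX' := (hPmem P hP).1
      have h4 : {P} = Y := MaxE.eq hX' hY hYV (by omega) (Set.singleton_subset_iff.2 hPY)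
      rw [← h4, td_singleton'] at htd
      omega
    have hsub : {X | (X ∈ MaxE m V ∧ ∀ x ∈ X, ∀ i, x (Sum.inr i) = y0 i) ∧
        1 ≤ td ℂ X}.Subsingleton := by
      rintro X ⟨⟨hX, hXy⟩, htd⟩ X' ⟨⟨hX', hXy'⟩, htd'⟩
      exact Pool.Agent.Z7.fibre_unique habc (MaxE.irr hX) (MaxE.irr hX') htd htd'
        (fun P hP => hline P (MaxE.subset hX hP) (hXy P hP))
        hXy (fun P hP => hline P (MaxE.subset hX' hP) (hXy' P hP)) hXy'
    refine (hsub.finite.union (hPfin.image fun P => ({P} : Set (Fin 2 ⊕ Fin m → ℂˣ)))).subset ?_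
    rintro X ⟨hX, hXy⟩
    by_cases htd : 1 ≤ td ℂ X
    · left
      exact ⟨⟨hX, hXy⟩, htd⟩
    · right
      have hXi := MaxE.irr hX
      obtain ⟨w, hwX⟩ := hXi.nonempty
      have h3 : ({w} : Set (Fin 2 ⊕ Fin m → ℂˣ)) = X := eq_of_td_le (irr_singleton w) hXi
        (Set.singleton_subset_iff.2 hwX) (by omega)
      refine ⟨w, ?_, h3⟩
      rw [hPs]
      refine ⟨?_, hXy w hwX⟩
      rw [h3]
      exact hX
  refine (hfin.union (hF.biUnion hone)).subset ?_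
  intro X hX
  have hX := hmax X hX
  by_cases hy : ∃ y0 ∈ F, ∀ x ∈ X, ∀ i, x (Sum.inr i) = y0 i
  · right
    obtain ⟨y0, hy0, hy⟩ := hy
    simp only [Set.mem_iUnion]
    exact ⟨y0, hy0, hX, hy⟩
  · left
    exact ⟨hX, hy⟩

end Lines

end Pool.Agent.Z9
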