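import Pool.Agent.Z9.LN

open MvPolynomial Pool.Agent.MP_dd1803_nt Pool.Agent.ZPA Pool.Agent.ZL2

namespace Pool.Agent.Z9

open Filter Topology

/-- A point outside `Z` of an irreducible `X` which keeps the codimension defect: `tors_pt` (Z8/G3.lean) without fields of definition
(cut with `x_i = ζ`, `ζ` a root of unity). -/
theorem k9t9_ind {κ : Type} [Fintype κ] {Z : Set (κ → ℂˣ)} (hZ : ZClosed Z) (d : ℕ) :
    ∀ X : Set (κ → ℂˣ), td ℂ X = d → Irr X → ¬ X ⊆ Z →
    ∃ p ∈ X, p ∉ Z ∧ cd X ≤ rk ({p} : Set (κ → ℂˣ)) := by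
  classical
  induction d with
  | zero =>
    intro X htd hX hXZ
    obtain ⟨w, hw⟩ := hX.nonempty
    have h1 : ({w} : Set (κ → ℂˣ)) = X := eq_of_td_le (irr_singleton w) hX (Set.singleton_subset_iff.2 hw)
      (by rw [htd]; exact Nat.zero_le _)
    refine ⟨w, hw, fun h2 => hXZ ?_, ?_⟩
    · rw [← h1]
      exact Set.singleton_subset_iff.2 h2
    · unfold cd
      rw [htd, h1, add_zero]
  | succ d ih =>
    intro X htd hX hXZ
    obtain ⟨x0, hx0⟩ := hX.nonempty
    -- a coordinate which is not constant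
    obtain ⟨i, hi⟩ : ∃ i : κ, ¬ ∃ c : ℂˣ, ∀ x ∈ X, x i = c := by
      by_contra hcon
      push Not at hcon
      choose c hc using hcon
      have h1 : X ⊆ {c} := fun x hx => funext fun i => hc i x hx
      have h2 := td_mono (k := ℂ) hX.pirr (pirr_singleton c) h1
      rw [td_singleton', htd] at h2
      omega
    obtain ⟨ζ, hζi, hζ⟩ := Pool.Agent.Z8.k8g3b_roots
    have hMc : {n : ℕ | ∃ x ∈ X, x i = ζ n}ᶜ.Finite := by
      by_contra hinf
      apply hi
      refine exists_fibre hX i ((fun n => ((ζ n : ℂˣ) : ℂ)) '' {n : ℕ | ∃ x ∈ X, x i = ζ n}ᶜ) ?_ ?_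
      · refine Set.Infinite.image ?_ hinf
        intro a _ b _ hab
        exact hζi (Units.ext hab)
      · rintro _ ⟨n, hn, rfl⟩ x hx h1
        exact hn ⟨x, hx, Units.ext h1⟩
    have hM : {n : ℕ | ∃ x ∈ X, x i = ζ n}.Infinite := by
      have := hMc.infinite_compl
      rwa [compl_compl] at this
    have hzp : ∀ z : ℂˣ, {x : κ → ℂˣ | x i = z} = zp (MvPolynomial.X i - MvPolynomial.C (z : ℂ)) := by
      intro z
      ext x
      rw [mem_zp, map_sub, aeval_X, MvPolynomial.aeval_C, sub_eq_zero]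
      exact ⟨fun h1 => congrArg (fun u : ℂˣ => (u : ℂ)) h1, fun h1 => Units.ext h1⟩
    have hch : ∀ z : ℂˣ, {x : κ → ℂˣ | ch (Pi.single i 1) x = z} = {x : κ → ℂˣ | x i = z} := by
      intro z
      ext x
      show ch (Pi.single i 1) x = z ↔ x i = z
      rw [ch_single, zpow_one]
    have hex : ∀ n ∈ {n : ℕ | ∃ x ∈ X, x i = ζ n}, ∃ Y, Comp (X ∩ {x | x i = ζ n}) Y := by
      rintro n ⟨x, hx, hxi⟩
      have h1 : ZClosed (X ∩ {x | x i = ζ n}) := by
        rw [hzp]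
        exact hX.closed.inter (zclosed_zp _)
      obtain ⟨Y, hY, -⟩ := exists_comp_mem h1 (x := x) ⟨hx, hxi⟩
      exact ⟨Y, hY⟩
    choose! Y hY using hex
    have hYd : ∀ n ∈ {n : ℕ | ∃ x ∈ X, x i = ζ n}, td ℂ (Y n) = d := by
      intro n hn
      have h1 := hY n hn
      have h2 : td ℂ X ≤ td ℂ (Y n) + 1 := by
        rw [hzp] at h1
        exact krull hX _ h1
      have h3 : Y n ⊂ X := by
        refine ⟨fun x hx => (h1.subset hx).1, fun h3 => hi ⟨ζ n, fun x hx => (h1.subset (h3 hx)).2⟩⟩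
      have h4 := td_lt h1.irr hX h3
      omega
    by_cases hcase : ∃ n ∈ {n : ℕ | ∃ x ∈ X, x i = ζ n}, ¬ Y n ⊆ Z
    · obtain ⟨n, hn, hnZ⟩ := hcase
      have h1 := hY n hn
      obtain ⟨p, hp, hpZ, hpr⟩ := ih (Y n) (hYd n hn) h1.irr hnZ
      refine ⟨p, (h1.subset hp).1, hpZ, le_trans ?_ hpr⟩
      rw [← hch] at h1
      exact cut_one hX ⟨n + 1, Nat.succ_pos n, hζ n⟩ h1
    · exfalso
      push Not at hcase
      have hcomp : ∀ n ∈ {n : ℕ | ∃ x ∈ X, x i = ζ n}, Comp (Z ∩ X) (Y n) := by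
        intro n hn
        have h1 := hY n hn
        refine ⟨⟨h1.irr, fun x hx => ⟨hcase n hn hx, (h1.subset hx).1⟩⟩, ?_⟩
        rintro W ⟨hW, hWZ⟩ hYW
        have h2 : W ⊂ X := ⟨fun x hx => (hWZ hx).2, fun h3 => hXZ fun x hx => (hWZ (h3 hx)).1⟩
        have h3 := td_lt hW hX h2
        have h4 : Y n = W := eq_of_td_le h1.irr hW hYW (by rw [hYd n hn]; omega)
        rw [← h4]
      have hinj : Set.InjOn Y {n : ℕ | ∃ x ∈ X, x i = ζ n} := by
        intro a ha b hb hab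
        have h1 := hY a ha
        have h2 := hY b hb
        obtain ⟨x, hx⟩ := h1.irr.nonempty
        have h3 := (h1.subset hx).2
        rw [hab] at hx
        have h4 := (h2.subset hx).2
        apply hζi
        exact (show x i = ζ a from h3).symm.trans h4
      refine (hM.image hinj) ((finite_comp (hZ.inter hX.closed)).subset ?_)
      rintro _ ⟨n, hn, rfl⟩
      exact hcomp n hn

/-- A point of `X` outside `Z` with `cd X ≤ rk {p}`. -/
theorem k9t9_pt {κ : Type} [Fintype κ] {X Z : Set (κ → ℂˣ)} (hX : Irr X) (hZ : ZClosed Z) (hXZ : ¬ X ⊆ Z) :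
    ∃ p ∈ X, p ∉ Z ∧ cd X ≤ rk ({p} : Set (κ → ℂˣ)) :=
  k9t9_ind hZ (td ℂ X) X rfl hX hXZ

end Pool.Agent.Z9
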