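import Pool.Agent.Z9.T8
import Pool.Agent.Z9.T9tors

open MvPolynomial Pool.Agent.MP_dd1803_nt Pool.Agent.ZPA Pool.Agent.ZL2

namespace Pool.Agent.Z9

open Filter Topology
open Pool.Agent.Z8 (Fam)

variable {k m : ℕ} [NeZero m] {C : Set (Fin m → ℂˣ)}

/-- The maximal subvarieties over one point of rank one, without fields of definition. -/
theorem k9t9_fib (hL : Laurent k) {V : Set (Fin k ⊕ Fin m → ℂˣ)} (hV : ZClosed V)
    {y0 : Fin m → ℂˣ} (hy0 : rk ({y0} : Set (Fin m → ℂˣ)) = 1) :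
    {X | X ∈ MaxE m V ∧ ∀ x ∈ X, ∀ i, x (Sum.inr i) = y0 i}.Finite := by
  classical
  have hcard : Fintype.card (Fin k ⊕ Fin m) = k + m := by
    rw [Fintype.card_sum, Fintype.card_fin, Fintype.card_fin]
  have hW : ZClosed {x : Fin k → ℂˣ | (Sum.elim x y0 : Fin k ⊕ Fin m → ℂˣ) ∈ V} :=
    (ratMap_elim_right Set.univ y0).preimage_closed hV
  have hΓ : (Subgroup.closure (Set.range y0)).FG :=
    (Subgroup.fg_iff _).2 ⟨Set.range y0, rfl, Set.finite_range y0⟩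
  obtain ⟨S, hS, hS1, hS2⟩ := hL _ _ hW hΓ
  let E : Set (Fin k → ℂˣ) → Set (Fin k ⊕ Fin m → ℂˣ) := fun Y =>
    {x | (fun j => x (Sum.inl j)) ∈ Y ∧ (fun i => x (Sum.inr i)) = y0}
  have hE : ∀ Y ∈ S, Irr (E Y) ∧ k + 1 ≤ cd (E Y) ∧ E Y ⊆ V := by
    intro Y hY
    obtain ⟨hYW, q, hq, hqΓ, hsp⟩ := hS1 Y hY
    obtain ⟨h1, h2⟩ := coset_cd hq hqΓ hsp hy0.ge
    refine ⟨h1, h2, ?_⟩
    rintro x ⟨hx1, hx2⟩
    have h3 : (Sum.elim (fun j => x (Sum.inl j)) y0 : Fin k ⊕ Fin m → ℂˣ) ∈ V := hYW hx1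
    have h4 : (Sum.elim (fun j => x (Sum.inl j)) y0 : Fin k ⊕ Fin m → ℂˣ) = x := by
      rw [← hx2]
      funext i
      rcases i with i | i <;> rfl
    rwa [h4] at h3
  have hZc : ZClosed (⋃ Y ∈ hS.toFinset, E Y) := ZClosed.finset_biUnion _ fun Y hY =>
    (hE Y (hS.mem_toFinset.1 hY)).1.closed
  refine (hS.image E).subset ?_
  rintro X ⟨hX, hXy⟩
  have hXi := MaxE.irr hX
  have hXV := MaxE.subset hX
  have hlt := MaxE.lt hX
  have hcdX : k + 1 ≤ cd X := by omega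
  have hXZ : X ⊆ ⋃ Y ∈ hS.toFinset, E Y := by
    by_contra hcon
    obtain ⟨p, hpX, hpZ, hpr⟩ := k9t9_pt hXi hZc hcon
    have hpy : (fun i => p (Sum.inr i)) = y0 := funext fun i => hXy p hpX i
    have h1 : ∀ j, ∃ N : ℕ, 0 < N ∧ p (Sum.inl j) ^ N ∈ Subgroup.closure (Set.range y0) := by
      intro j
      have h2 := div_of (hcdX.trans hpr) (by
        rw [hpy]
        exact hy0.le) j
      have h3 : (Set.range fun i => p (Sum.inr i)) = Set.range y0 := by rw [hpy]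
      rwa [h3] at h2
    obtain ⟨Y, hY, hpY⟩ := hS2 (fun j => p (Sum.inl j)) (by
      have h3 : (Sum.elim (fun j => p (Sum.inl j)) y0 : Fin k ⊕ Fin m → ℂˣ) = p := by
        rw [← hpy]
        funext i
        rcases i with i | i <;> rfl
      show (Sum.elim (fun j => p (Sum.inl j)) y0 : Fin k ⊕ Fin m → ℂˣ) ∈ V
      rw [h3]
      exact hXV hpX) h1
    apply hpZ
    rw [Set.mem_iUnion₂]
    exact ⟨Y, hS.mem_toFinset.2 hY, hpY, hpy⟩
  obtain ⟨Z, hZ, hXZ'⟩ := hXi.subset_of_finset (hS.toFinset.image E) (by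
    intro Z hZ
    obtain ⟨Y, hY, rfl⟩ := Finset.mem_image.1 hZ
    exact (hE Y (hS.mem_toFinset.1 hY)).1.closed) (by
    intro p hp
    obtain ⟨Y, hY, hpY⟩ := Set.mem_iUnion₂.1 (hXZ hp)
    exact Set.mem_iUnion₂.2 ⟨E Y, Finset.mem_image_of_mem _ hY, hpY⟩)
  obtain ⟨Y, hY, rfl⟩ := Finset.mem_image.1 hZ
  have hYS := hS.mem_toFinset.1 hY
  obtain ⟨h1, h2, h3⟩ := hE Y hYS
  exact ⟨Y, hYS, (MaxE.eq hX h1 h3 (by omega) hXZ').symm⟩

/-- With Laurent's theorem there are only finitely many maximal atypical subvarieties; complex curves. -/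
theorem zp_laurentx (hL : Laurent k) (h : HCx C) (_hm : 2 ≤ m) {V : Set (Fin k ⊕ Fin m → ℂˣ)} (hV : Fam C V) :
    {X | Maximal (Atypical V) X}.Finite := by
  have hcard := k9g6_card (k := k) (m := m)
  have hdm : dm V = ((k : ℕ) : WithBot ℕ∞) := by rw [dm_irr hV.irr, hV.dim]
  obtain ⟨F, hF, hF1, hfin⟩ := fin_irrx h hV
  refine (hfin.union (hF.biUnion fun y0 hy0 => k9t9_fib hL hV.irr.closed (hF1 y0 hy0).2)).subset ?_
  intro X hX
  have hX' : X ∈ MaxE m V := by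
    have h0 : Maximal (Atypical V) X := hX
    rw [maximal_atypical_iff hV.irr.closed hdm (by omega) X] at h0
    have h1 : Fintype.card (Fin k ⊕ Fin m) - k = m := by omega
    rwa [h1] at h0
  by_cases hy : ∃ y0 ∈ F, ∀ x ∈ X, ∀ i, x (Sum.inr i) = y0 i
  · right
    obtain ⟨y0, hy0, hy⟩ := hy
    exact Set.mem_biUnion (x := y0) hy0 ⟨hX', hy⟩
  · left
    exact ⟨hX', hy⟩

end Pool.Agent.Z9
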