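import Pool.Agent.Z9.FC
import Pool.Agent.Z9.T9L
import Pool.Agent.Z9.T9

open MvPolynomial Pool.Agent.MP_dd1803_nt Pool.Agent.ZPA Pool.Agent.ZL2

namespace Pool.Agent.Z9

open Filter Topology
open Pool.Agent.Z8 (Fam)

variable {k m : ℕ} {C : Set (Fin m → ℂˣ)}

/-- The exceptional fibres, after conjugation; `C` over the complex numbers. -/
theorem fin_conjx (σ : ℂ ≃+* ℂ) (h : HCx (sg σ C)) (hm : 0 < m) {V : Set (Fin k ⊕ Fin m → ℂˣ)} (hV : Irr V)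
    (hd : dm V = (k : WithBot ℕ∞)) (hVC : ∀ p ∈ V, (fun i => p (Sum.inr i)) ∈ C) :
    ∃ F : Set (Fin m → ℂˣ), F.Finite ∧ (∀ y ∈ F, y ∈ C ∧ rk ({sgp σ y} : Set (Fin m → ℂˣ)) = 1) ∧
      {X | Maximal (Atypical V) X ∧ ¬ ((∀ p ∈ X, Special {x : Fin k ⊕ Fin m → ℂˣ | p * x ∈ X}) ∧
        ∃ y0 ∈ F, ∀ x ∈ X, ∀ i, x (Sum.inr i) = y0 i)}.Finite := by
  have : NeZero m := ⟨by omega⟩
  have hF := fam_sg (C := C) σ hV hd hVC
  obtain ⟨hdm, ⟨F, hFf, hF1, hfin⟩, -⟩ := zp_bundlex h hF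
  refine ⟨(sgp σ) ⁻¹' F, hFf.preimage ?_, ?_, ?_⟩
  · intro x _ y _ hxy
    have h1 := congrArg (sgp σ.symm) hxy
    rwa [sgp_symm, sgp_symm] at h1
  · intro y hy
    exact ⟨(mem_sg σ).1 (hF1 _ hy).1, (hF1 _ hy).2⟩
  · apply finite_sg σ
    refine hfin.subset ?_
    rintro X ⟨hX, hXF⟩
    have hX1 : Maximal (Atypical (sg σ V)) X := by
      have h1 := (maximal_sg σ).2 hX
      rwa [sg_symm_sg] at h1
    refine ⟨hX1, ?_⟩
    rintro ⟨y0, hy0, hXy⟩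
    apply hXF
    refine ⟨?_, sgp σ.symm y0, ?_, ?_⟩
    · intro p hp
      obtain ⟨T, hT, hXT, hlt⟩ := hX1.1
      have hcd : k + 1 ≤ cd X := by
        rw [hdm, dm_irr hT.irr, dm_irr hXT.irr, dm_univ, Fintype.card_sum, Fintype.card_fin,
          Fintype.card_fin] at hlt
        have h4 : k + td ℂ T < td ℂ X + (k + m) := by exact_mod_cast hlt
        have h5 := hT.cd
        rw [Fintype.card_sum, Fintype.card_fin, Fintype.card_fin] at h5
        have h6 : rk T ≤ rk X := rk_anti (hXT.subset.trans Set.inter_subset_right)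
        have h7 : cd T = rk T + td ℂ T := rfl
        have h8 : cd X = rk X + td ℂ X := rfl
        omega
      have hpX : sgp σ p ∈ X := by
        have h1 := (mem_sg σ (X := sg σ.symm X)).2 hp
        rwa [sg_symm_sg] at h1
      have h2 := coset_of hXT.irr hXy (by rw [(hF1 y0 hy0).2]) hcd hpX
      have h3 : {x : Fin k ⊕ Fin m → ℂˣ | sgp σ p * x ∈ X} = sg σ {x | p * x ∈ sg σ.symm X} := by
        ext x
        show sgp σ p * x ∈ X ↔ sgp σ (p * sgp σ.symm x) ∈ X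
        rw [sgp_mul, sgp_symm']
      rw [h3] at h2
      exact (special_sg σ).1 h2
    · show sgp σ (sgp σ.symm y0) ∈ F
      rw [sgp_symm']
      exact hy0
    · intro x hx i
      have h1 := (mem_sg σ (X := sg σ.symm X)).2 hx
      rw [sg_symm_sg] at h1
      have h2 := hXy _ h1 i
      have h3 : sgp σ x (Sum.inr i) = sgp σ (fun i => x (Sum.inr i)) i := rfl
      have h4 : (sgp σ (fun i => x (Sum.inr i))) = y0 := by
        funext j
        exact hXy _ h1 j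
      have h5 := congrArg (sgp σ.symm) h4
      rw [sgp_symm] at h5
      exact congrFun h5 i

theorem laurent_conjx (σ : ℂ ≃+* ℂ) (hL : Laurent k) (h : HCx (sg σ C)) (hm : 2 ≤ m)
    {V : Set (Fin k ⊕ Fin m → ℂˣ)} (hV : Irr V)
    (hd : dm V = (k : WithBot ℕ∞)) (hVC : ∀ p ∈ V, (fun i => p (Sum.inr i)) ∈ C) :
    {X | Maximal (Atypical V) X}.Finite := by
  have : NeZero m := ⟨by omega⟩
  have hF := fam_sg (C := C) σ hV hd hVC
  apply finite_sg σ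
  refine (zp_laurentx hL h hm hF).subset ?_
  intro X hX
  have h1 := (maximal_sg σ).2 (show Maximal (Atypical V) (sg σ.symm X) from hX)
  rwa [sg_symm_sg] at h1

theorem pink_conjx (σ : ℂ ≃+* ℂ) (h : HCx (sg σ C)) (hm : 0 < m)
    {V : Set (Fin k ⊕ Fin m → ℂˣ)} (hV : Irr V)
    (hd : dm V = (k : WithBot ℕ∞)) (hVC : ∀ p ∈ V, (fun i => p (Sum.inr i)) ∈ C)
    (hT : ∀ T, Special T → V ⊆ T → T = Set.univ) :
    ∃ Z, ZClosed Z ∧ Z ⊆ V ∧ Z ≠ V ∧ (∀ X, Atypical V X → X ⊆ Z) ∧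
      ∀ T, Special T → dm T < (m : WithBot ℕ∞) → V ∩ T ⊆ Z := by
  have : NeZero m := ⟨by omega⟩
  have hF := fam_sg (C := C) σ hV hd hVC
  obtain ⟨-, -, h3⟩ := zp_bundlex h hF
  obtain ⟨Z, hZ, hZV, hne, hZX, hZT⟩ := h3 (by
    intro T hTs hVT
    have h4 : Special (sg σ.symm T) := by
      apply (special_sg σ).1
      rw [sg_symm_sg]
      exact hTs
    have h5 : V ⊆ sg σ.symm T := by
      rw [← sg_subset σ, sg_symm_sg]
      exact hVT
    have h6 := hT _ h4 h5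
    rw [← sg_symm_sg σ T, h6]
    rfl)
  refine ⟨sg σ.symm Z, zclosed_sg σ.symm hZ, ?_, ?_, ?_, ?_⟩
  · rw [← sg_subset σ, sg_symm_sg]
    exact hZV
  · intro h4
    apply hne
    rw [← h4, sg_symm_sg]
  · intro X hX
    rw [← sg_subset σ, sg_symm_sg]
    exact hZX _ ((atypical_sg σ).2 hX)
  · intro T hTs hlt
    rw [← sg_subset σ, sg_symm_sg, sg_inter]
    refine hZT _ ((special_sg σ).2 hTs) ?_
    rw [dm_sg]
    exact hlt

theorem lines_conjx (σ : ℂ ≃+* ℂ) (h : HCx (sg σ C)) (hm : 0 < m) {A B D : MvPolynomial (Fin m) ℂ}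
    (hA : ∃ y ∈ C, MvPolynomial.eval (fun i => (y i : ℂ)) A ≠ 0) (hB : ∃ y ∈ C, MvPolynomial.eval (fun i => (y i : ℂ)) B ≠ 0)
    (hD : ∃ y ∈ C, MvPolynomial.eval (fun i => (y i : ℂ)) D ≠ 0)
    (hcop : ∀ y ∈ C, ¬ (MvPolynomial.eval (fun i => (y i : ℂ)) A = 0 ∧ MvPolynomial.eval (fun i => (y i : ℂ)) B = 0 ∧
      MvPolynomial.eval (fun i => (y i : ℂ)) D = 0)) :
    dm (LB C A B D) = 2 ∧ {X | Maximal (Atypical (LB C A B D)) X}.Finite := by
  have : NeZero m := ⟨by omega⟩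
  obtain ⟨h1, h2⟩ := lines_Cx h (ex_sg σ hA) (ex_sg σ hB) (ex_sg σ hD) (by
    intro y hy
    obtain ⟨z, rfl⟩ : ∃ z, sgp σ z = y := ⟨sgp σ.symm y, sgp_symm' σ y⟩
    rw [eval_sg, eval_sg, eval_sg]
    rintro ⟨a1, a2, a3⟩
    exact hcop z ((mem_sg σ).1 hy) ⟨(map_eq_zero σ).1 a1, (map_eq_zero σ).1 a2, (map_eq_zero σ).1 a3⟩)
  rw [← lb_sg] at h1 h2
  refine ⟨by rw [← dm_sg σ]; exact h1, ?_⟩
  apply finite_sg σ
  refine h2.subset ?_
  intro X hX
  have h3 := (maximal_sg σ).2 (show Maximal (Atypical (LB C A B D)) (sg σ.symm X) from hX)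
  rwa [sg_symm_sg] at h3

end Pool.Agent.Z9
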