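import Pool.Agent.Z9.G6

open MvPolynomial Pool.Agent.MP_dd1803_nt Pool.Agent.ZPA Pool.Agent.ZL2

namespace Pool.Agent.Z9

/-- Chevalley for coordinate projections: the image contains a nonempty open subset of its closure. -/
theorem k9t_cheval {κ κ' : Type} [Fintype κ] [Fintype κ'] {X : Set (κ → ℂˣ)} (hX : Irr X) (e : κ' → κ) :
    ∃ f : MvPolynomial κ' ℂ, f ∉ vI ℂ (pull e '' X) ∧
      ∀ y ∈ cl ℂ (pull e '' X), aeval (co y) f ≠ 0 → y ∈ pull e '' X := by
  classical
  have hP := vI_isPrime (k := ℂ) hX.pirr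
  have hI' : PIrr (pull e '' X) := hX.pirr.image (ratMap_pull X e)
  have hP' := vI_isPrime (k := ℂ) hI'
  let A0 := MvPolynomial κ ℂ ⧸ vI ℂ X
  let B0 := MvPolynomial κ' ℂ ⧸ vI ℂ (pull e '' X)
  have hdom : IsDomain A0 := Ideal.Quotient.isDomain _
  have hdomB : IsDomain B0 := Ideal.Quotient.isDomain _
  let r : A0 := ∏ j, Ideal.Quotient.mk (vI ℂ X) (MvPolynomial.X j)
  have hr : r ≠ 0 := by
    rw [Finset.prod_ne_zero_iff]
    intro j _ h0
    rw [Ideal.Quotient.eq_zero_iff_mem] at h0
    exact X_not_mem_vI hX.nonempty j h0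
  have hle : Submonoid.powers r ≤ nonZeroDivisors A0 :=
    powers_le_nonZeroDivisors_of_noZeroDivisors hr
  let A := Localization.Away r
  have hdomA : IsDomain A := IsLocalization.isDomain_localization hle
  have hinjA : Function.Injective (algebraMap A0 A) := IsLocalization.injective A hle
  have hftA : Algebra.FiniteType ℂ A := by
    have : Algebra.FiniteType A0 A := IsLocalization.finiteType_of_monoid_fg (Submonoid.powers r) A
    exact Algebra.FiniteType.trans (S := A0) inferInstance this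
  -- the ring map
  have hmem : ∀ q : MvPolynomial κ' ℂ, q ∈ vI ℂ (pull e '' X) ↔ rename e q ∈ vI ℂ X := by
    intro q
    rw [mem_vI, mem_vI]
    constructor
    · intro h x hx
      rw [aeval_rename]
      exact h _ ⟨x, hx, rfl⟩
    · rintro h _ ⟨x, hx, rfl⟩
      have h1 := h x hx
      rw [aeval_rename] at h1
      exact h1
  let g0 : B0 →+* A0 := Ideal.Quotient.lift (vI ℂ (pull e '' X))
    ((Ideal.Quotient.mk (vI ℂ X)).comp (rename e : MvPolynomial κ' ℂ →ₐ[ℂ] MvPolynomial κ ℂ).toRingHom) (by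
      intro q hq
      show Ideal.Quotient.mk (vI ℂ X) (rename e q) = 0
      rw [Ideal.Quotient.eq_zero_iff_mem]
      exact (hmem q).1 hq)
  have hg0 : ∀ q : MvPolynomial κ' ℂ, g0 (Ideal.Quotient.mk _ q) = Ideal.Quotient.mk (vI ℂ X) (rename e q) :=
    fun q => rfl
  have hg0i : Function.Injective g0 := by
    rw [injective_iff_map_eq_zero]
    intro b
    obtain ⟨q, rfl⟩ := Ideal.Quotient.mk_surjective b
    intro h
    rw [hg0, Ideal.Quotient.eq_zero_iff_mem] at h
    rw [Ideal.Quotient.eq_zero_iff_mem]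
    exact (hmem q).2 h
  let g : B0 →+* A := (algebraMap A0 A).comp g0
  have hgi : Function.Injective g := hinjA.comp hg0i
  have hft : g.FiniteType := by
    apply RingHom.FiniteType.of_comp_finiteType (f := algebraMap ℂ B0)
    have h1 : g.comp (algebraMap ℂ B0) = algebraMap ℂ A := by
      ext x
      show algebraMap A0 A (Ideal.Quotient.mk (vI ℂ X) (rename e (MvPolynomial.C x))) = algebraMap ℂ A x
      rw [rename_C]
      rfl
    rw [h1]
    exact (RingHom.finiteType_algebraMap).mpr inferInstance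
  have hfp : g.FinitePresentation := RingHom.FinitePresentation.of_finiteType.mp hft
  obtain ⟨S, hS⟩ := PrimeSpectrum.exists_constructibleSetData_iff.mpr
    (PrimeSpectrum.isConstructible_range_comap hfp)
  have hbot : (⟨⊥, Ideal.isPrime_bot⟩ : PrimeSpectrum B0) ∈ S.toSet := by
    rw [hS]
    refine ⟨⟨⊥, Ideal.isPrime_bot⟩, ?_⟩
    apply PrimeSpectrum.ext
    rw [PrimeSpectrum.comap_asIdeal]
    show Ideal.comap g ⊥ = ⊥
    rw [← RingHom.ker_eq_comap_bot]
    exact (RingHom.injective_iff_ker_eq_bot g).mp hgi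
  simp only [PrimeSpectrum.ConstructibleSetData.toSet, Set.mem_iUnion] at hbot
  obtain ⟨D, hDS, hD1, hD2⟩ := hbot
  have hf : D.f ≠ 0 := by
    intro h0
    apply hD2
    rw [PrimeSpectrum.mem_zeroLocus, Set.singleton_subset_iff]
    show D.f ∈ (⊥ : Ideal B0)
    rw [h0]
    exact Submodule.zero_mem _
  have hg : ∀ n, D.g n = 0 := by
    intro n
    rw [PrimeSpectrum.mem_zeroLocus] at hD1
    have h1 : D.g n ∈ (⊥ : Ideal B0) := hD1 ⟨n, rfl⟩
    exact h1
  obtain ⟨f, hfD⟩ := Ideal.Quotient.mk_surjective D.f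
  refine ⟨f, ?_, ?_⟩
  · intro h
    apply hf
    rw [← hfD, Ideal.Quotient.eq_zero_iff_mem]
    exact h
  · intro y hy hfy
    let ev : B0 →+* ℂ := Ideal.Quotient.lift (vI ℂ (pull e '' X))
      (aeval (co y) : MvPolynomial κ' ℂ →ₐ[ℂ] ℂ).toRingHom (fun q hq => hy q hq)
    have hev : ∀ q, ev (Ideal.Quotient.mk _ q) = aeval (co y) q := fun q => rfl
    have hprime : (RingHom.ker ev).IsPrime := RingHom.ker_isPrime ev
    have hm : (⟨_, hprime⟩ : PrimeSpectrum B0) ∈ S.toSet := by
      simp only [PrimeSpectrum.ConstructibleSetData.toSet, Set.mem_iUnion]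
      refine ⟨D, hDS, ?_, ?_⟩
      · rw [PrimeSpectrum.mem_zeroLocus]
        rintro _ ⟨n, rfl⟩
        rw [hg n]
        exact Submodule.zero_mem _
      · intro h1
        rw [PrimeSpectrum.mem_zeroLocus, Set.singleton_subset_iff] at h1
        have h2 : D.f ∈ RingHom.ker ev := h1
        rw [RingHom.mem_ker, ← hfD, hev] at h2
        exact hfy h2
    rw [hS] at hm
    obtain ⟨p, hp⟩ := hm
    have hpI : Ideal.comap g p.asIdeal = RingHom.ker ev := by
      have := congrArg PrimeSpectrum.asIdeal hp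
      rw [PrimeSpectrum.comap_asIdeal] at this
      exact this
    let φ : MvPolynomial κ ℂ →+* A := (algebraMap A0 A).comp (Ideal.Quotient.mk (vI ℂ X))
    let P : Ideal (MvPolynomial κ ℂ) := p.asIdeal.comap φ
    have hPp : P.IsPrime := p.isPrime.comap φ
    have hXP : ∀ j, (MvPolynomial.X j : MvPolynomial κ ℂ) ∉ P := by
      intro j hj
      rw [Ideal.mem_comap] at hj
      have h1 : algebraMap A0 A r ∈ p.asIdeal := by
        have h2 : r = Ideal.Quotient.mk (vI ℂ X) (MvPolynomial.X j) *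
            ∏ l ∈ Finset.univ.erase j, Ideal.Quotient.mk (vI ℂ X) (MvPolynomial.X l) :=
          (Finset.mul_prod_erase _ _ (Finset.mem_univ j)).symm
        have h3 : algebraMap A0 A r = algebraMap A0 A (Ideal.Quotient.mk (vI ℂ X) (MvPolynomial.X j)) *
            algebraMap A0 A (∏ l ∈ Finset.univ.erase j,
              Ideal.Quotient.mk (vI ℂ X) (MvPolynomial.X l)) := by
          rw [← map_mul]
          exact congrArg (algebraMap A0 A) h2
        rw [h3]
        exact Ideal.mul_mem_right _ _ hj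
      have h2 : IsUnit (algebraMap A0 A r) := IsLocalization.Away.algebraMap_isUnit r
      exact p.isPrime.ne_top (Ideal.eq_top_of_isUnit_mem _ h1 h2)
    have hle' : vI ℂ X ≤ P := by
      intro q hq
      rw [Ideal.mem_comap]
      have : φ q = 0 := by
        show algebraMap A0 A (Ideal.Quotient.mk (vI ℂ X) q) = 0
        rw [Ideal.Quotient.eq_zero_iff_mem.mpr hq, map_zero]
      rw [this]
      exact Ideal.zero_mem _
    obtain ⟨x, hx⟩ := (irr_zl P hXP).nonempty
    have hxX : x ∈ X := by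
      rw [← zclosed_iff.mp hX.closed]
      exact zl_anti hle' hx
    refine ⟨x, hxX, ?_⟩
    funext l
    have h1 : (MvPolynomial.X (e l) - MvPolynomial.C ((y l : ℂˣ) : ℂ) : MvPolynomial κ ℂ) ∈ P := by
      rw [Ideal.mem_comap]
      have h2 : φ (MvPolynomial.X (e l) - MvPolynomial.C ((y l : ℂˣ) : ℂ)) =
          g (Ideal.Quotient.mk _ (MvPolynomial.X l - MvPolynomial.C ((y l : ℂˣ) : ℂ))) := by
        show algebraMap A0 A (Ideal.Quotient.mk (vI ℂ X) (MvPolynomial.X (e l) - MvPolynomial.C ((y l : ℂˣ) : ℂ))) =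
          algebraMap A0 A (Ideal.Quotient.mk (vI ℂ X) (rename e (MvPolynomial.X l - MvPolynomial.C ((y l : ℂˣ) : ℂ))))
        have h3 : rename e (MvPolynomial.X l - MvPolynomial.C ((y l : ℂˣ) : ℂ) : MvPolynomial κ' ℂ) =
            MvPolynomial.X (e l) - MvPolynomial.C ((y l : ℂˣ) : ℂ) := by
          rw [map_sub, rename_X, rename_C]
        rw [h3]
      rw [h2, ← Ideal.mem_comap, hpI, RingHom.mem_ker, hev, map_sub, aeval_X, aeval_C, sub_eq_zero]
      rfl
    have h2 := hx _ h1
    rw [map_sub, aeval_X, aeval_C, sub_eq_zero] at h2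
    exact Units.ext h2

end Pool.Agent.Z9
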