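import Pool.Agent.Z9.T0
import Pool.Agent.Z9.T1cheval
import Pool.Agent.Z9.PR

open MvPolynomial Pool.Agent.MP_dd1803_nt Pool.Agent.ZPA Pool.Agent.ZL2

namespace Pool.Agent.Z9

/-- An irreducible closed set of dimension one is infinite. -/
theorem k9t1_inf {κ : Type} [Fintype κ] {C : Set (κ → ℂˣ)} (hC : Irr C) (hd : td ℂ C = 1) : C.Infinite := by
  classical
  intro hfin
  obtain ⟨Z, hZ, hCZ⟩ := hC.subset_of_finset (hfin.toFinset.image fun y => ({y} : Set (κ → ℂˣ)))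
    (by
      intro Z hZ
      obtain ⟨y, -, rfl⟩ := Finset.mem_image.1 hZ
      exact zclosed_singleton y)
    (by
      intro y hy
      simp only [Set.mem_iUnion]
      exact ⟨{y}, Finset.mem_image.2 ⟨y, hfin.mem_toFinset.2 hy, rfl⟩, rfl⟩)
  obtain ⟨y, -, rfl⟩ := Finset.mem_image.1 hZ
  have h1 : td ℂ C ≤ td ℂ ({y} : Set (κ → ℂˣ)) := td_mono hC.pirr (pirr_singleton y) hCZ
  rw [hd, td_singleton'] at h1
  omega

/-- A proper closed subset of an irreducible closed set of dimension one is finite. -/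
theorem k9t1_fin {κ : Type} [Fintype κ] {C Z : Set (κ → ℂˣ)} (hC : Irr C) (hd : td ℂ C = 1) (hZ : ZClosed Z)
    (h : ¬ C ⊆ Z) : (C ∩ Z).Finite := by
  classical
  have hV : ZClosed (C ∩ Z) := hC.closed.inter hZ
  refine ((finite_comp hV).sUnion (fun Y hY => ?_)).subset (fun y hy => ?_)
  · have hYi := Comp.irr hY
    have hYV := Comp.subset hY
    obtain ⟨w, hw⟩ := hYi.nonempty
    have h2 : Y ⊂ C := ⟨fun z hz => (hYV hz).1, fun hCY => h fun z hz => (hYV (hCY hz)).2⟩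
    have h3 := td_lt hYi hC h2
    rw [hd] at h3
    have h4 : ({w} : Set (κ → ℂˣ)) = Y := eq_of_td_le (irr_singleton w) hYi
      (Set.singleton_subset_iff.2 hw) (by omega)
    rw [← h4]
    exact Set.finite_singleton w
  · obtain ⟨Y, hY, hyY⟩ := exists_comp_mem hV hy
    exact ⟨Y, hY, hyY⟩

variable {κ : Type} [Fintype κ] {r : ℕ} {C : Set (κ → ℂˣ)}

/-- A character which is not constant takes every value finitely often. -/
theorem k9t1_ch (hC : Irr C) (hd : td ℂ C = 1) (hnc : ∀ v : κ → ℤ, v ≠ 0 → ∀ z : ℂˣ, ¬ ∀ y ∈ C, ch v y = z)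
    {v : κ → ℤ} (hv : v ≠ 0) (z : ℂˣ) : {y : κ → ℂˣ | y ∈ C ∧ ch v y = z}.Finite :=
  k9t1_fin hC hd (zclosed_ch v z) fun h => hnc v hv z fun _ hy => h hy

omit [Fintype κ] in
/-- Combinations of independent exponents are not zero. -/
theorem k9t1_comb {b : Fin r → κ → ℤ} (hb : LinearIndependent ℤ b) {c : Fin r → ℤ} (hc : c ≠ 0) :
    ∑ k, c k • b k ≠ 0 := by
  intro h
  apply hc
  funext k
  exact Fintype.linearIndependent_iff.1 hb c h k

omit [Fintype κ] in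
/-- The map of exponents. -/
theorem k9t1_li {b : Fin r → κ → ℤ} (hb : LinearIndependent ℤ b) {s : ℕ} {n : Fin s → Fin r → ℤ}
    (hn : LinearIndependent ℤ n) : LinearIndependent ℤ (fun j => ∑ k, n j k • b k) := by
  have h1 : (fun j => ∑ k, n j k • b k) = (Fintype.linearCombination ℤ b) ∘ n := by
    funext j
    rw [Function.comp_apply, Fintype.linearCombination_apply]
  rw [h1]
  refine hn.map' _ ?_
  rw [LinearMap.ker_eq_bot]
  exact linearIndependent_iff_injective_fintypeLinearCombination.1 hb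

/-- The closure of the image of a curve under independent characters is a curve. -/
theorem t1_irr (hC : Irr C) (b : Fin r → κ → ℤ) : Irr (cl ℂ (phi b '' C)) :=
  irr_cl (hC.pirr.image (d1_ratMap C b))

theorem t1_td (hC : Irr C) (hd : td ℂ C = 1) (hnc : ∀ v : κ → ℤ, v ≠ 0 → ∀ z : ℂˣ, ¬ ∀ y ∈ C, ch v y = z)
    (hr : 0 < r) {b : Fin r → κ → ℤ} (hb : LinearIndependent ℤ b) : td ℂ (cl ℂ (phi b '' C)) = 1 := by
  have hI : PIrr (phi b '' C) := hC.pirr.image (d1_ratMap C b)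
  rw [td_cl]
  have hX' : PIrr (gr (phi b) '' C) := hC.pirr.image (d1_ratMap C b).gr
  have hP := vI_isPrime (k := ℂ) hX'
  have hdom : IsDomain (MvPolynomial (κ ⊕ Fin r) ℂ ⧸ vI ℂ (gr (phi b) '' C)) := Ideal.Quotient.isDomain _
  have h1 : ∀ i, IsAlgebraic (Algebra.adjoin ℂ (gen ℂ (gr (phi b) '' C) '' Set.range Sum.inl))
      (gen ℂ (gr (phi b) '' C) i) := by
    rintro (j | n)
    · exact isAlgebraic_algebraMap (⟨gen ℂ (gr (phi b) '' C) (Sum.inl j), Algebra.subset_adjoin ⟨_, ⟨j, rfl⟩, rfl⟩⟩ :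
        Algebra.adjoin ℂ (gen ℂ (gr (phi b) '' C) '' Set.range Sum.inl))
    · exact k9prc_algr hX' n (b n) fun x _ => rfl
  have h3 := td_le_pull (k := ℂ) hX' (e := (Sum.inl : κ → κ ⊕ Fin r)) Sum.inl_injective (Set.range Sum.inl) h1
  have h6 := k9prc_pull hX' (Sum.inr : Fin r → κ ⊕ Fin r)
  rw [Set.sdiff_self, Set.ncard_empty, add_zero, pull_inl_gr, hd] at h3
  rw [pull_inr_gr] at h6
  have h7 : 1 ≤ td ℂ (phi b '' C) := by
    by_contra hcon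
    obtain ⟨w, hw⟩ := hC.nonempty
    have h8 : ({phi b w} : Set (Fin r → ℂˣ)) = cl ℂ (phi b '' C) := eq_of_td_le (irr_singleton _) (irr_cl hI)
      (Set.singleton_subset_iff.2 (subset_cl _ ⟨w, hw, rfl⟩)) (by rw [td_cl]; omega)
    have hb0 : b ⟨0, hr⟩ ≠ 0 := hb.ne_zero _
    refine hnc _ hb0 (phi b w ⟨0, hr⟩) fun y hy => ?_
    have h9 : phi b y ∈ cl ℂ (phi b '' C) := subset_cl _ ⟨y, hy, rfl⟩
    rw [← h8, Set.mem_singleton_iff] at h9
    exact congrFun h9 _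
  omega

theorem t1_nc (hnc : ∀ v : κ → ℤ, v ≠ 0 → ∀ z : ℂˣ, ¬ ∀ y ∈ C, ch v y = z) {b : Fin r → κ → ℤ}
    (hb : LinearIndependent ℤ b) : ∀ v : Fin r → ℤ, v ≠ 0 → ∀ z : ℂˣ, ¬ ∀ y ∈ cl ℂ (phi b '' C), ch v y = z := by
  intro v hv z h
  refine hnc (∑ k, v k • b k) (k9t1_comb hb hv) z fun y hy => ?_
  rw [← d1_ch]
  exact h _ (subset_cl _ ⟨y, hy, rfl⟩)

/-- The closure of the image has only finitely many points outside the image. -/
theorem t1_cofin (hC : Irr C) (hd : td ℂ C = 1) (hnc : ∀ v : κ → ℤ, v ≠ 0 → ∀ z : ℂˣ, ¬ ∀ y ∈ C, ch v y = z)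
    (hr : 0 < r) {b : Fin r → κ → ℤ} (hb : LinearIndependent ℤ b) :
    (cl ℂ (phi b '' C) \ phi b '' C).Finite := by
  have hG : gr (phi b) '' C = (pull (Sum.inl : κ → κ ⊕ Fin r) ⁻¹' C) ∩
      ⋂ k : Fin r, {z : κ ⊕ Fin r → ℂˣ | ch (Sum.elim (b k) (Pi.single k (-1))) z = 1} := by
    ext z
    rw [Set.mem_inter_iff, Set.mem_iInter]
    have hz : ∀ k, ch (Sum.elim (b k) (Pi.single k (-1))) z = ch (b k) (pull Sum.inl z) * (z (Sum.inr k))⁻¹ := by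
      intro k
      rw [ch_sum]
      have e1 : (Sum.elim (b k) (Pi.single k (-1)) : κ ⊕ Fin r → ℤ) ∘ Sum.inl = b k := rfl
      have e2 : (Sum.elim (b k) (Pi.single k (-1)) : κ ⊕ Fin r → ℤ) ∘ Sum.inr = Pi.single k (-1) := rfl
      rw [e1, e2, ch_single, zpow_neg_one]
      rfl
    constructor
    · rintro ⟨y, hy, rfl⟩
      refine ⟨hy, fun k => ?_⟩
      show ch (Sum.elim (b k) (Pi.single k (-1))) _ = 1
      rw [hz]
      exact mul_inv_cancel _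
    · rintro ⟨h1, h2⟩
      refine ⟨pull Sum.inl z, h1, ?_⟩
      funext l
      rcases l with j | k
      · rfl
      · have h3 : ch (Sum.elim (b k) (Pi.single k (-1))) z = 1 := h2 k
        rw [hz] at h3
        exact mul_inv_eq_one.1 h3
  have hGc : ZClosed (gr (phi b) '' C) := by
    rw [hG]
    exact ((ratMap_pull Set.univ _).preimage_closed hC.closed).inter (ZClosed.iInter fun k => zclosed_ch _ _)
  have hGi : Irr (gr (phi b) '' C) := ⟨hGc, hC.pirr.image (d1_ratMap C b).gr⟩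
  obtain ⟨f, hf, hy⟩ := k9t_cheval hGi (Sum.inr : Fin r → κ ⊕ Fin r)
  rw [pull_inr_gr] at hf hy
  have hC' := t1_irr (r := r) hC b
  refine (k9t1_fin hC' (t1_td hC hd hnc hr hb) (zclosed_zp f) ?_).subset ?_
  · intro h
    apply hf
    rw [mem_vI]
    intro x hx
    exact h (subset_cl _ hx)
  · rintro y ⟨h1, h2⟩
    refine ⟨h1, ?_⟩
    by_contra h3
    exact h2 (hy y h1 h3)

/-- The fibres of the map on the curve are finite. -/
theorem t1_fib (hC : Irr C) (hd : td ℂ C = 1) (hnc : ∀ v : κ → ℤ, v ≠ 0 → ∀ z : ℂˣ, ¬ ∀ y ∈ C, ch v y = z)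
    (hr : 0 < r) {b : Fin r → κ → ℤ} (hb : LinearIndependent ℤ b) (y' : Fin r → ℂˣ) :
    {y : κ → ℂˣ | y ∈ C ∧ phi b y = y'}.Finite := by
  refine (k9t1_ch hC hd hnc (v := b ⟨0, hr⟩) (hb.ne_zero _) (y' ⟨0, hr⟩)).subset ?_
  rintro y ⟨hy, rfl⟩
  exact ⟨hy, rfl⟩

/-- Conditions on absolute values pass to the closure of the image. -/
theorem t1_hh2 (hC : Irr C) (hd : td ℂ C = 1) (hnc : ∀ v : κ → ℤ, v ≠ 0 → ∀ z : ℂˣ, ¬ ∀ y ∈ C, ch v y = z)
    (hr : 0 < r) {b : Fin r → κ → ℤ} (hb : LinearIndependent ℤ b)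
    (h2 : ∀ n n' : κ → ℤ, LinearIndependent ℤ ![n, n'] →
      {y : κ → ℂˣ | y ∈ C ∧ ‖((ch n y : ℂˣ) : ℂ)‖ = 1 ∧ ‖((ch n' y : ℂˣ) : ℂ)‖ = 1}.Finite) :
    ∀ n n' : Fin r → ℤ, LinearIndependent ℤ ![n, n'] →
      {y : Fin r → ℂˣ | y ∈ cl ℂ (phi b '' C) ∧ ‖((ch n y : ℂˣ) : ℂ)‖ = 1 ∧ ‖((ch n' y : ℂˣ) : ℂ)‖ = 1}.Finite := by
  intro n n' hn
  have h3 : LinearIndependent ℤ ![∑ k, n k • b k, ∑ k, n' k • b k] := by
    have h4 := k9t1_li hb hn
    have h5 : (fun j => ∑ k, (![n, n'] : Fin 2 → Fin r → ℤ) j k • b k) = ![∑ k, n k • b k, ∑ k, n' k • b k] := by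
      funext j
      match j with
      | 0 => rfl
      | 1 => rfl
    rwa [h5] at h4
  refine ((t1_cofin hC hd hnc hr hb).union ((h2 _ _ h3).image (phi b))).subset ?_
  rintro y ⟨hy, hy1, hy2⟩
  by_cases h : y ∈ phi b '' C
  · right
    obtain ⟨x, hx, rfl⟩ := h
    rw [d1_ch] at hy1 hy2
    exact ⟨x, ⟨hx, hy1, hy2⟩, rfl⟩
  · exact Or.inl ⟨hy, h⟩

theorem t1_hh3 (hC : Irr C) (hd : td ℂ C = 1) (hnc : ∀ v : κ → ℤ, v ≠ 0 → ∀ z : ℂˣ, ¬ ∀ y ∈ C, ch v y = z)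
    (hr : 0 < r) {b : Fin r → κ → ℤ} (hb : LinearIndependent ℤ b)
    (h3 : ∀ n : Fin 3 → κ → ℤ, LinearIndependent ℤ n → ∀ ρ : Fin 3 → ℝ,
      {y : κ → ℂˣ | y ∈ C ∧ ∀ k, ‖((ch (n k) y : ℂˣ) : ℂ)‖ = ρ k}.Finite) :
    ∀ n : Fin 3 → Fin r → ℤ, LinearIndependent ℤ n → ∀ ρ : Fin 3 → ℝ,
      {y : Fin r → ℂˣ | y ∈ cl ℂ (phi b '' C) ∧ ∀ k, ‖((ch (n k) y : ℂˣ) : ℂ)‖ = ρ k}.Finite := by
  intro n hn ρ
  refine ((t1_cofin hC hd hnc hr hb).union ((h3 _ (k9t1_li hb hn) ρ).image (phi b))).subset ?_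
  rintro y ⟨hy, hy1⟩
  by_cases h : y ∈ phi b '' C
  · right
    obtain ⟨x, hx, rfl⟩ := h
    refine ⟨x, ⟨hx, fun k => ?_⟩, rfl⟩
    rw [← hy1 k, d1_ch]
  · exact Or.inl ⟨hy, h⟩

/-- Independence of real linear relations passes to the closure of the image. -/
theorem t1_indep {m : ℕ} {C : Set (Fin m → ℂˣ)} (hC : Irr C) (hd : td ℂ C = 1)
    (hnc : ∀ v : Fin m → ℤ, v ≠ 0 → ∀ z : ℂˣ, ¬ ∀ y ∈ C, ch v y = z) (hr : 0 < r) {b : Fin r → Fin m → ℤ}
    (hb : LinearIndependent ℤ b) (hI : Indep C) : Indep (cl ℂ (phi b '' C)) := by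
  intro u v huv
  have hN := k9ex_real hb
  have hinj : Function.Injective (Fintype.linearCombination ℝ (fun k i => (b k i : ℝ) : Fin r → Fin m → ℝ)) :=
    hN.fintypeLinearCombination_injective
  have h3 := huv.map' (Fintype.linearCombination ℝ (fun k i => (b k i : ℝ) : Fin r → Fin m → ℝ))
    (LinearMap.ker_eq_bot.2 hinj)
  have h4 : (Fintype.linearCombination ℝ (fun k i => (b k i : ℝ) : Fin r → Fin m → ℝ)) ∘ ![u, v] =
      ![∑ k, u k • (fun i => (b k i : ℝ) : Fin m → ℝ), ∑ k, v k • (fun i => (b k i : ℝ) : Fin m → ℝ)] := by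
    funext k
    match k with
    | 0 => exact Fintype.linearCombination_apply ℝ _ _
    | 1 => exact Fintype.linearCombination_apply ℝ _ _
  rw [h4] at h3
  have key : ∀ (w : Fin r → ℝ) (x : Fin m → ℂˣ),
      ∑ i, (∑ k, w k • (fun i => (b k i : ℝ) : Fin m → ℝ)) i * Real.log ‖(x i : ℂ)‖ =
        ∑ k, w k * Real.log ‖((phi b x k : ℂˣ) : ℂ)‖ := by
    intro w x
    have h5 : ∀ k, Real.log ‖((phi b x k : ℂˣ) : ℂ)‖ = ∑ i, (b k i : ℝ) * Real.log ‖(x i : ℂ)‖ := fun k => ind_log x (b k)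
    simp only [h5, Finset.sum_apply, Pi.smul_apply, smul_eq_mul, Finset.sum_mul, Finset.mul_sum]
    rw [Finset.sum_comm]
    exact Finset.sum_congr rfl fun k _ => Finset.sum_congr rfl fun i _ => by ring
  refine ((t1_cofin hC hd hnc hr hb).union ((hI _ _ h3).image (phi b))).subset ?_
  rintro y ⟨hy, hy1, hy2⟩
  by_cases h : y ∈ phi b '' C
  · right
    obtain ⟨x, hx, rfl⟩ := h
    exact ⟨x, ⟨hx, by rw [key, hy1], by rw [key, hy2]⟩, rfl⟩
  · exact Or.inl ⟨hy, h⟩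

/-- Row Z9-T1. The condition on the images follows from the condition on the curve. -/
theorem hcx_of_indep {m : ℕ} {C : Set (Fin m → ℂˣ)} (h1 : Irr C) (h2 : td ℂ C = 1)
    (h3 : ∀ v : Fin m → ℤ, v ≠ 0 → ∀ z : ℂˣ, ¬ ∀ y ∈ C, ch v y = z) (h4 : Indep C) : HCx C where
  irr := h1
  dim := h2
  nc := h3
  ind _ _ hs hb _ := t1_indep h1 h2 h3 (by omega) hb h4

end Pool.Agent.Z9
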