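import Pool.Agent.Z9.SG
import Pool.Agent.Z9.T1

open MvPolynomial Pool.Agent.MP_dd1803_nt Pool.Agent.ZPA Pool.Agent.ZL2

namespace Pool.Agent.Z9

/-- `Z` is the set of the common zeros in the torus of polynomials with algebraic coefficients. -/
def OverQbar {κ : Type} (Z : Set (κ → ℂˣ)) : Prop :=
  ∃ S : Set (MvPolynomial κ ℂ), (∀ p ∈ S, ∀ α, IsAlgebraic ℚ (MvPolynomial.coeff α p)) ∧
    Z = {y | ∀ p ∈ S, MvPolynomial.eval (fun i => (y i : ℂ)) p = 0}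

theorem k9t11_eval {κ : Type} (q : MvPolynomial κ (acl (∅ : Set ℂ))) (y : κ → ℂˣ) :
    MvPolynomial.aeval (co y) q =
      MvPolynomial.eval (fun i => (y i : ℂ)) (MvPolynomial.map (algebraMap (acl (∅ : Set ℂ)) ℂ) q) := by
  rw [MvPolynomial.eval_map, MvPolynomial.aeval_def]
  rfl

/-- Bridge (i). -/
theorem overQbar_iff {κ : Type} {Z : Set (κ → ℂˣ)} : OverQbar Z ↔ cl (acl (∅ : Set ℂ)) Z = Z := by
  constructor
  · rintro ⟨S, hS, hC⟩
    apply Set.Subset.antisymm _ (subset_cl _)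
    intro x hx
    rw [hC]
    intro p hp
    obtain ⟨q, hq⟩ : ∃ q : MvPolynomial κ (acl (∅ : Set ℂ)),
        MvPolynomial.map (algebraMap (acl (∅ : Set ℂ)) ℂ) q = p := by
      have h2 : p ∈ Set.range (MvPolynomial.map (σ := κ) (algebraMap (acl (∅ : Set ℂ)) ℂ)) := by
        rw [MvPolynomial.mem_range_map_iff_coeffs_subset]
        intro c hc
        obtain ⟨β, -, rfl⟩ := MvPolynomial.mem_coeffs_iff.1 hc
        exact ⟨⟨_, mem_acl_empty.2 (hS p hp β)⟩, rfl⟩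
      exact h2
    rw [← hq, ← k9t11_eval]
    apply hx
    rw [SetLike.mem_coe, mem_vI]
    intro y hy
    rw [k9t11_eval, hq]
    rw [hC] at hy
    exact hy p hp
  · intro h
    refine ⟨(fun q => MvPolynomial.map (algebraMap (acl (∅ : Set ℂ)) ℂ) q) ''
      (vI (acl (∅ : Set ℂ)) Z : Set (MvPolynomial κ (acl (∅ : Set ℂ)))), ?_, ?_⟩
    · rintro _ ⟨q, -, rfl⟩ α
      rw [MvPolynomial.coeff_map]
      exact mem_acl_empty.1 (MvPolynomial.coeff α q).2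
    · apply Set.Subset.antisymm
      · rintro y hy _ ⟨q, hq, rfl⟩
        rw [← k9t11_eval]
        exact mem_vI.1 hq y hy
      · intro y hy
        rw [← h]
        intro q hq
        rw [k9t11_eval]
        exact hy _ ⟨q, hq, rfl⟩

/-- Bridge (ii): the closure of a conjugate. -/
theorem cl_sg {κ : Type} (σ : ℂ ≃+* ℂ) (X : Set (κ → ℂˣ)) : cl ℂ (sg σ X) = sg σ (cl ℂ X) := by
  apply Set.Subset.antisymm
  · exact cl_subset (k9sga_mono σ (subset_cl X)) (zclosed_sg σ (zclosed_cl X))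
  · rw [← k9sga_sg σ (cl ℂ (sg σ X))]
    apply k9sga_mono σ
    refine cl_subset ?_ (zclosed_sg σ.symm (zclosed_cl _))
    have h1 := k9sga_mono σ.symm (subset_cl (k := ℂ) (sg σ X))
    rwa [sg_sg] at h1

theorem sgp_ch {κ : Type} [Fintype κ] (σ : ℂ ≃+* ℂ) (n : κ → ℤ) (y : κ → ℂˣ) :
    ch n (sgp σ y) = Units.map (σ : ℂ →* ℂ) (ch n y) := by
  unfold ch
  rw [map_prod]
  exact Finset.prod_congr rfl fun i _ => (map_zpow _ _ _).symm

theorem sgp_phi {κ : Type} [Fintype κ] (σ : ℂ ≃+* ℂ) {r : ℕ} (b : Fin r → κ → ℤ) (y : κ → ℂˣ) :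
    phi b (sgp σ y) = sgp σ (phi b y) := by
  funext k
  exact sgp_ch σ (b k) y

theorem phi_sg {κ : Type} [Fintype κ] (σ : ℂ ≃+* ℂ) {r : ℕ} (b : Fin r → κ → ℤ) (C : Set (κ → ℂˣ)) :
    phi b '' sg σ C = sg σ (phi b '' C) := by
  apply Set.Subset.antisymm
  · rintro _ ⟨y, hy, rfl⟩
    exact ⟨sgp σ.symm y, hy, sgp_phi σ.symm b y⟩
  · rintro x ⟨y, hy, hxy⟩
    refine ⟨sgp σ y, (mem_sg σ).2 hy, ?_⟩
    rw [sgp_phi, hxy, sgp_symm']

/-- The field `ind` for the conjugate `sg σ C` from the condition of the result file. -/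
theorem ind_of {m : ℕ} {C : Set (Fin m → ℂˣ)} (σ : ℂ ≃+* ℂ) (hC : Irr C) (hd : td ℂ C = 1)
    (hnc : ∀ v : Fin m → ℤ, v ≠ 0 → ∀ z : ℂˣ, ¬ ∀ y ∈ C, ch v y = z)
    (hI : ∀ (s : ℕ) (b : Fin s → Fin m → ℤ), 3 ≤ s → LinearIndependent ℤ b → ∀ Z : Set (Fin s → ℂˣ), Irr Z →
      dm Z = 1 → OverQbar Z → (∀ y ∈ C, (fun i => ch (b i) y) ∈ Z) → ∀ u v : Fin s → ℝ, LinearIndependent ℝ ![u, v] →
      {z : Fin s → ℂˣ | z ∈ Z ∧ ∑ i, u i * Real.log ‖σ (z i)‖ = 0 ∧ ∑ i, v i * Real.log ‖σ (z i)‖ = 0}.Finite)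
    (s : ℕ) (b : Fin s → Fin m → ℤ) (hs : 3 ≤ s) (hb : LinearIndependent ℤ b)
    (hcl : cl (acl (∅ : Set ℂ)) (cl ℂ (phi b '' sg σ C)) = cl ℂ (phi b '' sg σ C)) :
    Indep (cl ℂ (phi b '' sg σ C)) := by
  rw [phi_sg, cl_sg] at hcl ⊢
  have hW : Irr (cl ℂ (phi b '' C)) := t1_irr hC b
  have hWd : dm (cl ℂ (phi b '' C)) = 1 := by
    rw [dm_irr hW, t1_td hC hd hnc (by omega) hb]
    rfl
  have hWa : OverQbar (cl ℂ (phi b '' C)) := by
    rw [overQbar_iff]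
    have h1 := acl_sg σ.symm hcl
    rwa [sg_sg] at h1
  intro u v huv
  have h1 := hI s b hs hb _ hW hWd hWa (fun y hy => subset_cl _ ⟨y, hy, rfl⟩) u v huv
  refine (h1.image (sgp σ)).subset ?_
  rintro y ⟨hy, h2, h3⟩
  have h4 : ∀ i, σ ((sgp σ.symm y i : ℂˣ) : ℂ) = (y i : ℂ) := fun i =>
    congrArg Units.val (congrFun (sgp_symm' σ y) i)
  refine ⟨sgp σ.symm y, ⟨hy, ?_, ?_⟩, sgp_symm' σ y⟩
  · simp only [h4]
    exact h2
  · simp only [h4]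
    exact h3

end Pool.Agent.Z9
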