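import Pool.Agent.Z9.T0b
import Pool.Agent.Z9.T11

open MvPolynomial Pool.Agent.MP_dd1803_nt Pool.Agent.ZPA Pool.Agent.ZL2

namespace Pool.Agent.Z9

/-- The closure of the image under a monomial map of a set defined over the algebraic numbers is defined over the algebraic
numbers. -/
theorem phi_acl {κ : Type} [Fintype κ] {r : ℕ} (c : Fin r → κ → ℤ) {V : Set (κ → ℂˣ)}
    (hVa : cl (acl (∅ : Set ℂ)) V = V) : cl (acl (∅ : Set ℂ)) (cl ℂ (phi c '' V)) = cl ℂ (phi c '' V) := by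
  have hac := isAlgClosed_acl (∅ : Set ℂ)
  apply Set.Subset.antisymm _ (subset_cl _)
  intro x hx p hp
  apply aeval_eq_zero_of_cmpl (k := acl (∅ : Set ℂ))
  intro φ
  have h1 : cmpl φ p ∈ vI (acl (∅ : Set ℂ)) (phi c '' V) := by
    rw [mem_vI]
    rintro _ ⟨v, hv, rfl⟩
    obtain ⟨X, hX, hvX⟩ := exists_comp_mem (closed_of_cl hVa) hv
    have hXa := Comp.cl hVa hX
    obtain ⟨h, u, huh⟩ := k9pra_pull (K := acl (∅ : Set ℂ)) c p
    have h2 : h ∈ vI ℂ X := by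
      rw [mem_vI]
      intro y hy
      obtain ⟨-, e2, -⟩ := huh y
      rw [e2]
      have h3 := (mem_vI.mp hp) (phi c y) ⟨y, hX.subset hy, rfl⟩
      have h4 : aeval (co (fun j => ch (c j) y)) p = 0 := h3
      rw [h4, mul_zero]
    rw [← hXa, mem_vI_cl hX.irr.pirr] at h2
    have h4 := (mem_vI.mp (h2 φ)) v hvX
    obtain ⟨e1, -, e3⟩ := huh v
    rw [e3 φ] at h4
    exact (mul_eq_zero.mp h4).resolve_left e1
  have h5 : cmpl φ p ∈ vI (acl (∅ : Set ℂ)) (cl ℂ (phi c '' V)) := by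
    rw [mem_vI]
    intro y hy
    have h6 : MvPolynomial.map (algebraMap (acl (∅ : Set ℂ)) ℂ) (cmpl φ p) ∈ vI ℂ (phi c '' V) := by
      rw [mem_vI]
      intro z hz
      rw [aeval_map_algebraMap]
      exact mem_vI.mp h1 z hz
    have h7 := hy _ h6
    rw [aeval_map_algebraMap] at h7
    exact h7
  exact hx _ h5

/-- The closure of the image of the closure. -/
theorem cl_phi_cl {κ : Type} [Fintype κ] {r : ℕ} (c : Fin r → κ → ℤ) (X : Set (κ → ℂˣ)) :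
    cl ℂ (phi c '' cl ℂ X) = cl ℂ (phi c '' X) := by
  apply Set.Subset.antisymm
  · refine cl_subset ?_ (zclosed_cl _)
    rintro _ ⟨x, hx, rfl⟩
    have h1 : cl ℂ X ⊆ phi c ⁻¹' cl ℂ (phi c '' X) :=
      cl_subset (fun x hx => subset_cl _ ⟨x, hx, rfl⟩)
        ((d1_ratMap Set.univ c).preimage_closed (zclosed_cl _))
    exact h1 hx
  · exact cl_mono (Set.image_mono (subset_cl _))

/-- If an image in dimension `s ≥ 3` is defined over the algebraic numbers then so is an image in dimension three. -/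
theorem image_three {m s : ℕ} {C : Set (Fin m → ℂˣ)} (hs : 3 ≤ s) {b : Fin s → Fin m → ℤ}
    (hb : LinearIndependent ℤ b) (h : cl (acl (∅ : Set ℂ)) (cl ℂ (phi b '' C)) = cl ℂ (phi b '' C)) :
    LinearIndependent ℤ (b ∘ Fin.castLE hs) ∧ cl (acl (∅ : Set ℂ)) (cl ℂ (phi (b ∘ Fin.castLE hs) '' C)) =
      cl ℂ (phi (b ∘ Fin.castLE hs) '' C) := by
  refine ⟨hb.comp _ (Fin.castLE_injective hs), ?_⟩
  have h1 : phi (b ∘ Fin.castLE hs) '' C =
      phi (fun j : Fin 3 => (Pi.single (Fin.castLE hs j) 1 : Fin s → ℤ)) '' (phi b '' C) := by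
    rw [Set.image_image]
    refine Set.image_congr fun x _ => ?_
    funext j
    show ch (b (Fin.castLE hs j)) x = ch (Pi.single (Fin.castLE hs j) 1) (phi b x)
    rw [ch_single, zpow_one]
    rfl
  rw [h1, ← cl_phi_cl]
  exact phi_acl _ h

/-- A curve which contains the image is the closure of the image. -/
theorem eq_image {m s : ℕ} {C : Set (Fin m → ℂˣ)} (hC : Irr C) (hd : td ℂ C = 1)
    (hnc : ∀ v : Fin m → ℤ, v ≠ 0 → ∀ z : ℂˣ, ¬ ∀ y ∈ C, ch v y = z) (hs : 0 < s) {b : Fin s → Fin m → ℤ}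
    (hb : LinearIndependent ℤ b) {Z : Set (Fin s → ℂˣ)} (hZ : Irr Z) (hZd : dm Z = 1)
    (h : ∀ y ∈ C, (fun i => ch (b i) y) ∈ Z) : cl ℂ (phi b '' C) = Z := by
  refine eq_of_td_le (t1_irr hC b) hZ (cl_subset ?_ hZ.closed) ?_
  · rintro _ ⟨y, hy, rfl⟩
    exact h y hy
  · rw [t1_td hC hd hnc hs hb]
    rw [dm_irr hZ] at hZd
    have h1 : td ℂ Z = 1 := by exact_mod_cast hZd
    omega

theorem sg_td {κ : Type} [Fintype κ] (σ : ℂ ≃+* ℂ) {C : Set (κ → ℂˣ)} (hC : Irr C) : td ℂ (sg σ C) = td ℂ C := by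
  have h1 := dm_sg σ C
  rw [dm_irr hC, dm_irr ((irr_sg σ).2 hC)] at h1
  exact_mod_cast h1

theorem sg_nc {κ : Type} [Fintype κ] (σ : ℂ ≃+* ℂ) {C : Set (κ → ℂˣ)}
    (hnc : ∀ v : κ → ℤ, v ≠ 0 → ∀ z : ℂˣ, ¬ ∀ y ∈ C, ch v y = z) :
    ∀ v : κ → ℤ, v ≠ 0 → ∀ z : ℂˣ, ¬ ∀ y ∈ sg σ C, ch v y = z := by
  intro v hv z h
  refine hnc v hv (Units.map (σ.symm : ℂ →* ℂ) z) fun y hy => ?_
  have h1 := h _ ((mem_sg σ).2 hy)
  rw [sgp_ch] at h1
  rw [← h1]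
  apply Units.ext
  show ((ch v y : ℂˣ) : ℂ) = σ.symm (σ ((ch v y : ℂˣ) : ℂ))
  rw [σ.symm_apply_apply]

/-- Independence of the real linear relations, for the automorphism `σ`, passes to the closure of the image. -/
theorem indep_sg {m s : ℕ} {C : Set (Fin m → ℂˣ)} (σ : ℂ ≃+* ℂ) (hC : Irr C) (hd : td ℂ C = 1)
    (hnc : ∀ v : Fin m → ℤ, v ≠ 0 → ∀ z : ℂˣ, ¬ ∀ y ∈ C, ch v y = z)
    (hI : ∀ u v : Fin m → ℝ, LinearIndependent ℝ ![u, v] →
      {y : Fin m → ℂˣ | y ∈ C ∧ ∑ i, u i * Real.log ‖σ (y i)‖ = 0 ∧ ∑ i, v i * Real.log ‖σ (y i)‖ = 0}.Finite)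
    (hs : 0 < s) {b : Fin s → Fin m → ℤ} (hb : LinearIndependent ℤ b) :
    ∀ u v : Fin s → ℝ, LinearIndependent ℝ ![u, v] → {z : Fin s → ℂˣ | z ∈ cl ℂ (phi b '' C) ∧
      ∑ i, u i * Real.log ‖σ (z i)‖ = 0 ∧ ∑ i, v i * Real.log ‖σ (z i)‖ = 0}.Finite := by
  have h1 : Indep (sg σ C) := by
    intro u v huv
    refine ((hI u v huv).image (sgp σ)).subset ?_
    rintro y ⟨hy, h2, h3⟩
    have h4 : ∀ i, σ ((sgp σ.symm y i : ℂˣ) : ℂ) = (y i : ℂ) := fun i =>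
      congrArg Units.val (congrFun (sgp_symm' σ y) i)
    refine ⟨sgp σ.symm y, ⟨hy, ?_, ?_⟩, sgp_symm' σ y⟩
    · simp only [h4]
      exact h2
    · simp only [h4]
      exact h3
  have h2 := t1_indep ((irr_sg σ).2 hC) (by rw [sg_td σ hC, hd]) (sg_nc σ hnc) hs hb h1
  rw [phi_sg, cl_sg] at h2
  intro u v huv
  refine ((h2 u v huv).image (sgp σ.symm)).subset ?_
  rintro z ⟨hz, h3, h4⟩
  exact ⟨sgp σ z, ⟨(mem_sg σ).2 hz, h3, h4⟩, sgp_symm σ z⟩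

end Pool.Agent.Z9
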