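import Pool.Agent.Z9.Defs
import Pool.Agent.Z7.A4

namespace Pool.Agent.Z9

open Pool.Agent.ZL2 Filter Topology
open Pool.Agent.Z5 (fr Gen ev2)
open Pool.Agent.Z6 (dt)
open Pool.Agent.Z8 (sp evk rwk lev)
open Pool.Agent.Z7 (lg Cv HHp Chart)

variable {k m : ℕ} [NeZero m]

/-- The value as a sum over the support. -/
theorem k9a4_evk {k m : ℕ} (Φ : MvPolynomial (Fin k) (MvPolynomial (Fin m) ℂ)) (x : Fin k → ℂ) (y : Fin m → ℂ) :
    evk Φ x y = ∑ α ∈ Φ.support, MvPolynomial.eval y (Φ.coeff α) * ∏ j, x j ^ α j := by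
  unfold evk sp
  rw [MvPolynomial.eval_map, MvPolynomial.eval₂_eq']

theorem k9a4_rwk {k m : ℕ} (M : Fin k → Fin m → ℝ) (α β : Fin k →₀ ℕ) (v : Fin m → ℝ) :
    dt (rwk M α β) v = ∑ j, ((α j : ℝ) - (β j : ℝ)) * dt (M j) v := by
  unfold rwk Pool.Agent.Z6.dt
  simp only [Finset.sum_mul, Finset.mul_sum]
  rw [Finset.sum_comm]
  exact Finset.sum_congr rfl fun j _ => Finset.sum_congr rfl fun i _ => by ring

theorem k9a4_core (hm : 2 ≤ m) {S : Sk k m} (hH : HHp S.toCv) {U : Ultrafilter ℕ} (Z : Sq S U) {J : Type} [Finite J]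
    (w : ℕ → J → Fin m → ℝ) (hw : ∀ n j, dt (w n j) (Z.u n) = 0) {K : ℝ} (hK : 0 ≤ K)
    (hr : ∀ j, ∀ A : ℝ, ∀ᶠ n in (U : Filter ℕ), A < Real.sqrt (dt (w n j) (w n j)))
    (hP : ∀ᶠ n in (U : Filter ℕ), 1 / 2 ≤ fr (fun σ : Z.ι n => ∃ j, |dt (w n j) (lg (Z.y n σ))| ≤ K)) :
    False := by
  cases nonempty_fintype J
  choose e he1 he2 he3 using fun n j => Pool.Agent.Z6.a4_unit hm (Z.hu n) (hw n j)
  have hlim : Tendsto (fun n => ∑ j, K / Real.sqrt (dt (w n j) (w n j))) (U : Filter ℕ) (𝓝 0) := by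
    have h1 : Tendsto (fun n => ∑ j, K / Real.sqrt (dt (w n j) (w n j)))
        (U : Filter ℕ) (𝓝 (∑ _j : J, (0 : ℝ))) := by
      refine tendsto_finsetSum _ fun j _ => ?_
      refine Tendsto.const_div_atTop ?_ K
      rw [tendsto_atTop]
      exact fun A => (hr j A).mono fun n hn => hn.le
    rwa [Finset.sum_const_zero] at h1
  refine Pool.Agent.Z7.lemI S.toCv hH U Z.y Z.gen Z.hy Z.hB Z.u e Z.hu he1 he2 _ hlim ?_
  have hpos : ∀ᶠ n in (U : Filter ℕ), ∀ j, 0 < Real.sqrt (dt (w n j) (w n j)) := by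
    rw [Filter.eventually_all]
    exact fun j => hr j 0
  filter_upwards [hP, hpos] with n h1 h2
  refine h1.trans (Z5.fr_mono fun σ => ?_)
  rintro ⟨j, hj⟩
  have hnn : ∀ i, 0 ≤ K / Real.sqrt (dt (w n i) (w n i)) := fun i => div_nonneg hK (h2 i).le
  refine ⟨j, ?_, ?_⟩
  · rw [Z.r0 n σ, abs_zero]
    exact Finset.sum_nonneg fun i _ => hnn i
  · rw [he3 n j, abs_mul, abs_of_pos (h2 j)] at hj
    have h3 : |dt (e n j) (lg (Z.y n σ))| ≤ K / Real.sqrt (dt (w n j) (w n j)) := by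
      rw [le_div_iff₀ (h2 j), mul_comm]
      exact hj
    exact h3.trans (Finset.single_le_sum (f := fun i => K / Real.sqrt (dt (w n i) (w n i)))
      (fun i _ => hnn i) (Finset.mem_univ j))

/-- The rational directions in which the rows are bounded. -/
def k9a4_B (U : Ultrafilter ℕ) (M : ℕ → Fin k → Fin m → ℝ) : Submodule ℚ (Fin k → ℚ) where
  carrier := {b | ∃ A : ℝ, ∀ᶠ n in (U : Filter ℕ), ∀ i, |∑ j, ((b j : ℚ) : ℝ) * M n j i| ≤ A}
  zero_mem' := ⟨0, Filter.Eventually.of_forall fun n i => by simp⟩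
  add_mem' := by
    rintro a b ⟨A, hA⟩ ⟨B, hB⟩
    refine ⟨A + B, ?_⟩
    filter_upwards [hA, hB] with n h1 h2 i
    have h3 : ∑ j, (((a + b) j : ℚ) : ℝ) * M n j i =
        ∑ j, ((a j : ℚ) : ℝ) * M n j i + ∑ j, ((b j : ℚ) : ℝ) * M n j i := by
      rw [← Finset.sum_add_distrib]
      refine Finset.sum_congr rfl fun j _ => ?_
      rw [Pi.add_apply]
      push_cast
      ring
    rw [h3]
    exact (abs_add_le _ _).trans (add_le_add (h1 i) (h2 i))
  smul_mem' := by
    rintro c b ⟨A, hA⟩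
    refine ⟨|(c : ℝ)| * A, ?_⟩
    filter_upwards [hA] with n h1 i
    have h3 : ∑ j, (((c • b) j : ℚ) : ℝ) * M n j i = (c : ℝ) * ∑ j, ((b j : ℚ) : ℝ) * M n j i := by
      rw [Finset.mul_sum]
      refine Finset.sum_congr rfl fun j _ => ?_
      rw [Pi.smul_apply, smul_eq_mul]
      push_cast
      ring
    rw [h3, abs_mul]
    exact mul_le_mul_of_nonneg_left (h1 i) (abs_nonneg _)

omit [NeZero m] in
theorem k9a4_mem (U : Ultrafilter ℕ) (M : ℕ → Fin k → Fin m → ℝ) (b : Fin k → ℚ) :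
    b ∈ k9a4_B U M ↔ ∃ A : ℝ, ∀ᶠ n in (U : Filter ℕ), ∀ i, |∑ j, ((b j : ℚ) : ℝ) * M n j i| ≤ A := Iff.rfl

/-- A nonzero integral linear form which vanishes on a proper subspace and at none of finitely many vectors outside. -/
theorem k9a4_form (B : Submodule ℚ (Fin k → ℚ)) (hB : B ≠ ⊤) {ι : Type} [Finite ι] (v : ι → Fin k → ℚ)
    (hv : ∀ i, v i ∉ B) :
    ∃ e : Fin k → ℤ, e ≠ 0 ∧ (∀ b ∈ B, ∑ j, (e j : ℚ) * b j = 0) ∧ ∀ i, ∑ j, (e j : ℚ) * v i j ≠ 0 := by
  obtain ⟨v0, hv0⟩ : ∃ v0, v0 ∉ B := by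
    by_contra h
    push Not at h
    exact hB (eq_top_iff.2 fun x _ => h x)
  obtain ⟨f, hf⟩ := Module.exists_dual_forall_apply_ne_zero (K := ℚ) (ι := Option ι)
    (fun o => B.mkQ (o.elim v0 v)) (by
      intro o
      rw [Submodule.mkQ_apply, Ne, Submodule.Quotient.mk_eq_zero]
      cases o with
      | none => exact hv0
      | some i => exact hv i)
  set g : (Fin k → ℚ) →ₗ[ℚ] ℚ := f ∘ₗ B.mkQ with hg
  have hgB : ∀ b ∈ B, g b = 0 := by
    intro b hb
    rw [hg, LinearMap.comp_apply, Submodule.mkQ_apply, (Submodule.Quotient.mk_eq_zero B).2 hb, map_zero]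
  set c : Fin k → ℚ := fun j => g (Pi.single j 1) with hc
  have hgc : ∀ b, g b = ∑ j, c j * b j := by
    intro b
    conv_lhs => rw [← Finset.univ_sum_single b]
    rw [map_sum]
    refine Finset.sum_congr rfl fun j _ => ?_
    rw [hc]
    have : (Pi.single j (b j) : Fin k → ℚ) = b j • Pi.single j (1 : ℚ) := by
      rw [← Pi.single_smul, smul_eq_mul, mul_one]
    rw [this, map_smul, smul_eq_mul, mul_comm]
  set d : ℕ := ∏ j, (c j).den with hd
  have hd0 : (d : ℚ) ≠ 0 := by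
    rw [hd]
    exact_mod_cast Finset.prod_ne_zero_iff.2 fun j _ => (c j).den_nz
  have hz : ∀ j, ∃ z : ℤ, (z : ℚ) = d * c j := by
    intro j
    obtain ⟨q, hq⟩ : (c j).den ∣ d := Finset.dvd_prod_of_mem _ (Finset.mem_univ j)
    refine ⟨q * (c j).num, ?_⟩
    rw [hq]
    push_cast
    rw [← Rat.mul_den_eq_num (c j)]
    ring
  choose e he using hz
  have hsum : ∀ b : Fin k → ℚ, ∑ j, (e j : ℚ) * b j = d * g b := by
    intro b
    rw [hgc, Finset.mul_sum]
    exact Finset.sum_congr rfl fun j _ => by rw [he j]; ring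
  refine ⟨e, ?_, fun b hb => by rw [hsum, hgB b hb, mul_zero], fun i => ?_⟩
  · rintro rfl
    have h1 := hsum v0
    simp only [Pi.zero_apply, Int.cast_zero, zero_mul, Finset.sum_const_zero] at h1
    exact hf none ((mul_eq_zero.1 h1.symm).resolve_left hd0)
  · rw [hsum]
    exact mul_ne_zero hd0 (hf (some i))

/-- Row Z8-A4. The slopes `M` are bounded. PROOF. Let `B ⊆ ℝ^k` be the set of the vectors `b` for which the rows `∑_j b_j M n j` are bounded along `U`: a linear subspace; if `b ∉ B` then `∑_i |∑_j b_j M n j i| > A` for eventually all `n`, for every `A` (`U` is an ultrafilter). Let `DB` be the `ℚ`-span of the differences `α - β ∈ B`, `α, β ∈ S.Φ.support`.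
The other differences are not in `DB`. CASE 1: all differences are in `B`. By `S.full` the differences span `ℚ^k` (otherwise a nonzero rational linear form, scaled to be integral, is constant on the support), so `B = ℝ^k` and `M` is bounded. CASE 2: otherwise choose an integral linear form `e ≠ 0` which vanishes on `DB` and not on the (finitely many) other differences
(a vector space over `ℚ` is not a finite union of proper subspaces). The level sets `lev S.Φ e c` (nonempty ones: at least two, finitely many) are the classes of the support modulo `B`. Their sums `T_c = ∑_{α ∈ lev} φ_α(y) x^α` are not zero (`Z.lev0`), and `∑_c T_c = Φ(x, y) = 0`. So for every `σ` there are two levels `c ≠ c'` with `|log ‖T_c‖ - log ‖T_c'‖| ≤ log (number of levels)`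
(`Z7.a4_two`). Choose `α_c ∈ lev c`. `log ‖T_c‖ = ∑_j (α_c)_j lg x_j + δ_c(σ)` with `∑_σ |δ_c(σ)| ≤ C0 card` (`Z.big` with `A` = a common bound of the bounded rows, eventually). So `|dt (rwk (M n) α_c α_c') (lg y)| ≤ K` for one of the pairs, for at least half of the `σ`. These rows are unbounded along `U` and orthogonal to `u n`: contradiction with `Z7.lemI`
(divide by their lengths, as in `Z7.a4_core`; `J` = pairs of levels, `Z7.a4_core` may be copied). -/
theorem bddM (hm : 2 ≤ m) {S : Sk k m} (hH : HHp S.toCv) {U : Ultrafilter ℕ} (Z : Sq S U) : ∃ A, Z.Bdd A := by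
  classical
  by_cases htop : k9a4_B U Z.M = ⊤
  · have h1 : ∀ j : Fin k, ∃ A : ℝ, ∀ᶠ n in (U : Filter ℕ), ∀ i, |Z.M n j i| ≤ A := by
      intro j
      have h2 : (Pi.single j 1 : Fin k → ℚ) ∈ k9a4_B U Z.M := htop ▸ Submodule.mem_top
      obtain ⟨A, hA⟩ := h2
      refine ⟨A, hA.mono fun n hn i => ?_⟩
      have h3 : ∑ j', (((Pi.single j 1 : Fin k → ℚ) j' : ℚ) : ℝ) * Z.M n j' i = Z.M n j i := by
        rw [Finset.sum_eq_single j]
        · simp
        · intro b _ hb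
          rw [Pi.single_eq_of_ne hb]
          simp
        · intro h
          exact absurd (Finset.mem_univ j) h
      have h4 := hn i
      rwa [h3] at h4
    choose A hA using h1
    refine ⟨∑ j, |A j|, ?_⟩
    have h2 : ∀ᶠ n in (U : Filter ℕ), ∀ j, ∀ i, |Z.M n j i| ≤ A j := Filter.eventually_all.2 hA
    filter_upwards [h2] with n hn j i
    exact (hn j i).trans ((le_abs_self _).trans
      (Finset.single_le_sum (f := fun j => |A j|) (fun _ _ => abs_nonneg _) (Finset.mem_univ j)))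
  · exfalso
    obtain ⟨e, he0, heB, heF⟩ := k9a4_form (k9a4_B U Z.M) htop
      (ι := {p : {α // α ∈ S.Φ.support} × {α // α ∈ S.Φ.support} //
        (fun j => ((p.1.1 j : ℚ) - (p.2.1 j : ℚ))) ∉ k9a4_B U Z.M})
      (fun p j => (p.1.1.1 j : ℚ) - (p.1.2.1 j : ℚ)) (fun p => p.2)
    set dgr : (Fin k →₀ ℕ) → ℤ := fun α => ∑ j, e j * (α j : ℤ) with hdgr
    have hcast : ∀ α β : Fin k →₀ ℕ, ∑ j, (e j : ℚ) * ((α j : ℚ) - (β j : ℚ)) = ((dgr α - dgr β : ℤ) : ℚ) := by
      intro α β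
      rw [hdgr]
      push_cast
      rw [← Finset.sum_sub_distrib]
      exact Finset.sum_congr rfl fun j _ => by ring
    have hsame : ∀ α ∈ S.Φ.support, ∀ β ∈ S.Φ.support, dgr α = dgr β →
        (fun j => ((α j : ℚ) - (β j : ℚ))) ∈ k9a4_B U Z.M := by
      intro α hα β hβ h
      by_contra h2
      have h3 := heF ⟨(⟨α, hα⟩, ⟨β, hβ⟩), h2⟩
      refine h3 ?_
      show ∑ j, (e j : ℚ) * ((α j : ℚ) - (β j : ℚ)) = 0
      rw [hcast, h, sub_self, Int.cast_zero]
    have hdif : ∀ α β : Fin k →₀ ℕ, dgr α ≠ dgr β → (fun j => ((α j : ℚ) - (β j : ℚ))) ∉ k9a4_B U Z.M := by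
      intro α β h h2
      have h3 := heB _ h2
      rw [hcast] at h3
      exact h (sub_eq_zero.1 (by exact_mod_cast h3))
    set I : Finset ℤ := S.Φ.support.image dgr with hI
    have hlevI : ∀ c ∈ I, (lev S.Φ e c).Nonempty := by
      intro c hc
      obtain ⟨α, hα, rfl⟩ := Finset.mem_image.1 hc
      exact ⟨α, Finset.mem_filter.2 ⟨hα, rfl⟩⟩
    have hlevm : ∀ c, ∀ α ∈ lev S.Φ e c, α ∈ S.Φ.support ∧ dgr α = c := fun c α hα => Finset.mem_filter.1 hα
    have hIne : I.Nonempty := by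
      obtain ⟨α, hα, -⟩ := S.full e he0
      exact ⟨dgr α, Finset.mem_image_of_mem _ hα⟩
    choose rep hrep using hlevI
    -- a common bound for the rows inside the levels
    have hA1 : ∀ p : {α // α ∈ S.Φ.support} × {α // α ∈ S.Φ.support}, ∃ A : ℝ, dgr p.1.1 = dgr p.2.1 →
        ∀ᶠ n in (U : Filter ℕ), ∀ i, |rwk (Z.M n) p.1.1 p.2.1 i| ≤ A := by
      intro p
      by_cases h : dgr p.1.1 = dgr p.2.1
      · obtain ⟨A, hA⟩ := hsame _ p.1.2 _ p.2.2 h
        refine ⟨A, fun _ => hA.mono fun n hn i => ?_⟩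
        have h3 := hn i
        have h4 : ∑ j, (((p.1.1 j : ℚ) - (p.2.1 j : ℚ) : ℚ) : ℝ) * Z.M n j i = rwk (Z.M n) p.1.1 p.2.1 i := by
          unfold rwk
          refine Finset.sum_congr rfl fun j _ => ?_
          push_cast
          ring
        rwa [h4] at h3
      · exact ⟨0, fun h2 => absurd h2 h⟩
    choose A1 hA1 using hA1
    set A : ℝ := m * ∑ p, |A1 p| with hA
    have hbd : ∀ᶠ n in (U : Filter ℕ), ∀ c, ∀ α ∈ lev S.Φ e c, ∀ β ∈ lev S.Φ e c,
        ∑ i, |rwk (Z.M n) α β i| ≤ A := by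
      have h1 : ∀ᶠ n in (U : Filter ℕ), ∀ p : {α // α ∈ S.Φ.support} × {α // α ∈ S.Φ.support},
          dgr p.1.1 = dgr p.2.1 → ∀ i, |rwk (Z.M n) p.1.1 p.2.1 i| ≤ A1 p := by
        rw [Filter.eventually_all]
        intro p
        by_cases h : dgr p.1.1 = dgr p.2.1
        · exact (hA1 p h).mono fun n hn _ => hn
        · exact Filter.Eventually.of_forall fun n h2 => absurd h2 h
      filter_upwards [h1] with n hn c α hα β hβ
      have hα' := hlevm c α hα
      have hβ' := hlevm c β hβ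
      have h2 := hn (⟨α, hα'.1⟩, ⟨β, hβ'.1⟩) (hα'.2.trans hβ'.2.symm)
      have h3 : ∀ i, |rwk (Z.M n) α β i| ≤ ∑ p, |A1 p| := fun i =>
        (h2 i).trans ((le_abs_self _).trans
          (Finset.single_le_sum (f := fun p => |A1 p|) (fun _ _ => abs_nonneg _) (Finset.mem_univ _)))
      refine (Finset.sum_le_card_nsmul _ _ _ fun i _ => h3 i).trans ?_
      rw [Finset.card_univ, Fintype.card_fin, nsmul_eq_mul]
    choose C0 hC0 using fun c : ℤ => Z.big e c A he0
    -- the level sums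
    set T : ∀ n, Z.ι n → ℤ → ℂ := fun n σ c => ∑ β ∈ lev S.Φ e c,
      MvPolynomial.eval (Z.y n σ) (S.Φ.coeff β) * ∏ j, Z.x n σ j ^ β j with hT
    have hT0 : ∀ n σ, ∀ c ∈ I, T n σ c ≠ 0 := fun n σ c hc => Z.lev0 n σ e c he0 ⟨_, hrep c hc⟩
    have hTs : ∀ n σ, ∑ c ∈ I, T n σ c = 0 := by
      intro n σ
      have h1 := Z.hΦ n σ
      rw [k9a4_evk] at h1
      rw [← h1, hT]
      exact Finset.sum_fiberwise_of_maps_to (fun α hα => Finset.mem_image_of_mem _ hα) _
    set B1 : ℝ := ∑ c ∈ I, |C0 c| + 1 with hB1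
    have hB10 : 0 < B1 := by
      have : 0 ≤ ∑ c ∈ I, |C0 c| := Finset.sum_nonneg fun _ _ => abs_nonneg _
      linarith
    set N : ℝ := (I.card : ℝ) with hN
    have hlN : 0 ≤ Real.log N := Real.log_natCast_nonneg _
    -- the error function
    set G : ∀ n, Z.ι n → ℝ := fun n σ => ∑ c ∈ I.attach, |Real.log ‖T n σ c.1‖ -
      ∑ j, ((rep c.1 c.2) j : ℝ) * lg (Z.x n σ) j| with hG
    have hGb : ∀ᶠ n in (U : Filter ℕ), ∑ σ, |G n σ| ≤ B1 * Fintype.card (Z.ι n) := by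
      filter_upwards [hbd] with n hn
      have hcard : (0 : ℝ) ≤ Fintype.card (Z.ι n) := Nat.cast_nonneg _
      have h1 : ∀ σ, |G n σ| = G n σ := fun σ => abs_of_nonneg (Finset.sum_nonneg fun _ _ => abs_nonneg _)
      rw [Finset.sum_congr rfl fun σ _ => h1 σ, hG]
      rw [Finset.sum_comm]
      have h2 : ∀ c ∈ I.attach, ∑ σ, |Real.log ‖T n σ c.1‖ - ∑ j, ((rep c.1 c.2) j : ℝ) * lg (Z.x n σ) j| ≤
          |C0 c.1| * Fintype.card (Z.ι n) := fun c _ =>
        (hC0 c.1 n (hn c.1) (rep c.1 c.2) (hrep c.1 c.2)).trans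
          (mul_le_mul_of_nonneg_right (le_abs_self _) hcard)
      refine (Finset.sum_le_sum h2).trans ?_
      rw [← Finset.sum_mul, Finset.sum_attach I (fun c => |C0 c|), hB1]
      exact mul_le_mul_of_nonneg_right (by linarith) hcard
    refine k9a4_core hm hH Z (J := {p : {c // c ∈ I} × {c // c ∈ I} // p.1 ≠ p.2})
      (fun n p => rwk (Z.M n) (rep p.1.1.1 p.1.1.2) (rep p.1.2.1 p.1.2.2)) ?_ (K := Real.log N + 4 * B1)
      (by positivity) ?_ ?_
    · intro n p
      rw [k9a4_rwk]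
      exact Finset.sum_eq_zero fun j _ => by rw [Z.hM n j, mul_zero]
    · intro p A'
      have h1 : dgr (rep p.1.1.1 p.1.1.2) ≠ dgr (rep p.1.2.1 p.1.2.2) := by
        rw [(hlevm _ _ (hrep p.1.1.1 p.1.1.2)).2, (hlevm _ _ (hrep p.1.2.1 p.1.2.2)).2]
        exact fun h => p.2 (Subtype.ext h)
      have h2 := hdif _ _ h1
      rw [k9a4_mem] at h2
      have h3 : ∀ᶠ n in (U : Filter ℕ), ¬ ∀ i, |∑ j, ((((rep p.1.1.1 p.1.1.2) j : ℚ) -
          ((rep p.1.2.1 p.1.2.2) j : ℚ) : ℚ) : ℝ) * Z.M n j i| ≤ A' :=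
        Ultrafilter.eventually_not.2 fun h => h2 ⟨A', h⟩
      refine h3.mono fun n hn => ?_
      by_contra h4
      refine hn fun i => ?_
      have h5 : ∑ j, ((((rep p.1.1.1 p.1.1.2) j : ℚ) - ((rep p.1.2.1 p.1.2.2) j : ℚ) : ℚ) : ℝ) * Z.M n j i =
          rwk (Z.M n) (rep p.1.1.1 p.1.1.2) (rep p.1.2.1 p.1.2.2) i := by
        unfold rwk
        refine Finset.sum_congr rfl fun j _ => ?_
        push_cast
        ring
      rw [h5]
      exact (Pool.Agent.Z6.a4_sq _ i).trans (not_lt.1 h4)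
    · filter_upwards [hGb] with n hn
      have m1 := Z5.fr_markov (fun σ : Z.ι n => G n σ) B1 (4 * B1) (by positivity) hn
      have m2 : B1 / (4 * B1) = 1 / 4 := by
        field_simp
      rw [m2] at m1
      have m3 : fr (fun _ : Z.ι n => True) ≤
          fr (fun σ : Z.ι n => ∃ p : {p : {c // c ∈ I} × {c // c ∈ I} // p.1 ≠ p.2},
            |dt (rwk (Z.M n) (rep p.1.1.1 p.1.1.2) (rep p.1.2.1 p.1.2.2)) (lg (Z.y n σ))| ≤
              Real.log N + 4 * B1) +
          fr (fun σ : Z.ι n => 4 * B1 < |G n σ|) := by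
        refine le_trans (Z5.fr_mono fun σ _ => ?_) (Z5.fr_or _ _)
        rcases lt_or_ge (4 * B1) |G n σ| with hg | hg
        · exact Or.inr hg
        left
        rw [abs_of_nonneg (Finset.sum_nonneg fun _ _ => abs_nonneg _)] at hg
        obtain ⟨c, hc, c', hc', hne, h1⟩ := Pool.Agent.Z7.a4_two I (T n σ) (hT0 n σ) hIne (hTs n σ)
        refine ⟨⟨(⟨c, hc⟩, ⟨c', hc'⟩), fun h => hne (congrArg Subtype.val h)⟩, ?_⟩
        show |dt (rwk (Z.M n) (rep c hc) (rep c' hc')) (lg (Z.y n σ))| ≤ _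
        have h2 : dt (rwk (Z.M n) (rep c hc) (rep c' hc')) (lg (Z.y n σ)) =
            ∑ j, ((rep c hc) j : ℝ) * lg (Z.x n σ) j - ∑ j, ((rep c' hc') j : ℝ) * lg (Z.x n σ) j := by
          rw [k9a4_rwk, ← Finset.sum_sub_distrib]
          exact Finset.sum_congr rfl fun j _ => by rw [Z.r1 n σ j]; ring
        rw [h2]
        have h3 : |Real.log ‖T n σ c‖ - ∑ j, ((rep c hc) j : ℝ) * lg (Z.x n σ) j| +
            |Real.log ‖T n σ c'‖ - ∑ j, ((rep c' hc') j : ℝ) * lg (Z.x n σ) j| ≤ G n σ := by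
          have hne2 : (⟨c, hc⟩ : {c // c ∈ I}) ≠ ⟨c', hc'⟩ := fun h => hne (congrArg Subtype.val h)
          have h4 := Finset.sum_pair (f := fun c : {c // c ∈ I} => |Real.log ‖T n σ c.1‖ -
            ∑ j, ((rep c.1 c.2) j : ℝ) * lg (Z.x n σ) j|) hne2
          have h5 : ∑ c ∈ ({⟨c, hc⟩, ⟨c', hc'⟩} : Finset {c // c ∈ I}), |Real.log ‖T n σ c.1‖ -
              ∑ j, ((rep c.1 c.2) j : ℝ) * lg (Z.x n σ) j| ≤ G n σ := by
            rw [hG]
            exact Finset.sum_le_sum_of_subset_of_nonneg (fun c _ => Finset.mem_attach _ _)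
              fun _ _ _ => abs_nonneg _
          rw [h4] at h5
          exact h5
        have e1 := abs_le.1 h1
        have e2 := neg_abs_le (Real.log ‖T n σ c‖ - ∑ j, ((rep c hc) j : ℝ) * lg (Z.x n σ) j)
        have e3 := le_abs_self (Real.log ‖T n σ c‖ - ∑ j, ((rep c hc) j : ℝ) * lg (Z.x n σ) j)
        have e4 := neg_abs_le (Real.log ‖T n σ c'‖ - ∑ j, ((rep c' hc') j : ℝ) * lg (Z.x n σ) j)
        have e5 := le_abs_self (Real.log ‖T n σ c'‖ - ∑ j, ((rep c' hc') j : ℝ) * lg (Z.x n σ) j)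
        refine abs_le.2 ⟨?_, ?_⟩ <;> linarith [e1.1, e1.2]
      rw [Z5.fr_true] at m3
      linarith

end Pool.Agent.Z9
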