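import Pool.Agent.Z9.H0
import Pool.Agent.Z6.W1
import Pool.Agent.Z8.B4

namespace Pool.Agent.Z9

open Pool.Agent.ZL2 Filter Topology
open Pool.Agent.Z5 (fr Gen ev2 Alg d1_H d1_mk d1_ev d1_ev_mk d1_ext)
open Pool.Agent.Z6 (dt w6_L)
open Pool.Agent.Z7 (lg Cv HHp Chart)
open Pool.Agent.Z8 (sp evk rwk lev)

variable {k m : ℕ} [NeZero m] {S : Sk k m} {U : Ultrafilter ℕ}

/-- Row Z9-L0a. PROOF. Choose `σ n` with the smallest distance of the point to `p` (`Z.ι n` is finite and nonempty: `Finite.exists_min`); for every ball around `p` eventually some point, so the nearest one, is in it. -/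
theorem lim_seq (Z : Sq S U) {p : (Fin k → ℂ) × (Fin m → ℂ)} (hp : p ∈ Z.Lim) :
    ∃ σ : ∀ n, Z.ι n, Tendsto (fun n => (Z.x n (σ n), Z.y n (σ n))) (U : Filter ℕ) (𝓝 p) := by
  have h1 : ∀ n, ∃ σ : Z.ι n, ∀ τ, dist (Z.x n σ, Z.y n σ) p ≤ dist (Z.x n τ, Z.y n τ) p := fun n =>
    Finite.exists_min fun σ => dist (Z.x n σ, Z.y n σ) p
  choose σ hσ using h1
  refine ⟨σ, Metric.tendsto_nhds.2 fun ε hε => ?_⟩
  filter_upwards [hp (Metric.ball p ε) (Metric.ball_mem_nhds p hε)] with n hn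
  obtain ⟨τ, hτ⟩ := hn
  exact (hσ n τ).trans_lt hτ

theorem lim_of_seq (Z : Sq S U) {p : (Fin k → ℂ) × (Fin m → ℂ)} {σ : ∀ n, Z.ι n}
    (h : Tendsto (fun n => (Z.x n (σ n), Z.y n (σ n))) (U : Filter ℕ) (𝓝 p)) : p ∈ Z.Lim := fun O hO =>
  (h.eventually hO).mono fun n hn => ⟨σ n, hn⟩

/-- Row Z9-L0b. PROOF. With the sequence of `lim_seq`: the limits of the relations `r0`, `r1`, `hΦ`, as in `k8b4_ev` (Z8/B4.lean). The coordinates of `p.2` are not zero (`S.ne`), so `lg (y n)` converges; `|lg x_j| ≤ m A1 A2` (`r1`, `hA`), so `p.1 j ≠ 0`. -/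
theorem lim_rel (Z : Sq S U) {A1 : ℝ} (hA : Z.Bdd A1) {u' : Fin m → ℝ} {M' : Fin k → Fin m → ℝ}
    (hu' : Tendsto Z.u (U : Filter ℕ) (𝓝 u')) (hM' : Tendsto Z.M (U : Filter ℕ) (𝓝 M'))
    {p : (Fin k → ℂ) × (Fin m → ℂ)} (hp : p ∈ Z.Lim) (hC : p.2 ∈ S.C) :
    (∀ j, p.1 j ≠ 0) ∧ dt u' (lg p.2) = 0 ∧ (∀ j, lg p.1 j = dt (M' j) (lg p.2)) ∧ evk S.Φ p.1 p.2 = 0 := by
  obtain ⟨σ, hσ⟩ := lim_seq Z hp
  have hx : Tendsto (fun n => Z.x n (σ n)) (U : Filter ℕ) (𝓝 p.1) := (continuous_fst.tendsto p).comp hσ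
  have hy : Tendsto (fun n => Z.y n (σ n)) (U : Filter ℕ) (𝓝 p.2) := (continuous_snd.tendsto p).comp hσ
  have hLy : Tendsto (fun n => lg (Z.y n (σ n))) (U : Filter ℕ) (𝓝 (lg p.2)) := by
    refine Tendsto.comp (g := lg) (y := 𝓝 p.2) ?_ hy
    exact (continuousAt_pi.2 fun i => Z7.continuousAt_lg (S.ne _ hC i)).tendsto
  have hd : ∀ {v : ℕ → Fin m → ℝ} {v' : Fin m → ℝ}, Tendsto v (U : Filter ℕ) (𝓝 v') →
      Tendsto (fun n => dt (v n) (lg (Z.y n (σ n)))) (U : Filter ℕ) (𝓝 (dt v' (lg p.2))) := by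
    intro v v' hv
    exact (Z7.b4_dtc.tendsto (v', lg p.2)).comp (hv.prodMk_nhds hLy)
  have q0 : dt u' (lg p.2) = 0 := by
    have h1 := hd hu'
    simp only [Z.r0] at h1
    exact tendsto_nhds_unique h1 tendsto_const_nhds |>.symm ▸ rfl
  have hlx : ∀ j, Tendsto (fun n => lg (Z.x n (σ n)) j) (U : Filter ℕ) (𝓝 (dt (M' j) (lg p.2))) := by
    intro j
    have h1 := hd (tendsto_pi_nhds.1 hM' j)
    simp only [← Z.r1] at h1
    exact h1
  have hx0 : ∀ j, p.1 j ≠ 0 := by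
    intro j h0
    have h1 : Tendsto (fun n => ‖Z.x n (σ n) j‖) (U : Filter ℕ) (𝓝 (Real.exp (dt (M' j) (lg p.2)))) := by
      have h2 := (Real.continuous_exp.tendsto _).comp (hlx j)
      refine h2.congr fun n => ?_
      exact Real.exp_log (norm_pos_iff.2 (Z.hx n (σ n) j))
    have h2 : Tendsto (fun n => ‖Z.x n (σ n) j‖) (U : Filter ℕ) (𝓝 ‖p.1 j‖) := (tendsto_pi_nhds.1 hx j).norm
    have h3 := tendsto_nhds_unique h1 h2
    rw [h0, norm_zero] at h3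
    exact (Real.exp_pos _).ne' h3
  refine ⟨hx0, q0, fun j => ?_, ?_⟩
  · exact tendsto_nhds_unique ((Z7.continuousAt_lg (hx0 j)).tendsto.comp hx) (hlx j)
  · exact Pool.Agent.Z8.k8b4_evk_tend S.Φ hx hy fun n => Z.hΦ n (σ n)

/-- Row Z9-L0c. As `Z6.w6_blow` (Z6/W1.lean), with `Fin k` in place of `Fin 2`. -/
theorem exists_Blow (Z : Sq S U) {u' : Fin m → ℝ} {M' : Fin k → Fin m → ℝ}
    (hu' : Tendsto Z.u (U : Filter ℕ) (𝓝 u')) (hM' : Tendsto Z.M (U : Filter ℕ) (𝓝 M'))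
    (hnc : ∀ᶠ n in (U : Filter ℕ), ¬ (Z.u n = u' ∧ Z.M n = M')) :
    ∃ (ε : ℕ → ℝ) (u1 : Fin m → ℝ) (M1 : Fin k → Fin m → ℝ), Blow Z u' u1 M' M1 ε := by
  let v : ℕ → (Fin m → ℝ) × (Fin k → Fin m → ℝ) := fun n => (Z.u n - u', Z.M n - M')
  have hv0 : Tendsto v (U : Filter ℕ) (𝓝 0) := by
    have h1 : Tendsto (fun n => Z.u n - u') (U : Filter ℕ) (𝓝 0) := by
      simpa using hu'.sub_const u'
    have h2 : Tendsto (fun n => Z.M n - M') (U : Filter ℕ) (𝓝 0) := by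
      simpa using hM'.sub_const M'
    exact h1.prodMk_nhds h2
  have hpos : ∀ᶠ n in (U : Filter ℕ), 0 < ‖v n‖ := by
    filter_upwards [hnc] with n hn
    rw [norm_pos_iff]
    intro h
    apply hn
    have h1 := congrArg Prod.fst h
    have h2 := congrArg Prod.snd h
    exact ⟨sub_eq_zero.1 h1, sub_eq_zero.1 h2⟩
  have hK := isCompact_sphere (0 : (Fin m → ℝ) × (Fin k → Fin m → ℝ)) 1
  obtain ⟨w, hw, hwl⟩ := hK.ultrafilter_le_nhds (U.map fun n => (‖v n‖)⁻¹ • v n) (by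
    rw [Ultrafilter.coe_map, le_principal_iff, mem_map]
    filter_upwards [hpos] with n hn
    rw [Set.mem_preimage, mem_sphere_zero_iff_norm, norm_smul, norm_inv, norm_norm, inv_mul_cancel₀ hn.ne'])
  rw [Ultrafilter.coe_map] at hwl
  have hwt : Tendsto (fun n => (‖v n‖)⁻¹ • v n) (U : Filter ℕ) (𝓝 w) := hwl
  refine ⟨fun n => ‖v n‖, w.1, w.2, hu', hM', hpos, ?_, ?_, ?_, ?_⟩
  · simpa using hv0.norm
  · exact (continuous_fst.tendsto w).comp hwt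
  · exact (continuous_snd.tendsto w).comp hwt
  · rintro ⟨h1, h2⟩
    rw [mem_sphere_zero_iff_norm] at hw
    have h3 : w = 0 := Prod.ext h1 h2
    rw [h3, norm_zero] at hw
    exact zero_ne_one hw

/-- Row Z9-L0d. As `Z6.w6_limits` (Z6/W1.lean). -/
theorem Blow.rel {Z : Sq S U} {u' u1 : Fin m → ℝ} {M' M1 : Fin k → Fin m → ℝ} {ε : ℕ → ℝ}
    (h : Blow Z u' u1 M' M1 ε) : dt u' u' = 1 ∧ dt u1 u' = 0 ∧ ∀ j, dt (M1 j) u' + dt (M' j) u1 = 0 := by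
  have hc : Tendsto (fun _ : ℕ => u') (U : Filter ℕ) (𝓝 u') := tendsto_const_nhds
  have q1 : dt u' u' = 1 := by
    have h := Pool.Agent.Z6.w6_dtl h.hu h.hu
    simp only [Z.hu] at h
    exact tendsto_nhds_unique h tendsto_const_nhds
  have q2 : ∀ j, dt (M' j) u' = 0 := by
    intro j
    have h := Pool.Agent.Z6.w6_dtl (tendsto_pi_nhds.1 h.hM j) h.hu
    simp only [Z.hM] at h
    exact tendsto_nhds_unique h tendsto_const_nhds
  have hε := h.zero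
  have h1 := h.h1
  have h2 := h.h2
  refine ⟨q1, ?_, fun j => ?_⟩
  · have h := ((Pool.Agent.Z6.w6_dtl h1 hc).const_mul 2).add (hε.mul (Pool.Agent.Z6.w6_dtl h1 h1))
    have h3 : Tendsto (fun n => 2 * dt ((ε n)⁻¹ • (Z.u n - u')) u' +
        ε n * dt ((ε n)⁻¹ • (Z.u n - u')) ((ε n)⁻¹ • (Z.u n - u'))) (U : Filter ℕ) (𝓝 0) := by
      refine tendsto_const_nhds.congr' ?_
      filter_upwards [‹Blow Z u' u1 M' M1 ε›.pos] with n hn
      have e1 := Z.hu n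
      simp only [Pool.Agent.Z6.w6_dt_smul, Pool.Agent.Z6.w6_dt_smul_r, Pool.Agent.Z6.w6_dt_sub,
        Pool.Agent.Z6.w6_dt_sub_r, Pool.Agent.Z6.w6_dt_comm u' (Z.u n)]
      field_simp
      linear_combination q1 - e1
    have h4 := tendsto_nhds_unique h h3
    linarith
  · have hMj : Tendsto (fun n => (ε n)⁻¹ • (Z.M n j - M' j)) (U : Filter ℕ) (𝓝 (M1 j)) := tendsto_pi_nhds.1 h2 j
    have hcj : Tendsto (fun _ : ℕ => M' j) (U : Filter ℕ) (𝓝 (M' j)) := tendsto_const_nhds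
    have h := ((Pool.Agent.Z6.w6_dtl hMj hc).add (Pool.Agent.Z6.w6_dtl hcj h1)).add
      (hε.mul (Pool.Agent.Z6.w6_dtl hMj h1))
    have h3 : Tendsto (fun n => dt ((ε n)⁻¹ • (Z.M n j - M' j)) u' + dt (M' j) ((ε n)⁻¹ • (Z.u n - u')) +
        ε n * dt ((ε n)⁻¹ • (Z.M n j - M' j)) ((ε n)⁻¹ • (Z.u n - u'))) (U : Filter ℕ) (𝓝 0) := by
      refine tendsto_const_nhds.congr' ?_
      filter_upwards [‹Blow Z u' u1 M' M1 ε›.pos] with n hn
      have e1 := Z.hM n j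
      have e2 := q2 j
      simp only [Pool.Agent.Z6.w6_dt_smul, Pool.Agent.Z6.w6_dt_smul_r, Pool.Agent.Z6.w6_dt_sub,
        Pool.Agent.Z6.w6_dt_sub_r]
      field_simp
      linear_combination e2 - e1
    have h4 := tendsto_nhds_unique h h3
    linarith

end Pool.Agent.Z9
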