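import Pool.Agent.Z9.H0
import Pool.Agent.Z9.L0
import Pool.Agent.Z8.B4

namespace Pool.Agent.Z9

open Pool.Agent.ZL2 Filter Topology
open Pool.Agent.Z5 (fr Gen ev2 Alg d1_H d1_mk d1_ev d1_ev_mk d1_ext)
open Pool.Agent.Z6 (dt w6_L)
open Pool.Agent.Z7 (lg Cv HHp Chart)
open Pool.Agent.Z8 (sp evk rwk lev)

variable {k m : ℕ} [NeZero m]

theorem k9b4_ev {S : Sk k m} {U : Ultrafilter ℕ} (Z : Sq S U) {A1 : ℝ} (hA : Z.Bdd A1) {A2 : ℝ}
    (hKA : IsCompact (S.toCv.KA A2))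
    {W : Set ((Fin k → ℂ) × (Fin m → ℂ))} (hWo : IsOpen W)
    (hWK : ∀ p ∈ Z.Lim, p.2 ∈ S.toCv.KA A2 → p ∈ W) :
    ∀ᶠ n in (U : Filter ℕ), ∀ σ, Z.y n σ ∈ S.toCv.KA A2 → (Z.x n σ, Z.y n σ) ∈ W := by
  classical
  by_contra hcon
  rw [Ultrafilter.eventually_not.symm] at hcon
  have hch : ∀ n, ∃ σ : Z.ι n, (¬ ∀ σ, Z.y n σ ∈ S.toCv.KA A2 → (Z.x n σ, Z.y n σ) ∈ W) →
      Z.y n σ ∈ S.toCv.KA A2 ∧ (Z.x n σ, Z.y n σ) ∉ W := by
    intro n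
    by_cases h : ∀ σ, Z.y n σ ∈ S.toCv.KA A2 → (Z.x n σ, Z.y n σ) ∈ W
    · exact ⟨Classical.arbitrary _, fun h' => absurd h h'⟩
    · push Not at h
      obtain ⟨σ, h1⟩ := h
      exact ⟨σ, fun _ => h1⟩
  choose σ hσ using hch
  have hg : ∀ᶠ n in (U : Filter ℕ), Z.y n (σ n) ∈ S.toCv.KA A2 ∧ (Z.x n (σ n), Z.y n (σ n)) ∉ W := by
    filter_upwards [hcon] with n hn
    exact hσ n hn
  obtain ⟨y', hy'm, hy'⟩ := Z5.b4_lim U (fun n => Z.y n (σ n)) (S.toCv.KA A2) hKA (hg.mono fun n hn => hn.1)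
  set R : ℝ := m * (|A1| * A2) with hR
  have hcpt : IsCompact {x : Fin k → ℂ | ∀ i, Real.exp (-R) ≤ ‖x i‖ ∧ ‖x i‖ ≤ Real.exp R} := by
    have h1 : {x : Fin k → ℂ | ∀ i, Real.exp (-R) ≤ ‖x i‖ ∧ ‖x i‖ ≤ Real.exp R} =
        Set.pi Set.univ (fun _ => {z : ℂ | Real.exp (-R) ≤ ‖z‖ ∧ ‖z‖ ≤ Real.exp R}) := by
      ext x
      simp [Set.mem_pi]
    rw [h1]
    refine isCompact_univ_pi fun _ => ?_
    refine (isCompact_closedBall (0 : ℂ) (Real.exp R)).of_isClosed_subset ?_ ?_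
    · exact (isClosed_le continuous_const continuous_norm).inter (isClosed_le continuous_norm continuous_const)
    · intro z hz
      rw [mem_closedBall_zero_iff]
      exact hz.2
  obtain ⟨x', hx'm, hx'⟩ := Z5.b4_lim U (fun n => Z.x n (σ n)) _ hcpt (by
    filter_upwards [hg, hA] with n hn hAn i
    have hxp : 0 < ‖Z.x n (σ n) i‖ := norm_pos_iff.2 (Z.hx n (σ n) i)
    have h1 : |lg (Z.x n (σ n)) i| ≤ R := by
      rw [Z.r1 n (σ n) i]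
      exact Z7.b4_dt_abs (fun l => (hAn i l).trans (le_abs_self _)) (fun l => hn.1.2 l) (abs_nonneg _)
    obtain ⟨h2, h3⟩ := abs_le.1 h1
    have h4 : Real.exp (lg (Z.x n (σ n)) i) = ‖Z.x n (σ n) i‖ := Real.exp_log hxp
    rw [← h4]
    exact ⟨Real.exp_le_exp.2 h2, Real.exp_le_exp.2 h3⟩)
  have hin := hWK (x', y') (lim_of_seq Z (hx'.prodMk_nhds hy')) hy'm
  have h3 : ∀ᶠ n in (U : Filter ℕ), (Z.x n (σ n), Z.y n (σ n)) ∈ W :=
    (hx'.prodMk_nhds hy').eventually (hWo.mem_nhds hin)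
  obtain ⟨n, h4, h5⟩ := (hg.and h3).exists
  exact h4.2 h5

/-- Row Z9-B4. PROOF. The proof of `Z8.core1` (Z8/B4.lean) with the following changes: `Good S Z.Lim` in place of `Good S u' M'`; `Bad = {y ∈ L | ¬ Good S Z.Lim y}`; `hloc` in place of `local_small` (`Z7.lev1` gives the chart and the crossing condition `dF u' η (z 0) ≠ 0`); the open set `W` contains the points of `Z.Lim` over `KA A2` (which satisfy `dt u' (lg y) = 0` by `lim_rel`, so lie over `L ∪ OE`);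
and in place of `k8b4_ev`: eventually all points over `KA A2` are in `W`, because otherwise a limit of a sequence of points outside `W` (compactness as in `k8b4_ev`) is a point of `Z.Lim` (`lim_of_seq`) over `KA A2` outside `W`. -/
theorem core1 {S : Sk k m} {U : Ultrafilter ℕ} (Z : Sq S U) {A1 : ℝ} (hA : Z.Bdd A1) {u' : Fin m → ℝ}
    {M' : Fin k → Fin m → ℝ} (hu' : Tendsto Z.u (U : Filter ℕ) (𝓝 u')) (hM' : Tendsto Z.M (U : Filter ℕ) (𝓝 M'))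
    {κ' : ℝ} (hG : Gen (k := k) (U : Filter ℕ) κ' (fun n σ => Function.update (Z.x n σ) S.j0 (Z.y n σ 0)))
    (hloc : ∀ y1 ∈ S.C, y1 ∉ S.E → dt u' (lg y1) = 0 → ∀ (ρ : ℝ) (η ℓ : Fin m → ℂ → ℂ), Chart S.toCv y1 ρ η ℓ →
      dF u' η (y1 0) ≠ 0 → (∀ O ∈ 𝓝 y1, ∃ y ∈ O, y ∈ S.C ∧ y 0 ≠ y1 0 ∧ dt u' (lg y) = 0) →
      ∃ O ∈ 𝓝 y1, ∀ y2 ∈ O, y2 ∈ S.C → y2 ≠ y1 → Good S Z.Lim y2) : False := by
  classical
  have hdu : dt u' u' = 1 := by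
    have h1 : Tendsto (fun n => dt (Z.u n) (Z.u n)) (U : Filter ℕ) (𝓝 (dt u' u')) :=
      (Z7.b4_dtc.tendsto (u', u')).comp (hu'.prodMk_nhds hu')
    have h2 : Tendsto (fun n => dt (Z.u n) (Z.u n)) (U : Filter ℕ) (𝓝 1) := by
      simp only [Z.hu]
      exact tendsto_const_nhds
    exact tendsto_nhds_unique h1 h2
  have hu'0 : u' ≠ 0 := by
    rintro rfl
    simp [Z6.dt] at hdu
  -- the compact set
  have hm : 0 < m := Nat.pos_of_ne_zero (NeZero.ne m)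
  have hm0 : (0 : ℝ) < m := by exact_mod_cast hm
  obtain ⟨A2, hA2, hA2B⟩ : ∃ A2 : ℝ, 0 < A2 ∧ m * (Z.B / A2) ≤ 1 / 8 := by
    refine ⟨8 * m * (|Z.B| + 1), by positivity, ?_⟩
    have h1 : (0 : ℝ) < 8 * m * (|Z.B| + 1) := by positivity
    rw [← mul_div_assoc, div_le_iff₀ h1]
    have h2 := le_abs_self Z.B
    have h3 := abs_nonneg Z.B
    nlinarith [mul_le_mul_of_nonneg_left h2 hm0.le]
  have hKA : IsCompact (S.toCv.KA A2) := S.cpt A2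
  have hlgc : ∀ y ∈ S.C, ContinuousAt (fun y : Fin m → ℂ => lg y) y := by
    intro y hy
    rw [continuousAt_pi]
    exact fun i => Z7.continuousAt_lg (S.ne y hy i)
  have hdtc : ∀ (v : Fin m → ℝ), ∀ y ∈ S.C, ContinuousAt (fun y : Fin m → ℂ => dt v (lg y)) y := by
    intro v y hy
    exact ContinuousAt.comp (g := fun p : (Fin m → ℝ) × (Fin m → ℝ) => dt p.1 p.2)
      (f := fun y => (v, lg y)) Z7.b4_dtc.continuousAt (continuousAt_const.prodMk (hlgc y hy))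
  have hKc : IsCompact {y | y ∈ S.toCv.KA A2 ∧ dt u' (lg y) = 0} := by
    have h1 : IsClosed {y | y ∈ S.toCv.KA A2 ∧ dt u' (lg y) = 0} := by
      have h2 : ContinuousOn (fun y => dt u' (lg y)) (S.toCv.KA A2) := by
        intro y hy
        exact (hdtc u' y hy.1).continuousWithinAt
      exact h2.preimage_isClosed_of_isClosed hKA.isClosed isClosed_singleton
    exact hKA.of_isClosed_subset h1 fun t ht => ht.1
  -- the balls around `E`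
  set EF : Finset (Fin m → ℂ) := S.hE.toFinset with hEF
  have hEm : ∀ y, y ∈ EF ↔ y ∈ S.E := fun y => by rw [hEF, Set.Finite.mem_toFinset]
  have hθ : (0 : ℝ) < 1 / (8 * (EF.card + 1)) := by positivity
  have hcb := fun w : Fin m → ℂ => Z7.noatom Z.gen w hθ
  choose δ hδ hδ2 using hcb
  let OE : Set (Fin m → ℂ) := ⋃ w ∈ EF, {y | ‖y - w‖ < δ w}
  have hOEo : IsOpen OE := by
    refine isOpen_biUnion fun w _ => ?_
    exact isOpen_lt (continuous_id.sub continuous_const).norm continuous_const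
  have hOEm : ∀ y, y ∈ OE ↔ ∃ w ∈ EF, ‖y - w‖ < δ w := by
    intro y
    show y ∈ ⋃ w ∈ EF, {y | ‖y - w‖ < δ w} ↔ _
    simp only [Set.mem_iUnion, exists_prop]
    rfl
  have hEOE : ∀ y ∈ S.E, y ∈ OE := by
    intro y hy
    rw [hOEm]
    refine ⟨y, (hEm y).2 hy, ?_⟩
    rw [sub_self, norm_zero]
    exact hδ y
  -- `L` and `Bad`
  set L : Set (Fin m → ℂ) := {y | y ∈ S.toCv.KA A2 ∧ dt u' (lg y) = 0} \ OE with hL
  have hLc : IsCompact L := hKc.diff hOEo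
  have hLE : ∀ y ∈ L, y ∉ S.E := fun y hy h => hy.2 (hEOE y h)
  have hLC : ∀ y ∈ L, y ∈ S.C := fun y hy => hy.1.1.1
  have hLd : ∀ y ∈ L, dt u' (lg y) = 0 := fun y hy => hy.1.2
  set Bad : Set (Fin m → ℂ) := {y | y ∈ L ∧ ¬ Good S Z.Lim y} with hBad
  have hcov : ∀ y0 ∈ L, ∃ O ∈ 𝓝 y0, ∀ z ∈ O, z ∈ L → z ≠ y0 → ∃ O' ∈ 𝓝 z, O' ∩ Bad ⊆ {z} := by
    intro y0 hy0
    by_cases hacc : ∀ O ∈ 𝓝 y0, ∃ y ∈ O, y ∈ S.C ∧ y 0 ≠ y0 0
    · obtain ⟨O, hO, hOl⟩ := Z7.lev1 S.toCv (hLC y0 hy0) (hLE y0 hy0) hacc hu'0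
      refine ⟨O, hO, fun z hz hzL hzy => ?_⟩
      obtain ⟨hzE, ρ, η, ℓ, hch, hcr⟩ := hOl z hz (hLC z hzL) hzy
      by_cases hacc2 : ∀ O ∈ 𝓝 z, ∃ y ∈ O, y ∈ S.C ∧ y 0 ≠ z 0 ∧ dt u' (lg y) = 0
      · obtain ⟨O', hO', hg⟩ := hloc z (hLC z hzL) hzE (hLd z hzL) ρ η ℓ hch hcr hacc2
        refine ⟨O', hO', fun y hy => ?_⟩
        by_contra hne
        exact hy.2.2 (hg y hy.1 (hLC y hy.2.1) hne)
      · push Not at hacc2
        obtain ⟨O1, hO1, h1⟩ := hacc2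
        obtain ⟨O', hO', h2⟩ := Z7.b4_fib (C := {y | y ∈ S.C ∧ dt u' (lg y) = 0}) (S.fib (z 0)) hO1
          (fun y hy hyC => ⟨hyC.1, by
            by_contra hne
            exact h1 y hy hyC.1 hne hyC.2⟩)
        refine ⟨O', hO', fun y hy => ?_⟩
        exact h2 y hy.1 ⟨hLC y hy.2.1, hLd y hy.2.1⟩
    · push Not at hacc
      obtain ⟨O1, hO1, h1⟩ := hacc
      obtain ⟨O, hO, h2⟩ := Z7.b4_fib (C := S.C) (S.fib (y0 0)) hO1 (fun y hy hyC => ⟨hyC, h1 y hy hyC⟩)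
      exact ⟨O, hO, fun z hz hzL hzy => absurd (h2 z hz (hLC z hzL)) hzy⟩
  obtain ⟨O, hOo, hBO, hOfr⟩ := Z7.cover Z.gen hLc (fun y hy => hy.1) hcov (θ := 1 / 8) (by norm_num)
  -- the good points
  have hL'c : IsCompact (L \ O) := hLc.diff hOo
  have hgood : ∀ y ∈ L \ O, Good S Z.Lim y := by
    intro y hy
    by_contra h
    exact hy.2 (hBO ⟨hy.1, h⟩)
  have hnb : ∀ y : Fin m → ℂ, ∃ V : Set (Fin m → ℂ), IsOpen V ∧ y ∈ V ∧ (y ∈ L \ O → ∀ C : ℝ,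
      ∃ (L : ℕ) (f : (Fin k → Fin (L + 1)) → ℤ), 1 ≤ L ∧ f ≠ 0 ∧ (∀ α, |f α| ≤ 2 ^ L) ∧
    ∀ p ∈ Z.Lim, p.2 ∈ V → p.2 ∈ S.C → ‖ev f (Function.update p.1 S.j0 (p.2 0))‖ < Real.exp (-(C * L))) := by
    intro y
    by_cases hy : y ∈ L \ O
    · obtain ⟨O', hO', h⟩ := hgood y hy
      obtain ⟨V, hV, hVo, hyV⟩ := mem_nhds_iff.1 hO'
      refine ⟨V, hVo, hyV, fun _ C => ?_⟩
      obtain ⟨L, f, h1, h2, h3, h4⟩ := h C
      exact ⟨L, f, h1, h2, h3, fun p hp hy => h4 p hp (hV hy)⟩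
    · exact ⟨Set.univ, isOpen_univ, trivial, fun h => absurd h hy⟩
  choose V hVo hVm hVp using hnb
  obtain ⟨T, hTs, hTc⟩ := hL'c.elim_nhds_subcover V (fun y _ => (hVo y).mem_nhds (hVm y))
  obtain ⟨D, hD, hDκ⟩ : ∃ D : ℝ, 0 < D ∧ T.card * (κ' / D) ≤ 1 / 8 := by
    refine ⟨8 * (T.card + 1) * (|κ'| + 1), by positivity, ?_⟩
    have h1 : (0 : ℝ) < 8 * (T.card + 1) * (|κ'| + 1) := by positivity
    rw [← mul_div_assoc, div_le_iff₀ h1]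
    have h2 := le_abs_self κ'
    have h3 := abs_nonneg κ'
    have h4 : (0 : ℝ) ≤ T.card := Nat.cast_nonneg _
    nlinarith [mul_nonneg h4 h3, mul_le_mul_of_nonneg_left h2 h4]
  have hpoly : ∀ y0 : Fin m → ℂ, ∃ (L : ℕ) (f : (Fin k → Fin (L + 1)) → ℤ), y0 ∈ T → 1 ≤ L ∧ f ≠ 0 ∧
      (∀ α, |f α| ≤ 2 ^ L) ∧
      ∀ p ∈ Z.Lim, p.2 ∈ V y0 → p.2 ∈ S.C → ‖ev f (Function.update p.1 S.j0 (p.2 0))‖ < Real.exp (-(D * L)) := by
    intro y0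
    by_cases h : y0 ∈ T
    · obtain ⟨L, f, h1⟩ := hVp y0 (hTs y0 h) D
      exact ⟨L, f, fun _ => h1⟩
    · exact ⟨0, 0, fun h1 => absurd h1 h⟩
  choose Lf f hf using hpoly
  -- the open set
  have hevc : ∀ y0, Continuous fun p : (Fin k → ℂ) × (Fin m → ℂ) => ev (f y0) (Function.update p.1 S.j0 (p.2 0)) := by
    intro y0
    unfold ev
    refine continuous_finsetSum _ fun α _ => ?_
    refine continuous_const.mul ?_
    refine continuous_finsetProd _ fun i _ => ?_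
    refine Continuous.pow ?_ _
    by_cases hi : i = S.j0
    · subst hi
      simp only [Function.update_self]
      exact (continuous_apply 0).comp continuous_snd
    · simp only [Function.update_of_ne hi]
      exact (continuous_apply i).comp continuous_fst
  obtain ⟨W, hW⟩ : ∃ W : Set ((Fin k → ℂ) × (Fin m → ℂ)), W = {p | (p.2 ∈ OE ∨ p.2 ∈ O) ∨
      ∃ y0 ∈ T, p.2 ∈ V y0 ∧ ‖ev (f y0) (Function.update p.1 S.j0 (p.2 0))‖ < Real.exp (-(D * Lf y0))} := ⟨_, rfl⟩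
  have hWo : IsOpen W := by
    have e : W = ((Prod.snd ⁻¹' OE) ∪ (Prod.snd ⁻¹' O)) ∪
        ⋃ y0 ∈ T, ((Prod.snd ⁻¹' (V y0)) ∩
          {p : (Fin k → ℂ) × (Fin m → ℂ) | ‖ev (f y0) (Function.update p.1 S.j0 (p.2 0))‖ < Real.exp (-(D * Lf y0))}) := by
      rw [hW]
      ext p
      simp only [Set.mem_ofPred_eq, Set.mem_union, Set.mem_iUnion, exists_prop, Set.mem_preimage, Set.mem_inter_iff]
    rw [e]
    refine IsOpen.union ((hOEo.preimage continuous_snd).union (hOo.preimage continuous_snd)) ?_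
    refine isOpen_biUnion fun y0 _ => ?_
    exact ((hVo y0).preimage continuous_snd).inter (isOpen_lt (hevc y0).norm continuous_const)
  have hWK : ∀ p ∈ Z.Lim, p.2 ∈ S.toCv.KA A2 → p ∈ W := by
    intro p hp hy
    obtain ⟨-, hdy, -, -⟩ := lim_rel Z hA hu' hM' hp hy.1
    rw [hW]
    by_cases h1 : p.2 ∈ OE
    · exact Or.inl (Or.inl h1)
    by_cases h2 : p.2 ∈ O
    · exact Or.inl (Or.inr h2)
    have h3 := hTc (show p.2 ∈ L \ O from ⟨⟨⟨hy, hdy⟩, h1⟩, h2⟩)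
    rw [Set.mem_iUnion₂] at h3
    obtain ⟨y0, hy0, h4⟩ := h3
    exact Or.inr ⟨y0, hy0, h4, (hf y0 hy0).2.2.2 p hp h4 hy.1⟩
  -- eventually everything is in `W`
  have hev : ∀ᶠ n in (U : Filter ℕ), ∀ σ, Z.y n σ ∈ S.toCv.KA A2 → (Z.x n σ, Z.y n σ) ∈ W := by
    exact k9b4_ev Z hA hKA hWo hWK
  -- the generic bounds
  have hb1 : ∀ᶠ n in (U : Filter ℕ), ∀ w ∈ EF, fr (fun σ : Z.ι n => ‖Z.y n σ - w‖ < δ w) ≤ 1 / (8 * (EF.card + 1)) := by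
    rw [Filter.eventually_all_finset]
    intro w _
    exact hδ2 w
  have hb2 : ∀ᶠ n in (U : Filter ℕ), ∀ y0 ∈ T,
      D * fr (fun σ : Z.ι n => ‖ev (f y0) (Function.update (Z.x n σ) S.j0 (Z.y n σ 0))‖ ≤ Real.exp (-(D * Lf y0))) ≤ κ' := by
    rw [Filter.eventually_all_finset]
    intro y0 hy0
    obtain ⟨h1, h2, h3, -⟩ := hf y0 hy0
    exact hG (Lf y0) (f y0) h1 h2 h3 D hD
  obtain ⟨n, h1, h2, h3, h0⟩ := (hev.and (hb1.and (hb2.and hOfr))).exists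
  have key : (1 : ℝ) ≤ fr (fun σ : Z.ι n => Z.y n σ ∉ S.toCv.KA A2) +
      (fr (fun σ : Z.ι n => Z.y n σ ∈ O) + (fr (fun σ : Z.ι n => ∃ w ∈ EF, ‖Z.y n σ - w‖ < δ w) +
        fr (fun σ : Z.ι n => ∃ y0 ∈ T, ‖ev (f y0) (Function.update (Z.x n σ) S.j0 (Z.y n σ 0))‖ ≤ Real.exp (-(D * Lf y0))))) := by
    rw [← Z5.fr_true (ι := Z.ι n)]
    refine (Z5.fr_mono (Q := fun σ => Z.y n σ ∉ S.toCv.KA A2 ∨ (Z.y n σ ∈ O ∨ ((∃ w ∈ EF, ‖Z.y n σ - w‖ < δ w) ∨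
      (∃ y0 ∈ T, ‖ev (f y0) (Function.update (Z.x n σ) S.j0 (Z.y n σ 0))‖ ≤ Real.exp (-(D * Lf y0)))))) ?_).trans
      ((Z5.fr_or _ _).trans (add_le_add le_rfl ((Z5.fr_or _ _).trans (add_le_add le_rfl (Z5.fr_or _ _)))))
    intro σ _
    by_cases ht : Z.y n σ ∈ S.toCv.KA A2
    · right
      have h4 := h1 σ ht
      rw [hW] at h4
      rcases h4 with (e1 | e1) | ⟨y0, e1, e2, e3⟩
      · exact Or.inr (Or.inl ((hOEm _).1 e1))
      · exact Or.inl e1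
      · exact Or.inr (Or.inr ⟨y0, e1, le_of_lt e3⟩)
    · exact Or.inl ht
  have k1 := Z7.KA_tail S.toCv (Z.y n) (Z.hy n) Z.B (Z.hB n) hA2
  have k2 : fr (fun σ : Z.ι n => ∃ w ∈ EF, ‖Z.y n σ - w‖ < δ w) ≤ 1 / 8 := by
    refine (Z5.fr_exists _ _).trans ?_
    calc ∑ w ∈ EF, fr (fun σ : Z.ι n => ‖Z.y n σ - w‖ < δ w)
        ≤ ∑ _w ∈ EF, (1 : ℝ) / (8 * (EF.card + 1)) := Finset.sum_le_sum fun w h => h2 w h
      _ = EF.card * (1 / (8 * ((EF.card : ℝ) + 1))) := by rw [Finset.sum_const, nsmul_eq_mul]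
      _ ≤ 1 / 8 := by
          rw [mul_one_div, div_le_div_iff₀ (by positivity) (by norm_num)]
          linarith
  have k3 : fr (fun σ : Z.ι n => ∃ y0 ∈ T, ‖ev (f y0) (Function.update (Z.x n σ) S.j0 (Z.y n σ 0))‖ ≤ Real.exp (-(D * Lf y0))) ≤ 1 / 8 := by
    refine (Z5.fr_exists _ _).trans ?_
    calc ∑ y0 ∈ T, fr (fun σ : Z.ι n => ‖ev (f y0) (Function.update (Z.x n σ) S.j0 (Z.y n σ 0))‖ ≤ Real.exp (-(D * Lf y0)))
        ≤ ∑ _y0 ∈ T, κ' / D := by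
          refine Finset.sum_le_sum fun y0 h => ?_
          rw [le_div_iff₀ hD, mul_comm]
          exact h3 y0 h
      _ = T.card * (κ' / D) := by rw [Finset.sum_const, nsmul_eq_mul]
      _ ≤ 1 / 8 := hDκ
  linarith

end Pool.Agent.Z9
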