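import Pool.Agent.Z7.K0

namespace Pool.Agent.Z9

open Pool.Agent.ZL2 Filter Topology

theorem k9bg_le {k : ℕ} (Q : MvPolynomial (Fin k) ℤ) {α : Fin k →₀ ℕ} (hα : α ∈ Q.support) (j : Fin k) :
    α j ≤ Q.totalDegree := by
  refine le_trans ?_ (MvPolynomial.le_totalDegree hα)
  rw [Finsupp.sum_fintype _ _ (fun _ => rfl)]
  exact Finset.single_le_sum (f := fun i => α i) (fun _ _ => Nat.zero_le _) (Finset.mem_univ j)

/-- The finite places. -/
theorem k9bg_fin {K : Type} [Field K] [NumberField K] {k : ℕ} (v : NumberField.FinitePlace K)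
    (z : Fin k → K) (Q : MvPolynomial (Fin k) ℤ) {N : ℕ} (hN : Q.totalDegree ≤ N) :
    v (MvPolynomial.aeval z Q) ≤ ∏ j, max 1 (v (z j)) ^ N := by
  have hP : 0 ≤ ∏ j, max 1 (v (z j)) ^ N :=
    Finset.prod_nonneg fun j _ => pow_nonneg (zero_le_one.trans (le_max_left _ _)) _
  rw [MvPolynomial.aeval_def, MvPolynomial.eval₂_eq']
  refine bp6_fin_sum v _ _ _ hP fun α hα => ?_
  rw [map_mul, map_prod]
  have h2 : ∏ j, v (z j ^ (α j)) ≤ ∏ j, max 1 (v (z j)) ^ N := by
    refine Finset.prod_le_prod (fun j _ => apply_nonneg v _) fun j _ => ?_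
    rw [map_pow]
    exact bp6_pow_le (apply_nonneg v _) ((k9bg_le Q hα j).trans hN)
  have h3 : v (algebraMap ℤ K (Q.coeff α)) ≤ 1 := by
    have := bp6_fin_int v (Q.coeff α)
    simpa using this
  calc v (algebraMap ℤ K (Q.coeff α)) * ∏ j, v (z j ^ (α j)) ≤ 1 * ∏ j, max 1 (v (z j)) ^ N :=
        mul_le_mul h3 h2 (Finset.prod_nonneg fun j _ => apply_nonneg v _) zero_le_one
    _ = _ := one_mul _

/-- The infinite places. -/
theorem k9bg_inf {K : Type} [Field K] [NumberField K] {k : ℕ} (σ : K →+* ℂ)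
    (z : Fin k → K) (Q : MvPolynomial (Fin k) ℤ) {N : ℕ} (hN : Q.totalDegree ≤ N) :
    ‖σ (MvPolynomial.aeval z Q)‖ ≤ (∑ α ∈ Q.support, |((Q.coeff α : ℤ) : ℝ)|) * ∏ j, max 1 ‖σ (z j)‖ ^ N := by
  rw [MvPolynomial.aeval_def, MvPolynomial.eval₂_eq', map_sum, Finset.sum_mul]
  refine (norm_sum_le _ _).trans (Finset.sum_le_sum fun α hα => ?_)
  rw [map_mul, norm_mul, map_prod, norm_prod]
  have h3 : ‖σ (algebraMap ℤ K (Q.coeff α))‖ = |((Q.coeff α : ℤ) : ℝ)| := by
    simp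
  rw [h3]
  refine mul_le_mul_of_nonneg_left ?_ (abs_nonneg _)
  refine Finset.prod_le_prod (fun j _ => norm_nonneg _) fun j _ => ?_
  rw [map_pow, norm_pow]
  exact bp6_pow_le (norm_nonneg _) ((k9bg_le Q hα j).trans hN)

/-- The congruence. -/
theorem k9bg_cong {k : ℕ} (H : MvPolynomial (Fin k) ℤ) {p : ℕ} (hp : p.Prime) :
    ∃ Q : MvPolynomial (Fin k) ℤ, Q.totalDegree ≤ p * H.totalDegree ∧
      MvPolynomial.expand p H = H ^ p + MvPolynomial.C (p : ℤ) * Q := by
  classical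
  have : Fact p.Prime := ⟨hp⟩
  have h1 : MvPolynomial.C (p : ℤ) ∣ MvPolynomial.expand p H - H ^ p := by
    rw [MvPolynomial.C_dvd_iff_zmod, map_sub, MvPolynomial.map_expand, map_pow,
      MvPolynomial.expand_zmod, sub_self]
  obtain ⟨Q, hQ⟩ := h1
  refine ⟨Q, ?_, by rw [← hQ]; ring⟩
  have hsup : Q.support ⊆ (MvPolynomial.expand p H - H ^ p).support := by
    intro α hα
    rw [MvPolynomial.mem_support_iff] at hα ⊢
    rw [hQ, MvPolynomial.coeff_C_mul]
    exact mul_ne_zero (by exact_mod_cast hp.ne_zero) hα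
  have h2 : Q.totalDegree ≤ (MvPolynomial.expand p H - H ^ p).totalDegree := by
    rw [MvPolynomial.totalDegree, MvPolynomial.totalDegree]
    exact Finset.sup_mono hsup
  refine h2.trans ((MvPolynomial.totalDegree_sub _ _).trans (max_le ?_ ?_))
  · rw [MvPolynomial.totalDegree_expand, mul_comm]
  · exact MvPolynomial.totalDegree_pow _ _

/-- The inequality of the product formula. -/
theorem k9bg_ineq {K : Type} [Field K] [NumberField K] {k : ℕ} (z : Fin k → K) (hz : ∀ j, z j ≠ 0)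
    (H : MvPolynomial (Fin k) ℤ) (hH : MvPolynomial.aeval z H = 0) {p : ℕ} (hp : p.Prime)
    (hw : MvPolynomial.aeval (fun j => z j ^ p) H ≠ 0) :
    (Module.finrank ℚ K : ℝ) * Real.log p ≤
      (Module.finrank ℚ K : ℝ) * Real.log (∑ α ∈ H.support, |((H.coeff α : ℤ) : ℝ)|) +
        (p * H.totalDegree : ℕ) * ∑ j, hh (z j) := by
  classical
  obtain ⟨Q, hQ1, hQ2⟩ := k9bg_cong H hp
  have hpK : (p : K) ≠ 0 := by exact_mod_cast hp.ne_zero
  have hev : MvPolynomial.aeval z (MvPolynomial.expand p H) = MvPolynomial.aeval (fun j => z j ^ p) H := by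
    rw [MvPolynomial.aeval_expand]
    rfl
  have hwQ : MvPolynomial.aeval (fun j => z j ^ p) H = (p : K) * MvPolynomial.aeval z Q := by
    rw [← hev, hQ2, map_add, map_pow, hH, zero_pow hp.ne_zero, zero_add, map_mul, MvPolynomial.aeval_C]
    simp
  have hQ0 : MvPolynomial.aeval z Q ≠ 0 := by
    intro h
    rw [hwQ, h, mul_zero] at hw
    exact hw rfl
  have hH0 : H ≠ 0 := by
    rintro rfl
    simp at hw
  set L1 : ℝ := ∑ α ∈ H.support, |((H.coeff α : ℤ) : ℝ)| with hL1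
  have hL1pos : 0 < L1 := by
    obtain ⟨α, hα⟩ := MvPolynomial.support_nonempty.2 hH0
    refine Finset.sum_pos (fun β hβ => ?_) ⟨α, hα⟩
    rw [abs_pos]
    exact_mod_cast MvPolynomial.mem_support_iff.1 hβ
  set N : ℕ := p * H.totalDegree with hNdef
  set w := MvPolynomial.aeval (fun j => z j ^ p) H with hwdef
  obtain ⟨G, hG⟩ : ∃ G : Pl K → ℝ, G = Sum.elim (fun _ => Real.log L1 - Real.log p) (fun _ => 0) := ⟨_, rfl⟩
  have hGF : FS G := by
    unfold FS
    refine Set.Finite.subset (Set.finite_range (Sum.inl : (K →+* ℂ) → Pl K)) ?_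
    rintro (σ | v) h
    · exact ⟨σ, rfl⟩
    · simp [hG] at h
  have hpt : ∀ P : Pl K, lv P w ≤ (N : ℝ) * ∑ j, max 0 (lv P (z j)) + (G P + lv P (p : K)) := by
    rintro (σ | v)
    · simp only [lv, Sum.elim_inl, hG]
      have ht : ∀ j, 0 < ‖σ (z j)‖ := fun j => norm_pos_iff.2 ((map_ne_zero σ).2 (hz j))
      have hP : 0 < ∏ j, max 1 ‖σ (z j)‖ ^ N :=
        Finset.prod_pos fun j _ => pow_pos (lt_max_of_lt_left one_pos) _
      have h1 : ‖σ w‖ ≤ L1 * ∏ j, max 1 ‖σ (z j)‖ ^ N := by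
        rw [hwdef]
        refine (k9bg_inf σ (fun j => z j ^ p) H (le_refl H.totalDegree)).trans (le_of_eq ?_)
        congr 1
        refine Finset.prod_congr rfl fun j _ => ?_
        rw [map_pow, norm_pow]
        rcases le_total 1 ‖σ (z j)‖ with h | h
        · rw [max_eq_right h, max_eq_right (one_le_pow₀ h), ← pow_mul]
        · rw [max_eq_left h, max_eq_left (pow_le_one₀ (norm_nonneg _) h), one_pow, one_pow]
      have h0' : 0 < ‖σ w‖ := norm_pos_iff.2 ((map_ne_zero σ).2 hw)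
      have h3 := Real.log_le_log h0' h1
      rw [Real.log_mul hL1pos.ne' hP.ne', bp6_log_prod N _ ht] at h3
      have h4 : ‖σ (p : K)‖ = p := by
        rw [map_natCast, Complex.norm_natCast]
      rw [h4]
      linarith
    · simp only [lv, Sum.elim_inr, hG, zero_add]
      have ht : ∀ j, 0 < v (z j) := fun j => NumberField.FinitePlace.pos_iff.2 (hz j)
      have hP : 0 < ∏ j, max 1 (v (z j)) ^ N :=
        Finset.prod_pos fun j _ => pow_pos (lt_max_of_lt_left one_pos) _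
      have h1 := k9bg_fin v z Q hQ1
      have h3 := Real.log_le_log (NumberField.FinitePlace.pos_iff.2 hQ0) h1
      rw [bp6_log_prod N _ ht] at h3
      have h5 : v w = v (p : K) * v (MvPolynomial.aeval z Q) := by
        rw [hwQ, map_mul]
      rw [h5, Real.log_mul (ne_of_gt (NumberField.FinitePlace.pos_iff.2 hpK))
        (ne_of_gt (NumberField.FinitePlace.pos_iff.2 hQ0))]
      linarith
  have hFm : ∀ j, FS (fun P : Pl K => max 0 (lv P (z j))) := fun j => FS.max FS.zero (FS_lv (hz j))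
  have hFs : FS (fun P : Pl K => ∑ j, max 0 (lv P (z j))) :=
    FS.sum Finset.univ (F := fun j (P : Pl K) => max 0 (lv P (z j))) fun j _ => hFm j
  have hfin := Sm_mono (FS_lv hw) ((hFs.smul (N : ℝ)).add (hGF.add (FS_lv hpK))) hpt
  rw [Sm_lv hw, Sm_add (hFs.smul (N : ℝ)) (hGF.add (FS_lv hpK)), Sm_smul, Sm_add hGF (FS_lv hpK), Sm_lv hpK,
    Sm_sum Finset.univ (F := fun j (P : Pl K) => max 0 (lv P (z j))) fun j _ => hFm j] at hfin
  have hGs : Sm G = (Module.finrank ℚ K : ℝ) * (Real.log L1 - Real.log p) := by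
    rw [Sm_split hGF]
    simp only [hG, Sum.elim_inl, Sum.elim_inr, finsum_zero, add_zero, Finset.sum_const,
      Finset.card_univ, nsmul_eq_mul]
    rw [NumberField.Embeddings.card K ℂ]
  rw [hGs] at hfin
  have e1 : ∑ j, Sm (fun P : Pl K => max 0 (lv P (z j))) = ∑ j, hh (z j) := rfl
  rw [e1] at hfin
  linarith

/-- Row Z9-BG. A congruence and the product formula. PROOF. Let `d` be the total degree of `H`, `L1` the sum of the absolute values of its coefficients, `p` a prime with `log p ≥ log L1 + 2` (this defines `p0`). `H(X^p) = H(X)^p + p Q(X)` in `ℤ[X]` (`MvPolynomial.expand`/`frobenius` modulo `p`: `ZMod p`), every monomial of `Q` has total degree `≤ p d`. Let `w = H(z^p)` for `z = z n` with `H(z) = 0` and suppose `w ≠ 0`.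
At the infinite places: `log |w| ≤ log L1 + p d ∑_j log⁺ |z_j|`. At the finite places `w = p Q(z)`: `lv v w ≤ lv v p + p d ∑_j max 0 (lv v (z_j))`. Sum (the product formula for `w` and for `p`, `∑_{finite} lv v p = - finrank * log p`): `0 ≤ finrank * (log L1 - log p) + p d ∑_j hh (z_j) ≤ - 2 finrank + p d ∑_j hh (z_j)`: contradiction if `hh (z_j) ≤ finrank / (p d k + 1)`. For `hh`, `lv`, `Pl`, `Sm` and the product formula see ZL2/BPdef.lean, BP1.lean, H.lean (`bp_ineq`). -/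
theorem bog {K : ℕ → Type} [∀ n, Field (K n)] [∀ n, NumberField (K n)] {k : ℕ} (z : ∀ n, Fin k → K n)
    (hz : ∀ n j, z n j ≠ 0) {U : Filter ℕ}
    (hh0 : ∀ j, ∀ δ : ℝ, 0 < δ → ∀ᶠ n in U, hh (z n j) ≤ δ * Module.finrank ℚ (K n))
    (H : MvPolynomial (Fin k) ℤ) (hH : ∀ᶠ n in U, MvPolynomial.aeval (z n) H = 0) :
    ∃ p0 : ℕ, ∀ p : ℕ, p.Prime → p0 ≤ p → ∀ᶠ n in U, MvPolynomial.aeval (fun j => z n j ^ p) H = 0 := by
  classical
  rcases eq_or_ne H 0 with hH0 | hH0
  · refine ⟨0, fun p _ _ => Filter.Eventually.of_forall fun n => ?_⟩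
    rw [hH0, map_zero]
  set L1 : ℝ := ∑ α ∈ H.support, |((H.coeff α : ℤ) : ℝ)| with hL1
  have hL1pos : 0 < L1 := by
    obtain ⟨α, hα⟩ := MvPolynomial.support_nonempty.2 hH0
    refine Finset.sum_pos (fun β hβ => ?_) ⟨α, hα⟩
    rw [abs_pos]
    exact_mod_cast MvPolynomial.mem_support_iff.1 hβ
  refine ⟨⌈Real.exp 1 * L1⌉₊, fun p hp hp0 => ?_⟩
  have hplog : Real.log L1 + 1 ≤ Real.log p := by
    have h1 : Real.exp 1 * L1 ≤ p := (Nat.le_ceil _).trans (by exact_mod_cast hp0)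
    have h2 := Real.log_le_log (by positivity) h1
    rw [Real.log_mul (Real.exp_pos 1).ne' hL1pos.ne', Real.log_exp] at h2
    linarith
  obtain ⟨N, hN⟩ : ∃ N : ℕ, N = p * H.totalDegree := ⟨_, rfl⟩
  have hδ : (0 : ℝ) < 1 / ((N : ℝ) * k + 1) := by positivity
  have hall : ∀ᶠ n in U, ∀ j, hh (z n j) ≤ 1 / ((N : ℝ) * k + 1) * Module.finrank ℚ (K n) :=
    Filter.eventually_all.2 fun j => hh0 j _ hδ
  filter_upwards [hall, hH] with n h1 h2
  by_contra hw
  have h3 := k9bg_ineq (z n) (hz n) H h2 hp hw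
  rw [← hL1, ← hN] at h3
  have hfr : (0 : ℝ) < Module.finrank ℚ (K n) := by exact_mod_cast Module.finrank_pos
  have h4 : ∑ j, hh (z n j) ≤ k * (1 / ((N : ℝ) * k + 1) * Module.finrank ℚ (K n)) := by
    refine (Finset.sum_le_card_nsmul _ _ _ fun j _ => h1 j).trans (le_of_eq ?_)
    rw [Finset.card_univ, Fintype.card_fin, nsmul_eq_mul]
  have h5 : (N : ℝ) * ∑ j, hh (z n j) ≤ (N : ℝ) * (k * (1 / ((N : ℝ) * k + 1) * Module.finrank ℚ (K n))) :=
    mul_le_mul_of_nonneg_left h4 (Nat.cast_nonneg _)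
  have h6 : (N : ℝ) * (k * (1 / ((N : ℝ) * k + 1) * Module.finrank ℚ (K n))) <
      Module.finrank ℚ (K n) := by
    have h7 : (N : ℝ) * (k * (1 / ((N : ℝ) * k + 1) * Module.finrank ℚ (K n))) =
        ((N : ℝ) * k / ((N : ℝ) * k + 1)) * Module.finrank ℚ (K n) := by
      field_simp
    rw [h7]
    have h8 : ((N : ℝ) * k / ((N : ℝ) * k + 1)) < 1 := by
      rw [div_lt_one (by positivity)]
      linarith
    nlinarith
  have h9 : (Module.finrank ℚ (K n) : ℝ) * (Real.log L1 + 1) ≤ (Module.finrank ℚ (K n) : ℝ) * Real.log p :=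
    mul_le_mul_of_nonneg_left hplog hfr.le
  nlinarith

end Pool.Agent.Z9
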