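import Mathlib

namespace Pool.Agent.Z9

open MvPolynomial

/-- A common denominator. -/
theorem k9ct_den {ι : Type*} [Fintype ι] (v : ι → ℚ) : ∃ D : ℕ, 0 < D ∧ ∀ j, ∃ z : ℤ, (D : ℚ) * v j = z := by
  classical
  refine ⟨∏ i, (v i).den, Finset.prod_pos fun i _ => (v i).den_pos, fun j => ?_⟩
  obtain ⟨c, hc⟩ := Finset.dvd_prod_of_mem (fun i => (v i).den) (Finset.mem_univ j)
  refine ⟨c * (v j).num, ?_⟩
  rw [hc]
  push_cast
  have := Rat.mul_den_eq_num (v j)
  calc ((v j).den : ℚ) * c * v j = c * (v j * (v j).den) := by ring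
    _ = c * (v j).num := by rw [this]

/-- Divisibility of the coordinates. -/
theorem k9ct_dvd {k : ℕ} (s : Finset (Fin k →₀ ℕ))
    (hfull : ∀ e : Fin k → ℤ, e ≠ 0 → ∃ α ∈ s, ∃ β ∈ s,
      ∑ j, e j * (α j : ℤ) ≠ ∑ j, e j * (β j : ℤ)) :
    ∃ d : ℕ, 0 < d ∧ ∀ p : ℕ, p.Prime → d < p → ∀ e : Fin k → ℤ,
      (∀ α ∈ s, ∀ β ∈ s, (p : ℤ) ∣ ∑ j, e j * ((α j : ℤ) - (β j : ℤ))) → ∀ j, (p : ℤ) ∣ e j := by
  classical
  obtain ⟨L, hL⟩ : ∃ L : (Fin k → ℚ) →ₗ[ℚ] (s × s → ℚ), ∀ v i, L v i = ∑ j, v j * (((i.1 : Fin k →₀ ℕ) j : ℚ) - ((i.2 : Fin k →₀ ℕ) j : ℚ)) := by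
    refine ⟨LinearMap.pi fun i => ∑ j, (((i.1 : Fin k →₀ ℕ) j : ℚ) - ((i.2 : Fin k →₀ ℕ) j : ℚ)) • LinearMap.proj j, ?_⟩
    intro v i
    simp only [LinearMap.pi_apply, LinearMap.coe_sum, Finset.sum_apply, LinearMap.smul_apply, LinearMap.proj_apply, smul_eq_mul]
    exact Finset.sum_congr rfl fun j _ => mul_comm _ _
  have hker : LinearMap.ker L = ⊥ := by
    rw [LinearMap.ker_eq_bot']
    intro v hv
    by_contra hne
    obtain ⟨D, hD, hz⟩ := k9ct_den v
    choose e he using hz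
    have he0 : e ≠ 0 := by
      intro h0
      apply hne
      funext j
      have h1 := he j
      rw [h0] at h1
      simp only [Pi.zero_apply, Int.cast_zero, mul_eq_zero, Nat.cast_eq_zero] at h1
      rcases h1 with h1 | h1
      · exact absurd h1 (Nat.pos_iff_ne_zero.1 hD)
      · rw [h1]
        rfl
    obtain ⟨α, hα, β, hβ, hab⟩ := hfull e he0
    apply hab
    have h2 : L v (⟨α, hα⟩, ⟨β, hβ⟩) = 0 := by rw [hv]; rfl
    rw [hL] at h2
    have h3 : (D : ℚ) * ∑ j, v j * ((α j : ℚ) - (β j : ℚ)) = 0 := by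
      have h4 : ∑ j, v j * ((α j : ℚ) - (β j : ℚ)) = 0 := h2
      rw [h4, mul_zero]
    rw [Finset.mul_sum] at h3
    have h5 : ∑ j, ((e j : ℚ) * (α j : ℚ) - (e j : ℚ) * (β j : ℚ)) = 0 := by
      rw [← h3]
      refine Finset.sum_congr rfl fun j _ => ?_
      rw [← mul_assoc, he j]
      ring
    rw [Finset.sum_sub_distrib, sub_eq_zero] at h5
    exact_mod_cast h5
  obtain ⟨g, hg⟩ := LinearMap.exists_leftInverse_of_injective L hker
  obtain ⟨d, hd, hz⟩ := k9ct_den (ι := (s × s) × Fin k) fun ij => g (Pi.single ij.1 1) ij.2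
  choose z hz using hz
  refine ⟨d, hd, fun p hp hpd e he j => ?_⟩
  have h1 : ∀ v : Fin k → ℚ, v = g (L v) := fun v => by
    have := LinearMap.congr_fun hg v
    simpa using this.symm
  have h2 : ((d * e j : ℤ) : ℚ) = ((∑ i : s × s, (∑ l, e l * (((i.1 : Fin k →₀ ℕ) l : ℤ) - ((i.2 : Fin k →₀ ℕ) l : ℤ))) * z (i, j) : ℤ) : ℚ) := by
    have h3 := congrFun (h1 fun l => (e l : ℚ)) j
    have h4 : g (L fun l => (e l : ℚ)) = ∑ i, (L fun l => (e l : ℚ)) i • g (Pi.single i 1) := by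
      conv_lhs => rw [pi_eq_sum_univ' (L fun l => (e l : ℚ)), map_sum]
      refine Finset.sum_congr rfl fun i _ => ?_
      rw [map_smul]
    push_cast
    have h5 : (e j : ℚ) = ∑ i : s × s, (∑ l, (e l : ℚ) * (((i.1 : Fin k →₀ ℕ) l : ℚ) - ((i.2 : Fin k →₀ ℕ) l : ℚ))) * g (Pi.single i 1) j := by
      have h6 : (e j : ℚ) = g (L fun l => (e l : ℚ)) j := h3
      rw [h6, h4, Finset.sum_apply]
      refine Finset.sum_congr rfl fun i _ => ?_
      rw [Pi.smul_apply, hL, smul_eq_mul]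
    rw [h5, Finset.mul_sum]
    refine Finset.sum_congr rfl fun i _ => ?_
    rw [← hz (i, j)]
    ring
  have h3 : (d * e j : ℤ) = ∑ i : s × s, (∑ l, e l * (((i.1 : Fin k →₀ ℕ) l : ℤ) - ((i.2 : Fin k →₀ ℕ) l : ℤ))) * z (i, j) := by
    exact_mod_cast h2
  have h4 : (p : ℤ) ∣ d * e j := by
    rw [h3]
    refine Finset.dvd_sum fun i _ => Dvd.dvd.mul_right (he _ i.1.2 _ i.2.2) _
  rcases (Nat.prime_iff_prime_int.1 hp).dvd_or_dvd h4 with h5 | h5
  · exact absurd (Nat.le_of_dvd hd (Int.natCast_dvd_natCast.1 h5)) (not_le.2 hpd)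
  · exact h5

/-- `x ↦ ζ x`. -/
noncomputable def k9ct_tw {k : ℕ} (ζ : Fin k → ℂ) : MvPolynomial (Fin k) ℂ →ₐ[ℂ] MvPolynomial (Fin k) ℂ :=
  MvPolynomial.aeval (fun j => MvPolynomial.C (ζ j) * MvPolynomial.X j)

theorem k9ct_coeff {k : ℕ} (ζ : Fin k → ℂ) (G : MvPolynomial (Fin k) ℂ) (α : Fin k →₀ ℕ) :
    (k9ct_tw ζ G).coeff α = (∏ j, ζ j ^ α j) * G.coeff α := by
  classical
  induction G using MvPolynomial.induction_on' with
  | monomial u a =>
    unfold k9ct_tw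
    rw [MvPolynomial.aeval_monomial]
    have h1 : (u.prod fun i n => (MvPolynomial.C (ζ i) * MvPolynomial.X i : MvPolynomial (Fin k) ℂ) ^ n) =
        MvPolynomial.C (∏ j, ζ j ^ u j) * MvPolynomial.monomial u 1 := by
      rw [Finsupp.prod_fintype _ _ (fun i => pow_zero _)]
      simp only [mul_pow]
      rw [Finset.prod_mul_distrib, map_prod]
      congr 1
      · exact Finset.prod_congr rfl fun j _ => by rw [map_pow]
      · rw [MvPolynomial.monomial_eq, map_one, one_mul, Finsupp.prod_fintype _ _ (fun i => pow_zero _)]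
    rw [h1, MvPolynomial.algebraMap_eq, ← mul_assoc, ← map_mul, MvPolynomial.coeff_C_mul, MvPolynomial.coeff_monomial,
      MvPolynomial.coeff_monomial]
    by_cases h : u = α
    · subst h
      rw [if_pos rfl, if_pos rfl]
      ring
    · rw [if_neg h, if_neg h, mul_zero, mul_zero]
  | add p q hp hq =>
    rw [map_add, MvPolynomial.coeff_add, MvPolynomial.coeff_add, hp, hq, mul_add]

theorem k9ct_support {k : ℕ} (ζ : Fin k → ℂ) (hζ : ∀ j, ζ j ≠ 0) (G : MvPolynomial (Fin k) ℂ) :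
    (k9ct_tw ζ G).support = G.support := by
  classical
  ext α
  rw [MvPolynomial.mem_support_iff, MvPolynomial.mem_support_iff, k9ct_coeff, mul_ne_zero_iff]
  exact ⟨fun h => h.2, fun h => ⟨Finset.prod_ne_zero_iff.2 fun j _ => pow_ne_zero _ (hζ j), h⟩⟩

theorem k9ct_totalDegree {k : ℕ} (ζ : Fin k → ℂ) (hζ : ∀ j, ζ j ≠ 0) (G : MvPolynomial (Fin k) ℂ) :
    (k9ct_tw ζ G).totalDegree = G.totalDegree := by
  unfold MvPolynomial.totalDegree
  rw [k9ct_support ζ hζ]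

theorem k9ct_comp {k : ℕ} (ζ ξ : Fin k → ℂ) (h : ∀ j, ζ j * ξ j = 1) (G : MvPolynomial (Fin k) ℂ) :
    k9ct_tw ζ (k9ct_tw ξ G) = G := by
  ext α
  rw [k9ct_coeff, k9ct_coeff, ← mul_assoc, ← Finset.prod_mul_distrib]
  have : ∏ j, ζ j ^ α j * ξ j ^ α j = 1 := Finset.prod_eq_one fun j _ => by rw [← mul_pow, h j, one_pow]
  rw [this, one_mul]

theorem k9ct_prime {k : ℕ} (ζ : Fin k → ℂ) (hζ : ∀ j, ζ j ≠ 0) {G : MvPolynomial (Fin k) ℂ} (hG : Prime G) :
    Prime (k9ct_tw ζ G) := by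
  have h1 : ∀ j, ζ j * (ζ j)⁻¹ = 1 := fun j => mul_inv_cancel₀ (hζ j)
  have h2 : ∀ j, (ζ j)⁻¹ * ζ j = 1 := fun j => inv_mul_cancel₀ (hζ j)
  let E : MvPolynomial (Fin k) ℂ ≃* MvPolynomial (Fin k) ℂ :=
    { toFun := k9ct_tw ζ
      invFun := k9ct_tw fun j => (ζ j)⁻¹
      left_inv := fun G => k9ct_comp _ _ h2 G
      right_inv := fun G => k9ct_comp _ _ h1 G
      map_mul' := fun a b => map_mul _ a b }
  exact (MulEquiv.prime_iff E).2 hG

/-- Row Z9-CT. PROOF. Suppose that for all primes `p ≥ p0` and all `ζ` with `ζ_j ^ p = 1` the polynomial `G(ζ x)` divides `H(x^p)`. The differences of the exponents of `G` span `ℚ^k` (`hfull`), so there are `k` of them with determinant `Δ ≠ 0`; take a prime `p ≥ p0`, `p > |Δ|`, `p > totalDegree H`. The polynomials `G(ζ x)` are primes (images of the prime `G` under automorphisms), and for different `ζ` not associated: if `G(ζ x) = c G(ζ' x)`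
then `ξ = ζ / ζ'` has `ξ^α = ξ^β` for all exponents `α, β` of `G`; `ξ_j = ω^(a_j)` for a primitive `p`-th root of unity `ω`, so `∑ a_j (α_j - β_j) ≡ 0` mod `p` for the `k` differences, `Δ a ≡ 0`, `a ≡ 0`, `ξ = 1`. So the product of the `p^k` polynomials divides `H(x^p) ≠ 0` and `p^k totalDegree G ≤ p totalDegree H`, `1 ≤ totalDegree G` (`G` is prime), `k ≥ 2`: `p ≤ totalDegree H`: contradiction. -/
theorem count {k : ℕ} (hk : 2 ≤ k) (G H : MvPolynomial (Fin k) ℂ) (hG : Prime G)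
    (hfull : ∀ e : Fin k → ℤ, e ≠ 0 → ∃ α ∈ G.support, ∃ β ∈ G.support,
      ∑ j, e j * (α j : ℤ) ≠ ∑ j, e j * (β j : ℤ)) (hH : H ≠ 0) (p0 : ℕ) :
    ∃ p : ℕ, p.Prime ∧ p0 ≤ p ∧ ∃ ζ : Fin k → ℂ, (∀ j, ζ j ^ p = 1) ∧
      ¬ MvPolynomial.aeval (fun j => MvPolynomial.C (ζ j) * MvPolynomial.X j) G ∣
        MvPolynomial.aeval (fun j => (MvPolynomial.X j : MvPolynomial (Fin k) ℂ) ^ p) H := by
  classical
  obtain ⟨d, hd, hdv⟩ := k9ct_dvd G.support hfull
  obtain ⟨p, hp1, hp⟩ := Nat.exists_infinite_primes (max p0 (max (d + 1) (H.totalDegree + 1)))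
  have hp0 : p0 ≤ p := (le_max_left _ _).trans hp1
  have hpd : d < p := lt_of_lt_of_le (Nat.lt_succ_self d) (((le_max_left _ _).trans (le_max_right _ _)).trans hp1)
  have hpH : H.totalDegree < p :=
    lt_of_lt_of_le (Nat.lt_succ_self _) (((le_max_right _ _).trans (le_max_right _ _)).trans hp1)
  refine ⟨p, hp, hp0, ?_⟩
  by_contra hcon
  push Not at hcon
  obtain ⟨ω, hω⟩ : ∃ ω : ℂ, IsPrimitiveRoot ω p := ⟨_, Complex.isPrimitiveRoot_exp p hp.ne_zero⟩
  have hω0 : ω ≠ 0 := hω.ne_zero hp.ne_zero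
  let ζ : (Fin k → Fin p) → Fin k → ℂ := fun a j => ω ^ (a j : ℕ)
  have hζ0 : ∀ a j, ζ a j ≠ 0 := fun a j => pow_ne_zero _ hω0
  have hζp : ∀ a j, ζ a j ^ p = 1 := fun a j => by
    show (ω ^ (a j : ℕ)) ^ p = 1
    rw [← pow_mul, mul_comm, pow_mul, hω.pow_eq_one, one_pow]
  obtain ⟨P, hP⟩ : ∃ P : MvPolynomial (Fin k) ℂ, P = MvPolynomial.aeval (fun j => (MvPolynomial.X j : MvPolynomial (Fin k) ℂ) ^ p) H := ⟨_, rfl⟩
  have hdiv : ∀ a, k9ct_tw (ζ a) G ∣ P := fun a => by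
    rw [hP]
    exact hcon (ζ a) (hζp a)
  have hnd : ∀ a b, a ≠ b → ¬ k9ct_tw (ζ a) G ∣ k9ct_tw (ζ b) G := by
    intro a b hab hdvd
    have hass : Associated (k9ct_tw (ζ a) G) (k9ct_tw (ζ b) G) :=
      (k9ct_prime _ (hζ0 a) hG).associated_of_dvd (k9ct_prime _ (hζ0 b) hG) hdvd
    obtain ⟨u, hu⟩ := hass
    obtain ⟨c, hc⟩ : ∃ c : ℂ, (u : MvPolynomial (Fin k) ℂ) = MvPolynomial.C c := by
      have := MvPolynomial.isUnit_iff_eq_C_of_isReduced.1 u.isUnit
      obtain ⟨c, _, hc⟩ := this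
      exact ⟨c, hc⟩
    rw [hc] at hu
    have h1 : ∀ α ∈ G.support, ω ^ (∑ j, (b j : ℕ) * α j) = c * ω ^ (∑ j, (a j : ℕ) * α j) := by
      intro α hα
      have h2 := congrArg (fun q => MvPolynomial.coeff α q) hu
      change MvPolynomial.coeff α (k9ct_tw (ζ a) G * MvPolynomial.C c) = MvPolynomial.coeff α (k9ct_tw (ζ b) G) at h2
      rw [mul_comm, MvPolynomial.coeff_C_mul, k9ct_coeff, k9ct_coeff] at h2
      have h3 : ∀ a : Fin k → Fin p, ∏ j, ζ a j ^ α j = ω ^ (∑ j, (a j : ℕ) * α j) := by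
        intro a
        rw [← Finset.prod_pow_eq_pow_sum]
        exact Finset.prod_congr rfl fun j _ => by
          show (ω ^ (a j : ℕ)) ^ α j = _
          rw [← pow_mul]
      rw [h3, h3, ← mul_assoc] at h2
      exact (mul_right_cancel₀ (MvPolynomial.mem_support_iff.1 hα) h2).symm
    have h4 : ∀ j, (p : ℤ) ∣ ((b j : ℕ) : ℤ) - ((a j : ℕ) : ℤ) := by
      refine hdv p hp hpd (fun j => ((b j : ℕ) : ℤ) - ((a j : ℕ) : ℤ)) ?_
      intro α hα β hβ
      have h5 := h1 α hα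
      have h6 := h1 β hβ
      have h7 : ω ^ ((∑ j, (b j : ℕ) * α j) + ∑ j, (a j : ℕ) * β j) =
          ω ^ ((∑ j, (b j : ℕ) * β j) + ∑ j, (a j : ℕ) * α j) := by
        rw [pow_add, pow_add, h5, h6]
        ring
      have h8 : ω ^ (((((∑ j, (b j : ℕ) * α j) + ∑ j, (a j : ℕ) * β j : ℕ) : ℤ)) -
          (((∑ j, (b j : ℕ) * β j) + ∑ j, (a j : ℕ) * α j : ℕ) : ℤ)) = 1 := by
        rw [zpow_sub₀ hω0, zpow_natCast, zpow_natCast, h7, div_self (pow_ne_zero _ hω0)]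
      have h9 := (hω.zpow_eq_one_iff_dvd _).1 h8
      convert h9 using 1
      push_cast
      rw [← Finset.sum_add_distrib, ← Finset.sum_add_distrib, ← Finset.sum_sub_distrib]
      exact Finset.sum_congr rfl fun j _ => by ring
    apply hab
    funext j
    have h10 : (b j : ℕ) ≡ (a j : ℕ) [MOD p] := (Nat.modEq_iff_dvd.2 (h4 j)).symm
    have h11 := h10
    unfold Nat.ModEq at h11
    rw [Nat.mod_eq_of_lt (b j).2, Nat.mod_eq_of_lt (a j).2] at h11
    exact Fin.ext h11.symm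
  have hprod : ∏ a, k9ct_tw (ζ a) G ∣ P := by
    refine Finset.prod_dvd_of_isRelPrime ?_ fun a _ => hdiv a
    intro a _ b _ hab
    exact ((k9ct_prime _ (hζ0 a) hG).irreducible.isRelPrime_iff_not_dvd).2 (hnd a b hab)
  have hP0 : P ≠ 0 := by
    rw [hP]
    have : MvPolynomial.aeval (fun j => (MvPolynomial.X j : MvPolynomial (Fin k) ℂ) ^ p) H = MvPolynomial.expand p H := rfl
    rw [this]
    intro h
    apply hH
    exact MvPolynomial.expand_eq_zero hp.pos |>.1 h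
  have hdeg1 : (∏ a, k9ct_tw (ζ a) G).totalDegree = p ^ k * G.totalDegree := by
    have : ∀ s : Finset (Fin k → Fin p), (∏ a ∈ s, k9ct_tw (ζ a) G).totalDegree = s.card * G.totalDegree := by
      intro s
      induction s using Finset.induction_on with
      | empty => simp
      | insert a s ha ih =>
        rw [Finset.prod_insert ha, MvPolynomial.totalDegree_mul_of_isDomain, ih, k9ct_totalDegree _ (hζ0 a),
          Finset.card_insert_of_notMem ha]
        · ring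
        · exact (k9ct_prime _ (hζ0 a) hG).ne_zero
        · exact Finset.prod_ne_zero_iff.2 fun b _ => (k9ct_prime _ (hζ0 b) hG).ne_zero
    rw [this, Finset.card_univ, Fintype.card_fun, Fintype.card_fin, Fintype.card_fin]
  have hdeg2 : P.totalDegree ≤ p * H.totalDegree := by
    rw [hP]
    have : MvPolynomial.aeval (fun j => (MvPolynomial.X j : MvPolynomial (Fin k) ℂ) ^ p) H = MvPolynomial.expand p H := rfl
    rw [this]
    exact (MvPolynomial.totalDegree_expand _).le.trans (mul_comm _ _).le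
  have hdeg3 : (∏ a, k9ct_tw (ζ a) G).totalDegree ≤ P.totalDegree := MvPolynomial.totalDegree_le_of_dvd_of_isDomain hprod hP0
  have hG1 : 1 ≤ G.totalDegree := by
    rw [Nat.one_le_iff_ne_zero]
    intro h0
    have h1 := MvPolynomial.totalDegree_eq_zero_iff_eq_C.1 h0
    apply hG.not_isUnit
    rw [h1]
    have h2 : MvPolynomial.coeff 0 G ≠ 0 := by
      intro h3
      apply hG.ne_zero
      rw [h1, h3, map_zero]
    exact (IsUnit.mk0 _ h2).map MvPolynomial.C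
  have hfin : p ^ 2 ≤ p * H.totalDegree := by
    calc p ^ 2 ≤ p ^ k := Nat.pow_le_pow_right hp.pos hk
      _ ≤ p ^ k * G.totalDegree := Nat.le_mul_of_pos_right _ hG1
      _ ≤ p * H.totalDegree := by
        rw [← hdeg1]
        exact hdeg3.trans hdeg2
  rw [pow_two] at hfin
  exact absurd (Nat.le_of_mul_le_mul_left hfin hp.pos) (not_le.2 hpH)

end Pool.Agent.Z9
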