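import Pool.Agent.Z8.Defs

namespace Pool.Agent.Z9

open Pool.Agent.ZL2 Filter Topology
open Pool.Agent.Z5 (fr Gen ev2)
open Pool.Agent.Z6 (dt)
open Pool.Agent.Z7 (lg Cv HHp Chart)
open Pool.Agent.Z8 (sp evk rwk lev)

variable {k m : ℕ}

/-- The data of a hypersurface bundle `Φ(x, y) = 0`, `y ∈ C`, in the product of the torus of dimension `k` and `C`. The
variable `x_j0` is the one which is eliminated. (No condition on the reciprocal polynomials.) -/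
structure Sk (k m : ℕ) [NeZero m] extends Cv m where
  Φ : MvPolynomial (Fin k) (MvPolynomial (Fin m) ℂ)
  full : ∀ e : Fin k → ℤ, e ≠ 0 → ∃ α ∈ Φ.support, ∃ β ∈ Φ.support, ∑ j, e j * (α j : ℤ) ≠ ∑ j, e j * (β j : ℤ)
  coef : ∀ y ∈ C, y ∉ E → ∀ α ∈ Φ.support, MvPolynomial.eval y (Φ.coeff α) ≠ 0
  j0 : Fin k

variable [NeZero m]

/-- A sequence of Galois orbits of points `(x, y)` of `S` with the relations `u · log |y| = 0`,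
`log |x_j| = M_j · log |y|`; the level sums of `Φ` and the derivative of `Φ` by `x_j0` do not vanish at the points. -/
structure Sq (S : Sk k m) (U : Ultrafilter ℕ) where
  ι : ℕ → Type
  fin : ∀ n, Fintype (ι n)
  ne : ∀ n, Nonempty (ι n)
  x : ∀ n, ι n → Fin k → ℂ
  y : ∀ n, ι n → Fin m → ℂ
  u : ℕ → Fin m → ℝ
  M : ℕ → Fin k → Fin m → ℝ
  B : ℝ
  κ : ℝ
  hx : ∀ n σ j, x n σ j ≠ 0
  hy : ∀ n σ, y n σ ∈ S.C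
  hyE : ∀ n σ, y n σ ∉ S.E
  hΦ : ∀ n σ, evk S.Φ (x n σ) (y n σ) = 0
  hu : ∀ n, dt (u n) (u n) = 1
  hM : ∀ n j, dt (M n j) (u n) = 0
  r0 : ∀ n σ, dt (u n) (lg (y n σ)) = 0
  r1 : ∀ n σ j, lg (x n σ) j = dt (M n j) (lg (y n σ))
  hB : ∀ n i, ∑ σ, |lg (y n σ) i| ≤ B * Fintype.card (ι n)
  gen : Gen (k := 1) (U : Filter ℕ) κ (fun n σ _ => y n σ 0)
  hsm : ∀ n σ, evk (MvPolynomial.pderiv S.j0 S.Φ) (x n σ) (y n σ) ≠ 0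
  lev0 : ∀ n σ (e : Fin k → ℤ) (c : ℤ), e ≠ 0 → (lev S.Φ e c).Nonempty →
    ∑ α ∈ lev S.Φ e c, MvPolynomial.eval (y n σ) (S.Φ.coeff α) * ∏ j, x n σ j ^ α j ≠ 0
  big : ∀ (e : Fin k → ℤ) (c : ℤ) (A : ℝ), e ≠ 0 → ∃ C0 : ℝ, ∀ n,
    (∀ α ∈ lev S.Φ e c, ∀ β ∈ lev S.Φ e c, ∑ i, |rwk (M n) α β i| ≤ A) → ∀ α ∈ lev S.Φ e c,
      ∑ σ, |Real.log ‖∑ β ∈ lev S.Φ e c, MvPolynomial.eval (y n σ) (S.Φ.coeff β) * ∏ j, x n σ j ^ β j‖ -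
        ∑ j, (α j : ℝ) * lg (x n σ) j| ≤ C0 * Fintype.card (ι n)

attribute [instance] Sq.fin Sq.ne

/-- `|M| ≤ A` eventually. -/
def Sq.Bdd {S : Sk k m} {U : Ultrafilter ℕ} (Z : Sq S U) (A : ℝ) : Prop :=
  ∀ᶠ n in (U : Filter ℕ), ∀ j i, |Z.M n j i| ≤ A

/-- The limit points of the orbits. -/
def Sq.Lim {S : Sk k m} {U : Ultrafilter ℕ} (Z : Sq S U) : Set ((Fin k → ℂ) × (Fin m → ℂ)) :=
  {p | ∀ O ∈ 𝓝 p, ∀ᶠ n in (U : Filter ℕ), ∃ σ, (Z.x n σ, Z.y n σ) ∈ O}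

/-- For every `C` there is a nonzero integral polynomial of degree `≤ L` with coefficients `≤ 2 ^ L` which is smaller
than `exp (-C L)` at the points of `Λ` over a neighbourhood of `y2`. -/
def Good (S : Sk k m) (Λ : Set ((Fin k → ℂ) × (Fin m → ℂ))) (y2 : Fin m → ℂ) : Prop :=
  ∃ O ∈ 𝓝 y2, ∀ C : ℝ, ∃ (L : ℕ) (f : (Fin k → Fin (L + 1)) → ℤ), 1 ≤ L ∧ f ≠ 0 ∧ (∀ α, |f α| ≤ 2 ^ L) ∧
    ∀ p ∈ Λ, p.2 ∈ O → p.2 ∈ S.C → ‖ev f (Function.update p.1 S.j0 (p.2 0))‖ < Real.exp (-(C * L))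

end Pool.Agent.Z9
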