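import Mathlib

namespace Pool.Agent.Z9

theorem k9hz_int {F0 : Type*} [Field F0] [Algebra ℚ F0] (hA : Algebra.IsAlgebraic ℚ F0) {k : ℕ}
    (H0 : MvPolynomial (Fin k) F0) (h0 : H0 ≠ 0) :
    ∃ H1 : MvPolynomial (Fin k) ℤ, H1 ≠ 0 ∧ H0 ∣ MvPolynomial.map (algebraMap ℤ F0) H1 := by
  have h1 : Algebra.IsAlgebraic ℤ F0 := ⟨fun x =>
    (IsFractionRing.isAlgebraic_iff ℤ ℚ F0).2 (hA.isAlgebraic x)⟩
  exact MvPolynomial.exists_dvd_map_of_isAlgebraic h0

/-- Row Z9-HZ. PROOF. Let `F0` = the algebraic closure of `ℚ` in `ℂ` (`algebraicClosure ℚ ℂ`, an intermediate field). A linear form `φ : ℂ →ₗ[F0] F0` with `φ (a coefficient of H) ≠ 0`; `H0 = φ(H)` (coefficientwise) `≠ 0`, and `H0 (z) = φ (H (z)) = 0` for `z` with coordinates in `F0`. The ring `MvPolynomial (Fin k) F0` is algebraic over `MvPolynomial (Fin k) ℤ` (the constants of `F0` are algebraic over `ℤ`), so `H0` divides a nonzero element of the image of `MvPolynomial (Fin k) ℤ`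
(`IsAlgebraic.exists_nonzero_dvd`; or take the product of the conjugates of `H0` over the number field of the coefficients). -/
theorem exists_int {k : ℕ} (H : MvPolynomial (Fin k) ℂ) (hH : H ≠ 0) :
    ∃ H1 : MvPolynomial (Fin k) ℤ, H1 ≠ 0 ∧ ∀ z : Fin k → ℂ, (∀ j, IsAlgebraic ℚ (z j)) →
      MvPolynomial.eval z H = 0 → MvPolynomial.aeval z H1 = 0 := by
  classical
  set F0 := algebraicClosure ℚ ℂ with hF0
  obtain ⟨γ, hγ⟩ := MvPolynomial.ne_zero_iff.1 hH
  obtain ⟨φ, hφ⟩ : ∃ φ : Module.Dual F0 ℂ, φ (H.coeff γ) ≠ 0 := by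
    by_contra h
    push Not at h
    exact hγ ((Module.forall_dual_apply_eq_zero_iff F0 _).1 h)
  set H0 : MvPolynomial (Fin k) F0 := ∑ α ∈ H.support, MvPolynomial.monomial α (φ (H.coeff α)) with hH0
  have hH0ne : H0 ≠ 0 := by
    intro h
    have h1 : H0.coeff γ = φ (H.coeff γ) := by
      rw [hH0, MvPolynomial.coeff_sum]
      simp only [MvPolynomial.coeff_monomial]
      rw [Finset.sum_ite_eq', if_pos (MvPolynomial.mem_support_iff.2 hγ)]
    rw [h, MvPolynomial.coeff_zero] at h1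
    exact hφ h1.symm
  obtain ⟨H1, h1, W, hW⟩ := k9hz_int (algebraicClosure.isAlgebraic ℚ ℂ) H0 hH0ne
  refine ⟨H1, h1, fun z hz hzH => ?_⟩
  set z' : Fin k → F0 := fun j => ⟨z j, mem_algebraicClosure_iff.2 (hz j)⟩ with hz'
  have hzz : ∀ j, algebraMap F0 ℂ (z' j) = z j := fun j => rfl
  have h2 : MvPolynomial.eval z' H0 = 0 := by
    have h3 : MvPolynomial.eval z' H0 = φ (MvPolynomial.eval z H) := by
      rw [hH0, map_sum, MvPolynomial.eval_eq', map_sum]
      refine Finset.sum_congr rfl fun α _ => ?_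
      rw [MvPolynomial.eval_monomial, Finsupp.prod_fintype _ _ (fun i => pow_zero _)]
      have h4 : H.coeff α * ∏ i, z i ^ α i = (∏ i, z' i ^ α i) • H.coeff α := by
        rw [Algebra.smul_def, map_prod, mul_comm]
        congr 1
      rw [h4, map_smul, smul_eq_mul, mul_comm]
    rw [h3, hzH, map_zero]
  have h5 : MvPolynomial.eval z' (MvPolynomial.map (algebraMap ℤ F0) H1) = 0 := by
    rw [hW, map_mul, h2, zero_mul]
  have h6 : MvPolynomial.aeval z' H1 = 0 := by
    rw [MvPolynomial.eval_map] at h5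
    exact h5
  have h7 : MvPolynomial.aeval z H1 = algebraMap F0 ℂ (MvPolynomial.aeval z' H1) := by
    have := MvPolynomial.aeval_algebraMap_apply (R := ℤ) ℂ z' H1
    rw [← this]
    rfl
  rw [h7, h6, map_zero]

end Pool.Agent.Z9
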