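import Pool.Agent.Z9.W0

namespace Pool.Agent.Z9

open Pool.Agent.ZL2 Filter Topology
open Pool.Agent.Z5 (fr Gen ev2 Alg d1_H d1_mk d1_ev d1_ev_mk d1_ext)
open Pool.Agent.Z6 (dt w6_L)
open Pool.Agent.Z7 (lg Cv HHp Chart)
open Pool.Agent.Z8 (sp evk rwk lev)

theorem k9x1a_dom {t0 : ℂ} {ρ : ℝ} (hρ : 0 < ρ) : IsDomain (d1_H t0 ρ) := by
  have : Nontrivial (d1_H t0 ρ) := by
    refine ⟨⟨0, 1, fun h => ?_⟩⟩
    have := congrArg (d1_ev ⟨t0, Metric.mem_ball_self hρ⟩) h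
    rw [map_zero, map_one] at this
    exact zero_ne_one this
  exact NoZeroDivisors.to_isDomain _

theorem k9x1a_dsum {t0 : ℂ} {ρ : ℝ} {ι : Type*} (s : Finset ι) (f : ι → d1_H t0 ρ) :
    dH (∑ i ∈ s, f i) = ∑ i ∈ s, dH (f i) := by
  classical
  induction s using Finset.induction_on with
  | empty => simp [dH_zero]
  | insert a s ha ih => rw [Finset.sum_insert ha, Finset.sum_insert ha, dH_add, ih]

theorem k9x1a_leib {t0 : ℂ} {ρ : ℝ} {k : ℕ} (A : d1_H t0 ρ) (B : Fin k → d1_H t0 ρ)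
    (P Q : MvPolynomial (Fin k) (d1_H t0 ρ)) : xi A B (P * Q) = xi A B P * Q + P * xi A B Q := by
  classical
  refine MvPolynomial.ext _ _ fun α => ?_
  rw [xi_coeff, MvPolynomial.coeff_add, MvPolynomial.coeff_mul, MvPolynomial.coeff_mul, MvPolynomial.coeff_mul,
    k9x1a_dsum, Finset.mul_sum, Finset.mul_sum, ← Finset.sum_add_distrib, ← Finset.sum_add_distrib]
  refine Finset.sum_congr rfl fun p hp => ?_
  rw [xi_coeff, xi_coeff, dH_mul]
  have h1 : (∑ j, (α j : d1_H t0 ρ) * B j) = (∑ j, (p.1 j : d1_H t0 ρ) * B j) + ∑ j, (p.2 j : d1_H t0 ρ) * B j := by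
    rw [← Finset.sum_add_distrib]
    refine Finset.sum_congr rfl fun j _ => ?_
    rw [← Finset.HasAntidiagonal.mem_antidiagonal.1 hp, Finsupp.add_apply, Nat.cast_add, add_mul]
  rw [h1]
  ring

theorem k9x1a_xiC {t0 : ℂ} {ρ : ℝ} {k : ℕ} (A : d1_H t0 ρ) (B : Fin k → d1_H t0 ρ) (h : d1_H t0 ρ) :
    xi A B (MvPolynomial.C h) = MvPolynomial.C (A * dH h) := by
  classical
  refine MvPolynomial.ext _ _ fun α => ?_
  rw [xi_coeff, MvPolynomial.coeff_C, MvPolynomial.coeff_C]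
  split_ifs with h0
  · subst h0
    simp
  · rw [dH_zero, mul_zero, mul_zero, add_zero]

/-- Row Z9-X1a. PROOF. `xi` satisfies the Leibniz rule (`xi_coeff`, `dH_mul`, `coeff_mul`). `h Φ = P Q` with `h ≠ 0`; `¬ DvM P Q` by `h3`. `xi (C h * Φ) = C (A dH h) * Φ + C h * xi Φ` is `DvM P`, and equals `xi P * Q + P * xi Q`, so `DvM P (xi P * Q)`, `DvM P (xi P)`: `C c * xi P = P * W`, `c ≠ 0`. The degree of `xi P` in every variable is at most the degree of `P`, so `W` is a constant `C l` (`d1_H t0 ρ` is a domain: `degreeOf_mul_eq` or the supports; if `xi P = 0` take `l = 0`). Compare the coefficients. -/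
theorem xi_const {t0 : ℂ} {ρ : ℝ} (hρ : 0 < ρ) {k : ℕ} {A : d1_H t0 ρ} {B : Fin k → d1_H t0 ρ}
    {P Φ : MvPolynomial (Fin k) (d1_H t0 ρ)} (hP : PrM P) (h1 : DvM P Φ) (h2 : DvM P (xi A B Φ))
    (h3 : ¬ DvM (P ^ 2) Φ) :
    ∃ c l : d1_H t0 ρ, c ≠ 0 ∧ ∀ α, c * (A * dH (P.coeff α) + (∑ j, (α j : d1_H t0 ρ) * B j) * P.coeff α) =
      l * P.coeff α := by
  classical
  have := k9x1a_dom (t0 := t0) hρ
  obtain ⟨h, Q, hh, hQ⟩ := h1
  obtain ⟨g, V, hg, hV⟩ := h2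
  have hnQ : ¬ DvM P Q := by
    rintro ⟨f, W, hf, hW⟩
    refine h3 ⟨f * h, W, mul_ne_zero hf hh, ?_⟩
    rw [MvPolynomial.C_mul, mul_assoc, hQ]
    linear_combination P * hW
  have hxi : DvM P (xi A B P * Q) := by
    refine ⟨h * g, MvPolynomial.C g * MvPolynomial.C (A * dH h) * Q + MvPolynomial.C h * MvPolynomial.C h * V -
      MvPolynomial.C h * MvPolynomial.C g * xi A B Q, mul_ne_zero hh hg, ?_⟩
    have e1 : xi A B (MvPolynomial.C h * Φ) = xi A B (P * Q) := by rw [hQ]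
    rw [k9x1a_leib, k9x1a_leib, k9x1a_xiC] at e1
    rw [MvPolynomial.C_mul (a := h) (a' := g)]
    linear_combination (-(MvPolynomial.C h * MvPolynomial.C g)) * e1 + MvPolynomial.C g * MvPolynomial.C (A * dH h) * hQ +
      MvPolynomial.C h * MvPolynomial.C h * hV
  obtain ⟨c, W, hc, hW⟩ := (hP.2.2 _ _ hxi).resolve_right hnQ
  have hdeg : (MvPolynomial.C c * xi A B P).totalDegree ≤ P.totalDegree := by
    refine MvPolynomial.totalDegree_le_of_support_subset fun α hα => ?_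
    rw [MvPolynomial.mem_support_iff] at hα ⊢
    intro h0
    apply hα
    rw [MvPolynomial.coeff_C_mul, xi_coeff, h0, dH_zero, mul_zero, mul_zero, add_zero, mul_zero]
  have hWc : ∃ l, W = MvPolynomial.C l := by
    by_cases hW0 : W = 0
    · exact ⟨0, by rw [hW0, MvPolynomial.C_0]⟩
    · have h4 := MvPolynomial.totalDegree_mul_of_isDomain hP.1 hW0
      rw [hW, h4] at hdeg
      exact ⟨_, MvPolynomial.totalDegree_eq_zero_iff_eq_C.1 (by omega)⟩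
  obtain ⟨l, rfl⟩ := hWc
  refine ⟨c, l, hc, fun α => ?_⟩
  have h5 := congrArg (MvPolynomial.coeff α) hW
  rw [mul_comm P, MvPolynomial.coeff_C_mul, MvPolynomial.coeff_C_mul, xi_coeff] at h5
  exact h5

variable {k m : ℕ} [NeZero m] {S : Sk k m} {U : Ultrafilter ℕ} {u' : Fin m → ℝ}
  {y1 : Fin m → ℂ} {ρ0 ρ : ℝ} {η ℓ : Fin m → ℂ → ℂ} {χ : ℂ → ℂ}

/-- the part of weight `c` -/
noncomputable def k9x1bc_part {t0 : ℂ} {ρ : ℝ} (e : Fin k → ℤ) (c : ℤ) (Q : MvPolynomial (Fin k) (d1_H t0 ρ)) :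
    MvPolynomial (Fin k) (d1_H t0 ρ) :=
  ∑ α ∈ Q.support.filter (fun α => ∑ j, e j * (α j : ℤ) = c), MvPolynomial.monomial α (Q.coeff α)

theorem k9x1bc_part_coeff {t0 : ℂ} {ρ : ℝ} (e : Fin k → ℤ) (c : ℤ) (Q : MvPolynomial (Fin k) (d1_H t0 ρ))
    (α : Fin k →₀ ℕ) :
    (k9x1bc_part e c Q).coeff α = if ∑ j, e j * (α j : ℤ) = c then Q.coeff α else 0 := by
  classical
  unfold k9x1bc_part
  rw [MvPolynomial.coeff_sum]
  simp only [MvPolynomial.coeff_monomial]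
  rw [Finset.sum_ite_eq']
  by_cases h1 : ∑ j, e j * (α j : ℤ) = c
  · rw [if_pos h1]
    split_ifs with h
    · rfl
    · rw [Finset.mem_filter, not_and_or] at h
      rcases h with h | h
      · exact (MvPolynomial.notMem_support_iff.1 h).symm
      · exact absurd h1 h
  · have h2 : ¬ α ∈ Q.support.filter (fun α => ∑ j, e j * (α j : ℤ) = c) := fun h => h1 (Finset.mem_filter.1 h).2
    rw [if_neg h1, if_neg h2]

theorem k9x1bc_part_mul {t0 : ℂ} {ρ : ℝ} (e : Fin k → ℤ) (c c0 : ℤ) (P W : MvPolynomial (Fin k) (d1_H t0 ρ))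
    (hP : ∀ α ∈ P.support, ∑ j, e j * (α j : ℤ) = c0) :
    k9x1bc_part e c (P * W) = P * k9x1bc_part e (c - c0) W := by
  classical
  refine MvPolynomial.ext _ _ fun α => ?_
  rw [k9x1bc_part_coeff, MvPolynomial.coeff_mul, MvPolynomial.coeff_mul]
  have h1 : ∀ p ∈ Finset.HasAntidiagonal.antidiagonal α, P.coeff p.1 * (k9x1bc_part e (c - c0) W).coeff p.2 =
      if ∑ j, e j * (α j : ℤ) = c then P.coeff p.1 * W.coeff p.2 else 0 := by
    intro p hp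
    rw [k9x1bc_part_coeff]
    by_cases h0 : P.coeff p.1 = 0
    · rw [h0, zero_mul, zero_mul, ite_self]
    · have h2 := hP p.1 (MvPolynomial.mem_support_iff.2 h0)
      have h3 : ∑ j, e j * (α j : ℤ) = ∑ j, e j * (p.1 j : ℤ) + ∑ j, e j * (p.2 j : ℤ) := by
        rw [← Finset.sum_add_distrib]
        refine Finset.sum_congr rfl fun j _ => ?_
        rw [← Finset.HasAntidiagonal.mem_antidiagonal.1 hp, Finsupp.add_apply, Nat.cast_add, mul_add]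
      rw [h2] at h3
      by_cases h4 : ∑ j, e j * (α j : ℤ) = c
      · rw [if_pos h4, if_pos (by omega)]
      · rw [if_neg h4, if_neg (by omega), mul_zero]
  rw [Finset.sum_congr rfl h1]
  split_ifs
  · rfl
  · rw [Finset.sum_const_zero]

theorem k9x1bc_Phi_coeff (α : Fin k →₀ ℕ) :
    (PhiH S (y1 0) ρ η).coeff α = if α ∈ S.Φ.support then mkH (y1 0) ρ (aF S η α) else 0 := by
  classical
  unfold PhiH
  rw [MvPolynomial.coeff_sum]
  simp only [MvPolynomial.coeff_monomial]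
  rw [Finset.sum_ite_eq']

theorem k9x1bc_part_Phi (e : Fin k → ℤ) (c : ℤ) (h : d1_H (y1 0) ρ) :
    k9x1bc_part e c (MvPolynomial.C h * PhiH S (y1 0) ρ η) =
      MvPolynomial.C h * ∑ α ∈ lev S.Φ e c, MvPolynomial.monomial α (mkH (y1 0) ρ (aF S η α)) := by
  classical
  refine MvPolynomial.ext _ _ fun α => ?_
  rw [k9x1bc_part_coeff, MvPolynomial.coeff_C_mul, MvPolynomial.coeff_C_mul, k9x1bc_Phi_coeff, MvPolynomial.coeff_sum]
  simp only [MvPolynomial.coeff_monomial]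
  rw [Finset.sum_ite_eq']
  unfold lev
  by_cases h1 : ∑ j, e j * (α j : ℤ) = c
  · rw [if_pos h1]
    by_cases h2 : α ∈ S.Φ.support
    · rw [if_pos h2, if_pos (Finset.mem_filter.2 ⟨h2, h1⟩)]
    · rw [if_neg h2, if_neg (fun h3 => h2 (Finset.mem_filter.1 h3).1)]
  · have h2 : ¬ α ∈ S.Φ.support.filter (fun α => ∑ j, e j * (α j : ℤ) = c) := fun h => h1 (Finset.mem_filter.1 h).2
    rw [if_neg h1, if_neg h2, mul_zero]

/-- A neighbourhood of `y1` in which `h` does not vanish (off `y1`) and the points of the curve are on the chart. -/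
theorem k9x1bc_nbhd (hL : Loc S u' y1 ρ0 ρ η ℓ χ) {h : d1_H (y1 0) ρ} (hh : h ≠ 0) :
    ∃ O ∈ 𝓝 y1, ∀ y ∈ O, y ∈ S.C → y 0 ≠ y1 0 → y 0 ∈ Metric.ball (y1 0) ρ ∧ (∀ i, y i = η i (y 0)) ∧
      fnH h (y 0) ≠ 0 := by
  obtain ⟨O1, hO1, hO1b, hO1n⟩ := fnH_ne hh (Metric.mem_ball_self hL.pos)
  have h0 : Tendsto (fun y : Fin m → ℂ => y 0) (𝓝 y1) (𝓝 (y1 0)) := (continuous_apply 0).tendsto y1
  refine ⟨_, Filter.inter_mem (h0 hO1) hL.ch.uniq, fun y hy hyC hne => ?_⟩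
  obtain ⟨hy1, hy2⟩ := hy
  exact ⟨hO1b hy1, (hy2 hyC).2, hO1n _ hy1 hne⟩

/-- Row Z9-X1b. PROOF. Suppose `∑_j e_j α_j = c0` for all `α ∈ P.support`. `h Φ = P W`, `h ≠ 0`. For every `c` the part of `C h * PhiH` of the exponents with `∑ e_j α_j = c` is `P * W_c`, `W_c` = the part of `W` with `∑ e_j α_j = c - c0`. Choose `c` with `(lev S.Φ e c).Nonempty` (`S.full`). Near `y1` (off `y 0 = y1 0`) `h` has no zeros (`fnH_ne`) and the points of `C` are on the chart (`hL.ch.uniq`), so at the points of `hbad` `P = 0` implies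
`h (t) * ∑_{α ∈ lev S.Φ e c} Φ_α (y) x^α = 0`, contradiction with `Z.lev0`. -/
theorem supp_span (Z : Sq S U) (hL : Loc S u' y1 ρ0 ρ η ℓ χ) {P : MvPolynomial (Fin k) (d1_H (y1 0) ρ)} (hP : P ≠ 0)
    (h1 : DvM P (PhiH S (y1 0) ρ η))
    (hbad : ∀ O ∈ 𝓝 y1, ∀ᶠ n in (U : Filter ℕ), ∃ σ, Z.y n σ ∈ O ∧ Z.y n σ 0 ≠ y1 0 ∧
      evH P (Z.x n σ) (Z.y n σ 0) = 0) :
    ∀ e : Fin k → ℤ, e ≠ 0 → ∃ α ∈ P.support, ∃ β ∈ P.support, ∑ j, e j * (α j : ℤ) ≠ ∑ j, e j * (β j : ℤ) := by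
  classical
  intro e he
  by_contra hno
  push Not at hno
  obtain ⟨α0, hα0⟩ := MvPolynomial.support_nonempty.2 hP
  obtain ⟨h, W, hh, hW⟩ := h1
  obtain ⟨O, hO, hOp⟩ := k9x1bc_nbhd hL hh
  obtain ⟨α1, hα1, _⟩ := S.full e he
  set c : ℤ := ∑ j, e j * (α1 j : ℤ) with hc
  have hlev : (lev S.Φ e c).Nonempty := ⟨α1, Finset.mem_filter.2 ⟨hα1, rfl⟩⟩
  obtain ⟨n, σ, hσ1, hσ2, hσ3⟩ := (hbad O hO).exists
  obtain ⟨hb, hη, hne⟩ := hOp _ hσ1 (Z.hy n σ) hσ2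
  refine Z.lev0 n σ e c he hlev ?_
  have e1 := k9x1bc_part_Phi (S := S) (η := η) e c h
  rw [hW, k9x1bc_part_mul e c (∑ j, e j * (α0 j : ℤ)) P W (fun α hα => hno α hα α0 hα0)] at e1
  have e2 := congrArg (fun Q => evH Q (Z.x n σ) (Z.y n σ 0)) e1
  simp only [evH_mul _ _ _ hb, hσ3, zero_mul, evH_C _ _ hb, evH_sum _ _ _ hb, evH_monomial _ _ _ hb] at e2
  have e3 := (mul_eq_zero.1 e2.symm).resolve_left hne
  rw [← e3]
  refine Finset.sum_congr rfl fun α _ => ?_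
  rw [fnH_mk ((hL.aF_diff α).mono (Metric.ball_subset_ball hL.le)) hb]
  unfold aF
  rw [show (fun i => η i (Z.y n σ 0)) = Z.y n σ from funext fun i => (hη i).symm]

theorem k9x1bc_map (hL : Loc S u' y1 ρ0 ρ η ℓ χ) {t : ℂ} (ht : t ∈ Metric.ball (y1 0) ρ) :
    MvPolynomial.map (d1_ev ⟨t, ht⟩) (PhiH S (y1 0) ρ η) = sp S.Φ (fun i => η i t) := by
  classical
  refine MvPolynomial.ext _ _ fun α => ?_
  unfold sp
  rw [MvPolynomial.coeff_map, MvPolynomial.coeff_map, k9x1bc_Phi_coeff]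
  split_ifs with h
  · rw [← fnH_of _ ht, fnH_mk ((hL.aF_diff α).mono (Metric.ball_subset_ball hL.le)) ht]
    rfl
  · rw [map_zero, MvPolynomial.notMem_support_iff.1 h, map_zero]

/-- Row Z9-X1c. PROOF. If `h Φ = P^2 W` then `pderiv j0` of it: `C h * pderiv j0 Φ = 2 P (pderiv j0 P) W + P^2 pderiv j0 W` vanishes at the points of `hbad` (near `y1`, `h ≠ 0` there), and `evH (pderiv j0 PhiH) x t = evk (pderiv j0 S.Φ) x (η t)`: contradiction with `Z.hsm`. -/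
theorem not_sq (Z : Sq S U) (hL : Loc S u' y1 ρ0 ρ η ℓ χ) {P : MvPolynomial (Fin k) (d1_H (y1 0) ρ)}
    (hbad : ∀ O ∈ 𝓝 y1, ∀ᶠ n in (U : Filter ℕ), ∃ σ, Z.y n σ ∈ O ∧ Z.y n σ 0 ≠ y1 0 ∧
      evH P (Z.x n σ) (Z.y n σ 0) = 0) : ¬ DvM (P ^ 2) (PhiH S (y1 0) ρ η) := by
  rintro ⟨h, W, hh, hW⟩
  obtain ⟨O, hO, hOp⟩ := k9x1bc_nbhd hL hh
  obtain ⟨n, σ, hσ1, hσ2, hσ3⟩ := (hbad O hO).exists
  obtain ⟨hb, hη, hne⟩ := hOp _ hσ1 (Z.hy n σ) hσ2
  refine Z.hsm n σ ?_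
  have e1 := congrArg (MvPolynomial.pderiv S.j0) hW
  rw [Derivation.leibniz, Derivation.leibniz, MvPolynomial.pderiv_C, smul_zero, add_zero, pow_two, Derivation.leibniz] at e1
  simp only [smul_eq_mul] at e1
  have e2 := congrArg (fun Q => evH Q (Z.x n σ) (Z.y n σ 0)) e1
  simp only [evH_mul _ _ _ hb, evH_add _ _ _ hb, hσ3, zero_mul, mul_zero, add_zero, evH_C _ _ hb] at e2
  have e3 := (mul_eq_zero.1 e2).resolve_left hne
  rw [evH_of _ _ hb, ← MvPolynomial.eval_map, ← MvPolynomial.pderiv_map, k9x1bc_map hL hb,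
    show (fun i => η i (Z.y n σ 0)) = Z.y n σ from funext fun i => (hη i).symm] at e3
  unfold sp at e3
  rw [MvPolynomial.pderiv_map] at e3
  exact e3

end Pool.Agent.Z9
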