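import Pool.Agent.Z9.W0

namespace Pool.Agent.Z9

open Pool.Agent.ZL2 Filter Topology
open Pool.Agent.Z5 (fr Gen ev2 Alg d1_H d1_mk d1_ev d1_ev_mk d1_ext)
open Pool.Agent.Z6 (dt w6_L)
open Pool.Agent.Z7 (lg Cv HHp Chart)
open Pool.Agent.Z8 (sp evk rwk lev)

section

open Polynomial

theorem k9x2a_one {R0 L : Type} [CommRing R0] [IsDomain R0] [Field L] [Algebra R0 L]
    {p φ : Polynomial L} (hφ : φ ≠ 0)
    (ha : ∀ i, IsAlgebraic R0 (φ.coeff i)) (hd : p ∣ φ) (a b : ℕ) :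
    IsAlgebraic R0 (p.coeff a / p.coeff b) := by
  have hp : p ≠ 0 := fun h => hφ (by rw [h] at hd; exact zero_dvd_iff.1 hd)
  set K := Subalgebra.algebraicClosure R0 L with hK
  have hcφ : φ.leadingCoeff ≠ 0 := leadingCoeff_ne_zero.2 hφ
  have hcp : p.leadingCoeff ≠ 0 := leadingCoeff_ne_zero.2 hp
  set φ1 : Polynomial L := C (φ.leadingCoeff)⁻¹ * φ with hφ1
  set q : Polynomial L := C (p.leadingCoeff)⁻¹ * p with hq
  have m1 : φ1.Monic := by
    rw [Monic, hφ1, leadingCoeff_mul, leadingCoeff_C, inv_mul_cancel₀ hcφ]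
  have m2 : q.Monic := by
    rw [Monic, hq, leadingCoeff_mul, leadingCoeff_C, inv_mul_cancel₀ hcp]
  have hdq : q ∣ φ1 := by
    obtain ⟨w, hw⟩ := hd
    refine ⟨C (p.leadingCoeff) * C (φ.leadingCoeff)⁻¹ * w, ?_⟩
    have h1 : (C (p.leadingCoeff)⁻¹ : Polynomial L) * C (p.leadingCoeff) = 1 := by
      rw [← C_mul, inv_mul_cancel₀ hcp, C_1]
    rw [hφ1, hq, hw]
    linear_combination (-(C (p * w).leadingCoeff⁻¹ * p * w)) * h1
  have hl : φ1 ∈ lifts (algebraMap K L) := by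
    rw [lifts_iff_coeff_lifts]
    intro n
    have : IsAlgebraic R0 (φ1.coeff n) := by
      rw [hφ1, coeff_C_mul]
      exact ((ha _).inv).mul (ha n)
    exact ⟨⟨_, this⟩, rfl⟩
  obtain ⟨φ2, e1, -, e3⟩ := lifts_and_degree_eq_and_monic hl m1
  have hi : ∀ i, IsAlgebraic R0 (q.coeff i) := by
    intro i
    have h1 := isIntegral_coeff_of_dvd φ2 q e3 m2 (by rw [e1]; exact hdq) i
    exact h1.isAlgebraic.restrictScalars R0
  have h2 : p.coeff a / p.coeff b = q.coeff a / q.coeff b := by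
    rw [hq, coeff_C_mul, coeff_C_mul, mul_div_mul_left _ _ (inv_ne_zero hcp)]
  rw [h2, div_eq_mul_inv]
  exact (hi a).mul (hi b).inv

theorem k9x2a_inj {k N : ℕ} {f g : Fin k → ℕ} (hf : ∀ i, f i < N) (hg : ∀ i, g i < N)
    (h : ∑ i, f i * N ^ (i : ℕ) = ∑ i, g i * N ^ (i : ℕ)) : f = g := by
  have h1 : finFunctionFinEquiv (fun i => (⟨f i, hf i⟩ : Fin N)) =
      finFunctionFinEquiv (fun i => (⟨g i, hg i⟩ : Fin N)) := by
    apply Fin.ext
    rw [finFunctionFinEquiv_apply, finFunctionFinEquiv_apply]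
    exact h
  have h2 := finFunctionFinEquiv.injective h1
  funext i
  have := congrFun h2 i
  simpa using this

theorem k9x2a_sum {L : Type} [Field L] {k : ℕ} (N : ℕ) (P : MvPolynomial (Fin k) L) (n : ℕ) :
    (MvPolynomial.aeval (fun j : Fin k => (X : L[X]) ^ (N ^ (j : ℕ))) P).coeff n =
      ∑ α ∈ P.support, if n = ∑ i, α i * N ^ (i : ℕ) then P.coeff α else 0 := by
  rw [MvPolynomial.aeval_eq_eval₂Hom, MvPolynomial.coe_eval₂Hom, MvPolynomial.eval₂_eq,
    finsetSum_coeff]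
  refine Finset.sum_congr rfl fun α hα => ?_
  have h1 : (∏ i ∈ α.support, ((X : L[X]) ^ (N ^ (i : ℕ))) ^ α i) =
      X ^ (∑ i, α i * N ^ (i : ℕ)) := by
    rw [← Finset.prod_pow_eq_pow_sum]
    rw [Finset.prod_subset (Finset.subset_univ _)]
    · refine Finset.prod_congr rfl fun i _ => ?_
      rw [← pow_mul, mul_comm]
    · intro i _ hi
      rw [Finsupp.notMem_support_iff.1 hi, pow_zero]
  rw [h1, ← C_eq_algebraMap, coeff_C_mul, coeff_X_pow]
  simp

theorem k9x2a_coeff {L : Type} [Field L] {k : ℕ} (N : ℕ) (P : MvPolynomial (Fin k) L)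
    (hN : ∀ α ∈ P.support, ∀ i, α i < N) (β : Fin k →₀ ℕ) (hβ : ∀ i, β i < N) :
    (MvPolynomial.aeval (fun j : Fin k => (X : L[X]) ^ (N ^ (j : ℕ))) P).coeff
      (∑ i, β i * N ^ (i : ℕ)) = P.coeff β := by
  rw [k9x2a_sum]
  have h1 : ∀ α ∈ P.support, (if ∑ i, β i * N ^ (i : ℕ) = ∑ i, α i * N ^ (i : ℕ) then
      P.coeff α else 0) = if β = α then P.coeff α else 0 := by
    intro α hα
    by_cases h : β = α
    · rw [if_pos h, if_pos (by rw [h])]
    · rw [if_neg h, if_neg]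
      intro h2
      exact h (DFunLike.coe_injective (k9x2a_inj hβ (hN α hα) h2))
  rw [Finset.sum_congr rfl h1, Finset.sum_ite_eq]
  split_ifs with h
  · rfl
  · exact (MvPolynomial.notMem_support_iff.1 h).symm

end

/-- Row Z9-X2a. The quotients of the coefficients of a divisor are algebraic. PROOF (Kronecker). Choose `N` larger than all exponents of `P`, `Φ` and the substitution `x_j ↦ X^(N^j)` (`j : Fin k`): it is injective on the exponents `< N`, so `P` and `Φ` go to `p ∣ φ` in `L[X]`, `φ ≠ 0`, and their coefficients are the coefficients of `P`, `Φ`. In the algebraic closure of `L`: the roots of `p` are roots of `φ`, so algebraic over `R0` (its coefficients are: `IsAlgebraic` is transitive, e.g. with `algebraicClosure`/`Subalgebra.algebraicClosure`);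
`p = c ∏ (X - r_i)`, so the coefficients of `p / c` are algebraic over `R0` (`IsAlgebraic.mul`, `.add`, `.neg`, products of `X - C r_i`), and the quotients of two coefficients too. -/
theorem kron {R0 L : Type} [CommRing R0] [IsDomain R0] [Field L] [Algebra R0 L]
    (hinj : Function.Injective (algebraMap R0 L)) {k : ℕ} {P Φ : MvPolynomial (Fin k) L} (hΦ : Φ ≠ 0)
    (ha : ∀ α, IsAlgebraic R0 (Φ.coeff α)) (hd : P ∣ Φ) {α β : Fin k →₀ ℕ} (hβ : P.coeff β ≠ 0) :
    IsAlgebraic R0 (P.coeff α / P.coeff β) := by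
  classical
  set S : Finset (Fin k →₀ ℕ) := P.support ∪ Φ.support ∪ {α, β} with hS
  set N : ℕ := S.sup (fun γ => Finset.univ.sup fun i => γ i) + 1 with hN
  have hSN : ∀ γ ∈ S, ∀ i, γ i < N := by
    intro γ hγ i
    have h1 : (Finset.univ.sup fun i => γ i) ≤ S.sup (fun γ => Finset.univ.sup fun i => γ i) :=
      Finset.le_sup (f := fun γ : Fin k →₀ ℕ => Finset.univ.sup fun i => γ i) hγ
    have h2 : γ i ≤ Finset.univ.sup fun i => γ i :=
      Finset.le_sup (f := fun i => γ i) (Finset.mem_univ i)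
    omega
  have hP : ∀ γ ∈ P.support, ∀ i, γ i < N := fun γ hγ => hSN γ (by simp [hS, hγ])
  have hF : ∀ γ ∈ Φ.support, ∀ i, γ i < N := fun γ hγ => hSN γ (by simp [hS, hγ])
  have hα' : ∀ i, α i < N := hSN α (by simp [hS])
  have hβ' : ∀ i, β i < N := hSN β (by simp [hS])
  set σ : MvPolynomial (Fin k) L →ₐ[L] Polynomial L :=
    MvPolynomial.aeval (fun j : Fin k => (Polynomial.X : Polynomial L) ^ (N ^ (j : ℕ))) with hσ
  have h0 : σ Φ ≠ 0 := by
    intro h
    obtain ⟨γ, hγ⟩ := MvPolynomial.ne_zero_iff.1 hΦ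
    refine hγ ?_
    rw [← k9x2a_coeff N Φ hF γ (hF γ (MvPolynomial.mem_support_iff.2 hγ)), ← hσ, h,
      Polynomial.coeff_zero]
  have h1 : ∀ n, IsAlgebraic R0 ((σ Φ).coeff n) := by
    intro n
    rw [hσ, k9x2a_sum]
    have : ∀ s : Finset (Fin k →₀ ℕ), IsAlgebraic R0
        (∑ γ ∈ s, if n = ∑ i, γ i * N ^ (i : ℕ) then Φ.coeff γ else 0) := by
      intro s
      exact sum_mem (S := Subalgebra.algebraicClosure R0 L) fun γ _ => by
        split_ifs
        · exact ha γ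
        · exact zero_mem _
    exact this _
  have h2 := k9x2a_one h0 h1 (map_dvd σ hd) (∑ i, α i * N ^ (i : ℕ)) (∑ i, β i * N ^ (i : ℕ))
  rwa [hσ, k9x2a_coeff N P hP α hα', k9x2a_coeff N P hP β hβ'] at h2

variable {k m : ℕ} [NeZero m] {S : Sk k m} {u' : Fin m → ℝ}
  {y1 : Fin m → ℂ} {ρ0 ρ : ℝ} {η ℓ : Fin m → ℂ → ℂ} {χ : ℂ → ℂ}

theorem k9x2b_dom {t0 : ℂ} {ρ : ℝ} (hρ : 0 < ρ) : IsDomain (d1_H t0 ρ) := by
  have : Nontrivial (d1_H t0 ρ) := by
    refine ⟨0, 1, fun h => ?_⟩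
    have := congrArg (d1_ev ⟨t0, Metric.mem_ball_self hρ⟩) h
    rw [map_zero, map_one] at this
    exact zero_ne_one this
  exact NoZeroDivisors.to_isDomain _

attribute [local instance] Pool.Agent.Z5.d1_alg

theorem k9x2b_inj {t0 : ℂ} {ρ : ℝ} (hρ : 0 < ρ) :
    Function.Injective (algebraMap (Polynomial ℂ) (d1_H t0 ρ)) := by
  rw [injective_iff_map_eq_zero]
  intro p hp
  refine Polynomial.eq_zero_of_infinite_isRoot p (Set.Infinite.mono ?_ (infinite_of_mem_nhds t0 (Metric.ball_mem_nhds t0 hρ)))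
  intro t ht
  have h1 := congrArg (fun φ : Polynomial ℂ →+* ℂ => φ p) (Pool.Agent.Z5.d1_ev_alg ⟨t, ht⟩)
  simp only [RingHom.comp_apply, hp, map_zero, Polynomial.coe_evalRingHom] at h1
  exact h1.symm

theorem k9x2b_clear {K : Type*} [Field K] (N : ℕ) (g : ℕ → K) (a b : K) (hb : b ≠ 0) :
    b ^ N * ∑ i ∈ Finset.range (N + 1), g i * (a / b) ^ i = ∑ i ∈ Finset.range (N + 1), g i * a ^ i * b ^ (N - i) := by
  rw [Finset.mul_sum]
  refine Finset.sum_congr rfl fun i hi => ?_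
  have h1 : i ≤ N := Nat.lt_succ_iff.1 (Finset.mem_range.1 hi)
  rw [div_pow, ← Nat.sub_add_cancel h1, pow_add, Nat.add_sub_cancel]
  field_simp

theorem k9x2b_alg (hL : Loc S u' y1 ρ0 ρ η ℓ χ) (p : MvPolynomial (Fin m) ℂ) :
    Alg (y1 0) ρ (fun t => MvPolynomial.eval (fun i => η i t) p) := by
  induction p using MvPolynomial.induction_on with
  | C a =>
    simp only [MvPolynomial.eval_C]
    exact Pool.Agent.Z5.Alg.const hL.pos a
  | add p q hp hq =>
    simp only [map_add]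
    exact hp.add hL.pos hq
  | mul_X p i hp =>
    simp only [map_mul, MvPolynomial.eval_X]
    refine hp.mul hL.pos ⟨(hL.ch.diff i).mono (Metric.ball_subset_ball hL.le), S.q i, S.hq0 i, fun t ht => ?_⟩
    exact hL.ch.eq i t (Metric.ball_subset_ball hL.le ht)

/-- Row Z9-X2b. PROOF. The functions `η i` are algebraic (`Chart.eq`, `Cv.hq0`: `Alg` in Z5/D1.lean), so the coefficients of `PhiH` are algebraic over `ℂ[X]` (`d1_alg`, `d1_alg_of`; sums and products of algebraic elements). `L = FractionRing (d1_H (y1 0) ρ)`, `R0 = ℂ[X]` (with the algebra structure through `d1_alg`, injective: a polynomial which vanishes on a ball is zero). `DvM` gives the divisibility in `L[x]`. `kron`: `P_α / P_β` is a root of a nonzero `G ∈ ℂ[X][X]`;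
multiply by a power of `P_β` and evaluate at `t` (`d1_ev`), where `fnH (P.coeff β) t ≠ 0`. -/
theorem ratio_alg (hL : Loc S u' y1 ρ0 ρ η ℓ χ) (hk : 1 ≤ k) {P : MvPolynomial (Fin k) (d1_H (y1 0) ρ)}
    (h1 : DvM P (PhiH S (y1 0) ρ η)) {α β : Fin k →₀ ℕ} (hβ : P.coeff β ≠ 0) :
    ∃ G : Polynomial (Polynomial ℂ), G ≠ 0 ∧ ∀ t ∈ Metric.ball (y1 0) ρ, fnH (P.coeff β) t ≠ 0 →
      ev2 G t (fnH (P.coeff α) t / fnH (P.coeff β) t) = 0 := by
  classical
  have hdom := k9x2b_dom (t0 := y1 0) hL.pos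
  set φ := algebraMap (d1_H (y1 0) ρ) (FractionRing (d1_H (y1 0) ρ)) with hφ
  have hφi : Function.Injective φ := IsFractionRing.injective (d1_H (y1 0) ρ) (FractionRing (d1_H (y1 0) ρ))
  have hinj : Function.Injective (algebraMap (Polynomial ℂ) (FractionRing (d1_H (y1 0) ρ))) := by
    rw [IsScalarTower.algebraMap_eq (Polynomial ℂ) (d1_H (y1 0) ρ) (FractionRing (d1_H (y1 0) ρ))]
    exact hφi.comp (k9x2b_inj hL.pos)
  obtain ⟨h, W, hh, hW⟩ := h1
  have hΦ : MvPolynomial.map φ (PhiH S (y1 0) ρ η) ≠ 0 := by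
    intro h0
    exact hL.PhiH_ne hk (MvPolynomial.map_injective φ hφi (by rw [h0, map_zero]))
  have ha : ∀ γ, IsAlgebraic (Polynomial ℂ) ((MvPolynomial.map φ (PhiH S (y1 0) ρ η)).coeff γ) := by
    intro γ
    rw [MvPolynomial.coeff_map]
    refine IsAlgebraic.algebraMap ?_
    unfold PhiH
    rw [MvPolynomial.coeff_sum]
    simp only [MvPolynomial.coeff_monomial]
    rw [Finset.sum_ite_eq']
    split_ifs
    · have hal := k9x2b_alg hL (S.Φ.coeff γ)
      have e1 : mkH (y1 0) ρ (aF S η γ) = d1_mk _ hal.1 := by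
        unfold mkH
        exact dif_pos hal.1
      rw [e1]
      exact Pool.Agent.Z5.d1_alg_of hal
    · exact isAlgebraic_zero
  have hd : MvPolynomial.map φ P ∣ MvPolynomial.map φ (PhiH S (y1 0) ρ η) := by
    have hφh : φ h ≠ 0 := fun h0 => hh (hφi (by rw [h0, map_zero]))
    refine ⟨MvPolynomial.C (φ h)⁻¹ * MvPolynomial.map φ W, ?_⟩
    have e1 := congrArg (MvPolynomial.map φ) hW
    rw [map_mul, map_mul, MvPolynomial.map_C] at e1
    have e2 : (MvPolynomial.C (φ h)⁻¹ * MvPolynomial.C (φ h) : MvPolynomial (Fin k) (FractionRing (d1_H (y1 0) ρ))) = 1 := by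
      rw [← MvPolynomial.C_mul, inv_mul_cancel₀ hφh, MvPolynomial.C_1]
    linear_combination (MvPolynomial.C (φ h)⁻¹) * e1 - MvPolynomial.map φ (PhiH S (y1 0) ρ η) * e2
  have hb : φ (P.coeff β) ≠ 0 := fun h0 => hβ (hφi (by rw [h0, map_zero]))
  have hkr := kron (α := α) (β := β) hinj hΦ ha hd (by rw [MvPolynomial.coeff_map]; exact hb)
  rw [MvPolynomial.coeff_map, MvPolynomial.coeff_map] at hkr
  obtain ⟨G, hG, hG0⟩ := hkr
  refine ⟨G, hG, fun t ht hbt => ?_⟩
  rw [Polynomial.aeval_eq_sum_range] at hG0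
  simp only [Algebra.smul_def] at hG0
  have e1 := k9x2b_clear G.natDegree (fun i => algebraMap (Polynomial ℂ) (FractionRing (d1_H (y1 0) ρ)) (G.coeff i))
    (φ (P.coeff α)) (φ (P.coeff β)) hb
  rw [hG0, mul_zero] at e1
  have e2 : φ (∑ i ∈ Finset.range (G.natDegree + 1), algebraMap (Polynomial ℂ) (d1_H (y1 0) ρ) (G.coeff i) * P.coeff α ^ i *
      P.coeff β ^ (G.natDegree - i)) = 0 := by
    rw [map_sum, e1]
    refine Finset.sum_congr rfl fun i _ => ?_
    rw [map_mul, map_mul, map_pow, map_pow, IsScalarTower.algebraMap_apply (Polynomial ℂ) (d1_H (y1 0) ρ) (FractionRing (d1_H (y1 0) ρ))]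
  have e3 := hφi (e2.trans (map_zero φ).symm)
  have e4 := congrArg (d1_ev ⟨t, ht⟩) e3
  rw [map_sum, map_zero] at e4
  simp only [map_mul, map_pow] at e4
  simp only [← fnH_of _ ht] at e4
  have e5 : ∀ p : Polynomial ℂ, fnH (algebraMap (Polynomial ℂ) (d1_H (y1 0) ρ) p) t = p.eval t := by
    intro p
    rw [fnH_of _ ht]
    exact congrArg (fun φ : Polynomial ℂ →+* ℂ => φ p) (Pool.Agent.Z5.d1_ev_alg ⟨t, ht⟩)
  simp only [e5] at e4
  rw [← k9x2b_clear G.natDegree (fun i => (G.coeff i).eval t) _ _ hbt] at e4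
  have e6 := (mul_eq_zero.1 e4).resolve_left (pow_ne_zero _ hbt)
  rw [Pool.Agent.Z5.d1_ev2, Polynomial.eval₂_eq_sum_range]
  exact e6

end Pool.Agent.Z9
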