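import Pool.Agent.Z9.W0
import Pool.Agent.Z7.S3

namespace Pool.Agent.Z9

open Pool.Agent.ZL2 Filter Topology
open Pool.Agent.Z5 (fr Gen ev2 Alg d1_H d1_mk d1_ev d1_ev_mk d1_ext)
open Pool.Agent.Z6 (dt w6_L)
open Pool.Agent.Z7 (lg Cv HHp Chart)
open Pool.Agent.Z8 (sp evk rwk lev)

variable {k m : ℕ} [NeZero m] {S : Sk k m} {u' : Fin m → ℝ}
  {y1 : Fin m → ℂ} {ρ0 ρ : ℝ} {η ℓ : Fin m → ℂ → ℂ} {χ : ℂ → ℂ}

/-- Points of the level curve near `y1`. -/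
theorem k9x3_pts (hL : Loc S u' y1 ρ0 ρ η ℓ χ) {O : Set (Fin m → ℂ)} (hO : O ∈ 𝓝 y1) {V : Set ℂ}
    (hV : V ∈ 𝓝 (y1 0)) : ∃ y ∈ O, y ∈ S.C ∧ y 0 ∈ V ∧ y 0 ≠ y1 0 ∧ y 0 ∈ Metric.ball (y1 0) ρ ∧
      (∀ i, y i = η i (y 0)) ∧ dt u' (lg y) = 0 := by
  have h0 : Continuous fun y : Fin m → ℂ => y 0 := continuous_apply 0
  have h1 : {y : Fin m → ℂ | y 0 ∈ V ∩ Metric.ball (y1 0) ρ} ∈ 𝓝 y1 :=
    (h0.tendsto y1) (Filter.inter_mem hV (Metric.ball_mem_nhds _ hL.pos))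
  obtain ⟨y, hy, hyC, hy0, hyu⟩ := hL.acc _ (Filter.inter_mem (Filter.inter_mem hO h1) hL.ch.uniq)
  exact ⟨y, hy.1.1, hyC, hy.1.2.1, hy0, hy.1.2.2, (hy.2 hyC).2, hyu⟩

theorem k9x3_lg {y : Fin m → ℂ} (hy : ∀ i, y i = η i (y 0)) : (lg fun i => η i (y 0)) = lg y := by
  congr 1
  funext i
  exact (hy i).symm

/-- Row Z9-X3a. PROOF. If `lF w` is zero on a neighbourhood of `t1` it is zero on the ball (identity theorem), so by `lF_real` `dt w (lg y) = 0` at all `y ∈ C` near `y1` with `dt u' (lg y) = 0` (`hL.ch.uniq`), which accumulate at `y1` (`hL.acc`). If `w, u'` were linearly independent this would contradict `hH` (`HHp`). So `w = s • u'` (`u' ≠ 0` by `hu`). Compare `w6_indep`. -/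
theorem par_of_zero (hH : HHp S.toCv) (hL : Loc S u' y1 ρ0 ρ η ℓ χ) (hu : dt u' u' = 1) {w : Fin m → ℝ} {t1 : ℂ}
    (ht1 : t1 ∈ Metric.ball (y1 0) ρ) (hz : ∀ᶠ t in 𝓝 t1, lF w ℓ χ t = 0) : ∃ s : ℝ, ∀ i, w i = s * u' i := by
  have h1 : ∀ t ∈ Metric.ball (y1 0) ρ, lF w ℓ χ t = 0 := by
    intro t ht
    exact (((hL.lF_diff w).analyticOnNhd Metric.isOpen_ball).eqOn_zero_of_preconnected_of_eventuallyEq_zero
      (convex_ball _ _).isPreconnected ht1 hz) ht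
  have hu0 : u' ≠ 0 := by
    intro h
    rw [h, Pool.Agent.Z6.w6_dt_zero] at hu
    exact zero_ne_one hu
  have h2 : ¬ LinearIndependent ℝ ![u', w] := by
    intro hi
    obtain ⟨O, hO, hOy⟩ := hH u' w hi y1 hL.mem hL.nE
    obtain ⟨y, y2, y3, y4, y5, y6, y7, y8⟩ := k9x3_pts hL hO Filter.univ_mem
    apply y5
    rw [hOy y y2 y3 y8]
    have e1 := h1 _ y6
    rw [hL.lF_real w y6 (by rw [k9x3_lg y7]; exact y8), k9x3_lg y7] at e1
    exact_mod_cast e1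
  obtain ⟨s, hs⟩ := Pool.Agent.Z6.w6_indep hu0 h2
  exact ⟨s, fun i => by rw [hs]; rfl⟩


theorem k9x3_lF_add (w w' : Fin m → ℝ) (s : ℝ) (ℓ : Fin m → ℂ → ℂ) (χ : ℂ → ℂ) (t : ℂ) :
    lF (fun i => w i - s * w' i) ℓ χ t = lF w ℓ χ t - s * lF w' ℓ χ t := by
  unfold lF
  rw [Finset.mul_sum, ← Finset.sum_sub_distrib]
  refine Finset.sum_congr rfl fun i _ => ?_
  push_cast
  ring

theorem k9x3_dF_add (w w' : Fin m → ℝ) (s : ℝ) (η : Fin m → ℂ → ℂ) (t : ℂ) :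
    dF (fun i => w i - s * w' i) η t = dF w η t - s * dF w' η t := by
  unfold dF
  rw [Finset.mul_sum, ← Finset.sum_sub_distrib]
  refine Finset.sum_congr rfl fun i _ => ?_
  push_cast
  ring

/-- The reflection `t ↦ conj (χ t)` is an involution near `y1 0`. -/
theorem k9x3_inv (hL : Loc S u' y1 ρ0 ρ η ℓ χ) : ∃ r, 0 < r ∧ r ≤ ρ ∧ ∀ t ∈ Metric.ball (y1 0) r,
    (starRingEnd ℂ) (χ t) ∈ Metric.ball (y1 0) ρ ∧ (starRingEnd ℂ) (χ ((starRingEnd ℂ) (χ t))) = t := by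
  have h0 : (starRingEnd ℂ) (χ (y1 0)) = y1 0 := by
    refine hL.χr _ (Metric.mem_ball_self hL.pos) ?_
    have : (fun i => η i (y1 0)) = y1 := funext fun i => hL.ch.base i
    rw [this]
    exact hL.rel
  have hc : ContinuousAt (fun t => (starRingEnd ℂ) (χ t)) (y1 0) :=
    Complex.continuous_conj.continuousAt.comp
      (hL.χd.differentiableAt (Metric.ball_mem_nhds _ hL.pos)).continuousAt
  have hb : ∀ᶠ t in 𝓝 (y1 0), (starRingEnd ℂ) (χ t) ∈ Metric.ball (y1 0) ρ :=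
    hc.eventually_mem (by rw [h0]; exact Metric.ball_mem_nhds _ hL.pos)
  obtain ⟨r', hr', hsub⟩ := Metric.eventually_nhds_iff_ball.1 hb
  refine ⟨min r' ρ, lt_min hr' hL.pos, min_le_right _ _, ?_⟩
  have hs1 : Metric.ball (y1 0) (min r' ρ) ⊆ Metric.ball (y1 0) r' := Metric.ball_subset_ball (min_le_left _ _)
  have hs2 : Metric.ball (y1 0) (min r' ρ) ⊆ Metric.ball (y1 0) ρ := Metric.ball_subset_ball (min_le_right _ _)
  have hd : DifferentiableOn ℂ (fun t => (starRingEnd ℂ) (χ ((starRingEnd ℂ) (χ t))) - t)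
      (Metric.ball (y1 0) (min r' ρ)) := by
    intro t ht
    have e1 : HasDerivAt χ (deriv χ ((starRingEnd ℂ) (χ t))) ((starRingEnd ℂ) (χ t)) :=
      (hL.χd.differentiableAt (Metric.isOpen_ball.mem_nhds (hsub t (hs1 ht)))).hasDerivAt
    have e2 : HasDerivAt χ (deriv χ t) t :=
      (hL.χd.differentiableAt (Metric.isOpen_ball.mem_nhds (hs2 ht))).hasDerivAt
    have e3 := (Pool.Agent.Z5.hasDerivAt_conj_conj e1).comp t e2
    exact (e3.sub (hasDerivAt_id t)).differentiableAt.differentiableWithinAt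
  intro t ht
  refine ⟨hsub t (hs1 ht), ?_⟩
  refine sub_eq_zero.1 (Pool.Agent.Z5.w1_ident (lt_min hr' hL.pos) hd (fun O hO => ?_) t ht)
  obtain ⟨y, -, y3, y4, y5, y6, y7, y8⟩ := k9x3_pts hL (O := Set.univ) Filter.univ_mem hO
  refine ⟨y 0, y4, y5, ?_⟩
  have e1 := hL.χr _ y6 (by rw [k9x3_lg y7]; exact y8)
  simp only [e1, sub_self]

/-- Reality of the continuations. -/
theorem k9x3_conj (w : Fin m → ℝ) (ℓ : Fin m → ℂ → ℂ) (χ : ℂ → ℂ) {t : ℂ}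
    (h : (starRingEnd ℂ) (χ ((starRingEnd ℂ) (χ t))) = t) :
    (starRingEnd ℂ) (lF w ℓ χ ((starRingEnd ℂ) (χ t))) = lF w ℓ χ t := by
  unfold lF w6_L
  rw [h, map_sum]
  refine Finset.sum_congr rfl fun i _ => ?_
  rw [map_mul, Complex.conj_ofReal, map_div₀, map_add, Complex.conj_conj, map_ofNat]
  ring

/-- No monomial is constant on a small ball. -/
theorem k9x3_ind (hL : Loc S u' y1 ρ0 ρ η ℓ χ) {t2 : ℂ} {r : ℝ} (hr : 0 < r)
    (hb : t2 ∈ Metric.ball (y1 0) ρ) (w : Fin m → ℤ) (hw : w ≠ 0) :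
    ¬ ∃ z : ℂ, ∀ t ∈ Metric.ball t2 r, ∏ i, η i t ^ w i = z := by
  rintro ⟨z, hz⟩
  have hsub : Metric.ball (y1 0) ρ ⊆ Metric.ball (y1 0) ρ0 := Metric.ball_subset_ball hL.le
  have hd : DifferentiableOn ℂ (fun t => ∏ i, η i t ^ w i - z) (Metric.ball (y1 0) ρ) := by
    intro t ht
    have e1 := Pool.Agent.Z7.s3_prod_deriv η w (t := t)
      (fun i => (hL.ch.diff i).differentiableAt (Metric.isOpen_ball.mem_nhds (hsub ht)))
      (fun i => hL.ch.ne i t (hsub ht)) Finset.univ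
    exact (e1.sub_const z).differentiableAt.differentiableWithinAt
  have h0 := Pool.Agent.Z5.w1_ident2 hd hr hb fun t ht => sub_eq_zero.2 (hz t ht)
  have h1 := S.mon w hw z
  have h2 : {y | (y ∈ S.C ∧ ∏ i, y i ^ w i = z) ∧ y 0 ≠ y1 0}.Finite := h1.subset fun y hy => hy.1
  have h3 : {y | (y ∈ S.C ∧ ∏ i, y i ^ w i = z) ∧ y 0 ≠ y1 0}ᶜ ∈ 𝓝 y1 :=
    h2.isClosed.isOpen_compl.mem_nhds fun h => h.2 rfl
  obtain ⟨y, y2, y3, y4, y5, y6, y7, y8⟩ := k9x3_pts hL h3 Filter.univ_mem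
  refine y2 ⟨⟨y3, ?_⟩, y5⟩
  rw [← sub_eq_zero.1 (h0 _ y6)]
  exact Finset.prod_congr rfl fun i _ => by rw [← y7 i]

/-- Row Z9-X3b. The differential equation of the quotient `g = f1 / f2`. PROOF. `A = lF u1 ℓ χ` is not identically zero (`par_of_zero`, `h10`, `hne`). Choose `y2 ∈ C` near `y1` with `dt u' (lg y2) = 0`, `t2 = y2 0 ≠ y1 0`, such that `f1, f2, A` do not vanish at `t2` (`fnH_ne`, `hL.acc`). On a small ball `ball t2 r0` (in the ball `ρ`) `f1, f2, A` have no zeros; let `g = f1 / f2`,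
`κ(t) = (g'/g + dF w η) / dF u' η = lF w1 ℓ χ / lF u1 ℓ χ` by `hode`; `κ` is `Alg t2 r0` (`halg`: `g` is algebraic; derivatives: `w1_deriv` and `Alg` lemmas of Z5/D1, W1; `η i` algebraic). On `ball t2 r`: `κ t = conj (κ (conj (χ t)))`, because `κ` is real at the points of the level curve `Re f0 = 0` (`lF_real`-like: `χr`), these accumulate at `t2` (`f0 = ∑ u' i ℓ i` has a nonzero derivative: inverse function), and both sides are holomorphic. By `Z7.w7_const` (with `t2, r, r0`, `μ = w1`, `w = -u1`, its `hv` from `A t2 ≠ 0`) `κ` is a constant on `ball t2 r`, real.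
So `lF (w1 - κ u1) = 0` near `t2`: `par_of_zero` gives `w1 = κ u1 + s u'`. And `g'/g = - dF (w - κ u')`: `log_rat` (Z7/S3.lean, as in Z7/E5.lean; `hind` from `S.mon`, `hL.acc`, identity theorem) gives `N`, `n i = N (w i - κ u' i)`, `g^N ∏ η_i^(n_i) = c` near `t2`; so `f1^N ∏ η_i^(n_i) = c f2^N` on the whole ball (identity theorem). -/
theorem kappa (hH : HHp S.toCv) (hL : Loc S u' y1 ρ0 ρ η ℓ χ) (hu : dt u' u' = 1) {u1 : Fin m → ℝ}
    (h10 : dt u1 u' = 0) (hne : u1 ≠ 0) {f1 f2 : d1_H (y1 0) ρ} (hf1 : f1 ≠ 0) (hf2 : f2 ≠ 0)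
    (halg : ∃ G : Polynomial (Polynomial ℂ), G ≠ 0 ∧ ∀ t ∈ Metric.ball (y1 0) ρ, fnH f2 t ≠ 0 →
      ev2 G t (fnH f1 t / fnH f2 t) = 0) {w w1 : Fin m → ℝ}
    (hode : ∀ t ∈ Metric.ball (y1 0) ρ, lF u1 ℓ χ t * (deriv (fnH f1) t * fnH f2 t - fnH f1 t * deriv (fnH f2) t) +
      (dF w η t * lF u1 ℓ χ t - lF w1 ℓ χ t * dF u' η t) * (fnH f1 t * fnH f2 t) = 0) :
    ∃ (κ s : ℝ) (N : ℕ) (n : Fin m → ℤ) (c : ℂ), 0 < N ∧ c ≠ 0 ∧ (∀ i, w1 i = κ * u1 i + s * u' i) ∧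
      (∀ i, (N : ℝ) * (w i - κ * u' i) = n i) ∧
      ∀ t ∈ Metric.ball (y1 0) ρ, fnH f1 t ^ N * ∏ i, η i t ^ n i = c * fnH f2 t ^ N := by
  have hpos := hL.pos
  have hsub : Metric.ball (y1 0) ρ ⊆ Metric.ball (y1 0) ρ0 := Metric.ball_subset_ball hL.le
  have hAd := hL.lF_diff u1
  -- `A` is not zero near a point
  have hAnz : ∀ t1 ∈ Metric.ball (y1 0) ρ, ¬ ∀ᶠ t in 𝓝 t1, lF u1 ℓ χ t = 0 := by
    intro t1 ht1 hz
    obtain ⟨s, hs⟩ := par_of_zero hH hL hu ht1 hz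
    have e1 : u1 = s • u' := funext fun i => hs i
    rw [e1, Pool.Agent.Z6.w6_dt_smul, hu, mul_one] at h10
    exact hne (by rw [e1, h10, zero_smul])
  obtain ⟨r1, hr1, hr1ρ, hinv⟩ := k9x3_inv hL
  have hs1 : Metric.ball (y1 0) r1 ⊆ Metric.ball (y1 0) ρ := Metric.ball_subset_ball hr1ρ
  have ht0 := Metric.mem_ball_self (x := y1 0) hpos
  obtain ⟨O1, hO1, -, hO1f⟩ := fnH_ne hf1 ht0
  obtain ⟨O2, hO2, -, hO2f⟩ := fnH_ne hf2 ht0
  have hAe : ∀ᶠ t in 𝓝 (y1 0), t ≠ y1 0 → lF u1 ℓ χ t ≠ 0 := by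
    have han : AnalyticOnNhd ℂ (lF u1 ℓ χ) (Metric.ball (y1 0) ρ) := hAd.analyticOnNhd Metric.isOpen_ball
    rcases (han _ ht0).eventually_eq_zero_or_eventually_ne_zero with h | h
    · exact absurd h (hAnz _ ht0)
    · exact eventually_nhdsWithin_iff.1 h
  have hall : ∀ᶠ t in 𝓝 (y1 0), t ∈ Metric.ball (y1 0) r1 ∧ (t ≠ y1 0 → fnH f1 t ≠ 0 ∧ fnH f2 t ≠ 0 ∧ lF u1 ℓ χ t ≠ 0) := by
    filter_upwards [hO1, hO2, hAe, Metric.ball_mem_nhds (y1 0) hr1] with t a1 a2 a3 a4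
    exact ⟨a4, fun h => ⟨hO1f t a1 h, hO2f t a2 h, a3 h⟩⟩
  obtain ⟨r2, hr2, hball⟩ := Metric.eventually_nhds_iff_ball.1 hall
  obtain ⟨y2, -, y3, y4, y5, y6, y7, y8⟩ := k9x3_pts hL (O := Set.univ) Filter.univ_mem
    (Metric.ball_mem_nhds (y1 0) hr2)
  obtain ⟨t2, ht2⟩ : ∃ t2, t2 = y2 0 := ⟨_, rfl⟩
  have hlev : (starRingEnd ℂ) (χ t2) = t2 := by
    rw [ht2]
    exact hL.χr _ y6 (by rw [k9x3_lg y7]; exact y8)
  rw [← ht2] at y4 y5 y6
  obtain ⟨r0, hr0, hr0s⟩ : ∃ r0, 0 < r0 ∧ Metric.ball t2 r0 ⊆ Metric.ball (y1 0) r2 ∩ {y1 0}ᶜ :=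
    Metric.isOpen_iff.1 (Metric.isOpen_ball.inter isOpen_compl_singleton) t2 ⟨y4, y5⟩
  have hgood : ∀ t ∈ Metric.ball t2 r0, t ∈ Metric.ball (y1 0) r1 ∧ fnH f1 t ≠ 0 ∧ fnH f2 t ≠ 0 ∧ lF u1 ℓ χ t ≠ 0 := by
    intro t ht
    obtain ⟨a1, a2⟩ := hr0s ht
    obtain ⟨b1, b2⟩ := hball t a1
    exact ⟨b1, b2 a2⟩
  have hsB : Metric.ball t2 r0 ⊆ Metric.ball (y1 0) ρ := fun t ht => hs1 (hgood t ht).1
  have hs0 : Metric.ball t2 r0 ⊆ Metric.ball (y1 0) ρ0 := hsB.trans hsub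
  -- the radius `r`
  obtain ⟨r, hr, hrr0, hτ⟩ : ∃ r, 0 < r ∧ r ≤ r0 ∧ ∀ t ∈ Metric.ball t2 r,
      (starRingEnd ℂ) (χ t) ∈ Metric.ball t2 r0 := by
    have hc : ContinuousAt (fun t => (starRingEnd ℂ) (χ t)) t2 :=
      Complex.continuous_conj.continuousAt.comp
        (hL.χd.differentiableAt (Metric.isOpen_ball.mem_nhds y6)).continuousAt
    have hb : ∀ᶠ t in 𝓝 t2, (starRingEnd ℂ) (χ t) ∈ Metric.ball t2 r0 :=
      hc.eventually_mem (by rw [hlev]; exact Metric.ball_mem_nhds _ hr0)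
    obtain ⟨r', hr', hsub'⟩ := Metric.eventually_nhds_iff_ball.1 hb
    exact ⟨min r' r0, lt_min hr' hr0, min_le_right _ _, fun t ht =>
      hsub' t (Metric.ball_subset_ball (min_le_left _ _) ht)⟩
  have hsr : Metric.ball t2 r ⊆ Metric.ball t2 r0 := Metric.ball_subset_ball hrr0
  -- the quotient
  obtain ⟨g, hg⟩ : ∃ g : ℂ → ℂ, g = fun t => fnH f1 t / fnH f2 t := ⟨_, rfl⟩
  have hgt : ∀ t, g t = fnH f1 t / fnH f2 t := fun t => by rw [hg]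
  have hgd : ∀ t ∈ Metric.ball t2 r0, HasDerivAt g
      ((deriv (fnH f1) t * fnH f2 t - fnH f1 t * deriv (fnH f2) t) / fnH f2 t ^ 2) t := by
    intro t ht
    rw [hg]
    exact (fnH_hd f1 (hsB ht)).fun_div (fnH_hd f2 (hsB ht)) (hgood t ht).2.2.1
  have hgA : Alg t2 r0 g := by
    obtain ⟨G, hG, hG0⟩ := halg
    refine ⟨fun t ht => (hgd t ht).differentiableAt.differentiableWithinAt, G, hG, fun t ht => ?_⟩
    rw [hgt]
    exact hG0 t (hsB ht) (hgood t ht).2.2.1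
  have hg0 : ∀ t ∈ Metric.ball t2 r0, g t ≠ 0 := by
    intro t ht
    rw [hgt]
    exact div_ne_zero (hgood t ht).2.1 (hgood t ht).2.2.1
  have hηA : ∀ i, Alg t2 r0 (η i) := fun i => ⟨(hL.ch.diff i).mono hs0, S.q i, S.hq0 i,
    fun t ht => hL.ch.eq i t (hs0 ht)⟩
  have hη0 : ∀ i, ∀ t ∈ Metric.ball t2 r0, η i t ≠ 0 := fun i t ht => hL.ch.ne i t (hs0 ht)
  have hℓ : ∀ i, ∀ t ∈ Metric.ball t2 r0, HasDerivAt (ℓ i) (deriv (η i) t / η i t) t := fun i t ht =>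
    hL.ch.der i t (hs0 ht)
  have hldA : ∀ i, Alg t2 r0 (fun t => deriv (η i) t / η i t) := fun i =>
    Pool.Agent.Z5.w1_congr (Alg.mul hr0 (Alg.deriv hr0 (hηA i)) (Alg.inv hr0 (hηA i) (hη0 i)))
      fun t _ => div_eq_mul_inv _ _
  have hdFA : ∀ v : Fin m → ℝ, Alg t2 r0 (dF v η) := fun v =>
    Pool.Agent.Z6.w6_sum hr0 (v := fun i => (v i : ℂ)) hldA
  have hD0 : ∀ t ∈ Metric.ball t2 r0, dF u' η t ≠ 0 := fun t ht => hL.cr t (hs0 ht)
  -- the function `κ`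
  obtain ⟨k, hk⟩ : ∃ k : ℂ → ℂ, k = fun t => (deriv g t / g t + dF w η t) / dF u' η t := ⟨_, rfl⟩
  have hkt : ∀ t, k t = (deriv g t / g t + dF w η t) / dF u' η t := fun t => by rw [hk]
  have hkA : Alg t2 r0 k := by
    refine Pool.Agent.Z5.w1_congr (Alg.mul hr0 (Alg.add hr0 (Alg.mul hr0 (Alg.deriv hr0 hgA)
      (Alg.inv hr0 hgA hg0)) (hdFA w)) (Alg.inv hr0 (hdFA u') hD0)) fun t _ => ?_
    rw [hkt, div_eq_mul_inv, div_eq_mul_inv]
  have hkq : ∀ t ∈ Metric.ball t2 r0, k t = lF w1 ℓ χ t / lF u1 ℓ χ t := by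
    intro t ht
    obtain ⟨-, n1, n2, n3⟩ := hgood t ht
    have n4 := hD0 t ht
    rw [hkt, (hgd t ht).deriv, hgt, div_eq_div_iff n4 n3]
    have e1 := hode t (hsB ht)
    field_simp
    linear_combination e1
  have hkc : ∀ t ∈ Metric.ball t2 r, k t = (starRingEnd ℂ) (k ((starRingEnd ℂ) (χ t))) := by
    intro t ht
    have e1 := (hinv t (hgood t (hsr ht)).1).2
    rw [hkq t (hsr ht), hkq _ (hτ t ht), map_div₀, k9x3_conj w1 ℓ χ e1, k9x3_conj u1 ℓ χ e1]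
  have h2 : ∀ t ∈ Metric.ball t2 r, ∑ i, (w1 i : ℂ) * w6_L ℓ χ i t +
      k t * ∑ i, ((fun i => - u1 i : Fin m → ℝ) i : ℂ) * w6_L ℓ χ i t = 0 := by
    intro t ht
    have n3 := (hgood t (hsr ht)).2.2.2
    have e1 : ∑ i, ((fun i => - u1 i : Fin m → ℝ) i : ℂ) * w6_L ℓ χ i t = - lF u1 ℓ χ t := by
      unfold lF
      rw [← Finset.sum_neg_distrib]
      refine Finset.sum_congr rfl fun i _ => ?_
      push_cast
      ring
    rw [e1, hkq t (hsr ht)]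
    have e2 : ∑ i, (w1 i : ℂ) * w6_L ℓ χ i t = lF w1 ℓ χ t := rfl
    rw [e2]
    field_simp
    ring
  have hv : ¬ ∀ t ∈ Metric.ball t2 r, ∑ i, ((fun i => - u1 i : Fin m → ℝ) i : ℂ) * w6_L ℓ χ i t = 0 := by
    intro h
    have e0 := h t2 (Metric.mem_ball_self hr)
    apply (hgood t2 (Metric.mem_ball_self hr0)).2.2.2
    rw [← neg_eq_zero, ← e0]
    unfold lF
    rw [← Finset.sum_neg_distrib]
    refine Finset.sum_congr rfl fun i _ => ?_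
    push_cast
    ring
  have hχ2 : DifferentiableOn ℂ χ (Metric.ball t2 r) := hL.χd.mono (hsr.trans hsB)
  have hconst := Pool.Agent.Z7.w7_const hr hrr0 hηA hη0 hℓ hχ2 hτ hkA hkc h2 hv
  have hreal : ((k t2).re : ℂ) = k t2 := by
    have e1 := hkc t2 (Metric.mem_ball_self hr)
    rw [hlev] at e1
    exact Complex.conj_eq_iff_re.1 e1.symm
  obtain ⟨κ, hκ⟩ : ∃ κ : ℝ, κ = (k t2).re := ⟨_, rfl⟩
  have hkκ : ∀ t ∈ Metric.ball t2 r, k t = (κ : ℂ) := by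
    intro t ht
    rw [hconst t ht, hκ, hreal]
  -- the relation of `w1` and `u1`
  obtain ⟨s, hs⟩ := par_of_zero hH hL hu (w := fun i => w1 i - κ * u1 i) y6 (by
    filter_upwards [Metric.ball_mem_nhds t2 hr] with t ht
    have e1 := hkq t (hsr ht)
    rw [hkκ t ht, eq_div_iff (hgood t (hsr ht)).2.2.2] at e1
    rw [k9x3_lF_add, ← e1, sub_self])
  -- `log_rat`
  have hld : ∀ t ∈ Metric.ball t2 r, deriv g t / g t =
      ∑ i, ((fun i => -(w i - κ * u' i) : Fin m → ℝ) i : ℂ) * (deriv (η i) t / η i t) := by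
    intro t ht
    have e1 := hkκ t ht
    rw [hkt, div_eq_iff (hD0 t (hsr ht))] at e1
    have e2 := k9x3_dF_add w u' κ η t
    have e3 : ∑ i, ((fun i => -(w i - κ * u' i) : Fin m → ℝ) i : ℂ) * (deriv (η i) t / η i t) =
        - dF (fun i => w i - κ * u' i) η t := by
      unfold dF
      rw [← Finset.sum_neg_distrib]
      refine Finset.sum_congr rfl fun i _ => ?_
      push_cast
      ring
    rw [e3, e2]
    linear_combination e1
  obtain ⟨N, n, c, hN, hc, hn, hX⟩ := Pool.Agent.Z7.log_rat hr η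
    (fun i => (hηA i).mono hsr) (fun i t ht => hη0 i t (hsr ht))
    (k9x3_ind hL hr y6) (X := g) (hgA.mono hsr) (fun t ht => hg0 t (hsr ht))
    (fun i => -(w i - κ * u' i)) hld
  refine ⟨κ, s, N, fun i => - n i, c, hN, hc, fun i => ?_, fun i => ?_, ?_⟩
  · have := hs i
    linarith
  · have := hn i
    push_cast
    linarith
  · have hd : DifferentiableOn ℂ (fun t => fnH f1 t ^ N * ∏ i, η i t ^ (- n i) - c * fnH f2 t ^ N)
        (Metric.ball (y1 0) ρ) := by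
      intro t ht
      have e1 := Pool.Agent.Z7.s3_prod_deriv η (fun i => - n i) (t := t)
        (fun i => (hL.ch.diff i).differentiableAt (Metric.isOpen_ball.mem_nhds (hsub ht)))
        (fun i => hL.ch.ne i t (hsub ht)) Finset.univ
      exact (((((fnH_hd f1 ht).differentiableAt.fun_pow N).fun_mul e1.differentiableAt).fun_sub
        (((fnH_hd f2 ht).differentiableAt.fun_pow N).const_mul c))).differentiableWithinAt
    intro t ht
    refine sub_eq_zero.1 (Pool.Agent.Z5.w1_ident2 hd hr y6 (fun t ht => ?_) t ht)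
    have ht' := hsr ht
    obtain ⟨-, n1, n2, n3⟩ := hgood t ht'
    have e1 := hX t ht
    rw [hgt, div_pow, div_eq_iff (pow_ne_zero _ n2)] at e1
    rw [e1, sub_eq_zero]
    have e2 : (∏ i, η i t ^ n i) * ∏ i, η i t ^ (- n i) = 1 := by
      rw [← Finset.prod_mul_distrib]
      refine Finset.prod_eq_one fun i _ => ?_
      rw [← zpow_add₀ (hη0 i t ht'), add_neg_cancel, zpow_zero]
    linear_combination (c * fnH f2 t ^ N) * e2

end Pool.Agent.Z9
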