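import Mathlib

namespace Pool.Agent.Z9

open MvPolynomial in
theorem k9x4a_int {k : ℕ} (N : ℕ) (hN : 0 < N) (G : MvPolynomial (Fin k) ℂ) :
    ((MvPolynomial.expand N : MvPolynomial (Fin k) ℂ →ₐ[ℂ] MvPolynomial (Fin k) ℂ).toRingHom).IsIntegralElem G := by
  induction G using MvPolynomial.induction_on with
  | C a =>
    have h := RingHom.isIntegralElem_map
      (f := (MvPolynomial.expand N : MvPolynomial (Fin k) ℂ →ₐ[ℂ] MvPolynomial (Fin k) ℂ).toRingHom) (x := C a)
    simpa using h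
  | add p q hp hq => exact hp.add _ hq
  | mul_X p i hp =>
    refine hp.mul _ ?_
    refine ⟨Polynomial.X ^ N - Polynomial.C (X i), ?_, ?_⟩
    · exact Polynomial.monic_X_pow_sub_C _ hN.ne'
    · simp

theorem k9x4a_norm {R S : Type} [CommRing R] [IsDomain R] [CommRing S] [IsDomain S] (f : R →+* S)
    (hf : Function.Injective f) {x : S} (hx : x ≠ 0) (h : f.IsIntegralElem x) : ∃ a : R, a ≠ 0 ∧ x ∣ f a := by
  obtain ⟨p, hp, h0⟩ := h
  have key : ∀ (n : ℕ) (p : Polynomial R), p.natDegree ≤ n → p ≠ 0 → Polynomial.eval₂ f x p = 0 →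
      ∃ a : R, a ≠ 0 ∧ x ∣ f a := by
    intro n
    induction n with
    | zero =>
      intro p hn hp h0
      rw [Polynomial.eq_C_of_natDegree_le_zero hn] at h0 hp
      rw [Polynomial.eval₂_C] at h0
      exact absurd ((map_eq_zero_iff f hf).1 h0) (fun h => hp (by rw [h, Polynomial.C_0]))
    | succ n ih =>
      intro p hn hp h0
      have h1 : p = p.divX * Polynomial.X + Polynomial.C (p.coeff 0) := (Polynomial.divX_mul_X_add p).symm
      by_cases h2 : p.coeff 0 = 0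
      · rw [h2, Polynomial.C_0, add_zero] at h1
        have h3 : p.divX ≠ 0 := fun h => hp (by rw [h1, h, zero_mul])
        refine ih p.divX ?_ h3 ?_
        · rw [Polynomial.natDegree_divX_eq_natDegree_tsub_one]; omega
        · rw [h1, Polynomial.eval₂_mul, Polynomial.eval₂_X] at h0
          exact (mul_eq_zero.1 h0).resolve_right hx
      · refine ⟨p.coeff 0, h2, ?_⟩
        rw [h1, Polynomial.eval₂_add, Polynomial.eval₂_mul, Polynomial.eval₂_X, Polynomial.eval₂_C] at h0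
        refine ⟨- Polynomial.eval₂ f x p.divX, ?_⟩
        linear_combination h0
  exact key _ p le_rfl hp.ne_zero h0

/-- Row Z9-X4. PROOF. Choose `c' α` with `c' α ^ N = c α`. In `ℂ[s_1..s_k]` let `G = ∏_ζ ∑_{α ∈ s} ζ_α c'_α s^α`, `ζ` over the functions `s → μ_N` (the `N`-th roots of unity); `G ≠ 0` (a product of nonzero polynomials, distinct monomials). `G` does not change when `s_j` is multiplied by an `N`-th root of unity (the factors are permuted), so only exponents divisible by `N` occur in `G`: `G(s) = H(s^N)`, `H ≠ 0`.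
Given `z, w`, choose `s_j` with `s_j ^ N = z_j`; then `w_α ^ N = (c'_α s^α) ^ N`, so `w_α = ζ_α c'_α s^α` with `ζ_α ^ N = 1` (for `α ∈ s`), and the factor of `ζ` vanishes at `s`: `H(z) = G(s) = 0`. -/
theorem exists_H {k : ℕ} (s : Finset (Fin k →₀ ℕ)) (hs : s.Nonempty) (N : ℕ) (hN : 0 < N)
    (c : (Fin k →₀ ℕ) → ℂ) (hc : ∀ α ∈ s, c α ≠ 0) :
    ∃ H : MvPolynomial (Fin k) ℂ, H ≠ 0 ∧ ∀ (z : Fin k → ℂ) (w : (Fin k →₀ ℕ) → ℂ), (∀ j, z j ≠ 0) →
      (∀ α ∈ s, w α ^ N = c α * ∏ j, z j ^ α j) → ∑ α ∈ s, w α = 0 → MvPolynomial.eval z H = 0 := by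
  classical
  have hNz : NeZero N := ⟨hN.ne'⟩
  have hfin : Finite (rootsOfUnity N ℂ) := inferInstance
  letI hft : Fintype (s → rootsOfUnity N ℂ) := Fintype.ofFinite _
  have hroot : ∀ a : ℂ, ∃ b : ℂ, b ^ N = a := fun a => IsAlgClosed.exists_pow_nat_eq a hN
  choose rt hrt using hroot
  have hrt0 : ∀ a : ℂ, a ≠ 0 → rt a ≠ 0 := by
    intro a ha h
    apply ha
    rw [← hrt a, h, zero_pow hN.ne']
  set G : MvPolynomial (Fin k) ℂ := ∏ ζ : (s → rootsOfUnity N ℂ), ∑ α : s,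
    MvPolynomial.monomial (α : Fin k →₀ ℕ) ((((ζ α : ℂˣ) : ℂ)) * rt (c α)) with hG
  have hG0 : G ≠ 0 := by
    rw [hG]
    refine Finset.prod_ne_zero_iff.2 fun ζ _ => ?_
    intro h
    obtain ⟨α0, hα0⟩ := hs
    have h1 := congrArg (MvPolynomial.coeff α0) h
    rw [MvPolynomial.coeff_sum, MvPolynomial.coeff_zero,
      Finset.sum_eq_single (⟨α0, hα0⟩ : s)] at h1
    · rw [MvPolynomial.coeff_monomial, if_pos rfl] at h1
      exact (mul_ne_zero (Units.ne_zero _) (hrt0 _ (hc α0 hα0))) h1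
    · intro b _ hb
      rw [MvPolynomial.coeff_monomial, if_neg]
      intro h2
      exact hb (Subtype.ext h2)
    · intro h2
      exact absurd (Finset.mem_univ _) h2
  obtain ⟨H, hH, hdvd⟩ := k9x4a_norm _ (MvPolynomial.expand_injective hN) hG0 (k9x4a_int N hN G)
  refine ⟨H, hH, ?_⟩
  intro z w hz hw hsum
  have ht : ∀ j, rt (z j) ≠ 0 := fun j => hrt0 _ (hz j)
  have hmem : ∀ α : s, ∃ ζ : rootsOfUnity N ℂ, w α = ((ζ : ℂˣ) : ℂ) * (rt (c α) * ∏ j, rt (z j) ^ (α : Fin k →₀ ℕ) j) := by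
    intro α
    have h0 : rt (c α) * ∏ j, rt (z j) ^ (α : Fin k →₀ ℕ) j ≠ 0 :=
      mul_ne_zero (hrt0 _ (hc _ α.2)) (Finset.prod_ne_zero_iff.2 fun j _ => pow_ne_zero _ (ht j))
    have h1 : (w α / (rt (c α) * ∏ j, rt (z j) ^ (α : Fin k →₀ ℕ) j)) ^ N = 1 := by
      rw [div_pow, mul_pow, hrt, ← Finset.prod_pow, hw _ α.2]
      have h2 : ∏ j, (rt (z j) ^ (α : Fin k →₀ ℕ) j) ^ N = ∏ j, z j ^ (α : Fin k →₀ ℕ) j := by
        refine Finset.prod_congr rfl fun j _ => ?_
        rw [← pow_mul, mul_comm, pow_mul, hrt]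
      rw [h2, div_self]
      exact mul_ne_zero (hc _ α.2) (Finset.prod_ne_zero_iff.2 fun j _ => pow_ne_zero _ (hz j))
    refine ⟨rootsOfUnity.mkOfPowEq _ h1, ?_⟩
    rw [rootsOfUnity.coe_mkOfPowEq, div_mul_cancel₀ _ h0]
  choose ζ hζ using hmem
  have hGt : MvPolynomial.eval (fun j => rt (z j)) G = 0 := by
    rw [hG, map_prod]
    refine Finset.prod_eq_zero (Finset.mem_univ ζ) ?_
    rw [map_sum, ← hsum, ← Finset.sum_coe_sort s]
    refine Finset.sum_congr rfl fun α _ => ?_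
    rw [MvPolynomial.eval_monomial, hζ α, Finsupp.prod_fintype _ _ (fun i => pow_zero _)]
    ring
  obtain ⟨Q, hQ⟩ := hdvd
  have h3 : MvPolynomial.eval (fun j => rt (z j)) (MvPolynomial.expand N H) = 0 := by
    have : MvPolynomial.expand N H = G * Q := hQ
    rw [this, map_mul, hGt, zero_mul]
  have h4 : MvPolynomial.eval (fun j => rt (z j)) (MvPolynomial.expand N H) = MvPolynomial.eval z H := by
    have h5 : (fun j => rt (z j) ^ N) = z := funext fun j => hrt (z j)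
    conv_rhs => rw [← h5]
    rw [MvPolynomial.eval_expand]
    rfl
  rw [← h4, h3]

theorem k9x4b_den {ι : Type} (t : Finset ι) (a : ι → ℚ) : ∃ D : ℕ, 0 < D ∧ ∀ i ∈ t, ∃ n : ℤ, (n : ℚ) = D * a i := by
  classical
  induction t using Finset.induction_on with
  | empty => exact ⟨1, one_pos, fun i hi => absurd hi (Finset.notMem_empty i)⟩
  | insert i t hi ih =>
    obtain ⟨D, hD, h⟩ := ih
    refine ⟨D * (a i).den, Nat.mul_pos hD (a i).den_pos, ?_⟩
    intro j hj
    rcases Finset.mem_insert.1 hj with rfl | hj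
    · refine ⟨D * (a j).num, ?_⟩
      push_cast
      rw [mul_assoc, Rat.den_mul_eq_num]
    · obtain ⟨n, hn⟩ := h j hj
      refine ⟨n * (a i).den, ?_⟩
      push_cast
      rw [hn]
      ring

/-- Row Z9-X4b. Rational combinations. PROOF. The differences `α - β0` of the elements of `s` span `ℚ^k` (otherwise a nonzero integral linear form vanishes on them: contradiction with `hfull`), so `Pi.single j 1` is a rational combination of them; clear the denominators. -/
theorem span_diff {k : ℕ} (s : Finset (Fin k →₀ ℕ)) {β0 : Fin k →₀ ℕ} (h0 : β0 ∈ s)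
    (hfull : ∀ e : Fin k → ℤ, e ≠ 0 → ∃ α ∈ s, ∃ β ∈ s, ∑ j, e j * (α j : ℤ) ≠ ∑ j, e j * (β j : ℤ)) :
    ∃ (D : ℕ) (q : Fin k → (Fin k →₀ ℕ) → ℤ), 0 < D ∧ ∀ j l, ∑ α ∈ s, q j α * ((α l : ℤ) - (β0 l : ℤ)) =
      (D : ℤ) * (if l = j then 1 else 0) := by
  classical
  set v : (Fin k →₀ ℕ) → (Fin k → ℚ) := fun α l => (α l : ℚ) - (β0 l : ℚ) with hv
  have htop : Submodule.span ℚ (v '' (s : Set (Fin k →₀ ℕ))) = ⊤ := by
    by_contra hne
    obtain ⟨f, hf, hle⟩ := Submodule.exists_le_ker_of_lt_top _ (lt_top_iff_ne_top.2 hne)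
    obtain ⟨D, hD, hden⟩ := k9x4b_den (Finset.univ : Finset (Fin k)) (fun j => f (Pi.single j 1))
    choose e he using fun j => hden j (Finset.mem_univ j)
    have hfe : ∀ x : Fin k → ℚ, (D : ℚ) * f x = ∑ j, (e j : ℚ) * x j := by
      intro x
      have hx : x = ∑ j, x j • (Pi.single j (1 : ℚ) : Fin k → ℚ) := by
        ext l
        simp [Finset.sum_apply, Pi.single_apply]
      conv_lhs => rw [hx]
      rw [map_sum, Finset.mul_sum]
      refine Finset.sum_congr rfl fun j _ => ?_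
      rw [map_smul, smul_eq_mul, he j]
      ring
    have he0 : e ≠ 0 := by
      intro h
      apply hf
      ext1 x
      have h1 : (D : ℚ) * f (Pi.single x 1) = 0 := by
        rw [hfe, h]; simp
      have hD' : (D : ℚ) ≠ 0 := by exact_mod_cast hD.ne'
      ext
      simpa using (mul_eq_zero.1 h1).resolve_left hD'
    have hker : ∀ α ∈ s, ∑ j, e j * (α j : ℤ) = ∑ j, e j * (β0 j : ℤ) := by
      intro α hα
      have h1 : f (v α) = 0 := hle (Submodule.subset_span ⟨α, hα, rfl⟩)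
      have h2 := hfe (v α)
      rw [h1, mul_zero] at h2
      have h3 : (∑ j, (e j : ℚ) * (α j : ℚ)) = ∑ j, (e j : ℚ) * (β0 j : ℚ) := by
        have : ∑ j, (e j : ℚ) * v α j = (∑ j, (e j : ℚ) * (α j : ℚ)) - ∑ j, (e j : ℚ) * (β0 j : ℚ) := by
          rw [← Finset.sum_sub_distrib]
          refine Finset.sum_congr rfl fun j _ => ?_
          rw [hv]; ring
        linarith
      exact_mod_cast h3
    obtain ⟨α, hα, β, hβ, hne'⟩ := hfull e he0
    exact hne' ((hker α hα).trans (hker β hβ).symm)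
  have hmem : ∀ j : Fin k, ∃ c : (Fin k →₀ ℕ) → ℚ, ∑ α ∈ s, c α • v α = Pi.single j 1 := by
    intro j
    have h1 : (Pi.single j 1 : Fin k → ℚ) ∈ Submodule.span ℚ (v '' (s : Set (Fin k →₀ ℕ))) := by
      rw [htop]; trivial
    rw [Submodule.mem_span_image_finset_iff_exists_fun] at h1
    obtain ⟨c, hc⟩ := h1
    refine ⟨fun α => if h : α ∈ s then c ⟨α, h⟩ else 0, ?_⟩
    rw [← hc, ← Finset.sum_coe_sort s]
    refine Finset.sum_congr rfl fun α _ => ?_
    show (if h : (α : Fin k →₀ ℕ) ∈ s then c ⟨α, h⟩ else 0) • v α = c α • v α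
    rw [dif_pos α.2]
  choose c hc using hmem
  obtain ⟨D, hD, hden⟩ := k9x4b_den ((Finset.univ : Finset (Fin k)) ×ˢ s) (fun p => c p.1 p.2)
  have hq : ∀ j α, ∃ n : ℤ, α ∈ s → (n : ℚ) = D * c j α := by
    intro j α
    by_cases hα : α ∈ s
    · obtain ⟨n, hn⟩ := hden (j, α) (Finset.mem_product.2 ⟨Finset.mem_univ _, hα⟩)
      exact ⟨n, fun _ => hn⟩
    · exact ⟨0, fun h => absurd h hα⟩
  choose q hq using hq
  refine ⟨D, q, hD, fun j l => ?_⟩
  have h1 := congrFun (hc j) l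
  rw [Finset.sum_apply] at h1
  have h2 : (∑ α ∈ s, (q j α : ℚ) * ((α l : ℚ) - (β0 l : ℚ))) = D * (Pi.single j 1 : Fin k → ℚ) l := by
    rw [← h1, Finset.mul_sum]
    refine Finset.sum_congr rfl fun α hα => ?_
    rw [hq j α hα, Pi.smul_apply, smul_eq_mul, hv]
    ring
  rw [Pi.single_apply] at h2
  exact_mod_cast h2

end Pool.Agent.Z9
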