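import Pool.Agent.Z9.W2
import Pool.Agent.Z9.X1
import Pool.Agent.Z9.X2
import Pool.Agent.Z9.X3
import Pool.Agent.Z9.X4

namespace Pool.Agent.Z9

open Pool.Agent.ZL2 Filter Topology
open Pool.Agent.Z5 (fr Gen ev2 Alg d1_H d1_mk d1_ev d1_ev_mk d1_ext)
open Pool.Agent.Z6 (dt w6_L)
open Pool.Agent.Z7 (lg Cv HHp Chart)
open Pool.Agent.Z8 (sp evk rwk lev)

variable {k m : ℕ} [NeZero m] {S : Sk k m} {U : Ultrafilter ℕ} {u' u1 : Fin m → ℝ} {M' M1 : Fin k → Fin m → ℝ} {ε : ℕ → ℝ}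

omit [NeZero m] in
theorem k9x5_dF (a : Fin k → ℝ) (M : Fin k → Fin m → ℝ) (η : Fin m → ℂ → ℂ) (t : ℂ) :
    dF (fun i => ∑ l, a l * M l i) η t = ∑ l, (a l : ℂ) * dF (M l) η t := by
  unfold dF
  push_cast
  simp only [Finset.sum_mul, Finset.mul_sum, mul_assoc]
  exact Finset.sum_comm

omit [NeZero m] in
theorem k9x5_lF (a : Fin k → ℝ) (M : Fin k → Fin m → ℝ) (ℓ : Fin m → ℂ → ℂ) (χ : ℂ → ℂ) (t : ℂ) :
    lF (fun i => ∑ l, a l * M l i) ℓ χ t = ∑ l, (a l : ℂ) * lF (M l) ℓ χ t := by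
  unfold lF
  push_cast
  simp only [Finset.sum_mul, Finset.mul_sum, mul_assoc]
  exact Finset.sum_comm

omit [NeZero m] in
theorem k9x5_bF (u' u1 : Fin m → ℝ) (M' M1 : Fin k → Fin m → ℝ) (η ℓ : Fin m → ℂ → ℂ) (χ : ℂ → ℂ)
    (a : Fin k → ℝ) (t : ℂ) : ∑ j, (a j : ℂ) * bF u' u1 M' M1 η ℓ χ j t =
      dF (fun i => ∑ l, a l * M' l i) η t * lF u1 ℓ χ t -
        lF (fun i => ∑ l, a l * M1 l i) ℓ χ t * dF u' η t := by
  rw [k9x5_dF, k9x5_lF]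
  unfold bF
  rw [Finset.sum_mul, Finset.sum_mul, ← Finset.sum_sub_distrib]
  exact Finset.sum_congr rfl fun j _ => by ring

theorem k9x5_ode {t0 : ℂ} {ρ : ℝ} {A : d1_H t0 ρ} {B : Fin k → d1_H t0 ρ}
    {P : MvPolynomial (Fin k) (d1_H t0 ρ)} {c l : d1_H t0 ρ} (hc : c ≠ 0)
    (h : ∀ α, c * (A * dH (P.coeff α) + (∑ j, (α j : d1_H t0 ρ) * B j) * P.coeff α) = l * P.coeff α)
    (α β : Fin k →₀ ℕ) {t : ℂ} (ht : t ∈ Metric.ball t0 ρ) :
    fnH A t * (deriv (fnH (P.coeff α)) t * fnH (P.coeff β) t - fnH (P.coeff α) t * deriv (fnH (P.coeff β)) t) +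
      (∑ j, ((((α j : ℝ) - (β j : ℝ) : ℝ)) : ℂ) * fnH (B j) t) * (fnH (P.coeff α) t * fnH (P.coeff β) t) = 0 := by
  have h1 : A * (dH (P.coeff α) * P.coeff β - P.coeff α * dH (P.coeff β)) +
      (∑ j, (α j : d1_H t0 ρ) * B j - ∑ j, (β j : d1_H t0 ρ) * B j) * (P.coeff α * P.coeff β) = 0 := by
    have h2 : c * (A * (dH (P.coeff α) * P.coeff β - P.coeff α * dH (P.coeff β)) +
      (∑ j, (α j : d1_H t0 ρ) * B j - ∑ j, (β j : d1_H t0 ρ) * B j) * (P.coeff α * P.coeff β)) = 0 := by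
      linear_combination (P.coeff β) * h α - (P.coeff α) * h β
    exact (mul_eq_zero.1 h2).resolve_left hc
  have h3 := congrArg (fun f => fnH f t) h1
  simp only [fnH_zero] at h3
  rw [fnH_add _ _ ht, fnH_mul _ _ ht, fnH_sub _ _ ht, fnH_mul _ _ ht, fnH_mul _ _ ht, fnH_mul _ _ ht,
    fnH_sub _ _ ht, fnH_mul _ _ ht, fnH_sum _ _ ht, fnH_sum _ _ ht, fnH_dH _ ht, fnH_dH _ ht] at h3
  rw [← h3]
  congr 2
  rw [← Finset.sum_sub_distrib]
  refine Finset.sum_congr rfl fun j _ => ?_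
  rw [fnH_mul _ _ ht, fnH_mul _ _ ht, fnH_nat _ ht, fnH_nat _ ht]
  push_cast
  ring

theorem k9x5_hode {y1 : Fin m → ℂ} {ρ0 ρ : ℝ} {η ℓ : Fin m → ℂ → ℂ} {χ : ℂ → ℂ} (hL : Loc S u' y1 ρ0 ρ η ℓ χ)
    {P : MvPolynomial (Fin k) (d1_H (y1 0) ρ)} {c l : d1_H (y1 0) ρ} (hc : c ≠ 0)
    (h : ∀ α, c * (mkH (y1 0) ρ (lF u1 ℓ χ) * dH (P.coeff α) +
      (∑ j, (α j : d1_H (y1 0) ρ) * mkH (y1 0) ρ (bF u' u1 M' M1 η ℓ χ j)) * P.coeff α) = l * P.coeff α)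
    (α β : Fin k →₀ ℕ) {t : ℂ} (ht : t ∈ Metric.ball (y1 0) ρ) :
    lF u1 ℓ χ t * (deriv (fnH (P.coeff α)) t * fnH (P.coeff β) t - fnH (P.coeff α) t * deriv (fnH (P.coeff β)) t) +
      (dF (fun i => ∑ l, ((α l : ℝ) - (β l : ℝ)) * M' l i) η t * lF u1 ℓ χ t -
        lF (fun i => ∑ l, ((α l : ℝ) - (β l : ℝ)) * M1 l i) ℓ χ t * dF u' η t) *
        (fnH (P.coeff α) t * fnH (P.coeff β) t) = 0 := by
  have h1 := k9x5_ode hc h α β ht
  rw [fnH_mk (hL.lF_diff u1) ht] at h1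
  rw [← k9x5_bF u' u1 M' M1 η ℓ χ (fun l => (α l : ℝ) - (β l : ℝ)) t]
  rw [← h1]
  congr 2
  exact Finset.sum_congr rfl fun j _ => by rw [fnH_mk (hL.bF_diff u1 M' M1 j) ht]

theorem k9x5_span {s : Finset (Fin k →₀ ℕ)} {β0 : Fin k →₀ ℕ} {D : ℕ} {q : Fin k → (Fin k →₀ ℕ) → ℤ}
    (h : ∀ j l, ∑ α ∈ s, q j α * ((α l : ℤ) - (β0 l : ℤ)) = (D : ℤ) * (if l = j then 1 else 0))
    (X : Fin k → ℝ) (j : Fin k) :
    ∑ α ∈ s, (q j α : ℝ) * ∑ l, ((α l : ℝ) - (β0 l : ℝ)) * X l = (D : ℝ) * X j := by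
  have h1 : ∀ l, ∑ α ∈ s, (q j α : ℝ) * ((α l : ℝ) - (β0 l : ℝ)) = (D : ℝ) * (if l = j then 1 else 0) := by
    intro l
    have := congrArg (fun z : ℤ => (z : ℝ)) (h j l)
    push_cast at this
    exact this
  calc ∑ α ∈ s, (q j α : ℝ) * ∑ l, ((α l : ℝ) - (β0 l : ℝ)) * X l
      = ∑ l, (∑ α ∈ s, (q j α : ℝ) * ((α l : ℝ) - (β0 l : ℝ))) * X l := by
        simp only [Finset.mul_sum, Finset.sum_mul]
        rw [Finset.sum_comm]
        exact Finset.sum_congr rfl fun l _ => Finset.sum_congr rfl fun α _ => by ring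
    _ = ∑ l, ((D : ℝ) * (if l = j then 1 else 0)) * X l := Finset.sum_congr rfl fun l _ => by rw [h1 l]
    _ = (D : ℝ) * X j := by simp

theorem k9x5_zpow {ι : Type*} (s : Finset ι) {y : ℂ} (hy : y ≠ 0) (e : ι → ℤ) :
    ∏ j ∈ s, y ^ e j = y ^ ∑ j ∈ s, e j := by
  classical
  induction s using Finset.induction_on with
  | empty => simp
  | insert a s ha ih => rw [Finset.prod_insert ha, Finset.sum_insert ha, ih, zpow_add₀ hy]

omit [NeZero m] in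
theorem k9x5_Z (x : Fin k → ℂ) {y : Fin m → ℂ} (hy : ∀ i, y i ≠ 0) (N : ℕ) (nn : Fin k → Fin m → ℤ)
    (α : Fin k →₀ ℕ) : ∏ j, (x j ^ N * ∏ i, y i ^ (- nn j i)) ^ α j =
      (∏ j, x j ^ α j) ^ N * ∏ i, y i ^ (-∑ j, (α j : ℤ) * nn j i) := by
  simp only [mul_pow]
  rw [Finset.prod_mul_distrib]
  congr 1
  · rw [← Finset.prod_pow]
    exact Finset.prod_congr rfl fun j _ => by rw [← pow_mul, ← pow_mul, mul_comm]
  · have h1 : ∀ j : Fin k, (∏ i, y i ^ (- nn j i)) ^ α j = ∏ i, y i ^ (-((α j : ℤ) * nn j i)) := by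
      intro j
      rw [← Finset.prod_pow]
      refine Finset.prod_congr rfl fun i _ => ?_
      rw [← zpow_natCast, ← zpow_mul]
      congr 1
      ring
    simp only [h1]
    rw [Finset.prod_comm]
    refine Finset.prod_congr rfl fun i _ => ?_
    rw [k9x5_zpow _ (hy i), Finset.sum_neg_distrib]

theorem k9x5_near {t0 : ℂ} {ρ : ℝ} (hρ : 0 < ρ) {f : d1_H t0 ρ} (hf : f ≠ 0) :
    ∃ t1 ∈ Metric.ball t0 ρ, ∀ᶠ t in 𝓝 t1, t ∈ Metric.ball t0 ρ ∧ fnH f t ≠ 0 := by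
  obtain ⟨O, hO, hOb, hne⟩ := fnH_ne hf (Metric.mem_ball_self hρ)
  have h1 : (interior O ∩ {t0}ᶜ).Nonempty := by
    have h2 : interior O ∈ 𝓝 t0 := interior_mem_nhds.2 hO
    have h3 : interior O ∩ {t0}ᶜ ∈ 𝓝[≠] t0 := inter_mem (mem_nhdsWithin_of_mem_nhds h2) self_mem_nhdsWithin
    exact Filter.nonempty_of_mem h3
  obtain ⟨t1, ht1, ht2⟩ := h1
  refine ⟨t1, hOb (interior_subset ht1), ?_⟩
  filter_upwards [isOpen_interior.mem_nhds ht1, isOpen_compl_singleton.mem_nhds ht2] with t h3 h4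
  exact ⟨hOb (interior_subset h3), hne t (interior_subset h3) h4⟩

/-- The first step: `u1 ≠ 0`. -/
theorem k9x5_u1 {y1 : Fin m → ℂ} {ρ0 ρ : ℝ} {η ℓ : Fin m → ℂ → ℂ} {χ : ℂ → ℂ} (hH : HHp S.toCv)
    (hL : Loc S u' y1 ρ0 ρ η ℓ χ) (hu : dt u' u' = 1) (hr : ∀ j, dt (M1 j) u' = 0)
    {P : MvPolynomial (Fin k) (d1_H (y1 0) ρ)} {β0 : Fin k →₀ ℕ} (hβ0 : β0 ∈ P.support)
    (hode : ∀ α, ∀ t ∈ Metric.ball (y1 0) ρ, lF (fun i => ∑ l, ((α l : ℝ) - (β0 l : ℝ)) * M1 l i) ℓ χ t *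
      dF u' η t * (fnH (P.coeff α) t * fnH (P.coeff β0) t) = 0)
    {D : ℕ} (hD : 0 < D) {q : Fin k → (Fin k →₀ ℕ) → ℤ}
    (hq : ∀ j l, ∑ α ∈ P.support, q j α * ((α l : ℤ) - (β0 l : ℤ)) = (D : ℤ) * (if l = j then 1 else 0)) :
    M1 = 0 := by
  have h1 : ∀ α ∈ P.support, ∀ i, ∑ l, ((α l : ℝ) - (β0 l : ℝ)) * M1 l i = 0 := by
    intro α hα
    have hf : P.coeff α * P.coeff β0 ≠ 0 :=
      mul_ne_zero (MvPolynomial.mem_support_iff.1 hα) (MvPolynomial.mem_support_iff.1 hβ0)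
    obtain ⟨t1, ht1, hev⟩ := k9x5_near hL.pos hf
    have hz : ∀ᶠ t in 𝓝 t1, lF (fun i => ∑ l, ((α l : ℝ) - (β0 l : ℝ)) * M1 l i) ℓ χ t = 0 := by
      filter_upwards [hev] with t ht
      have h2 := hode α t ht.1
      rw [← fnH_mul _ _ ht.1] at h2
      have h3 := (mul_eq_zero.1 h2).resolve_right ht.2
      exact (mul_eq_zero.1 h3).resolve_right (hL.cr t (Metric.ball_subset_ball hL.le ht.1))
    obtain ⟨s, hs⟩ := par_of_zero hH hL hu ht1 hz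
    have h4 : s = 0 := by
      have h5 : dt (fun i => ∑ l, ((α l : ℝ) - (β0 l : ℝ)) * M1 l i) u' = s * dt u' u' := by
        unfold Z6.dt
        rw [Finset.mul_sum]
        exact Finset.sum_congr rfl fun i _ => by beta_reduce; rw [hs i, mul_assoc]
      have h6 : dt (fun i => ∑ l, ((α l : ℝ) - (β0 l : ℝ)) * M1 l i) u' = 0 := by
        have h7 : dt (fun i => ∑ l, ((α l : ℝ) - (β0 l : ℝ)) * M1 l i) u' =
            ∑ l, ((α l : ℝ) - (β0 l : ℝ)) * dt (M1 l) u' := by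
          unfold Z6.dt
          simp only [Finset.sum_mul, Finset.mul_sum, mul_assoc]
          exact Finset.sum_comm
        rw [h7]
        exact Finset.sum_eq_zero fun l _ => by rw [hr l, mul_zero]
      rw [h6, hu, mul_one] at h5
      exact h5.symm
    intro i
    rw [hs i, h4, zero_mul]
  funext j i
  have h2 := k9x5_span hq (fun l => M1 l i) j
  rw [Finset.sum_eq_zero fun α hα => by rw [h1 α hα i, mul_zero]] at h2
  have h3 := (mul_eq_zero.1 h2.symm).resolve_left (by exact_mod_cast hD.ne')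
  rw [h3]
  rfl

/-- Row Z9-X5. PROOF. `BadAt` gives `y1, …, P`; `supp_span`, `not_sq`, `xi_const` (with `A = mkH (lF u1 ℓ χ)`, `B j = mkH (bF .. j)`): `c (A P_α' + (∑ α_j B_j) P_α) = l P_α`; for `α, β ∈ P.support` the difference of the equations multiplied by `P_β`, `P_α` gives `A (P_α' P_β - P_α P_β') + (∑ (α_j - β_j) B_j) P_α P_β = 0` (the domain `d1_H`, `c ≠ 0`), which is the hypothesis `hode` of `kappa` with `f1 = P_α`, `f2 = P_β`,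
`w = ∑_j (α_j - β_j) M' j`, `w1 = ∑_j (α_j - β_j) M1 j` (`bF`; `lF`, `dF` are linear in `w`). FIRST `u1 ≠ 0`: if `u1 = 0` then `A = 0` and `lF w1 * dF u' = 0`, so `lF w1 = 0` (`hL.cr`, `P_α P_β ≠ 0`), `par_of_zero`: `w1 = s u'`, and `dt w1 u' = 0` (`hB.rel` with `u1 = 0`), so `w1 = 0` for all `α, β ∈ P.support`; by `span_diff` `M1 = 0`: contradiction with `hB.ne`.
Fix `β0 ∈ P.support`. `kappa` for all `α ∈ P.support` (`ratio_alg`): `κ_α, s_α, N_α, n_α, c_α`. With `span_diff` (`D`, `q`) let `κ j = (∑_α q j α κ_α) / D`. As `∑_l (α_l - β0_l) M1 l = κ_α u1 + s_α u'` and `D M1 j = ∑_α q j α (…)`, and `u1, u'` are linearly independent, `κ_α = ∑_j (α_j - β0_j) κ j`. `N` = `D` times the product of the `N_α`: `N (M' j i - κ j u' i)` is an integer `nn j i` (a combination of the `N_α (w_α i - κ_α u' i)`), and `N_α ∣ N`.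
So `P_α^N ∏ η_i^(∑_j (α_j - β0_j) nn j i) = c'_α P_β0^N`, `c'_α ≠ 0`. `exists_H` for `s = P.support`, `c = c'`: at a point of `hbad` (near `y1`, on the chart, `P_β0 (t) ≠ 0`) let `z j = x_j^N ∏ y_i^(- nn j i)` and `w α = P_α(t) x^α v / (P_β0(t) x^β0)` with `v^N = ∏ z_j^(β0 j)`: `w_α^N = c'_α z^α`, `∑ w_α = 0`. So `H(z) = 0`. -/
theorem bad_out {Z : Sq S U} (hk : 1 ≤ k) (hH : HHp S.toCv) (hB : Blow Z u' u1 M' M1 ε) (hbad : BadAt Z u' u1 M' M1) :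
    ∃ (N : ℕ) (κ : Fin k → ℝ) (nn : Fin k → Fin m → ℤ), 0 < N ∧
      (∀ j i, (N : ℝ) * (M' j i - κ j * u' i) = nn j i) ∧
      ∃ H : MvPolynomial (Fin k) ℂ, H ≠ 0 ∧ ∀ᶠ n in (U : Filter ℕ), ∃ σ,
        MvPolynomial.eval (fun j => Z.x n σ j ^ N * ∏ i, Z.y n σ i ^ (- nn j i)) H = 0 := by
  obtain ⟨y1, ρ0, ρ, η, ℓ, χ, P, hL, hP, hd1, hd2, hpts⟩ := hbad
  obtain ⟨hu, hu1, hMr⟩ := hB.rel
  have hsp := supp_span Z hL hP.1 hd1 hpts
  obtain ⟨c, l, hc, hcl⟩ := xi_const hL.pos hP hd1 hd2 (not_sq Z hL hpts)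
  obtain ⟨β0, hβ0⟩ : P.support.Nonempty := Finset.nonempty_iff_ne_empty.2 fun h => hP.1 (MvPolynomial.support_eq_empty.1 h)
  obtain ⟨D, q, hD, hq⟩ := span_diff P.support hβ0 hsp
  have hf2 : P.coeff β0 ≠ 0 := MvPolynomial.mem_support_iff.1 hβ0
  -- `u1 ≠ 0`
  have hne : u1 ≠ 0 := by
    intro h0
    refine hB.ne ⟨h0, ?_⟩
    have hl0 : ∀ t, lF u1 ℓ χ t = 0 := by
      intro t
      rw [h0]
      unfold lF
      exact Finset.sum_eq_zero fun i _ => by simp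
    refine k9x5_u1 hH hL hu ?_ hβ0 ?_ hD hq
    · intro j
      have := hMr j
      rw [h0] at this
      have h1 : dt (M' j) (0 : Fin m → ℝ) = 0 := by
        unfold Z6.dt
        exact Finset.sum_eq_zero fun i _ => by simp
      rw [h1, add_zero] at this
      exact this
    · intro α t ht
      have h2 := k9x5_hode hL hc hcl α β0 ht
      rw [hl0 t, zero_mul, mul_zero, zero_add, zero_sub] at h2
      linear_combination -h2
  -- the quotients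
  have hkap : ∀ α ∈ P.support, ∃ (κ s : ℝ) (N : ℕ) (n : Fin m → ℤ) (c : ℂ), 0 < N ∧ c ≠ 0 ∧
      (∀ i, ∑ l, ((α l : ℝ) - (β0 l : ℝ)) * M1 l i = κ * u1 i + s * u' i) ∧
      (∀ i, (N : ℝ) * (∑ l, ((α l : ℝ) - (β0 l : ℝ)) * M' l i - κ * u' i) = n i) ∧
      ∀ t ∈ Metric.ball (y1 0) ρ, fnH (P.coeff α) t ^ N * ∏ i, η i t ^ n i = c * fnH (P.coeff β0) t ^ N := by
    intro α hα
    exact kappa hH hL hu hu1 hne (MvPolynomial.mem_support_iff.1 hα) hf2 (ratio_alg hL hk hd1 hf2)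
      (fun t ht => k9x5_hode hL hc hcl α β0 ht)
  choose! κa sa Na na ca hNa hca hw1 hna hrel using hkap
  have huu : dt u1 u1 ≠ 0 := by
    intro h
    apply hne
    funext i
    have h1 : ∀ i, 0 ≤ u1 i * u1 i := fun i => mul_self_nonneg _
    have h2 := (Finset.sum_eq_zero_iff_of_nonneg fun i _ => h1 i).1 h i (Finset.mem_univ i)
    exact mul_self_eq_zero.1 h2
  have hu1' : dt u' u1 = 0 := by
    rw [← hu1]
    unfold Z6.dt
    exact Finset.sum_congr rfl fun i _ => mul_comm _ _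
  let κ : Fin k → ℝ := fun j => dt (M1 j) u1 / dt u1 u1
  have hκ : ∀ α ∈ P.support, κa α = ∑ j, ((α j : ℝ) - (β0 j : ℝ)) * κ j := by
    intro α hα
    have h1 : dt (fun i => ∑ l, ((α l : ℝ) - (β0 l : ℝ)) * M1 l i) u1 = κa α * dt u1 u1 + sa α * dt u' u1 := by
      unfold Z6.dt
      rw [Finset.mul_sum, Finset.mul_sum, ← Finset.sum_add_distrib]
      exact Finset.sum_congr rfl fun i _ => by beta_reduce; rw [hw1 α hα i]; ring
    have h2 : dt (fun i => ∑ l, ((α l : ℝ) - (β0 l : ℝ)) * M1 l i) u1 =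
        ∑ l, ((α l : ℝ) - (β0 l : ℝ)) * dt (M1 l) u1 := by
      unfold Z6.dt
      simp only [Finset.sum_mul, Finset.mul_sum, mul_assoc]
      exact Finset.sum_comm
    rw [hu1', mul_zero, add_zero, h2] at h1
    have h3 : κa α = (∑ l, ((α l : ℝ) - (β0 l : ℝ)) * dt (M1 l) u1) / dt u1 u1 := by
      rw [h1, mul_div_assoc, div_self huu, mul_one]
    rw [h3, Finset.sum_div]
    exact Finset.sum_congr rfl fun j _ => by rw [mul_div_assoc]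
  let Nt : ℕ := ∏ α ∈ P.support, Na α
  have hNt : ∀ α ∈ P.support, ∃ R, Nt = Na α * R := fun α hα => Finset.dvd_prod_of_mem Na hα
  choose! Ra hRa using hNt
  have hNt0 : 0 < Nt := Finset.prod_pos fun α hα => hNa α hα
  let nn : Fin k → Fin m → ℤ := fun j i => ∑ α ∈ P.support, q j α * ((Ra α : ℤ) * na α i)
  have hX : ∀ α ∈ P.support, ∀ i, ∑ l, ((α l : ℝ) - (β0 l : ℝ)) * (M' l i - κ l * u' i) =
      ∑ l, ((α l : ℝ) - (β0 l : ℝ)) * M' l i - κa α * u' i := by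
    intro α hα i
    rw [hκ α hα, Finset.sum_mul, ← Finset.sum_sub_distrib]
    exact Finset.sum_congr rfl fun l _ => by ring
  have hNX : ∀ α ∈ P.support, ∀ i, (Nt : ℝ) * ∑ l, ((α l : ℝ) - (β0 l : ℝ)) * (M' l i - κ l * u' i) =
      (Ra α : ℝ) * na α i := by
    intro α hα i
    rw [hX α hα i, ← hna α hα i, hRa α hα]
    push_cast
    ring
  have hnn : ∀ j i, ((D * Nt : ℕ) : ℝ) * (M' j i - κ j * u' i) = nn j i := by
    intro j i
    have h1 := k9x5_span hq (fun l => M' l i - κ l * u' i) j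
    push_cast
    calc (D : ℝ) * Nt * (M' j i - κ j * u' i) = Nt * (D * (M' j i - κ j * u' i)) := by ring
      _ = Nt * ∑ α ∈ P.support, (q j α : ℝ) * ∑ l, ((α l : ℝ) - (β0 l : ℝ)) * (M' l i - κ l * u' i) := by
          rw [h1]
      _ = ∑ α ∈ P.support, (q j α : ℝ) * (Nt * ∑ l, ((α l : ℝ) - (β0 l : ℝ)) * (M' l i - κ l * u' i)) := by
          rw [Finset.mul_sum]
          exact Finset.sum_congr rfl fun α _ => by ring
      _ = ∑ α ∈ P.support, (q j α : ℝ) * ((Ra α : ℝ) * na α i) :=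
          Finset.sum_congr rfl fun α hα => by rw [hNX α hα i]
      _ = ((∑ α ∈ P.support, q j α * ((Ra α : ℤ) * na α i) : ℤ) : ℝ) := by push_cast; rfl
  -- the exponents
  have hE : ∀ α ∈ P.support, ∀ i, (na α i) * ((D * Ra α : ℕ) : ℤ) =
      ∑ j, ((α j : ℤ) - (β0 j : ℤ)) * nn j i := by
    intro α hα i
    have h1 : ((na α i * ((D * Ra α : ℕ) : ℤ) : ℤ) : ℝ) = ((∑ j, ((α j : ℤ) - (β0 j : ℤ)) * nn j i : ℤ) : ℝ) := by
      push_cast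
      have h2 := hNX α hα i
      calc (na α i : ℝ) * (D * Ra α) = D * ((Ra α : ℝ) * na α i) := by ring
        _ = D * (Nt * ∑ l, ((α l : ℝ) - (β0 l : ℝ)) * (M' l i - κ l * u' i)) := by rw [h2]
        _ = ∑ l, ((α l : ℝ) - (β0 l : ℝ)) * (((D * Nt : ℕ) : ℝ) * (M' l i - κ l * u' i)) := by
            rw [Finset.mul_sum, Finset.mul_sum]
            push_cast
            exact Finset.sum_congr rfl fun l _ => by ring
        _ = ∑ l, ((α l : ℝ) - (β0 l : ℝ)) * (nn l i : ℝ) :=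
            Finset.sum_congr rfl fun l _ => by rw [hnn l i]
    exact_mod_cast h1
  have hrel2 : ∀ α ∈ P.support, ∀ t ∈ Metric.ball (y1 0) ρ,
      fnH (P.coeff α) t ^ (D * Nt) * ∏ i, η i t ^ (∑ j, ((α j : ℤ) - (β0 j : ℤ)) * nn j i) =
        ca α ^ (D * Ra α) * fnH (P.coeff β0) t ^ (D * Nt) := by
    intro α hα t ht
    have h1 := congrArg (fun z => z ^ (D * Ra α)) (hrel α hα t ht)
    simp only [mul_pow, ← pow_mul] at h1
    have h2 : Na α * (D * Ra α) = D * Nt := by rw [hRa α hα]; ring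
    rw [h2, ← Finset.prod_pow] at h1
    rw [← h1]
    congr 1
    refine Finset.prod_congr rfl fun i _ => ?_
    rw [← hE α hα i, zpow_mul, zpow_natCast]
  obtain ⟨H, hH0, hHz⟩ := exists_H P.support ⟨β0, hβ0⟩ (D * Nt) (Nat.mul_pos hD hNt0)
    (fun α => ca α ^ (D * Ra α)) (fun α hα => pow_ne_zero _ (hca α hα))
  refine ⟨D * Nt, κ, nn, Nat.mul_pos hD hNt0, hnn, H, hH0, ?_⟩
  -- the neighbourhood
  obtain ⟨O2, hO2, hO2b, hO2n⟩ := fnH_ne hf2 (Metric.mem_ball_self hL.pos)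
  have hO : {y : Fin m → ℂ | (y ∈ S.C → y 0 ∈ Metric.ball (y1 0) ρ0 ∧ ∀ i, y i = η i (y 0)) ∧ y 0 ∈ O2} ∈ 𝓝 y1 :=
    Filter.inter_mem hL.ch.uniq ((continuous_apply (0 : Fin m)).continuousAt.preimage_mem_nhds hO2)
  filter_upwards [hpts _ hO] with n hn
  obtain ⟨σ, ⟨h1, h2⟩, h3, h4⟩ := hn
  refine ⟨σ, ?_⟩
  have hyη := (h1 (Z.hy n σ)).2
  have htb : Z.y n σ 0 ∈ Metric.ball (y1 0) ρ := hO2b h2
  have hf0 : fnH (P.coeff β0) (Z.y n σ 0) ≠ 0 := hO2n _ h2 h3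
  have hy0 : ∀ i, Z.y n σ i ≠ 0 := fun i => S.ne _ (Z.hy n σ) i
  have hx0 : ∀ j, Z.x n σ j ≠ 0 := Z.hx n σ
  have hN0 : D * Nt ≠ 0 := (Nat.mul_pos hD hNt0).ne'
  have hz0 : ∀ j, Z.x n σ j ^ (D * Nt) * ∏ i, Z.y n σ i ^ (- nn j i) ≠ 0 := fun j =>
    mul_ne_zero (pow_ne_zero _ (hx0 j)) (Finset.prod_ne_zero_iff.2 fun i _ => zpow_ne_zero _ (hy0 i))
  obtain ⟨v, hv⟩ := IsAlgClosed.exists_pow_nat_eq
    (∏ j, (Z.x n σ j ^ (D * Nt) * ∏ i, Z.y n σ i ^ (- nn j i)) ^ β0 j) (Nat.pos_of_ne_zero hN0)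
  have hXne : ∀ α : Fin k →₀ ℕ, ∏ j, Z.x n σ j ^ α j ≠ 0 := fun α =>
    Finset.prod_ne_zero_iff.2 fun j _ => pow_ne_zero _ (hx0 j)
  refine hHz _ (fun α => fnH (P.coeff α) (Z.y n σ 0) * (∏ j, Z.x n σ j ^ α j) * v /
    (fnH (P.coeff β0) (Z.y n σ 0) * ∏ j, Z.x n σ j ^ β0 j)) hz0 ?_ ?_
  · intro α hα
    have h5 := hrel2 α hα _ htb
    have h6 : ∏ i, η i (Z.y n σ 0) ^ (∑ j, ((α j : ℤ) - (β0 j : ℤ)) * nn j i) =
        (∏ i, Z.y n σ i ^ (-∑ j, (β0 j : ℤ) * nn j i)) / ∏ i, Z.y n σ i ^ (-∑ j, (α j : ℤ) * nn j i) := by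
      rw [← Finset.prod_div_distrib]
      refine Finset.prod_congr rfl fun i _ => ?_
      rw [← hyη i, ← zpow_sub₀ (hy0 i)]
      congr 1
      simp only [sub_mul, Finset.sum_sub_distrib]
      ring
    rw [h6] at h5
    have hYa : ∏ i, Z.y n σ i ^ (-∑ j, (α j : ℤ) * nn j i) ≠ 0 :=
      Finset.prod_ne_zero_iff.2 fun i _ => zpow_ne_zero _ (hy0 i)
    rw [← mul_div_assoc, div_eq_iff hYa] at h5
    rw [div_pow, div_eq_iff (pow_ne_zero _ (mul_ne_zero hf0 (hXne β0))), mul_pow, mul_pow, mul_pow, hv,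
      k9x5_Z _ hy0, k9x5_Z _ hy0]
    linear_combination ((∏ j, Z.x n σ j ^ α j) ^ (D * Nt) * (∏ j, Z.x n σ j ^ β0 j) ^ (D * Nt)) * h5
  · rw [← Finset.sum_div, ← Finset.sum_mul]
    have h7 : ∑ α ∈ P.support, fnH (P.coeff α) (Z.y n σ 0) * ∏ j, Z.x n σ j ^ α j = 0 := h4
    rw [h7, zero_mul, zero_div]

end Pool.Agent.Z9
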