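import Pool.Agent.Z9.K0
import Pool.Agent.Z9.A4
import Pool.Agent.Z9.B4
import Pool.Agent.Z9.X5
import Pool.Agent.Z9.BG
import Pool.Agent.Z9.HZ
import Pool.Agent.Z8.E2

namespace Pool.Agent.Z9

open Pool.Agent.ZL2 Filter Topology
open Pool.Agent.Z5 (fr Gen ev2 Alg d1_H d1_mk d1_ev d1_ev_mk d1_ext)
open Pool.Agent.Z6 (dt w6_L)
open Pool.Agent.Z7 (lg Cv HHp Chart)
open Pool.Agent.Z8 (sp evk rwk lev)

open Pool.Agent.Z5 (sum_le_hh bp_ineq)
open Pool.Agent.Z8 (inX inY dichotomy)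

variable {F : Type} [Field F] [NumberField F] [Algebra F ℂ] {k m : ℕ} [NeZero m] {S : Sk k m}

theorem k9e3a_lv {m : ℕ} {K : Type} [Field K] [NumberField K] (p : Pl K) {y : Fin m → K} (hy : ∀ i, y i ≠ 0)
    (a : Fin m → ℤ) : lv p (∏ i, y i ^ a i) = ∑ i, (a i : ℝ) * lv p (y i) := by
  classical
  have h : ∀ s : Finset (Fin m), lv p (∏ i ∈ s, y i ^ a i) = ∑ i ∈ s, (a i : ℝ) * lv p (y i) := by
    intro s
    induction s using Finset.induction_on with
    | empty => rw [Finset.prod_empty, Finset.sum_empty, lv_one]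
    | insert b s hb ih =>
      rw [Finset.prod_insert hb, Finset.sum_insert hb, lv_mul p (zpow_ne_zero _ (hy b))
        (Finset.prod_ne_zero_iff.2 fun i _ => zpow_ne_zero _ (hy i)), lv_zpow, ih]
  exact h Finset.univ

theorem k9e3a_tend {k m : ℕ} {U : Filter ℕ} {u : ℕ → Fin m → ℝ} {M : ℕ → Fin k → Fin m → ℝ} {u' : Fin m → ℝ}
    {M' : Fin k → Fin m → ℝ} (hu' : Tendsto u U (𝓝 u')) (hM' : Tendsto M U (𝓝 M')) (a b : ℝ)
    (j : Fin k) : Tendsto (fun n => ∑ i, |a * (M n j i - M' j i) + b * (u' i - u n i)|) U (𝓝 0) := by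
  have h0 : ∀ i, Tendsto (fun n => |a * (M n j i - M' j i) + b * (u' i - u n i)|) U (𝓝 0) := by
    intro i
    have h1 : Tendsto (fun n => M n j i) U (𝓝 (M' j i)) :=
      (tendsto_pi_nhds.1 ((tendsto_pi_nhds.1 hM') j)) i
    have h2 : Tendsto (fun n => u n i) U (𝓝 (u' i)) := (tendsto_pi_nhds.1 hu') i
    have h3 := (((h1.sub_const (M' j i)).const_mul a).add ((h2.const_sub (u' i)).const_mul b)).abs
    rwa [sub_self, sub_self, mul_zero, mul_zero, add_zero, abs_zero] at h3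
  have h4 := tendsto_finsetSum (Finset.univ : Finset (Fin m)) fun i _ => h0 i
  rwa [Finset.sum_const_zero] at h4

/-- Row Z9-E3a. Small heights. PROOF. `lv v (z_j) = N lv v (x_j) - ∑ nn j i lv v (y_i) = ∑_i (N (M n j i - M' j i) + N κ j (u' i - u n i)) lv v (y_i)` (`r1`, `r0`, `hnn`); the coefficients tend to `0` along `U`; `Z6.n2_row` (as in `Z8.ArM.false`, Z8/E2.lean) and `A.hB0` bound `hh (z_j)` by `(m * δ' * B0) * finrank`. -/
theorem ArM.small (A : ArM F S) {U : Ultrafilter ℕ} {u' : Fin m → ℝ} {M' : Fin k → Fin m → ℝ}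
    (hu' : Tendsto A.u (U : Filter ℕ) (𝓝 u')) (hM' : Tendsto A.M (U : Filter ℕ) (𝓝 M')) {N : ℕ} {κ : Fin k → ℝ}
    {nn : Fin k → Fin m → ℤ} (hnn : ∀ j i, (N : ℝ) * (M' j i - κ j * u' i) = nn j i) (j : Fin k) {δ : ℝ} (hδ : 0 < δ) :
    ∀ᶠ n in (U : Filter ℕ), hh (A.x n j ^ N * ∏ i, A.y n i ^ (- nn j i)) ≤ δ * Module.finrank ℚ (A.K n) := by
  have ht := k9e3a_tend hu' hM' (N : ℝ) ((N : ℝ) * κ j) j
  obtain ⟨δ', hδ'⟩ : ∃ δ' : ℝ, δ' = δ / (m * |A.B0| + 1) := ⟨_, rfl⟩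
  have hpos : 0 < (m : ℝ) * |A.B0| + 1 := by positivity
  have hδ0 : 0 < δ' := by rw [hδ']; exact div_pos hδ hpos
  filter_upwards [ht.eventually (ge_mem_nhds hδ0)] with n hn
  have hD : (0 : ℝ) ≤ (Module.finrank ℚ (A.K n) : ℝ) := Nat.cast_nonneg _
  have hprod : ∏ i, A.y n i ^ (- nn j i) ≠ 0 :=
    Finset.prod_ne_zero_iff.2 fun i _ => zpow_ne_zero _ (A.y_ne n i)
  have h5 : hh (A.x n j ^ N * ∏ i, A.y n i ^ (- nn j i)) ≤
      (m * |δ'| * |A.B0| + 0) * Module.finrank ℚ (A.K n) := by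
    refine Z6.n2_row (e := 1) (mul_ne_zero (pow_ne_zero _ (A.hx n j)) hprod) one_ne_zero (A.y_ne n) hn
      (A.hB0.2 n (A.u n) (A.hu n) (A.r0 n)).1 (by rw [Z5.n2_hh_one, zero_mul]) fun p => ?_
    have h6 : ∑ i, (nn j i : ℝ) * lv p (A.y n i) =
        (N : ℝ) * ∑ i, (M' j i - κ j * u' i) * lv p (A.y n i) := by
      rw [Finset.mul_sum]
      refine Finset.sum_congr rfl fun i _ => ?_
      rw [← hnn j i]
      ring
    have h7 : ∑ i, ((N : ℝ) * (A.M n j i - M' j i) + (N : ℝ) * κ j * (u' i - A.u n i)) * lv p (A.y n i) =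
        (N : ℝ) * ∑ i, A.M n j i * lv p (A.y n i) - (N : ℝ) * ∑ i, (M' j i - κ j * u' i) * lv p (A.y n i) -
          (N : ℝ) * κ j * ∑ i, A.u n i * lv p (A.y n i) := by
      rw [Finset.mul_sum, Finset.mul_sum, Finset.mul_sum, ← Finset.sum_sub_distrib,
        ← Finset.sum_sub_distrib]
      refine Finset.sum_congr rfl fun i _ => ?_
      ring
    have h8 : ∑ i, ((-nn j i : ℤ) : ℝ) * lv p (A.y n i) = - ∑ i, (nn j i : ℝ) * lv p (A.y n i) := by
      rw [← Finset.sum_neg_distrib]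
      refine Finset.sum_congr rfl fun i _ => ?_
      rw [Int.cast_neg, neg_mul]
    rw [lv_mul p (pow_ne_zero _ (A.hx n j)) hprod, lv_pow, k9e3a_lv p (A.y_ne n), lv_one, h7,
      A.r0 n p, A.r1 n p j, h8, h6]
    ring
  refine h5.trans (mul_le_mul_of_nonneg_right ?_ hD)
  rw [abs_of_pos hδ0, add_zero, hδ', mul_right_comm, ← mul_div_assoc, div_le_iff₀ hpos]
  nlinarith [abs_nonneg A.B0, hδ.le]

/-- The limits of the relations. -/
theorem k9e3b_lim (A : ArM F S) {U : Ultrafilter ℕ} (hU : (U : Filter ℕ) ≤ cofinite) {A0 : ℝ}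
    (hA : (A.sq U hU).Bdd A0) : ∃ (u' : Fin m → ℝ) (M' : Fin k → Fin m → ℝ),
      Tendsto A.u (U : Filter ℕ) (𝓝 u') ∧ Tendsto A.M (U : Filter ℕ) (𝓝 M') := by
  obtain ⟨u', -, hu'⟩ := Z5.b4_lim U A.u (Metric.closedBall 0 1) (isCompact_closedBall _ _) (by
    refine Eventually.of_forall fun n => ?_
    rw [mem_closedBall_zero_iff, pi_norm_le_iff_of_nonneg zero_le_one]
    intro i
    have h := A.hu n
    unfold Z6.dt at h
    have h1 : A.u n i * A.u n i ≤ ∑ j, A.u n j * A.u n j :=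
      Finset.single_le_sum (f := fun j => A.u n j * A.u n j) (fun j _ => mul_self_nonneg _) (Finset.mem_univ i)
    rw [h] at h1
    rw [Real.norm_eq_abs]
    exact abs_le_one_iff_mul_self_le_one.2 h1)
  have hA' : ∀ᶠ n in (U : Filter ℕ), ∀ j i, |A.M n j i| ≤ A0 := hA
  obtain ⟨M', -, hM'⟩ := Z5.b4_lim U A.M (Metric.closedBall 0 |A0|) (isCompact_closedBall _ _) (by
    filter_upwards [hA'] with n hn
    rw [mem_closedBall_zero_iff, pi_norm_le_iff_of_nonneg (abs_nonneg _)]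
    intro j
    rw [pi_norm_le_iff_of_nonneg (abs_nonneg _)]
    intro i
    rw [Real.norm_eq_abs]
    exact (hn j i).trans (le_abs_self _))
  exact ⟨u', M', hu', hM'⟩

/-- A polynomial with complex coefficients and one with integral coefficients at a point over a number field. -/
theorem k9e3b_alg {K : Type} (_ : Field K) (_ : NumberField K) {k : ℕ} (σ : K →+* ℂ) (H : MvPolynomial (Fin k) ℂ)
    (H1 : MvPolynomial (Fin k) ℤ) (hH : ∀ z : Fin k → ℂ, (∀ j, IsAlgebraic ℚ (z j)) →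
      MvPolynomial.eval z H = 0 → MvPolynomial.aeval z H1 = 0) (z : Fin k → K)
    (h : MvPolynomial.eval (fun j => σ (z j)) H = 0) : MvPolynomial.aeval z H1 = 0 := by
  have h1 : MvPolynomial.aeval (fun j => σ (z j)) H1 = 0 := by
    refine hH _ (fun j => ?_) h
    exact (Algebra.IsAlgebraic.isAlgebraic (R := ℚ) (z j)).algHom (RingHom.toRatAlgHom σ)
  have h2 : σ (MvPolynomial.aeval z H1) = 0 := by
    rw [← h1]
    exact MvPolynomial.comp_aeval_apply (f := z) (RingHom.toIntAlgHom σ) H1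
  exact (map_eq_zero σ).1 h2

/-- The generic bound for the points `(x, y)`. -/
theorem k9e3b_gen (A : ArM F S) {U : Ultrafilter ℕ} (hU : (U : Filter ℕ) ≤ cofinite) {A0 : ℝ}
    (hA : (A.sq U hU).Bdd A0) : Gen (k := k) (U : Filter ℕ)
      ((Module.finrank ℚ F : ℝ) * ((k : ℝ) * max (m * |m * A0| * |A.B0| + 0) A.B0 + ((k : ℝ) + 1) * Real.log 2))
      (fun n (σ : (A.sq U hU).ι n) => Function.update ((A.sq U hU).x n σ) S.j0 ((A.sq U hU).y n σ 0)) := by
  have hA : ∀ᶠ n in (U : Filter ℕ), ∀ j i, |A.M n j i| ≤ A0 := hA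
  have hX : ∀ᶠ n in (U : Filter ℕ), ∀ j, hh (A.x n j) ≤ (m * |m * A0| * |A.B0| + 0) * Module.finrank ℚ (A.K n) := by
    filter_upwards [hA] with n hn j
    refine Z6.n2_row (e := 1) (r := A.M n j) (A.hx n j) one_ne_zero (A.y_ne n) ?_
      (A.hB0.2 n (A.u n) (A.hu n) (A.r0 n)).1 (by rw [Z5.n2_hh_one, zero_mul]) ?_
    · calc ∑ i, |A.M n j i| ≤ ∑ _i : Fin m, A0 := Finset.sum_le_sum fun i _ => hn j i
        _ = m * A0 := by simp
    · intro p
      rw [A.r1 n p j, lv_one, add_zero]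
  obtain ⟨B0, hB⟩ : ∃ B0 : ℝ, B0 = max (m * |m * A0| * |A.B0| + 0) A.B0 := ⟨_, rfl⟩
  rw [← hB]
  show Gen (k := k) (U : Filter ℕ) _
      (fun n (σ : A.K n →ₐ[F] ℂ) => Function.update (fun j => σ (A.x n j)) S.j0 (σ (A.y n 0)))
  intro L f hL hf hfB C' hC'
  have hev : ∀ᶠ n in (U : Filter ℕ), ev f (Function.update (A.x n) S.j0 (A.y n 0)) ≠ 0 := hU (A.hgen L f hf)
  filter_upwards [hX, hev] with n h1 h3
  have hDn : (0 : ℝ) ≤ (Module.finrank ℚ (A.K n) : ℝ) := Nat.cast_nonneg _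
  have key := bp_ineq (F := F) (K := A.K n) hL f hfB (Function.update (A.x n) S.j0 (A.y n 0)) (by
    intro l
    rcases eq_or_ne l S.j0 with rfl | hl
    · rw [Function.update_self]
      exact A.y_ne n 0
    · rw [Function.update_of_ne hl]
      exact A.hx n l) (B := B0) (by
    intro l
    rcases eq_or_ne l S.j0 with rfl | hl
    · rw [Function.update_self]
      refine ((A.hB0.2 n (A.u n) (A.hu n) (A.r0 n)).1 0).trans (mul_le_mul_of_nonneg_right ?_ hDn)
      rw [hB]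
      exact le_max_right _ _
    · rw [Function.update_of_ne hl]
      refine (h1 l).trans (mul_le_mul_of_nonneg_right ?_ hDn)
      rw [hB]
      exact le_max_left _ _) h3 hC'
  have e : ∀ σ : A.K n →ₐ[F] ℂ, (Function.update (fun j => σ (A.x n j)) S.j0 (σ (A.y n 0)) : Fin k → ℂ) =
      fun l => σ (Function.update (A.x n) S.j0 (A.y n 0) l) := by
    intro σ
    funext l
    rcases eq_or_ne l S.j0 with rfl | hl
    · rw [Function.update_self, Function.update_self]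
    · rw [Function.update_of_ne hl, Function.update_of_ne hl]
  simp only [e]
  exact key

/-- Row Z9-E3b. PROOF. `U` = the hyperfilter, `bddM` (Z9/A4.lean): `(A.sq U hU).Bdd A0`; limits `u', M'` (compactness, as in `Z8.core1`). If `U`-eventually `A.u n = u' ∧ A.M n = M'`: the first alternative (sets of the hyperfilter are infinite). Otherwise `exists_Blow`. If `BadAt`: `bad_out`, `exists_int` (`σ (z n)` is algebraic): `H1 ≠ 0` in `ℤ[z]`, `H1 (z n) = 0` (injectivity of `σ`) for `U`-many `n`, `ArM.small` and `bog`: the second alternative.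
If `¬ BadAt`: `core1` with `hG` as in `Z8.ArM.false` and `hloc` from `exists_Loc`, `local_good`: contradiction. -/
theorem ArM.out (A : ArM F S) :
    (∃ (u' : Fin m → ℝ) (M' : Fin k → Fin m → ℝ), {n | A.u n = u' ∧ A.M n = M'}.Infinite) ∨
    ∃ (N : ℕ) (nn : Fin k → Fin m → ℤ), 0 < N ∧ ∃ H : MvPolynomial (Fin k) ℤ, H ≠ 0 ∧ ∃ p0 : ℕ,
      ∀ p : ℕ, p.Prime → p0 ≤ p →
        {n | MvPolynomial.aeval (fun j => (A.x n j ^ N * ∏ i, A.y n i ^ (- nn j i)) ^ p) H = 0}.Infinite := by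
  obtain ⟨U, hUc⟩ : ∃ U : Ultrafilter ℕ, (U : Filter ℕ) ≤ cofinite := ⟨hyperfilter ℕ, hyperfilter_le_cofinite⟩
  obtain ⟨A0, hA0⟩ := bddM A.hm A.hH (A.sq U hUc)
  obtain ⟨u', M', hu', hM'⟩ := k9e3b_lim A hUc hA0
  have hinf : ∀ {p : ℕ → Prop}, (∀ᶠ n in (U : Filter ℕ), p n) → {n | p n}.Infinite := fun h =>
    frequently_cofinite_iff_infinite.1 (h.frequently.filter_mono hUc)
  by_cases hc : ∀ᶠ n in (U : Filter ℕ), A.u n = u' ∧ A.M n = M'
  · exact Or.inl ⟨u', M', hinf hc⟩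
  right
  obtain ⟨ε, u1, M1, hB⟩ := exists_Blow (A.sq U hUc) hu' hM' (Ultrafilter.eventually_not.2 hc)
  by_cases hbad : BadAt (A.sq U hUc) u' u1 M' M1
  · obtain ⟨N, κ, nn, hN0, hnn, H, hH0, hev⟩ := bad_out A.hk A.hH hB hbad
    obtain ⟨H1, hH1, hH2⟩ := exists_int H hH0
    have hz : ∀ n j, A.x n j ^ N * ∏ i, A.y n i ^ (- nn j i) ≠ 0 := fun n j =>
      mul_ne_zero (pow_ne_zero _ (A.hx n j)) (Finset.prod_ne_zero_iff.2 fun i _ => zpow_ne_zero _ (A.y_ne n i))
    have hev1 : ∀ᶠ n in (U : Filter ℕ),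
        MvPolynomial.aeval (fun j => A.x n j ^ N * ∏ i, A.y n i ^ (- nn j i)) H1 = 0 := by
      filter_upwards [hev] with n hn
      obtain ⟨(σ : A.K n →ₐ[F] ℂ), hσ⟩ := hn
      exact k9e3b_alg (A.fld n) (A.nf n) (σ : A.K n →+* ℂ) H H1 hH2 _ (by
        rw [← hσ]
        congr 2
        funext j
        show σ _ = σ _ ^ N * ∏ i, σ _ ^ (- nn j i)
        rw [map_mul, map_pow, map_prod]
        simp only [map_zpow₀])
    obtain ⟨p0, hp0⟩ := bog (fun n j => A.x n j ^ N * ∏ i, A.y n i ^ (- nn j i)) hz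
      (fun j δ hδ => A.small hu' hM' hnn j hδ) H1 hev1
    exact ⟨N, nn, hN0, H1, hH1, p0, fun p hp hpp => hinf (hp0 p hp hpp)⟩
  · exfalso
    refine core1 (A.sq U hUc) hA0 hu' hM' (k9e3b_gen A hUc hA0) ?_
    intro y1 hy hyE hu ρ η ℓ hch hcr hacc
    obtain ⟨ρ0, ρ1, χ, -, hL⟩ := exists_Loc S hy hyE hu hch hcr hacc
    exact local_good A.hk (A.sq U hUc) hA0 hB hbad hL

/-- The points of `G_m^(k+m)`. -/
def Ar.pt (A : Ar F S) (n : ℕ) : Fin k ⊕ Fin m → A.K n := Sum.elim (A.x n) (A.y n)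

/-- The real relations. -/
def Ar.N (A : Ar F S) (n : ℕ) : Submodule ℝ (Fin k ⊕ Fin m → ℝ) where
  carrier := {w | ∀ p : Pl (A.K n), ∑ i, w i * lv p (A.pt n i) = 0}
  add_mem' {v w} hv hw p := by
    have h : ∑ i, (v + w) i * lv p (A.pt n i) =
        ∑ i, v i * lv p (A.pt n i) + ∑ i, w i * lv p (A.pt n i) := by
      rw [← Finset.sum_add_distrib]
      exact Finset.sum_congr rfl fun i _ => by rw [Pi.add_apply, add_mul]
    rw [h, hv p, hw p, add_zero]
  zero_mem' p := by simp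
  smul_mem' r w hw p := by
    have h : ∑ i, (r • w) i * lv p (A.pt n i) = r * ∑ i, w i * lv p (A.pt n i) := by
      rw [Finset.mul_sum]
      exact Finset.sum_congr rfl fun i _ => by rw [Pi.smul_apply, smul_eq_mul, mul_assoc]
    rw [h, hw p, mul_zero]

/-- A subsequence. -/
def Ar.comp (A : Ar F S) (φ : ℕ → ℕ) (hφ : Function.Injective φ) : Ar F S where
  hk := A.hk
  hm := A.hm
  rat := A.rat
  hH := A.hH
  inf := A.inf
  Φ := A.Φ
  hΦ := A.hΦ
  K n := A.K (φ n)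
  j n := A.j (φ n)
  x n := A.x (φ n)
  y n := A.y (φ n)
  hx n := A.hx (φ n)
  hy n := A.hy (φ n)
  hyE n := A.hyE (φ n)
  hP n := A.hP (φ n)
  hsub n := A.hsub (φ n)
  hsm n := A.hsm (φ n)
  hgen L f hf := hφ.tendsto_cofinite.eventually (A.hgen L f hf)

/-- Two orthonormal relations between the `y` only: finitely many indices. -/
theorem Ar.finite_two (A : Ar F S) : {n : ℕ | ∃ u v : Fin m → ℝ, dt u u = 1 ∧ dt v v = 1 ∧ dt u v = 0 ∧
    (∀ p : Pl (A.K n), ∑ i, u i * lv p (A.y n i) = 0) ∧ (∀ p : Pl (A.K n), ∑ i, v i * lv p (A.y n i) = 0)}.Finite := by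
  classical
  by_contra hcon
  obtain ⟨φ, hφ, hm⟩ := Pool.Agent.Z5.k3_sub hcon
  choose u v a1 a2 a3 a4 a5 using hm
  exact (A.comp _ hφ).no_two u v a1 a2 a3 (fun n p => a4 n p) (fun n p => a5 n p)

/-- Infinite sets of indices of a subsequence. -/
theorem k9e3c_inf {φ : ℕ → ℕ} (hφ : Function.Injective φ) {P : ℕ → Prop} (h : {n | P (φ n)}.Infinite) :
    {n | P n}.Infinite := by
  refine (h.image (f := φ) (hφ.injOn)).mono ?_
  rintro _ ⟨n, hn, rfl⟩
  exact hn

/-- A subspace without two orthonormal `inY` vectors is spanned by `inY u` and the `inX j (M j)`. -/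
theorem k9e3c_span {N : Submodule ℝ (Fin k ⊕ Fin m → ℝ)} {u : Fin m → ℝ} {M : Fin k → Fin m → ℝ}
    (hu : dt u u = 1) (h0 : inY u ∈ N) (h1 : ∀ j, inX j (M j) ∈ N)
    (hno : ¬ ∃ u v : Fin m → ℝ, dt u u = 1 ∧ dt v v = 1 ∧ dt u v = 0 ∧ inY (k := k) u ∈ N ∧ inY (k := k) v ∈ N) :
    N = Submodule.span ℝ (insert (inY u) (Set.range fun j => inX j (M j))) := by
  classical
  apply le_antisymm
  · intro w hw
    obtain ⟨w', hw'⟩ : ∃ w' : Fin m → ℝ, w' = fun i => w (Sum.inr i) + ∑ j, w (Sum.inl j) * M j i := ⟨_, rfl⟩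
    have e1 : w = inY w' + ∑ j, w (Sum.inl j) • inX j (M j) := by
      funext x
      rcases x with x | x
      · rw [Pi.add_apply, Finset.sum_apply, Finset.sum_eq_single x]
        · show w (Sum.inl x) = 0 + w (Sum.inl x) * (Pi.single x 1 : Fin k → ℝ) x
          rw [Pi.single_eq_same, mul_one, zero_add]
        · intro b _ hb
          show w (Sum.inl b) * (Pi.single b 1 : Fin k → ℝ) x = 0
          rw [Pi.single_eq_of_ne (Ne.symm hb), mul_zero]
        · intro h'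
          exact absurd (Finset.mem_univ _) h'
      · rw [Pi.add_apply, Finset.sum_apply]
        show w (Sum.inr x) = w' x + ∑ j, w (Sum.inl j) * (- M j x)
        rw [hw']
        simp only [mul_neg, Finset.sum_neg_distrib]
        ring
    have hs : ∑ j, w (Sum.inl j) • inX j (M j) ∈ N :=
      N.sum_mem fun j _ => N.smul_mem _ (h1 j)
    have h2 : inY (k := k) w' ∈ N := by
      have h3 := N.sub_mem hw hs
      rwa [show w - ∑ j, w (Sum.inl j) • inX j (M j) = inY w' by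
        rw [sub_eq_iff_eq_add]
        exact e1] at h3
    obtain ⟨b, hb⟩ : ∃ b : Fin m → ℝ, b = w' - (dt w' u) • u := ⟨_, rfl⟩
    have hinY : ∀ (s : ℝ) (v : Fin m → ℝ), inY (k := k) (s • v) = s • inY v := fun s v =>
      (Z8.k8n3_inY (k := k)).map_smul s v
    have hinYs : ∀ v v' : Fin m → ℝ, inY (k := k) (v - v') = inY v - inY v' := fun v v' =>
      (Z8.k8n3_inY (k := k)).map_sub v v'
    have hbm : inY (k := k) b ∈ N := by
      rw [hb, hinYs, hinY]
      exact N.sub_mem h2 (N.smul_mem _ h0)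
    have hb0 : b = 0 := by
      by_contra hne
      obtain ⟨r, hr0, hr1⟩ := Z6.n3_norm hne
      have hub : dt b u = 0 := by
        rw [hb, Z6.n3_dt_sub_left, Z6.n3_dt_smul_left, hu, mul_one, sub_self]
      refine hno ⟨u, r • b, hu, hr1, ?_, h0, ?_⟩
      · rw [Z6.n3_dt_smul_right, Z6.n3_dt_comm, hub, mul_zero]
      · rw [hinY]
        exact N.smul_mem _ hbm
    have hwu : w' = (dt w' u) • u := by
      rw [hb] at hb0
      exact sub_eq_zero.1 hb0
    rw [e1]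
    refine Submodule.add_mem _ ?_ (Submodule.sum_mem _ fun j _ => Submodule.smul_mem _ _ ?_)
    · rw [hwu, hinY]
      exact Submodule.smul_mem _ _ (Submodule.subset_span (Set.mem_insert _ _))
    · exact Submodule.subset_span (Set.mem_insert_of_mem _ ⟨j, rfl⟩)
  · rw [Submodule.span_le]
    rintro v (rfl | ⟨j, rfl⟩)
    · exact h0
    · exact h1 j

/-- Row Z9-E3c. PROOF. As `Z8.Ar.main` (Z8/E2.lean): `comp`, `finite_two` (copy them from Z8/E2.lean), `dichotomy`, an `ArM` along an injective subsequence `φ` with `finrank N = k + 1` exactly (if `k + 2 ≤ finrank (A.N n)` then `A.N n` contains two orthonormal `inY u, inY v`: the kernel of the projection to `ℝ^k` has dimension `≥ 2`; these `n` are finitely many by `finite_two`). `ArM.out`: in its first alternative `A.N (φ n)` is the span of `inY u'` and the `inX j (M' j)` (`k + 1` independent vectors of it), a fixed `N'`, for infinitely many `n`;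
infinite sets of indices are mapped to infinite sets by the injective `φ`. -/
theorem Ar.out (A : Ar F S) (hN : ∀ n, k + 1 ≤ Module.finrank ℝ (A.N n)) :
    (∃ N' : Submodule ℝ (Fin k ⊕ Fin m → ℝ), {n | A.N n = N'}.Infinite) ∨
    ∃ (N : ℕ) (nn : Fin k → Fin m → ℤ), 0 < N ∧ ∃ H : MvPolynomial (Fin k) ℤ, H ≠ 0 ∧ ∃ p0 : ℕ,
      ∀ p : ℕ, p.Prime → p0 ≤ p →
        {n | MvPolynomial.aeval (fun j => (A.x n j ^ N * ∏ i, A.y n i ^ (- nn j i)) ^ p) H = 0}.Infinite := by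
  classical
  have hdich := fun n => dichotomy (A.N n) (hN n)
  have hY : ∀ n (u : Fin m → ℝ), inY u ∈ A.N n → ∀ p : Pl (A.K n), ∑ i, u i * lv p (A.y n i) = 0 := by
    intro n u h p
    have h1 : ∑ l, inY u l * lv p (A.pt n l) = 0 := h p
    rw [Fintype.sum_sum_type] at h1
    have h2 : ∑ x : Fin k, inY u (Sum.inl x) * lv p (A.pt n (Sum.inl x)) = 0 :=
      Finset.sum_eq_zero fun x _ => by
        show (0 : ℝ) * _ = 0
        rw [zero_mul]
    rw [h2, zero_add] at h1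
    exact h1
  have hXr : ∀ n (j : Fin k) (w : Fin m → ℝ), inX j w ∈ A.N n → ∀ p : Pl (A.K n),
      lv p (A.x n j) = ∑ i, w i * lv p (A.y n i) := by
    intro n j w h p
    have h1 : ∑ l, inX j w l * lv p (A.pt n l) = 0 := h p
    rw [Fintype.sum_sum_type] at h1
    have h2 : ∑ x : Fin k, inX j w (Sum.inl x) * lv p (A.pt n (Sum.inl x)) = lv p (A.x n j) := by
      rw [Finset.sum_eq_single j]
      · show (Pi.single j 1 : Fin k → ℝ) j * lv p (A.x n j) = _
        rw [Pi.single_eq_same, one_mul]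
      · intro x _ hx
        show (Pi.single j 1 : Fin k → ℝ) x * _ = 0
        rw [Pi.single_eq_of_ne hx, zero_mul]
      · intro h'; exact absurd (Finset.mem_univ _) h'
    have h3 : ∑ x : Fin m, inX j w (Sum.inr x) * lv p (A.pt n (Sum.inr x)) = - ∑ i, w i * lv p (A.y n i) := by
      rw [← Finset.sum_neg_distrib]
      refine Finset.sum_congr rfl fun x _ => ?_
      show (- w x) * lv p (A.y n x) = _
      ring
    rw [h2, h3] at h1
    linarith
  have h1 : {n | ∃ u v : Fin m → ℝ, dt u u = 1 ∧ dt v v = 1 ∧ dt u v = 0 ∧ inY (k := k) u ∈ A.N n ∧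
      inY (k := k) v ∈ A.N n}.Finite := by
    refine A.finite_two.subset ?_
    rintro n ⟨u, v, a1, a2, a3, a4, a5⟩
    exact ⟨u, v, a1, a2, a3, hY _ _ a4, hY _ _ a5⟩
  have h2 : {n | (¬ ∃ u v : Fin m → ℝ, dt u u = 1 ∧ dt v v = 1 ∧ dt u v = 0 ∧ inY (k := k) u ∈ A.N n ∧
      inY (k := k) v ∈ A.N n) ∧ ∃ (u : Fin m → ℝ) (M : Fin k → Fin m → ℝ), dt u u = 1 ∧
      (∀ j, dt (M j) u = 0) ∧ inY u ∈ A.N n ∧ ∀ j, inX j (M j) ∈ A.N n}.Infinite := by
    refine h1.infinite_compl.mono fun n hn => ?_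
    exact ⟨hn, (hdich n).resolve_left hn⟩
  obtain ⟨φ, hφ, hm⟩ := Pool.Agent.Z5.k3_sub h2
  have hm1 := fun n => (hm n).1
  have hm2 := fun n => (hm n).2
  choose u M b1 b2 b3 b4 using hm2
  let T : ArM F S :=
    { toAr := A.comp φ hφ
      u := u
      M := M
      hu := b1
      hM := b2
      r0 := fun n p => hY _ _ (b3 n) p
      r1 := fun n p j => hXr _ j _ (b4 n j) p }
  rcases T.out with ⟨u', M', hinf⟩ | ⟨N, nn, hN0, H, hH, p0, hp⟩
  · left
    refine ⟨Submodule.span ℝ (insert (inY u') (Set.range fun j => inX j (M' j))), ?_⟩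
    refine k9e3c_inf hφ (P := fun n => A.N n = Submodule.span ℝ (insert (inY u') (Set.range fun j => inX j (M' j)))) ?_
    refine hinf.mono ?_
    rintro n ⟨e1, e2⟩
    have e1' : u n = u' := e1
    have e2' : M n = M' := e2
    show A.N (φ n) = _
    rw [← e1', ← e2']
    exact k9e3c_span (b1 n) (b3 n) (b4 n) (hm1 n)
  · right
    refine ⟨N, nn, hN0, H, hH, p0, fun p hpp hpp0 => ?_⟩
    exact k9e3c_inf hφ (P := fun n => MvPolynomial.aeval (fun j => (A.x n j ^ N * ∏ i, A.y n i ^ (- nn j i)) ^ p) H = 0)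
      (hp p hpp hpp0)

end Pool.Agent.Z9
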