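import Pool.Agent.Z9.H0

namespace Pool.Agent.Z9

open Pool.Agent.ZL2 Filter Topology
open Pool.Agent.Z5 (fr Gen ev2 Alg d1_H d1_mk d1_ev d1_ev_mk d1_ext)
open Pool.Agent.Z6 (dt w6_L)
open Pool.Agent.Z7 (lg Cv HHp Chart)
open Pool.Agent.Z8 (sp evk rwk lev)

/-- Common denominators. -/
theorem k9f1a_clear {R K : Type} [CommRing R] [IsDomain R] [Field K] [Algebra R K] [IsFractionRing R K] {k : ℕ}
    (P : MvPolynomial (Fin k) K) : ∃ c : R, c ≠ 0 ∧ ∃ Q : MvPolynomial (Fin k) R,
      MvPolynomial.map (algebraMap R K) Q = MvPolynomial.C (algebraMap R K c) * P := by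
  classical
  obtain ⟨c, hc⟩ := IsLocalization.exist_integer_multiples_of_finset (nonZeroDivisors R)
    (P.support.image fun α => P.coeff α)
  refine ⟨c, nonZeroDivisors.ne_zero c.2, ?_⟩
  have h1 : MvPolynomial.C (algebraMap R K c) * P ∈
      Set.range (MvPolynomial.map (σ := Fin k) (algebraMap R K)) := by
    rw [MvPolynomial.mem_range_map_iff_coeffs_subset]
    intro z hz
    obtain ⟨α, hα, rfl⟩ := MvPolynomial.mem_coeffs_iff.1 hz
    rw [MvPolynomial.coeff_C_mul]
    by_cases h0 : P.coeff α = 0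
    · rw [h0, mul_zero]
      exact ⟨0, map_zero _⟩
    · obtain ⟨b, hb⟩ := hc (P.coeff α) (Finset.mem_image.2 ⟨α, MvPolynomial.mem_support_iff.2 h0, rfl⟩)
      refine ⟨b, ?_⟩
      rw [hb, Algebra.smul_def]
  exact h1

/-- The divisibility of the images over the field of fractions. -/
theorem k9f1a_dvd {R K : Type} [CommRing R] [IsDomain R] [Field K] [Algebra R K] [IsFractionRing R K] {k : ℕ}
    (P Q : MvPolynomial (Fin k) R) :
    (∃ (h : R) (W : MvPolynomial (Fin k) R), h ≠ 0 ∧ MvPolynomial.C h * Q = P * W) ↔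
      MvPolynomial.map (algebraMap R K) P ∣ MvPolynomial.map (algebraMap R K) Q := by
  have hinj : Function.Injective (MvPolynomial.map (σ := Fin k) (algebraMap R K)) :=
    MvPolynomial.map_injective _ (IsFractionRing.injective R K)
  constructor
  · rintro ⟨h, W, hh, e⟩
    have h1 := congrArg (MvPolynomial.map (algebraMap R K)) e
    rw [map_mul, map_mul, MvPolynomial.map_C] at h1
    have h2 : algebraMap R K h ≠ 0 := fun h0 =>
      hh (IsFractionRing.injective R K (by rw [h0, map_zero]))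
    have h3 : (MvPolynomial.C (algebraMap R K h)⁻¹ : MvPolynomial (Fin k) K) *
        MvPolynomial.C (algebraMap R K h) = 1 := by
      rw [← MvPolynomial.C_mul, inv_mul_cancel₀ h2, MvPolynomial.C_1]
    refine ⟨MvPolynomial.C (algebraMap R K h)⁻¹ * MvPolynomial.map (algebraMap R K) W, ?_⟩
    calc MvPolynomial.map (algebraMap R K) Q
        = (MvPolynomial.C (algebraMap R K h)⁻¹ * MvPolynomial.C (algebraMap R K h)) *
          MvPolynomial.map (algebraMap R K) Q := by rw [h3, one_mul]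
      _ = MvPolynomial.C (algebraMap R K h)⁻¹ *
          (MvPolynomial.C (algebraMap R K h) * MvPolynomial.map (algebraMap R K) Q) := by ring
      _ = _ := by rw [h1]; ring
  · rintro ⟨q, hq⟩
    obtain ⟨c, hc, Q', hQ'⟩ := k9f1a_clear (R := R) (K := K) q
    refine ⟨c, Q', hc, hinj ?_⟩
    rw [map_mul, map_mul, MvPolynomial.map_C, hQ', hq]
    ring

/-- The factorization into primes of the field of fractions, with cleared denominators. -/
theorem k9f1a_main {R : Type} [CommRing R] [IsDomain R] {k : ℕ} (Φ : MvPolynomial (Fin k) R) (hΦ : Φ ≠ 0) :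
    ∃ (r : ℕ) (P : Fin r → MvPolynomial (Fin k) R) (c h : R), c ≠ 0 ∧ h ≠ 0 ∧
      MvPolynomial.C h * Φ = MvPolynomial.C c * ∏ i, P i ∧
      ∀ i, Prime (MvPolynomial.map (algebraMap R (FractionRing R)) (P i)) := by
  classical
  set K := FractionRing R
  have hinj : Function.Injective (MvPolynomial.map (σ := Fin k) (algebraMap R K)) :=
    MvPolynomial.map_injective _ (IsFractionRing.injective R K)
  have hne : ∀ x : R, x ≠ 0 → algebraMap R K x ≠ 0 := fun x hx h0 =>
    hx (IsFractionRing.injective R K (by rw [h0, map_zero]))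
  have hΦ' : MvPolynomial.map (algebraMap R K) Φ ≠ 0 := fun h0 => hΦ (hinj (by rw [h0, map_zero]))
  obtain ⟨f, hf, u, hu⟩ := UniqueFactorizationMonoid.exists_prime_factors _ hΦ'
  obtain ⟨l, rfl⟩ : ∃ l : List (MvPolynomial (Fin k) K), (l : Multiset _) = f := Quot.exists_rep f
  rw [Multiset.prod_coe] at hu
  have hl : ∀ i : Fin l.length, Prime (l.get i) := fun i => hf _ (by
    rw [Multiset.mem_coe]
    exact List.get_mem l i)
  choose c hc P hP using fun i : Fin l.length => k9f1a_clear (R := R) (K := K) (l.get i)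
  have hprod : l.prod = ∏ i : Fin l.length, l.get i := by
    conv_lhs => rw [← List.ofFn_get l]
    rw [List.prod_ofFn]
  obtain ⟨a, ha, hua⟩ := MvPolynomial.isUnit_iff_eq_C_of_isReduced.1 u.isUnit
  obtain ⟨n, d, hd, hnd⟩ := IsFractionRing.div_surjective (A := R) a
  have hd0 : d ≠ 0 := nonZeroDivisors.ne_zero hd
  have hn0 : n ≠ 0 := by
    rintro rfl
    rw [map_zero, zero_div] at hnd
    exact ha.ne_zero hnd.symm
  refine ⟨l.length, P, n, d * ∏ i, c i, hn0, mul_ne_zero hd0 (Finset.prod_ne_zero_iff.2 fun i _ => hc i), ?_, ?_⟩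
  · apply hinj
    have h1 : (MvPolynomial.C (algebraMap R K d) : MvPolynomial (Fin k) K) * MvPolynomial.C a =
        MvPolynomial.C (algebraMap R K n) := by
      rw [← MvPolynomial.C_mul, ← hnd, mul_div_cancel₀ _ (hne d hd0)]
    have h2 : ∏ i, MvPolynomial.map (algebraMap R K) (P i) =
        (∏ i, MvPolynomial.C (algebraMap R K (c i))) * ∏ i, l.get i := by
      rw [← Finset.prod_mul_distrib]
      exact Finset.prod_congr rfl fun i _ => hP i
    have h3 : MvPolynomial.map (algebraMap R K) (MvPolynomial.C (d * ∏ i, c i) : MvPolynomial (Fin k) R) =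
        MvPolynomial.C (algebraMap R K d) * ∏ i, MvPolynomial.C (algebraMap R K (c i)) := by
      rw [MvPolynomial.map_C, map_mul (algebraMap R K), map_prod (algebraMap R K), MvPolynomial.C_mul,
        map_prod MvPolynomial.C]
    have h4 : MvPolynomial.map (algebraMap R K) (MvPolynomial.C n * ∏ i, P i) =
        MvPolynomial.C (algebraMap R K n) * ∏ i, MvPolynomial.map (algebraMap R K) (P i) := by
      rw [map_mul (MvPolynomial.map (algebraMap R K)), MvPolynomial.map_C,
        map_prod (MvPolynomial.map (algebraMap R K))]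
    rw [map_mul (MvPolynomial.map (algebraMap R K)), h3, h4, h2, ← hu, hprod, hua, ← h1]
    ring
  · intro i
    rw [hP i]
    have hunit : IsUnit (MvPolynomial.C (algebraMap R K (c i)) : MvPolynomial (Fin k) K) :=
      (IsUnit.mk0 _ (hne _ (hc i))).map MvPolynomial.C
    exact (hl i).irreducible |>.prime |> fun h => (associated_unit_mul_left _ _ hunit).symm.prime h

/-- Row Z9-F1a. PROOF. `𝓞 = d1_H t0 ρ` is a domain (`Pool.Agent.Z5.d1_nzd`, nontrivial as `0 < ρ`), `𝓜` its field of fractions. `𝓜[x]` is a unique factorization domain, so the image of `Φ` is a unit (a constant) times a product of primes (`WfDvdMonoid`/`UniqueFactorizationMonoid`); clear the denominators of all factors (as in `elim`, Z8/L1.lean, or `k8g4a_clear` in Z8/G4.lean). `PrM P` is the primality of the image of `P` in `𝓜[x]`: `DvM P Q` is the divisibility of the images (clear denominators). -/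
theorem factor {t0 : ℂ} {ρ : ℝ} (hρ : 0 < ρ) {k : ℕ} (Φ : MvPolynomial (Fin k) (d1_H t0 ρ)) (hΦ : Φ ≠ 0) :
    ∃ (r : ℕ) (P : Fin r → MvPolynomial (Fin k) (d1_H t0 ρ)) (c h : d1_H t0 ρ), c ≠ 0 ∧ h ≠ 0 ∧
      MvPolynomial.C h * Φ = MvPolynomial.C c * ∏ i, P i ∧ ∀ i, PrM (P i) := by
  have hdom : IsDomain (d1_H t0 ρ) := by
    have : Nontrivial (d1_H t0 ρ) := by
      refine ⟨0, 1, fun h => ?_⟩
      have := congrArg (d1_ev ⟨t0, Metric.mem_ball_self hρ⟩) h
      rw [map_zero, map_one] at this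
      exact zero_ne_one this
    exact NoZeroDivisors.to_isDomain _
  obtain ⟨r, P, c, h, hc, hh, he, hp⟩ := k9f1a_main Φ hΦ
  refine ⟨r, P, c, h, hc, hh, he, fun i => ?_⟩
  have hd : ∀ Q : MvPolynomial (Fin k) (d1_H t0 ρ), DvM (P i) Q ↔
      MvPolynomial.map (algebraMap (d1_H t0 ρ) (FractionRing (d1_H t0 ρ))) (P i) ∣
        MvPolynomial.map (algebraMap (d1_H t0 ρ) (FractionRing (d1_H t0 ρ))) Q :=
    fun Q => k9f1a_dvd (P i) Q
  refine ⟨fun h0 => (hp i).ne_zero (by rw [h0, map_zero]), fun h1 => ?_, fun Q1 Q2 h12 => ?_⟩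
  · rw [hd, map_one] at h1
    exact (hp i).not_isUnit (isUnit_of_dvd_one h1)
  · rw [hd, map_mul] at h12
    rw [hd, hd]
    exact (hp i).dvd_or_dvd h12

/-- the ring is a domain -/
theorem k9f1b_dom {t0 : ℂ} {ρ : ℝ} (hρ : 0 < ρ) : IsDomain (d1_H t0 ρ) := by
  have : Nontrivial (d1_H t0 ρ) := by
    refine ⟨0, 1, fun h => ?_⟩
    have := congrArg (d1_ev ⟨t0, Metric.mem_ball_self hρ⟩) h
    rw [map_zero, map_one] at this
    exact zero_ne_one this
  exact NoZeroDivisors.to_isDomain _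

/-- the exponents of a polynomial which does not contain the variable -/
theorem k9f1b_supp {k : ℕ} (j0 : Fin k) {R : Type} [CommRing R] (c : MvPolynomial {j : Fin k // j ≠ j0} R) :
    ∀ γ ∈ (MvPolynomial.rename Subtype.val c : MvPolynomial (Fin k) R).support, γ j0 = 0 := by
  intro γ hγ
  obtain ⟨u, hu, _⟩ := MvPolynomial.coeff_rename_ne_zero _ _ _ (MvPolynomial.mem_support_iff.1 hγ)
  rw [← hu]
  exact Finsupp.mapDomain_of_notMem_range _ _ (by
    rintro ⟨j, hj⟩
    exact j.2 hj)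

/-- a nonzero polynomial without the variable, times a nonzero constant -/
theorem k9f1b_C {k : ℕ} (j0 : Fin k) {R : Type} [CommRing R] (h : R) (c : MvPolynomial {j : Fin k // j ≠ j0} R) :
    Pool.Agent.Z8.k8l1a_F j0 R (MvPolynomial.C h * MvPolynomial.rename Subtype.val c) =
      Polynomial.C (MvPolynomial.C h * c) := by
  rw [← Pool.Agent.Z8.k8l1a_FG j0 R (Polynomial.C (MvPolynomial.C h * c)), Pool.Agent.Z8.k8l1a_G_C,
    map_mul (MvPolynomial.rename _), MvPolynomial.rename_C]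

/-- Row Z9-F1b. Elimination. PROOF. `P` and `Q` as polynomials in `x_j0` over `D = 𝓞[x']` (`k8l1a_F`, `k8l1a_G` in Z8/L1.lean), `k8l1a_alg`: either `U P + W Q = c`, `0 ≠ c ∈ D`: done;
or `c P = H P1`, `c Q = H Q1` with `0 ≠ c ∈ D`, `H` of positive degree in `x_j0`. `P` divides `H P1`. If `P` divides `P1` then `H` divides a nonzero element of `D`: contradiction. If `P` divides `H` then it divides `c Q`: it divides `Q` (done) or `c`, and then `P` does not contain `x_j0` and `R = P`. -/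
theorem elimP {t0 : ℂ} {ρ : ℝ} (hρ : 0 < ρ) {k : ℕ} (j0 : Fin k) {P Q : MvPolynomial (Fin k) (d1_H t0 ρ)} (hP : PrM P) :
    DvM P Q ∨ ∃ R V W : MvPolynomial (Fin k) (d1_H t0 ρ), R ≠ 0 ∧ (∀ γ ∈ R.support, γ j0 = 0) ∧ V * P + W * Q = R := by
  classical
  have hdom : IsDomain (d1_H t0 ρ) := k9f1b_dom hρ
  obtain ⟨hP0, -, hPp⟩ := hP
  have hFinj : ∀ p : MvPolynomial (Fin k) (d1_H t0 ρ), Pool.Agent.Z8.k8l1a_F j0 _ p = 0 → p = 0 := by
    intro p hp
    rw [← Pool.Agent.Z8.k8l1a_GF j0 _ p, hp, map_zero]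
  have hne : Pool.Agent.Z8.k8l1a_F j0 _ P ≠ 0 ∨ Pool.Agent.Z8.k8l1a_F j0 _ Q ≠ 0 := Or.inl fun h => hP0 (hFinj P h)
  have hren : ∀ c : MvPolynomial {j : Fin k // j ≠ j0} (d1_H t0 ρ), c ≠ 0 →
      (MvPolynomial.rename Subtype.val c : MvPolynomial (Fin k) (d1_H t0 ρ)) ≠ 0 := fun c hc h =>
    hc (MvPolynomial.rename_injective _ Subtype.val_injective (by rw [h, map_zero]))
  rcases Pool.Agent.Z8.k8l1a_alg _ _ hne with ⟨c, hc, U, W, hUW⟩ | ⟨c, hc, H, P1, Q1, hH1, e1, e2⟩
  · right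
    refine ⟨MvPolynomial.rename Subtype.val c, Pool.Agent.Z8.k8l1a_G j0 _ U, Pool.Agent.Z8.k8l1a_G j0 _ W, hren c hc,
      k9f1b_supp j0 c, ?_⟩
    have h3 := congrArg (Pool.Agent.Z8.k8l1a_G j0 _) hUW
    rw [map_add, map_mul, map_mul, Pool.Agent.Z8.k8l1a_GF, Pool.Agent.Z8.k8l1a_GF, Pool.Agent.Z8.k8l1a_G_C] at h3
    exact h3
  · have f1 := congrArg (Pool.Agent.Z8.k8l1a_G j0 _) e1
    have f2 := congrArg (Pool.Agent.Z8.k8l1a_G j0 _) e2
    rw [map_mul, map_mul, Pool.Agent.Z8.k8l1a_GF, Pool.Agent.Z8.k8l1a_G_C] at f1 f2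
    have hnz : ∀ h : d1_H t0 ρ, h ≠ 0 → MvPolynomial.C h * c ≠ 0 := fun h hh =>
      mul_ne_zero (fun h' => hh (MvPolynomial.C_injective _ _ (by rw [h', map_zero]))) hc
    rcases hPp (Pool.Agent.Z8.k8l1a_G j0 _ H) (Pool.Agent.Z8.k8l1a_G j0 _ P1)
      ⟨1, MvPolynomial.rename Subtype.val c, one_ne_zero, by rw [map_one, one_mul, ← f1, mul_comm]⟩ with
      ⟨h, W1, hh, hW⟩ | ⟨h, W1, hh, hW⟩
    · rcases hPp (MvPolynomial.rename Subtype.val c) Q ⟨h, W1 * Pool.Agent.Z8.k8l1a_G j0 _ Q1, hh, by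
        rw [f2, ← mul_assoc, hW, mul_assoc]⟩ with ⟨h2, W2, hh2, hW2⟩ | hQ
      · right
        have h5 := congrArg (Pool.Agent.Z8.k8l1a_F j0 _) hW2
        rw [k9f1b_C, map_mul (Pool.Agent.Z8.k8l1a_F j0 _)] at h5
        have h6 : Pool.Agent.Z8.k8l1a_F j0 _ P * Pool.Agent.Z8.k8l1a_F j0 _ W2 ≠ 0 := by
          rw [← h5]
          exact Polynomial.C_ne_zero.2 (hnz h2 hh2)
        have h7 := Polynomial.natDegree_mul (left_ne_zero_of_mul h6) (right_ne_zero_of_mul h6)
        rw [← h5, Polynomial.natDegree_C] at h7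
        have h8 : (Pool.Agent.Z8.k8l1a_F j0 _ P).natDegree = 0 := by omega
        have h9 := Polynomial.eq_C_of_natDegree_eq_zero h8
        have h10 : P = MvPolynomial.rename Subtype.val ((Pool.Agent.Z8.k8l1a_F j0 _ P).coeff 0) := by
          rw [← Pool.Agent.Z8.k8l1a_G_C, ← h9, Pool.Agent.Z8.k8l1a_GF]
        refine ⟨P, 1, 0, hP0, ?_, by rw [one_mul, zero_mul, add_zero]⟩
        rw [h10]
        exact k9f1b_supp j0 _
      · exact Or.inl hQ
    · exfalso
      have h4 : MvPolynomial.C h * MvPolynomial.rename Subtype.val c = Pool.Agent.Z8.k8l1a_G j0 _ H * W1 := by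
        apply mul_right_cancel₀ hP0
        calc MvPolynomial.C h * MvPolynomial.rename Subtype.val c * P =
            MvPolynomial.C h * (MvPolynomial.rename Subtype.val c * P) := mul_assoc _ _ _
          _ = Pool.Agent.Z8.k8l1a_G j0 _ H * (MvPolynomial.C h * Pool.Agent.Z8.k8l1a_G j0 _ P1) := by
            rw [f1]
            ring
          _ = _ := by
            rw [hW]
            ring
      have h5 := congrArg (Pool.Agent.Z8.k8l1a_F j0 _) h4
      rw [k9f1b_C, map_mul (Pool.Agent.Z8.k8l1a_F j0 _), Pool.Agent.Z8.k8l1a_FG] at h5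
      have h6 : H * Pool.Agent.Z8.k8l1a_F j0 _ W1 ≠ 0 := by
        rw [← h5]
        exact Polynomial.C_ne_zero.2 (hnz h hh)
      have h7 := Polynomial.natDegree_mul (left_ne_zero_of_mul h6) (right_ne_zero_of_mul h6)
      rw [← h5, Polynomial.natDegree_C] at h7
      omega

end Pool.Agent.Z9
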