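import Pool.Agent.Z9.LA
import Pool.Agent.Z7.G7

open MvPolynomial Pool.Agent.MP_dd1803_nt Pool.Agent.ZPA Pool.Agent.ZL2

namespace Pool.Agent.Z9

open Filter Topology
open Pool.Agent.Z7 (HC Cv HHp Rat)
open Pool.Agent.Z8 (Fam xs ys Cyl rk_le_y tors_pt)

variable {k m : ℕ} [NeZero m] {C : Set (Fin m → ℂˣ)}

/-- The surface `A(y) x_0 + B(y) x_1 = D(y)`, `y ∈ C`. -/
def LB (C : Set (Fin m → ℂˣ)) (A B D : MvPolynomial (Fin m) ℂ) : Set (Fin 2 ⊕ Fin m → ℂˣ) :=
  {x | (fun i => x (Sum.inr i)) ∈ C ∧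
    MvPolynomial.eval (fun i => (x (Sum.inr i) : ℂ)) A * (x (Sum.inl 0) : ℂ) +
      MvPolynomial.eval (fun i => (x (Sum.inr i) : ℂ)) B * (x (Sum.inl 1) : ℂ) =
        MvPolynomial.eval (fun i => (x (Sum.inr i) : ℂ)) D}

omit [NeZero m] in
/-- Elements of the division hull of a group generated by algebraic numbers are algebraic. -/
theorem k9ln_alg {y0 : Fin m → ℂˣ} (hy : ∀ i, IsAlgebraic ℚ (y0 i : ℂ)) {z : ℂˣ} {N : ℕ} (hN : 0 < N)
    (hz : z ^ N ∈ Subgroup.closure (Set.range y0)) : IsAlgebraic ℚ (z : ℂ) := by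
  have h1 : ∀ w ∈ Subgroup.closure (Set.range y0), IsAlgebraic ℚ (w : ℂ) := by
    intro w hw
    induction hw using Subgroup.closure_induction with
    | mem x hx =>
      obtain ⟨i, rfl⟩ := hx
      exact hy i
    | one =>
      rw [Units.val_one]
      exact isAlgebraic_one
    | mul x y _ _ hx hy =>
      rw [Units.val_mul]
      exact hx.mul hy
    | inv x _ hx =>
      rw [Units.val_inv_eq_inv_val]
      exact hx.inv
  have h2 := h1 _ hz
  rw [Units.val_pow_eq_pow_val] at h2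
  exact h2.of_pow hN

/-- The fibres over the points of rank at least two. -/
theorem k9ln_two (h : HC C) {Φ : MvPolynomial (Fin 2) (MvPolynomial (Fin m) ℂ)} {V : Set (Fin 2 ⊕ Fin m → ℂˣ)}
    (hVd : V = Pool.Agent.Z7.VS C Φ) {y0 : Fin m → ℂˣ} (h2 : 2 ≤ rk ({y0} : Set (Fin m → ℂˣ))) :
    {X | X ∈ MaxE m V ∧ ∀ x ∈ X, ∀ i, x (Sum.inr i) = y0 i}.Finite := by
  have hV : ZClosed V := by
    rw [hVd]
    exact Pool.Agent.Z7.zclosed_VS h.irr.closed
  have hVC : ∀ p ∈ V, (fun i => p (Sum.inr i)) ∈ C := fun p hp => by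
    rw [hVd] at hp
    exact hp.1
  have hcl : ∀ W, Comp V W → ZClosed (W ∩ Pool.Agent.Z8.Cyl 2 {y0}) := fun W hW =>
    hW.irr.closed.inter (Pool.Agent.Z8.k8g4d_fib y0).1.closed
  refine ((finite_comp hV).biUnion fun W (hW : Comp V W) => finite_comp (hcl W hW)).subset ?_
  rintro X ⟨hX, hXy⟩
  obtain ⟨W, hW, hXW⟩ := exists_comp hV (MaxE.irr hX) (MaxE.subset hX)
  obtain ⟨Y, hY, hXY⟩ := exists_comp (hcl W hW) (MaxE.irr hX) (Set.subset_inter hXW fun x hx => funext fun i => hXy x hx i)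
  have h0 : 2 ≤ td ℂ W := by
    obtain ⟨p, hp⟩ := Pool.Agent.Z7.g5_eq (C := C) (Φ := Φ)
    have h1 : Comp (Pool.Agent.Z7.g5_W C ∩ zp p) W := by
      rw [← hp, ← hVd]
      exact hW
    have h3 := krull (Pool.Agent.Z7.g5_irr h) p h1
    have h4 := Pool.Agent.Z7.g5_ge h
    omega
  have h3 := k9g6_krull h hW.irr (fun p hp => hVC p (hW.subset hp)) hY
  have h4 : 2 ≤ rk Y := by
    have h5 := rk_pull_le (X := Y) (e := (Sum.inr : Fin m → Fin 2 ⊕ Fin m)) Sum.inr_injective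
    have h6 : pull (Sum.inr : Fin m → Fin 2 ⊕ Fin m) '' Y ⊆ {y0} := by
      rintro _ ⟨x, hx, rfl⟩
      exact (hY.subset hx).2
    have h7 := rk_anti h6
    omega
  have h5 : cd Y = rk Y + td ℂ Y := rfl
  have h7 := k9g6_card (k := 2) (m := m)
  rw [MaxE.eq hX hY.irr ((hY.subset.trans Set.inter_subset_left).trans hW.subset) (by omega) hXY]
  exact Set.mem_biUnion (x := W) hW hY

/-- Row Z9-LN. Full finiteness for bundles of lines, complex coefficients. PROOF. Adapt `Z7.zp_lines` (Z7/G7.lean; `LB = VS C (Lin A B D)`: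
`g7_mem_VS`; copy its proof). Changes: `Z7.zp_mod` is replaced by `fin_max` (G5.lean, for every closed `V` over `ℂ`; `dm V = 2` from
`Z7.dm_VS`, which needs only `nr_Lin` and `hdom` and no algebraicity: check), the `y0 ∈ F` are algebraic. The fibre over `y0 ∈ F`: if
`rk {y0} ≤ 1`, the maximal atypical points `P` over `y0` have `3 ≤ rk {P}`, so their coordinates are in the division hull of
the group of the `y0 i` (`div_of`, LA.lean, `k = 2`), so they are algebraic; `Z7.fibre_Y` does not need that `a, b, c` are algebraic.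
If `2 ≤ rk {y0}`: if the coefficients at `y0` are not proportional to algebraic numbers the fibre line contains at most one
algebraic point, but also transcendental points `P` with `3 ≤ rk {P}` are possible: then the line itself (a component of the
fibre of `V` over `y0`, dimension one, `rk ≥ 2`) has `3 ≤ cd`, so by the maximality no point `P` on it is maximal. (So in the case
`2 ≤ rk {y0}` there are no maximal points at all on the fibre, only components of the fibre.) -/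
theorem lines_C (h : HC C) (hm : 2 ≤ m) {A B D : MvPolynomial (Fin m) ℂ}
    (hA : ∃ y ∈ C, MvPolynomial.eval (fun i => (y i : ℂ)) A ≠ 0) (hB : ∃ y ∈ C, MvPolynomial.eval (fun i => (y i : ℂ)) B ≠ 0)
    (hD : ∃ y ∈ C, MvPolynomial.eval (fun i => (y i : ℂ)) D ≠ 0)
    (hcop : ∀ y ∈ C, ¬ (MvPolynomial.eval (fun i => (y i : ℂ)) A = 0 ∧ MvPolynomial.eval (fun i => (y i : ℂ)) B = 0 ∧
      MvPolynomial.eval (fun i => (y i : ℂ)) D = 0)) :
    dm (LB C A B D) = 2 ∧ {X | Maximal (Atypical (LB C A B D)) X}.Finite := by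
  classical
  have hLV : LB C A B D = Pool.Agent.Z7.VS C (Pool.Agent.Z7.Lin A B D) := by
    ext x
    exact Pool.Agent.Z7.g7_mem_VS.symm
  rw [hLV]
  have hNR := Pool.Agent.Z7.nr_Lin h hA hB hD
  have hdom := Pool.Agent.Z7.g7_dom h hA hB hD
  have hdm := Pool.Agent.Z7.dm_VS h hNR hdom
  refine ⟨hdm, ?_⟩
  obtain ⟨V, hVdef⟩ : ∃ V, V = Pool.Agent.Z7.VS C (Pool.Agent.Z7.Lin A B D) := ⟨_, rfl⟩
  rw [← hVdef] at hdm ⊢
  have hmemV : ∀ x, x ∈ V ↔ (fun i => x (Sum.inr i)) ∈ C ∧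
      MvPolynomial.eval (co fun i => x (Sum.inr i)) A * (x (Sum.inl 0) : ℂ) +
        MvPolynomial.eval (co fun i => x (Sum.inr i)) B * (x (Sum.inl 1) : ℂ) =
          MvPolynomial.eval (co fun i => x (Sum.inr i)) D := by
    intro x
    rw [hVdef]
    exact Pool.Agent.Z7.g7_mem_VS
  have hcard : Fintype.card (Fin 2 ⊕ Fin m) = m + 2 := by simp [add_comm]
  have hV : ZClosed V := by
    rw [hVdef]
    exact Pool.Agent.Z7.zclosed_VS h.irr.closed
  have hVC : ∀ p ∈ V, (fun i => p (Sum.inr i)) ∈ C := fun p hp => ((hmemV p).1 hp).1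
  have hdm' : dm V = ((2 : ℕ) : WithBot ℕ∞) := hdm
  have hcdZ : ∀ Z : Set (Fin 2 ⊕ Fin m → ℂˣ), cd Z = rk Z + td ℂ Z := fun Z => rfl
  have hmax : ∀ X, Maximal (Atypical V) X → X ∈ MaxE m V := by
    intro X hX
    rw [maximal_atypical_iff hV hdm' (by omega) X] at hX
    have h1 : Fintype.card (Fin 2 ⊕ Fin m) - 2 = m := by omega
    rwa [h1] at hX
  obtain ⟨F, hF, hF1, hfin⟩ := fin_max h hm hV hVC
  -- one fibre
  have hone : ∀ y0 ∈ F, {X | X ∈ MaxE m V ∧ ∀ x ∈ X, ∀ i, x (Sum.inr i) = y0 i}.Finite := by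
    intro y0 hy0
    by_cases h2 : 2 ≤ rk ({y0} : Set (Fin m → ℂˣ))
    · exact k9ln_two h hVdef h2
    have habc := hcop y0 (hF1 y0 hy0).1
    have hline : ∀ x ∈ V, (∀ i, x (Sum.inr i) = y0 i) →
        MvPolynomial.eval (co y0) A * (x (Sum.inl 0) : ℂ) + MvPolynomial.eval (co y0) B * (x (Sum.inl 1) : ℂ) =
          MvPolynomial.eval (co y0) D := by
      intro x hx hy
      have h1 := ((hmemV x).1 hx).2
      have h2 : (fun i => x (Sum.inr i)) = y0 := funext hy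
      rw [h2] at h1
      exact h1
    obtain ⟨Ps, hPs⟩ : ∃ Ps : Set (Fin 2 ⊕ Fin m → ℂˣ), Ps = {P | {P} ∈ MaxE m V ∧
      ∀ i, P (Sum.inr i) = y0 i} := ⟨_, rfl⟩
    have hPmem : ∀ P ∈ Ps, {P} ∈ MaxE m V ∧ ∀ i, P (Sum.inr i) = y0 i := fun P hP => by
      rw [hPs] at hP
      exact hP
    have hPfin : Ps.Finite := by
      by_contra hinf
      have hE : ∀ P ∈ Ps, ({P} : Set (Fin 2 ⊕ Fin m → ℂˣ)) ⊆ V ∧
          (∀ i, IsAlgebraic ℚ (P i : ℂ)) ∧ 3 ≤ rk ({P} : Set (Fin 2 ⊕ Fin m → ℂˣ)) := by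
        intro P hP
        have hX' := (hPmem P hP).1
        have hlt := MaxE.lt hX'
        have hcd1 := hcdZ {P}
        rw [td_singleton'] at hcd1
        have h3 : 3 ≤ rk ({P} : Set (Fin 2 ⊕ Fin m → ℂˣ)) := by omega
        have h4 : (fun i => P (Sum.inr i)) = y0 := funext (hPmem P hP).2
        refine ⟨MaxE.subset hX', ?_, h3⟩
        rintro (j | i)
        · obtain ⟨N, hN, hPN⟩ := div_of (k := 2) h3 (by rw [h4]; omega) j
          rw [h4] at hPN
          exact k9ln_alg (fun i => (hF1 y0 hy0).2.1 i) hN hPN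
        · rw [(hPmem P hP).2 i]
          exact (hF1 y0 hy0).2.1 i
      obtain ⟨Y, hY, hYV, htd, hcd, P, hP, hPY⟩ := Pool.Agent.Z7.fibre_Y habc hV (Ps := Ps) (y0 := y0)
        (fun P hP => hline P ((hE P hP).1 rfl) (hPmem P hP).2) (fun P hP => (hE P hP).1 rfl)
        (fun P hP => (hE P hP).2.1) (fun P hP => (hPmem P hP).2) (fun P hP => (hE P hP).2.2) hinf
      have hX' := (hPmem P hP).1
      have h4 : {P} = Y := MaxE.eq hX' hY hYV (by omega) (Set.singleton_subset_iff.2 hPY)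
      rw [← h4, td_singleton'] at htd
      omega
    have hsub : {X | (X ∈ MaxE m V ∧ ∀ x ∈ X, ∀ i, x (Sum.inr i) = y0 i) ∧
        1 ≤ td ℂ X}.Subsingleton := by
      rintro X ⟨⟨hX, hXy⟩, htd⟩ X' ⟨⟨hX', hXy'⟩, htd'⟩
      exact Pool.Agent.Z7.fibre_unique habc (MaxE.irr hX) (MaxE.irr hX') htd htd'
        (fun P hP => hline P (MaxE.subset hX hP) (hXy P hP))
        hXy (fun P hP => hline P (MaxE.subset hX' hP) (hXy' P hP)) hXy'
    refine (hsub.finite.union (hPfin.image fun P => ({P} : Set (Fin 2 ⊕ Fin m → ℂˣ)))).subset ?_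
    rintro X ⟨hX, hXy⟩
    by_cases htd : 1 ≤ td ℂ X
    · left
      exact ⟨⟨hX, hXy⟩, htd⟩
    · right
      have hXi := MaxE.irr hX
      obtain ⟨w, hwX⟩ := hXi.nonempty
      have h3 : ({w} : Set (Fin 2 ⊕ Fin m → ℂˣ)) = X := eq_of_td_le (irr_singleton w) hXi
        (Set.singleton_subset_iff.2 hwX) (by omega)
      refine ⟨w, ?_, h3⟩
      rw [hPs]
      refine ⟨?_, hXy w hwX⟩
      rw [h3]
      exact hX
  refine (hfin.union (hF.biUnion hone)).subset ?_
  intro X hX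
  have hX := hmax X hX
  by_cases hy : ∃ y0 ∈ F, ∀ x ∈ X, ∀ i, x (Sum.inr i) = y0 i
  · right
    obtain ⟨y0, hy0, hy⟩ := hy
    simp only [Set.mem_iUnion]
    exact ⟨y0, hy0, hX, hy⟩
  · left
    exact ⟨hX, hy⟩

end Pool.Agent.Z9
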