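import Pool.Agent.Z8.G4

open MvPolynomial Pool.Agent.MP_dd1803_nt Pool.Agent.ZPA Pool.Agent.ZL2

namespace Pool.Agent.Z9

open Filter Topology
open Pool.Agent.Z7 (HC Cv HHp Rat)
open Pool.Agent.Z8 (Fam FinStab xs ys VSk Cyl AlgCk levs lev evk sp)

/-- A generic sequence of algebraic points of `V`: every proper closed subset defined over the algebraic numbers contains
only finitely many terms. -/
structure Gn {κ : Type} [Fintype κ] (V : Set (κ → ℂˣ)) (P : ℕ → κ → ℂˣ) : Prop where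
  mem : ∀ n, P n ∈ V
  alg : ∀ n i, IsAlgebraic ℚ (P n i : ℂ)
  gen : ∀ Z, ZClosed Z → cl (acl (∅ : Set ℂ)) Z = Z → ¬ V ⊆ Z → ∀ᶠ n in cofinite, P n ∉ Z

variable {κ : Type} [Fintype κ]

theorem Gn.comp {V : Set (κ → ℂˣ)} {P : ℕ → κ → ℂˣ} (h : Gn V P) {φ : ℕ → ℕ} (hφ : Function.Injective φ) :
    Gn V (fun n => P (φ n)) where
  mem n := h.mem (φ n)
  alg n := h.alg (φ n)
  gen Z hZ hZa hV := hφ.tendsto_cofinite.eventually (h.gen Z hZ hZa hV)

theorem k9g0_zero {V : Set (κ → ℂˣ)} {P : ℕ → κ → ℂˣ} (h : Gn V P) (g : MvPolynomial κ (acl (∅ : Set ℂ)))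
    (h0 : {n | aeval (co (P n)) g = 0}.Infinite) : ∀ x ∈ V, aeval (co x) g = 0 := by
  have h1 : V ⊆ zl (acl (∅ : Set ℂ)) {g} := by
    by_contra hcon
    have h2 := h.gen _ (zclosed_zl _) (cl_zl _) hcon
    apply h0
    refine (Filter.eventually_cofinite.1 h2).subset ?_
    intro n hn h3
    apply h3
    intro p hp
    rw [Set.mem_singleton_iff.1 hp]
    exact hn
  intro x hx
  exact h1 hx g rfl

theorem k9g0_dense {V A : Set (κ → ℂˣ)} {P : ℕ → κ → ℂˣ} (h : Gn V P) (hA : ZClosed A)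
    (h0 : {n | P n ∈ A}.Infinite) : V ⊆ A := by
  rw [← zclosed_iff.mp hA, subset_zl_iff]
  intro p hp
  rw [SetLike.mem_coe] at hp ⊢
  rw [mem_vI]
  intro x hx
  refine aeval_eq_zero_of_cmpl (k := acl (∅ : Set ℂ)) fun φ => ?_
  refine k9g0_zero h (cmpl φ p) (h0.mono ?_) x hx
  intro n hn
  show aeval (co (P n)) (cmpl φ p) = 0
  have h3 : co (P n) = fun i => algebraMap (acl (∅ : Set ℂ)) ℂ
      (⟨(P n i : ℂ), mem_acl_empty.2 (h.alg n i)⟩ : acl (∅ : Set ℂ)) := rfl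
  have h5 : aeval (co (P n)) p = 0 := mem_vI.mp hp _ hn
  have h4 : aeval (fun i => algebraMap (acl (∅ : Set ℂ)) ℂ
      (⟨(P n i : ℂ), mem_acl_empty.2 (h.alg n i)⟩ : acl (∅ : Set ℂ))) (cmpl φ p)
      = algebraMap (acl (∅ : Set ℂ)) ℂ (aeval (fun i =>
        (⟨(P n i : ℂ), mem_acl_empty.2 (h.alg n i)⟩ : acl (∅ : Set ℂ))) (cmpl φ p)) :=
    MvPolynomial.aeval_algebraMap_apply ℂ _ (cmpl φ p)
  rw [h3] at h5 ⊢
  rw [h4, aeval_cmpl, h5, map_zero, map_zero]

theorem k9g0_count : Countable (acl (∅ : Set ℂ)) := by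
  have h1 : {x : ℂ | IsAlgebraic ℚ x}.Countable := Algebraic.countable ℚ ℂ
  have h2 : ((acl (∅ : Set ℂ) : IntermediateField ℚ ℂ) : Set ℂ).Countable :=
    h1.mono fun x hx => mem_acl_empty.1 hx
  exact h2.to_subtype

/-- Row Z9-G0a. PROOF. A polynomial with algebraic coefficients which vanishes at infinitely many `P n` vanishes on `V` (its zero set is closed and defined over `acl ∅`). -/
theorem Gn.zero {V : Set (κ → ℂˣ)} {P : ℕ → κ → ℂˣ} (h : Gn V P) (f : MvPolynomial κ ℂ)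
    (hf : ∀ α, IsAlgebraic ℚ (f.coeff α)) (h0 : {n | MvPolynomial.eval (fun i => (P n i : ℂ)) f = 0}.Infinite) :
    ∀ p ∈ V, MvPolynomial.eval (fun i => (p i : ℂ)) f = 0 := by
  obtain ⟨g, rfl⟩ : ∃ g : MvPolynomial κ (acl (∅ : Set ℂ)), MvPolynomial.map (algebraMap (acl (∅ : Set ℂ)) ℂ) g = f := by
    refine ⟨∑ α ∈ f.support, monomial α (⟨f.coeff α, mem_acl_empty.2 (hf α)⟩ : acl (∅ : Set ℂ)), ?_⟩
    rw [map_sum]
    conv_rhs => rw [f.as_sum]
    refine Finset.sum_congr rfl fun α _ => ?_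
    rw [map_monomial]
    rfl
  have h1 := k9g0_zero h g (h0.mono fun n hn => by
    have h2 : MvPolynomial.eval (fun i => (P n i : ℂ)) (MvPolynomial.map (algebraMap (acl (∅ : Set ℂ)) ℂ) g) = 0 := hn
    rw [← MP_dd1803_nt.aeval_eq_eval, MvPolynomial.aeval_map_algebraMap] at h2
    exact h2)
  intro p hp
  rw [← MP_dd1803_nt.aeval_eq_eval, MvPolynomial.aeval_map_algebraMap]
  exact h1 p hp

/-- Row Z9-G0b. PROOF. The closed sets `Z` with `cl (acl ∅) Z = Z` are countably many (each is the zero set of finitely many polynomials over the countable field `acl ∅`; compare the enumeration in `Z8.exists_gen`, Z8/G2.lean). Enumerate those with `¬ V ⊆ Z` (if there are none take any sequence): `V` is not contained in the union of the first `n` (irreducible), the union is closed, so `hB` gives a point of `B` outside. -/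
theorem exists_gn {V B : Set (κ → ℂˣ)} (hV : Irr V) (hB : B ⊆ V) (hBa : ∀ p ∈ B, ∀ i, IsAlgebraic ℚ (p i : ℂ))
    (hd : ∀ Z, ZClosed Z → B ⊆ Z → V ⊆ Z) : ∃ P : ℕ → κ → ℂˣ, Gn V P ∧ ∀ n, P n ∈ B := by
  classical
  have hc : Countable (acl (∅ : Set ℂ)) := k9g0_count
  let J : Type := {g : MvPolynomial κ (acl (∅ : Set ℂ)) // g ∉ vI (acl (∅ : Set ℂ)) V}
  have hP := vI_isPrime (k := acl (∅ : Set ℂ)) hV.pirr
  have hJ : Nonempty J := ⟨⟨1, fun h => hP.ne_top ((Ideal.eq_top_iff_one _).2 h)⟩⟩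
  have hM : Countable (MvPolynomial κ (acl (∅ : Set ℂ))) := by
    rw [← Cardinal.mk_le_aleph0_iff]
    refine MvPolynomial.cardinalMk_le_max.trans ?_
    exact max_le (max_le (Cardinal.mk_le_aleph0_iff.2 hc) (Cardinal.mk_le_aleph0_iff.2 inferInstance)) le_rfl
  have hJc : Countable J := Subtype.countable
  obtain ⟨g, hg⟩ := exists_surjective_nat J
  have hex : ∀ n : ℕ, ∃ p ∈ B, ∀ i ≤ n, aeval (co p) (g i).1 ≠ 0 := by
    intro n
    by_contra hcon
    push Not at hcon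
    have h1 : B ⊆ zl (acl (∅ : Set ℂ)) {∏ i ∈ Finset.range (n + 1), (g i).1} := by
      intro p hp q hq
      rw [Set.mem_singleton_iff.1 hq, map_prod]
      obtain ⟨i, hi, h2⟩ := hcon p hp
      exact Finset.prod_eq_zero (Finset.mem_range.2 (by omega)) h2
    have h3 := hd _ (zclosed_zl _) h1
    have h4 : ∏ i ∈ Finset.range (n + 1), (g i).1 ∈ vI (acl (∅ : Set ℂ)) V :=
      mem_vI.2 fun x hx => h3 hx _ rfl
    rw [Ideal.IsPrime.prod_mem_iff] at h4
    obtain ⟨i, _, hi⟩ := h4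
    exact (g i).2 hi
  choose P hPB hPg using hex
  refine ⟨P, ⟨fun n => hB (hPB n), fun n => hBa _ (hPB n), ?_⟩, hPB⟩
  intro Z hZ hZa hVZ
  rw [← hZa] at hVZ
  unfold MP_dd1803_nt.cl at hVZ
  rw [subset_zl_iff, Set.not_subset] at hVZ
  obtain ⟨q, hq, hqV⟩ := hVZ
  obtain ⟨i, hi⟩ := hg (⟨q, hqV⟩ : J)
  rw [Nat.cofinite_eq_atTop]
  filter_upwards [eventually_ge_atTop i] with n hn h0
  apply hPg n i hn
  rw [hi]
  exact mem_vI.1 hq _ h0

/-- Row Z9-G0c. Manin-Mumford. PROOF. `Ps` = the set of the `P n` with `L ≤ Lam {P n}`. It is dense in `V` (`Gn`; the closure of a set of algebraic points is defined over `acl ∅`). The second half of the proof of `Z5.comp_of_lat` (Z5/G2.lean) with `Y = V`: it uses only the density. -/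
theorem Gn.cd_of_lat {V : Set (κ → ℂˣ)} (hV : Irr V) {P : ℕ → κ → ℂˣ} (h : Gn V P) (L : Submodule ℤ (κ → ℤ))
    (hL : {n | L ≤ Lam ({P n} : Set (κ → ℂˣ))}.Infinite) : Module.finrank ℤ L ≤ cd V := by
  classical
  obtain ⟨r, hr⟩ : ∃ r, r = Module.finrank ℤ L := ⟨_, rfl⟩
  let B : Module.Basis (Fin r) ℤ L := (Module.finBasis ℤ L).reindex (finCongr hr.symm)
  let b : Fin r → κ → ℤ := fun i => ((B i : L) : κ → ℤ)
  have hb : LinearIndependent ℤ b :=
    B.linearIndependent.map' L.subtype (Submodule.ker_subtype L)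
  have hbL : ∀ i, b i ∈ L := fun i => (B i).2
  have hac := isAlgClosed_acl (∅ : Set ℂ)
  have hP' : PIrr (phi b '' V) := hV.pirr.image (d1_ratMap V b)
  have hfin := mm_alg (F := ℂ) (core (acl (∅ : Set ℂ)) (cl ℂ (phi b '' V))) (cl_core _) 1 le_rfl
  have htor : ∀ n ∈ {n | L ≤ Lam ({P n} : Set (κ → ℂˣ))}, ∀ i, Tor (phi b (P n) i) := by
    intro n hn i
    obtain ⟨N, hN, h1⟩ := hn (hbL i)
    exact ⟨N, hN, h1 (P n) rfl⟩
  have hex : ∀ n ∈ {n | L ≤ Lam ({P n} : Set (κ → ℂˣ))},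
      ∃ X ∈ MaxE 1 (core (acl (∅ : Set ℂ)) (cl ℂ (phi b '' V))), phi b (P n) ∈ X := by
    intro n hn
    have h1 : ({phi b (P n)} : Set (Fin r → ℂˣ)) ⊆ core (acl (∅ : Set ℂ)) (cl ℂ (phi b '' V)) := by
      apply subset_core (pirr_singleton _)
      refine (Z5.g2_cl_point (htor n hn)).trans ?_
      rw [Set.singleton_subset_iff]
      exact subset_cl _ ⟨P n, h.mem n, rfl⟩
    obtain ⟨X, hX, hPX⟩ := exists_maxE (e := 1) (irr_singleton (phi b (P n))) h1 (by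
      have h2 := Z5.g2_rk_tor (htor n hn)
      unfold cd
      rw [h2, Fintype.card_fin]
      omega)
    exact ⟨X, hX, hPX rfl⟩
  have hex2 : ∃ X ∈ MaxE 1 (core (acl (∅ : Set ℂ)) (cl ℂ (phi b '' V))),
      {n | L ≤ Lam ({P n} : Set (κ → ℂˣ)) ∧ phi b (P n) ∈ X}.Infinite := by
    by_contra hcon
    push Not at hcon
    apply hL
    have h1 : (⋃ X ∈ MaxE 1 (core (acl (∅ : Set ℂ)) (cl ℂ (phi b '' V))),
        {n | L ≤ Lam ({P n} : Set (κ → ℂˣ)) ∧ phi b (P n) ∈ X}).Finite := by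
      apply hfin.biUnion
      intro X hX
      exact hcon X hX
    apply h1.subset
    intro n hn
    obtain ⟨X, hX, hPX⟩ := hex n hn
    rw [Set.mem_iUnion₂]
    exact ⟨X, hX, hn, hPX⟩
  obtain ⟨X, hX, hXi⟩ := hex2
  have hsub : V ⊆ phi b ⁻¹' X :=
    k9g0_dense h ((d1_ratMap Set.univ b).preimage_closed (MaxE.irr hX).closed) (hXi.mono fun n hn => hn.2)
  have h1 : cl ℂ (phi b '' V) ⊆ X := by
    apply cl_subset _ (MaxE.irr hX).closed
    rintro _ ⟨y, hy, rfl⟩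
    exact hsub hy
  have h2 : X ⊆ cl ℂ (phi b '' V) := (MaxE.subset hX).trans (core_subset (zclosed_cl _))
  have h3 := Set.Subset.antisymm h1 h2
  have h4 := MaxE.lt hX
  rw [← h3, cd_cl, Fintype.card_fin] at h4
  obtain ⟨Q, hQ, _⟩ := fibre_rel (k := ℂ) hV.pirr b
  have h5 := Z5.g2_rk (Y := V) hb
  unfold cd at h4 ⊢
  omega

end Pool.Agent.Z9
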