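import Pool.Agent.Z9.G0
import Pool.Agent.Z9.K0

open MvPolynomial Pool.Agent.MP_dd1803_nt Pool.Agent.ZPA Pool.Agent.ZL2

namespace Pool.Agent.Z9

open Filter Topology
open Pool.Agent.Z7 (HC Cv HHp Rat)
open Pool.Agent.Z8 (Fam FinStab xs ys VSk Cyl AlgCk levs lev evk sp)

variable {k m : ℕ} [NeZero m] {C : Set (Fin m → ℂˣ)} {V : Set (Fin k ⊕ Fin m → ℂˣ)}

/-- The polynomial with some of the terms, the coefficients multiplied by constants. -/
noncomputable def k9g1a_res (Φ : MvPolynomial (Fin k) (MvPolynomial (Fin m) ℂ)) (s : Finset (Fin k →₀ ℕ))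
    (c : (Fin k →₀ ℕ) → ℂ) : MvPolynomial (Fin k) (MvPolynomial (Fin m) ℂ) :=
  ∑ α ∈ s, monomial α (MvPolynomial.C (c α) * Φ.coeff α)

omit [NeZero m] in
theorem k9g1a_coeff (Φ : MvPolynomial (Fin k) (MvPolynomial (Fin m) ℂ)) (s : Finset (Fin k →₀ ℕ))
    (c : (Fin k →₀ ℕ) → ℂ) (β : Fin k →₀ ℕ) :
    (k9g1a_res Φ s c).coeff β = if β ∈ s then MvPolynomial.C (c β) * Φ.coeff β else 0 := by
  classical
  unfold k9g1a_res
  rw [coeff_sum]
  simp only [coeff_monomial]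
  rw [Finset.sum_ite_eq']

omit [NeZero m] in
theorem k9g1a_supp (Φ : MvPolynomial (Fin k) (MvPolynomial (Fin m) ℂ)) (s : Finset (Fin k →₀ ℕ))
    (c : (Fin k →₀ ℕ) → ℂ) : (k9g1a_res Φ s c).support ⊆ s := by
  intro β hβ
  rw [mem_support_iff, k9g1a_coeff] at hβ
  by_contra h
  rw [if_neg h] at hβ
  exact hβ rfl

omit [NeZero m] in
theorem k9g1a_evk (Φ : MvPolynomial (Fin k) (MvPolynomial (Fin m) ℂ)) (s : Finset (Fin k →₀ ℕ))
    (c : (Fin k →₀ ℕ) → ℂ) (x : Fin k → ℂ) (y : Fin m → ℂ) :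
    evk (k9g1a_res Φ s c) x y = ∑ α ∈ s, c α * eval y (Φ.coeff α) * ∏ j, x j ^ α j := by
  unfold evk sp k9g1a_res
  rw [map_sum, map_sum]
  refine Finset.sum_congr rfl fun α _ => ?_
  rw [map_monomial, eval_monomial, Finsupp.prod_fintype _ _ (fun i => pow_zero _), map_mul, eval_C]

omit [NeZero m] in
theorem k9g1a_alg {Φ : MvPolynomial (Fin k) (MvPolynomial (Fin m) ℂ)} (hΦ : AlgCk Φ) (s : Finset (Fin k →₀ ℕ))
    {c : (Fin k →₀ ℕ) → ℂ} (hc : ∀ α, IsAlgebraic ℚ (c α)) : AlgCk (k9g1a_res Φ s c) := by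
  intro α β
  rw [k9g1a_coeff]
  split_ifs with h
  · rw [coeff_C_mul]
    exact (hc α).mul (hΦ α β)
  · rw [coeff_zero]
    exact isAlgebraic_zero

omit [NeZero m] in

/-- The value of the logarithmic derivative. -/
theorem k9g1a_der (Φ : MvPolynomial (Fin k) (MvPolynomial (Fin m) ℂ)) (j : Fin k) (x : Fin k → ℂ) (y : Fin m → ℂ) :
    x j * evk (pderiv j Φ) x y = ∑ α ∈ Φ.support, (α j : ℂ) * eval y (Φ.coeff α) * ∏ i, x i ^ α i := by
  have h1 : sp (pderiv j Φ) y = pderiv j (sp Φ y) := by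
    unfold sp
    rw [MvPolynomial.pderiv_map]
  have h2 : sp Φ y = ∑ α ∈ Φ.support, monomial α (eval y (Φ.coeff α)) := by
    unfold sp
    conv_lhs => rw [Φ.as_sum]
    rw [map_sum]
    exact Finset.sum_congr rfl fun α _ => by rw [map_monomial]
  have h3 : x j * evk (pderiv j Φ) x y = eval x (X j * pderiv j (sp Φ y)) := by
    unfold evk
    rw [h1, map_mul, eval_X]
  rw [h3, h2, map_sum, Finset.mul_sum, map_sum]
  refine Finset.sum_congr rfl fun α _ => ?_
  rw [X_mul_pderiv_monomial, map_nsmul, eval_monomial, Finsupp.prod_fintype _ _ (fun i => pow_zero _), nsmul_eq_mul]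
  ring

omit [NeZero m] in

/-- A polynomial with a coefficient which does not vanish on the curve does not vanish on the cylinder. -/
theorem k9g1a_cyl {Φ : MvPolynomial (Fin k) (MvPolynomial (Fin m) ℂ)} {α : Fin k →₀ ℕ} {y : Fin m → ℂˣ} (hy : y ∈ C)
    (h0 : eval (co y) (Φ.coeff α) ≠ 0) : ∃ p ∈ Cyl k C, evk Φ (xs p) (ys p) ≠ 0 := by
  by_contra hcon
  push Not at hcon
  have hQ : sp Φ (co y) = 0 := by
    refine MvPolynomial.funext_set (fun _ => {z : ℂ | z ≠ 0}) (fun _ => ?_) (fun x hx => ?_)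
    · have : ({(0 : ℂ)}ᶜ : Set ℂ).Infinite := (Set.finite_singleton (0 : ℂ)).infinite_compl
      exact this
    · have hx' : ∀ j, x j ≠ 0 := fun j => hx j (Set.mem_univ j)
      have h2 := hcon (Sum.elim (fun j => Units.mk0 (x j) (hx' j)) y) hy
      rw [map_zero]
      exact h2
  apply h0
  have h5 := congrArg (MvPolynomial.coeff α) hQ
  unfold sp at h5
  rwa [coeff_map, coeff_zero] at h5

omit [NeZero m] in

/-- The irreducible subsets of the bundle have dimension at most `k`. -/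
theorem k9g1a_td (h : HC C) {Φ : MvPolynomial (Fin k) (MvPolynomial (Fin m) ℂ)} {α : Fin k →₀ ℕ} {y : Fin m → ℂˣ}
    (hy : y ∈ C) (h0 : eval (co y) (Φ.coeff α) ≠ 0) {Y : Set (Fin k ⊕ Fin m → ℂˣ)} (hY : Irr Y) (hYC : Y ⊆ VSk C Φ) :
    td ℂ Y ≤ k := by
  obtain ⟨hCi, hCd⟩ := Pool.Agent.Z8.cyl_irr (k := k) h
  obtain ⟨p, hp, hp0⟩ := k9g1a_cyl hy h0
  have h1 : Y ⊂ Cyl k C := ⟨fun q hq => (hYC hq).1, fun h2 => hp0 (hYC (h2 hp)).2⟩
  have h2 := td_lt hY hCi h1
  omega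

/-- The equations of `V` over the algebraic numbers. -/
def k9g1a_Q (C : Set (Fin m → ℂˣ)) (V : Set (Fin k ⊕ Fin m → ℂˣ)) (Φ : MvPolynomial (Fin k) (MvPolynomial (Fin m) ℂ)) :
    Prop := AlgCk Φ ∧ (∀ p ∈ V, evk Φ (xs p) (ys p) = 0) ∧ ∃ α, ∃ y ∈ C, eval (co y) (Φ.coeff α) ≠ 0

/-- There is an equation. -/
theorem k9g1a_ex (h : HC C) (hk : 1 ≤ k) (hV : Fam C V) (hVa : cl (acl (∅ : Set ℂ)) V = V) (hF : FinStab V) :
    ∃ Φ, k9g1a_Q C V Φ := by
  by_cases hy : ∃ y0 : Fin m → ℂˣ, ∀ p ∈ V, ∀ i, p (Sum.inr i) = y0 i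
  · exfalso
    obtain ⟨y0, hy0⟩ := hy
    obtain ⟨hI, htd⟩ := Pool.Agent.Z8.k8g4d_fib (k := k) y0
    have hVF : V = Cyl k {y0} := eq_of_td_le hV.irr hI (fun p hp => funext fun i => hy0 p hp i) (by
      rw [hV.dim]
      exact htd)
    obtain ⟨p, hp, g, hg⟩ := hF (Pi.single ⟨0, by omega⟩ 1) (by
      intro h0
      have h1 := congrFun h0 (⟨0, by omega⟩ : Fin k)
      rw [Pi.single_eq_same, Pi.zero_apply] at h1
      exact one_ne_zero h1)
    apply hg
    rw [hVF] at hp ⊢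
    exact hp
  · obtain ⟨Φ, hΦa, hΦ, E2, hE2, hE⟩ := Pool.Agent.Z8.exists_Phi h hk hV hVa hy
    refine ⟨Φ, hΦa, fun p hp => (hΦ hp).2, ?_⟩
    by_contra hcon
    push Not at hcon
    have h1 : ∀ y ∈ C, sp Φ (co y) = 0 := by
      intro y hy
      unfold sp
      ext α
      rw [coeff_map, hcon α y hy, coeff_zero]
    have h2 : Cyl k C ⊆ VSk C Φ := by
      intro p hp
      refine ⟨hp, ?_⟩
      have h3 : sp Φ (ys p) = 0 := h1 _ hp
      unfold evk
      rw [h3, map_zero]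
    obtain ⟨hI, htd⟩ := Pool.Agent.Z8.cyl_irr (k := k) h
    have h3 : Cyl k C ⊆ V ∪ {p | (fun i => p (Sum.inr i)) ∈ E2} := by
      intro p hp
      by_cases h4 : (fun i => p (Sum.inr i)) ∈ E2
      · exact Or.inr h4
      · exact Or.inl (hE p (h2 hp) h4)
    have h4 : ZClosed {p : Fin k ⊕ Fin m → ℂˣ | (fun i => p (Sum.inr i)) ∈ E2} := by
      have h5 : {p : Fin k ⊕ Fin m → ℂˣ | (fun i => p (Sum.inr i)) ∈ E2} =
          ⋃ y ∈ hE2.toFinset, prodSet (Set.univ : Set (Fin k → ℂˣ)) ({y} : Set (Fin m → ℂˣ)) := by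
        ext p
        simp only [Set.mem_ofPred_eq, Set.mem_iUnion, Set.Finite.mem_toFinset, exists_prop]
        constructor
        · intro h6
          exact ⟨_, h6, trivial, rfl⟩
        · rintro ⟨y, hy, -, h6⟩
          have h7 : (fun i => p (Sum.inr i)) = y := h6
          rw [h7]
          exact hy
      rw [h5]
      exact ZClosed.finset_biUnion _ fun y _ => zclosed_univ.prodSet (zclosed_singleton y)
    rcases hI.subset_or hV.irr.closed h4 h3 with h5 | h5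
    · have h6 := td_mono (k := ℂ) hI.pirr hV.irr.pirr h5
      rw [htd, hV.dim] at h6
      omega
    · have h6 : C ⊆ E2 := by
        intro y hy
        exact h5 (show (Sum.elim (fun _ => 1) y : Fin k ⊕ Fin m → ℂˣ) ∈ Cyl k C from hy)
      exact h.infinite (hE2.subset h6)

/-- The equation with the smallest number of terms. -/
theorem k9g1a_min (h : HC C) (hk : 1 ≤ k) (hV : Fam C V) (hVa : cl (acl (∅ : Set ℂ)) V = V) (hF : FinStab V) :
    ∃ Φ : MvPolynomial (Fin k) (MvPolynomial (Fin m) ℂ), AlgCk Φ ∧ V ⊆ VSk C Φ ∧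
      (∀ α ∈ Φ.support, ∃ y ∈ C, eval (co y) (Φ.coeff α) ≠ 0) ∧
      (∀ e : Fin k → ℤ, e ≠ 0 → ∃ α ∈ Φ.support, ∃ β ∈ Φ.support, ∑ j, e j * (α j : ℤ) ≠ ∑ j, e j * (β j : ℤ)) ∧
      (∀ (e : Fin k → ℤ) (c : ℤ), e ≠ 0 → (lev Φ e c).Nonempty → ∃ p ∈ V, levs Φ e c (xs p) (ys p) ≠ 0) ∧
      ∀ j, ∃ p ∈ V, evk (pderiv j Φ) (xs p) (ys p) ≠ 0 := by
  classical
  obtain ⟨Φ, hΦ, hmin⟩ : ∃ Φ, k9g1a_Q C V Φ ∧ ∀ Ψ, k9g1a_Q C V Ψ → Φ.support.card ≤ Ψ.support.card := by
    have hex : ∃ n, ∃ Φ, k9g1a_Q C V Φ ∧ Φ.support.card = n := by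
      obtain ⟨Φ, hΦ⟩ := k9g1a_ex h hk hV hVa hF
      exact ⟨_, Φ, hΦ, rfl⟩
    obtain ⟨Φ, h1, h2⟩ := Nat.find_spec hex
    refine ⟨Φ, h1, fun Ψ hΨ => ?_⟩
    rw [h2]
    exact Nat.find_min' hex ⟨Ψ, hΨ, rfl⟩
  obtain ⟨hΦa, hΦ0, α0, y0, hy0, hα0⟩ := hΦ
  -- terms cannot be dropped
  have key : ∀ (s : Finset (Fin k →₀ ℕ)) (c : (Fin k →₀ ℕ) → ℂ), s ⊆ Φ.support → (∀ α, IsAlgebraic ℚ (c α)) →
      (∀ p ∈ V, ∑ α ∈ s, c α * eval (ys p) (Φ.coeff α) * ∏ j, xs p j ^ α j = 0) →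
      (∃ α ∈ s, c α ≠ 0 ∧ ∃ y ∈ C, eval (co y) (Φ.coeff α) ≠ 0) → s = Φ.support := by
    intro s c hs hc h0 h1
    obtain ⟨α, hαs, hcα, y, hy, hαy⟩ := h1
    refine Finset.eq_of_subset_of_card_le hs ?_
    refine (hmin (k9g1a_res Φ s c) ⟨k9g1a_alg hΦa s hc, fun p hp => ?_, α, y, hy, ?_⟩).trans
      (Finset.card_le_card (k9g1a_supp Φ s c))
    · rw [k9g1a_evk]
      exact h0 p hp
    · rw [k9g1a_coeff, if_pos hαs, map_mul, eval_C]
      exact mul_ne_zero hcα hαy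
  have hα0s : α0 ∈ Φ.support := by
    rw [mem_support_iff]
    intro h1
    rw [h1, map_zero] at hα0
    exact hα0 rfl
  have hVS : V ⊆ VSk C Φ := fun p hp => ⟨hV.sub p hp, hΦ0 p hp⟩
  -- the coefficients do not vanish
  have hnv : ∀ α ∈ Φ.support, ∃ y ∈ C, eval (co y) (Φ.coeff α) ≠ 0 := by
    have h1 := key (Φ.support.filter fun α => ∃ y ∈ C, eval (co y) (Φ.coeff α) ≠ 0) (fun _ => 1)
      (Finset.filter_subset _ _) (fun _ => isAlgebraic_one) (fun p hp => ?_)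
      ⟨α0, Finset.mem_filter.2 ⟨hα0s, y0, hy0, hα0⟩, one_ne_zero, y0, hy0, hα0⟩
    · intro α hα
      rw [← h1] at hα
      exact (Finset.mem_filter.1 hα).2
    · have h2 := hΦ0 p hp
      rw [Pool.Agent.Z8.evk_eq] at h2
      rw [Finset.sum_filter]
      refine Eq.trans (Finset.sum_congr rfl fun α _ => ?_) h2
      split_ifs with h3
      · rw [one_mul]
      · have h4 : eval (ys p) (Φ.coeff α) = 0 := by
          by_contra h5
          exact h3 ⟨_, hV.sub p hp, h5⟩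
        rw [h4, zero_mul]
  -- the support is full
  have hfull : ∀ e : Fin k → ℤ, e ≠ 0 → ∃ α ∈ Φ.support, ∃ β ∈ Φ.support,
      ∑ j, e j * (α j : ℤ) ≠ ∑ j, e j * (β j : ℤ) := by
    intro e he
    by_contra hcon
    push Not at hcon
    obtain ⟨c, hc⟩ : ∃ c : ℤ, ∀ α ∈ Φ.support, ∑ j, e j * (α j : ℤ) = c := ⟨_, fun α hα => hcon α hα α0 hα0s⟩
    have hlev : lev Φ e c = Φ.support := by
      unfold lev
      exact Finset.filter_true_of_mem hc
    have hev : ∀ x y, levs Φ e c x y = evk Φ x y := by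
      intro x y
      unfold levs
      rw [hlev, Pool.Agent.Z8.evk_eq]
    obtain ⟨p, hp, g, hg⟩ := hF e he
    apply hg
    have hst : ∀ p ∈ VSk C Φ, ∀ g : ℂˣ, (fun i => p i * g ^ (Sum.elim e (0 : Fin m → ℤ)) i) ∈ VSk C Φ := by
      rintro p ⟨h1, h2⟩ g
      have h3 : ∀ i : Fin m, p (Sum.inr i) * g ^ (Sum.elim e (0 : Fin m → ℤ)) (Sum.inr i) = p (Sum.inr i) := by
        intro i
        show p (Sum.inr i) * g ^ (0 : ℤ) = _
        rw [zpow_zero, mul_one]
      refine ⟨?_, ?_⟩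
      · show (fun i : Fin m => p (Sum.inr i) * g ^ (Sum.elim e (0 : Fin m → ℤ)) (Sum.inr i)) ∈ C
        simp only [h3]
        exact h1
      · have h4 : ys (fun i => p i * g ^ (Sum.elim e (0 : Fin m → ℤ)) i) = ys p := by
          funext i
          exact congrArg Units.val (h3 i)
        rw [h4, ← hev]
        have h5 := Pool.Agent.Z8.k8g2e_smul Φ e c (fun j => p (Sum.inl j)) (ys p) g
        have h6 : levs Φ e c (fun j => ((p (Sum.inl j) : ℂˣ) : ℂ)) (ys p) = 0 := by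
          rw [hev]
          exact h2
        rw [h6, mul_zero] at h5
        exact h5
    have h7 := Pool.Agent.Z8.stable hV.irr (Pool.Agent.Z8.zclosed_VSk h.irr.closed) hVS (fun Y hY hYW => by
      rw [hV.dim]
      exact k9g1a_td h hy0 hα0 hY hYW) (Sum.elim e (0 : Fin m → ℤ)) hst p hp g
    have h8 : (fun i => p i * g ^ (Sum.elim e (0 : Fin m → ℤ)) i) =
        (Sum.elim (fun j => p (Sum.inl j) * g ^ e j) (fun i => p (Sum.inr i)) : Fin k ⊕ Fin m → ℂˣ) := by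
      funext i
      rcases i with i | i
      · rfl
      · show p (Sum.inr i) * g ^ (0 : ℤ) = _
        rw [zpow_zero, mul_one]
        rfl
    rw [← h8]
    exact h7
  refine ⟨Φ, hΦa, hVS, hnv, hfull, ?_, ?_⟩
  · intro e c he hne
    by_contra hcon
    push Not at hcon
    obtain ⟨β, hβ⟩ := hne
    have h1 := key (lev Φ e c) (fun _ => 1) (Finset.filter_subset _ _) (fun _ => isAlgebraic_one)
      (fun p hp => by
        have h2 := hcon p hp
        unfold levs at h2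
        rw [← h2]
        exact Finset.sum_congr rfl fun α _ => by rw [one_mul])
      ⟨β, hβ, one_ne_zero, hnv β (Finset.mem_filter.1 hβ).1⟩
    obtain ⟨α, hα, β', hβ', hab⟩ := hfull e he
    rw [← h1] at hα hβ'
    exact hab ((Finset.mem_filter.1 hα).2.trans (Finset.mem_filter.1 hβ').2.symm)
  · intro j
    by_contra hcon
    push Not at hcon
    have hd : ∀ p ∈ V, ∑ α ∈ Φ.support.erase α0, ((α j : ℂ) - (α0 j : ℂ)) * eval (ys p) (Φ.coeff α) *
        ∏ i, xs p i ^ α i = 0 := by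
      intro p hp
      have h1 := k9g1a_der Φ j (xs p) (ys p)
      rw [hcon p hp, mul_zero] at h1
      have h2 := hΦ0 p hp
      rw [Pool.Agent.Z8.evk_eq] at h2
      have h3 : ∑ α ∈ Φ.support, ((α j : ℂ) - (α0 j : ℂ)) * eval (ys p) (Φ.coeff α) * ∏ i, xs p i ^ α i = 0 := by
        have h4 : ∑ α ∈ Φ.support, ((α j : ℂ) - (α0 j : ℂ)) * eval (ys p) (Φ.coeff α) * ∏ i, xs p i ^ α i =
            (∑ α ∈ Φ.support, (α j : ℂ) * eval (ys p) (Φ.coeff α) * ∏ i, xs p i ^ α i) -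
              (α0 j : ℂ) * ∑ α ∈ Φ.support, eval (ys p) (Φ.coeff α) * ∏ i, xs p i ^ α i := by
          rw [Finset.mul_sum, ← Finset.sum_sub_distrib]
          exact Finset.sum_congr rfl fun α _ => by ring
        rw [h4, ← h1, h2, mul_zero, sub_zero]
      rw [← h3, ← Finset.add_sum_erase _ _ hα0s, sub_self, zero_mul, zero_mul, zero_add]
    have hj : (Pi.single j 1 : Fin k → ℤ) ≠ 0 := by
      intro h0
      have h1 := congrFun h0 j
      rw [Pi.single_eq_same, Pi.zero_apply] at h1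
      exact one_ne_zero h1
    have hsum : ∀ α : Fin k →₀ ℕ, ∑ i, (Pi.single j 1 : Fin k → ℤ) i * (α i : ℤ) = (α j : ℤ) := by
      intro α
      rw [Finset.sum_eq_single j]
      · rw [Pi.single_eq_same, one_mul]
      · intro i _ hi
        rw [Pi.single_eq_of_ne hi, zero_mul]
      · intro h0
        exact absurd (Finset.mem_univ j) h0
    obtain ⟨α, hα, β, hβ, hab⟩ := hfull _ hj
    rw [hsum, hsum] at hab
    obtain ⟨γ, hγ, hγ0⟩ : ∃ γ ∈ Φ.support, γ j ≠ α0 j := by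
      by_contra h1
      push Not at h1
      exact hab (by rw [h1 α hα, h1 β hβ])
    have h1 := key (Φ.support.erase α0) (fun α => (α j : ℂ) - (α0 j : ℂ)) (Finset.erase_subset _ _)
      (fun α => (isAlgebraic_natCast _).sub (isAlgebraic_natCast _)) hd
      ⟨γ, Finset.mem_erase.2 ⟨fun h2 => hγ0 (by rw [h2]), hγ⟩, sub_ne_zero.2 (fun h2 => hγ0 (by exact_mod_cast h2)),
        hnv γ hγ⟩
    rw [← h1] at hα0s
    exact absurd hα0s (Finset.notMem_erase _ _)

/-- Row Z9-G1a. PROOF. Let `T` be the set of the `Φ` with algebraic coefficients (`AlgCk`), `Φ ≠ 0`, vanishing on `V`, such that no coefficient `Φ_α`, `α ∈ Φ.support`, vanishes identically on `C`. It is not empty: `td V = k < k + 1 = td Cyl` (`Z8.cyl_irr`) and `cl (acl ∅) V = V`, so some polynomial over `acl ∅` in `(x, y)` vanishes on `V` and not on `Cyl k C`; drop the coefficients vanishing on `C`. Take `Φ ∈ T` with the smallest number of terms.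
(i) `full`: if `∑ e_j α_j = c` for all `α ∈ Φ.support` then `W = VSk C Φ` is stable under `(x, y) ↦ (g^e x, y)`, its irreducible subsets have `td ≤ k` (they are not `Cyl k C`: `Z8.td_lev`-like), so by `Z8.stable` `V` is stable: contradiction with `hF`. (ii) the level sums: for `e ≠ 0` and nonempty `lev Φ e c` the sum over `lev Φ e c` has fewer terms by (i), so it does not vanish on `V` (minimality).
(iii) the derivative: choose `α0 ∈ Φ.support`; `x_j ∂Φ/∂x_j - (α0)_j Φ` has fewer terms, and it is not zero for `j = 0` by (i) for `e = Pi.single j 1`; so it does not vanish on `V`, so `∂Φ/∂x_j` does not vanish on `V`. (iv) `S`: `Z7.exists_Cv h` gives the curve data `D` with `D.C = co '' C`, `Rat`, `HHp`; enlarge `D.E` by the finitely many points of `C` where one of the coefficients vanishes (`HC.fin_poly`); `j0 = ⟨0, hk⟩`. See `Z8.exists_Sk` (Z8/G0.lean). -/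
theorem exists_Sk (h : HC C) (hk : 1 ≤ k) (hV : Fam C V) (hVa : cl (acl (∅ : Set ℂ)) V = V) (hF : FinStab V) :
    ∃ S : Sk k m, S.C = co '' C ∧ (Rat S.toCv ∧ HHp S.toCv) ∧ AlgCk S.Φ ∧ V ⊆ VSk C S.Φ ∧
      (∀ (e : Fin k → ℤ) (c : ℤ), e ≠ 0 → (lev S.Φ e c).Nonempty → ∃ p ∈ V, levs S.Φ e c (xs p) (ys p) ≠ 0) ∧
      ∃ p ∈ V, evk (pderiv S.j0 S.Φ) (xs p) (ys p) ≠ 0 := by
  classical
  obtain ⟨Φ, hΦa, hVS, hnv, hfull, hlev, hder⟩ := k9g1a_min h hk hV hVa hF
  obtain ⟨D, hD, hR, hHH⟩ := Pool.Agent.Z7.exists_Cv h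
  have hcoef : ∀ α ∈ Φ.support, {y : Fin m → ℂ | y ∈ co '' C ∧ MvPolynomial.eval y (Φ.coeff α) = 0}.Finite :=
    fun α hα => Pool.Agent.Z7.g0_img (h.fin_poly (hnv α hα))
  refine ⟨{
    C := D.C
    E := D.E ∪ ⋃ α ∈ Φ.support, {y : Fin m → ℂ | y ∈ co '' C ∧ MvPolynomial.eval y (Φ.coeff α) = 0}
    hE := D.hE.union (Set.Finite.biUnion (Finset.finite_toSet _) hcoef)
    q := D.q
    hq0 := D.hq0
    ne := D.ne
    hq := D.hq
    sep := fun y hy hyE i => D.sep y hy (fun h1 => hyE (Or.inl h1)) i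
    cpt := D.cpt
    irr := D.irr
    fib := D.fib
    mon := D.mon
    Φ := Φ
    full := hfull
    coef := ?_
    j0 := ⟨0, hk⟩ }, hD, ⟨hR, fun u v huv y0 hy0 hyE => hHH u v huv y0 hy0 (fun h1 => hyE (Or.inl h1))⟩,
    hΦa, hVS, hlev, hder _⟩
  intro y hy hyE α hα h1
  apply hyE
  right
  rw [Set.mem_iUnion₂]
  exact ⟨α, hα, hD ▸ hy, h1⟩

open Pool.Agent.Z8 (k8g2f_at k8g2f_at_gen k8g2f_zero k8g2f_φ k8g2f_inj) in
theorem k9g1b_y (h : HC C) {S : Sk k m} (hS : S.C = co '' C) (hV : Fam C V)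
    (hy : ¬ ∃ y0 : Fin m → ℂˣ, ∀ p ∈ V, ∀ i, p (Sum.inr i) = y0 i) (i : Fin m) :
    IsAlgebraic (Algebra.adjoin ℂ (gen ℂ V '' Set.range (k8g2f_φ (m := m) S.j0)))
      (gen ℂ V (Sum.inr i)) := by
  classical
  have h0 : gen ℂ V (Sum.inr 0) ∈
      Algebra.adjoin ℂ (gen ℂ V '' Set.range (k8g2f_φ (m := m) S.j0)) :=
    Algebra.subset_adjoin ⟨_, ⟨S.j0, by simp [k8g2f_φ]⟩, rfl⟩
  obtain ⟨n, hn⟩ : ∃ n, (S.q i).coeff n ≠ 0 := by
    by_contra hcon
    push Not at hcon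
    exact S.hq0 i (Polynomial.ext fun n => by rw [hcon n, Polynomial.coeff_zero])
  have hcoinj : Function.Injective (co : (Fin m → ℂˣ) → Fin m → ℂ) := fun a b hab =>
    funext fun i => Units.ext (congrFun hab i)
  refine ⟨(S.q i).map ((Polynomial.aeval (⟨_, h0⟩ :
    Algebra.adjoin ℂ (gen ℂ V '' Set.range (k8g2f_φ (m := m) S.j0)))) : Polynomial ℂ →ₐ[ℂ] _).toRingHom, ?_, ?_⟩
  · intro hz
    have h1 := congrArg (fun G => G.coeff n) hz
    simp only [Polynomial.coeff_map, Polynomial.coeff_zero] at h1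
    have h2 : Polynomial.aeval (gen ℂ V (Sum.inr 0)) ((S.q i).coeff n) = 0 := by
      have h3 := congrArg (fun z : Algebra.adjoin ℂ (gen ℂ V '' Set.range (k8g2f_φ (m := m) S.j0)) =>
        (z : MvPolynomial (Fin k ⊕ Fin m) ℂ ⧸ vI ℂ V)) h1
      simp only [ZeroMemClass.coe_zero] at h3
      rw [← h3]
      exact (Polynomial.aeval_algHom_apply (Subalgebra.val _) (⟨_, h0⟩ :
        Algebra.adjoin ℂ (gen ℂ V '' Set.range (k8g2f_φ (m := m) S.j0))) _)
    have h4 : ∀ p ∈ V, (p (Sum.inr 0) : ℂ) ∈ ((S.q i).coeff n).roots.toFinset := by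
      intro p hp
      rw [Multiset.mem_toFinset, Polynomial.mem_roots hn]
      have h5 := congrArg (k8g2f_at hp) h2
      rw [← Polynomial.aeval_algHom_apply, k8g2f_at_gen, map_zero] at h5
      exact h5
    have hfin : {y : Fin m → ℂˣ | y ∈ C ∧ (y 0 : ℂ) ∈ ((S.q i).coeff n).roots.toFinset}.Finite := by
      refine Set.Finite.of_finite_image (f := co) ?_ hcoinj.injOn
      refine ((((S.q i).coeff n).roots.toFinset.finite_toSet).biUnion fun t _ => S.fib t).subset ?_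
      rintro _ ⟨y, ⟨hy1, hy2⟩, rfl⟩
      rw [Set.mem_iUnion₂]
      refine ⟨(y 0 : ℂ), hy2, ?_, rfl⟩
      rw [hS]
      exact ⟨y, hy1, rfl⟩
    have hcl : ∀ y : Fin m → ℂˣ, ZClosed {p : Fin k ⊕ Fin m → ℂˣ | ∀ i, p (Sum.inr i) = y i} := by
      intro y
      have h6 : {p : Fin k ⊕ Fin m → ℂˣ | ∀ i, p (Sum.inr i) = y i} =
          ⋂ i : Fin m, zp (X (Sum.inr i) - MvPolynomial.C ((y i : ℂˣ) : ℂ) : MvPolynomial (Fin k ⊕ Fin m) ℂ) := by
        ext p
        rw [Set.mem_iInter]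
        refine forall_congr' fun i => ?_
        rw [mem_zp, map_sub, aeval_X, MvPolynomial.aeval_C, sub_eq_zero]
        constructor
        · intro h7
          show ((p (Sum.inr i) : ℂˣ) : ℂ) = _
          rw [h7]
          rfl
        · intro h7
          exact Units.ext h7
      rw [h6]
      exact ZClosed.iInter fun i => zclosed_zp _
    have h5 : V ⊆ ⋃ W ∈ hfin.toFinset.image (fun y : Fin m → ℂˣ => {p : Fin k ⊕ Fin m → ℂˣ | ∀ i, p (Sum.inr i) = y i}), W := by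
      intro p hp
      refine Set.mem_iUnion₂.2 ⟨_, Finset.mem_image_of_mem _ (hfin.mem_toFinset.2 ⟨hV.sub p hp, h4 p hp⟩), ?_⟩
      intro i
      rfl
    obtain ⟨W, hW, h7⟩ := hV.irr.subset_of_finset _ (by
      intro W hW
      obtain ⟨y, -, rfl⟩ := Finset.mem_image.1 hW
      exact hcl y) h5
    obtain ⟨y, -, rfl⟩ := Finset.mem_image.1 hW
    exact hy ⟨y, fun p hp => h7 hp⟩
  · apply k8g2f_zero
    intro p hp
    rw [Polynomial.aeval_def, Polynomial.eval₂_map]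
    show (k8g2f_at hp).toRingHom _ = 0
    rw [Polynomial.hom_eval₂]
    have h1 := S.hq (ys p) (by
      rw [hS]
      exact ⟨_, hV.sub p hp, rfl⟩) i
    unfold Pool.Agent.Z5.ev2 at h1
    rw [Polynomial.eval_map] at h1
    have h2 : (k8g2f_at hp).toRingHom (gen ℂ V (Sum.inr i)) = ys p i := k8g2f_at_gen hp _
    rw [h2]
    refine Eq.trans ?_ h1
    congr 1
    refine Polynomial.ringHom_ext (fun r => ?_) ?_
    · simp
    · simp only [RingHom.comp_apply, Polynomial.coe_evalRingHom, Polynomial.eval_X]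
      show k8g2f_at hp (algebraMap _ _ (Polynomial.aeval _ Polynomial.X)) = _
      rw [Polynomial.aeval_X]
      exact k8g2f_at_gen hp _

open Pool.Agent.Z8 (k8g2f_at k8g2f_at_gen k8g2f_zero k8g2f_φ k8g2f_inj evk_eq) in
theorem k9g1b_x {S : Sk k m} (hVS : V ⊆ VSk C S.Φ)
    (hlev : ∀ (e : Fin k → ℤ) (c : ℤ), e ≠ 0 → (lev S.Φ e c).Nonempty → ∃ p ∈ V, levs S.Φ e c (xs p) (ys p) ≠ 0) :
    IsAlgebraic (Algebra.adjoin ℂ (gen ℂ V '' {(Sum.inl S.j0 : Fin k ⊕ Fin m)}ᶜ))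
      (gen ℂ V (Sum.inl S.j0)) := by
  classical
  obtain ⟨R1, hR1⟩ : ∃ R1 : Subalgebra ℂ (MvPolynomial (Fin k ⊕ Fin m) ℂ ⧸ vI ℂ V),
    R1 = Algebra.adjoin ℂ (gen ℂ V '' {(Sum.inl S.j0 : Fin k ⊕ Fin m)}ᶜ) := ⟨_, rfl⟩
  have hm : ∀ i : Fin k ⊕ Fin m, i ≠ Sum.inl S.j0 → gen ℂ V i ∈ R1 := fun i hi =>
    hR1 ▸ Algebra.subset_adjoin ⟨i, hi, rfl⟩
  rw [← hR1]
  let gy : Fin m → R1 := fun i => ⟨gen ℂ _ (Sum.inr i), hm _ (by simp)⟩
  let gx : Fin k → R1 := fun j => if hj : j = S.j0 then 1 else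
    ⟨gen ℂ _ (Sum.inl j), hm _ (fun h => hj (Sum.inl_injective h))⟩
  let c : (Fin k →₀ ℕ) → R1 := fun α => aeval gy (S.Φ.coeff α) * ∏ j, gx j ^ α j
  have key : ∀ p, ∀ hp : p ∈ V, ∀ α : Fin k →₀ ℕ, k8g2f_at hp (c α) * (xs p S.j0) ^ (α S.j0) =
      eval (ys p) (S.Φ.coeff α) * ∏ j, xs p j ^ α j := by
    intro p hp α
    let ψ : R1 →ₐ[ℂ] ℂ := (k8g2f_at hp).comp R1.val
    have h1 : k8g2f_at hp (c α) = ψ (c α) := rfl
    have h2 : ψ (aeval gy (S.Φ.coeff α)) = eval (ys p) (S.Φ.coeff α) := by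
      rw [MvPolynomial.comp_aeval_apply]
      have h3 : (fun i => ψ (gy i)) = ys p := by
        funext i
        exact k8g2f_at_gen hp _
      rw [h3, MvPolynomial.aeval_eq_eval]
    have h4 : ∀ j, j ≠ S.j0 → ψ (gx j) = xs p j := by
      intro j hj
      have h5 : gx j = ⟨gen ℂ _ (Sum.inl j), hm _ (fun h => hj (Sum.inl_injective h))⟩ := dif_neg hj
      rw [h5]
      exact k8g2f_at_gen hp _
    have h6 : ψ (gx S.j0) = 1 := by
      have h7 : gx S.j0 = 1 := dif_pos rfl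
      rw [h7, map_one]
    rw [h1]
    show ψ (aeval gy (S.Φ.coeff α) * ∏ j, gx j ^ α j) * _ = _
    rw [map_mul, h2, map_prod, ← Finset.mul_prod_erase Finset.univ (fun j => ψ (gx j ^ α j)) (Finset.mem_univ S.j0),
      ← Finset.mul_prod_erase Finset.univ (fun j => xs p j ^ α j) (Finset.mem_univ S.j0), map_pow, h6, one_pow, one_mul]
    have h8 : ∏ j ∈ Finset.univ.erase S.j0, ψ (gx j ^ α j) = ∏ j ∈ Finset.univ.erase S.j0, xs p j ^ α j := by
      refine Finset.prod_congr rfl fun j hj => ?_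
      rw [map_pow, h4 j (Finset.ne_of_mem_erase hj)]
    rw [h8]
    ring
  have he : (Pi.single S.j0 1 : Fin k → ℤ) ≠ 0 := by
    intro h0
    have := congrFun h0 S.j0
    rw [Pi.single_eq_same, Pi.zero_apply] at this
    exact one_ne_zero this
  have hlevα : ∀ α : Fin k →₀ ℕ, ∑ j, (Pi.single S.j0 1 : Fin k → ℤ) j * (α j : ℤ) = (α S.j0 : ℤ) := by
    intro α
    rw [Finset.sum_eq_single S.j0]
    · rw [Pi.single_eq_same, one_mul]
    · intro j _ hj
      rw [Pi.single_eq_of_ne hj, zero_mul]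
    · intro h
      exact absurd (Finset.mem_univ _) h
  obtain ⟨α0, hα0, -⟩ := S.full _ he
  refine ⟨∑ α ∈ S.Φ.support, Polynomial.monomial (α S.j0) (c α), ?_, ?_⟩
  · intro hz
    have h1 := congrArg (fun G => G.coeff (α0 S.j0)) hz
    simp only [Polynomial.finsetSum_coeff, Polynomial.coeff_monomial, Polynomial.coeff_zero] at h1
    rw [← Finset.sum_filter] at h1
    obtain ⟨p, hp, hne⟩ := hlev _ (α0 S.j0 : ℤ) he ⟨α0, Finset.mem_filter.2 ⟨hα0, hlevα α0⟩⟩
    apply hne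
    unfold levs lev
    have h2 : S.Φ.support.filter (fun α => ∑ j, (Pi.single S.j0 1 : Fin k → ℤ) j * (α j : ℤ) = (α0 S.j0 : ℤ)) =
        S.Φ.support.filter (fun α => α S.j0 = α0 S.j0) := by
      refine Finset.filter_congr fun α _ => ?_
      rw [hlevα α, Nat.cast_inj]
    rw [h2]
    have h3 := congrArg (fun z : R1 => k8g2f_at hp (z : MvPolynomial (Fin k ⊕ Fin m) ℂ ⧸ vI ℂ V)) h1
    simp only [ZeroMemClass.coe_zero, map_zero, AddSubmonoidClass.coe_finsetSum, map_sum] at h3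
    have h4 := congrArg (fun z : ℂ => z * xs p S.j0 ^ (α0 S.j0)) h3
    simp only [zero_mul, Finset.sum_mul] at h4
    rw [← h4]
    refine Finset.sum_congr rfl fun α hα => ?_
    rw [← key p hp α, (Finset.mem_filter.1 hα).2]
  · apply k8g2f_zero
    intro p hp
    have h1 := (hVS hp).2
    rw [evk_eq] at h1
    rw [map_sum, map_sum, ← h1]
    refine Finset.sum_congr rfl fun α _ => ?_
    rw [Polynomial.aeval_monomial, map_mul, map_pow, k8g2f_at_gen, ← key p hp α]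
    rfl

open Pool.Agent.Z8 (k8g2f_φ k8g2f_inj) in

/-- Row Z9-G1b. Independence of `x_j`, `j ≠ j0`, and `y_0` on `V`. PROOF. As `Z8.indep` (Z8/G2.lean: `k8g2f_y`, `k8g2f_x`): `y_i` is algebraic over `y_0` on `V` (the curve: `S.hq`, `S.hq0`; the `y`-part is not constant on `V`: `hy`), `x_j0` is algebraic over the other coordinates (`Φ(x, y) = 0` is a polynomial in `x_j0` whose coefficients are the level sums for `e = Pi.single j0 1`, not zero on `V` by `hlev`, at least two of them by `S.full`); `td V = k`. -/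
theorem indep (h : HC C) {S : Sk k m} (hS : S.C = co '' C) (hV : Fam C V) (hVS : V ⊆ VSk C S.Φ)
    (hy : ¬ ∃ y0 : Fin m → ℂˣ, ∀ p ∈ V, ∀ i, p (Sum.inr i) = y0 i)
    (hlev : ∀ (e : Fin k → ℤ) (c : ℤ), e ≠ 0 → (lev S.Φ e c).Nonempty → ∃ p ∈ V, levs S.Φ e c (xs p) (ys p) ≠ 0)
    (L : ℕ) (f : (Fin k → Fin (L + 1)) → ℤ) (hf : f ≠ 0) :
    ∃ p ∈ V, ev f (Function.update (xs p) S.j0 (ys p 0)) ≠ 0 := by
  classical
  have hP := vI_isPrime (k := ℂ) hV.irr.pirr
  have hne : Nontrivial (MvPolynomial (Fin k ⊕ Fin m) ℂ ⧸ vI ℂ V) := inferInstance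
  have halg : ∀ i, IsAlgebraic (Algebra.adjoin ℂ (gen ℂ V '' Set.range (k8g2f_φ (m := m) S.j0)))
      (gen ℂ V i) := by
    have hx : ∀ j, j ≠ S.j0 → IsAlgebraic (Algebra.adjoin ℂ (gen ℂ V '' Set.range (k8g2f_φ (m := m) S.j0)))
        (gen ℂ V (Sum.inl j)) := by
      intro j hj
      exact isAlgebraic_algebraMap (⟨gen ℂ V (Sum.inl j), Algebra.subset_adjoin ⟨_, ⟨j, by
        unfold k8g2f_φ
        rw [if_neg hj]⟩, rfl⟩⟩ :
        Algebra.adjoin ℂ (gen ℂ V '' Set.range (k8g2f_φ (m := m) S.j0)))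
    rintro (j | i)
    · by_cases hj : j = S.j0
      · rw [hj]
        refine IsAlgebraic.adjoin_of_forall_isAlgebraic ?_ (k9g1b_x hVS hlev)
        rintro _ ⟨⟨i, hi, rfl⟩, -⟩
        rcases i with j | i
        · exact hx j fun h => hi (by rw [h]; rfl)
        · exact k9g1b_y h hS hV hy i
      · exact hx j hj
    · exact k9g1b_y h hS hV hy i
  obtain ⟨s, hs0, hs, hc⟩ := exists_basis hV.irr.pirr (Set.range (k8g2f_φ (m := m) S.j0)) halg
  rw [hV.dim] at hc
  have hseq : s = Set.range (k8g2f_φ (m := m) S.j0) := by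
    refine Set.eq_of_subset_of_ncard_le hs0 ?_ (Set.toFinite _)
    rw [hc, ← Set.image_univ, Set.ncard_image_of_injective _ (k8g2f_inj _), Set.ncard_univ,
      Nat.card_eq_fintype_card, Fintype.card_fin]
  rw [hseq, ind_iff_indF] at hs
  have hF := hs.comp (fun j : Fin k => (⟨k8g2f_φ (m := m) S.j0 j, j, rfl⟩ : Set.range (k8g2f_φ (m := m) S.j0))) (by
    intro a b hab
    exact k8g2f_inj _ (congrArg Subtype.val hab))
  by_contra hcon
  push Not at hcon
  have hp0 := hF (MvPolynomial.map (Int.castRingHom ℂ) (toP f)) (by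
    intro p hp
    have h1 := hcon p hp
    rw [← aeval_toP] at h1
    have h2 : (fun i : Fin k => co p ((Subtype.val ∘ fun j : Fin k =>
        (⟨k8g2f_φ (m := m) S.j0 j, j, rfl⟩ : Set.range (k8g2f_φ (m := m) S.j0))) i)) =
        Function.update (xs p) S.j0 (ys p 0) := by
      funext j
      show co p (k8g2f_φ (m := m) S.j0 j) = _
      unfold k8g2f_φ
      by_cases hj : j = S.j0
      · rw [if_pos hj, hj, Function.update_self]
        rfl
      · rw [if_neg hj, Function.update_of_ne hj]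
        rfl
    rw [h2]
    have h3 : (Int.castRingHom ℂ) = algebraMap ℤ ℂ := rfl
    rw [h3, MvPolynomial.aeval_map_algebraMap]
    exact h1)
  apply toP_ne hf
  exact MvPolynomial.map_injective _ Int.cast_injective (by rw [hp0, map_zero])

/-- Row Z9-G1c. As `Z8.exists_Ar` (Z8/G1.lean); `hsm` as `hP` (the polynomial `pderiv S.j0 S.Φ` is over `F`, a value at a conjugate point is a conjugate of the value). -/
theorem exists_Ar (h : HC C) {S : Sk k m} (hk : 1 ≤ k) (hm : 2 ≤ m) (hS : S.C = co '' C)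
    (hR : Rat S.toCv ∧ HHp S.toCv) (hΦa : AlgCk S.Φ) (P : ℕ → Fin k ⊕ Fin m → ℂˣ)
    (hPV : ∀ n, P n ∈ VSk C S.Φ) (hPa : ∀ n i, IsAlgebraic ℚ (P n i : ℂ))
    (hPs : ∀ n (e : Fin k → ℤ) (c : ℤ), e ≠ 0 → (lev S.Φ e c).Nonempty → levs S.Φ e c (xs (P n)) (ys (P n)) ≠ 0)
    (hPd : ∀ n, evk (pderiv S.j0 S.Φ) (xs (P n)) (ys (P n)) ≠ 0)
    (hPg : ∀ (L : ℕ) (f : (Fin k → Fin (L + 1)) → ℤ), f ≠ 0 →
      ∀ᶠ n in cofinite, ev f (Function.update (xs (P n)) S.j0 (ys (P n) 0)) ≠ 0) :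
    ∃ (F : Type) (_ : Field F) (_ : NumberField F) (_ : Algebra F ℂ) (A : Ar F S) (φ : ℕ → ℕ),
      Function.Injective φ ∧ ∀ n i, A.j n ((Sum.elim (A.x n) (A.y n) : Fin k ⊕ Fin m → A.K n) i) = (P (φ n) i : ℂ) := by
  classical
  obtain ⟨S1, hS1, hS1a, hgal⟩ := Z7.g1_gal h.alg
  obtain ⟨S2, hS2def⟩ : ∃ S2 : Set ℂ, S2 = ⋃ a ∈ S.Φ.support, ((S.Φ.coeff a).coeffs : Set ℂ) := ⟨_, rfl⟩
  have hS2 : S2.Finite := by
    rw [hS2def]
    exact Set.Finite.biUnion S.Φ.support.finite_toSet fun a _ => Finset.finite_toSet _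
  have hS2a : ∀ z ∈ S2, IsIntegral ℚ z := by
    intro z hz
    rw [hS2def] at hz
    simp only [Set.mem_iUnion] at hz
    obtain ⟨a, -, hz⟩ := hz
    obtain ⟨b, -, rfl⟩ := MvPolynomial.mem_coeffs_iff.1 (Finset.mem_coe.1 hz)
    exact (hΦa a b).isIntegral
  have hSfin : (S1 ∪ S2).Finite := hS1.union hS2
  have hSf : Finite (S1 ∪ S2 : Set ℂ) := hSfin
  let F : IntermediateField ℚ ℂ := IntermediateField.adjoin ℚ (S1 ∪ S2)
  have hFfin : FiniteDimensional ℚ F := by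
    refine IntermediateField.finiteDimensional_adjoin ?_
    rintro z (hz | hz)
    · exact hS1a z hz
    · exact hS2a z hz
  have hFn : NumberField F := ⟨⟩
  have hmem : ∀ z ∈ S1 ∪ S2, z ∈ F := fun z hz => IntermediateField.subset_adjoin ℚ _ hz
  obtain ⟨Φ', hΦ'⟩ := Z7.g1_lift2 F S.Φ (by
    intro a b
    by_cases h0 : (S.Φ.coeff a).coeff b = 0
    · rw [h0]
      exact zero_mem F
    · apply hmem
      right
      have ha : a ∈ S.Φ.support := by
        rw [mem_support_iff]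
        intro h1
        rw [h1, coeff_zero] at h0
        exact h0 rfl
      rw [hS2def]
      exact Set.mem_biUnion ha (Finset.mem_coe.2 (coeff_mem_coeffs b h0)))
  have hgal' := hgal F (fun z hz => hmem z (Or.inl hz))
  let T : ℕ → Set ℂ := fun n => Set.range (fun i => (P n i : ℂ))
  let K : ℕ → IntermediateField F ℂ := fun n => IntermediateField.adjoin F (T n)
  have hKfin : ∀ n, FiniteDimensional F (K n) := by
    intro n
    have hT : Finite (T n) := (Set.finite_range _ : (Set.range (fun i => (P n i : ℂ))).Finite)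
    refine IntermediateField.finiteDimensional_adjoin ?_
    rintro z ⟨i, rfl⟩
    exact (hPa n i).isIntegral.tower_top
  have hKn : ∀ n, NumberField (K n) := by
    intro n
    have h1 := hKfin n
    have h2 : FiniteDimensional ℚ (K n) := FiniteDimensional.trans ℚ F (K n)
    exact ⟨⟩
  have hPm : ∀ n i, (P n i : ℂ) ∈ K n := fun n i => IntermediateField.subset_adjoin F (T n) ⟨i, rfl⟩
  let y : ∀ n, Fin m → K n := fun n i => ⟨P n (Sum.inr i), hPm n _⟩
  let x : ∀ n, Fin k → K n := fun n i => ⟨P n (Sum.inl i), hPm n _⟩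
  have hy : ∀ n (σ : K n →ₐ[F] ℂ), (fun i => σ (y n i)) ∈ S.C := by
    intro n σ
    rw [hS]
    exact hgal' (K n) (K n).val σ (y n) ⟨_, (hPV n).1, rfl⟩
  have hP : ∀ n (σ : K n →ₐ[F] ℂ), evk S.Φ (fun i => σ (x n i)) (fun i => σ (y n i)) = 0 := by
    intro n σ
    have e1 := Pool.Agent.Z8.k8g1_ev (K n).val Φ' (x n) (y n)
    rw [hΦ'] at e1
    have e2 : (K n).val (eval (x n) (map ((aeval (y n) : MvPolynomial (Fin m) F →ₐ[F] K n) :
        MvPolynomial (Fin m) F →+* K n) Φ')) = 0 := by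
      rw [← e1]
      exact (hPV n).2
    have e3 : eval (x n) (map ((aeval (y n) : MvPolynomial (Fin m) F →ₐ[F] K n) :
        MvPolynomial (Fin m) F →+* K n) Φ') = 0 := by
      apply ((K n).val : K n →+* ℂ).injective
      rw [map_zero]
      exact e2
    have e4 := Pool.Agent.Z8.k8g1_ev σ Φ' (x n) (y n)
    rw [hΦ', e3, map_zero] at e4
    exact e4
  have hval : ∀ t : ℂ, {n | (P n (Sum.inr 0) : ℂ) = t}.Finite := by
    intro t
    by_cases hne : {n | (P n (Sum.inr 0) : ℂ) = t}.Nonempty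
    · obtain ⟨n0, hn0⟩ := hne
      have ht : IsAlgebraic ℚ t := by
        rw [← (show (P n0 (Sum.inr 0) : ℂ) = t from hn0)]
        exact hPa n0 _
      obtain ⟨L, f, hf0, hf⟩ := Pool.Agent.Z8.k8g1_one S.j0 ht
      have h1 := hPg L f hf0
      rw [Filter.eventually_cofinite] at h1
      refine h1.subset ?_
      intro n hn hne
      apply hne
      refine hf _ ?_
      rw [Function.update_self]
      exact hn
    · rw [Set.not_nonempty_iff_eq_empty] at hne
      rw [hne]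
      exact Set.finite_empty
  have hbad : {n | ∃ σ : K n →ₐ[F] ℂ, (fun i => σ (y n i)) ∈ S.E}.Finite := by
    have hfin : (⋃ e ∈ S.E, ⋃ t ∈ (minpoly F (e 0)).rootSet ℂ, {n | (P n (Sum.inr 0) : ℂ) = t}).Finite := by
      refine S.hE.biUnion fun e _ => ?_
      exact (Polynomial.rootSet_finite _ _).biUnion fun t _ => hval t
    refine hfin.subset ?_
    rintro n ⟨σ, hσ⟩
    simp only [Set.mem_iUnion]
    refine ⟨_, hσ, (P n (Sum.inr 0) : ℂ), ?_, rfl⟩
    rw [Polynomial.mem_rootSet]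
    have hK := hKfin n
    have hint : IsIntegral F (y n 0) := IsIntegral.of_finite F _
    have e1 : minpoly F (σ (y n 0)) = minpoly F (y n 0) :=
      minpoly.algHom_eq σ (σ : K n →+* ℂ).injective _
    have e2 : minpoly F ((K n).val (y n 0)) = minpoly F (y n 0) :=
      minpoly.algHom_eq _ ((K n).val : K n →+* ℂ).injective _
    refine ⟨?_, ?_⟩
    · show minpoly F (σ (y n 0)) ≠ 0
      rw [e1]
      exact minpoly.ne_zero hint
    · show Polynomial.aeval (P n (Sum.inr 0) : ℂ) (minpoly F (σ (y n 0))) = 0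
      rw [e1, ← e2]
      exact minpoly.aeval F _
  have hinf := hbad.infinite_compl
  have e := hinf.natEmbedding
  obtain ⟨φ, hφe⟩ : ∃ φ : ℕ → ℕ, ∀ n, φ n = (e n : ℕ) := ⟨fun n => (e n : ℕ), fun n => rfl⟩
  have hφ : Function.Injective φ := fun n n' h => e.injective (Subtype.ext (by rw [← hφe, ← hφe, h]))
  have hφ' : ∀ n (σ : K (φ n) →ₐ[F] ℂ), (fun i => σ (y (φ n) i)) ∉ S.E := by
    intro n
    rw [hφe]
    exact fun σ hσ => (e n).2 ⟨σ, hσ⟩
  have hsub : ∀ n (e : Fin k → ℤ) (c : ℤ), e ≠ 0 → (lev S.Φ e c).Nonempty →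
      ∑ α ∈ lev S.Φ e c, MvPolynomial.aeval (y n) (Φ'.coeff α) * ∏ i, x n i ^ α i ≠ 0 := by
    intro n e c he hne h0
    apply hPs n e c he hne
    have h1 := congrArg (K n).val h0
    rw [map_zero, map_sum] at h1
    rw [← h1]
    unfold levs
    refine Finset.sum_congr rfl fun α _ => ?_
    rw [map_mul, map_prod, Pool.Agent.Z8.k8g1_co, hΦ']
    simp only [map_pow]
    rfl
  have hgen : ∀ (L : ℕ) (f : (Fin k → Fin (L + 1)) → ℤ), f ≠ 0 →
      ∀ᶠ n in cofinite, ev f (Function.update (x n) S.j0 (y n 0)) ≠ 0 := by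
    intro L f hf
    filter_upwards [hPg L f hf] with n hn h0
    apply hn
    have h1 := Z5.k0_ev ((K n).val : K n →+* ℂ) f (Function.update (x n) S.j0 (y n 0))
    rw [h0, map_zero] at h1
    rw [h1]
    congr 1
    funext i
    by_cases hi : i = S.j0
    · subst hi
      rw [Function.update_self, Function.update_self]
      rfl
    · rw [Function.update_of_ne hi, Function.update_of_ne hi]
      rfl
  have hsm : ∀ n (σ : K n →ₐ[F] ℂ), evk (MvPolynomial.pderiv S.j0 S.Φ) (fun i => σ (x n i)) (fun i => σ (y n i)) ≠ 0 := by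
    intro n σ
    have hΦd : MvPolynomial.map (MvPolynomial.map (algebraMap F ℂ)) (MvPolynomial.pderiv S.j0 Φ') =
        MvPolynomial.pderiv S.j0 S.Φ := by
      rw [← hΦ', MvPolynomial.pderiv_map]
    have e1 := Pool.Agent.Z8.k8g1_ev (K n).val (MvPolynomial.pderiv S.j0 Φ') (x n) (y n)
    have e4 := Pool.Agent.Z8.k8g1_ev σ (MvPolynomial.pderiv S.j0 Φ') (x n) (y n)
    rw [hΦd] at e1 e4
    intro h0
    rw [h0] at e4
    have e5 := (map_eq_zero_iff (σ : K n →+* ℂ) (σ : K n →+* ℂ).injective).1 e4.symm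
    apply hPd n
    rw [e5, map_zero] at e1
    exact e1
  have hCinf : S.C.Infinite := by
    rw [hS]
    refine h.infinite.image ?_
    intro a _ b _ hab
    funext i
    exact Units.ext (congrFun hab i)
  let A : Ar F S :=
    { hk := hk
      hm := hm
      rat := hR.1
      hH := hR.2
      inf := hCinf
      Φ := Φ'
      hΦ := hΦ'
      K := fun n => K (φ n)
      fld := fun n => inferInstance
      nf := fun n => hKn (φ n)
      alg := fun n => inferInstance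
      fd := fun n => hKfin (φ n)
      j := fun n => (K (φ n)).val
      x := fun n => x (φ n)
      y := fun n => y (φ n)
      hx := fun n i h => (P (φ n) (Sum.inl i)).ne_zero (congrArg Subtype.val h)
      hy := fun n => hy (φ n)
      hyE := hφ'
      hP := fun n => hP (φ n)
      hsub := fun n => hsub (φ n)
      hsm := fun n => hsm (φ n)
      hgen := fun L f hf => hφ.tendsto_cofinite.eventually (hgen L f hf) }
  refine ⟨F, inferInstance, hFn, inferInstance, A, φ, hφ, ?_⟩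
  intro n i
  rcases i with i | i
  · rfl
  · rfl

end Pool.Agent.Z9
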