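import Pool.Agent.Z9.G0
import Pool.Agent.Z9.CT

open MvPolynomial Pool.Agent.MP_dd1803_nt Pool.Agent.ZPA Pool.Agent.ZL2

namespace Pool.Agent.Z9

open Filter Topology
open Pool.Agent.Z7 (HC Cv HHp Rat)
open Pool.Agent.Z8 (Fam FinStab xs ys VSk Cyl AlgCk levs lev evk sp)

variable {k m : ℕ}

/-- The monomial map `(x, y) ↦ (x_j^N ∏_i y_i^(- n_ji))_j`. -/
def mu (N : ℕ) (nn : Fin k → Fin m → ℤ) (p : Fin k ⊕ Fin m → ℂˣ) : Fin k → ℂˣ :=
  fun j => p (Sum.inl j) ^ N * ∏ i, p (Sum.inr i) ^ (- nn j i)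

/-- Independent coordinates which are coordinates of a projection. -/
theorem k9g2a_inter {κ κ' : Type} [Finite κ] [Finite κ'] {X : Set (κ → ℂˣ)} (hX : PIrr X) {e : κ' → κ}
    (he : Function.Injective e) {s : Set κ} (hs : Ind ℂ X s) :
    (s ∩ Set.range e).ncard ≤ td ℂ (pull e '' X) := by
  rw [ind_iff_indF] at hs
  have h2 := hs.comp (fun j : (e ⁻¹' s : Set κ') => (⟨e j.1, j.2⟩ : s)) (by
    intro a b hab
    exact Subtype.ext (he (Subtype.ext_iff.mp hab)))
  have h3 : IndF ℂ (pull e '' X) (Subtype.val : (e ⁻¹' s : Set κ') → κ') :=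
    h2.image (Φ := pull e) (fun x _ i => rfl)
  have h4 := h3.card_le (hX.pull e)
  rw [Nat.card_coe_set_eq] at h4
  have h5 : s ∩ Set.range e = e '' (e ⁻¹' s) := by
    rw [Set.image_preimage_eq_inter_range]
  rw [h5, Set.ncard_image_of_injective _ he]
  exact h4

theorem k9g2a_ratMap (S : Set (Fin k ⊕ Fin m → ℂˣ)) (N : ℕ) (nn : Fin k → Fin m → ℤ) : RatMap S (mu N nn) := by
  have h1 : mu N nn = mono (fun j => Sum.elim (Pi.single j (N : ℤ)) (fun i => - nn j i)) (fun _ => (1 : ℂˣ)) := by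
    funext p j
    unfold mu mono
    rw [one_mul, ch_sum]
    have h2 : (Sum.elim (Pi.single j (N : ℤ)) (fun i => - nn j i) : Fin k ⊕ Fin m → ℤ) ∘ Sum.inl = Pi.single j (N : ℤ) := rfl
    have h3 : (Sum.elim (Pi.single j (N : ℤ)) (fun i => - nn j i) : Fin k ⊕ Fin m → ℤ) ∘ Sum.inr = fun i => - nn j i := rfl
    rw [h2, h3, ch_single, zpow_natCast]
    rfl
  rw [h1]
  exact ratMap_mono S _ _

/-- The transcendence degree drops by at most one under the monomial map. -/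
theorem k9g2a_td {C : Set (Fin m → ℂˣ)} {V : Set (Fin k ⊕ Fin m → ℂˣ)} (hCi : PIrr C) (hC1 : td ℂ C = 1)
    (hV : Fam C V) {N : ℕ} (hN : 0 < N) (nn : Fin k → Fin m → ℤ) : k ≤ td ℂ (mu N nn '' V) + 1 := by
  classical
  have hr := k9g2a_ratMap V N nn
  have hT : PIrr (gr (mu N nn) '' V) := hV.irr.pirr.image hr.gr
  set T : Set ((Fin k ⊕ Fin m) ⊕ Fin k → ℂˣ) := gr (mu N nn) '' V with hTdef
  have hP := vI_isPrime (k := ℂ) hT
  -- the dimension of the graph
  have hd : k ≤ td ℂ T := by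
    obtain ⟨s, hs, hd⟩ := exists_basis' (k := ℂ) hV.irr.pirr
    rw [ind_iff_indF] at hs
    have h3 : IndF ℂ T (fun i : s => (Sum.inl i.1 : (Fin k ⊕ Fin m) ⊕ Fin k)) :=
      hs.image (fun x _ i => rfl)
    have h4 := h3.card_le hT
    rw [Nat.card_coe_set_eq, hd, hV.dim] at h4
    exact h4
  set e1 : Fin k → (Fin k ⊕ Fin m) ⊕ Fin k := Sum.inr with he1
  set e2 : Fin m → (Fin k ⊕ Fin m) ⊕ Fin k := fun i => Sum.inl (Sum.inr i) with he2
  set s0 : Set ((Fin k ⊕ Fin m) ⊕ Fin k) := Set.range e1 ∪ Set.range e2 with hs0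
  have hg1 : ∀ i ∈ s0, gen ℂ T i ∈ Algebra.adjoin ℂ (gen ℂ T '' s0) := fun i hi =>
    Algebra.subset_adjoin ⟨i, hi, rfl⟩
  have hgne : ∀ i, gen ℂ T i ≠ 0 := by
    intro i h
    exact X_not_mem_vI hT.nonempty i (Ideal.Quotient.eq_zero_iff_mem.1 h)
  have halg : ∀ i, IsAlgebraic (Algebra.adjoin ℂ (gen ℂ T '' s0)) (gen ℂ T i) := by
    rintro ((j | i) | j)
    · -- the coordinate `x_j`
      set pa : Fin m → ℕ := fun i => (- nn j i).toNat with hpa
      set na : Fin m → ℕ := fun i => (nn j i).toNat with hna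
      set A : MvPolynomial ((Fin k ⊕ Fin m) ⊕ Fin k) ℂ := ∏ i, X (e2 i) ^ pa i with hA
      set B : MvPolynomial ((Fin k ⊕ Fin m) ⊕ Fin k) ℂ := X (e1 j) * ∏ i, X (e2 i) ^ na i with hB
      have hrel : X (Sum.inl (Sum.inl j)) ^ N * A - B ∈ vI ℂ T := by
        rw [mem_vI]
        rintro _ ⟨x, hx, rfl⟩
        rw [hA, hB]
        simp only [map_sub, map_mul, map_pow, map_prod, aeval_X, co_apply]
        have h1 : (gr (mu N nn) x) (Sum.inl (Sum.inl j)) = x (Sum.inl j) := rfl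
        have h2 : ∀ i, (gr (mu N nn) x) (e2 i) = x (Sum.inr i) := fun i => rfl
        have h3 : (gr (mu N nn) x) (e1 j) = x (Sum.inl j) ^ N * ∏ i, x (Sum.inr i) ^ (- nn j i) := rfl
        simp only [h1, h2]
        rw [h3, sub_eq_zero]
        have h4 : (x (Sum.inl j)) ^ N * ∏ i, (x (Sum.inr i)) ^ pa i =
            (x (Sum.inl j) ^ N * ∏ i, x (Sum.inr i) ^ (- nn j i)) * ∏ i, (x (Sum.inr i)) ^ na i := by
          rw [mul_assoc, ← Finset.prod_mul_distrib]
          congr 1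
          refine Finset.prod_congr rfl fun i _ => ?_
          rw [← zpow_natCast, ← zpow_natCast, ← zpow_add]
          congr 1
          show ((- nn j i).toNat : ℤ) = - nn j i + ((nn j i).toNat : ℤ)
          omega
        have h5 := congrArg (fun u : ℂˣ => (u : ℂ)) h4
        simp only [Units.val_mul, Units.val_pow_eq_pow_val, Units.coe_prod] at h5
        simp only [Units.val_mul, Units.val_pow_eq_pow_val, Units.coe_prod]
        exact h5
      have hrel2 : gen ℂ T (Sum.inl (Sum.inl j)) ^ N * (∏ i, gen ℂ T (e2 i) ^ pa i) =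
          gen ℂ T (e1 j) * ∏ i, gen ℂ T (e2 i) ^ na i := by
        have h1 := Ideal.Quotient.eq_zero_iff_mem.2 hrel
        rw [map_sub, sub_eq_zero, map_mul, map_pow, hA, hB, map_prod, map_mul, map_prod] at h1
        simp only [map_pow] at h1
        exact h1
      have hAm : (∏ i, gen ℂ T (e2 i) ^ pa i) ∈ Algebra.adjoin ℂ (gen ℂ T '' s0) :=
        Subalgebra.prod_mem _ fun i _ => Subalgebra.pow_mem _ (hg1 _ (Or.inr ⟨i, rfl⟩)) _
      have hBm : (gen ℂ T (e1 j) * ∏ i, gen ℂ T (e2 i) ^ na i) ∈ Algebra.adjoin ℂ (gen ℂ T '' s0) :=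
        Subalgebra.mul_mem _ (hg1 _ (Or.inl ⟨j, rfl⟩))
          (Subalgebra.prod_mem _ fun i _ => Subalgebra.pow_mem _ (hg1 _ (Or.inr ⟨i, rfl⟩)) _)
      have hAne : (∏ i, gen ℂ T (e2 i) ^ pa i) ≠ 0 :=
        Finset.prod_ne_zero_iff.2 fun i _ => pow_ne_zero _ (hgne _)
      refine ⟨Polynomial.C ⟨_, hAm⟩ * Polynomial.X ^ N - Polynomial.C ⟨_, hBm⟩, ?_, ?_⟩
      · intro h0
        have h1 := congrArg (fun P => Polynomial.coeff P N) h0
        simp only [Polynomial.coeff_sub, Polynomial.coeff_C_mul, Polynomial.coeff_X_pow, if_true, mul_one,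
          Polynomial.coeff_zero] at h1
        rw [Polynomial.coeff_C, if_neg hN.ne', sub_zero] at h1
        exact hAne (Subtype.ext_iff.1 h1)
      · rw [map_sub, map_mul, map_pow, Polynomial.aeval_X, Polynomial.aeval_C, Polynomial.aeval_C, sub_eq_zero,
          mul_comm]
        exact hrel2
    · exact isAlgebraic_algebraMap (⟨_, hg1 _ (Or.inr ⟨i, rfl⟩)⟩ : Algebra.adjoin ℂ (gen ℂ T '' s0))
    · exact isAlgebraic_algebraMap (⟨_, hg1 _ (Or.inl ⟨j, rfl⟩)⟩ : Algebra.adjoin ℂ (gen ℂ T '' s0))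
  obtain ⟨s, hss, hs, hc⟩ := exists_basis hT s0 halg
  have h1 := k9g2a_inter hT (e := e1) Sum.inr_injective hs
  have h2 := k9g2a_inter hT (e := e2) (Sum.inl_injective.comp Sum.inr_injective) hs
  have h3 : pull e1 '' T = mu N nn '' V := pull_inr_gr _ _
  have h4 : td ℂ (pull e2 '' T) ≤ 1 := by
    rw [← hC1]
    refine td_mono (hT.pull e2) hCi ?_
    rintro _ ⟨_, ⟨x, hx, rfl⟩, rfl⟩
    exact hV.sub x hx
  have h5 : s.ncard ≤ (s ∩ Set.range e1).ncard + (s ∩ Set.range e2).ncard := by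
    have h6 : s = (s ∩ Set.range e1) ∪ (s ∩ Set.range e2) := by
      rw [← Set.inter_union_distrib_left]
      exact (Set.inter_eq_left.2 hss).symm
    conv_lhs => rw [h6]
    exact Set.ncard_union_le _ _
  rw [h3] at h1
  omega

/-- Row Z9-G2a. PROOF. The polynomials vanishing on `mu V` form a prime ideal `𝔭` (`V` irreducible), `H ∈ 𝔭`, so an irreducible factor `G` of `H` is in `𝔭`. If `(G) ≠ 𝔭` then the transcendence degree of the coordinates `z_j` on `mu V` is `≤ k - 2` (`trdeg_lt_of_lt`, `trdeg_quot_add_one_le` in MP_dd1803_nt/Alg.lean, or `krull`/`td_lt`: the zero set of `G` in the torus has components of `td = k - 1`, the closure of `mu V` is strictly contained in one of them;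
`G` is not associated to a variable). But the coordinates `x_j` are algebraic over the `z_j, y_i` (`x_j^N = z_j ∏ y_i^(n_ji)`), and the `y_i` have transcendence degree `≤ 1` (they are on `C`, `td C = 1`), so `k = td V ≤ td (mu V) + 1`. -/
theorem exists_G {C : Set (Fin m → ℂˣ)} {V : Set (Fin k ⊕ Fin m → ℂˣ)} [NeZero m] (h : HC C) (hk : 2 ≤ k)
    (hV : Fam C V) {N : ℕ} (hN : 0 < N) (nn : Fin k → Fin m → ℤ) {H : MvPolynomial (Fin k) ℂ} (hH : H ≠ 0)
    (hHV : ∀ v ∈ V, eval (co (mu N nn v)) H = 0) :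
    ∃ G : MvPolynomial (Fin k) ℂ, Prime G ∧ (∀ v ∈ V, eval (co (mu N nn v)) G = 0) ∧
      ∀ F : MvPolynomial (Fin k) ℂ, (∀ v ∈ V, eval (co (mu N nn v)) F = 0) → G ∣ F := by
  have htd := k9g2a_td h.irr.pirr h.dim hV hN nn
  have hW : PIrr (mu N nn '' V) := hV.irr.pirr.image (k9g2a_ratMap V N nn)
  have hmem : ∀ F : MvPolynomial (Fin k) ℂ, F ∈ vI ℂ (mu N nn '' V) ↔ ∀ v ∈ V, eval (co (mu N nn v)) F = 0 := by
    intro F
    rw [mem_vI, Set.forall_mem_image]
    simp only [MvPolynomial.aeval_eq_eval]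
  have hP := vI_isPrime (k := ℂ) hW
  have hne : vI ℂ (mu N nn '' V) ≠ ⊥ := by
    intro hb
    apply hH
    have h1 := (hmem H).2 hHV
    rw [hb] at h1
    exact h1
  obtain ⟨G, hG1, hG⟩ := Ideal.IsPrime.exists_mem_prime_of_ne_bot hP hne
  refine ⟨G, hG, (hmem G).1 hG1, fun F hF => ?_⟩
  have hsp : (Ideal.span {G}).IsPrime := (Ideal.span_singleton_prime hG.ne_zero).2 hG
  have hle : Ideal.span {G} ≤ vI ℂ (mu N nn '' V) := (Ideal.span_singleton_le_iff_mem _).2 hG1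
  have heq : Ideal.span {G} = vI ℂ (mu N nn '' V) := by
    by_contra hcon
    have hlt := lt_of_le_of_ne hle hcon
    have h1 := trdeg_lt_of_lt (k := ℂ) (Ideal.span {G}) (vI ℂ (mu N nn '' V)) hlt
    have h2 := trdeg_quot_add_one_le (k := ℂ) (Ideal.span {G}) (by
      rw [Ne, Ideal.span_singleton_eq_bot]
      exact hG.ne_zero)
    rw [MvPolynomial.trdeg_of_isDomain] at h2
    have f2 : Algebra.trdeg ℂ (MvPolynomial (Fin k) ℂ ⧸ Ideal.span {G}) < Cardinal.aleph0 :=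
      trdeg_lt_aleph0_of_finiteType
    have h3 := Cardinal.toNat_le_toNat h2 (by simp)
    rw [Cardinal.toNat_add f2 Cardinal.one_lt_aleph0] at h3
    simp only [Cardinal.one_toNat, Cardinal.mk_fin, Cardinal.lift_natCast, Cardinal.toNat_natCast] at h3
    have h4 : td ℂ (mu N nn '' V) < Cardinal.toNat (Algebra.trdeg ℂ (MvPolynomial (Fin k) ℂ ⧸ Ideal.span {G})) := h1
    omega
  have h1 := (hmem F).2 hF
  rw [← heq, Ideal.mem_span_singleton] at h1
  exact h1

/-- the map `mu` is a monomial map -/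
theorem k9g2b_mono (N : ℕ) (nn : Fin k → Fin m → ℤ) (p : Fin k ⊕ Fin m → ℂˣ) :
    mu N nn p = mono (fun j => (Sum.elim (Pi.single j (N : ℤ)) (fun i => - nn j i) : Fin k ⊕ Fin m → ℤ)) 1 p := by
  funext j
  unfold mu mono
  rw [Pi.one_apply, one_mul]
  unfold ch
  rw [Fintype.prod_sum_type]
  simp only [Sum.elim_inl, Sum.elim_inr]
  congr 1
  rw [Finset.prod_eq_single j]
  · rw [Pi.single_eq_same, zpow_natCast]
  · intro i _ hi
    rw [Pi.single_eq_of_ne hi, zpow_zero]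
  · intro h
    exact absurd (Finset.mem_univ _) h

/-- the set of the points with `G (mu p) = 0` is closed -/
theorem k9g2b_closed (N : ℕ) (nn : Fin k → Fin m → ℤ) (G : MvPolynomial (Fin k) ℂ) :
    ZClosed {p : Fin k ⊕ Fin m → ℂˣ | eval (co (mu N nn p)) G = 0} := by
  have h1 := (ratMap_mono (F := ℂ) (Set.univ : Set (Fin k ⊕ Fin m → ℂˣ))
    (fun j => (Sum.elim (Pi.single j (N : ℤ)) (fun i => - nn j i) : Fin k ⊕ Fin m → ℤ)) 1).preimage_closed
    (zclosed_zp G)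
  convert h1 using 1
  ext p
  rw [Set.mem_preimage, mem_zp, ← k9g2b_mono, Pool.Agent.MP_dd1803_nt.aeval_eq_eval]
  exact Iff.rfl

/-- a nonzero polynomial does not vanish on the torus -/
theorem k9g2b_ne {G : MvPolynomial (Fin k) ℂ} (hG : G ≠ 0) : ∃ z : Fin k → ℂˣ, eval (co z) G ≠ 0 := by
  by_contra hcon
  push Not at hcon
  have h2 : G ∈ vI ℂ (Set.univ : Set (Fin k → ℂˣ)) := by
    rw [mem_vI]
    intro x _
    rw [Pool.Agent.MP_dd1803_nt.aeval_eq_eval]
    exact hcon x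
  rw [vI_univ] at h2
  exact hG h2

/-- the map `mu` is onto for fixed `y` -/
theorem k9g2b_onto {N : ℕ} (hN : 0 < N) (nn : Fin k → Fin m → ℤ) (y : Fin m → ℂˣ) (z : Fin k → ℂˣ) :
    ∃ x : Fin k → ℂˣ, mu N nn (Sum.elim x y) = z := by
  have h1 : ∀ j, ∃ x : ℂˣ, x ^ N = z j * (∏ i, y i ^ (- nn j i))⁻¹ := by
    intro j
    obtain ⟨a, ha⟩ := IsAlgClosed.exists_pow_nat_eq ((z j * (∏ i, y i ^ (- nn j i))⁻¹ : ℂˣ) : ℂ) hN
    have ha0 : a ≠ 0 := by
      intro h
      rw [h, zero_pow hN.ne'] at ha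
      exact (z j * (∏ i, y i ^ (- nn j i))⁻¹).ne_zero ha.symm
    refine ⟨Units.mk0 a ha0, ?_⟩
    apply Units.ext
    rw [Units.val_pow_eq_pow_val, Units.val_mk0]
    exact ha
  choose x hx using h1
  refine ⟨x, ?_⟩
  funext j
  unfold mu
  rw [Sum.elim_inl, hx]
  simp only [Sum.elim_inr]
  rw [inv_mul_cancel_right]

theorem k9g2b_zpow (t : ℂˣ) (f : Fin k → ℤ) : ∏ j, t ^ f j = t ^ ∑ j, f j := by
  have h : ∀ s : Finset (Fin k), ∏ j ∈ s, t ^ f j = t ^ ∑ j ∈ s, f j := by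
    intro s
    induction s using Finset.induction_on with
    | empty => simp
    | insert a s ha ih => rw [Finset.prod_insert ha, Finset.sum_insert ha, zpow_add, ih]
  exact h _

/-- the value of a polynomial which is homogeneous for the grading `e` -/
theorem k9g2b_eval {G : MvPolynomial (Fin k) ℂ} (e : Fin k → ℤ)
    (he : ∀ α ∈ G.support, ∀ β ∈ G.support, ∑ j, e j * (α j : ℤ) = ∑ j, e j * (β j : ℤ)) (z : Fin k → ℂˣ) (t : ℂˣ)
    (h0 : eval (co z) G = 0) : eval (co fun j => z j * t ^ e j) G = 0 := by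
  rcases G.support.eq_empty_or_nonempty with hs | ⟨β, hβ⟩
  · rw [MvPolynomial.support_eq_empty.1 hs, map_zero]
  · have h1 : eval (co fun j => z j * t ^ e j) G =
        ((t ^ (∑ j, e j * (β j : ℤ)) : ℂˣ) : ℂ) * eval (co z) G := by
      rw [MvPolynomial.eval_eq', MvPolynomial.eval_eq', Finset.mul_sum]
      refine Finset.sum_congr rfl fun α hα => ?_
      have h2 : ∏ j, (co (fun j => z j * t ^ e j) j) ^ α j =
          ((t ^ (∑ j, e j * (β j : ℤ)) : ℂˣ) : ℂ) * ∏ j, (co z j) ^ α j := by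
        have h3 : (∏ j, (z j * t ^ e j) ^ α j : ℂˣ) = t ^ (∑ j, e j * (β j : ℤ)) * ∏ j, z j ^ α j := by
          rw [← he α hα β hβ]
          simp_rw [mul_pow]
          rw [Finset.prod_mul_distrib, mul_comm]
          congr 1
          rw [← k9g2b_zpow]
          refine Finset.prod_congr rfl fun j _ => ?_
          rw [zpow_mul, zpow_natCast]
        have h4 := congrArg (fun u : ℂˣ => (u : ℂ)) h3
        simpa [co] using h4
      rw [h2]
      ring
    rw [h1, h0, mul_zero]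

/-- Row Z9-G2b. PROOF. Suppose `∑ e_j α_j = c` for all `α ∈ G.support`, `e ≠ 0`. `W = {(x, y) | y ∈ C, G (mu (x, y)) = 0}` is closed, contains `V`, and `(x, y) ↦ (g^e x, y)` maps `W` to itself (`mu` gets multiplied by `g^(N e)`). `W ≠ Cyl k C` (for fixed `y` the map `mu` is onto the torus, and `G ≠ 0`), so irreducible subsets of `W` have `td ≤ k` (`Z8.cyl_irr`, `td_lt`). `Z8.stable`: `V` is stable: contradiction with `hF`. -/
theorem G_full {C : Set (Fin m → ℂˣ)} {V : Set (Fin k ⊕ Fin m → ℂˣ)} [NeZero m] (h : HC C)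
    (hV : Fam C V) (hF : FinStab V) {N : ℕ} (hN : 0 < N) (nn : Fin k → Fin m → ℤ) {G : MvPolynomial (Fin k) ℂ}
    (hG : G ≠ 0) (hGV : ∀ v ∈ V, eval (co (mu N nn v)) G = 0) :
    ∀ e : Fin k → ℤ, e ≠ 0 → ∃ α ∈ G.support, ∃ β ∈ G.support, ∑ j, e j * (α j : ℤ) ≠ ∑ j, e j * (β j : ℤ) := by
  by_contra hcon
  push Not at hcon
  obtain ⟨e, he0, he⟩ := hcon
  set W : Set (Fin k ⊕ Fin m → ℂˣ) := Cyl k C ∩ {p | eval (co (mu N nn p)) G = 0} with hW
  obtain ⟨hCI, hCd⟩ := Z8.cyl_irr (k := k) h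
  have hWc : ZClosed W := hCI.closed.inter (k9g2b_closed N nn G)
  have hVW : V ⊆ W := fun v hv => ⟨hV.sub v hv, hGV v hv⟩
  have hne : W ≠ Cyl k C := by
    intro hWe
    obtain ⟨y, hy⟩ := h.irr.nonempty
    obtain ⟨z, hz⟩ := k9g2b_ne hG
    obtain ⟨x, hx⟩ := k9g2b_onto hN nn y z
    have h1 : (Sum.elim x y : Fin k ⊕ Fin m → ℂˣ) ∈ Cyl k C := hy
    rw [← hWe] at h1
    have h2 := h1.2
    rw [Set.mem_ofPred_eq, hx] at h2
    exact hz h2
  have hd : ∀ Y, Irr Y → Y ⊆ W → td ℂ Y ≤ td ℂ V := by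
    intro Y hY hYW
    have h1 : Y ⊂ Cyl k C := by
      refine (hYW.trans Set.inter_subset_left).ssubset_of_ne fun hYe => hne ?_
      exact Set.Subset.antisymm Set.inter_subset_left (hYe ▸ hYW)
    have h2 := td_lt hY hCI h1
    rw [hCd] at h2
    rw [hV.dim]
    omega
  have hst : ∀ p ∈ W, ∀ g : ℂˣ, (fun i => p i * g ^ (Sum.elim e (fun _ => 0) : Fin k ⊕ Fin m → ℤ) i) ∈ W := by
    intro p hp g
    refine ⟨?_, ?_⟩
    · have h1 : (fun i => p (Sum.inr i) * g ^ (Sum.elim e (fun _ => 0) : Fin k ⊕ Fin m → ℤ) (Sum.inr i)) =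
          fun i => p (Sum.inr i) := by
        funext i
        rw [Sum.elim_inr, zpow_zero, mul_one]
      change (fun i => p (Sum.inr i) * g ^ (Sum.elim e (fun _ => 0) : Fin k ⊕ Fin m → ℤ) (Sum.inr i)) ∈ C
      rw [h1]
      exact hp.1
    · have h1 : mu N nn (fun i => p i * g ^ (Sum.elim e (fun _ => 0) : Fin k ⊕ Fin m → ℤ) i) =
          fun j => mu N nn p j * (g ^ N) ^ e j := by
        funext j
        unfold mu
        simp only [Sum.elim_inl, Sum.elim_inr, zpow_zero, mul_one]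
        rw [mul_pow, ← zpow_natCast (g ^ e j) N, ← zpow_mul, ← zpow_natCast g N, ← zpow_mul, mul_comm (e j)]
        exact mul_right_comm _ _ _
      rw [Set.mem_ofPred_eq, h1]
      exact k9g2b_eval e he _ _ hp.2
  have key := Z8.stable hV.irr hWc hVW hd (Sum.elim e (fun _ => 0)) hst
  obtain ⟨p, hp, g, hg⟩ := hF e he0
  apply hg
  convert key p hp g using 1
  funext i
  rcases i with j | i
  · rfl
  · rw [Sum.elim_inr, Sum.elim_inr, zpow_zero, mul_one]

/-- Row Z9-G2c. PROOF. `H' = H(x^p)` over `ℂ` for a prime `p ≥ p0` vanishes on `mu V`, `H' ≠ 0`: `exists_G` gives `G`. `G_full` and `count` (with the complex polynomial `H`): a prime `p ≥ p0` and `ζ` with `ζ_j ^ p = 1` such that `G(ζ x)` does not divide `H(x^p)`. But `G ∣ H(x^p)` as `H(x^p)` vanishes on `mu V`; substitute `x ↦ ζ x`: `G(ζ x) ∣ H((ζ x)^p) = H(x^p)`. Contradiction. -/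
theorem bog_alg2 {C : Set (Fin m → ℂˣ)} {V : Set (Fin k ⊕ Fin m → ℂˣ)} [NeZero m] (h : HC C) (hk : 2 ≤ k)
    (hV : Fam C V) (hF : FinStab V) {N : ℕ} (hN : 0 < N) (nn : Fin k → Fin m → ℤ) {H : MvPolynomial (Fin k) ℤ}
    (hH : H ≠ 0) {p0 : ℕ} (hp : ∀ p : ℕ, p.Prime → p0 ≤ p → ∀ v ∈ V,
      aeval (fun j => ((mu N nn v j : ℂˣ) : ℂ) ^ p) H = 0) : False := by
  obtain ⟨Hc, hHc⟩ : ∃ Hc : MvPolynomial (Fin k) ℂ, Hc = MvPolynomial.map (algebraMap ℤ ℂ) H := ⟨_, rfl⟩
  have hHc0 : Hc ≠ 0 := by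
    rw [hHc]
    exact (map_ne_zero_iff _ (MvPolynomial.map_injective _ (RingHom.injective_int _))).2 hH
  have hexp : ∀ p : ℕ, (aeval (fun j => (X j : MvPolynomial (Fin k) ℂ) ^ p) Hc) = expand p Hc := fun p => rfl
  have hev : ∀ (p : ℕ) (z : Fin k → ℂ), eval z (expand p Hc) = aeval (fun j => z j ^ p) H := by
    intro p z
    have e1 : eval z (aeval (fun j => (X j : MvPolynomial (Fin k) ℂ) ^ p) Hc) = aeval (fun j => z j ^ p) Hc := by
      have e2 := MvPolynomial.comp_aeval_apply (fun j => (X j : MvPolynomial (Fin k) ℂ) ^ p)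
        (aeval z : MvPolynomial (Fin k) ℂ →ₐ[ℂ] ℂ) Hc
      simp only [map_pow, aeval_X] at e2
      exact e2
    rw [← hexp, e1, hHc, MvPolynomial.aeval_map_algebraMap]
  have hvan : ∀ p : ℕ, p.Prime → p0 ≤ p → ∀ v ∈ V, eval (co (mu N nn v)) (expand p Hc) = 0 := by
    intro p hpp hp0 v hv
    rw [hev]
    exact hp p hpp hp0 v hv
  obtain ⟨p1, hp1, hp1'⟩ := Nat.exists_infinite_primes p0
  obtain ⟨G, hG, hGV, hGd⟩ := exists_G h hk hV hN nn (H := expand p1 Hc)
    ((map_ne_zero_iff _ (expand_injective hp1'.pos)).2 hHc0) (hvan p1 hp1' hp1)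
  obtain ⟨p, hpp, hp0, ζ, hζ, hnd⟩ := count hk G Hc hG (G_full h hV hF hN nn hG.ne_zero hGV) hHc0 p0
  apply hnd
  have h1 : G ∣ expand p Hc := hGd _ (hvan p hpp hp0)
  have h2 := map_dvd (aeval (fun j => MvPolynomial.C (ζ j) * X j) : MvPolynomial (Fin k) ℂ →ₐ[ℂ] MvPolynomial (Fin k) ℂ) h1
  have h3 : (aeval (fun j => MvPolynomial.C (ζ j) * X j) : MvPolynomial (Fin k) ℂ →ₐ[ℂ] MvPolynomial (Fin k) ℂ) (expand p Hc) =
      aeval (fun j => (X j : MvPolynomial (Fin k) ℂ) ^ p) Hc := by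
    rw [← hexp, MvPolynomial.comp_aeval_apply]
    congr 1
    congr 1
    funext j
    rw [map_pow, aeval_X, mul_pow, ← MvPolynomial.C_pow, hζ, MvPolynomial.C_1, one_mul]
  rw [h3] at h2
  exact h2

/-- Row Z9-G2d. PROOF. `H` is a polynomial in one variable with finitely many zeros. For `v ∈ V` let `z = mu N nn v 0`: `z^p` is a zero of `H` for all primes `p ≥ p0`, so `z^p = z^q` for two different primes (pigeonhole among finitely many fixed primes, more than the number of the zeros), so `z ^ M = 1` for a fixed `M > 0` (the product of the differences). So the character `v ↦ mu N nn v 0`, of exponent `Sum.elim (fun _ => N) (fun i => - nn 0 i) ≠ 0`, is in `Lam V` and `1 ≤ rk V`. -/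
theorem bog_alg1 {V : Set (Fin 1 ⊕ Fin m → ℂˣ)} (hV : Irr V) {N : ℕ} (hN : 0 < N) (nn : Fin 1 → Fin m → ℤ)
    {H : MvPolynomial (Fin 1) ℤ} (hH : H ≠ 0) {p0 : ℕ} (hp : ∀ p : ℕ, p.Prime → p0 ≤ p → ∀ v ∈ V,
      aeval (fun j => ((mu N nn v j : ℂˣ) : ℂ) ^ p) H = 0) : 1 ≤ rk V := by
  classical
  obtain ⟨T, hT⟩ : ∃ T : Set ℂ, T = {t : ℂ | aeval (fun _ : Fin 1 => t) H = 0} := ⟨_, rfl⟩
  have hTfin : T.Finite := by
    by_contra hinf
    apply hH
    have h1 : MvPolynomial.map (Int.castRingHom ℂ) H = 0 := by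
      refine MvPolynomial.funext_set (fun _ : Fin 1 => T) (fun _ => hinf) fun x hx => ?_
      have h2 : x 0 ∈ T := hx 0 (Set.mem_univ _)
      rw [hT] at h2
      have h3 : x = fun _ => x 0 := by
        funext i
        rw [Subsingleton.elim i 0]
      rw [map_zero, h3, eval_map]
      exact h2
    exact MvPolynomial.map_injective _ (RingHom.injective_int _) (by rw [h1, map_zero])
  have hinfp : {p : ℕ | p.Prime ∧ p0 ≤ p}.Infinite := by
    refine Set.infinite_of_not_bddAbove fun ⟨b, hb⟩ => ?_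
    obtain ⟨q, hq, hq'⟩ := Nat.exists_infinite_primes (max p0 (b + 1))
    have := hb ⟨hq', (le_max_left _ _).trans hq⟩
    have h2 := (le_max_right p0 (b + 1)).trans hq
    omega
  obtain ⟨S, hS, hScard⟩ := hinfp.exists_subset_card_eq (hTfin.toFinset.card + 1)
  obtain ⟨w, hw⟩ : ∃ w : Fin 1 ⊕ Fin m → ℤ, w = Sum.elim (fun _ => (N : ℤ)) (fun i => - nn 0 i) := ⟨_, rfl⟩
  have hch : ∀ v : Fin 1 ⊕ Fin m → ℂˣ, ch w v = mu N nn v 0 := by
    intro v
    unfold ch mu
    rw [Fintype.prod_sum_type, hw]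
    simp
  have hmem : w ∈ Lam V := by
    refine ⟨(S.sup id).factorial, Nat.factorial_pos _, fun v hv => ?_⟩
    rw [hch]
    have hmaps : ∀ p ∈ S, ((mu N nn v 0 : ℂˣ) : ℂ) ^ p ∈ hTfin.toFinset := by
      intro p hpS
      rw [Set.Finite.mem_toFinset, hT]
      have h1 := hp p (hS hpS).1 (hS hpS).2 v hv
      have h2 : (fun j => ((mu N nn v j : ℂˣ) : ℂ) ^ p) = fun _ : Fin 1 => ((mu N nn v 0 : ℂˣ) : ℂ) ^ p := by
        funext j
        rw [Subsingleton.elim j 0]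
      rw [h2] at h1
      exact h1
    obtain ⟨p, hpS, q, hqS, hpq, heq⟩ := Finset.exists_ne_map_eq_of_card_lt_of_maps_to
      (by rw [hScard]; exact Nat.lt_succ_self _) hmaps
    have key : ∀ p ∈ S, ∀ q ∈ S, p < q → ((mu N nn v 0 : ℂˣ) : ℂ) ^ p = ((mu N nn v 0 : ℂˣ) : ℂ) ^ q →
        mu N nn v 0 ^ (S.sup id).factorial = 1 := by
      intro p hpS q hqS hlt he
      have h1 : mu N nn v 0 ^ p = mu N nn v 0 ^ q := by
        apply Units.ext
        rw [Units.val_pow_eq_pow_val, Units.val_pow_eq_pow_val]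
        exact he
      have h2 : mu N nn v 0 ^ (q - p) = 1 := by
        have h3 : mu N nn v 0 ^ q = mu N nn v 0 ^ (q - p) * mu N nn v 0 ^ p := by
          rw [← pow_add, Nat.sub_add_cancel hlt.le]
        rw [h3] at h1
        exact (mul_right_cancel (b := mu N nn v 0 ^ p) (by rw [one_mul]; exact h1)).symm
      have h4 : q ≤ S.sup id := Finset.le_sup (f := id) hqS
      obtain ⟨c, hc⟩ := Nat.dvd_factorial (Nat.sub_pos_of_lt hlt) ((Nat.sub_le q p).trans h4)
      rw [hc, pow_mul, h2, one_pow]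
    rcases lt_or_gt_of_ne hpq with hlt | hlt
    · exact key p hpS q hqS hlt heq
    · exact key q hqS p hpS hlt heq.symm
  have hw0 : w ≠ 0 := by
    intro h0
    have h1 := congrFun h0 (Sum.inl 0)
    rw [hw] at h1
    simp only [Sum.elim_inl, Pi.zero_apply] at h1
    omega
  unfold rk
  refine Module.finrank_pos_iff_exists_ne_zero.2 ⟨⟨w, hmem⟩, fun h0 => hw0 (congrArg Subtype.val h0)⟩

end Pool.Agent.Z9
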