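import Pool.Agent.Z9.G1
import Pool.Agent.Z9.G2
import Pool.Agent.Z9.PR
import Pool.Agent.Z9.E3

open MvPolynomial Pool.Agent.MP_dd1803_nt Pool.Agent.ZPA Pool.Agent.ZL2

namespace Pool.Agent.Z9

open Filter Topology
open Pool.Agent.Z7 (HC Cv HHp Rat)
open Pool.Agent.Z8 (Fam FinStab xs ys VSk Cyl AlgCk levs lev evk sp rk_le_y)

variable {k m : ℕ} [NeZero m] {C : Set (Fin m → ℂˣ)}

/-- A sum of characters with integral coefficients is, up to a monomial, a polynomial with algebraic coefficients. -/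
theorem k9g3a_laur {κ ι : Type} [Fintype κ] (T : Finset ι) (h : ι → ℤ) (w : ι → κ → ℤ) :
    ∃ f : MvPolynomial κ ℂ, (∀ α, IsAlgebraic ℚ (f.coeff α)) ∧
      ∀ p : κ → ℂˣ, MvPolynomial.eval (fun i => (p i : ℂ)) f = 0 ↔
        ∑ β ∈ T, (h β : ℂ) * ((ch (w β) p : ℂˣ) : ℂ) = 0 := by
  classical
  obtain ⟨b, hb⟩ : ∃ b : ℤ, ∀ β ∈ T, ∀ i, 0 ≤ w β i + b := by
    refine ⟨∑ β ∈ T, ∑ i, |w β i|, fun β hβ i => ?_⟩
    have h1 : |w β i| ≤ ∑ i, |w β i| :=
      Finset.single_le_sum (f := fun i => |w β i|) (fun i _ => abs_nonneg _) (Finset.mem_univ i)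
    have h2 : ∑ i, |w β i| ≤ ∑ β ∈ T, ∑ i, |w β i| :=
      Finset.single_le_sum (f := fun β => ∑ i, |w β i|) (fun β _ => Finset.sum_nonneg fun i _ => abs_nonneg _) hβ
    have h3 := neg_abs_le (w β i)
    linarith
  refine ⟨MvPolynomial.map (Int.castRingHom ℂ) (∑ β ∈ T, C (h β) * ∏ i, X i ^ (w β i + b).toNat), fun α => ?_,
    fun p => ?_⟩
  · rw [coeff_map]
    exact isAlgebraic_intCast _
  · have h1 : MvPolynomial.eval (fun i => (p i : ℂ)) (MvPolynomial.map (Int.castRingHom ℂ)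
        (∑ β ∈ T, C (h β) * ∏ i, X i ^ (w β i + b).toNat)) =
        (∏ i, (p i : ℂ) ^ b) * ∑ β ∈ T, (h β : ℂ) * ((ch (w β) p : ℂˣ) : ℂ) := by
      rw [map_sum, map_sum, Finset.mul_sum]
      refine Finset.sum_congr rfl fun β hβ => ?_
      rw [map_mul, map_mul, map_C, eval_C, map_prod, map_prod]
      have h2 : ∀ i, MvPolynomial.eval (fun i => (p i : ℂ)) (MvPolynomial.map (Int.castRingHom ℂ)
          (X i ^ (w β i + b).toNat)) = (p i : ℂ) ^ b * (p i : ℂ) ^ (w β i) := by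
        intro i
        rw [map_pow, map_pow, map_X, eval_X, ← zpow_natCast, Int.toNat_of_nonneg (hb β hβ i),
          zpow_add₀ (p i).ne_zero, mul_comm]
      rw [Finset.prod_congr rfl fun i _ => h2 i, Finset.prod_mul_distrib]
      have h3 : ((ch (w β) p : ℂˣ) : ℂ) = ∏ i, (p i : ℂ) ^ (w β i) := by
        unfold ch
        rw [Units.coe_prod]
        exact Finset.prod_congr rfl fun i _ => Units.val_zpow_eq_zpow_val _ _
      rw [h3, eq_intCast]
      ring
    rw [h1, mul_eq_zero]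
    constructor
    · rintro (h2 | h2)
      · exact absurd h2 (Finset.prod_ne_zero_iff.2 fun i _ => zpow_ne_zero _ (p i).ne_zero)
      · exact h2
    · exact Or.inr

/-- The value of an integral polynomial at the powers of the monomial map, as a sum of characters. -/
theorem k9g3a_mu {k m : ℕ} (N : ℕ) (nn : Fin k → Fin m → ℤ) (H : MvPolynomial (Fin k) ℤ) (q : ℕ) :
    ∃ w : (Fin k →₀ ℕ) → (Fin k ⊕ Fin m → ℤ), ∀ v : Fin k ⊕ Fin m → ℂˣ,
      MvPolynomial.aeval (fun j => ((mu N nn v j : ℂˣ) : ℂ) ^ q) H =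
        ∑ β ∈ H.support, ((H.coeff β : ℤ) : ℂ) * ((ch (w β) v : ℂˣ) : ℂ) := by
  classical
  let row : Fin k → (Fin k ⊕ Fin m → ℤ) := fun j => Sum.elim (Pi.single j (N : ℤ)) (fun i => - nn j i)
  have hrow : ∀ j (v : Fin k ⊕ Fin m → ℂˣ), ch (row j) v = mu N nn v j := by
    intro j v
    unfold ch mu
    rw [Fintype.prod_sum_type]
    congr 1
    show ∏ i, v (Sum.inl i) ^ (Pi.single j (N : ℤ) : Fin k → ℤ) i = _
    rw [Finset.prod_eq_single j]
    · rw [Pi.single_eq_same, zpow_natCast]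
    · intro i _ hi
      rw [Pi.single_eq_of_ne hi, zpow_zero]
    · intro hj
      exact absurd (Finset.mem_univ j) hj
  refine ⟨fun β => ∑ j, ((q * β j : ℕ) : ℤ) • row j, fun v => ?_⟩
  rw [aeval_def, eval₂_eq']
  refine Finset.sum_congr rfl fun β _ => ?_
  have h1 : ch (∑ j, ((q * β j : ℕ) : ℤ) • row j) v = ∏ j, mu N nn v j ^ (q * β j) := by
    rw [ch_finset_sum]
    refine Finset.prod_congr rfl fun j _ => ?_
    rw [ch_zsmul, hrow, zpow_natCast]
  rw [h1, Units.coe_prod]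
  congr 1
  refine Finset.prod_congr rfl fun j _ => ?_
  rw [Units.val_pow_eq_pow_val, pow_mul]

section
variable {F : Type} [Field F] [NumberField F] [Algebra F ℂ] {k m : ℕ} [NeZero m] {S : Sk k m}

theorem Ar.k9g3a_mem (A : Ar F S) {n : ℕ} {P : Fin k ⊕ Fin m → ℂˣ}
    (hP : ∀ i, A.j n (A.pt n i) = (P i : ℂ)) (v : Fin k ⊕ Fin m → ℤ) :
    v ∈ Lam ({P} : Set (Fin k ⊕ Fin m → ℂˣ)) ↔ (fun i => (v i : ℝ)) ∈ A.N n := by
  have hpt : ∀ k, A.pt n k ≠ 0 := by
    intro k h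
    have h1 := hP k
    rw [h, map_zero] at h1
    exact (P k).ne_zero h1.symm
  obtain ⟨z, hz⟩ : ∃ z : A.K n, z = ∏ k, A.pt n k ^ v k := ⟨_, rfl⟩
  have hz0 : z ≠ 0 := by
    rw [hz]
    exact Finset.prod_ne_zero_iff.2 fun k _ => zpow_ne_zero _ (hpt k)
  have hjz : A.j n z = ((ch v P : ℂˣ) : ℂ) := by
    rw [hz, map_prod]
    unfold ch
    rw [Units.coe_prod]
    refine Finset.prod_congr rfl fun k _ => ?_
    rw [map_zpow₀, hP k, Units.val_zpow_eq_zpow_val]
  have hlv : ∀ p : Pl (A.K n), lv p z = ∑ k, (v k : ℝ) * lv p (A.pt n k) := by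
    intro p
    rw [hz, Z5.k4_lv_prod p _ _ hpt]
  have hj : Function.Injective (A.j n) := (A.j n : A.K n →+* ℂ).injective
  have hpow : ∀ N : ℕ, ch v P ^ N = 1 ↔ z ^ N = 1 := by
    intro N
    constructor
    · intro h
      apply hj
      rw [map_pow, map_one, hjz, ← Units.val_pow_eq_pow_val, h, Units.val_one]
    · intro h
      apply Units.ext
      rw [Units.val_pow_eq_pow_val, ← hjz, ← map_pow, h, map_one]
      rfl
  constructor
  · rintro ⟨N, hN, h⟩
    have h1 := (hpow N).1 (h P rfl)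
    intro p
    have h2 : lv p (z ^ N) = 0 := by rw [h1, lv_one]
    rw [lv_pow, hlv] at h2
    exact (mul_eq_zero.1 h2).resolve_left (by exact_mod_cast hN.ne')
  · intro h
    have h0 : ∀ p : Pl (A.K n), lv p z = 0 := fun p => by rw [hlv]; exact h p
    by_contra hcon
    have h1 : ∀ N : ℕ, 0 < N → z ^ N ≠ 1 := by
      intro N hN h2
      apply hcon
      refine ⟨N, hN, ?_⟩
      intro x hx
      rw [Set.mem_singleton_iff] at hx
      subst hx
      exact (hpow N).2 h2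
    obtain ⟨c0, hc0, h2⟩ := Z5.hh_lower z hz0 h1
    have h3 := h2 (A.K n)
    have h4 : Pool.Agent.ZL2.hh (algebraMap (A.K n) (A.K n) z) = 0 := by
      unfold Pool.Agent.ZL2.hh
      rw [Sm_congr (g := fun _ => 0) (fun p => ?_), Sm_zero]
      show max 0 (lv p z) = 0
      rw [h0 p, max_self]
    rw [h4] at h3
    have h5 : (0 : ℝ) < Module.finrank ℚ (A.K n) := by exact_mod_cast Module.finrank_pos
    have := mul_pos hc0 h5
    linarith

theorem Ar.k9g3a_rk (A : Ar F S) {n : ℕ} {P : Fin k ⊕ Fin m → ℂˣ}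
    (hP : ∀ i, A.j n (A.pt n i) = (P i : ℂ)) :
    rk ({P} : Set (Fin k ⊕ Fin m → ℂˣ)) ≤ Module.finrank ℝ (A.N n) := by
  classical
  unfold rk
  obtain ⟨B⟩ : Nonempty (Module.Basis (Fin (Module.finrank ℤ (Lam ({P} : Set (Fin k ⊕ Fin m → ℂˣ))))) ℤ
    (Lam ({P} : Set (Fin k ⊕ Fin m → ℂˣ)))) := ⟨Module.finBasis ℤ _⟩
  have h1 : LinearIndependent ℤ (fun i => ((B i : Lam ({P} : Set (Fin k ⊕ Fin m → ℂˣ))) : Fin k ⊕ Fin m → ℤ)) :=
    B.linearIndependent.map' (Lam ({P} : Set (Fin k ⊕ Fin m → ℂˣ))).subtype (Submodule.ker_subtype _)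
  have h2 : LinearIndependent ℝ (fun i => (algebraMap ℤ ℝ) ∘
      ((B i : Lam ({P} : Set (Fin k ⊕ Fin m → ℂˣ))) : Fin k ⊕ Fin m → ℤ)) := by
    rw [linearIndependent_algebraMap_comp_iff]
    exact h1
  let w : Fin (Module.finrank ℤ (Lam ({P} : Set (Fin k ⊕ Fin m → ℂˣ)))) → A.N n := fun i =>
    ⟨fun q => (((B i : Lam ({P} : Set (Fin k ⊕ Fin m → ℂˣ))) : Fin k ⊕ Fin m → ℤ) q : ℝ),
      (A.k9g3a_mem hP _).1 (B i).2⟩
  have h3 : LinearIndependent ℝ w := by
    apply LinearIndependent.of_comp (A.N n).subtype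
    exact h2
  have h4 := h3.fintype_card_le_finrank
  rwa [Fintype.card_fin] at h4

end

/-- The conditions on the level sums and on the derivative hold for all but finitely many terms of a generic sequence. -/
theorem k9g3a_ev {k m : ℕ} [NeZero m] {C : Set (Fin m → ℂˣ)} {V : Set (Fin k ⊕ Fin m → ℂˣ)} (h : HC C)
    (hVC : ∀ p ∈ V, (fun i => p (Sum.inr i)) ∈ C)
    {P : ℕ → Fin k ⊕ Fin m → ℂˣ} (hP : Gn V P) {Ψ : MvPolynomial (Fin k) (MvPolynomial (Fin m) ℂ)} (hΨ : AlgCk Ψ)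
    (hne : ∃ p ∈ V, evk Ψ (xs p) (ys p) ≠ 0) : ∀ᶠ n in cofinite, evk Ψ (xs (P n)) (ys (P n)) ≠ 0 := by
  have h1 := hP.gen (VSk C Ψ) (Z8.zclosed_VSk h.irr.closed) (Z8.cl_VSk h hΨ) (by
    intro hcon
    obtain ⟨p, hp, hpne⟩ := hne
    exact hpne (hcon hp).2)
  refine h1.mono fun n hn h2 => hn ⟨hVC _ (hP.mem n), h2⟩

/-- Row Z9-G3a. PROOF. If the `y`-part is constant `= y0` on `V`: `k + 1 ≤ rk {P n} ≤ k + rk {y0}` (`rk_le_y`), so a nonzero character is torsion at `y0`, so on `V`: `1 ≤ rk V`. Otherwise `exists_Sk`, `indep`; by `hP.gen` all the nonvanishing conditions (finitely many nonempty `lev S.Φ e c`, the derivative; each `f ≠ 0` for `hPg`) hold for all but finitely many `n`: pass to a tail (`Gn.comp`). `exists_Ar`; `A.N n` has dimension `≥ rk {P (φ n)} ≥ k + 1` and contains the integral vector `v` iff `v ∈ Lam {P (φ n)}`: as `Z8.Ar.mem_Lam_iff`, `Z8.Ar.rk_le` (Z8/G1.lean) with `Ar.N`, `Ar.pt` of Z9/E3.lean.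
`Ar.out`. First alternative: `Lam {P (φ n)}` is the same lattice `L` for infinitely many `n`, of rank `≥ k + 1`; `Gn.cd_of_lat`: `k + 1 ≤ cd V = rk V + k`. Second alternative: for every prime `p ≥ p0` the Laurent polynomial `H (mu N nn v ^ p)` vanishes at infinitely many `P (φ n)`, so on `V` (`Gn.zero`, multiply by a monomial); `bog_alg2` (`2 ≤ k`: contradiction) or `bog_alg1` (`k = 1`). -/
theorem rk_pos_fin {V : Set (Fin k ⊕ Fin m → ℂˣ)} (h : HC C) (hm : 2 ≤ m) (hk : 1 ≤ k) (hV : Fam C V)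
    (hVa : cl (acl (∅ : Set ℂ)) V = V) (hF : FinStab V) {P : ℕ → Fin k ⊕ Fin m → ℂˣ} (hP : Gn V P)
    (hrk : ∀ n, k + 1 ≤ rk ({P n} : Set (Fin k ⊕ Fin m → ℂˣ))) : 1 ≤ rk V := by
  classical
  by_cases hy : ∃ y0 : Fin m → ℂˣ, ∀ p ∈ V, ∀ i, p (Sum.inr i) = y0 i
  · exfalso
    obtain ⟨y0, hy0⟩ := hy
    obtain ⟨hI, htd⟩ := Z8.k8g4d_fib (k := k) y0
    have hVF : V = Cyl k {y0} := eq_of_td_le hV.irr hI (fun p hp => funext fun i => hy0 p hp i) (by
      rw [hV.dim]
      exact htd)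
    obtain ⟨p, hp, g, hg⟩ := hF (Pi.single ⟨0, by omega⟩ 1) (by
      intro h0
      have h1 := congrFun h0 (⟨0, by omega⟩ : Fin k)
      rw [Pi.single_eq_same, Pi.zero_apply] at h1
      exact one_ne_zero h1)
    apply hg
    rw [hVF] at hp ⊢
    exact hp
  obtain ⟨S, hS, hR, hΦa, hVS, hlev, hder⟩ := exists_Sk h hk hV hVa hF
  have hLa : ∀ T : Finset (Fin k →₀ ℕ), AlgCk (∑ α ∈ T, monomial α (S.Φ.coeff α)) := by
    intro T α β
    rw [coeff_sum]
    by_cases hα : α ∈ T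
    · rw [Finset.sum_eq_single α]
      · rw [coeff_monomial, if_pos rfl]
        exact hΦa α β
      · intro γ _ hγ
        rw [coeff_monomial, if_neg hγ]
      · exact fun h1 => absurd hα h1
    · rw [Finset.sum_eq_zero, coeff_zero]
      · exact isAlgebraic_zero
      · intro γ hγ
        rw [coeff_monomial, if_neg]
        rintro rfl
        exact hα hγ
  have hLe : ∀ (T : Finset (Fin k →₀ ℕ)) (x : Fin k → ℂ) (y : Fin m → ℂ),
      evk (∑ α ∈ T, monomial α (S.Φ.coeff α)) x y = ∑ α ∈ T, eval y (S.Φ.coeff α) * ∏ j, x j ^ α j := by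
    intro T x y
    unfold evk sp
    rw [map_sum, map_sum]
    refine Finset.sum_congr rfl fun α _ => ?_
    rw [map_monomial, eval_monomial, Finsupp.prod_fintype _ _ (fun i => pow_zero _)]
  have hDa : AlgCk (pderiv S.j0 S.Φ) := by
    intro α β
    rw [coeff_pderiv]
    have h1 : ((α S.j0 : MvPolynomial (Fin m) ℂ) + 1) = MvPolynomial.C (((α S.j0 + 1 : ℕ) : ℂ)) := by
      rw [map_natCast]
      push_cast
      rfl
    rw [h1, mul_comm, coeff_C_mul]
    exact (isAlgebraic_natCast _).mul (hΦa _ _)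
  have hE1 : ∀ᶠ n in cofinite, ∀ T ∈ S.Φ.support.powerset,
      (∃ p ∈ V, evk (∑ α ∈ T, monomial α (S.Φ.coeff α)) (xs p) (ys p) ≠ 0) →
        evk (∑ α ∈ T, monomial α (S.Φ.coeff α)) (xs (P n)) (ys (P n)) ≠ 0 := by
    rw [Filter.eventually_all_finset]
    intro T _
    by_cases hne : ∃ p ∈ V, evk (∑ α ∈ T, monomial α (S.Φ.coeff α)) (xs p) (ys p) ≠ 0
    · exact (k9g3a_ev h hV.sub hP (hLa T) hne).mono fun n hn _ => hn
    · exact Eventually.of_forall fun n h1 => absurd h1 hne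
  have hE2 := k9g3a_ev h hV.sub hP hDa hder
  have hE := hE1.and hE2
  rw [Nat.cofinite_eq_atTop, Filter.eventually_atTop] at hE
  obtain ⟨N0, hN0⟩ := hE
  obtain ⟨P', hP'e⟩ : ∃ P' : ℕ → Fin k ⊕ Fin m → ℂˣ, P' = fun n => P (n + N0) := ⟨_, rfl⟩
  have hP' : Gn V P' := by
    rw [hP'e]
    exact hP.comp (add_left_injective N0)
  have hrk' : ∀ n, k + 1 ≤ rk ({P' n} : Set (Fin k ⊕ Fin m → ℂˣ)) := by
    intro n
    rw [hP'e]
    exact hrk _
  have hPs : ∀ n (e : Fin k → ℤ) (c : ℤ), e ≠ 0 → (lev S.Φ e c).Nonempty →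
      levs S.Φ e c (xs (P' n)) (ys (P' n)) ≠ 0 := by
    intro n e c he hc
    have h1 := (hN0 (n + N0) (by omega)).1 (lev S.Φ e c) (Finset.mem_powerset.2 (Finset.filter_subset _ _)) (by
      obtain ⟨p, hp, hpne⟩ := hlev e c he hc
      refine ⟨p, hp, ?_⟩
      rw [hLe]
      exact hpne)
    rw [hLe] at h1
    rw [hP'e]
    exact h1
  have hPd : ∀ n, evk (pderiv S.j0 S.Φ) (xs (P' n)) (ys (P' n)) ≠ 0 := by
    intro n
    rw [hP'e]
    exact (hN0 (n + N0) (by omega)).2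
  have hPg : ∀ (L : ℕ) (f : (Fin k → Fin (L + 1)) → ℤ), f ≠ 0 →
      ∀ᶠ n in cofinite, ev f (Function.update (xs (P' n)) S.j0 (ys (P' n) 0)) ≠ 0 := by
    intro L f hf
    obtain ⟨v, hv, hne⟩ := indep h hS hV hVS hy hlev L f hf
    rw [Filter.eventually_cofinite]
    by_contra hinf
    have hinf' : {n | ¬ ev f (Function.update (xs (P' n)) S.j0 (ys (P' n) 0)) ≠ 0}.Infinite := hinf
    have hq : ∀ p : Fin k ⊕ Fin m → ℂˣ, MvPolynomial.eval (fun i => (p i : ℂ))
        (rename (fun j : Fin k => if j = S.j0 then (Sum.inr 0 : Fin k ⊕ Fin m) else Sum.inl j)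
          (MvPolynomial.map (algebraMap ℤ ℂ) (toP f))) = ev f (Function.update (xs p) S.j0 (ys p 0)) := by
      intro p
      have h1 : MvPolynomial.aeval (R := ℂ) (fun i => (p i : ℂ))
        (rename (fun j : Fin k => if j = S.j0 then (Sum.inr 0 : Fin k ⊕ Fin m) else Sum.inl j)
          (MvPolynomial.map (algebraMap ℤ ℂ) (toP f))) = ev f (Function.update (xs p) S.j0 (ys p 0)) := by
        rw [aeval_rename, MvPolynomial.aeval_map_algebraMap, aeval_toP]
        have h2 : ((fun i => (p i : ℂ)) ∘ fun j : Fin k => if j = S.j0 then (Sum.inr 0 : Fin k ⊕ Fin m) else Sum.inl j) =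
            Function.update (xs p) S.j0 (ys p 0) := by
          funext j
          show ((p (if j = S.j0 then (Sum.inr 0 : Fin k ⊕ Fin m) else Sum.inl j) : ℂˣ) : ℂ) = _
          by_cases hj : j = S.j0
          · rw [if_pos hj, hj, Function.update_self]
            rfl
          · rw [if_neg hj, Function.update_of_ne hj]
            rfl
        rw [h2]
      rw [← h1, MvPolynomial.aeval_eq_eval]
    apply hne
    rw [← hq]
    refine hP'.zero _ (fun α => ?_) (hinf'.mono fun n hn => ?_) v hv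
    · rw [← MvPolynomial.map_rename, coeff_map, eq_intCast]
      exact isAlgebraic_intCast _
    · have h1 : ev f (Function.update (xs (P' n)) S.j0 (ys (P' n) 0)) = 0 := not_not.1 hn
      show MvPolynomial.eval _ _ = 0
      rw [hq, h1]
  obtain ⟨F, i1, i2, i3, A, φ, hφ, hA⟩ := exists_Ar h hk hm hS hR hΦa P' (fun n => hVS (hP'.mem n)) hP'.alg hPs hPd hPg
  have hA' : ∀ n i, A.j n (A.pt n i) = (P' (φ n) i : ℂ) := hA
  rcases A.out (fun n => (hrk' (φ n)).trans (A.k9g3a_rk (hA' n))) with ⟨N', hinf⟩ | ⟨N, nn, hN, H, hH, p0, hp⟩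
  · obtain ⟨n0, hn0⟩ := hinf.nonempty
    have h1 : {n | Lam ({P' (φ n0)} : Set (Fin k ⊕ Fin m → ℂˣ)) ≤
        Lam ({P' (φ n)} : Set (Fin k ⊕ Fin m → ℂˣ))}.Infinite := by
      refine hinf.mono fun n hn v hv => ?_
      have h2 := (A.k9g3a_mem (hA' n0) v).1 hv
      have hn0' : A.N n0 = N' := hn0
      have hn' : A.N n = N' := hn
      rw [hn0', ← hn'] at h2
      exact (A.k9g3a_mem (hA' n) v).2 h2
    have h2 := (hP'.comp hφ).cd_of_lat hV.irr _ h1
    have h3 := hrk' (φ n0)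
    unfold rk at h3
    unfold cd at h2
    rw [hV.dim] at h2
    omega
  · have key : ∀ q : ℕ, q.Prime → p0 ≤ q → ∀ v ∈ V,
        MvPolynomial.aeval (fun j => ((mu N nn v j : ℂˣ) : ℂ) ^ q) H = 0 := by
      intro q hq hpq v hv
      obtain ⟨w, hw⟩ := k9g3a_mu N nn H q
      obtain ⟨f, hfa, hf⟩ := k9g3a_laur H.support (fun β => H.coeff β) w
      rw [hw, ← hf]
      refine (hP'.comp hφ).zero f hfa ((hp q hq hpq).mono fun n hn => ?_) v hv
      show MvPolynomial.eval _ f = 0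
      rw [hf, ← hw]
      have h2 : ∀ j, A.j n ((A.x n j ^ N * ∏ i, A.y n i ^ (- nn j i)) ^ q) =
          ((mu N nn (P' (φ n)) j : ℂˣ) : ℂ) ^ q := by
        intro j
        have hx : A.j n (A.x n j) = (P' (φ n) (Sum.inl j) : ℂ) := hA n (Sum.inl j)
        have hy : ∀ i, A.j n (A.y n i) = (P' (φ n) (Sum.inr i) : ℂ) := fun i => hA n (Sum.inr i)
        rw [map_pow, map_mul, map_pow, map_prod, hx]
        congr 1
        unfold mu
        rw [Units.val_mul, Units.val_pow_eq_pow_val, Units.coe_prod]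
        congr 1
        refine Finset.prod_congr rfl fun i _ => ?_
        rw [map_zpow₀, hy, Units.val_zpow_eq_zpow_val]
      have h3 := congrArg ((A.j n : A.K n →+* ℂ).toIntAlgHom) hn
      rw [map_zero, MvPolynomial.comp_aeval_apply] at h3
      have h4 : (fun j => (A.j n : A.K n →+* ℂ).toIntAlgHom ((A.x n j ^ N * ∏ i, A.y n i ^ (- nn j i)) ^ q)) =
          fun j => ((mu N nn (P' (φ n)) j : ℂˣ) : ℂ) ^ q := funext h2
      rw [h4] at h3
      exact h3
    obtain rfl | hk2 : k = 1 ∨ 2 ≤ k := by omega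
    · exact bog_alg1 hV.irr hN nn hH key
    · exact (bog_alg2 h hk2 hV hF hN nn hH key).elim

/-- Row Z9-G3b. The main theorem: a hypersurface of `G_m^k × C` with a generic sequence of points of rank `≥ k + 1` is contained in a proper special subvariety. PROOF. Induction on `k`. `k = 0`: `td V = 0`, `V` is a point, `P 0 ∈ V`, `1 ≤ rk {P 0} = rk V`. `k + 1`: if `FinStab V`: `rk_pos_fin`. Otherwise `V` is stable under a cocharacter `e ≠ 0`; `td_pr_stab` gives `b`; `V' = cl ℂ (pr b '' V)` with the sequence `pr b (P n)` satisfies the hypotheses for `k` (`pr_irr`, `pr_acl`, `pr_gn`, `pr_sub`, `pr_rk`), so `1 ≤ rk V' ≤ rk V` (`rk_pr`). -/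
theorem rk_pos (h : HC C) (hm : 2 ≤ m) : ∀ (k : ℕ) (V : Set (Fin k ⊕ Fin m → ℂˣ)), Fam C V →
    cl (acl (∅ : Set ℂ)) V = V → ∀ P : ℕ → Fin k ⊕ Fin m → ℂˣ, Gn V P →
    (∀ n, k + 1 ≤ rk ({P n} : Set (Fin k ⊕ Fin m → ℂˣ))) → 1 ≤ rk V := by
  intro k
  induction k with
  | zero =>
    intro V hV hVa P hP hrk
    have h1 : ({P 0} : Set (Fin 0 ⊕ Fin m → ℂˣ)) = V :=
      eq_of_td_le (irr_singleton _) hV.irr (Set.singleton_subset_iff.2 (hP.mem 0)) (by
        rw [hV.dim]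
        exact Nat.zero_le _)
    have h2 := hrk 0
    rw [h1] at h2
    omega
  | succ k ih =>
    intro V hV hVa P hP hrk
    by_cases hF : FinStab V
    · exact rk_pos_fin h hm (by omega) hV hVa hF hP hrk
    · unfold FinStab at hF
      push Not at hF
      obtain ⟨e, he, hst⟩ := hF
      obtain ⟨b, hb, htd⟩ := td_pr_stab hV.irr he hst
      have hd : td ℂ (cl ℂ (pr b '' V) : Set (Fin k ⊕ Fin m → ℂˣ)) = k := by
        have h1 := hV.dim
        omega
      have h1 := ih (cl ℂ (pr b '' V)) ⟨pr_irr b hV.irr, hd, pr_sub h.irr.closed b hV.sub⟩ (pr_acl b hVa) _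
        (pr_gn b hP) (fun n => by
          have h2 := pr_rk hb (P n)
          have h3 := hrk n
          omega)
      exact h1.trans (rk_pr hb V)

end Pool.Agent.Z9
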