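import Pool.Agent.Z9.G3

open MvPolynomial Pool.Agent.MP_dd1803_nt Pool.Agent.ZPA Pool.Agent.ZL2

namespace Pool.Agent.Z9

open Filter Topology
open Pool.Agent.Z7 (HC Cv HHp Rat)
open Pool.Agent.Z8 (Fam FinStab xs ys VSk Cyl AlgCk levs lev evk sp rk_le_y)

/-- The dimension does not increase under projections. -/
theorem k9g4_td {κ κ' : Type} [Finite κ] [Finite κ'] {X : Set (κ → ℂˣ)} (hX : PIrr X) (e : κ' → κ) :
    td ℂ (pull e '' X) ≤ td ℂ X := by
  obtain ⟨s, hs, hc⟩ := exists_basis' (k := ℂ) (hX.pull e)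
  rw [ind_iff_indF] at hs
  have h1 : IndF ℂ X (fun i : s => e i.1) := by
    intro p hp
    refine hs p fun x hx => ?_
    obtain ⟨z, hz, rfl⟩ := hx
    exact hp z hz
  have h2 := h1.card_le hX
  rw [Nat.card_coe_set_eq, hc] at h2
  exact h2

/-- The rank drops if a character is lost. -/
theorem k9g4_rk {κ κ' : Type} [Fintype κ] [Fintype κ'] {X : Set (κ → ℂˣ)} {e : κ' → κ} (he : Function.Injective e)
    {i0 : κ} (hi0 : i0 ∉ Set.range e) {v : κ → ℤ} (hv : v ∈ Lam X) (hv0 : v i0 ≠ 0) :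
    rk (pull e '' X) + 1 ≤ rk X := by
  have hinj : Function.Injective (extM e) := by
    intro a b hab
    funext j
    rw [← extM_apply_self he a j, ← extM_apply_self he b j, hab]
  have h1 := finrank_lt_of_mem ((Lam (pull e '' X)).map (extM e)) (Lam X) (by
    rintro _ ⟨a, ha, rfl⟩
    exact extM_mem_Lam.2 ha) v hv (by
    rintro n hn ⟨a, -, ha⟩
    have h2 := congrFun ha i0
    rw [extM_apply_notMem a hi0, Pi.smul_apply, smul_eq_mul] at h2
    exact mul_ne_zero hn hv0 h2.symm)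
  have h3 := (Submodule.equivMapOfInjective (extM e) hinj (Lam (pull e '' X))).finrank_eq
  unfold rk
  omega

theorem k9g4_point {κ : Type} [Finite κ] {X : Set (κ → ℂˣ)} (hX : Irr X) {p q : κ → ℂˣ} (hp : p ∈ X) (hq : q ∈ X)
    (hpq : p ≠ q) : 1 ≤ td ℂ X := by
  have h1 : ({p} : Set (κ → ℂˣ)) ⊂ X :=
    ⟨fun x hx => by rw [Set.mem_singleton_iff.1 hx]; exact hp, fun h2 => hpq (Set.mem_singleton_iff.1 (h2 hq)).symm⟩
  have h2 := td_lt (irr_singleton p) hX h1
  omega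

variable {k m : ℕ}

theorem k9g4_y {W : Set (Fin k ⊕ Fin m → ℂˣ)} (hy : ¬ ∃ y0 : Fin m → ℂˣ, ∀ p ∈ W, ∀ i, p (Sum.inr i) = y0 i)
    (hne : W.Nonempty) : ∃ p ∈ W, ∃ q ∈ W, (fun i => p (Sum.inr i)) ≠ (fun i => q (Sum.inr i)) := by
  by_contra hcon
  push Not at hcon
  obtain ⟨p, hp⟩ := hne
  exact hy ⟨fun i => p (Sum.inr i), fun q hq i => congrFun (hcon q hq p hp) i⟩

/-- If the `y`-part is not constant then no character of `G_m^m` is torsion on `W`. -/
theorem k9g4_zero {C : Set (Fin m → ℂˣ)} (h : HC C) {W : Set (Fin k ⊕ Fin m → ℂˣ)} (hW : Irr W)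
    (hWC : ∀ p ∈ W, (fun i => p (Sum.inr i)) ∈ C)
    (hy : ¬ ∃ y0 : Fin m → ℂˣ, ∀ p ∈ W, ∀ i, p (Sum.inr i) = y0 i) {v : Fin k ⊕ Fin m → ℤ} (hv : v ∈ Lam W)
    (hv0 : ∀ i, v (Sum.inl i) = 0) : v = 0 := by
  have h1 : v ∘ Sum.inr ∈ Lam (pull (Sum.inr : Fin m → Fin k ⊕ Fin m) '' W) := by
    refine comp_mem_Lam Sum.inr_injective hv fun i hi => ?_
    rcases i with i | i
    · exact hv0 i
    · exact absurd ⟨i, rfl⟩ hi
  have hI : Irr (cl ℂ (pull (Sum.inr : Fin m → Fin k ⊕ Fin m) '' W)) := (hW.pirr.pull _).cl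
  have hsub : cl ℂ (pull (Sum.inr : Fin m → Fin k ⊕ Fin m) '' W) ⊆ C := by
    refine cl_subset ?_ h.irr.closed
    rintro _ ⟨p, hp, rfl⟩
    exact hWC p hp
  have hd : 1 ≤ td ℂ (cl ℂ (pull (Sum.inr : Fin m → Fin k ⊕ Fin m) '' W)) := by
    obtain ⟨p, hp, q, hq, hpq⟩ := k9g4_y hy hW.pirr.nonempty
    exact k9g4_point hI (subset_cl _ ⟨p, hp, rfl⟩) (subset_cl _ ⟨q, hq, rfl⟩) hpq
  have hC : cl ℂ (pull (Sum.inr : Fin m → Fin k ⊕ Fin m) '' W) = C := eq_of_td_le hI h.irr hsub (by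
    rw [h.dim]
    exact hd)
  have h2 : v ∘ Sum.inr ∈ Lam C := by
    rw [← hC, Lam_cl]
    exact h1
  obtain ⟨c, -, hc⟩ := Lam_const h.irr.pirr h2
  have h3 : v ∘ Sum.inr = 0 := by
    by_contra h4
    exact h.nc _ h4 c hc
  funext i
  rcases i with i | i
  · exact hv0 i
  · exact congrFun h3 i

/-- The projection which forgets the coordinate `x_i`. -/
theorem k9g4_pr (i : Fin (k + 1)) : (pr (fun j => Pi.single (i.succAbove j) 1) : (Fin (k + 1) ⊕ Fin m → ℂˣ) →
    Fin k ⊕ Fin m → ℂˣ) = pull (Sum.map i.succAbove id) := by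
  funext p j
  rcases j with j | j
  · show ch (Pi.single (i.succAbove j) 1) (fun i => p (Sum.inl i)) = p (Sum.inl (i.succAbove j))
    unfold ch
    rw [Finset.prod_eq_single (i.succAbove j)]
    · rw [Pi.single_eq_same, zpow_one]
    · intro l _ hl
      rw [Pi.single_eq_of_ne hl, zpow_zero]
    · intro h0
      exact absurd (Finset.mem_univ _) h0
  · rfl

theorem k9g4_ind (i : Fin (k + 1)) :
    LinearIndependent ℤ (fun j : Fin k => (Pi.single (i.succAbove j) 1 : Fin (k + 1) → ℤ)) := by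
  have h1 : LinearIndependent ℤ (fun j : Fin (k + 1) => (Pi.single j 1 : Fin (k + 1) → ℤ)) :=
    Pi.linearIndependent_single_one (Fin (k + 1)) ℤ
  exact h1.comp _ Fin.succAbove_right_injective

variable [NeZero m] {C : Set (Fin m → ℂˣ)}

/-- Row Z9-G4. A subvariety of `G_m^k × C` over the algebraic numbers with a generic sequence of points of rank `≥ k + 1` has
`k + 1 ≤ cd`. PROOF. Induction on `k`: if `cd W ≤ k + 1` (for `k + 1`) then forgetting a coordinate `x_i` does not change the rank, so all elements of `Lam W` are zero at `i`, for all `i`; so `Lam W = 0` and `td W = k + 1`: contradiction with `rk_pos`. -/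
theorem cd_ge (h : HC C) (hm : 2 ≤ m) : ∀ (k : ℕ) (W : Set (Fin k ⊕ Fin m → ℂˣ)), Irr W →
    (∀ p ∈ W, (fun i => p (Sum.inr i)) ∈ C) → cl (acl (∅ : Set ℂ)) W = W →
    (¬ ∃ y0 : Fin m → ℂˣ, ∀ p ∈ W, ∀ i, p (Sum.inr i) = y0 i) → ∀ P : ℕ → Fin k ⊕ Fin m → ℂˣ, Gn W P →
    (∀ n, k + 1 ≤ rk ({P n} : Set (Fin k ⊕ Fin m → ℂˣ))) → k + 1 ≤ cd W := by
  intro k
  induction k with
  | zero =>
    intro W hW _ _ hy P _ _
    obtain ⟨p, hp, q, hq, hpq⟩ := k9g4_y hy hW.pirr.nonempty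
    have h1 := k9g4_point hW hp hq fun e => hpq (by rw [e])
    unfold cd
    omega
  | succ k ih =>
    intro W hW hWC hWa hy P hP hr
    by_contra hcon
    have key : ∀ i : Fin (k + 1), k + 1 ≤ rk (pull (Sum.map i.succAbove id : Fin k ⊕ Fin m → Fin (k + 1) ⊕ Fin m) '' W) +
        td ℂ (pull (Sum.map i.succAbove id : Fin k ⊕ Fin m → Fin (k + 1) ⊕ Fin m) '' W) := by
      intro i
      have h1 := ih (cl ℂ (pr (fun j => Pi.single (i.succAbove j) 1) '' W)) (pr_irr _ hW)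
        (pr_sub h.irr.closed _ hWC) (pr_acl _ hWa) (by
          rintro ⟨y0, hy0⟩
          exact hy ⟨y0, fun p hp j => hy0 _ (subset_cl _ ⟨p, hp, rfl⟩) j⟩) _ (pr_gn _ hP) (fun n => by
          have h2 := pr_rk (k9g4_ind i) (P n)
          have h3 := hr n
          omega)
      rw [cd_cl, k9g4_pr] at h1
      exact h1
    have htd : ∀ i : Fin (k + 1), td ℂ (pull (Sum.map i.succAbove id : Fin k ⊕ Fin m → Fin (k + 1) ⊕ Fin m) '' W) ≤
        td ℂ W := fun i => k9g4_td hW.pirr _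
    have hcd : rk W + td ℂ W ≤ k + 1 := by
      have : cd W = rk W + td ℂ W := rfl
      omega
    have hL : ∀ v ∈ Lam W, v = 0 := by
      intro v hv
      refine k9g4_zero h hW hWC hy hv fun i => ?_
      by_contra hvi
      have h1 := k9g4_rk (e := (Sum.map i.succAbove id : Fin k ⊕ Fin m → Fin (k + 1) ⊕ Fin m))
        (Sum.map_injective.2 ⟨Fin.succAbove_right_injective, Function.injective_id⟩) (i0 := Sum.inl i) (by
          rintro ⟨j, hj⟩
          rcases j with j | j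
          · exact Fin.succAbove_ne i j (Sum.inl_injective hj)
          · exact absurd hj (by simp)) hv hvi
      have h2 := key i
      have h3 := htd i
      omega
    have hrk : rk W = 0 := by
      have h1 : Lam W = ⊥ := (Submodule.eq_bot_iff _).2 hL
      unfold rk
      rw [h1]
      exact finrank_bot ℤ _
    have hrk0 : rk (pull (Sum.map (0 : Fin (k + 1)).succAbove id : Fin k ⊕ Fin m → Fin (k + 1) ⊕ Fin m) '' W) ≤ rk W := by
      have h1 := rk_pr (k9g4_ind (0 : Fin (k + 1))) W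
      rw [rk_cl, k9g4_pr] at h1
      exact h1
    have h4 := key 0
    have h5 := htd 0
    have hF : Fam C W := ⟨hW, by omega, hWC⟩
    have h6 := rk_pos h hm (k + 1) W hF hWa P hP hr
    omega

end Pool.Agent.Z9
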