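import Pool.Agent.Z9.G4

open MvPolynomial Pool.Agent.MP_dd1803_nt Pool.Agent.ZPA Pool.Agent.ZL2

namespace Pool.Agent.Z9

open Filter Topology
open Pool.Agent.Z7 (HC Cv HHp Rat)
open Pool.Agent.Z8 (Fam FinStab xs ys VSk Cyl AlgCk levs lev evk sp rk_le_y tors_pt k8g4f_cl k8g4f_fin k8g4f_fibre
  k8g4f_cyl k8g4d_fib)

/-- A set is dense in every irreducible component of its closure. -/
theorem k9g5_dense {κ : Type} [Fintype κ] {B W : Set (κ → ℂˣ)} (hW : Comp (cl ℂ B) W) {Z : Set (κ → ℂˣ)}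
    (hZ : ZClosed Z) (hBZ : B ∩ W ⊆ Z) : W ⊆ Z := by
  classical
  have hD : ZClosed (cl ℂ B) := zclosed_cl B
  obtain ⟨S, hS⟩ : ∃ S : Finset (Set (κ → ℂˣ)), S = (finite_comp hD).toFinset.erase W := ⟨_, rfl⟩
  have hSc : ∀ Y ∈ S, Comp (cl ℂ B) Y ∧ Y ≠ W := by
    intro Y hY
    rw [hS, Finset.mem_erase, Set.Finite.mem_toFinset] at hY
    exact ⟨hY.2, hY.1⟩
  have hU : ZClosed (⋃ Y ∈ S, Y) := ZClosed.finset_biUnion _ fun Y hY => (hSc Y hY).1.irr.closed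
  have h1 : B ⊆ Z ∪ ⋃ Y ∈ S, Y := by
    intro b hb
    obtain ⟨Y, hY, hbY⟩ := exists_comp_mem hD (subset_cl B hb)
    by_cases hYW : Y = W
    · left
      rw [hYW] at hbY
      exact hBZ ⟨hb, hbY⟩
    · right
      rw [Set.mem_iUnion₂]
      refine ⟨Y, ?_, hbY⟩
      rw [hS, Finset.mem_erase, Set.Finite.mem_toFinset]
      exact ⟨hYW, hY⟩
  have h2 : cl ℂ B ⊆ Z ∪ ⋃ Y ∈ S, Y := cl_subset h1 (hZ.union hU)
  rcases hW.irr.subset_or hZ hU (hW.subset.trans h2) with h3 | h3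
  · exact h3
  · exfalso
    obtain ⟨Y, hY, hWY⟩ := hW.irr.subset_of_finset S (fun Y hY => (hSc Y hY).1.irr.closed) h3
    exact (hSc Y hY).2 (hW.eq_of_subset (hSc Y hY).1.irr (hSc Y hY).1.subset hWY).symm

variable {k m : ℕ} [NeZero m] {C : Set (Fin m → ℂˣ)}

/-- Subvarieties of the cylinder which are not defined over the algebraic numbers. -/
theorem k9g5_trans (hCa : cl (acl (∅ : Set ℂ)) C = C)
    (hfin : {y : Fin m → ℂˣ | y ∈ C ∧ (∀ i, IsAlgebraic ℚ (y i : ℂ)) ∧ 2 ≤ rk ({y} : Set (Fin m → ℂˣ))}.Finite)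
    {X : Set (Fin k ⊕ Fin m → ℂˣ)} (hX : Irr X) (hXC : ∀ p ∈ X, (fun i => p (Sum.inr i)) ∈ C)
    (hcd : k + 1 ≤ cd X) (hXa : cl (acl (∅ : Set ℂ)) X ≠ X) :
    ∃ y0 ∈ {y : Fin m → ℂˣ | y ∈ C ∧ (∀ i, IsAlgebraic ℚ (y i : ℂ)) ∧ 2 ≤ rk ({y} : Set (Fin m → ℂˣ))},
      ∀ x ∈ X, ∀ i, x (Sum.inr i) = y0 i := by
  classical
  have halg : IsAlgClosed (acl (∅ : Set ℂ)) := isAlgClosed_acl _
  set F2 : Set (Fin m → ℂˣ) := {y : Fin m → ℂˣ | y ∈ C ∧ (∀ i, IsAlgebraic ℚ (y i : ℂ)) ∧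
    2 ≤ rk ({y} : Set (Fin m → ℂˣ))} with hF2
  have hX' : Irr (cl (acl (∅ : Set ℂ)) X) := irr_cl hX.pirr
  have hlt : td ℂ X < td ℂ (cl (acl (∅ : Set ℂ)) X) :=
    td_lt hX hX' (LE.le.ssubset_of_ne (subset_cl X) (Ne.symm hXa))
  have hrk : rk (cl (acl (∅ : Set ℂ)) X) = rk X := rk_cl X
  have hX2 : X ⊆ {p : Fin k ⊕ Fin m → ℂˣ | (fun i => p (Sum.inr i)) ∈ F2} := by
    by_contra hcon
    have hX2' : ¬ cl (acl (∅ : Set ℂ)) X ⊆ {p : Fin k ⊕ Fin m → ℂˣ | (fun i => p (Sum.inr i)) ∈ F2} :=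
      fun h1 => hcon ((subset_cl X).trans h1)
    obtain ⟨p, hpX, hpW, hpa, hpr⟩ := tors_pt hX' (cl_idem X) (k8g4f_fin hfin) hX2'
    have hpC := k8g4f_cyl hCa hXC p hpX
    have h1 := rk_le_y p
    have h2 : cd X = rk X + td ℂ X := rfl
    have h3 : cd (cl (acl (∅ : Set ℂ)) X) = rk (cl (acl (∅ : Set ℂ)) X) + td ℂ (cl (acl (∅ : Set ℂ)) X) := rfl
    exact hpW ⟨hpC, fun i => hpa _, by omega⟩
  have h2 : X ⊆ ⋃ Z ∈ hfin.toFinset.image (fun y => Cyl k ({y} : Set (Fin m → ℂˣ))), Z := by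
    intro p hp
    simp only [Set.mem_iUnion]
    refine ⟨Cyl k {fun i => p (Sum.inr i)}, Finset.mem_image.2 ⟨_, hfin.mem_toFinset.2 (hX2 hp), rfl⟩, rfl⟩
  obtain ⟨Z, hZ, hXZ⟩ := hX.subset_of_finset _ (by
    intro Z hZ
    obtain ⟨y, -, rfl⟩ := Finset.mem_image.1 hZ
    exact (k8g4d_fib y).1.closed) h2
  obtain ⟨y, hy, rfl⟩ := Finset.mem_image.1 hZ
  exact ⟨y, hfin.mem_toFinset.1 hy, fun x hx i => congrFun (hXZ hx : (fun i => x (Sum.inr i)) = y) i⟩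

/-- FINITENESS. For every closed `V` contained in the product of the torus of dimension `k` and `C` the irreducible `X`
maximal among those with `k + 1 ≤ rk X + td X` are finitely many, apart from those over a finite set of algebraic points
of `C` of rank at least one. -/
theorem fin_max (h : HC C) (hm : 2 ≤ m) {V : Set (Fin k ⊕ Fin m → ℂˣ)} (hV : ZClosed V)
    (hVC : ∀ p ∈ V, (fun i => p (Sum.inr i)) ∈ C) :
    ∃ F : Set (Fin m → ℂˣ), F.Finite ∧ (∀ y ∈ F, y ∈ C ∧ (∀ i, IsAlgebraic ℚ (y i : ℂ)) ∧ 1 ≤ rk ({y} : Set (Fin m → ℂˣ))) ∧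
      {X | X ∈ MaxE m V ∧ ¬ ∃ y0 ∈ F, ∀ x ∈ X, ∀ i, x (Sum.inr i) = y0 i}.Finite := by
  classical
  have halg : IsAlgClosed (acl (∅ : Set ℂ)) := isAlgClosed_acl _
  have hcard : Fintype.card (Fin k ⊕ Fin m) = k + m := by
    rw [Fintype.card_sum, Fintype.card_fin, Fintype.card_fin]
  set B : Set (Fin k ⊕ Fin m → ℂˣ) := {p | p ∈ V ∧ (∀ i, IsAlgebraic ℚ (p i : ℂ)) ∧
    k + 1 ≤ rk ({p} : Set (Fin k ⊕ Fin m → ℂˣ))} with hB
  have hD : ZClosed (cl ℂ B) := zclosed_cl B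
  have hDV : cl ℂ B ⊆ V := cl_subset (fun p hp => hp.1) hV
  have hDa : cl (acl (∅ : Set ℂ)) (cl ℂ B) = cl ℂ B := by
    apply Set.Subset.antisymm _ (subset_cl _)
    rw [cl_cl (acl (∅ : Set ℂ)) ℂ]
    exact k8g4f_cl fun p hp => hp.2.1
  have hfin2 := Pool.Agent.Z7.finite_rk2 h hm
  have hcomp := finite_comp hD
  -- the components
  have hone : ∀ W, Comp (cl ℂ B) W → (¬ ∃ y0 : Fin m → ℂˣ, ∀ p ∈ W, ∀ i, p (Sum.inr i) = y0 i) → k + 1 ≤ cd W := by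
    intro W hW hy
    obtain ⟨P, hP, hPB⟩ := exists_gn (V := W) (B := B ∩ W) hW.irr Set.inter_subset_right
      (fun p hp => hp.1.2.1) (fun Z hZ hBZ => k9g5_dense hW hZ hBZ)
    exact cd_ge h hm k W hW.irr (fun p hp => hVC p (hDV (hW.subset hp))) (Comp.cl hDa hW) hy P hP
      fun n => (hPB n).1.2.2
  refine ⟨_, hfin2.union ((hcomp.image fun W => (fun i => (if hW : W.Nonempty then hW.some (Sum.inr i) else 1) :
    Fin m → ℂˣ)).inter_of_left {y : Fin m → ℂˣ | y ∈ C ∧ (∀ i, IsAlgebraic ℚ (y i : ℂ)) ∧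
      1 ≤ rk ({y} : Set (Fin m → ℂˣ))}), ?_, ?_⟩
  · rintro y (hy | hy)
    · exact ⟨hy.1, hy.2.1, by have := hy.2.2; omega⟩
    · exact hy.2
  refine hcomp.subset ?_
  rintro X ⟨hX, hXF⟩
  have hXi := MaxE.irr hX
  have hXV := MaxE.subset hX
  have hlt := MaxE.lt hX
  have hcdX : k + 1 ≤ cd X := by omega
  have hXC : ∀ p ∈ X, (fun i => p (Sum.inr i)) ∈ C := fun p hp => hVC p (hXV hp)
  by_cases hXa : cl (acl (∅ : Set ℂ)) X = X
  swap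
  · exfalso
    obtain ⟨y0, hy0, hy⟩ := k9g5_trans h.alg hfin2 hXi hXC hcdX hXa
    exact hXF ⟨y0, Or.inl hy0, hy⟩
  have hXD : X ⊆ cl ℂ B := by
    by_contra hcon
    obtain ⟨p, hpX, hpD, hpa, hpr⟩ := tors_pt hXi hXa hD hcon
    exact hpD (subset_cl _ ⟨hXV hpX, hpa, hcdX.trans hpr⟩)
  obtain ⟨W, hW, hXW⟩ := exists_comp hD hXi hXD
  by_cases hy : ∃ y0 : Fin m → ℂˣ, ∀ p ∈ W, ∀ i, p (Sum.inr i) = y0 i
  · exfalso
    obtain ⟨y0, hy0⟩ := hy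
    have hne : W.Nonempty := hW.irr.nonempty
    refine hXF ⟨y0, Or.inr ⟨⟨W, hW, ?_⟩, ?_⟩, fun x hx i => hy0 x (hXW hx) i⟩
    · funext i
      beta_reduce
      rw [dif_pos hne]
      exact hy0 _ hne.some_mem i
    · obtain ⟨p, hpB, hpW⟩ : (B ∩ W).Nonempty := by
        by_contra hcon
        rw [Set.not_nonempty_iff_eq_empty] at hcon
        have h1 := k9g5_dense hW (Z := (∅ : Set (Fin k ⊕ Fin m → ℂˣ))) zclosed_empty (by rw [hcon])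
        obtain ⟨p, hp⟩ := hne
        exact h1 hp
      have h1 := hVC p hpB.1
      have h2 : (fun i => p (Sum.inr i)) = y0 := funext fun i => hy0 _ hpW i
      have h3 := rk_le_y p
      rw [h2] at h1 h3
      refine ⟨h1, fun i => ?_, by have := hpB.2.2; omega⟩
      rw [← hy0 p hpW i]
      exact hpB.2.1 _
  · have h1 := hone W hW hy
    rw [MaxE.eq hX hW.irr (hW.subset.trans hDV) (by omega) hXW]
    exact hW

end Pool.Agent.Z9
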