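import Pool.Agent.Z9.G5

open MvPolynomial Pool.Agent.MP_dd1803_nt Pool.Agent.ZPA Pool.Agent.ZL2

namespace Pool.Agent.Z9

open Filter Topology
open Pool.Agent.Z7 (HC Cv HHp Rat)
open Pool.Agent.Z8 (Fam FinStab xs ys VSk Cyl AlgCk levs lev evk sp rk_le_y tors_pt k8g4f_cl k8g4f_fin k8g4f_fibre
  k8g4f_cyl k8g4d_fib)

variable {k m : ℕ} [NeZero m] {C : Set (Fin m → ℂˣ)}

theorem k9g6_card : Fintype.card (Fin k ⊕ Fin m) = k + m := by
  rw [Fintype.card_sum, Fintype.card_fin, Fintype.card_fin]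

/-- An irreducible set whose `y`-parts are in a finite set lies in a fibre. -/
theorem k9g6_fin {E : Set (Fin m → ℂˣ)} (hE : E.Finite) {X : Set (Fin k ⊕ Fin m → ℂˣ)} (hX : Irr X)
    (h : ∀ p ∈ X, (fun i => p (Sum.inr i)) ∈ E) : ∃ y ∈ E, X ⊆ Cyl k {y} := by
  classical
  obtain ⟨Z, hZ, hXZ⟩ := hX.subset_of_finset (hE.toFinset.image fun y => Cyl k ({y} : Set (Fin m → ℂˣ))) (by
    intro Z hZ
    obtain ⟨y, -, rfl⟩ := Finset.mem_image.1 hZ
    exact (k8g4d_fib y).1.closed) (by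
    intro p hp
    simp only [Set.mem_iUnion]
    exact ⟨Cyl k {fun i => p (Sum.inr i)}, Finset.mem_image.2 ⟨_, hE.mem_toFinset.2 (h p hp), rfl⟩, rfl⟩)
  obtain ⟨y, hy, rfl⟩ := Finset.mem_image.1 hZ
  exact ⟨y, hE.mem_toFinset.1 hy, hXZ⟩

/-- The components of the fibres have codimension one. -/
theorem k9g6_krull (h : HC C) {V : Set (Fin k ⊕ Fin m → ℂˣ)} (hV : Irr V) (hVC : ∀ p ∈ V, (fun i => p (Sum.inr i)) ∈ C)
    {y0 : Fin m → ℂˣ} {Y : Set (Fin k ⊕ Fin m → ℂˣ)} (hY : Comp (V ∩ Cyl k {y0}) Y) : td ℂ V ≤ td ℂ Y + 1 := by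
  have h1 : Y ⊆ V ∩ zp (X (Sum.inr 0) - MvPolynomial.C ((y0 0 : ℂˣ) : ℂ)) := by
    intro x hx
    refine ⟨(hY.subset hx).1, ?_⟩
    have h2 : (fun i => x (Sum.inr i)) = y0 := (hY.subset hx).2
    have h3 : x (Sum.inr 0) = y0 0 := congrFun h2 0
    show aeval (co x) (X (Sum.inr 0) - MvPolynomial.C ((y0 0 : ℂˣ) : ℂ)) = 0
    rw [map_sub, aeval_X, aeval_C, sub_eq_zero]
    show (x (Sum.inr 0) : ℂ) = (y0 0 : ℂ)
    rw [h3]
  obtain ⟨Y', hY', hYY⟩ := exists_comp (hV.closed.inter (zclosed_zp _)) hY.irr h1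
  have h2 := krull hV _ hY'
  have hfin : {y : Fin m → ℂˣ | y ∈ C ∧ ch (Pi.single 0 1) y = y0 0}.Finite :=
    h.fin_ch (by
      intro h0
      have := congrFun h0 0
      rw [Pi.single_eq_same, Pi.zero_apply] at this
      exact one_ne_zero this) _
  obtain ⟨y, hy, hYy⟩ := k9g6_fin hfin hY'.irr (by
    intro p hp
    have h3 := hY'.subset hp
    refine ⟨hVC p h3.1, ?_⟩
    have h4 : aeval (co p) (X (Sum.inr 0) - MvPolynomial.C ((y0 0 : ℂˣ) : ℂ)) = 0 := h3.2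
    rw [map_sub, aeval_X, aeval_C, sub_eq_zero] at h4
    unfold ch
    rw [Finset.prod_eq_single 0, Pi.single_eq_same, zpow_one]
    · exact Units.ext h4
    · intro l _ hl
      rw [Pi.single_eq_of_ne hl, zpow_zero]
    · intro h0
      exact absurd (Finset.mem_univ _) h0)
  obtain ⟨p, hp⟩ := hY.irr.nonempty
  have h5 : (fun i => p (Sum.inr i)) = y0 := (hY.subset hp).2
  have h6 : (fun i => p (Sum.inr i)) = y := hYy (hYY hp)
  have h7 : y = y0 := h6.symm.trans h5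
  rw [h7] at hYy
  have h8 : Y = Y' := hY.eq_of_subset hY'.irr (Set.subset_inter (hY'.subset.trans Set.inter_subset_left) hYy) hYY
  rw [h8]
  exact h2

/-- The fibres over the points of rank at least two. -/
theorem k9g6_two (h : HC C) {V : Set (Fin k ⊕ Fin m → ℂˣ)} (hV : Fam C V) {y0 : Fin m → ℂˣ}
    (h2 : 2 ≤ rk ({y0} : Set (Fin m → ℂˣ))) : {X | X ∈ MaxE m V ∧ ∀ x ∈ X, ∀ i, x (Sum.inr i) = y0 i}.Finite := by
  have hcl : ZClosed (V ∩ Cyl k {y0}) := hV.irr.closed.inter (k8g4d_fib y0).1.closed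
  refine (finite_comp hcl).subset ?_
  rintro X ⟨hX, hXy⟩
  obtain ⟨Y, hY, hXY⟩ := exists_comp hcl (MaxE.irr hX) (Set.subset_inter (MaxE.subset hX) fun x hx => funext fun i => hXy x hx i)
  have h3 := k9g6_krull h hV.irr hV.sub hY
  have h4 : 2 ≤ rk Y := by
    have h5 := rk_pull_le (X := Y) (e := (Sum.inr : Fin m → Fin k ⊕ Fin m)) Sum.inr_injective
    have h6 : pull (Sum.inr : Fin m → Fin k ⊕ Fin m) '' Y ⊆ {y0} := by
      rintro _ ⟨x, hx, rfl⟩
      exact (hY.subset hx).2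
    have h7 := rk_anti h6
    omega
  have h5 : cd Y = rk Y + td ℂ Y := rfl
  have h6 := hV.dim
  have h7 := k9g6_card (k := k) (m := m)
  rw [MaxE.eq hX hY.irr (hY.subset.trans Set.inter_subset_left) (by omega) hXY]
  exact hY

/-- FINITENESS for irreducible `V` of dimension `k`: the exceptional fibres are over finitely many algebraic points of `C` of
rank exactly one. -/
theorem fin_irr (h : HC C) (hm : 2 ≤ m) {V : Set (Fin k ⊕ Fin m → ℂˣ)} (hV : Fam C V) :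
    ∃ F : Set (Fin m → ℂˣ), F.Finite ∧ (∀ y ∈ F, y ∈ C ∧ (∀ i, IsAlgebraic ℚ (y i : ℂ)) ∧ rk ({y} : Set (Fin m → ℂˣ)) = 1) ∧
      {X | X ∈ MaxE m V ∧ ¬ ∃ y0 ∈ F, ∀ x ∈ X, ∀ i, x (Sum.inr i) = y0 i}.Finite := by
  obtain ⟨F, hF, hF1, hfin⟩ := fin_max h hm hV.irr.closed hV.sub
  refine ⟨{y | y ∈ F ∧ rk ({y} : Set (Fin m → ℂˣ)) = 1}, hF.subset fun y hy => hy.1,
    fun y hy => ⟨(hF1 y hy.1).1, (hF1 y hy.1).2.1, hy.2⟩, ?_⟩
  have h1 : {y | y ∈ F ∧ 2 ≤ rk ({y} : Set (Fin m → ℂˣ))}.Finite := hF.subset fun y hy => hy.1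
  refine (hfin.union (h1.biUnion fun y hy => k9g6_two h hV hy.2)).subset ?_
  rintro X ⟨hX, hXF⟩
  by_cases hy : ∃ y0 ∈ F, ∀ x ∈ X, ∀ i, x (Sum.inr i) = y0 i
  · right
    obtain ⟨y0, hy0, hy⟩ := hy
    have h2 := (hF1 y0 hy0).2.2
    have h3 : rk ({y0} : Set (Fin m → ℂˣ)) ≠ 1 := fun h3 => hXF ⟨y0, ⟨hy0, h3⟩, hy⟩
    exact Set.mem_biUnion (x := y0) ⟨hy0, by omega⟩ ⟨hX, hy⟩
  · left
    exact ⟨hX, hy⟩

/-- PINK'S FORM, without any condition on `V`. -/
theorem pink_bundle (h : HC C) (hm : 2 ≤ m) {V : Set (Fin k ⊕ Fin m → ℂˣ)} (hV : Fam C V) (hr : rk V = 0) :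
    ∃ Z, ZClosed Z ∧ Z ⊆ V ∧ Z ≠ V ∧ ∀ X, Irr X → X ⊆ V → k + 1 ≤ cd X → X ⊆ Z := by
  classical
  obtain ⟨F, hF, hF1, hfin⟩ := fin_max h hm hV.irr.closed hV.sub
  have hcard := k9g6_card (k := k) (m := m)
  have hW : ZClosed {p : Fin k ⊕ Fin m → ℂˣ | (fun i => p (Sum.inr i)) ∈ F} := k8g4f_fin hF
  have hU : ZClosed (⋃ X ∈ hfin.toFinset, X) := ZClosed.finset_biUnion _ fun X hX =>
    (MaxE.irr ((Set.Finite.mem_toFinset hfin).1 hX).1).closed
  refine ⟨(⋃ X ∈ hfin.toFinset, X) ∪ (V ∩ {p : Fin k ⊕ Fin m → ℂˣ | (fun i => p (Sum.inr i)) ∈ F}),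
    hU.union (hV.irr.closed.inter hW), ?_, ?_, ?_⟩
  · refine Set.union_subset (Set.iUnion₂_subset fun X hX => ?_) Set.inter_subset_left
    exact MaxE.subset ((Set.Finite.mem_toFinset hfin).1 hX).1
  · intro h1
    rcases hV.irr.subset_or hU (hV.irr.closed.inter hW) h1.ge with h2 | h2
    · obtain ⟨X, hX, hVX⟩ := hV.irr.subset_of_finset hfin.toFinset (fun X hX =>
        (MaxE.irr ((Set.Finite.mem_toFinset hfin).1 hX).1).closed) h2
      have hX1 := ((Set.Finite.mem_toFinset hfin).1 hX).1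
      have h3 : X = V := Set.Subset.antisymm (MaxE.subset hX1) hVX
      have h4 := MaxE.lt hX1
      rw [h3] at h4
      have h5 : cd V = rk V + td ℂ V := rfl
      have h6 := hV.dim
      omega
    · obtain ⟨y, hy, hVy⟩ := k9g6_fin hF hV.irr fun p hp => (h2 hp).2
      have h3 := (hF1 y hy).2.2
      have h5 := rk_pull_le (X := V) (e := (Sum.inr : Fin m → Fin k ⊕ Fin m)) Sum.inr_injective
      have h6 : pull (Sum.inr : Fin m → Fin k ⊕ Fin m) '' V ⊆ {y} := by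
        rintro _ ⟨x, hx, rfl⟩
        exact hVy hx
      have h7 := rk_anti h6
      omega
  · intro X hX hXV hcd
    obtain ⟨Y, hY, hXY⟩ := exists_maxE (e := m) hX hXV (by omega)
    by_cases hy : ∃ y0 ∈ F, ∀ x ∈ Y, ∀ i, x (Sum.inr i) = y0 i
    · obtain ⟨y0, hy0, hy⟩ := hy
      refine hXY.trans (Set.Subset.trans ?_ Set.subset_union_right)
      intro x hx
      refine ⟨MaxE.subset hY hx, ?_⟩
      have h1 : (fun i => x (Sum.inr i)) = y0 := funext fun i => hy x hx i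
      show (fun i => x (Sum.inr i)) ∈ F
      rw [h1]
      exact hy0
    · refine hXY.trans (Set.Subset.trans ?_ Set.subset_union_left)
      exact Set.subset_biUnion_of_mem (u := fun X => X) ((Set.Finite.mem_toFinset hfin).2 ⟨hY, hy⟩)

/-- THE MAIN THEOREM. Let `C` be a curve as in `HC` and `V` an irreducible closed subvariety of dimension `k` of the product
of the torus of dimension `k` and `C` (complex coefficients). Then `V` has only finitely many maximal atypical subvarieties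
outside the fibres over finitely many algebraic points of `C` of rank one; and, if `V` is contained in no proper special
subvariety, the atypical subvarieties of `V` and the intersections of `V` with the special subvarieties of codimension
larger than the dimension of `V` are all contained in a proper closed subset of `V`. -/
theorem zp_bundle (h : HC C) (hm : 2 ≤ m) {V : Set (Fin k ⊕ Fin m → ℂˣ)} (hV : Fam C V) :
    dm V = (k : WithBot ℕ∞) ∧
    (∃ F : Set (Fin m → ℂˣ), F.Finite ∧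
      (∀ y ∈ F, y ∈ C ∧ (∀ i, IsAlgebraic ℚ (y i : ℂ)) ∧ rk ({y} : Set (Fin m → ℂˣ)) = 1) ∧
      {X | Maximal (Atypical V) X ∧ ¬ ∃ y0 ∈ F, ∀ x ∈ X, ∀ i, x (Sum.inr i) = y0 i}.Finite) ∧
    ((∀ T, Special T → V ⊆ T → T = Set.univ) → ∃ Z, ZClosed Z ∧ Z ⊆ V ∧ Z ≠ V ∧ (∀ X, Atypical V X → X ⊆ Z) ∧
      ∀ T, Special T → dm T < (m : WithBot ℕ∞) → V ∩ T ⊆ Z) := by
  have hcard := k9g6_card (k := k) (m := m)
  have hdm : dm V = ((k : ℕ) : WithBot ℕ∞) := by rw [dm_irr hV.irr, hV.dim]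
  refine ⟨hdm, ?_, ?_⟩
  · obtain ⟨F, hF, hF1, hfin⟩ := fin_irr h hm hV
    refine ⟨F, hF, hF1, ?_⟩
    refine hfin.subset ?_
    rintro X ⟨hX, hXF⟩
    refine ⟨?_, hXF⟩
    rw [maximal_atypical_iff hV.irr.closed hdm (by omega) X] at hX
    have h1 : Fintype.card (Fin k ⊕ Fin m) - k = m := by omega
    rwa [h1] at hX
  · intro hT
    have hr : rk V = 0 := by
      obtain ⟨T, hT1, hVT, hT2⟩ := exists_special hV.irr
      rw [hT T hT1 hVT] at hT2
      have h1 : td ℂ (Set.univ : Set (Fin k ⊕ Fin m → ℂˣ)) = Fintype.card (Fin k ⊕ Fin m) := by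
        have h2 := dm_univ (F := ℂ) (κ := Fin k ⊕ Fin m)
        rw [dm_irr irr_univ] at h2
        exact_mod_cast h2
      omega
    obtain ⟨Z, hZ, hZV, hne, hZX⟩ := pink_bundle h hm hV hr
    obtain ⟨-, h2, h3⟩ := Pool.Agent.Z8.pink_conv hV hZX
    exact ⟨Z, hZ, hZV, hne, h2, h3⟩

end Pool.Agent.Z9
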