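import Pool.Agent.Z9.Defs
import Pool.Agent.Z8.L1
import Pool.Agent.Z7.W1

namespace Pool.Agent.Z9

open Pool.Agent.ZL2 Filter Topology
open Pool.Agent.Z5 (fr Gen ev2 Alg d1_H d1_mk d1_ev d1_ev_mk d1_ext)
open Pool.Agent.Z6 (dt w6_L)
open Pool.Agent.Z7 (lg Cv HHp Chart)
open Pool.Agent.Z8 (sp evk rwk lev)

variable {t0 : ℂ} {ρ : ℝ} {k : ℕ}

/-- The function of an element of the ring of the holomorphic functions on the ball. -/
noncomputable def fnH (f : d1_H t0 ρ) (t : ℂ) : ℂ := by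
  classical
  exact if h : t ∈ Metric.ball t0 ρ then d1_ev ⟨t, h⟩ f else 0

/-- The element of the ring given by a function (zero if the function is not holomorphic on the ball). -/
noncomputable def mkH (t0 : ℂ) (ρ : ℝ) (f : ℂ → ℂ) : d1_H t0 ρ := by
  classical
  exact if h : DifferentiableOn ℂ f (Metric.ball t0 ρ) then d1_mk f h else 0

theorem fnH_of (f : d1_H t0 ρ) {t : ℂ} (ht : t ∈ Metric.ball t0 ρ) : fnH f t = d1_ev ⟨t, ht⟩ f := by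
  unfold fnH
  exact dif_pos ht

theorem fnH_mk {f : ℂ → ℂ} (h : DifferentiableOn ℂ f (Metric.ball t0 ρ)) {t : ℂ} (ht : t ∈ Metric.ball t0 ρ) :
    fnH (mkH t0 ρ f) t = f t := by
  rw [fnH_of _ ht]
  unfold mkH
  rw [dif_pos h]
  rfl

theorem fnH_diff (f : d1_H t0 ρ) : DifferentiableOn ℂ (fnH f) (Metric.ball t0 ρ) := by
  obtain ⟨g, hg, h⟩ := f.2
  refine hg.congr fun t ht => ?_
  rw [fnH_of _ ht]
  exact h ⟨t, ht⟩

theorem fnH_ext {f g : d1_H t0 ρ} (h : ∀ t ∈ Metric.ball t0 ρ, fnH f t = fnH g t) : f = g := by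
  refine d1_ext fun x => ?_
  have := h x x.2
  rwa [fnH_of _ x.2, fnH_of _ x.2] at this

theorem fnH_zero (t : ℂ) : fnH (0 : d1_H t0 ρ) t = 0 := by
  unfold fnH
  split_ifs
  · rw [map_zero]
  · rfl

theorem fnH_one {t : ℂ} (ht : t ∈ Metric.ball t0 ρ) : fnH (1 : d1_H t0 ρ) t = 1 := by
  rw [fnH_of _ ht, map_one]

theorem fnH_add (f g : d1_H t0 ρ) {t : ℂ} (ht : t ∈ Metric.ball t0 ρ) : fnH (f + g) t = fnH f t + fnH g t := by
  rw [fnH_of _ ht, fnH_of _ ht, fnH_of _ ht, map_add]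

theorem fnH_sub (f g : d1_H t0 ρ) {t : ℂ} (ht : t ∈ Metric.ball t0 ρ) : fnH (f - g) t = fnH f t - fnH g t := by
  rw [fnH_of _ ht, fnH_of _ ht, fnH_of _ ht, map_sub]

theorem fnH_mul (f g : d1_H t0 ρ) {t : ℂ} (ht : t ∈ Metric.ball t0 ρ) : fnH (f * g) t = fnH f t * fnH g t := by
  rw [fnH_of _ ht, fnH_of _ ht, fnH_of _ ht, map_mul]

theorem fnH_pow (f : d1_H t0 ρ) (n : ℕ) {t : ℂ} (ht : t ∈ Metric.ball t0 ρ) : fnH (f ^ n) t = fnH f t ^ n := by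
  rw [fnH_of _ ht, fnH_of _ ht, map_pow]

theorem fnH_nat (n : ℕ) {t : ℂ} (ht : t ∈ Metric.ball t0 ρ) : fnH (n : d1_H t0 ρ) t = n := by
  rw [fnH_of _ ht, map_natCast]

theorem fnH_sum {ι : Type*} (s : Finset ι) (f : ι → d1_H t0 ρ) {t : ℂ} (ht : t ∈ Metric.ball t0 ρ) :
    fnH (∑ i ∈ s, f i) t = ∑ i ∈ s, fnH (f i) t := by
  rw [fnH_of _ ht, map_sum]
  exact Finset.sum_congr rfl fun i _ => (fnH_of _ ht).symm

/-- The zeros are isolated. -/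
theorem fnH_ne {f : d1_H t0 ρ} (hf : f ≠ 0) {t1 : ℂ} (ht : t1 ∈ Metric.ball t0 ρ) :
    ∃ O ∈ 𝓝 t1, O ⊆ Metric.ball t0 ρ ∧ ∀ t ∈ O, t ≠ t1 → fnH f t ≠ 0 := by
  have han : AnalyticOnNhd ℂ (fnH f) (Metric.ball t0 ρ) := (fnH_diff f).analyticOnNhd Metric.isOpen_ball
  rcases (han t1 ht).eventually_eq_zero_or_eventually_ne_zero with h | h
  · exfalso
    apply hf
    refine fnH_ext fun t ht' => ?_
    rw [fnH_zero]
    exact han.eqOn_zero_of_preconnected_of_eventuallyEq_zero (convex_ball t0 ρ).isPreconnected ht h ht'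
  · rw [eventually_nhdsWithin_iff] at h
    refine ⟨{t | t ∈ ({t1}ᶜ : Set ℂ) → fnH f t ≠ 0} ∩ Metric.ball t0 ρ,
      Filter.inter_mem h (Metric.isOpen_ball.mem_nhds ht), Set.inter_subset_right, fun t h1 h2 => h1.1 h2⟩

/-- The derivative. -/
noncomputable def dH (f : d1_H t0 ρ) : d1_H t0 ρ := mkH t0 ρ (deriv (fnH f))

theorem fnH_dH (f : d1_H t0 ρ) {t : ℂ} (ht : t ∈ Metric.ball t0 ρ) : fnH (dH f) t = deriv (fnH f) t :=
  fnH_mk ((fnH_diff f).deriv Metric.isOpen_ball) ht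

theorem fnH_hd (f : d1_H t0 ρ) {t : ℂ} (ht : t ∈ Metric.ball t0 ρ) : HasDerivAt (fnH f) (deriv (fnH f) t) t :=
  ((fnH_diff f).differentiableAt (Metric.isOpen_ball.mem_nhds ht)).hasDerivAt

theorem dH_add (f g : d1_H t0 ρ) : dH (f + g) = dH f + dH g := by
  refine fnH_ext fun t ht => ?_
  rw [fnH_add _ _ ht, fnH_dH _ ht, fnH_dH _ ht, fnH_dH _ ht]
  have h1 : fnH (f + g) =ᶠ[𝓝 t] fun t => fnH f t + fnH g t :=
    Filter.eventually_of_mem (Metric.isOpen_ball.mem_nhds ht) fun s hs => fnH_add f g hs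
  rw [h1.deriv_eq]
  exact ((fnH_hd f ht).add (fnH_hd g ht)).deriv

theorem dH_mul (f g : d1_H t0 ρ) : dH (f * g) = dH f * g + f * dH g := by
  refine fnH_ext fun t ht => ?_
  rw [fnH_add _ _ ht, fnH_mul _ _ ht, fnH_mul _ _ ht, fnH_dH _ ht, fnH_dH _ ht, fnH_dH _ ht]
  have h1 : fnH (f * g) =ᶠ[𝓝 t] fun t => fnH f t * fnH g t :=
    Filter.eventually_of_mem (Metric.isOpen_ball.mem_nhds ht) fun s hs => fnH_mul f g hs
  rw [h1.deriv_eq]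
  exact ((fnH_hd f ht).mul (fnH_hd g ht)).deriv

theorem dH_zero : dH (0 : d1_H t0 ρ) = 0 := by
  have h := dH_add (0 : d1_H t0 ρ) 0
  rw [add_zero] at h
  simpa using h

/-- The value at `(x, t)` of a polynomial over the ring of the holomorphic functions. -/
noncomputable def evH (P : MvPolynomial (Fin k) (d1_H t0 ρ)) (x : Fin k → ℂ) (t : ℂ) : ℂ :=
  ∑ α ∈ P.support, fnH (P.coeff α) t * ∏ j, x j ^ α j

theorem evH_of (P : MvPolynomial (Fin k) (d1_H t0 ρ)) (x : Fin k → ℂ) {t : ℂ} (ht : t ∈ Metric.ball t0 ρ) :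
    evH P x t = MvPolynomial.eval₂ (d1_ev ⟨t, ht⟩) x P := by
  unfold evH
  rw [MvPolynomial.eval₂_eq']
  exact Finset.sum_congr rfl fun α _ => by rw [fnH_of _ ht]

theorem evH_add (P Q : MvPolynomial (Fin k) (d1_H t0 ρ)) (x : Fin k → ℂ) {t : ℂ} (ht : t ∈ Metric.ball t0 ρ) :
    evH (P + Q) x t = evH P x t + evH Q x t := by
  rw [evH_of _ _ ht, evH_of _ _ ht, evH_of _ _ ht, MvPolynomial.eval₂_add]

theorem evH_mul (P Q : MvPolynomial (Fin k) (d1_H t0 ρ)) (x : Fin k → ℂ) {t : ℂ} (ht : t ∈ Metric.ball t0 ρ) :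
    evH (P * Q) x t = evH P x t * evH Q x t := by
  rw [evH_of _ _ ht, evH_of _ _ ht, evH_of _ _ ht, MvPolynomial.eval₂_mul]

theorem evH_C (f : d1_H t0 ρ) (x : Fin k → ℂ) {t : ℂ} (ht : t ∈ Metric.ball t0 ρ) :
    evH (MvPolynomial.C f : MvPolynomial (Fin k) (d1_H t0 ρ)) x t = fnH f t := by
  rw [evH_of _ _ ht, MvPolynomial.eval₂_C, fnH_of _ ht]

theorem evH_monomial (α : Fin k →₀ ℕ) (f : d1_H t0 ρ) (x : Fin k → ℂ) {t : ℂ} (ht : t ∈ Metric.ball t0 ρ) :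
    evH (MvPolynomial.monomial α f) x t = fnH f t * ∏ j, x j ^ α j := by
  rw [evH_of _ _ ht, MvPolynomial.eval₂_monomial, fnH_of _ ht, Finsupp.prod_fintype]
  intro i
  exact pow_zero _

theorem evH_sum {ι : Type*} (s : Finset ι) (P : ι → MvPolynomial (Fin k) (d1_H t0 ρ)) (x : Fin k → ℂ) {t : ℂ}
    (ht : t ∈ Metric.ball t0 ρ) : evH (∑ i ∈ s, P i) x t = ∑ i ∈ s, evH (P i) x t := by
  rw [evH_of _ _ ht, MvPolynomial.eval₂_sum]
  exact Finset.sum_congr rfl fun i _ => (evH_of _ _ ht).symm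

theorem evH_prod {ι : Type*} (s : Finset ι) (P : ι → MvPolynomial (Fin k) (d1_H t0 ρ)) (x : Fin k → ℂ) {t : ℂ}
    (ht : t ∈ Metric.ball t0 ρ) : evH (∏ i ∈ s, P i) x t = ∏ i ∈ s, evH (P i) x t := by
  rw [evH_of _ _ ht, MvPolynomial.eval₂_prod]
  exact Finset.prod_congr rfl fun i _ => (evH_of _ _ ht).symm

/-- The vector field `A ∂_t + ∑_j B_j x_j ∂_j` on the polynomials. -/
noncomputable def xi (A : d1_H t0 ρ) (B : Fin k → d1_H t0 ρ) (P : MvPolynomial (Fin k) (d1_H t0 ρ)) :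
    MvPolynomial (Fin k) (d1_H t0 ρ) :=
  ∑ α ∈ P.support, MvPolynomial.monomial α (A * dH (P.coeff α) + (∑ j, (α j : d1_H t0 ρ) * B j) * P.coeff α)

theorem xi_coeff (A : d1_H t0 ρ) (B : Fin k → d1_H t0 ρ) (P : MvPolynomial (Fin k) (d1_H t0 ρ)) (α : Fin k →₀ ℕ) :
    (xi A B P).coeff α = A * dH (P.coeff α) + (∑ j, (α j : d1_H t0 ρ) * B j) * P.coeff α := by
  classical
  unfold xi
  rw [MvPolynomial.coeff_sum]
  simp only [MvPolynomial.coeff_monomial]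
  rw [Finset.sum_ite_eq']
  split_ifs with h
  · rfl
  · rw [MvPolynomial.notMem_support_iff.1 h, dH_zero, mul_zero, mul_zero, add_zero]

/-- Divisibility of polynomials over the field of fractions of the ring of the holomorphic functions. -/
def DvM (P Q : MvPolynomial (Fin k) (d1_H t0 ρ)) : Prop :=
  ∃ (h : d1_H t0 ρ) (W : MvPolynomial (Fin k) (d1_H t0 ρ)), h ≠ 0 ∧ MvPolynomial.C h * Q = P * W

/-- Prime polynomials over the field of fractions of the ring of the holomorphic functions. -/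
def PrM (P : MvPolynomial (Fin k) (d1_H t0 ρ)) : Prop :=
  P ≠ 0 ∧ ¬ DvM P 1 ∧ ∀ Q1 Q2, DvM P (Q1 * Q2) → DvM P Q1 ∨ DvM P Q2

variable {m : ℕ} [NeZero m]

/-- The coefficients of `Φ` on the chart. -/
noncomputable def aF (S : Sk k m) (η : Fin m → ℂ → ℂ) (α : Fin k →₀ ℕ) (t : ℂ) : ℂ :=
  MvPolynomial.eval (fun i => η i t) (S.Φ.coeff α)

/-- The continuation of `w · log |y|`. -/
noncomputable def lF (w : Fin m → ℝ) (ℓ : Fin m → ℂ → ℂ) (χ : ℂ → ℂ) (t : ℂ) : ℂ :=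
  ∑ i, (w i : ℂ) * w6_L ℓ χ i t

/-- `w · η' / η`. -/
noncomputable def dF (w : Fin m → ℝ) (η : Fin m → ℂ → ℂ) (t : ℂ) : ℂ :=
  ∑ i, (w i : ℂ) * (deriv (η i) t / η i t)

/-- The coefficients of the reflected polynomial. -/
noncomputable def nF (S : Sk k m) (M' : Fin k → Fin m → ℝ) (η ℓ : Fin m → ℂ → ℂ) (χ : ℂ → ℂ) (α : Fin k →₀ ℕ)
    (t : ℂ) : ℂ :=
  (starRingEnd ℂ) (aF S η α ((starRingEnd ℂ) (χ t))) * ∏ j, Complex.exp (2 * lF (M' j) ℓ χ t) ^ α j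

/-- The coefficient `B_j` of the vector field. -/
noncomputable def bF (u' u1 : Fin m → ℝ) (M' M1 : Fin k → Fin m → ℝ) (η ℓ : Fin m → ℂ → ℂ) (χ : ℂ → ℂ) (j : Fin k)
    (t : ℂ) : ℂ :=
  dF (M' j) η t * lF u1 ℓ χ t - lF (M1 j) ℓ χ t * dF u' η t

/-- The local data at a point of the curve: a chart and the reflection `t ↦ conj (χ t)` in the level curve of `u'`. -/
structure Loc (S : Sk k m) (u' : Fin m → ℝ) (y1 : Fin m → ℂ) (ρ0 ρ : ℝ) (η ℓ : Fin m → ℂ → ℂ) (χ : ℂ → ℂ) : Prop where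
  ch : Chart S.toCv y1 ρ0 η ℓ
  pos : 0 < ρ
  le : ρ ≤ ρ0
  mem : y1 ∈ S.C
  nE : y1 ∉ S.E
  rel : dt u' (lg y1) = 0
  cr : ∀ t ∈ Metric.ball (y1 0) ρ0, dF u' η t ≠ 0
  χd : DifferentiableOn ℂ χ (Metric.ball (y1 0) ρ)
  χb : ∀ t ∈ Metric.ball (y1 0) ρ, (starRingEnd ℂ) (χ t) ∈ Metric.ball (y1 0) ρ0
  χr : ∀ t ∈ Metric.ball (y1 0) ρ, dt u' (lg fun i => η i t) = 0 → (starRingEnd ℂ) (χ t) = t
  χf : ∀ t ∈ Metric.ball (y1 0) ρ, ∑ i, (u' i : ℂ) * (ℓ i t + (starRingEnd ℂ) (ℓ i ((starRingEnd ℂ) (χ t)))) = 0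
  acc : ∀ O ∈ 𝓝 y1, ∃ y ∈ O, y ∈ S.C ∧ y 0 ≠ y1 0 ∧ dt u' (lg y) = 0

/-- The polynomial `Φ` on the chart. -/
noncomputable def PhiH (S : Sk k m) (t0 : ℂ) (ρ : ℝ) (η : Fin m → ℂ → ℂ) : MvPolynomial (Fin k) (d1_H t0 ρ) :=
  ∑ α ∈ S.Φ.support, MvPolynomial.monomial α (mkH t0 ρ (aF S η α))

/-- The reflected polynomial. -/
noncomputable def NH (S : Sk k m) (t0 : ℂ) (ρ : ℝ) (M' : Fin k → Fin m → ℝ) (η ℓ : Fin m → ℂ → ℂ) (χ : ℂ → ℂ) :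
    MvPolynomial (Fin k) (d1_H t0 ρ) :=
  ∑ α ∈ S.Φ.support, MvPolynomial.monomial (S.Φ.support.sup id - α) (mkH t0 ρ (nF S M' η ℓ χ α))

/-- The derivative of `Φ` along the vector field. -/
noncomputable def XH (S : Sk k m) (t0 : ℂ) (ρ : ℝ) (u' u1 : Fin m → ℝ) (M' M1 : Fin k → Fin m → ℝ)
    (η ℓ : Fin m → ℂ → ℂ) (χ : ℂ → ℂ) : MvPolynomial (Fin k) (d1_H t0 ρ) :=
  xi (mkH t0 ρ (lF u1 ℓ χ)) (fun j => mkH t0 ρ (bF u' u1 M' M1 η ℓ χ j)) (PhiH S t0 ρ η)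

/-- The blow-up of the sequence of the relations at its limit. -/
structure Blow {S : Sk k m} {U : Ultrafilter ℕ} (Z : Sq S U) (u' u1 : Fin m → ℝ) (M' M1 : Fin k → Fin m → ℝ)
    (ε : ℕ → ℝ) : Prop where
  hu : Tendsto Z.u (U : Filter ℕ) (𝓝 u')
  hM : Tendsto Z.M (U : Filter ℕ) (𝓝 M')
  pos : ∀ᶠ n in (U : Filter ℕ), 0 < ε n
  zero : Tendsto ε (U : Filter ℕ) (𝓝 0)
  h1 : Tendsto (fun n => (ε n)⁻¹ • (Z.u n - u')) (U : Filter ℕ) (𝓝 u1)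
  h2 : Tendsto (fun n => (ε n)⁻¹ • (Z.M n - M')) (U : Filter ℕ) (𝓝 M1)
  ne : ¬ (u1 = 0 ∧ M1 = 0)

end Pool.Agent.Z9
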