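import Pool.Agent.Z9.EX

open MvPolynomial Pool.Agent.MP_dd1803_nt Pool.Agent.ZPA Pool.Agent.ZL2

namespace Pool.Agent.Z9

open Filter Topology
open Pool.Agent.Z7 (HC)

/-- Two independent real relations between the `log |y_i|` hold together at finitely many points of `C` only. -/
def Indep {m : ℕ} (C : Set (Fin m → ℂˣ)) : Prop :=
  ∀ u v : Fin m → ℝ, LinearIndependent ℝ ![u, v] →
    {y : Fin m → ℂˣ | y ∈ C ∧ ∑ i, u i * Real.log ‖(y i : ℂ)‖ = 0 ∧ ∑ i, v i * Real.log ‖(y i : ℂ)‖ = 0}.Finite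

theorem ind_log {m : ℕ} (y : Fin m → ℂˣ) (n : Fin m → ℤ) :
    Real.log ‖((ch n y : ℂˣ) : ℂ)‖ = ∑ i, (n i : ℝ) * Real.log ‖(y i : ℂ)‖ := by
  rw [← Pool.Agent.Z7.g0_ch, norm_prod, Real.log_prod]
  · refine Finset.sum_congr rfl fun i _ => ?_
    rw [norm_zpow, Real.log_zpow]
    rfl
  · intro i _
    rw [norm_ne_zero_iff]
    exact zpow_ne_zero _ (y i).ne_zero

theorem ind_sum {m : ℕ} (x : Fin 3 → ℝ) (N : Fin 3 → Fin m → ℝ) (w : Fin m → ℝ) :
    ∑ i, (∑ k, x k • N k) i * w i = ∑ k, x k * ∑ i, N k i * w i := by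
  simp only [Finset.sum_apply, Pi.smul_apply, smul_eq_mul, Finset.sum_mul, Finset.mul_sum]
  rw [Finset.sum_comm]
  exact Finset.sum_congr rfl fun k _ => Finset.sum_congr rfl fun i _ => by ring

/-- The conditions `hh2` and `hh3` follow from the real condition. -/
theorem hc_of_indep {m : ℕ} {C : Set (Fin m → ℂˣ)} (h1 : Irr C) (h2 : td ℂ C = 1) (h3 : cl (acl (∅ : Set ℂ)) C = C)
    (h4 : ∀ v : Fin m → ℤ, v ≠ 0 → ∀ z : ℂˣ, ¬ ∀ y ∈ C, ch v y = z) (hI : Indep C) : HC C := by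
  refine ⟨h1, h2, h3, h4, ?_, ?_⟩
  · intro n n' hn
    have h1 : LinearIndependent ℝ ![fun i => (n i : ℝ), fun i => (n' i : ℝ)] := by
      have h2 := k9ex_real hn
      have h3 : (fun k i => ((![n, n'] : Fin 2 → Fin m → ℤ) k i : ℝ)) =
          ![fun i => (n i : ℝ), fun i => (n' i : ℝ)] := by
        funext k
        match k with
        | 0 => rfl
        | 1 => rfl
      rw [← h3]
      exact h2
    refine (hI _ _ h1).subset ?_
    rintro y ⟨hy, h2, h3⟩
    refine ⟨hy, ?_, ?_⟩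
    · rw [← ind_log, h2, Real.log_one]
    · rw [← ind_log, h3, Real.log_one]
  · intro n hn r
    obtain ⟨x, x', hx, h1, h2⟩ := k9ex_two fun k => Real.log (r k)
    have hN := k9ex_real hn
    have hinj : Function.Injective (Fintype.linearCombination ℝ (fun k i => (n k i : ℝ) : Fin 3 → Fin m → ℝ)) :=
      hN.fintypeLinearCombination_injective
    have h3 := hx.map' (Fintype.linearCombination ℝ (fun k i => (n k i : ℝ) : Fin 3 → Fin m → ℝ))
      (LinearMap.ker_eq_bot.2 hinj)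
    have h4 : (Fintype.linearCombination ℝ (fun k i => (n k i : ℝ) : Fin 3 → Fin m → ℝ)) ∘ ![x, x'] =
        ![∑ k, x k • (fun i => (n k i : ℝ) : Fin m → ℝ), ∑ k, x' k • (fun i => (n k i : ℝ) : Fin m → ℝ)] := by
      funext k
      match k with
      | 0 => exact Fintype.linearCombination_apply ℝ _ _
      | 1 => exact Fintype.linearCombination_apply ℝ _ _
    rw [h4] at h3
    refine (hI _ _ h3).subset ?_
    rintro y ⟨hy, h5⟩
    have h6 : ∀ k, ∑ i, (n k i : ℝ) * Real.log ‖(y i : ℂ)‖ = Real.log (r k) := fun k => by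
      rw [← ind_log, h5 k]
    refine ⟨hy, ?_, ?_⟩
    · rw [ind_sum, ← h1]
      exact Finset.sum_congr rfl fun k _ => by rw [h6]
    · rw [ind_sum, ← h2]
      exact Finset.sum_congr rfl fun k _ => by rw [h6]

end Pool.Agent.Z9
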