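import Pool.Agent.Z9.G6

open MvPolynomial Pool.Agent.MP_dd1803_nt Pool.Agent.ZPA Pool.Agent.ZL2

namespace Pool.Agent.Z9

open Filter Topology
open Pool.Agent.Z7 (HC Cv HHp Rat)
open Pool.Agent.Z8 (Fam xs ys Cyl rk_le_y tors_pt)

variable {k m : ℕ} [NeZero m] {C : Set (Fin m → ℂˣ)}

/-- Laurent's theorem (Mordell-Lang for the torus of dimension `k`): the points of a closed `W` with coordinates in the
division hull of a finitely generated group `Γ` lie on finitely many translates of subtori contained in `W`. -/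
def Laurent (k : ℕ) : Prop :=
  ∀ (W : Set (Fin k → ℂˣ)) (Γ : Subgroup ℂˣ), ZClosed W → Γ.FG → ∃ S : Set (Set (Fin k → ℂˣ)), S.Finite ∧
    (∀ Y ∈ S, Y ⊆ W ∧ ∃ q ∈ Y, (∀ j, ∃ N : ℕ, 0 < N ∧ q j ^ N ∈ Γ) ∧ Special {x : Fin k → ℂˣ | q * x ∈ Y}) ∧
    ∀ x ∈ W, (∀ j, ∃ N : ℕ, 0 < N ∧ x j ^ N ∈ Γ) → ∃ Y ∈ S, x ∈ Y

/-- A submodule of full rank contains a multiple of every vector. -/
theorem k9laa_fin {R : Submodule ℤ (Fin k → ℤ)} (h : k ≤ Module.finrank ℤ R) (v : Fin k → ℤ) :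
    ∃ a : ℤ, a ≠ 0 ∧ a • v ∈ R := by
  have h1 := R.finrank_quotient_add_finrank
  rw [Module.finrank_fin_fun] at h1
  have h2 : Module.finrank ℤ ((Fin k → ℤ) ⧸ R) = 0 := by omega
  rw [Module.finrank_eq_zero_iff] at h2
  obtain ⟨a, ha, h3⟩ := h2 (R.mkQ v)
  refine ⟨a, ha, ?_⟩
  rw [← map_smul] at h3
  exact (Submodule.Quotient.mk_eq_zero R).1 h3

/-- Row Z9-LAa. If `rk {p} ≥ k + 1` and `rk {y(p)} ≤ 1` then the coordinates `x_j` are in the division hull of the group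
generated by the `y_i`. PROOF. The projection `π : Lam {p} → (Fin k → ℤ)` to the `x`-part has kernel of rank `≤ rk {y(p)} ≤ 1`
(see `rk_le_y`, Z8), so its range has finite index in `ℤ^k` (rank `k`): for each `j` there is `a ≠ 0` with `a e_j` in the range:
`(x_j ^ a * ∏ y_i ^ b_i) ^ N = 1`. -/
theorem div_of {p : Fin k ⊕ Fin m → ℂˣ} (hp : k + 1 ≤ rk ({p} : Set (Fin k ⊕ Fin m → ℂˣ)))
    (hy : rk ({fun i => p (Sum.inr i)} : Set (Fin m → ℂˣ)) ≤ 1) (j : Fin k) :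
    ∃ N : ℕ, 0 < N ∧ p (Sum.inl j) ^ N ∈ Subgroup.closure (Set.range fun i => p (Sum.inr i)) := by
  classical
  set y : Fin m → ℂˣ := fun i => p (Sum.inr i) with hyd
  let f : Lam ({p} : Set (Fin k ⊕ Fin m → ℂˣ)) →ₗ[ℤ] (Fin k → ℤ) :=
    (LinearMap.funLeft ℤ ℤ (Sum.inl : Fin k → Fin k ⊕ Fin m)).comp (Lam ({p} : Set (Fin k ⊕ Fin m → ℂˣ))).subtype
  have h1 := (LinearMap.ker f).finrank_quotient_add_finrank
  rw [f.quotKerEquivRange.finrank_eq] at h1
  let g0 : LinearMap.ker f →ₗ[ℤ] (Fin m → ℤ) :=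
    (LinearMap.funLeft ℤ ℤ (Sum.inr : Fin m → Fin k ⊕ Fin m)).comp
      ((Lam ({p} : Set (Fin k ⊕ Fin m → ℂˣ))).subtype.comp (LinearMap.ker f).subtype)
  have hg0 : ∀ v : LinearMap.ker f, g0 v ∈ Lam ({y} : Set (Fin m → ℂˣ)) := by
    rintro ⟨⟨v, N, hN, hv⟩, hk⟩
    refine ⟨N, hN, fun x hx => ?_⟩
    rw [Set.mem_singleton_iff.1 hx]
    have h3 := hv p rfl
    have h4 : ∀ j, v (Sum.inl j) = 0 := fun j => congrFun (LinearMap.mem_ker.1 hk) j
    have h5 : ch v p = ch (fun i => v (Sum.inr i)) y := by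
      unfold ch
      rw [Fintype.prod_sum_type]
      have h6 : ∏ j, p (Sum.inl j) ^ v (Sum.inl j) = 1 := Finset.prod_eq_one fun j _ => by
        rw [h4 j, zpow_zero]
      rw [h6, one_mul]
    rw [h5] at h3
    exact h3
  let g : LinearMap.ker f →ₗ[ℤ] Lam ({y} : Set (Fin m → ℂˣ)) := g0.codRestrict _ hg0
  have hg : Function.Injective g := by
    rw [injective_iff_map_eq_zero]
    rintro ⟨⟨v, hv⟩, hk⟩ hz
    have h4 : ∀ j, v (Sum.inl j) = 0 := fun j => congrFun (LinearMap.mem_ker.1 hk) j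
    have h5 : ∀ i, v (Sum.inr i) = 0 := fun i => congrFun (congrArg Subtype.val hz) i
    apply Subtype.ext
    apply Subtype.ext
    funext l
    rcases l with j | i
    · exact h4 j
    · exact h5 i
  have h3 := LinearMap.finrank_le_finrank_of_injective hg
  have h4 : k ≤ Module.finrank ℤ (LinearMap.range f) := by
    have h5 : Module.finrank ℤ (Lam ({p} : Set (Fin k ⊕ Fin m → ℂˣ))) = rk ({p} : Set (Fin k ⊕ Fin m → ℂˣ)) := rfl
    have h6 : Module.finrank ℤ (Lam ({y} : Set (Fin m → ℂˣ))) = rk ({y} : Set (Fin m → ℂˣ)) := rfl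
    omega
  obtain ⟨a, ha, ⟨⟨v, N, hN, hv⟩, hav⟩⟩ := k9laa_fin h4 (Pi.single j 1)
  have hv1 : ∀ i, v (Sum.inl i) = (a • (Pi.single j 1 : Fin k → ℤ)) i := fun i => congrFun hav i
  have hv2 := hv p rfl
  have h7 : ch v p = p (Sum.inl j) ^ a * ∏ i, p (Sum.inr i) ^ v (Sum.inr i) := by
    unfold ch
    rw [Fintype.prod_sum_type]
    congr 1
    rw [Finset.prod_eq_single j]
    · rw [hv1, Pi.smul_apply, Pi.single_eq_same, smul_eq_mul, mul_one]
    · intro i _ hi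
      rw [hv1, Pi.smul_apply, Pi.single_eq_of_ne hi, smul_zero, zpow_zero]
    · intro h
      exact absurd (Finset.mem_univ j) h
  have hmem : (∏ i, p (Sum.inr i) ^ v (Sum.inr i)) ∈ Subgroup.closure (Set.range fun i => p (Sum.inr i)) :=
    Subgroup.prod_mem _ fun i _ => Subgroup.zpow_mem _ (Subgroup.subset_closure (Set.mem_range_self (f := fun i => p (Sum.inr i)) i)) _
  rw [h7, mul_pow, mul_eq_one_iff_eq_inv, ← zpow_natCast, ← zpow_mul] at hv2
  have h8 : p (Sum.inl j) ^ (a * N) ∈ Subgroup.closure (Set.range fun i => p (Sum.inr i)) := by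
    rw [hv2]
    exact Subgroup.inv_mem _ (Subgroup.pow_mem _ hmem _)
  refine ⟨a.natAbs * N, Nat.mul_pos (Int.natAbs_pos.2 ha) hN, ?_⟩
  rcases Int.natAbs_eq a with h9 | h9
  · rw [h9] at h8
    rw [← zpow_natCast, Nat.cast_mul]
    exact h8
  · rw [h9, neg_mul, zpow_neg] at h8
    rw [← zpow_natCast, Nat.cast_mul]
    exact (Subgroup.inv_mem_iff _).1 h8

/-- A lattice every element of which has a multiple in `R` has at most the rank of `R`. -/
theorem k9lab_rank {A R : Submodule ℤ (Fin k → ℤ)} (h : ∀ a ∈ A, ∃ N : ℤ, N ≠ 0 ∧ N • a ∈ R) :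
    Module.finrank ℤ A ≤ Module.finrank ℤ R := by
  classical
  obtain ⟨s, hs⟩ := (inferInstance : IsNoetherian ℤ (Fin k → ℤ)).noetherian A
  choose! N hN hNR using h
  have hsA : ∀ a ∈ s, a ∈ A := fun a ha => hs ▸ Submodule.subset_span ha
  have hP0 : ∏ a ∈ s, N a ≠ 0 := Finset.prod_ne_zero_iff.2 fun a ha => hN a (hsA a ha)
  have hmem : ∀ a ∈ A, (∏ a ∈ s, N a) • a ∈ R := by
    intro a ha
    rw [← hs] at ha
    induction ha using Submodule.span_induction with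
    | mem a ha =>
      rw [← Finset.prod_erase_mul s N ha, mul_smul]
      exact R.smul_mem _ (hNR a (hsA a ha))
    | zero => rw [smul_zero]; exact R.zero_mem
    | add a b _ _ h1 h2 => rw [smul_add]; exact R.add_mem h1 h2
    | smul c a _ h1 => rw [smul_comm]; exact R.smul_mem _ h1
  let f : A →ₗ[ℤ] R := (((∏ a ∈ s, N a) • (LinearMap.id : (Fin k → ℤ) →ₗ[ℤ] (Fin k → ℤ))).comp A.subtype).codRestrict R
    (fun a => hmem a.1 a.2)
  refine LinearMap.finrank_le_finrank_of_injective (f := f) ?_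
  rw [injective_iff_map_eq_zero]
  intro a ha
  have h1 : (∏ a ∈ s, N a) • (a : Fin k → ℤ) = 0 := congrArg Subtype.val ha
  exact Subtype.ext ((smul_eq_zero.1 h1).resolve_left hP0)

/-- The elements of the group generated by the coordinates of `y` are the values of characters. -/
theorem k9lab_closure (y : Fin m → ℂˣ) {z : ℂˣ} (hz : z ∈ Subgroup.closure (Set.range y)) : ∃ b : Fin m → ℤ, ch b y = z := by
  classical
  induction hz using Subgroup.closure_induction with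
  | mem x hx =>
    obtain ⟨i, rfl⟩ := hx
    exact ⟨Pi.single i 1, by rw [ch_single, zpow_one]⟩
  | one => exact ⟨0, ch_zero y⟩
  | mul a b _ _ h1 h2 =>
    obtain ⟨c, hc⟩ := h1
    obtain ⟨d, hd⟩ := h2
    exact ⟨c + d, by rw [ch_add, hc, hd]⟩
  | inv a _ h1 =>
    obtain ⟨c, hc⟩ := h1
    exact ⟨-c, by rw [ch_neg, hc]⟩

/-- Values of characters at a point of the division hull. -/
theorem k9lab_div {Γ : Subgroup ℂˣ} {q : Fin k → ℂˣ} (hq : ∀ j, ∃ N : ℕ, 0 < N ∧ q j ^ N ∈ Γ) (a : Fin k → ℤ) :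
    ∃ N : ℕ, 0 < N ∧ ch a q ^ N ∈ Γ := by
  choose N hN hNΓ using hq
  refine ⟨∏ j, N j, Finset.prod_pos fun j _ => hN j, ?_⟩
  unfold ch
  rw [← Finset.prod_pow]
  refine Subgroup.prod_mem _ fun j _ => ?_
  rw [← zpow_natCast, ← zpow_mul, mul_comm, zpow_mul, zpow_natCast]
  refine Subgroup.zpow_mem _ ?_ _
  obtain ⟨c, hc⟩ := Finset.dvd_prod_of_mem N (Finset.mem_univ j)
  rw [hc, pow_mul]
  exact Subgroup.pow_mem _ (hNΓ j) _

/-- Row Z9-LAb. The translate `Y × {y0}` has `k + 1 ≤ cd`. PROOF. `Y' = {x | q * x ∈ Y}` is special; the map `x ↦ q * x`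
is a homeomorphism of the torus, so `Irr Y`, `td Y = td Y'`, and `rk Y' + td Y' = k` (`Special.cd`). `Y × {y0}` is irreducible
(it is the image of `Y` under the closed embedding `x ↦ Sum.elim x y0`; compare the irreducibility of the fibres, `k8g4d_fib`,
`k8g4f_fibre` in Z8/G4.lean, `pull`) with the same `td`. RANK: `a ∈ Lam Y'`: `ch a x ^ N` is constant on `Y`, equal to
`ch a q ^ N`, and `ch a q` is in the division hull of `Γ`: so `(N' a, b) ∈ Lam (Y × {y0})` for some `N' > 0`, `b`. The kernel of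
the projection of `Lam (Y × {y0})` to the `x`-part is `Lam {y0}` of rank `≥ 1`. So `rk (Y × {y0}) ≥ rk Y' + 1`. -/
theorem coset_cd {Y : Set (Fin k → ℂˣ)} {y0 : Fin m → ℂˣ} {q : Fin k → ℂˣ} (hq : q ∈ Y)
    (hqΓ : ∀ j, ∃ N : ℕ, 0 < N ∧ q j ^ N ∈ Subgroup.closure (Set.range y0)) (hY : Special {x : Fin k → ℂˣ | q * x ∈ Y})
    (hrk : 1 ≤ rk ({y0} : Set (Fin m → ℂˣ))) :
    Irr {x : Fin k ⊕ Fin m → ℂˣ | (fun j => x (Sum.inl j)) ∈ Y ∧ (fun i => x (Sum.inr i)) = y0} ∧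
      k + 1 ≤ cd {x : Fin k ⊕ Fin m → ℂˣ | (fun j => x (Sum.inl j)) ∈ Y ∧ (fun i => x (Sum.inr i)) = y0} := by
  classical
  set T : Set (Fin k → ℂˣ) := {x : Fin k → ℂˣ | q * x ∈ Y} with hT
  have hTr : MP_dd1803_nt.Tr.tr q '' T = Y := by
    ext z
    constructor
    · rintro ⟨x, hx, rfl⟩
      exact hx
    · intro hz
      refine ⟨q⁻¹ * z, ?_, ?_⟩
      · show q * (q⁻¹ * z) ∈ Y
        rwa [mul_inv_cancel_left]
      · show q * (q⁻¹ * z) = z
        rw [mul_inv_cancel_left]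
  have hYi : Irr Y := by
    rw [← hTr]
    exact MP_dd1803_nt.Tr.irr_image_tr q hY.irr
  have htd : td ℂ Y = td ℂ T := by
    have h1 := MP_dd1803_nt.Tr.dm_image_tr q T
    rw [hTr, dm_irr hYi, dm_irr hY.irr] at h1
    exact_mod_cast h1
  have hset : {x : Fin k ⊕ Fin m → ℂˣ | (fun j => x (Sum.inl j)) ∈ Y ∧ (fun i => x (Sum.inr i)) = y0} =
      prodSet Y ({y0} : Set (Fin m → ℂˣ)) := rfl
  rw [hset]
  have hirr : Irr (prodSet Y ({y0} : Set (Fin m → ℂˣ))) := hYi.prodSet (irr_singleton y0)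
  refine ⟨hirr, ?_⟩
  have htd2 : td ℂ Y + 0 ≤ td ℂ (prodSet Y ({y0} : Set (Fin m → ℂˣ))) := by
    have h1 := td_prod_ge (k := ℂ) hYi.pirr (irr_singleton y0).pirr
    rwa [td_singleton_zero] at h1
  have hcd : rk T + td ℂ T = k := by
    have h1 := hY.cd
    rw [Fintype.card_fin] at h1
    exact h1
  have hrk2 : rk T + 1 ≤ rk (prodSet Y ({y0} : Set (Fin m → ℂˣ))) := by
    let f : Lam (prodSet Y ({y0} : Set (Fin m → ℂˣ))) →ₗ[ℤ] (Fin k → ℤ) :=
      (LinearMap.funLeft ℤ ℤ (Sum.inl : Fin k → Fin k ⊕ Fin m)).comp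
        (Lam (prodSet Y ({y0} : Set (Fin m → ℂˣ)))).subtype
    have h1 := (LinearMap.ker f).finrank_quotient_add_finrank
    rw [f.quotKerEquivRange.finrank_eq] at h1
    have h2 : rk T ≤ Module.finrank ℤ (LinearMap.range f) := by
      refine k9lab_rank fun a ha => ?_
      obtain ⟨N1, hN1, h3⟩ := ha
      obtain ⟨N2, hN2, h4⟩ := k9lab_div hqΓ a
      obtain ⟨b, hb⟩ := k9lab_closure y0 h4
      refine ⟨(N2 : ℤ), by exact_mod_cast hN2.ne', ⟨⟨Sum.elim ((N2 : ℤ) • a) (-b), N1, hN1, ?_⟩, ?_⟩⟩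
      · intro z hz
        have hz1 : (z ∘ Sum.inl : Fin k → ℂˣ) ∈ Y := hz.1
        have hz2 : (z ∘ Sum.inr : Fin m → ℂˣ) = y0 := hz.2
        rw [ch_sum, Sum.elim_comp_inl, Sum.elim_comp_inr, hz2, ch_neg, hb, ch_zsmul, zpow_natCast]
        have h5 := h3 (q⁻¹ * (z ∘ Sum.inl)) (by
          show q * (q⁻¹ * (z ∘ Sum.inl)) ∈ Y
          rwa [mul_inv_cancel_left])
        have h6 : ch a (z ∘ Sum.inl) = ch a q * ch a (q⁻¹ * (z ∘ Sum.inl)) := by
          rw [← ch_mul, mul_inv_cancel_left]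
        rw [h6, mul_pow (ch a q), mul_comm (ch a q ^ N2), mul_inv_cancel_right, ← pow_mul, mul_comm N2, pow_mul, h5, one_pow]
      · funext j
        rfl
    have h3 : rk ({y0} : Set (Fin m → ℂˣ)) ≤ Module.finrank ℤ (LinearMap.ker f) := by
      let g1 : Lam ({y0} : Set (Fin m → ℂˣ)) →ₗ[ℤ] Lam (prodSet Y ({y0} : Set (Fin m → ℂˣ))) :=
        ((inrM : (Fin m → ℤ) →ₗ[ℤ] (Fin k ⊕ Fin m → ℤ)).comp (Lam ({y0} : Set (Fin m → ℂˣ))).subtype).codRestrict _
          (by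
            rintro ⟨b, N, hN, hb⟩
            refine ⟨N, hN, fun z hz => ?_⟩
            have hz2 : (z ∘ Sum.inr : Fin m → ℂˣ) = y0 := hz.2
            show ch (inrM b) z ^ N = 1
            rw [ch_inrM, hz2]
            exact hb y0 rfl)
      let g2 : Lam ({y0} : Set (Fin m → ℂˣ)) →ₗ[ℤ] LinearMap.ker f := g1.codRestrict _ (by
        intro b
        rw [LinearMap.mem_ker]
        funext j
        rfl)
      refine LinearMap.finrank_le_finrank_of_injective (f := g2) ?_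
      rw [injective_iff_map_eq_zero]
      intro b hb
      have h4 : (inrM (b : Fin m → ℤ) : Fin k ⊕ Fin m → ℤ) = 0 := congrArg (fun z => ((z : LinearMap.ker f) : Lam (prodSet Y ({y0} : Set (Fin m → ℂˣ)))).1) hb
      apply Subtype.ext
      funext i
      exact congrFun h4 (Sum.inr i)
    have h5 : rk (prodSet Y ({y0} : Set (Fin m → ℂˣ))) =
        Module.finrank ℤ (Lam (prodSet Y ({y0} : Set (Fin m → ℂˣ)))) := rfl
    omega
  show k + 1 ≤ rk (prodSet Y ({y0} : Set (Fin m → ℂˣ))) + td ℂ (prodSet Y ({y0} : Set (Fin m → ℂˣ)))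
  omega

/-- The maximal subvarieties over one point of rank one. -/
theorem k9lac_fib (hL : Laurent k) (h : HC C) (hm : 2 ≤ m) {V : Set (Fin k ⊕ Fin m → ℂˣ)} (hV : ZClosed V)
    (hVC : ∀ p ∈ V, (fun i => p (Sum.inr i)) ∈ C) {y0 : Fin m → ℂˣ} (hy0 : rk ({y0} : Set (Fin m → ℂˣ)) = 1) :
    {X | X ∈ MaxE m V ∧ ∀ x ∈ X, ∀ i, x (Sum.inr i) = y0 i}.Finite := by
  classical
  have hcard : Fintype.card (Fin k ⊕ Fin m) = k + m := by
    rw [Fintype.card_sum, Fintype.card_fin, Fintype.card_fin]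
  have hW : ZClosed {x : Fin k → ℂˣ | (Sum.elim x y0 : Fin k ⊕ Fin m → ℂˣ) ∈ V} :=
    (ratMap_elim_right Set.univ y0).preimage_closed hV
  have hΓ : (Subgroup.closure (Set.range y0)).FG :=
    (Subgroup.fg_iff _).2 ⟨Set.range y0, rfl, Set.finite_range y0⟩
  obtain ⟨S, hS, hS1, hS2⟩ := hL _ _ hW hΓ
  let E : Set (Fin k → ℂˣ) → Set (Fin k ⊕ Fin m → ℂˣ) := fun Y =>
    {x | (fun j => x (Sum.inl j)) ∈ Y ∧ (fun i => x (Sum.inr i)) = y0}
  have hE : ∀ Y ∈ S, Irr (E Y) ∧ k + 1 ≤ cd (E Y) ∧ E Y ⊆ V := by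
    intro Y hY
    obtain ⟨hYW, q, hq, hqΓ, hsp⟩ := hS1 Y hY
    obtain ⟨h1, h2⟩ := coset_cd hq hqΓ hsp hy0.ge
    refine ⟨h1, h2, ?_⟩
    rintro x ⟨hx1, hx2⟩
    have h3 : (Sum.elim (fun j => x (Sum.inl j)) y0 : Fin k ⊕ Fin m → ℂˣ) ∈ V := hYW hx1
    have h4 : (Sum.elim (fun j => x (Sum.inl j)) y0 : Fin k ⊕ Fin m → ℂˣ) = x := by
      rw [← hx2]
      funext i
      rcases i with i | i <;> rfl
    rwa [h4] at h3
  have hZc : ZClosed (⋃ Y ∈ hS.toFinset, E Y) := ZClosed.finset_biUnion _ fun Y hY =>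
    (hE Y (hS.mem_toFinset.1 hY)).1.closed
  have hfin2 := Pool.Agent.Z7.finite_rk2 h hm
  refine (hS.image E).subset ?_
  rintro X ⟨hX, hXy⟩
  have hXi := MaxE.irr hX
  have hXV := MaxE.subset hX
  have hlt := MaxE.lt hX
  have hcdX : k + 1 ≤ cd X := by omega
  have hXC : ∀ p ∈ X, (fun i => p (Sum.inr i)) ∈ C := fun p hp => hVC p (hXV hp)
  have hXa : cl (acl (∅ : Set ℂ)) X = X := by
    by_contra hXa
    obtain ⟨y1, hy1, hy⟩ := k9g5_trans h.alg hfin2 hXi hXC hcdX hXa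
    obtain ⟨p, hp⟩ := hXi.nonempty
    have h1 : y1 = y0 := by
      funext i
      rw [← hy p hp i, hXy p hp i]
    have h2 := hy1.2.2
    rw [h1, hy0] at h2
    omega
  have hXZ : X ⊆ ⋃ Y ∈ hS.toFinset, E Y := by
    by_contra hcon
    obtain ⟨p, hpX, hpZ, hpa, hpr⟩ := tors_pt hXi hXa hZc hcon
    have hpy : (fun i => p (Sum.inr i)) = y0 := funext fun i => hXy p hpX i
    have h1 : ∀ j, ∃ N : ℕ, 0 < N ∧ p (Sum.inl j) ^ N ∈ Subgroup.closure (Set.range y0) := by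
      intro j
      have h2 := div_of (hcdX.trans hpr) (by
        rw [hpy]
        exact hy0.le) j
      have h3 : (Set.range fun i => p (Sum.inr i)) = Set.range y0 := by rw [hpy]
      rwa [h3] at h2
    obtain ⟨Y, hY, hpY⟩ := hS2 (fun j => p (Sum.inl j)) (by
      have h3 : (Sum.elim (fun j => p (Sum.inl j)) y0 : Fin k ⊕ Fin m → ℂˣ) = p := by
        rw [← hpy]
        funext i
        rcases i with i | i <;> rfl
      show (Sum.elim (fun j => p (Sum.inl j)) y0 : Fin k ⊕ Fin m → ℂˣ) ∈ V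
      rw [h3]
      exact hXV hpX) h1
    apply hpZ
    rw [Set.mem_iUnion₂]
    exact ⟨Y, hS.mem_toFinset.2 hY, hpY, hpy⟩
  obtain ⟨Z, hZ, hXZ'⟩ := hXi.subset_of_finset (hS.toFinset.image E) (by
    intro Z hZ
    obtain ⟨Y, hY, rfl⟩ := Finset.mem_image.1 hZ
    exact (hE Y (hS.mem_toFinset.1 hY)).1.closed) (by
    intro p hp
    obtain ⟨Y, hY, hpY⟩ := Set.mem_iUnion₂.1 (hXZ hp)
    exact Set.mem_iUnion₂.2 ⟨E Y, Finset.mem_image_of_mem _ hY, hpY⟩)
  obtain ⟨Y, hY, rfl⟩ := Finset.mem_image.1 hZ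
  have hYS := hS.mem_toFinset.1 hY
  obtain ⟨h1, h2, h3⟩ := hE Y hYS
  exact ⟨Y, hYS, (MaxE.eq hX h1 h3 (by omega) hXZ').symm⟩

/-- Row Z9-LAc. With Laurent's theorem there are only finitely many maximal `X`. PROOF. `fin_irr` gives `F`; it is enough to
show for `y0 ∈ F` (so `rk {y0} = 1`, algebraic) that `{X | X ∈ MaxE m V ∧ X over y0}` is finite. `W = {x | (x, y0) ∈ V}` is
closed (`pull`/`zclosed` of a section), `Γ = Subgroup.closure (range y0)` is finitely generated; `S` from `Laurent`.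
Claim: every such `X` is `Y × {y0}` for a `Y ∈ S`. `cl (acl ∅) X = X`: otherwise `k9g5_trans` (G5.lean; `Z7.finite_rk2`) gives a
point of rank `≥ 2` over which `X` lies, but `X` is nonempty and lies over `y0` of rank one. Let `Z` be the union of the
`Y × {y0}`, `Y ∈ S` (closed: `coset_cd`). If `¬ X ⊆ Z` then `tors_pt` gives `p ∈ X`, `p ∉ Z`, algebraic, `cd X ≤ rk {p}`; with
`div_of` its coordinates are in the division hull of `Γ`, so `p ∈ Z` by `Laurent`: contradiction. So `X ⊆ Z`, `X ⊆ Y × {y0}` for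
one `Y` (`Irr.subset_of_finset`), and `X = Y × {y0}` by `MaxE.eq` and `coset_cd`. Then `maximal_atypical_iff` as in `zp_bundle`. -/
theorem zp_laurent (hL : Laurent k) (h : HC C) (hm : 2 ≤ m) {V : Set (Fin k ⊕ Fin m → ℂˣ)} (hV : Fam C V) :
    {X | Maximal (Atypical V) X}.Finite := by
  have hcard := k9g6_card (k := k) (m := m)
  have hdm : dm V = ((k : ℕ) : WithBot ℕ∞) := by rw [dm_irr hV.irr, hV.dim]
  obtain ⟨F, hF, hF1, hfin⟩ := fin_irr h hm hV
  refine (hfin.union (hF.biUnion fun y0 hy0 => k9lac_fib hL h hm hV.irr.closed hV.sub (hF1 y0 hy0).2.2)).subset ?_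
  intro X hX
  have hX' : X ∈ MaxE m V := by
    have h0 : Maximal (Atypical V) X := hX
    rw [maximal_atypical_iff hV.irr.closed hdm (by omega) X] at h0
    have h1 : Fintype.card (Fin k ⊕ Fin m) - k = m := by omega
    rwa [h1] at h0
  by_cases hy : ∃ y0 ∈ F, ∀ x ∈ X, ∀ i, x (Sum.inr i) = y0 i
  · right
    obtain ⟨y0, hy0, hy⟩ := hy
    exact Set.mem_biUnion (x := y0) hy0 ⟨hX', hy⟩
  · left
    exact ⟨hX', hy⟩

end Pool.Agent.Z9
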