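import Pool.Agent.Z9.H0
import Pool.Agent.Z8.B3

namespace Pool.Agent.Z9

open Pool.Agent.ZL2 Filter Topology
open Pool.Agent.Z5 (fr Gen ev2 Alg d1_H d1_mk d1_ev d1_ev_mk d1_ext)
open Pool.Agent.Z6 (dt w6_L)
open Pool.Agent.Z7 (lg Cv HHp Chart)
open Pool.Agent.Z8 (sp evk rwk lev)

variable {k m : ℕ} [NeZero m]

/-- Row Z9-SF. PROOF. `k = 1`: then `R` is a constant `f : d1_H`, `f ≠ 0` (`γ S.j0 = 0` for the only index), its zeros are isolated (`fnH_ne`): near `y1` there are no points of `Λ` over `y2 ≠ y1` (if `y2 ∈ C` is near `y1`, `y2 ≠ y1`, then `y2 0 ≠ y1 0` by `hch.uniq`, and all `y` near `y2` have `y 0 ≠ y1 0`), `f = 1`, `L = 1` works.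
`2 ≤ k`: this is the second half of the proof of `Z8.local_small` (Z8/B3.lean, after `k8b3_eq`): `Z8.monic_near hk S.j0` for `sc = R.support`, `c γ = fnH (R.coeff γ)`, then `Z8.arc_small` near every other point. The bound of `|lg p.1 j|` is `A` here (`hΛ`). `Good` is about the points of `Λ` only. -/
theorem good_of_eq (hk : 1 ≤ k) (S : Sk k m) {y1 : Fin m → ℂ} (hy : y1 ∈ S.C) {ρ0 ρ : ℝ} {η ℓ : Fin m → ℂ → ℂ}
    (hch : Chart S.toCv y1 ρ0 η ℓ) (hρ : 0 < ρ) (hle : ρ ≤ ρ0) {R : MvPolynomial (Fin k) (d1_H (y1 0) ρ)} (hR : R ≠ 0)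
    (hRj : ∀ γ ∈ R.support, γ S.j0 = 0) {Λ : Set ((Fin k → ℂ) × (Fin m → ℂ))} {A : ℝ} {O1 : Set (Fin m → ℂ)}
    (hO1 : O1 ∈ 𝓝 y1)
    (hΛ : ∀ p ∈ Λ, p.2 ∈ S.C → p.2 ∈ O1 → p.2 0 ≠ y1 0 → p.2 0 ∈ Metric.ball (y1 0) ρ → (∀ i, p.2 i = η i (p.2 0)) →
      (∀ j, p.1 j ≠ 0) ∧ (∀ j, |lg p.1 j| ≤ A) ∧ evH R p.1 (p.2 0) = 0) :
    ∃ O ∈ 𝓝 y1, ∀ y2 ∈ O, y2 ∈ S.C → y2 ≠ y1 → Good S Λ y2 := by
  have hcont : ∀ w : Fin m → ℂ, ContinuousAt (fun y : Fin m → ℂ => y 0) w := fun w =>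
    (continuous_apply 0).continuousAt
  obtain ⟨γ0, hγ0⟩ : ∃ γ, γ ∈ R.support := MvPolynomial.support_nonempty.2 hR
  have hγ0' : R.coeff γ0 ≠ 0 := MvPolynomial.mem_support_iff.1 hγ0
  have ht0 := Metric.mem_ball_self (x := y1 0) hρ
  have hne0 : ∀ y2 : Fin m → ℂ, y2 ≠ y1 → (∀ i, y2 i = η i (y2 0)) → y2 0 ≠ y1 0 := by
    intro y2 hne h3 e
    apply hne
    funext i
    rw [h3 i, e, hch.base i]
  rcases Nat.lt_or_ge 1 k with hk2 | hk1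
  · obtain ⟨i0, l, ρ3, hij, hρ3, hle3, hmon⟩ := Pool.Agent.Z8.monic_near hk2 S.j0 hρ R.support
      (fun γ => fnH (R.coeff γ)) (fun γ => fnH_diff _) hRj ⟨γ0, hγ0, by
        by_contra hcon
        push Not at hcon
        exact hγ0' (fnH_ext fun t ht => by rw [hcon t ht, fnH_zero])⟩
    have hall : ∀ᶠ y in 𝓝 y1, (∀ᶠ z in 𝓝 y, (z ∈ S.C → z 0 ∈ Metric.ball (y1 0) ρ0 ∧ ∀ i, z i = η i (z 0)) ∧
        z ∈ O1 ∧ z 0 ∈ Metric.ball (y1 0) ρ) ∧ y 0 ∈ Metric.ball (y1 0) ρ3 := by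
      have e1 : ∀ᶠ z in 𝓝 y1, (z ∈ S.C → z 0 ∈ Metric.ball (y1 0) ρ0 ∧ ∀ i, z i = η i (z 0)) ∧
          z ∈ O1 ∧ z 0 ∈ Metric.ball (y1 0) ρ := by
        filter_upwards [hch.uniq, hO1, (hcont y1).eventually_mem (Metric.ball_mem_nhds _ hρ)] with z a1 a2 a3
        exact ⟨a1, a2, a3⟩
      filter_upwards [e1.eventually_nhds, (hcont y1).eventually_mem (Metric.ball_mem_nhds _ hρ3)] with y h1 h2
      exact ⟨h1, h2⟩
    refine ⟨_, hall, ?_⟩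
    rintro y2 ⟨h1, h2⟩ hy2 hne
    have h3 := (h1.self_of_nhds.1 hy2).2
    have hn := hne0 y2 hne h3
    obtain ⟨N', ρ', A', se, e, hN', hρ', hA', hsub', hed, heA, hse, hdeg, hex⟩ := hmon _ h2 hn
    obtain ⟨A2, hA2⟩ : ∃ A2 : ℝ, A2 = A' + ‖y2 0‖ + ρ' + Real.exp A := ⟨_, rfl⟩
    have p1 := norm_nonneg (y2 0)
    have p2 := (Real.exp_pos A).le
    have hO : ∀ᶠ y in 𝓝 y2, ((y ∈ S.C → y 0 ∈ Metric.ball (y1 0) ρ0 ∧ ∀ i, y i = η i (y 0)) ∧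
        y ∈ O1 ∧ y 0 ∈ Metric.ball (y1 0) ρ) ∧ y 0 ∈ Metric.ball (y2 0) (ρ' / 2) ∧ y 0 ≠ y1 0 := by
      filter_upwards [h1, (hcont y2).eventually_mem (Metric.ball_mem_nhds _ (half_pos hρ')),
        (hcont y2).eventually_ne hn] with y q1 q2 q3
      exact ⟨q1, q2, q3⟩
    refine ⟨_, hO, fun C => ?_⟩
    obtain ⟨L, f, hL, hf, hfL, hsm⟩ := Pool.Agent.Z8.arc_small hk2 S.j0 i0 hij l N' hN' (y2 0) ρ' A2 hρ'
      (by linarith) se e hed (fun a γ t ht => (heA a γ t ht).trans (by linarith)) hse hdeg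
      (by
        intro t ht
        have q : ‖t - y2 0‖ < ρ' := by rwa [Metric.mem_ball, dist_eq_norm] at ht
        have q2 : ‖t‖ ≤ ‖t - y2 0‖ + ‖y2 0‖ := by
          have := norm_add_le (t - y2 0) (y2 0)
          rwa [sub_add_cancel] at this
        linarith) C
    refine ⟨L, f, hL, hf, hfL, ?_⟩
    rintro p hp ⟨⟨q1, q2, q3⟩, q4, q5⟩ hpC
    have q6 : p.2 0 ∈ Metric.ball (y2 0) ρ' := Metric.ball_subset_ball (by linarith) q4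
    obtain ⟨r1, r2, r3⟩ := hΛ p hp hpC q2 q5 q3 (q1 hpC).2
    refine hsm p.1 (p.2 0) ?_ ?_ (hex _ q6 _ r3)
    · rw [Metric.mem_ball, dist_eq_norm] at q4
      exact q4.le
    · intro j
      have h4 : ‖p.1 j‖ = Real.exp (lg p.1 j) := (Real.exp_log (norm_pos_iff.2 (r1 j))).symm
      have h5 : Real.exp (lg p.1 j) ≤ Real.exp A := Real.exp_le_exp.2 ((le_abs_self _).trans (r2 j))
      rw [h4]
      linarith
  · have hsub : Subsingleton (Fin k) := Fin.subsingleton_iff_le_one.2 hk1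
    have hz : ∀ γ ∈ R.support, γ = 0 := by
      intro γ hγ
      ext j
      rw [Subsingleton.elim j S.j0, hRj γ hγ]
      rfl
    have hγ00 : γ0 = 0 := hz γ0 hγ0
    have hsupp : R.support = {0} := by
      refine Finset.eq_singleton_iff_unique_mem.2 ⟨?_, hz⟩
      rw [← hγ00]
      exact hγ0
    obtain ⟨V, hV, -, hVf⟩ := fnH_ne hγ0' ht0
    have hall : ∀ᶠ y in 𝓝 y1, ∀ᶠ z in 𝓝 y, (z ∈ S.C → z 0 ∈ Metric.ball (y1 0) ρ0 ∧ ∀ i, z i = η i (z 0)) ∧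
        z ∈ O1 ∧ z 0 ∈ Metric.ball (y1 0) ρ ∧ z 0 ∈ V := by
      refine Filter.Eventually.eventually_nhds ?_
      filter_upwards [hch.uniq, hO1, (hcont y1).eventually_mem (Metric.ball_mem_nhds _ hρ),
        (hcont y1).eventually_mem hV] with z a1 a2 a3 a4
      exact ⟨a1, a2, a3, a4⟩
    refine ⟨_, hall, ?_⟩
    intro y2 h1 hy2 hne
    have h3 := (h1.self_of_nhds.1 hy2).2
    have hn := hne0 y2 hne h3
    have hO : ∀ᶠ y in 𝓝 y2, ((y ∈ S.C → y 0 ∈ Metric.ball (y1 0) ρ0 ∧ ∀ i, y i = η i (y 0)) ∧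
        y ∈ O1 ∧ y 0 ∈ Metric.ball (y1 0) ρ ∧ y 0 ∈ V) ∧ y 0 ≠ y1 0 := by
      filter_upwards [h1, (hcont y2).eventually_ne hn] with y q1 q3
      exact ⟨q1, q3⟩
    refine ⟨_, hO, fun C => ⟨1, fun _ => 1, le_refl _, ?_, fun _ => by norm_num, ?_⟩⟩
    · intro h
      have := congrFun h (fun _ => 0)
      simp at this
    · rintro p hp ⟨⟨q1, q2, q3, q4⟩, q5⟩ hpC
      exfalso
      obtain ⟨r1, r2, r3⟩ := hΛ p hp hpC q2 q5 q3 (q1 hpC).2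
      unfold evH at r3
      rw [hsupp, Finset.sum_singleton] at r3
      simp only [Finsupp.coe_zero, Pi.zero_apply, pow_zero, Finset.prod_const_one, mul_one] at r3
      refine hVf _ q4 q5 ?_
      rw [hγ00]
      exact r3

end Pool.Agent.Z9
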