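import Pool.Agent.Z9.CO

open MvPolynomial Pool.Agent.MP_dd1803_nt Pool.Agent.ZPA Pool.Agent.ZL2

namespace Pool.Agent.Z9

open Filter Topology
open Pool.Agent.Z7 (HC)

/-- The automorphism `σ` of the field `ℂ`, applied to the coordinates of a point. -/
def sgp (σ : ℂ ≃+* ℂ) {κ : Type} (x : κ → ℂˣ) : κ → ℂˣ := fun i => Units.map (σ : ℂ →* ℂ) (x i)

/-- The conjugate `σ X`. -/
def sg (σ : ℂ ≃+* ℂ) {κ : Type} (X : Set (κ → ℂˣ)) : Set (κ → ℂˣ) := {x | sgp σ.symm x ∈ X}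

variable {κ : Type} (σ : ℂ ≃+* ℂ)

/-- Row Z9-SGa. `sgp σ` is a group automorphism of the torus with the inverse `sgp σ.symm`. -/
theorem sgp_symm (x : κ → ℂˣ) : sgp σ.symm (sgp σ x) = x := by
  funext i
  apply Units.ext
  show σ.symm (σ (x i : ℂ)) = x i
  exact σ.symm_apply_apply _

theorem sgp_symm' (x : κ → ℂˣ) : sgp σ (sgp σ.symm x) = x := by
  funext i
  apply Units.ext
  show σ (σ.symm (x i : ℂ)) = x i
  exact σ.apply_symm_apply _

theorem sgp_mul (x y : κ → ℂˣ) : sgp σ (x * y) = sgp σ x * sgp σ y := by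
  funext i
  exact map_mul (Units.map (σ : ℂ →* ℂ)) (x i) (y i)

theorem mem_sg {X : Set (κ → ℂˣ)} {x : κ → ℂˣ} : sgp σ x ∈ sg σ X ↔ x ∈ X := by
  show sgp σ.symm (sgp σ x) ∈ X ↔ x ∈ X
  rw [sgp_symm]

theorem sg_sg (X : Set (κ → ℂˣ)) : sg σ.symm (sg σ X) = X := by
  ext x
  show sgp σ.symm (sgp σ x) ∈ X ↔ x ∈ X
  rw [sgp_symm]

theorem k9sga_sg (X : Set (κ → ℂˣ)) : sg σ (sg σ.symm X) = X := sg_sg σ.symm X

theorem k9sga_mono {X Y : Set (κ → ℂˣ)} (h : X ⊆ Y) : sg σ X ⊆ sg σ Y := fun _ hx => h hx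

theorem k9sga_le {X Y : Set (κ → ℂˣ)} : sg σ X ⊆ sg σ Y ↔ X ⊆ Y := by
  refine ⟨fun h => ?_, k9sga_mono σ⟩
  have h1 := k9sga_mono σ.symm h
  rwa [sg_sg, sg_sg] at h1

/-- The value at the conjugate point. -/
theorem k9sga_eval (y : κ → ℂ) (p : MvPolynomial κ ℂ) :
    MvPolynomial.eval (fun i => σ (y i)) (MvPolynomial.map (σ : ℂ →+* ℂ) p) = σ (MvPolynomial.eval y p) := by
  induction p using MvPolynomial.induction_on with
  | C a => simp
  | add p q hp hq => rw [map_add, map_add, hp, hq, map_add, map_add]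
  | mul_X p i hp => rw [map_mul, map_mul, hp, map_mul, map_mul, MvPolynomial.map_X, MvPolynomial.eval_X, MvPolynomial.eval_X]

/-- Row Z9-SGa. The polynomials `MvPolynomial.map σ p`, `p ∈ S`. -/
theorem zclosed_sg {X : Set (κ → ℂˣ)} (h : ZClosed X) : ZClosed (sg σ X) := by
  obtain ⟨S, rfl⟩ := h
  refine ⟨(fun p => MvPolynomial.map (σ : ℂ →+* ℂ) p) '' S, ?_⟩
  ext x
  have key : ∀ p : MvPolynomial κ ℂ, MvPolynomial.eval (fun i => (x i : ℂ)) (MvPolynomial.map (σ : ℂ →+* ℂ) p) =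
      σ (MvPolynomial.eval (fun i => ((sgp σ.symm x i : ℂˣ) : ℂ)) p) := by
    intro p
    rw [← k9sga_eval]
    congr 2
    funext i
    exact (σ.apply_symm_apply (x i : ℂ)).symm
  constructor
  · rintro hx _ ⟨p, hp, rfl⟩
    have h1 : MvPolynomial.eval (fun i => ((sgp σ.symm x i : ℂˣ) : ℂ)) p = 0 := hx p hp
    beta_reduce
    rw [key, h1, map_zero]
  · intro hx p hp
    have h1 : MvPolynomial.eval (fun i => (x i : ℂ)) (MvPolynomial.map (σ : ℂ →+* ℂ) p) = 0 :=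
      hx _ ⟨p, hp, rfl⟩
    rw [key] at h1
    exact (map_eq_zero_iff σ σ.injective).1 h1

theorem k9sga_irr {X : Set (κ → ℂˣ)} (h : Irr X) : Irr (sg σ X) := by
  refine ⟨zclosed_sg σ h.1, ?_, ?_⟩
  · obtain ⟨x, hx⟩ := h.2.1
    exact ⟨sgp σ x, (mem_sg σ).2 hx⟩
  · intro A B hA hB hAB
    have h1 : X ⊆ sg σ.symm A ∪ sg σ.symm B := by
      have h2 := k9sga_mono σ.symm hAB
      rwa [sg_sg] at h2
    rcases h.2.2 _ _ (zclosed_sg σ.symm hA) (zclosed_sg σ.symm hB) h1 with h2 | h2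
    · left
      have h3 := k9sga_mono σ h2
      rwa [k9sga_sg] at h3
    · right
      have h3 := k9sga_mono σ h2
      rwa [k9sga_sg] at h3

theorem irr_sg {X : Set (κ → ℂˣ)} : Irr (sg σ X) ↔ Irr X := by
  refine ⟨fun h => ?_, k9sga_irr σ⟩
  have h1 := k9sga_irr σ.symm h
  rwa [sg_sg] at h1

theorem k9sga_comp {V X : Set (κ → ℂˣ)} (h : Comp V X) : Comp (sg σ V) (sg σ X) := by
  refine ⟨⟨k9sga_irr σ h.1.1, k9sga_mono σ h.1.2⟩, ?_⟩
  rintro Z ⟨hZ, hZV⟩ hXZ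
  have h1 : X ⊆ sg σ.symm Z := by
    have h3 := k9sga_mono σ.symm hXZ
    rwa [sg_sg] at h3
  have h2 : sg σ.symm Z ⊆ V := by
    have h3 := k9sga_mono σ.symm hZV
    rwa [sg_sg] at h3
  have h4 := k9sga_mono σ (h.2 ⟨k9sga_irr σ.symm hZ, h2⟩ h1)
  rwa [k9sga_sg] at h4

theorem comp_sg {V X : Set (κ → ℂˣ)} : Comp (sg σ V) (sg σ X) ↔ Comp V X := by
  refine ⟨fun h => ?_, k9sga_comp σ⟩
  have h1 := k9sga_comp σ.symm h
  rwa [sg_sg, sg_sg] at h1

/-- Order isomorphism of the sets of the irreducible closed subsets (`Order.krullDim_eq_of_orderIso`). -/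
theorem dm_sg (V : Set (κ → ℂˣ)) : dm (sg σ V) = dm V := by
  let e : {Y : Set (κ → ℂˣ) // Irr Y ∧ Y ⊆ V} ≃o {Y : Set (κ → ℂˣ) // Irr Y ∧ Y ⊆ sg σ V} :=
    { toFun := fun Y => ⟨sg σ Y.1, k9sga_irr σ Y.2.1, k9sga_mono σ Y.2.2⟩
      invFun := fun Y => ⟨sg σ.symm Y.1, k9sga_irr σ.symm Y.2.1, by
        have h1 := k9sga_mono σ.symm Y.2.2
        rwa [sg_sg] at h1⟩
      left_inv := fun Y => Subtype.ext (sg_sg σ Y.1)
      right_inv := fun Y => Subtype.ext (k9sga_sg σ Y.1)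
      map_rel_iff' := fun {Y Y'} => k9sga_le σ }
  exact (Order.krullDim_eq_of_orderIso e).symm

theorem k9sga_special {T : Set (κ → ℂˣ)} (h : Special T) : Special (sg σ T) := by
  obtain ⟨H, hH, hT⟩ := h
  refine ⟨H.comap (MonoidHom.mk' (sgp σ.symm) (sgp_mul σ.symm)), zclosed_sg σ hH, k9sga_comp σ hT⟩

theorem special_sg {T : Set (κ → ℂˣ)} : Special (sg σ T) ↔ Special T := by
  refine ⟨fun h => ?_, k9sga_special σ⟩
  have h1 := k9sga_special σ.symm h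
  rwa [sg_sg] at h1

theorem k9sgb_symm (T : Set (κ → ℂˣ)) : sg σ (sg σ.symm T) = T := sg_sg σ.symm T

theorem k9sgb_inter (A B : Set (κ → ℂˣ)) : sg σ (A ∩ B) = sg σ A ∩ sg σ B := rfl

theorem k9sgb_univ : sg σ (Set.univ : Set (κ → ℂˣ)) = Set.univ := rfl

theorem k9sgb_mono {A B : Set (κ → ℂˣ)} : sg σ A ⊆ sg σ B ↔ A ⊆ B := by
  constructor
  · intro h x hx
    exact (mem_sg σ).1 (h ((mem_sg σ).2 hx))
  · intro h x hx
    exact h hx

theorem k9sgb_at {V X : Set (κ → ℂˣ)} (h : Atypical V X) : Atypical (sg σ V) (sg σ X) := by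
  obtain ⟨T, hT, hX, hd⟩ := h
  refine ⟨sg σ T, (special_sg σ).2 hT, ?_, ?_⟩
  · rw [← k9sgb_inter]
    exact (comp_sg σ).2 hX
  · rw [dm_sg, dm_sg, dm_sg]
    exact hd

/-- Row Z9-SGb. -/
theorem atypical_sg {V X : Set (κ → ℂˣ)} : Atypical (sg σ V) (sg σ X) ↔ Atypical V X := by
  constructor
  · intro h
    have h1 := k9sgb_at σ.symm h
    rwa [sg_sg, sg_sg] at h1
  · exact k9sgb_at σ

theorem maximal_sg {V X : Set (κ → ℂˣ)} : Maximal (Atypical (sg σ V)) (sg σ X) ↔ Maximal (Atypical V) X := by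
  constructor
  · rintro ⟨h1, h2⟩
    refine ⟨(atypical_sg σ).1 h1, fun Y hY hXY => ?_⟩
    exact (k9sgb_mono σ).1 (h2 ((atypical_sg σ).2 hY) ((k9sgb_mono σ).2 hXY))
  · rintro ⟨h1, h2⟩
    refine ⟨(atypical_sg σ).2 h1, fun Y hY hXY => ?_⟩
    rw [← k9sgb_symm σ Y] at hY hXY ⊢
    exact (k9sgb_mono σ).2 (h2 ((atypical_sg σ).1 hY) ((k9sgb_mono σ).1 hXY))

/-- the finiteness can be checked after conjugation -/
theorem finite_sg {P : Set (κ → ℂˣ) → Prop} (h : {X | P (sg σ.symm X)}.Finite) : {X | P X}.Finite := by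
  refine (h.image (sg σ.symm)).subset ?_
  intro X hX
  refine ⟨sg σ X, ?_, sg_sg σ X⟩
  show P (sg σ.symm (sg σ X))
  rw [sg_sg]
  exact hX

theorem k9sgb_alg {x : ℂ} (h : IsAlgebraic ℚ x) : IsAlgebraic ℚ (σ x) := by
  obtain ⟨p, hp, h0⟩ := h
  refine ⟨p, hp, ?_⟩
  have h1 := Polynomial.aeval_algHom_apply ((σ : ℂ →+* ℂ).toRatAlgHom) x p
  rw [h0, map_zero] at h1
  exact h1

/-- The restriction of `σ` to the algebraic numbers. -/
noncomputable def k9sgb_tau : acl (∅ : Set ℂ) →+* acl (∅ : Set ℂ) where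
  toFun a := ⟨σ (a : ℂ), mem_acl_empty.2 (k9sgb_alg σ (mem_acl_empty.1 a.2))⟩
  map_one' := Subtype.ext (map_one σ)
  map_mul' a b := Subtype.ext (map_mul σ (a : ℂ) (b : ℂ))
  map_zero' := Subtype.ext (map_zero σ)
  map_add' a b := Subtype.ext (map_add σ (a : ℂ) (b : ℂ))

theorem k9sgb_aeval (z : κ → ℂˣ) (q : MvPolynomial κ (acl (∅ : Set ℂ))) :
    aeval (co (sgp σ z)) (MvPolynomial.map (k9sgb_tau σ) q) = σ (aeval (co z) q) := by
  induction q using MvPolynomial.induction_on with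
  | C a =>
    rw [map_C, aeval_C, aeval_C]
    rfl
  | add p q hp hq => rw [map_add, map_add, map_add, map_add, hp, hq]
  | mul_X p i hp =>
    rw [map_mul, map_mul, map_mul, map_mul, hp, map_X, aeval_X, aeval_X]
    rfl

/-- `cl (acl ∅) C = C` (defined over the algebraic numbers) is invariant: with `k8g4f_cl`-type arguments, or: `x ∈ cl (acl ∅) (sg σ C)`: for `q` over `acl ∅` vanishing on `C` the polynomial `map σ q` has algebraic coefficients and vanishes on `sg σ C`. -/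
theorem acl_sg {C : Set (κ → ℂˣ)} (h : cl (acl (∅ : Set ℂ)) C = C) : cl (acl (∅ : Set ℂ)) (sg σ C) = sg σ C := by
  apply Set.Subset.antisymm _ (subset_cl _)
  intro x hx
  show sgp σ.symm x ∈ C
  rw [← h]
  intro q hq
  have hq' : MvPolynomial.map (k9sgb_tau σ) q ∈ vI (acl (∅ : Set ℂ)) (sg σ C) := by
    rw [mem_vI]
    intro y hy
    have h1 := k9sgb_aeval σ (sgp σ.symm y) q
    rw [sgp_symm'] at h1
    have h2 : aeval (co (sgp σ.symm y)) q = 0 := mem_vI.1 hq _ hy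
    rw [h1, h2, map_zero]
  have h3 : aeval (co x) (MvPolynomial.map (k9sgb_tau σ) q) = 0 := hx _ hq'
  have h4 := k9sgb_aeval σ (sgp σ.symm x) q
  rw [sgp_symm', h3] at h4
  exact (map_eq_zero σ).1 h4.symm

end Pool.Agent.Z9
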