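import Pool.Agent.Z9.G6
import Pool.Agent.Z9.IND
import Pool.Agent.ZPA.H1

open MvPolynomial Pool.Agent.MP_dd1803_nt Pool.Agent.ZPA Pool.Agent.ZL2

namespace Pool.Agent.Z9

open Filter Topology

/-- The conditions on the curve `C` (arbitrary complex coefficients): the real condition is needed only for the images of `C`
in tori of dimension at least three which are defined over the algebraic numbers. -/
structure HCx {m : ℕ} (C : Set (Fin m → ℂˣ)) : Prop where
  irr : Irr C
  dim : td ℂ C = 1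
  nc : ∀ v : Fin m → ℤ, v ≠ 0 → ∀ z : ℂˣ, ¬ ∀ y ∈ C, ch v y = z
  ind : ∀ (s : ℕ) (b : Fin s → Fin m → ℤ), 3 ≤ s → LinearIndependent ℤ b →
    cl (acl (∅ : Set ℂ)) (cl ℂ (phi b '' C)) = cl ℂ (phi b '' C) → Indep (cl ℂ (phi b '' C))

/-- A sequence of irreducible subsets, defined over `k`, of an irreducible `Y` defined over `k`: every closed subset over `k`
which does not contain `Y` contains finitely many of them. -/
structure GenS (k : Type) [Field k] [Algebra k ℂ] {κ : Type} [Fintype κ] (Y : Set (κ → ℂˣ)) (X : ℕ → Set (κ → ℂˣ)) :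
    Prop where
  irr : Irr Y
  cly : cl k Y = Y
  xirr : ∀ n, Irr (X n)
  xcl : ∀ n, cl k (X n) = X n
  sub : ∀ n, X n ⊆ Y
  gen : ∀ Z, cl k Z = Z → ¬ Y ⊆ Z → ∀ᶠ n in cofinite, ¬ X n ⊆ Z

theorem GenS.comp {k : Type} [Field k] [Algebra k ℂ] {κ : Type} [Fintype κ] {Y : Set (κ → ℂˣ)}
    {X : ℕ → Set (κ → ℂˣ)} (h : GenS k Y X) {φ : ℕ → ℕ} (hφ : Function.Injective φ) : GenS k Y (fun n => X (φ n)) where
  irr := h.irr
  cly := h.cly
  xirr n := h.xirr _
  xcl n := h.xcl _
  sub n := h.sub _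
  gen Z hZ hY := hφ.tendsto_cofinite.eventually (h.gen Z hZ hY)

end Pool.Agent.Z9
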