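import Pool.Agent.Z9.T1

open MvPolynomial Pool.Agent.MP_dd1803_nt Pool.Agent.ZPA Pool.Agent.ZL2

namespace Pool.Agent.Z9

/-- More than `m` vectors of `ℤ^m` are dependent. -/
theorem k9t0b_le {m s : ℕ} {b : Fin s → Fin m → ℤ} (hb : LinearIndependent ℤ b) : s ≤ m := by
  have h1 := hb.fintype_card_le_finrank
  rwa [Fintype.card_fin, Module.finrank_fintype_fun_eq_card, Fintype.card_fin] at h1

/-- A power of every coordinate is a monomial in independent monomials of full rank. -/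
theorem k9t0b_pow {m : ℕ} {b : Fin m → Fin m → ℤ} (hb : LinearIndependent ℤ b) (a : Fin m) :
    ∃ N : ℤ, N ≠ 0 ∧ ∃ w : Fin m → ℤ, ∀ x : Fin m → ℂˣ, x a ^ N = ch w (phi b x) := by
  classical
  have h1 : ¬ LinearIndependent ℤ (Fin.cons (Pi.single a 1) b : Fin (m + 1) → Fin m → ℤ) := by
    intro h
    have h2 := k9t0b_le h
    omega
  rw [Fintype.not_linearIndependent_iff] at h1
  obtain ⟨g, hg, i, hi⟩ := h1
  rw [Fin.sum_univ_succ] at hg
  simp only [Fin.cons_zero, Fin.cons_succ] at hg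
  have hg0 : g 0 ≠ 0 := by
    intro h0
    rw [h0, zero_smul, zero_add] at hg
    have h3 := Fintype.linearIndependent_iff.1 hb (fun j => g j.succ) hg
    refine Fin.cases ?_ (fun j => ?_) i hi
    · intro h4
      exact h4 h0
    · intro h4
      exact h4 (h3 j)
  refine ⟨g 0, hg0, fun j => - g j.succ, fun x => ?_⟩
  rw [d1_ch]
  have h2 : ∑ k, (fun j => - g j.succ) k • b k = g 0 • (Pi.single a 1 : Fin m → ℤ) := by
    simp only [neg_smul, Finset.sum_neg_distrib]
    exact (eq_neg_of_add_eq_zero_left hg).symm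
  rw [h2, ch_zsmul]
  congr 1
  unfold ch
  rw [Finset.prod_eq_single a, Pi.single_eq_same, zpow_one]
  · intro l _ hl
    rw [Pi.single_eq_of_ne hl, zpow_zero]
  · intro h0
    exact absurd (Finset.mem_univ _) h0

/-- Preimages under monomial maps of sets over `acl ∅` are over `acl ∅`. -/
theorem k9t0b_pre {m r : ℕ} (b : Fin r → Fin m → ℤ) {D : Set (Fin r → ℂˣ)} (hD : cl (acl (∅ : Set ℂ)) D = D) :
    cl (acl (∅ : Set ℂ)) (phi b ⁻¹' D) = phi b ⁻¹' D := by
  apply Set.Subset.antisymm _ (subset_cl _)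
  intro x hx
  show phi b x ∈ D
  rw [← hD]
  intro q hq
  obtain ⟨h, u, huh⟩ := d1_clear (F := ℂ) b q
  have h2 : h ∈ vI (acl (∅ : Set ℂ)) (phi b ⁻¹' D) := by
    rw [mem_vI]
    intro y hy
    rw [(huh y).2, mem_vI.mp hq (phi b y) hy, mul_zero]
  have h3 := hx h h2
  rw [(huh x).2] at h3
  exact (mul_eq_zero.mp h3).resolve_left (huh x).1

/-- If the image of an irreducible `C` under independent monomials of full rank is defined over the algebraic numbers then
so is `C`. -/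
theorem acl_of_image {m : ℕ} {C : Set (Fin m → ℂˣ)} (hC : Irr C) {b : Fin m → Fin m → ℤ} (hb : LinearIndependent ℤ b)
    (h : cl (acl (∅ : Set ℂ)) (cl ℂ (phi b '' C)) = cl ℂ (phi b '' C)) : cl (acl (∅ : Set ℂ)) C = C := by
  have hac := isAlgClosed_acl (∅ : Set ℂ)
  have hC0 : Irr (cl (acl (∅ : Set ℂ)) C) := irr_cl hC.pirr
  have h1 : cl (acl (∅ : Set ℂ)) C ⊆ phi b ⁻¹' cl ℂ (phi b '' C) :=
    cl_subset_of_closed (fun x hx => subset_cl _ ⟨x, hx, rfl⟩) (k9t0b_pre b h)
  have htd : ∀ X : Set (Fin m → ℂˣ), PIrr X → td ℂ (phi b '' X) = td ℂ X := fun X hX =>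
    k9prc_td hX (d1_ratMap X b) (fun n => ⟨b n, fun x _ => rfl⟩) fun a => by
      obtain ⟨N, hN, w, hw⟩ := k9t0b_pow hb a
      exact ⟨N, hN, w, fun x _ => hw x⟩
  have h2 : td ℂ (cl (acl (∅ : Set ℂ)) C) ≤ td ℂ C := by
    rw [← htd _ hC0.pirr, ← htd _ hC.pirr, ← td_cl (k := ℂ) (phi b '' C)]
    refine td_mono (hC0.pirr.image (d1_ratMap _ b)) (hC.pirr.image (d1_ratMap _ b)).cl.pirr ?_
    rintro _ ⟨x, hx, rfl⟩
    exact h1 hx
  exact (eq_of_td_le hC hC0 (subset_cl C) h2).symm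

/-- In dimension two there is no image in dimension three. -/
theorem no_image_two (s : ℕ) (b : Fin s → Fin 2 → ℤ) (hs : 3 ≤ s) (hb : LinearIndependent ℤ b) : False := by
  have h1 := k9t0b_le hb
  omega

/-- A curve in dimension three which is not defined over the algebraic numbers has no image over the algebraic numbers in
dimension three or more. -/
theorem no_image_three {C : Set (Fin 3 → ℂˣ)} (hC : Irr C) (hCa : cl (acl (∅ : Set ℂ)) C ≠ C) (s : ℕ)
    (b : Fin s → Fin 3 → ℤ) (hs : 3 ≤ s) (hb : LinearIndependent ℤ b)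
    (h : cl (acl (∅ : Set ℂ)) (cl ℂ (phi b '' C)) = cl ℂ (phi b '' C)) : False := by
  have h1 := k9t0b_le hb
  obtain rfl : s = 3 := by omega
  exact hCa (acl_of_image hC hb h)

end Pool.Agent.Z9
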