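import Pool.Agent.Z9.T0

open MvPolynomial Pool.Agent.MP_dd1803_nt Pool.Agent.ZPA Pool.Agent.ZL2

namespace Pool.Agent.Z9

open Filter Topology

variable {κ : Type} [Fintype κ]

/-- Row Z9-T2a. One step down. PROOF. As in `ZPA.maxP_step` (ZPA/E1.lean). `cl k (X n)` is irreducible (`irr_cl`), closed over
`k` (`cl_idem`), contained in `cl k Y` (`cl_mono`); if `Z` is closed over `k` and `¬ cl k Y ⊆ Z` then `¬ Y ⊆ Z`, `Z` is closed
over `k'` (`cl_tower`), so finitely many `X n ⊆ Z`. If `cl k Y = Y`: `cd_le_cd_cl`. If not: `core k Y` does not contain `Y` (`cl_core`), it is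
closed over `k` hence over `k'`, so eventually `¬ X n ⊆ core k Y`, so `cl k (X n) ≠ X n` (otherwise `subset_core`), so `td ℂ (X n) < td ℂ (cl k (X n))` (`td_lt`), `rk_cl`; and `cd (cl k Y) = rk Y + td k Y ≤ rk Y + td k' Y + 1 = cd Y + 1` (`cd_cl_eq`, `td_tower_le_add_one`, `td_cl_eq`). -/
theorem GenS.step {k k' : Type} [Field k] [Field k'] [Algebra k ℂ] [Algebra k' ℂ] [Algebra k k']
    [IsScalarTower k k' ℂ] [IsAlgClosed k] [IsAlgClosed k'] (a : k')
    [Algebra.IsAlgebraic (Algebra.adjoin k {a}) k'] {Y : Set (κ → ℂˣ)} {X : ℕ → Set (κ → ℂˣ)} (h : GenS k' Y X) :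
    GenS k (cl k Y) (fun n => cl k (X n)) ∧
      ∀ᶠ n in cofinite, cd (cl k Y) + cd (X n) ≤ cd (cl k (X n)) + cd Y := by
  have hYi : Irr (cl k Y) := irr_cl h.irr.pirr
  have htow : ∀ Z : Set (κ → ℂˣ), cl k Z = Z → cl k' Z = Z := by
    intro Z hZ
    apply Set.Subset.antisymm _ (subset_cl _)
    have h4 := cl_tower k k' Z
    rwa [hZ] at h4
  refine ⟨⟨hYi, cl_idem Y, fun n => irr_cl (h.xirr n).pirr, fun n => cl_idem _, fun n => cl_mono (h.sub n), ?_⟩, ?_⟩
  · intro Z hZ hYZ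
    have h1 : ¬ Y ⊆ Z := fun h2 => hYZ (cl_subset_of_closed h2 hZ)
    filter_upwards [h.gen Z (htow Z hZ) h1] with n hn h2
    exact hn ((subset_cl _).trans h2)
  · by_cases hk : cl k Y = Y
    · rw [hk]
      filter_upwards with n
      have h1 := cd_le_cd_cl (k := k) (h.xirr n).pirr
      omega
    · have h1 : ¬ Y ⊆ core k Y := by
        intro h2
        apply hk
        have h3 : core k Y = Y := Set.Subset.antisymm (core_subset h.irr.closed) h2
        rw [← h3]
        exact cl_core Y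
      filter_upwards [h.gen (core k Y) (htow _ (cl_core Y)) h1] with n hn
      have hXi := h.xirr n
      have hXk : cl k (X n) ≠ X n := by
        intro h2
        apply hn
        apply subset_core hXi.pirr
        rw [h2]
        exact h.sub n
      have hss : X n ⊂ cl k (X n) := LE.le.ssubset_of_ne (subset_cl _) (Ne.symm hXk)
      have h2 := td_lt hXi (irr_cl hXi.pirr) hss
      have h5 : rk (cl k (X n)) = rk (X n) := rk_cl _
      have h11 : cd (cl k Y) = rk Y + td k Y := cd_cl_eq h.irr.pirr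
      have h12 := td_tower_le_add_one (k := k) (k' := k') h.irr.pirr a
      have h13 : td ℂ Y = td k' Y := by
        conv_lhs => rw [← h.cly]
        exact td_cl_eq h.irr.pirr
      have h14 : cd (cl k (X n)) = rk (cl k (X n)) + td ℂ (cl k (X n)) := rfl
      have h15 : cd (X n) = rk (X n) + td ℂ (X n) := rfl
      have h16 : cd Y = rk Y + td ℂ Y := rfl
      omega

theorem k9t2_step_inc {K L : IntermediateField ℚ ℂ} (hKL : K ≤ L) [IsAlgClosed K] [IsAlgClosed L] (a : L)
    (halg : ∀ x ∈ L, IsAlgebraic (Algebra.adjoin K {(a : ℂ)}) x) {Y : Set (κ → ℂˣ)} {X : ℕ → Set (κ → ℂˣ)}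
    (h : GenS L Y X) : GenS K (cl K Y) (fun n => cl K (X n)) ∧
      ∀ᶠ n in cofinite, cd (cl K Y) + cd (X n) ≤ cd (cl K (X n)) + cd Y := by
  let i1 := incAlgebra hKL
  have t1 := incTower hKL
  have halg' := isAlgebraic_inc hKL a halg
  exact GenS.step (k := K) (k' := L) a h

omit [Fintype κ] in
theorem k9t2_cl {K L : IntermediateField ℚ ℂ} (hKL : K ≤ L) (X : Set (κ → ℂˣ)) : cl K (cl L X) = cl K X := by
  let i1 := incAlgebra hKL
  have t1 := incTower hKL
  exact cl_cl K L X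

/-- Row Z9-T2b. Down to the algebraic numbers. PROOF. Induction on the finite set `A` (all `Y`, `X`), as in `ZPA.maxP_step_inc`,
`ZPA.maxP_all` (ZPA/E1.lean), with `cl_cl`. -/
theorem GenS.down {A : Set ℂ} (hA : A.Finite) {Y : Set (κ → ℂˣ)} {X : ℕ → Set (κ → ℂˣ)} (h : GenS (acl A) Y X) :
    GenS (acl (∅ : Set ℂ)) (cl (acl (∅ : Set ℂ)) Y) (fun n => cl (acl (∅ : Set ℂ)) (X n)) ∧
      ∀ᶠ n in cofinite, cd (cl (acl (∅ : Set ℂ)) Y) + cd (X n) ≤ cd (cl (acl (∅ : Set ℂ)) (X n)) + cd Y := by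
  have key : ∀ (Y : Set (κ → ℂˣ)) (X : ℕ → Set (κ → ℂˣ)), GenS (acl A) Y X →
      GenS (acl (∅ : Set ℂ)) (cl (acl (∅ : Set ℂ)) Y) (fun n => cl (acl (∅ : Set ℂ)) (X n)) ∧
        ∀ᶠ n in cofinite, cd (cl (acl (∅ : Set ℂ)) Y) + cd (X n) ≤ cd (cl (acl (∅ : Set ℂ)) (X n)) + cd Y := by
    clear h
    induction A, hA using Set.Finite.induction_on with
    | empty =>
      intro Y X h
      have e2 : (fun n => cl (acl (∅ : Set ℂ)) (X n)) = X := funext h.xcl
      constructor
      · rw [h.cly, e2]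
        exact h
      · filter_upwards with n
        rw [h.cly, h.xcl]
        omega
    | @insert a A _ _ ih =>
      intro Y X h
      have h1 := isAlgClosed_acl A
      have h2 := isAlgClosed_acl (insert a A)
      obtain ⟨h3, h4⟩ := k9t2_step_inc (K := acl A) (L := acl (insert a A)) (acl_mono (Set.subset_insert a A))
        ⟨a, subset_acl _ (Set.mem_insert a A)⟩ (fun x hx => alg_of_mem_acl_insert hx) h
      obtain ⟨h5, h6⟩ := ih _ _ h3
      have h7 : ∀ Z : Set (κ → ℂˣ), cl (acl (∅ : Set ℂ)) (cl (acl A) Z) = cl (acl (∅ : Set ℂ)) Z :=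
        fun Z => k9t2_cl (acl_mono (Set.empty_subset A)) Z
      simp only [h7] at h5 h6
      refine ⟨h5, ?_⟩
      filter_upwards [h4, h6] with n hn4 hn6
      omega
  exact key Y X h

end Pool.Agent.Z9
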