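import Pool.Agent.Z9.T0

open MvPolynomial Pool.Agent.MP_dd1803_nt Pool.Agent.ZPA Pool.Agent.ZL2

namespace Pool.Agent.Z9

open Filter Topology

variable {κ : Type} [Fintype κ]

/-- A translate has the same dimension. -/
theorem k9t3_td {Y : Set (κ → ℂˣ)} (hY : PIrr Y) (x0 : κ → ℂˣ) [DecidableEq κ] :
    td ℂ Y ≤ td ℂ (mono (fun i : κ => (Pi.single i 1 : κ → ℤ)) (fun i => (x0 i)⁻¹) '' Y) := by
  obtain ⟨s, hs, hc⟩ := exists_basis' (k := ℂ) hY
  rw [← hc]
  apply Ind.ncard_le _ (hY.image (ratMap_mono Y _ _))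
  intro p hp
  have hq : aeval (fun i : s => C (((x0 i)⁻¹ : ℂˣ) : ℂ) * (MvPolynomial.X i : MvPolynomial s ℂ)) p = 0 := by
    apply hs
    intro x hx
    have h1 := hp _ ⟨x, hx, rfl⟩
    rw [← AlgHom.comp_apply, comp_aeval, ← h1]
    congr 2
    funext i
    rw [map_mul, aeval_C, aeval_X]
    show (((x0 i)⁻¹ : ℂˣ) : ℂ) * (x i : ℂ) = (((x0 i)⁻¹ * ch (Pi.single (i : κ) 1) x : ℂˣ) : ℂ)
    have h2 : ch (Pi.single (i : κ) 1) x = x i := by
      unfold ch
      rw [Finset.prod_eq_single (i : κ)]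
      · rw [Pi.single_eq_same, zpow_one]
      · intro j _ hj
        rw [Pi.single_eq_of_ne hj, zpow_zero]
      · intro h
        exact absurd (Finset.mem_univ _) h
    rw [h2, Units.val_mul]
  have h3 := congrArg (aeval (fun i : s => C ((x0 i : ℂˣ) : ℂ) * (MvPolynomial.X i : MvPolynomial s ℂ))) hq
  rw [← AlgHom.comp_apply, comp_aeval, map_zero] at h3
  rw [← h3]
  have h4 : (fun i : s => aeval (fun i : s => C ((x0 i : ℂˣ) : ℂ) * (MvPolynomial.X i : MvPolynomial s ℂ))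
      (C (((x0 i)⁻¹ : ℂˣ) : ℂ) * (MvPolynomial.X i : MvPolynomial s ℂ))) = MvPolynomial.X := by
    funext i
    rw [map_mul, aeval_C, aeval_X, ← C_eq_algebraMap, ← mul_assoc, ← C_mul, Units.inv_mul, C_1, one_mul]
  rw [h4, aeval_X_left_apply]

/-- Row Z9-T3a. The uniform Ax inequality for a generic sequence. PROOF. As in `ZPA.nd_main` (ZPA/D1.lean): `fibre` with
`k = acl ∅` gives `Q, D, l`; `l ∉ vI Y`, so eventually `l ∉ vI (X n)` (`GenS.gen` for `zl (acl ∅) {l}`); pigeonhole (`b3_pigeon`) for `td` and `ar`;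
`uax` with `I n = vI (X n)`, `A n = Alat (X n)`, `d1_mem`; `td (acl ∅) = td ℂ` for sets closed over `acl ∅` (`td_cl_eq`). -/
theorem GenS.ax {Y : Set (κ → ℂˣ)} {X : ℕ → Set (κ → ℂˣ)} (h : GenS (acl (∅ : Set ℂ)) Y X) {U : Ultrafilter ℕ}
    (hU : (U : Filter ℕ) ≤ cofinite) {Γ : Submodule ℤ (κ → ℤ)}
    (hΓ : ∀ v, v ∈ Γ ↔ ∀ᶠ n in (U : Filter ℕ), v ∈ Alat (X n)) {r : ℕ} (b : Fin r → κ → ℤ) (hb : ∀ j, b j ∈ Γ) :
    ∀ᶠ n in (U : Filter ℕ), ar (X n) + td ℂ (X n) + td (acl (∅ : Set ℂ)) (phi b '' Y) ≤ td ℂ Y + Module.finrank ℤ Γ := by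
  classical
  have hac := isAlgClosed_acl (∅ : Set ℂ)
  obtain ⟨Q, D, l, hQ, hl, hUA⟩ := fibre (k := acl (∅ : Set ℂ)) h.irr.pirr b
  have hlX : ∀ᶠ n in (U : Filter ℕ), l ∉ vI (acl (∅ : Set ℂ)) (X n) := by
    have h1 := h.gen (zl (acl (∅ : Set ℂ)) {l}) (cl_zl _) (by
      intro h2
      apply hl
      rw [mem_vI]
      intro x hx
      exact mem_zl.1 (h2 hx) l rfl)
    filter_upwards [hU h1] with n hn h3
    apply hn
    intro x hx
    rw [mem_zl]
    intro q hq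
    rw [Set.mem_singleton_iff.1 hq]
    exact mem_vI.1 h3 x hx
  obtain ⟨z, hz⟩ := b3_pigeon U (fun n => (⟨td ℂ (X n), Nat.lt_succ_of_le
    (td_le_card (k := ℂ) (h.xirr n).pirr)⟩ : Fin (Nat.card κ + 1)))
  have har : ∀ n, ar (X n) ≤ Fintype.card κ := by
    intro n
    have h1 := Submodule.finrank_le (Alat (X n))
    rwa [Module.finrank_fintype_fun_eq_card] at h1
  obtain ⟨a, ha⟩ := b3_pigeon U (fun n => (⟨ar (X n), Nat.lt_succ_of_le (har n)⟩ :
    Fin (Fintype.card κ + 1)))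
  have hbU : ∀ᶠ n in (U : Filter ℕ), ∀ j, b j ∈ Alat (X n) := by
    rw [Filter.eventually_all]
    exact fun j => (hΓ _).1 (hb j)
  have hUA' : ∀ᶠ n in (U : Filter ℕ), ∀ j, UA D Q j (vI (acl (∅ : Set ℂ)) (X n)) := by
    filter_upwards [hlX, hbU] with n h1 h2
    refine hUA (X n) (h.sub n) (h.xirr n).pirr h1 ?_
    intro j
    obtain ⟨c, hc0, hc⟩ := h2 j
    refine ⟨⟨c, hc0⟩, fun x hx => ?_⟩
    rw [hc x hx]
    rfl
  have htd : ∀ n, td (acl (∅ : Set ℂ)) (X n) = td ℂ (X n) := by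
    intro n
    rw [← td_cl_eq (h.xirr n).pirr, h.xcl n]
  have hfin := uax U (fun n => vI (acl (∅ : Set ℂ)) (X n)) (fun n => vI_isPrime (h.xirr n).pirr)
    (fun n j => X_not_mem_vI (h.xirr n).nonempty j) (fun n => Alat (X n))
    (fun n m => d1_mem (h.xirr n).nonempty m) z a (by
      filter_upwards [hz] with n hn
      have h1 : td ℂ (X n) = z := congrArg Fin.val hn
      rw [← h1, ← htd n]
      rfl) (by
      filter_upwards [ha] with n hn
      exact congrArg Fin.val hn) Γ hΓ Q D hUA'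
  have htY : td (acl (∅ : Set ℂ)) Y = td ℂ Y := by
    rw [← td_cl_eq h.irr.pirr, h.cly]
  filter_upwards [hz, ha] with n hn1 hn2
  have h1 : td ℂ (X n) = z := congrArg Fin.val hn1
  have h2 : ar (X n) = a := congrArg Fin.val hn2
  omega

/-- Row Z9-T3b. Characters constant on `X`. PROOF. Translate `X` by the inverse of a point of it (`td` does not change or
does not decrease; the characters are then `1` on the translate) and use `cd_le_card`. -/
theorem const_le {X : Set (κ → ℂˣ)} (hX : PIrr X) (G : Submodule ℤ (κ → ℤ))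
    (hG : ∀ v ∈ G, ∃ c : ℂˣ, ∀ x ∈ X, ch v x = c) : Module.finrank ℤ G + td ℂ X ≤ Fintype.card κ := by
  classical
  obtain ⟨x0, hx0⟩ := hX.nonempty
  have h1 := k9t3_td hX x0
  have h2 := cd_le_card (hX.image (ratMap_mono X (fun i : κ => (Pi.single i 1 : κ → ℤ)) (fun i => (x0 i)⁻¹)))
  have h3 : G ≤ Lam (mono (fun i : κ => (Pi.single i 1 : κ → ℤ)) (fun i => (x0 i)⁻¹) '' X) := by
    intro v hv
    obtain ⟨c, hc⟩ := hG v hv
    refine ⟨1, one_pos, ?_⟩
    rintro _ ⟨x, hx, rfl⟩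
    have h4 : mono (fun i : κ => (Pi.single i 1 : κ → ℤ)) (fun i => (x0 i)⁻¹) x = fun i => (x0 i)⁻¹ * x i := by
      funext i
      show (x0 i)⁻¹ * ch (Pi.single i 1) x = _
      congr 1
      unfold ch
      rw [Finset.prod_eq_single i]
      · rw [Pi.single_eq_same, zpow_one]
      · intro j _ hj
        rw [Pi.single_eq_of_ne hj, zpow_zero]
      · intro h
        exact absurd (Finset.mem_univ _) h
    rw [h4, pow_one]
    have h5 : ch v (fun i => (x0 i)⁻¹ * x i) = (ch v x0)⁻¹ * ch v x := by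
      unfold ch
      rw [← Finset.prod_inv_distrib, ← Finset.prod_mul_distrib]
      exact Finset.prod_congr rfl fun i _ => by rw [mul_zpow, inv_zpow]
    rw [h5, hc x hx, hc x0 hx0, inv_mul_cancel]
  have h6 := Submodule.finrank_mono h3
  unfold cd rk at h2
  omega

end Pool.Agent.Z9
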