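import Pool.Agent.Z9.T0

open MvPolynomial Pool.Agent.MP_dd1803_nt Pool.Agent.ZPA Pool.Agent.ZL2

namespace Pool.Agent.Z9

open Filter Topology

variable {κ : Type} [Fintype κ]

/-- Row Z9-T4a. PROOF. `acl A` is algebraic over the countable field `ℚ(A)`. -/
theorem countable_acl {A : Set ℂ} (hA : A.Finite) : Countable (acl A) := by
  have hc : Countable (IntermediateField.adjoin ℚ A) := by
    rw [← Cardinal.mk_le_aleph0_iff]
    refine (IntermediateField.cardinalMk_adjoin_le ℚ A).trans ?_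
    refine sup_le (sup_le (Cardinal.mk_le_aleph0_iff.2 inferInstance) ?_) le_rfl
    exact Cardinal.mk_le_aleph0_iff.2 hA.countable.to_subtype
  have h1 : {x : ℂ | IsAlgebraic (IntermediateField.adjoin ℚ A) x}.Countable :=
    Algebraic.countable (IntermediateField.adjoin ℚ A) ℂ
  have h2 : ((acl A : IntermediateField ℚ ℂ) : Set ℂ).Countable :=
    h1.mono fun x hx => mem_acl.1 hx
  exact h2.to_subtype

/-- Row Z9-T4b. Generic sequences. PROOF. As `exists_gn` (Z9/G0.lean) with `acl A` in place of `acl ∅` and sets in place of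
points. -/
theorem exists_gens {A : Set ℂ} (hA : A.Finite) {Y : Set (κ → ℂˣ)} (hY : Irr Y) (hYA : cl (acl A) Y = Y)
    {S : Set (Set (κ → ℂˣ))} (hS : ∀ X ∈ S, Irr X ∧ cl (acl A) X = X ∧ X ⊆ Y)
    (hd : ∀ Z, ZClosed Z → (∀ X ∈ S, X ⊆ Z) → Y ⊆ Z) :
    ∃ X : ℕ → Set (κ → ℂˣ), GenS (acl A) Y X ∧ ∀ n, X n ∈ S := by
  classical
  have hc : Countable (acl A) := countable_acl hA
  let J : Type := {g : MvPolynomial κ (acl A) // g ∉ vI (acl A) Y}
  have hP := vI_isPrime (k := acl A) hY.pirr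
  have hJ : Nonempty J := ⟨⟨1, fun h => hP.ne_top ((Ideal.eq_top_iff_one _).2 h)⟩⟩
  have hM : Countable (MvPolynomial κ (acl A)) := by
    rw [← Cardinal.mk_le_aleph0_iff]
    refine MvPolynomial.cardinalMk_le_max.trans ?_
    exact max_le (max_le (Cardinal.mk_le_aleph0_iff.2 hc) (Cardinal.mk_le_aleph0_iff.2 inferInstance)) le_rfl
  have hJc : Countable J := Subtype.countable
  obtain ⟨g, hg⟩ := exists_surjective_nat J
  have hex : ∀ n : ℕ, ∃ X ∈ S, ∀ i ≤ n, (g i).1 ∉ vI (acl A) X := by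
    intro n
    by_contra hcon
    push Not at hcon
    have h1 : ∀ X ∈ S, X ⊆ zl (acl A) {∏ i ∈ Finset.range (n + 1), (g i).1} := by
      intro X hX x hx q hq
      rw [Set.mem_singleton_iff.1 hq, map_prod]
      obtain ⟨i, hi, h2⟩ := hcon X hX
      exact Finset.prod_eq_zero (Finset.mem_range.2 (by omega)) (mem_vI.1 h2 x hx)
    have h3 := hd _ (zclosed_zl _) h1
    have h4 : ∏ i ∈ Finset.range (n + 1), (g i).1 ∈ vI (acl A) Y :=
      mem_vI.2 fun x hx => h3 hx _ rfl
    rw [Ideal.IsPrime.prod_mem_iff] at h4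
    obtain ⟨i, _, hi⟩ := h4
    exact (g i).2 hi
  choose X hXS hXg using hex
  refine ⟨X, ⟨hY, hYA, fun n => (hS _ (hXS n)).1, fun n => (hS _ (hXS n)).2.1, fun n => (hS _ (hXS n)).2.2, ?_⟩,
    hXS⟩
  intro Z hZa hVZ
  rw [← hZa] at hVZ
  unfold MP_dd1803_nt.cl at hVZ
  rw [subset_zl_iff, Set.not_subset] at hVZ
  obtain ⟨q, hq, hqV⟩ := hVZ
  obtain ⟨i, hi⟩ := hg (⟨q, hqV⟩ : J)
  rw [Nat.cofinite_eq_atTop]
  filter_upwards [eventually_ge_atTop i] with n hn h0
  apply hXg n i hn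
  rw [hi]
  rw [SetLike.mem_coe] at hq
  exact mem_vI.2 fun x hx => mem_vI.1 hq x (h0 hx)

/-- A point with coordinates in `acl A`. -/
theorem k9t4_pt {A : Set ℂ} {X : Set (κ → ℂˣ)} (hX : Irr X) (hcl : cl (acl A) X = X) :
    ∃ w ∈ X, ∀ i, (w i : ℂ) ∈ acl A := by
  classical
  have hac : IsAlgClosed (acl A) := isAlgClosed_acl _
  have hpr : (vI (acl A) X).IsPrime := vI_isPrime hX.pirr
  have h1 := vI_zl (F := acl A) (k := acl A) (vI (acl A) X)
    (fun i => X_not_mem_vI hX.nonempty i)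
  obtain ⟨z, hz⟩ : (zl (F := acl A) (acl A)
      (vI (acl A) X : Set (MvPolynomial κ (acl A)))).Nonempty := by
    by_contra hne
    rw [Set.not_nonempty_iff_eq_empty] at hne
    rw [hne] at h1
    apply hpr.ne_top
    rw [← h1, Ideal.eq_top_iff_one, mem_vI]
    intro x hx
    exact absurd hx (Set.notMem_empty x)
  refine ⟨fun i => Units.map (algebraMap (acl A) ℂ : acl A →* ℂ) (z i), ?_, fun i => ?_⟩
  · rw [← hcl]
    intro p hp
    have h2 := hz p hp
    have h3 : (co fun i => Units.map (algebraMap (acl A) ℂ : acl A →* ℂ) (z i)) =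
        fun i => algebraMap (acl A) ℂ (co z i) := by
      funext i
      rfl
    have h4 : aeval (fun i => algebraMap (acl A) ℂ (co z i)) p =
        algebraMap (acl A) ℂ (aeval (co z) p) :=
      MvPolynomial.aeval_algebraMap_apply ℂ (co z) p
    rw [h3, h4, h2, map_zero]
  · exact ((z i : acl A)).2

/-- Row Z9-T4c. The closure over `acl A` of a constant projection. PROOF. `X` has a point with coordinates in `acl A` (it is
closed over the algebraically closed field `acl A`: Nullstellensatz; compare the lemmas used for `tors_pt`, Z8/G4.lean, and `k8g4f_cl`). -/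
theorem point_cl {A : Set ℂ} {κ' : Type} [Fintype κ'] {X : Set (κ → ℂˣ)} (hX : Irr X) (hXA : cl (acl A) X = X)
    (e : κ' → κ) {y : κ' → ℂˣ} (hy : ∀ p ∈ X, pull e p = y) : cl (acl A) ({y} : Set (κ' → ℂˣ)) = {y} := by
  obtain ⟨w, hw, hwA⟩ := k9t4_pt hX hXA
  have hyA : ∀ i, (y i : ℂ) ∈ acl A := by
    intro i
    rw [← hy w hw]
    exact hwA (e i)
  refine Set.Subset.antisymm ?_ (subset_cl _)
  intro x hx
  rw [Set.mem_singleton_iff]
  funext i
  apply Units.ext
  have h1 : (MvPolynomial.X i - MvPolynomial.C ⟨(y i : ℂ), hyA i⟩ : MvPolynomial κ' (acl A)) ∈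
      vI (acl A) ({y} : Set (κ' → ℂˣ)) := by
    rw [mem_vI]
    intro p hp
    rw [Set.mem_singleton_iff.1 hp, map_sub, aeval_X, aeval_C]
    exact sub_self _
  have h2 := hx _ h1
  rw [map_sub, aeval_X, aeval_C] at h2
  exact sub_eq_zero.1 h2

end Pool.Agent.Z9
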