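import Pool.Agent.Z9.T0

open MvPolynomial Pool.Agent.MP_dd1803_nt Pool.Agent.ZPA Pool.Agent.ZL2

namespace Pool.Agent.Z9

open Filter Topology

variable {k m : ℕ}

/-- The characters of `G_m^m` as characters of `G_m^k × G_m^m`. -/
def yv (v : Fin m → ℤ) : Fin k ⊕ Fin m → ℤ := Sum.elim 0 v

theorem k9t5_basis {n : ℕ} (K : Submodule ℤ (Fin n → ℤ)) : ∃ b : Fin (Module.finrank ℤ K) → Fin n → ℤ,
    (∀ i, b i ∈ K) ∧ LinearIndependent ℤ b ∧ ∀ v ∈ K, v ∈ Submodule.span ℤ (Set.range b) := by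
  classical
  let B := Module.finBasis ℤ K
  refine ⟨fun i => (B i : Fin n → ℤ), fun i => (B i).2, ?_, fun v hv => ?_⟩
  · exact B.linearIndependent.map' K.subtype (Submodule.ker_subtype K)
  · have h1 : (⟨v, hv⟩ : K) ∈ Submodule.span ℤ (Set.range B) := by
      rw [B.span_eq]
      exact Submodule.mem_top
    have h2 := Submodule.mem_map_of_mem (f := K.subtype) h1
    rw [Submodule.map_span, ← Set.range_comp] at h2
    exact h2

/-- Row Z9-T5a. A basis of `Γ` adapted to the projection. PROOF. Submodules of `ℤ^n` are free of finite rank. `b` basis of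
`{v | yv v ∈ Γ}`; the image of `Γ` in `ℤ^k` is free: lift a basis of it to `a`. -/
theorem exists_adapted (Γ : Submodule ℤ (Fin k ⊕ Fin m → ℤ)) :
    ∃ (r s : ℕ) (a : Fin r → Fin k ⊕ Fin m → ℤ) (b : Fin s → Fin m → ℤ), r + s = Module.finrank ℤ Γ ∧ r ≤ k ∧
      (∀ j, a j ∈ Γ) ∧ (∀ i, (yv (b i) : Fin k ⊕ Fin m → ℤ) ∈ Γ) ∧ LinearIndependent ℤ (fun j i => a j (Sum.inl i)) ∧
      LinearIndependent ℤ b ∧ ∀ v : Fin m → ℤ, (yv v : Fin k ⊕ Fin m → ℤ) ∈ Γ → v ∈ Submodule.span ℤ (Set.range b) := by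
  classical
  let π : Γ →ₗ[ℤ] (Fin k → ℤ) := (LinearMap.funLeft ℤ ℤ (Sum.inl : Fin k → Fin k ⊕ Fin m)).comp Γ.subtype
  let K : Submodule ℤ (Fin m → ℤ) := Γ.comap (inrM : (Fin m → ℤ) →ₗ[ℤ] (Fin k ⊕ Fin m → ℤ))
  obtain ⟨b, hbK, hbl, hbs⟩ := k9t5_basis K
  obtain ⟨c, hcR, hcl, -⟩ := k9t5_basis (LinearMap.range π)
  choose a ha using hcR
  have hae : (fun j i => (a j : Fin k ⊕ Fin m → ℤ) (Sum.inl i)) = c := by
    funext j i
    exact congrFun (ha j) i
  have h1 := (LinearMap.ker π).finrank_quotient_add_finrank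
  rw [π.quotKerEquivRange.finrank_eq] at h1
  have h2 : Module.finrank ℤ (LinearMap.ker π) = Module.finrank ℤ K := by
    let f : K →ₗ[ℤ] Γ := ((inrM : (Fin m → ℤ) →ₗ[ℤ] (Fin k ⊕ Fin m → ℤ)).comp K.subtype).codRestrict Γ (fun v => v.2)
    let g : K →ₗ[ℤ] LinearMap.ker π := f.codRestrict _ (by
      intro v
      rw [LinearMap.mem_ker]
      funext j
      rfl)
    have hg : Function.Bijective g := by
      constructor
      · rw [injective_iff_map_eq_zero]
        intro v hv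
        have h3 : (inrM (v : Fin m → ℤ) : Fin k ⊕ Fin m → ℤ) = 0 :=
          congrArg (fun z : LinearMap.ker π => ((z : Γ) : Fin k ⊕ Fin m → ℤ)) hv
        apply Subtype.ext
        funext i
        exact congrFun h3 (Sum.inr i)
      · rintro ⟨⟨w, hw⟩, hk⟩
        have h4 : ∀ j, w (Sum.inl j) = 0 := fun j => congrFun (LinearMap.mem_ker.1 hk) j
        have h5 : (inrM (fun i => w (Sum.inr i)) : Fin k ⊕ Fin m → ℤ) = w := by
          funext l
          rcases l with j | i
          · exact (h4 j).symm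
          · rfl
        refine ⟨⟨fun i => w (Sum.inr i), ?_⟩, ?_⟩
        · show (inrM (fun i => w (Sum.inr i)) : Fin k ⊕ Fin m → ℤ) ∈ Γ
          rw [h5]
          exact hw
        · apply Subtype.ext
          apply Subtype.ext
          exact h5
    exact (LinearEquiv.ofBijective g hg).finrank_eq.symm
  refine ⟨_, _, fun j => (a j : Fin k ⊕ Fin m → ℤ), b, by rw [← h1, h2], ?_, fun j => (a j).2, hbK, ?_, hbl, hbs⟩
  · refine (Submodule.finrank_le _).trans ?_
    rw [Module.finrank_fin_fun]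
  · rw [hae]
    exact hcl

/-- The map to `G_m^r × G_m^s` given by `a`, `b`. -/
noncomputable def psi {r s : ℕ} (a : Fin r → Fin k ⊕ Fin m → ℤ) (b : Fin s → Fin m → ℤ) (p : Fin k ⊕ Fin m → ℂˣ) :
    Fin r ⊕ Fin s → ℂˣ := Sum.elim (fun j => ch (a j) p) (fun i => ch (b i) fun l => p (Sum.inr l))

theorem k9t5_td {K κ κ' : Type} [Field K] [Algebra K ℂ] [Finite κ] [Finite κ'] {X : Set (κ → ℂˣ)} (hX : PIrr X)
    (e : κ' → κ) : td K (pull e '' X) ≤ td K X := by
  obtain ⟨s, hs, hc⟩ := exists_basis' (k := K) (hX.pull e)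
  rw [ind_iff_indF] at hs
  have h1 : IndF K X (fun i : s => e i.1) := by
    intro p hp
    refine hs p fun x hx => ?_
    obtain ⟨z, hz, rfl⟩ := hx
    exact hp z hz
  have h2 := h1.card_le hX
  rw [Nat.card_coe_set_eq, hc] at h2
  exact h2

theorem k9t5_pull {κ κ' : Type} (e : κ' ≃ κ) (X : Set (κ → ℂˣ)) : pull e.symm '' (pull e '' X) = X := by
  rw [Set.image_image]
  have h1 : (fun x : κ → ℂˣ => pull e.symm (pull e x)) = id := by
    funext x i
    show x (e (e.symm i)) = x i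
    rw [e.apply_symm_apply]
  rw [h1, Set.image_id]

theorem k9t5_tde {K κ κ' : Type} [Field K] [Algebra K ℂ] [Finite κ] [Finite κ'] {X : Set (κ → ℂˣ)} (hX : PIrr X)
    (e : κ' ≃ κ) : td K (pull e '' X) = td K X := by
  refine le_antisymm (k9t5_td hX e) ?_
  have h1 := k9t5_td (K := K) (hX.pull e) e.symm
  rwa [k9t5_pull] at h1

theorem k9t5_rke {κ κ' : Type} [Fintype κ] [Fintype κ'] (X : Set (κ → ℂˣ)) (e : κ' ≃ κ) : rk (pull e '' X) = rk X := by
  refine le_antisymm (rk_pull_le e.injective) ?_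
  have h1 := rk_pull_le (X := pull e '' X) (e := e.symm) e.symm.injective
  rwa [k9t5_pull] at h1

/-- Row Z9-T5b. PROOF. `psi a b` = `phi` of the family `Fin.append a (yv ∘ b)` up to the bijection of indices
`Fin r ⊕ Fin s ≃ Fin (r + s)`; `d1_ratMap`, `PIrr.image`; `td` as in `k9g4_td` (over `acl ∅`; or `td_cl_eq` and `k9g4_td` for the closures). -/
theorem psi_facts {r s : ℕ} (a : Fin r → Fin k ⊕ Fin m → ℤ) (b : Fin s → Fin m → ℤ)
    (ha : LinearIndependent ℤ (fun j i => a j (Sum.inl i))) (hb : LinearIndependent ℤ b) {Y : Set (Fin k ⊕ Fin m → ℂˣ)}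
    (hY : PIrr Y) : ∃ c : Fin (r + s) → Fin k ⊕ Fin m → ℤ, LinearIndependent ℤ c ∧
      (∀ i, c i ∈ Set.range a ∪ Set.range fun i => (yv (b i) : Fin k ⊕ Fin m → ℤ)) ∧
      PIrr (psi a b '' Y) ∧ td (acl (∅ : Set ℂ)) (psi a b '' Y) = td (acl (∅ : Set ℂ)) (phi c '' Y) ∧
      rk (psi a b '' Y) = rk (phi c '' Y) ∧ rk (phi c '' Y) ≤ rk Y := by
  classical
  let e : Fin r ⊕ Fin s ≃ Fin (r + s) := finSumFinEquiv
  let c0 : Fin r ⊕ Fin s → Fin k ⊕ Fin m → ℤ := Sum.elim a (fun i => yv (b i))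
  let c : Fin (r + s) → Fin k ⊕ Fin m → ℤ := c0 ∘ e.symm
  have hc0 : LinearIndependent ℤ c0 := by
    rw [Fintype.linearIndependent_iff]
    intro g hg
    rw [Fintype.sum_sum_type] at hg
    have h1 : ∑ j, g (Sum.inl j) • (fun i => a j (Sum.inl i) : Fin k → ℤ) = 0 := by
      funext i
      have h2 := congrFun hg (Sum.inl i)
      simp only [Pi.add_apply, Finset.sum_apply, Pi.smul_apply, Pi.zero_apply] at h2
      have h3 : ∑ x, g (Sum.inr x) • c0 (Sum.inr x) (Sum.inl i) = 0 := Finset.sum_eq_zero fun x _ => by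
        show g (Sum.inr x) • (0 : ℤ) = 0
        rw [smul_zero]
      rw [h3, add_zero] at h2
      rw [Finset.sum_apply]
      exact h2
    have h4 := Fintype.linearIndependent_iff.1 ha _ h1
    have h5 : ∑ i, g (Sum.inr i) • b i = 0 := by
      funext l
      have h2 := congrFun hg (Sum.inr l)
      simp only [Pi.add_apply, Finset.sum_apply, Pi.smul_apply, Pi.zero_apply] at h2
      have h3 : ∑ x, g (Sum.inl x) • c0 (Sum.inl x) (Sum.inr l) = 0 := Finset.sum_eq_zero fun x _ => by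
        rw [h4 x, zero_smul]
      rw [h3, zero_add] at h2
      rw [Finset.sum_apply]
      exact h2
    have h6 := Fintype.linearIndependent_iff.1 hb _ h5
    rintro (j | i)
    · exact h4 j
    · exact h6 i
  have hc : LinearIndependent ℤ c := hc0.comp _ e.symm.injective
  have hpsi : psi a b '' Y = pull e '' (phi c '' Y) := by
    rw [Set.image_image]
    congr 1
    funext p j
    show psi a b p j = ch (c (e j)) p
    have h1 : c (e j) = c0 j := congrArg c0 (e.symm_apply_apply j)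
    rw [h1]
    rcases j with j | i
    · rfl
    · exact (ch_inrM (b i) p).symm
  have hphi : PIrr (phi c '' Y) := hY.image (d1_ratMap _ _)
  refine ⟨c, hc, fun i => ?_, ?_, ?_, ?_, ?_⟩
  · show c0 (e.symm i) ∈ _
    rcases e.symm i with j | j
    · exact Or.inl ⟨j, rfl⟩
    · exact Or.inr ⟨j, rfl⟩
  · rw [hpsi]
    exact hphi.pull _
  · rw [hpsi]
    exact k9t5_tde hphi e
  · rw [hpsi]
    exact k9t5_rke _ e
  · let f : Lam (phi c '' Y) →ₗ[ℤ] Lam Y := ((Fintype.linearCombination ℤ c).comp (Lam (phi c '' Y)).subtype).codRestrict _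
      (by
        rintro ⟨w, N, hN, hw⟩
        refine ⟨N, hN, fun x hx => ?_⟩
        have h1 := hw (phi c x) ⟨x, hx, rfl⟩
        rw [d1_ch] at h1
        exact h1)
    refine LinearMap.finrank_le_finrank_of_injective (f := f) ?_
    rw [injective_iff_map_eq_zero]
    intro w hw
    have h1 : ∑ i, (w : Fin (r + s) → ℤ) i • c i = 0 := congrArg Subtype.val hw
    apply Subtype.ext
    funext i
    exact Fintype.linearIndependent_iff.1 hc _ h1 i

end Pool.Agent.Z9
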