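import Pool.Agent.Z9.T0
import Pool.Agent.ZPB.W6

open MvPolynomial Pool.Agent.MP_dd1803_nt Pool.Agent.ZPA Pool.Agent.ZL2

namespace Pool.Agent.Z9

open Filter Topology
open Pool.Agent.Z8 (Cyl)

/-- Row Z9-T6a. Algebraic rank at most one. PROOF. `maxP_all` with `maxP_base 1`, `ndk_zero`, `ndk_one` (as in `finite_arank`, ZPA/H1.lean):
`MaxP (acl ∅) (fun Z => ar Z ≤ rk Z + 1) e V` is finite; an `X ∈ MaxE e V` with `ar X ≤ rk X + 1` belongs to it (`Alat_cl`, `rk_cl`). So some `X0` is equal to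
`X n` for infinitely many `n`; `GenS.gen` with `Z = X0` gives `Y ⊆ X0`. -/
theorem gens_arank {κ : Type} [Fintype κ] {A : Set ℂ} {V Y : Set (κ → ℂˣ)} {X : ℕ → Set (κ → ℂˣ)} (hV : ZClosed V)
    (hg : GenS (acl A) Y X) {e : ℕ} (hX : ∀ n, X n ∈ MaxE e V) (hinf : {n | ar (X n) ≤ rk (X n) + 1}.Infinite) :
    ∃ n, X n = Y := by
  classical
  have hfin : (MaxP (acl (∅ : Set ℂ)) (fun Z => ar Z ≤ rk Z + 1) e V).Finite :=
    maxP_all (fun Z => ar Z ≤ rk Z + 1) (fun V hV e => maxP_base 1 (by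
      intro s' hs'
      interval_cases s'
      · exact ndk_zero
      · exact Pool.Agent.ZPB.ndk_one) V hV e) hV e
  have hmem : ∀ n, ar (X n) ≤ rk (X n) + 1 → X n ∈ MaxP (acl (∅ : Set ℂ)) (fun Z => ar Z ≤ rk Z + 1) e V := by
    intro n hn
    have hX' := hX n
    have hirr := MaxE.irr hX'
    unfold MaxP
    rw [Set.mem_ofPred_eq]
    refine ⟨⟨hirr, MaxE.subset hX', MaxE.lt hX', ?_⟩, ?_⟩
    · show ar (cl (acl (∅ : Set ℂ)) (X n)) ≤ rk (cl (acl (∅ : Set ℂ)) (X n)) + 1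
      unfold ar at *
      rw [Alat_cl, rk_cl]
      exact hn
    · rintro Z ⟨hZ, hZV, hlt, _⟩ hXZ
      exact (MaxE.eq hX' hZ hZV hlt hXZ).ge
  obtain ⟨X0, hX0⟩ : ∃ X0, {n | X n = X0}.Infinite := by
    by_contra hcon
    push Not at hcon
    apply hinf
    refine (hfin.biUnion (t := fun X0 => {n | X n = X0}) fun X0 _ => hcon X0).subset ?_
    intro n hn
    exact Set.mem_biUnion (x := X n) (hmem n hn) rfl
  obtain ⟨n, hn⟩ := hX0.nonempty
  have hn' : X n = X0 := hn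
  refine ⟨n, Set.Subset.antisymm (hg.sub n) ?_⟩
  rw [hn']
  by_contra hcon
  have h1 := hg.gen X0 (by
    rw [← hn']
    exact hg.xcl n) hcon
  apply hX0
  refine (Filter.eventually_cofinite.1 h1).subset ?_
  intro l hl h2
  have hl' : X l = X0 := hl
  exact h2 hl'.le

end Pool.Agent.Z9
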