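import Pool.Agent.Z9.T3
import Pool.Agent.Z9.T5

open MvPolynomial Pool.Agent.MP_dd1803_nt Pool.Agent.ZPA Pool.Agent.ZL2

namespace Pool.Agent.Z9

open Filter Topology
open Pool.Agent.Z8 (Cyl)

variable {k m : ℕ} [NeZero m] {C : Set (Fin m → ℂˣ)}

omit [NeZero m] in
/-- Proper closed subsets of a curve are finite. -/
theorem k9t6b_fin {κ : Type} [Fintype κ] {D Z : Set (κ → ℂˣ)} (hD : Irr D) (hd : td ℂ D = 1) (hZ : ZClosed Z)
    (h : ¬ D ⊆ Z) : (D ∩ Z).Finite := by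
  have hcl : ZClosed (D ∩ Z) := hD.closed.inter hZ
  have h1 : (⋃ Y ∈ {Y | Comp (D ∩ Z) Y}, Y).Finite := by
    refine (finite_comp hcl).biUnion ?_
    intro Y hY
    have hY' : Comp (D ∩ Z) Y := hY
    have h2 : Y ⊂ D := ⟨hY'.subset.trans Set.inter_subset_left,
      fun h3 => h (h3.trans (hY'.subset.trans Set.inter_subset_right))⟩
    have h3 := td_lt hY'.irr hD h2
    obtain ⟨y, hy⟩ := hY'.irr.nonempty
    have h4 : ({y} : Set (κ → ℂˣ)) = Y := eq_of_td_le (irr_singleton y) hY'.irr (Set.singleton_subset_iff.2 hy) (by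
      have h5 : td ℂ Y = 0 := by omega
      rw [h5]
      exact Nat.zero_le _)
    rw [← h4]
    exact Set.finite_singleton y
  refine h1.subset ?_
  intro x hx
  obtain ⟨Y, hY, hxY⟩ := exists_comp_mem hcl hx
  exact Set.mem_biUnion (x := Y) hY hxY

/-- If the `y`-part is not constant then no character of `G_m^m` is constant. -/
theorem k9t6b_zero (h : HCx C) {X : Set (Fin k ⊕ Fin m → ℂˣ)} (hX : Irr X)
    (hXC : ∀ p ∈ X, (fun i => p (Sum.inr i)) ∈ C)
    (hy : ¬ ∃ y0 : Fin m → ℂˣ, ∀ p ∈ X, ∀ i, p (Sum.inr i) = y0 i) {v : Fin m → ℤ} {c : ℂˣ}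
    (hc : ∀ x ∈ X, ch (inrM v : Fin k ⊕ Fin m → ℤ) x = c) : v = 0 := by
  have hI : Irr (cl ℂ (pull (Sum.inr : Fin m → Fin k ⊕ Fin m) '' X)) := (hX.pirr.pull _).cl
  have hsub : cl ℂ (pull (Sum.inr : Fin m → Fin k ⊕ Fin m) '' X) ⊆ C := by
    refine cl_subset ?_ h.irr.closed
    rintro _ ⟨p, hp, rfl⟩
    exact hXC p hp
  have hC : C ⊆ cl ℂ (pull (Sum.inr : Fin m → Fin k ⊕ Fin m) '' X) := by
    by_contra hcon
    have hfin := k9t6b_fin h.irr h.dim hI.closed hcon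
    have hfin2 : (cl ℂ (pull (Sum.inr : Fin m → Fin k ⊕ Fin m) '' X)).Finite := by
      rw [Set.inter_eq_right.2 hsub] at hfin
      exact hfin
    obtain ⟨y, hyy, hXy⟩ := k9g6_fin hfin2 hX (by
      intro p hp
      exact subset_cl _ ⟨p, hp, rfl⟩)
    exact hy ⟨y, fun p hp i => congrFun (hXy hp : (fun i => p (Sum.inr i)) = y) i⟩
  by_contra hv
  apply h.nc v hv c
  intro y hyC
  have h1 : cl ℂ (pull (Sum.inr : Fin m → Fin k ⊕ Fin m) '' X) ⊆ {y | ch v y = c} := by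
    refine cl_subset ?_ (zclosed_ch _ _)
    rintro _ ⟨p, hp, rfl⟩
    have h2 := hc p hp
    rw [ch_inrM] at h2
    exact h2
  exact h1 (hC hyC)

/-- Row Z9-T6b. Subvarieties which are not in a fibre. PROOF. `Alat X` has no nonzero element of the form `yv v` (the `y`-part of
`X` is dense in `C`: `eq_of_td_le`, as in `k9g4_zero`, Z9/G4.lean, and `nc`). Choose a point of `X` and a component `X'` of `X ∩ {y_0 = const}` (`krull`, as in `k9g6_krull`,
Z9/G6.lean): `td X ≤ td X' + 1` and `X'` lies in a fibre `{y = y1}` (the fibres of the first coordinate on `C` are finite). `const_le` for `X'` and `Alat X ⊔ range yv` of rank `ar X + m`: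
`ar X + td X' ≤ k`. With `k + 1 ≤ rk X + td X`: `ar X ≤ rk X`. -/
theorem ar_le_dom (h : HCx C) {X : Set (Fin k ⊕ Fin m → ℂˣ)} (hX : Irr X) (hXC : ∀ p ∈ X, (fun i => p (Sum.inr i)) ∈ C)
    (hy : ¬ ∃ y0 : Fin m → ℂˣ, ∀ p ∈ X, ∀ i, p (Sum.inr i) = y0 i) (hcd : k + 1 ≤ cd X) : ar X ≤ rk X := by
  classical
  obtain ⟨p, hp⟩ := hX.nonempty
  -- a component of the section
  have hcl : ZClosed (X ∩ zp (MvPolynomial.X (Sum.inr 0) - MvPolynomial.C ((p (Sum.inr 0) : ℂˣ) : ℂ))) :=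
    hX.closed.inter (zclosed_zp _)
  have hmem : ∀ x : Fin k ⊕ Fin m → ℂˣ,
      x ∈ zp (MvPolynomial.X (Sum.inr 0) - MvPolynomial.C ((p (Sum.inr 0) : ℂˣ) : ℂ)) ↔ x (Sum.inr 0) = p (Sum.inr 0) := by
    intro x
    rw [mem_zp, map_sub, aeval_X, aeval_C, sub_eq_zero]
    exact Units.val_inj
  obtain ⟨X', hX', hpX'⟩ := exists_comp_mem hcl (x := p) ⟨hp, (hmem p).2 rfl⟩
  have hkr := krull hX _ hX'
  have hsub : X' ⊆ X := hX'.subset.trans Set.inter_subset_left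
  have hzc : ZClosed {y : Fin m → ℂˣ | ch (Pi.single 0 1) y = p (Sum.inr 0)} := zclosed_ch _ _
  have hch : ∀ y : Fin m → ℂˣ, ch (Pi.single 0 1) y = y 0 := by
    intro y
    unfold ch
    rw [Finset.prod_eq_single 0, Pi.single_eq_same, zpow_one]
    · intro l _ hl
      rw [Pi.single_eq_of_ne hl, zpow_zero]
    · intro h0
      exact absurd (Finset.mem_univ _) h0
  have hfin : (C ∩ {y : Fin m → ℂˣ | ch (Pi.single 0 1) y = p (Sum.inr 0)}).Finite := by
    refine k9t6b_fin h.irr h.dim hzc fun hcon => ?_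
    refine h.nc (Pi.single 0 1) ?_ (p (Sum.inr 0)) fun y hyC => hcon hyC
    intro h0
    have := congrFun h0 0
    rw [Pi.single_eq_same, Pi.zero_apply] at this
    exact one_ne_zero this
  obtain ⟨y1, -, hXy⟩ := k9g6_fin hfin hX'.irr (by
    intro q hq
    refine ⟨hXC q (hsub hq), ?_⟩
    show ch (Pi.single 0 1) (fun i => q (Sum.inr i)) = p (Sum.inr 0)
    rw [hch]
    exact (hmem q).1 (hX'.subset hq).2)
  -- the lattice
  have hrange : Module.finrank ℤ (LinearMap.range (inrM : (Fin m → ℤ) →ₗ[ℤ] (Fin k ⊕ Fin m → ℤ))) = m := by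
    rw [LinearMap.finrank_range_of_inj, Module.finrank_fintype_fun_eq_card, Fintype.card_fin]
    intro a b hab
    funext i
    exact congrFun hab (Sum.inr i)
  have hinf : Alat X ⊓ LinearMap.range (inrM : (Fin m → ℤ) →ₗ[ℤ] (Fin k ⊕ Fin m → ℤ)) = ⊥ := by
    rw [eq_bot_iff]
    intro w hw
    obtain ⟨hw1, v, rfl⟩ := Submodule.mem_inf.1 hw
    obtain ⟨c, -, hc⟩ := hw1
    rw [k9t6b_zero h hX hXC hy hc, map_zero]
    exact Submodule.zero_mem _
  have hsum := f1_finrank (Alat X) (LinearMap.range (inrM : (Fin m → ℤ) →ₗ[ℤ] (Fin k ⊕ Fin m → ℤ)))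
  rw [hinf, finrank_bot, hrange] at hsum
  have hcl2 := const_le hX'.irr.pirr (Alat X ⊔ LinearMap.range (inrM : (Fin m → ℤ) →ₗ[ℤ] (Fin k ⊕ Fin m → ℤ))) (by
    intro w hw
    obtain ⟨a, ha, b, hb, rfl⟩ := Submodule.mem_sup.1 hw
    obtain ⟨c, -, hc⟩ := ha
    obtain ⟨v, rfl⟩ := hb
    refine ⟨c * ch v y1, fun x hx => ?_⟩
    have h1 : x ∘ Sum.inr = y1 := hXy hx
    rw [ch_add, hc x (hsub hx), ch_inrM, h1])
  rw [Fintype.card_sum, Fintype.card_fin, Fintype.card_fin] at hcl2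
  have h1 : cd X = rk X + td ℂ X := rfl
  have h2 : ar X = Module.finrank ℤ (Alat X) := rfl
  omega

end Pool.Agent.Z9
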