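import Pool.Agent.Z9.T3
import Pool.Agent.Z9.T5

open MvPolynomial Pool.Agent.MP_dd1803_nt Pool.Agent.ZPA Pool.Agent.ZL2

namespace Pool.Agent.Z9

open Filter Topology
open Pool.Agent.Z8 (Cyl)

variable {k m : ℕ} [NeZero m] {C : Set (Fin m → ℂˣ)}

/-- The linear map `yv`. -/
def k9t6c_L (k m : ℕ) : (Fin m → ℤ) →ₗ[ℤ] (Fin k ⊕ Fin m → ℤ) where
  toFun := yv
  map_add' u v := by
    funext i
    cases i <;> simp [yv]
  map_smul' n v := by
    funext i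
    cases i <;> simp [yv]

theorem k9t6c_inj (k m : ℕ) : Function.Injective (k9t6c_L k m) := by
  intro u v h
  funext i
  exact congrFun h (Sum.inr i)

theorem k9t6c_ch {k m : ℕ} (v : Fin m → ℤ) (p : Fin k ⊕ Fin m → ℂˣ) :
    ch (yv v : Fin k ⊕ Fin m → ℤ) p = ch v (p ∘ Sum.inr) := by
  rw [ch_sum]
  have h1 : (yv v : Fin k ⊕ Fin m → ℤ) ∘ Sum.inr = v := rfl
  have h2 : (yv v : Fin k ⊕ Fin m → ℤ) ∘ Sum.inl = 0 := rfl
  rw [h1, h2, ch_zero, one_mul]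

/-- Row Z9-T6c. Subvarieties of a fibre. PROOF. `const_le` for `X` and `Alat X ⊔ range yv`; the intersection of the two is
`yv` of `Alat {y0}`; ranks (`ZPA.f1_finrank`). -/
theorem ar_le_fib {X : Set (Fin k ⊕ Fin m → ℂˣ)} (hX : Irr X) {y0 : Fin m → ℂˣ}
    (hy : ∀ p ∈ X, ∀ i, p (Sum.inr i) = y0 i) : ar X + td ℂ X ≤ k + ar ({y0} : Set (Fin m → ℂˣ)) := by
  have hyy : ∀ p ∈ X, p ∘ Sum.inr = y0 := fun p hp => funext fun i => hy p hp i
  obtain ⟨p0, hp0⟩ := hX.2.1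
  have hB : ∀ v : Fin m → ℤ, ∀ p ∈ X, ch (yv v : Fin k ⊕ Fin m → ℤ) p = ch v y0 := by
    intro v p hp
    rw [k9t6c_ch, hyy p hp]
  have h1 := const_le hX.2 (Alat X ⊔ LinearMap.range (k9t6c_L k m)) (by
    intro w hw
    obtain ⟨a, ha, b, hb, rfl⟩ := Submodule.mem_sup.1 hw
    obtain ⟨c, _, hc⟩ := ha
    obtain ⟨v, rfl⟩ := hb
    refine ⟨c * ch v y0, fun p hp => ?_⟩
    rw [ch_add, hc p hp]
    congr 1
    exact hB v p hp)
  have h2 := f1_finrank (Alat X) (LinearMap.range (k9t6c_L k m))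
  have h3 : Module.finrank ℤ (LinearMap.range (k9t6c_L k m)) = m := by
    rw [LinearMap.finrank_range_of_inj (k9t6c_inj k m)]
    simp
  have h4 : Alat X ⊓ LinearMap.range (k9t6c_L k m) =
      Submodule.map (k9t6c_L k m) (Alat ({y0} : Set (Fin m → ℂˣ))) := by
    ext w
    constructor
    · rintro ⟨⟨c, hc, hw⟩, v, rfl⟩
      refine ⟨v, ⟨c, hc, fun x hx => ?_⟩, rfl⟩
      rw [Set.mem_singleton_iff.1 hx]
      have := hw p0 hp0
      rw [← this]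
      exact (hB v p0 hp0).symm
    · rintro ⟨v, ⟨c, hc, hv⟩, rfl⟩
      refine ⟨⟨c, hc, fun p hp => ?_⟩, v, rfl⟩
      rw [← hv y0 rfl]
      exact hB v p hp
  have h5 : Module.finrank ℤ (Alat X ⊓ LinearMap.range (k9t6c_L k m) : Submodule ℤ _) =
      ar ({y0} : Set (Fin m → ℂˣ)) := by
    rw [h4]
    exact (Submodule.equivMapOfInjective _ (k9t6c_inj k m) _).finrank_eq.symm
  have h6 : Fintype.card (Fin k ⊕ Fin m) = k + m := by simp
  have h7 : ar X = Module.finrank ℤ (Alat X) := rfl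
  rw [h3, h5] at h2
  rw [h6] at h1
  omega

end Pool.Agent.Z9
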