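import Pool.Agent.Z9.T1
import Pool.Agent.Z9.T2
import Pool.Agent.Z9.T3

open MvPolynomial Pool.Agent.MP_dd1803_nt Pool.Agent.ZPA Pool.Agent.ZL2

namespace Pool.Agent.Z9

open Filter Topology
open Pool.Agent.Z8 (Cyl)

variable {k m : ℕ} [NeZero m] {C : Set (Fin m → ℂˣ)}

omit [NeZero m] in
/-- A curve as in `HCx` has no relation. -/
theorem k9t6d_rk (h : HCx C) : rk C = 0 := by
  have h1 : Lam C = ⊥ := by
    rw [Submodule.eq_bot_iff]
    intro v hv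
    by_contra h0
    obtain ⟨c, -, hc⟩ := Lam_const h.irr.pirr hv
    exact h.nc v h0 c hc
  unfold rk
  rw [h1]
  exact finrank_bot ℤ _

/-- Row Z9-T6d. The limit lattice of a generic sequence of points of `C`. PROOF. `D = cl (acl ∅) C`, `Z n = cl (acl ∅) {y n}`.
`GenS.down`: `td D ≤ td (Z n) + 1` eventually (`rk C = 0` by `nc` and `Lam_const`, `td C = 1`, `td {y n} = 0`, `rk_cl`). `GenS.ax` for `D`, `Z n` (`Alat_cl`): `ar {y n} + td (acl ∅) (phi b '' D) ≤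
finrank Γ + 1` on `U` for all `b` in `Γ`. If `finrank Γ = 0` the first alternative. Otherwise take a nonzero `v ∈ Γ`: `ch v` is not constant on `C`, so `td (phi ![v] '' D) ≥ 1`
(`k9g4_point` for the closure) and `ar {y n} ≤ finrank Γ`; since `Γ` is finitely generated also `finrank Γ ≤ ar {y n}` eventually; so for independent `b` in `Γ`, `1 ≤ s`: `td (phi b '' D) ≤ 1`, and the closure of `phi b '' C` is
equal to the closure of `phi b '' D` over `acl ∅` (irreducible, `eq_of_td_le`, `td_cl_eq`, `t1_td` for `td = 1`). -/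
theorem curve_lim (h : HCx C) {A : Set ℂ} (hA : A.Finite) (hCA : cl (acl A) C = C) {y : ℕ → Fin m → ℂˣ}
    (hg : GenS (acl A) C (fun n => ({y n} : Set (Fin m → ℂˣ)))) {U : Ultrafilter ℕ} (hU : (U : Filter ℕ) ≤ cofinite)
    {Γ : Submodule ℤ (Fin m → ℤ)} (hΓ : ∀ v, v ∈ Γ ↔ ∀ᶠ n in (U : Filter ℕ), v ∈ Alat ({y n} : Set (Fin m → ℂˣ))) :
    (∀ᶠ n in (U : Filter ℕ), ar ({y n} : Set (Fin m → ℂˣ)) ≤ 1) ∨
      ((∀ᶠ n in (U : Filter ℕ), ar ({y n} : Set (Fin m → ℂˣ)) = Module.finrank ℤ Γ) ∧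
        ∀ {s : ℕ} (b : Fin s → Fin m → ℤ), LinearIndependent ℤ b → (∀ i, b i ∈ Γ) → 1 ≤ s →
          cl (acl (∅ : Set ℂ)) (cl ℂ (phi b '' C)) = cl ℂ (phi b '' C)) := by
  have hac : IsAlgClosed (acl (∅ : Set ℂ)) := isAlgClosed_acl _
  obtain ⟨hg0, hcd⟩ := hg.down hA
  have hrkC : rk C = 0 := k9t6d_rk h
  have hDi : Irr (cl (acl (∅ : Set ℂ)) C) := hg0.irr
  -- the dimensions
  have htd : ∀ᶠ n in (U : Filter ℕ), td ℂ (cl (acl (∅ : Set ℂ)) C) ≤
      td ℂ (cl (acl (∅ : Set ℂ)) ({y n} : Set (Fin m → ℂˣ))) + 1 := by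
    filter_upwards [hU hcd] with n hn
    unfold cd at hn
    rw [rk_cl, rk_cl, hrkC, h.dim, td_singleton'] at hn
    omega
  have hΓ' : ∀ v, v ∈ Γ ↔ ∀ᶠ n in (U : Filter ℕ), v ∈ Alat (cl (acl (∅ : Set ℂ)) ({y n} : Set (Fin m → ℂˣ))) := by
    intro v
    rw [hΓ]
    simp only [Alat_cl]
  have hax : ∀ {r : ℕ} (b : Fin r → Fin m → ℤ), (∀ j, b j ∈ Γ) → ∀ᶠ n in (U : Filter ℕ),
      ar ({y n} : Set (Fin m → ℂˣ)) + td (acl (∅ : Set ℂ)) (phi b '' cl (acl (∅ : Set ℂ)) C) ≤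
        Module.finrank ℤ Γ + 1 := by
    intro r b hb
    filter_upwards [hg0.ax hU hΓ' b hb, htd] with n hn1 hn2
    have h1 : ar (cl (acl (∅ : Set ℂ)) ({y n} : Set (Fin m → ℂˣ))) = ar ({y n} : Set (Fin m → ℂˣ)) := by
      unfold ar
      rw [Alat_cl]
    rw [h1] at hn1
    omega
  by_cases hr0 : Module.finrank ℤ Γ = 0
  · left
    filter_upwards [hax (fun i : Fin 0 => (0 : Fin m → ℤ)) (fun j => j.elim0)] with n hn
    omega
  right
  have hpt : ∀ {r : ℕ} (b : Fin r → Fin m → ℤ), PIrr (phi b '' cl (acl (∅ : Set ℂ)) C) := fun b =>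
    hDi.pirr.image (d1_ratMap _ b)
  have hle : ∀ᶠ n in (U : Filter ℕ), ar ({y n} : Set (Fin m → ℂˣ)) ≤ Module.finrank ℤ Γ := by
    obtain ⟨v, hv, hv0⟩ : ∃ v ∈ Γ, v ≠ 0 := by
      by_contra hcon
      push Not at hcon
      apply hr0
      have h1 : Γ = ⊥ := (Submodule.eq_bot_iff _).2 hcon
      rw [h1]
      exact finrank_bot ℤ _
    filter_upwards [hax ![v] (fun j => by rw [Subsingleton.elim j 0]; exact hv)] with n hn
    have h1 : 1 ≤ td (acl (∅ : Set ℂ)) (phi ![v] '' cl (acl (∅ : Set ℂ)) C) := by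
      rw [← td_cl_eq (F := ℂ) (hpt _)]
      obtain ⟨p, hp⟩ := h.irr.nonempty
      have h2 := h.nc v hv0 (ch v p)
      push Not at h2
      obtain ⟨q, hq, hqp⟩ := h2
      refine k9g4_point (irr_cl (hpt _)) (subset_cl _ ⟨p, subset_cl _ hp, rfl⟩)
        (subset_cl _ ⟨q, subset_cl _ hq, rfl⟩) fun h3 => hqp ?_
      exact (congrFun h3 0).symm
    omega
  have hge : ∀ᶠ n in (U : Filter ℕ), Module.finrank ℤ Γ ≤ ar ({y n} : Set (Fin m → ℂˣ)) := by
    have h1 : ∀ᶠ n in (U : Filter ℕ), Γ ≤ Alat ({y n} : Set (Fin m → ℂˣ)) := by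
      obtain ⟨S, hS⟩ := (IsNoetherian.noetherian Γ : Γ.FG)
      have h2 : ∀ᶠ n in (U : Filter ℕ), ∀ v ∈ S, v ∈ Alat ({y n} : Set (Fin m → ℂˣ)) := by
        rw [Filter.eventually_all_finset]
        intro v hv
        rw [← hΓ]
        rw [← hS]
        exact Submodule.subset_span hv
      filter_upwards [h2] with n hn
      rw [← hS, Submodule.span_le]
      exact hn
    filter_upwards [h1] with n hn
    exact Submodule.finrank_mono hn
  refine ⟨?_, ?_⟩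
  · filter_upwards [hle, hge] with n h1 h2
    omega
  · intro s b hb hbΓ hs
    have hE1 : Irr (cl ℂ (phi b '' C)) := t1_irr h.irr b
    have hE2 : td ℂ (cl ℂ (phi b '' C)) = 1 := t1_td h.irr h.dim h.nc hs hb
    have h1 : td (acl (∅ : Set ℂ)) (phi b '' cl (acl (∅ : Set ℂ)) C) ≤ 1 := by
      obtain ⟨n, hn1, hn2⟩ := ((hax b hbΓ).and hge).exists
      omega
    have h2 : Irr (cl (acl (∅ : Set ℂ)) (cl ℂ (phi b '' C))) := irr_cl hE1.pirr
    have h3 : cl (acl (∅ : Set ℂ)) (cl ℂ (phi b '' C)) ⊆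
        cl (acl (∅ : Set ℂ)) (phi b '' cl (acl (∅ : Set ℂ)) C) := by
      rw [cl_cl (acl (∅ : Set ℂ)) ℂ]
      exact cl_mono (Set.image_mono (subset_cl _))
    have h4 := td_mono (k := ℂ) h2.pirr (irr_cl (k := acl (∅ : Set ℂ)) (hpt b)).pirr h3
    rw [td_cl_eq (hpt b)] at h4
    exact (eq_of_td_le hE1 h2 (subset_cl _) (by rw [hE2]; omega)).symm

end Pool.Agent.Z9
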