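import Pool.Agent.Z9.T5

open MvPolynomial Pool.Agent.MP_dd1803_nt Pool.Agent.ZPA Pool.Agent.ZL2

namespace Pool.Agent.Z9

open Filter Topology
open Pool.Agent.Z8 (Cyl)

variable {k m : ℕ} [NeZero m] {C : Set (Fin m → ℂˣ)}

/-- The combination of the exponents. -/
noncomputable def k9t6eC {r s : ℕ} (a : Fin r → Fin k ⊕ Fin m → ℤ) (b : Fin s → Fin m → ℤ) :
    (Fin r ⊕ Fin s → ℤ) →ₗ[ℤ] (Fin k ⊕ Fin m → ℤ) :=
  Fintype.linearCombination ℤ (Sum.elim a (fun i => (yv (b i) : Fin k ⊕ Fin m → ℤ)))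

omit [NeZero m] in
theorem k9t6e_inj {r s : ℕ} {a : Fin r → Fin k ⊕ Fin m → ℤ} {b : Fin s → Fin m → ℤ}
    (ha : LinearIndependent ℤ (fun j i => a j (Sum.inl i))) (hb : LinearIndependent ℤ b) :
    Function.Injective (k9t6eC a b) := by
  rw [← LinearMap.ker_eq_bot, Submodule.eq_bot_iff]
  intro w hw
  have h1 : k9t6eC a b w = 0 := hw
  unfold k9t6eC at h1
  rw [Fintype.linearCombination_apply, Fintype.sum_sum_type] at h1
  have h2 : ∑ j, w (Sum.inl j) • (fun i => a j (Sum.inl i) : Fin k → ℤ) = 0 := by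
    funext i
    have h3 := congrFun h1 (Sum.inl i)
    simp only [Sum.elim_inl, Sum.elim_inr, Pi.add_apply, Finset.sum_apply, Pi.smul_apply, smul_eq_mul, Pi.zero_apply] at h3 ⊢
    have h4 : ∀ x, w (Sum.inr x) * (yv (b x) : Fin k ⊕ Fin m → ℤ) (Sum.inl i) = 0 := fun x => by
      show w (Sum.inr x) * (0 : Fin k → ℤ) i = 0
      simp
    simp only [h4, Finset.sum_const_zero, add_zero] at h3
    exact h3
  have h5 := Fintype.linearIndependent_iff.1 ha _ h2
  have h6 : ∑ i, w (Sum.inr i) • b i = 0 := by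
    funext l
    have h3 := congrFun h1 (Sum.inr l)
    simp only [Sum.elim_inl, Sum.elim_inr, Pi.add_apply, Finset.sum_apply, Pi.smul_apply, smul_eq_mul, Pi.zero_apply, h5,
      zero_mul, Finset.sum_const_zero, zero_add] at h3 ⊢
    exact h3
  have h7 := Fintype.linearIndependent_iff.1 hb _ h6
  funext i
  rcases i with i | i
  · exact h5 i
  · exact h7 i

omit [NeZero m] in
theorem k9t6e_ch {r s : ℕ} (a : Fin r → Fin k ⊕ Fin m → ℤ) (b : Fin s → Fin m → ℤ) (w : Fin r ⊕ Fin s → ℤ)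
    (p : Fin k ⊕ Fin m → ℂˣ) : ch w (psi a b p) = ch (k9t6eC a b w) p := by
  have h1 : k9t6eC a b w = ∑ x, w x • (Sum.elim a (fun i => (yv (b i) : Fin k ⊕ Fin m → ℤ)) x) := by
    unfold k9t6eC
    rw [Fintype.linearCombination_apply]
  have h2 : ∀ S : Finset (Fin r ⊕ Fin s), ch (∑ x ∈ S, w x • (Sum.elim a (fun i => (yv (b i) : Fin k ⊕ Fin m → ℤ)) x)) p =
      ∏ x ∈ S, (ch (Sum.elim a (fun i => (yv (b i) : Fin k ⊕ Fin m → ℤ)) x) p) ^ w x := by
    intro S
    induction S using Finset.induction_on with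
    | empty => rw [Finset.sum_empty, Finset.prod_empty, ch_zero]
    | insert x S hx ih => rw [Finset.sum_insert hx, Finset.prod_insert hx, ch_add, ih, ch_zsmul]
  rw [h1, h2]
  unfold ch
  refine Finset.prod_congr rfl fun x _ => ?_
  congr 1
  rcases x with x | x
  · rfl
  · show ch (b x) (fun l => p (Sum.inr l)) = ch (yv (b x) : Fin k ⊕ Fin m → ℤ) p
    unfold ch
    rw [Fintype.prod_sum_type]
    simp [yv]

/-- Row Z9-T6e. The algebraic image points. PROOF. `w ∈ Lam {psi a b p}` if and only if the corresponding combination of the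
`a j`, `yv (b i)` is in `Lam X` (its value is constant on `X`). The combinations form `Γ`, `Γ ≤ Alat X`, and `finrank (Γ ⊓ Lam X) + ar X ≥ finrank Γ + rk X` (`ZPA.f1_finrank`, `f1_Lam_le`); compare `ZPA.d1_point`. -/
theorem psi_point {X : Set (Fin k ⊕ Fin m → ℂˣ)} (hX : Irr X) {r s : ℕ} (a : Fin r → Fin k ⊕ Fin m → ℤ)
    (b : Fin s → Fin m → ℤ) (ha : LinearIndependent ℤ (fun j i => a j (Sum.inl i))) (hb : LinearIndependent ℤ b)
    (haX : ∀ j, a j ∈ Alat X) (hbX : ∀ i, (yv (b i) : Fin k ⊕ Fin m → ℤ) ∈ Alat X) {p : Fin k ⊕ Fin m → ℂˣ} (hp : p ∈ X) :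
    (∀ q ∈ X, psi a b q = psi a b p) ∧ (∀ i, IsAlgebraic ℚ (psi a b p i : ℂ)) ∧
      r + s + rk X ≤ rk ({psi a b p} : Set (Fin r ⊕ Fin s → ℂˣ)) + ar X := by
  classical
  have hyv : ∀ (v : Fin m → ℤ) (q : Fin k ⊕ Fin m → ℂˣ), ch (yv v : Fin k ⊕ Fin m → ℤ) q = ch v fun i => q (Sum.inr i) := by
    intro v q
    unfold ch
    rw [Fintype.prod_sum_type]
    simp [yv]
  refine ⟨fun q hq => ?_, fun i => ?_, ?_⟩
  · funext i
    rcases i with i | i
    · obtain ⟨c, -, hc⟩ := haX i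
      show ch (a i) q = ch (a i) p
      rw [hc q hq, hc p hp]
    · obtain ⟨c, -, hc⟩ := hbX i
      show ch (b i) (fun l => q (Sum.inr l)) = ch (b i) (fun l => p (Sum.inr l))
      rw [← hyv, ← hyv, hc q hq, hc p hp]
  · rcases i with i | i
    · obtain ⟨c, hca, hc⟩ := haX i
      show IsAlgebraic ℚ ((ch (a i) p : ℂˣ) : ℂ)
      rw [hc p hp]
      exact mem_acl_empty.1 hca
    · obtain ⟨c, hca, hc⟩ := hbX i
      show IsAlgebraic ℚ ((ch (b i) (fun l => p (Sum.inr l)) : ℂˣ) : ℂ)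
      rw [← hyv, hc p hp]
      exact mem_acl_empty.1 hca
  · have hinj := k9t6e_inj ha hb
    have hR : LinearMap.range (k9t6eC a b) ≤ Alat X := by
      rintro _ ⟨w, rfl⟩
      unfold k9t6eC
      rw [Fintype.linearCombination_apply]
      refine Submodule.sum_mem _ fun x _ => Submodule.smul_mem _ _ ?_
      rcases x with x | x
      · exact haX x
      · exact hbX x
    have h1 := f1_finrank (LinearMap.range (k9t6eC a b)) (Lam X)
    have h2 : Module.finrank ℤ (LinearMap.range (k9t6eC a b) ⊔ Lam X : Submodule ℤ (Fin k ⊕ Fin m → ℤ)) ≤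
        Module.finrank ℤ (Alat X) := Submodule.finrank_mono (sup_le hR (f1_Lam_le hX.pirr))
    have h3 : Module.finrank ℤ (LinearMap.range (k9t6eC a b)) = r + s := by
      rw [LinearMap.finrank_range_of_inj hinj, Module.finrank_fintype_fun_eq_card, Fintype.card_sum, Fintype.card_fin,
        Fintype.card_fin]
    have h4 : Module.finrank ℤ (LinearMap.range (k9t6eC a b) ⊓ Lam X : Submodule ℤ (Fin k ⊕ Fin m → ℤ)) ≤
        rk ({psi a b p} : Set (Fin r ⊕ Fin s → ℂˣ)) := by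
      have h5 : (LinearMap.range (k9t6eC a b) ⊓ Lam X : Submodule ℤ (Fin k ⊕ Fin m → ℤ)) ≤
          (Lam ({psi a b p} : Set (Fin r ⊕ Fin s → ℂˣ))).map (k9t6eC a b) := by
        rintro _ ⟨⟨w, rfl⟩, N, hN, h6⟩
        refine ⟨w, ⟨N, hN, fun x hx => ?_⟩, rfl⟩
        rw [Set.mem_singleton_iff.1 hx, k9t6e_ch]
        exact h6 p hp
      have h7 := Submodule.finrank_mono h5
      have h8 : Module.finrank ℤ ((Lam ({psi a b p} : Set (Fin r ⊕ Fin s → ℂˣ))).map (k9t6eC a b)) =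
          rk ({psi a b p} : Set (Fin r ⊕ Fin s → ℂˣ)) := ((Submodule.equivMapOfInjective _ hinj _).finrank_eq).symm
      omega
    have h9 : rk X = Module.finrank ℤ (Lam X) := rfl
    have h10 : ar X = Module.finrank ℤ (Alat X) := rfl
    omega

end Pool.Agent.Z9
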