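import Pool.Agent.Z9.T1
import Pool.Agent.Z9.T2
import Pool.Agent.Z9.T3
import Pool.Agent.Z9.T4
import Pool.Agent.Z9.T5
import Pool.Agent.Z9.T6a
import Pool.Agent.Z9.T6b
import Pool.Agent.Z9.T6c
import Pool.Agent.Z9.T6d
import Pool.Agent.Z9.T6e

open MvPolynomial Pool.Agent.MP_dd1803_nt Pool.Agent.ZPA Pool.Agent.ZL2

namespace Pool.Agent.Z9

open Filter Topology
open Pool.Agent.Z8 (Cyl rk_le_y)

/-! Continuity of the projections and monomial maps for the topology over `k`. -/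

theorem k9t6_pull {K : Type} [Field K] [Algebra K ℂ] {κ κ' : Type} (e : κ' → κ) {X : Set (κ → ℂˣ)} {Z : Set (κ' → ℂˣ)}
    (hZ : cl K Z = Z) (h : ∀ p ∈ X, pull e p ∈ Z) : ∀ p ∈ cl K X, pull e p ∈ Z := by
  intro p hp
  rw [← hZ]
  intro q hq
  have h1 := hp (rename e q) (by
    rw [SetLike.mem_coe, mem_vI]
    intro x hx
    rw [aeval_rename]
    exact (mem_vI.1 hq) _ (h x hx))
  rw [aeval_rename] at h1
  exact h1

theorem k9t6_phi {K : Type} [Field K] [Algebra K ℂ] {κ : Type} [Fintype κ] {r : ℕ} (b : Fin r → κ → ℤ)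
    {X : Set (κ → ℂˣ)} {Z : Set (Fin r → ℂˣ)} (hZ : cl K Z = Z) (h : ∀ p ∈ X, phi b p ∈ Z) :
    ∀ p ∈ cl K X, phi b p ∈ Z := by
  intro p hp
  rw [← hZ]
  intro q hq
  obtain ⟨g, n, hg⟩ := d1_clear (F := ℂ) b q
  have h1 := hp g (by
    rw [SetLike.mem_coe, mem_vI]
    intro x hx
    rw [(hg x).2, (mem_vI.1 hq) _ (h x hx), mul_zero])
  rw [(hg p).2] at h1
  exact (mul_eq_zero.1 h1).resolve_left (hg p).1

variable {k m : ℕ}

/-- `psi a b` in terms of `phi`. -/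
theorem k9t6_psi {K : Type} [Field K] [Algebra K ℂ] {r s : ℕ} (a : Fin r → Fin k ⊕ Fin m → ℤ)
    (b : Fin s → Fin m → ℤ) {X : Set (Fin k ⊕ Fin m → ℂˣ)} {Z : Set (Fin r ⊕ Fin s → ℂˣ)} (hZ : cl K Z = Z)
    (h : ∀ p ∈ X, psi a b p ∈ Z) : ∀ p ∈ cl K X, psi a b p ∈ Z := by
  obtain ⟨c, hc⟩ : ∃ c : Fin (r + s) → Fin k ⊕ Fin m → ℤ, c = fun i => Sum.elim a (fun i => yv (b i)) (finSumFinEquiv.symm i) :=
    ⟨_, rfl⟩
  have h1 : ∀ p : Fin k ⊕ Fin m → ℂˣ, psi a b p = pull (finSumFinEquiv (m := r) (n := s)) (phi c p) := by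
    intro p
    funext i
    show psi a b p i = ch (c (finSumFinEquiv i)) p
    rw [hc]
    simp only [Equiv.symm_apply_apply]
    rcases i with i | i
    · rfl
    · show ch (b i) (fun l => p (Sum.inr l)) = ch (yv (b i)) p
      unfold ch
      rw [Fintype.prod_sum_type]
      simp [yv]
  -- the preimage under the bijection is closed
  have h2 : cl K {z : Fin (r + s) → ℂˣ | pull (finSumFinEquiv (m := r) (n := s)) z ∈ Z} =
      {z : Fin (r + s) → ℂˣ | pull (finSumFinEquiv (m := r) (n := s)) z ∈ Z} := by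
    apply Set.Subset.antisymm _ (subset_cl _)
    exact k9t6_pull (finSumFinEquiv (m := r) (n := s)) hZ fun p hp => hp
  intro p hp
  rw [h1]
  exact k9t6_phi c h2 (fun q hq => by
    show pull _ (phi c q) ∈ Z
    rw [← h1]
    exact h q hq) p hp

variable [NeZero m] {C : Set (Fin m → ℂˣ)}

omit [NeZero m] in
/-- The `y`-part is dense in `C`. -/
theorem k9t6_dense (h : HCx C) {W : Set (Fin k ⊕ Fin m → ℂˣ)} (hW : Irr W)
    (hWC : ∀ p ∈ W, (fun i => p (Sum.inr i)) ∈ C)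
    (hy : ¬ ∃ y0 : Fin m → ℂˣ, ∀ p ∈ W, ∀ i, p (Sum.inr i) = y0 i) {Z : Set (Fin m → ℂˣ)} (hZ : ZClosed Z)
    (hWZ : ∀ p ∈ W, (fun i => p (Sum.inr i)) ∈ Z) : C ⊆ Z := by
  have hI : Irr (cl ℂ (pull (Sum.inr : Fin m → Fin k ⊕ Fin m) '' W)) := (hW.pirr.pull _).cl
  have hsub : cl ℂ (pull (Sum.inr : Fin m → Fin k ⊕ Fin m) '' W) ⊆ C := by
    refine cl_subset ?_ h.irr.closed
    rintro _ ⟨p, hp, rfl⟩
    exact hWC p hp
  have hd : 1 ≤ td ℂ (cl ℂ (pull (Sum.inr : Fin m → Fin k ⊕ Fin m) '' W)) := by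
    obtain ⟨p, hp, q, hq, hpq⟩ := k9g4_y hy hW.pirr.nonempty
    exact k9g4_point hI (subset_cl _ ⟨p, hp, rfl⟩) (subset_cl _ ⟨q, hq, rfl⟩) hpq
  have hC : cl ℂ (pull (Sum.inr : Fin m → Fin k ⊕ Fin m) '' W) = C := eq_of_td_le hI h.irr hsub (by
    rw [h.dim]
    exact hd)
  rw [← hC]
  refine cl_subset ?_ hZ
  rintro _ ⟨p, hp, rfl⟩
  exact hWZ p hp

/-- The core of the main statement: a generic sequence of subvarieties of fibres of positive algebraic rank. -/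
theorem k9t6_core (h : HCx C) {A : Set ℂ} (hA : A.Finite) (hCA : cl (acl A) C = C)
    {Y : Set (Fin k ⊕ Fin m → ℂˣ)} (hYC : ∀ p ∈ Y, (fun i => p (Sum.inr i)) ∈ C)
    {X : ℕ → Set (Fin k ⊕ Fin m → ℂˣ)} (hg : GenS (acl A) Y X) (hcd : ∀ n, k + 1 ≤ cd (X n))
    (y : ℕ → Fin m → ℂˣ) (hyX : ∀ n, ∀ p ∈ X n, ∀ i, p (Sum.inr i) = y n i) (har : ∀ n, rk (X n) + 1 < ar (X n))
    (hy : ¬ ∃ y0 : Fin m → ℂˣ, ∀ p ∈ Y, ∀ i, p (Sum.inr i) = y0 i) (hcon : cd Y ≤ k) : False := by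
  classical
  have halg : IsAlgClosed (acl (∅ : Set ℂ)) := isAlgClosed_acl _
  -- the points of `C`
  have hyC : ∀ n, y n ∈ C := by
    intro n
    obtain ⟨p, hp⟩ := (hg.xirr n).nonempty
    have h1 := hYC p (hg.sub n hp)
    have h2 : (fun i => p (Sum.inr i)) = y n := funext fun i => hyX n p hp i
    rwa [h2] at h1
  have hgC : GenS (acl A) C (fun n => ({y n} : Set (Fin m → ℂˣ))) := by
    refine ⟨h.irr, hCA, fun n => irr_singleton _, fun n => ?_, fun n => ?_, fun Z hZ hCZ => ?_⟩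
    · exact point_cl (hg.xirr n) (hg.xcl n) Sum.inr fun p hp => funext fun i => hyX n p hp i
    · exact Set.singleton_subset_iff.2 (hyC n)
    · have h1 : cl (acl A) (Cyl k Z) = Cyl k Z := by
        apply Set.Subset.antisymm _ (subset_cl _)
        exact k9t6_pull Sum.inr hZ fun p hp => hp
      have h2 : ¬ Y ⊆ Cyl k Z := fun h2 => hCZ (k9t6_dense h hg.irr hYC hy (closed_of_cl hZ) fun p hp => h2 hp)
      filter_upwards [hg.gen _ h1 h2] with n hn h3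
      refine hn fun p hp => ?_
      show (fun i => p (Sum.inr i)) ∈ Z
      have h4 : (fun i => p (Sum.inr i)) = y n := funext fun i => hyX n p hp i
      rw [h4]
      exact h3 rfl
  -- the limit lattices
  obtain ⟨U, hU⟩ : ∃ U : Ultrafilter ℕ, (U : Filter ℕ) ≤ cofinite := ⟨hyperfilter ℕ, hyperfilter_le_cofinite⟩
  let Γ : Submodule ℤ (Fin k ⊕ Fin m → ℤ) :=
    { carrier := {v | ∀ᶠ n in (U : Filter ℕ), v ∈ Alat (X n)}
      zero_mem' := Filter.Eventually.of_forall fun N => Submodule.zero_mem _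
      add_mem' := by
        intro v w hv hw
        filter_upwards [hv, hw] with n h1 h2
        exact Submodule.add_mem _ h1 h2
      smul_mem' := by
        intro c v hv
        filter_upwards [hv] with n h1
        exact Submodule.smul_mem _ c h1 }
  have hΓ : ∀ v, v ∈ Γ ↔ ∀ᶠ n in (U : Filter ℕ), v ∈ Alat (X n) := fun v => Iff.rfl
  let Γy : Submodule ℤ (Fin m → ℤ) :=
    { carrier := {v | ∀ᶠ n in (U : Filter ℕ), v ∈ Alat ({y n} : Set (Fin m → ℂˣ))}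
      zero_mem' := Filter.Eventually.of_forall fun N => Submodule.zero_mem _
      add_mem' := by
        intro v w hv hw
        filter_upwards [hv, hw] with n h1 h2
        exact Submodule.add_mem _ h1 h2
      smul_mem' := by
        intro c v hv
        filter_upwards [hv] with n h1
        exact Submodule.smul_mem _ c h1 }
  have hΓy : ∀ v, v ∈ Γy ↔ ∀ᶠ n in (U : Filter ℕ), v ∈ Alat ({y n} : Set (Fin m → ℂˣ)) := fun v => Iff.rfl
  have hchy : ∀ (v : Fin m → ℤ) (p : Fin k ⊕ Fin m → ℂˣ), ch (yv v : Fin k ⊕ Fin m → ℤ) p = ch v fun i => p (Sum.inr i) := by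
    intro v p
    unfold ch
    rw [Fintype.prod_sum_type]
    simp [yv]
  have hyv : ∀ (v : Fin m → ℤ) n, (yv v : Fin k ⊕ Fin m → ℤ) ∈ Alat (X n) ↔ v ∈ Alat ({y n} : Set (Fin m → ℂˣ)) := by
    intro v n
    have h1 : ∀ p ∈ X n, (fun i => p (Sum.inr i)) = y n := fun p hp => funext fun i => hyX n p hp i
    obtain ⟨p0, hp0⟩ := (hg.xirr n).nonempty
    constructor
    · rintro ⟨c, hc, hc1⟩
      refine ⟨c, hc, fun x hx => ?_⟩
      rw [Set.mem_singleton_iff.1 hx, ← h1 p0 hp0, ← hchy]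
      exact hc1 p0 hp0
    · rintro ⟨c, hc, hc1⟩
      refine ⟨c, hc, fun p hp => ?_⟩
      rw [hchy, h1 p hp]
      exact hc1 _ rfl
  have hΓΓ : ∀ v : Fin m → ℤ, (yv v : Fin k ⊕ Fin m → ℤ) ∈ Γ ↔ v ∈ Γy := by
    intro v
    rw [hΓ, hΓy]
    exact Filter.eventually_congr (Filter.Eventually.of_forall fun n => hyv v n)
  -- rank in the fibres
  have hfib : ∀ n, ar (X n) + td ℂ (X n) ≤ k + ar ({y n} : Set (Fin m → ℂˣ)) := fun n => ar_le_fib (hg.xirr n) (hyX n)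
  have hge3 : ∀ n, 3 ≤ ar ({y n} : Set (Fin m → ℂˣ)) := by
    intro n
    have h1 := hfib n
    have h2 := hcd n
    have h3 := har n
    have h4 : cd (X n) = rk (X n) + td ℂ (X n) := rfl
    omega
  rcases curve_lim h hA hCA hgC hU hΓy with hlim | ⟨hlim, hclo⟩
  · obtain ⟨n, hn⟩ := hlim.exists
    have := hge3 n
    omega
  obtain ⟨r, s, a, b, hrs, hrk, haΓ, hbΓ, ha, hb, hspan⟩ := exists_adapted Γ
  have hbΓy : ∀ i, b i ∈ Γy := fun i => (hΓΓ _).1 (hbΓ i)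
  have hs : Module.finrank ℤ Γy = s := by
    have h1 : Γy = Submodule.span ℤ (Set.range b) := by
      apply le_antisymm
      · intro v hv
        exact hspan v ((hΓΓ v).2 hv)
      · rw [Submodule.span_le]
        rintro _ ⟨i, rfl⟩
        exact hbΓy i
    rw [h1, finrank_span_eq_card hb, Fintype.card_fin]
  have hs3 : 3 ≤ s := by
    obtain ⟨n, hn⟩ := hlim.exists
    have := hge3 n
    omega
  have hs2 : 2 ≤ s := by omega
  have hns : NeZero s := ⟨by omega⟩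
  -- the image curve
  obtain ⟨C', hC'⟩ : ∃ C', C' = cl ℂ (phi b '' C) := ⟨_, rfl⟩
  have hCa' : cl (acl (∅ : Set ℂ)) C' = C' := by
    rw [hC']
    exact hclo b hb hbΓy (by omega)
  have hHC : Pool.Agent.Z7.HC C' := by
    rw [hC'] at hCa' ⊢
    exact hc_of_indep (t1_irr h.irr b) (t1_td h.irr h.dim h.nc (by omega) hb) hCa' (t1_nc h.nc hb)
      (h.ind s b hs3 hb hCa')
  -- descent
  obtain ⟨hg0, hdown⟩ := hg.down hA
  obtain ⟨Y0, hY0⟩ : ∃ Y0, Y0 = cl (acl (∅ : Set ℂ)) Y := ⟨_, rfl⟩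
  rw [← hY0] at hg0 hdown
  obtain ⟨c, hc, hcr, hpsi, htd, hrkpsi, hrkY⟩ := psi_facts a b ha hb hg0.irr.pirr
  have hcΓ : ∀ i, c i ∈ Γ := by
    intro i
    rcases hcr i with ⟨j, hj⟩ | ⟨j, hj⟩
    · rw [← hj]
      exact haΓ j
    · rw [← hj]
      exact hbΓ j
  have hax := hg0.ax hU (Γ := Γ) (fun v => by
    rw [hΓ]
    refine Filter.eventually_congr (Filter.Eventually.of_forall fun n => ?_)
    rw [Alat_cl]) c hcΓ
  -- the image variety
  obtain ⟨W, hW⟩ : ∃ W, W = cl (acl (∅ : Set ℂ)) (psi a b '' Y0) := ⟨_, rfl⟩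
  have hWI : Irr W := by
    rw [hW]
    exact irr_cl hpsi
  have hWa : cl (acl (∅ : Set ℂ)) W = W := by
    rw [hW]
    exact cl_idem _
  have hWtd : td ℂ W = td (acl (∅ : Set ℂ)) (phi c '' Y0) := by
    rw [hW, td_cl_eq hpsi, htd]
  have hWrk : rk W ≤ rk Y0 := by
    rw [hW, rk_cl, hrkpsi]
    exact hrkY
  have hYY0 : Y ⊆ Y0 := by
    rw [hY0]
    exact subset_cl _
  have hpsiW : ∀ p ∈ Y0, psi a b p ∈ W := by
    intro p hp
    rw [hW]
    exact subset_cl _ ⟨p, hp, rfl⟩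
  have hY0C : ∀ p ∈ Y0, phi b (fun i => p (Sum.inr i)) ∈ C' := by
    have h1 : cl (acl (∅ : Set ℂ)) {z : Fin m → ℂˣ | phi b z ∈ C'} = {z : Fin m → ℂˣ | phi b z ∈ C'} := by
      apply Set.Subset.antisymm _ (subset_cl _)
      exact k9t6_phi b hCa' fun p hp => hp
    intro p hp
    rw [hY0] at hp
    refine k9t6_pull (Sum.inr : Fin m → Fin k ⊕ Fin m) h1 (X := Y) ?_ p hp
    intro q hq
    show phi b (pull Sum.inr q) ∈ C'
    rw [hC']
    exact subset_cl _ ⟨_, hYC q hq, rfl⟩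
  have hWC : ∀ p ∈ W, (fun i => p (Sum.inr i)) ∈ C' := by
    intro p hp
    rw [hW] at hp
    refine k9t6_pull (Sum.inr : Fin s → Fin r ⊕ Fin s) hCa' (X := psi a b '' Y0) ?_ p hp
    rintro _ ⟨q, hq, rfl⟩
    exact hY0C q hq
  have hWy : ¬ ∃ y0 : Fin s → ℂˣ, ∀ p ∈ W, ∀ i, p (Sum.inr i) = y0 i := by
    rintro ⟨y0, hy0⟩
    obtain ⟨i0⟩ : Nonempty (Fin s) := ⟨⟨0, by omega⟩⟩
    refine h.nc (b i0) (hb.ne_zero i0) (y0 i0) ?_
    have h1 : ZClosed {z : Fin m → ℂˣ | ch (b i0) z = y0 i0} := by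
      have h2 : {z : Fin m → ℂˣ | ch (b i0) z = y0 i0} = {z | phi b z ∈ {w : Fin s → ℂˣ | w i0 = y0 i0}} := rfl
      rw [h2]
      refine (d1_ratMap Set.univ b).preimage_closed ?_
      have h3 : {w : Fin s → ℂˣ | w i0 = y0 i0} = zp (MvPolynomial.X i0 - MvPolynomial.C ((y0 i0 : ℂˣ) : ℂ)) := by
        ext w
        constructor
        · intro hw
          show aeval (co w) (MvPolynomial.X i0 - MvPolynomial.C ((y0 i0 : ℂˣ) : ℂ)) = 0
          rw [map_sub, aeval_X, aeval_C, sub_eq_zero]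
          show (w i0 : ℂ) = (y0 i0 : ℂ)
          rw [show w i0 = y0 i0 from hw]
        · intro hw
          have h4 : aeval (co w) (MvPolynomial.X i0 - MvPolynomial.C ((y0 i0 : ℂˣ) : ℂ)) = 0 := hw
          rw [map_sub, aeval_X, aeval_C, sub_eq_zero] at h4
          exact Units.ext h4
      rw [h3]
      exact zclosed_zp _
    exact k9t6_dense h hg.irr hYC hy h1 fun p hp => hy0 _ (hpsiW p (hYY0 hp)) i0
  -- the good indices
  have hgood : ∀ᶠ n in (U : Filter ℕ), ((∀ j, a j ∈ Alat (X n)) ∧ (∀ i, (yv (b i) : Fin k ⊕ Fin m → ℤ) ∈ Alat (X n))) ∧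
      ar ({y n} : Set (Fin m → ℂˣ)) = s ∧ cd Y0 + cd (X n) ≤ cd (cl (acl (∅ : Set ℂ)) (X n)) + cd Y ∧
      ar (X n) + td ℂ (cl (acl (∅ : Set ℂ)) (X n)) + td ℂ W ≤ td ℂ Y0 + (r + s) := by
    have h1 : ∀ᶠ n in (U : Filter ℕ), ∀ j, a j ∈ Alat (X n) := Filter.eventually_all.2 haΓ
    have h2 : ∀ᶠ n in (U : Filter ℕ), ∀ i, (yv (b i) : Fin k ⊕ Fin m → ℤ) ∈ Alat (X n) := Filter.eventually_all.2 hbΓ
    filter_upwards [h1, h2, hlim, hdown.filter_mono hU, hax] with n e1 e2 e3 e4 e5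
    refine ⟨⟨e1, e2⟩, e3.trans hs, e4, ?_⟩
    rw [hWtd]
    unfold ar at e5 ⊢
    rw [Alat_cl] at e5
    omega
  obtain ⟨φ, hφ, hgood'⟩ := Pool.Agent.Z5.k3_sub (frequently_cofinite_iff_infinite.1 (hgood.frequently.filter_mono hU))
  have hne : ∀ n, ∃ p, p ∈ X (φ n) := fun n => (hg.xirr (φ n)).nonempty
  choose p hp using hne
  have hpt := fun n => psi_point (hg.xirr (φ n)) a b ha hb (hgood' n).1.1 (hgood' n).1.2 (hp n)
  have hGn : Gn W (fun n => psi a b (p n)) := by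
    refine ⟨fun n => ?_, fun n => (hpt n).2.1, fun Z hZ hZa hWZ => ?_⟩
    · exact hpsiW _ (hYY0 (hg.sub _ (hp n)))
    · have h1 : cl (acl (∅ : Set ℂ)) {q | psi a b q ∈ Z} = {q : Fin k ⊕ Fin m → ℂˣ | psi a b q ∈ Z} := by
        apply Set.Subset.antisymm _ (subset_cl _)
        exact k9t6_psi a b hZa fun q hq => hq
      have h2 : ¬ Y0 ⊆ {q : Fin k ⊕ Fin m → ℂˣ | psi a b q ∈ Z} := by
        intro h2
        apply hWZ
        rw [hW]
        refine cl_subset_of_closed ?_ hZa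
        rintro _ ⟨q, hq, rfl⟩
        exact h2 hq
      have h3 := hφ.tendsto_cofinite.eventually (hg0.gen _ h1 h2)
      filter_upwards [h3] with n hn h4
      apply hn
      refine cl_subset_of_closed ?_ h1
      intro q hq
      show psi a b q ∈ Z
      rw [(hpt n).1 q hq]
      exact h4
  have hrkP : ∀ n, r + 1 ≤ rk ({psi a b (p n)} : Set (Fin r ⊕ Fin s → ℂˣ)) := by
    intro n
    have h1 := (hpt n).2.2
    have h2 := hfib (φ n)
    have h3 := (hgood' n).2.1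
    have h4 := hcd (φ n)
    have h5 : cd (X (φ n)) = rk (X (φ n)) + td ℂ (X (φ n)) := rfl
    omega
  have hcdW := cd_ge hHC hs2 r W hWI hWC hWa hWy _ hGn hrkP
  have hrkP2 : ∀ n, 2 ≤ rk ({fun i => psi a b (p n) (Sum.inr i)} : Set (Fin s → ℂˣ)) := by
    intro n
    have h1 := (hpt n).2.2
    obtain ⟨-, -, h6, h7⟩ := hgood' n
    have h4 := hcd (φ n)
    have h5 : cd (X (φ n)) = rk (X (φ n)) + td ℂ (X (φ n)) := rfl
    have h8 : cd (cl (acl (∅ : Set ℂ)) (X (φ n))) = rk (cl (acl (∅ : Set ℂ)) (X (φ n))) +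
      td ℂ (cl (acl (∅ : Set ℂ)) (X (φ n))) := rfl
    rw [rk_cl] at h8
    have h9 : cd Y0 = rk Y0 + td ℂ Y0 := rfl
    have h10 : cd W = rk W + td ℂ W := rfl
    have h11 := rk_le_y (psi a b (p n))
    omega
  have hF := Pool.Agent.Z7.finite_rk2 hHC hs2
  have hsub : W ⊆ {q : Fin r ⊕ Fin s → ℂˣ | (fun i => q (Sum.inr i)) ∈
      {y | y ∈ C' ∧ (∀ i, IsAlgebraic ℚ (y i : ℂ)) ∧ 2 ≤ rk ({y} : Set (Fin s → ℂˣ))}} := by
    refine k9g0_dense hGn (Pool.Agent.Z8.k8g4f_fin hF) ?_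
    convert Set.infinite_univ (α := ℕ)
    ext n
    simp only [Set.mem_univ, iff_true]
    exact ⟨hWC _ (hGn.mem n), fun i => hGn.alg n _, hrkP2 n⟩
  obtain ⟨y1, -, hy1⟩ := k9g6_fin hF hWI hsub
  exact hWy ⟨y1, fun q hq i => congrFun (hy1 hq : (fun i => q (Sum.inr i)) = y1) i⟩

/-- Row Z9-T6f (helper96). The main statement for complex curves. -/
theorem cdx_ge (h : HCx C) {A : Set ℂ} (hA : A.Finite) (hCA : cl (acl A) C = C)
    {V Y : Set (Fin k ⊕ Fin m → ℂˣ)} (hV : ZClosed V) (hVC : ∀ p ∈ V, (fun i => p (Sum.inr i)) ∈ C) (hYV : Y ⊆ V)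
    {X : ℕ → Set (Fin k ⊕ Fin m → ℂˣ)} (hg : GenS (acl A) Y X) (hX : ∀ n, X n ∈ MaxE m V)
    (hy : ¬ ∃ y0 : Fin m → ℂˣ, ∀ p ∈ Y, ∀ i, p (Sum.inr i) = y0 i) : k + 1 ≤ cd Y := by
  classical
  by_contra hcon
  have hcd : ∀ n, k + 1 ≤ cd (X n) := by
    intro n
    have h1 := MaxE.lt (hX n)
    rw [k9g6_card] at h1
    omega
  have hfin : {n | ar (X n) ≤ rk (X n) + 1}.Finite := by
    by_contra hinf
    obtain ⟨n, hn⟩ := gens_arank hV hg hX hinf
    have h1 := hcd n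
    rw [hn] at h1
    exact hcon h1
  obtain ⟨φ, hφ, hφ2⟩ := Pool.Agent.Z5.k3_sub hfin.infinite_compl
  have h1 : ∀ n, rk (X (φ n)) + 1 < ar (X (φ n)) := by
    intro n
    have h2 := hφ2 n
    rw [Set.mem_compl_iff, Set.mem_ofPred_eq, not_le] at h2
    exact h2
  have h2 : ∀ n, ∃ y0 : Fin m → ℂˣ, ∀ p ∈ X (φ n), ∀ i, p (Sum.inr i) = y0 i := by
    intro n
    by_contra h3
    have h4 := ar_le_dom h (hg.xirr (φ n)) (fun p hp => hVC p (hYV (hg.sub _ hp))) h3 (hcd _)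
    have h5 := h1 n
    omega
  choose y hyX using h2
  exact k9t6_core h hA hCA (fun p hp => hVC p (hYV hp)) (hg.comp hφ) (fun n => hcd _) y hyX h1 hy (by omega)

end Pool.Agent.Z9
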