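import Pool.Agent.Z9.T6

open MvPolynomial Pool.Agent.MP_dd1803_nt Pool.Agent.ZPA Pool.Agent.ZL2

namespace Pool.Agent.Z9

open Filter Topology
open Pool.Agent.Z8 (Fam Cyl k8g4f_cl k8g4f_fin k8g4d_fib)

/-- The maximal elements in a component of the closure of their union are dense in it. -/
theorem k9t7_dense {κ : Type} [Fintype κ] {S : Set (Set (κ → ℂˣ))} (hS : ∀ X ∈ S, Irr X) {W : Set (κ → ℂˣ)}
    (hW : Comp (cl ℂ (⋃ X ∈ S, X)) W) {Z : Set (κ → ℂˣ)} (hZ : ZClosed Z) (hSZ : ∀ X ∈ S, X ⊆ W → X ⊆ Z) : W ⊆ Z := by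
  classical
  have hD : ZClosed (cl ℂ (⋃ X ∈ S, X)) := zclosed_cl _
  obtain ⟨T, hT⟩ : ∃ T : Finset (Set (κ → ℂˣ)), T = (finite_comp hD).toFinset.erase W := ⟨_, rfl⟩
  have hTc : ∀ Y ∈ T, Comp (cl ℂ (⋃ X ∈ S, X)) Y ∧ Y ≠ W := by
    intro Y hY
    rw [hT, Finset.mem_erase, Set.Finite.mem_toFinset] at hY
    exact ⟨hY.2, hY.1⟩
  have hU : ZClosed (⋃ Y ∈ T, Y) := ZClosed.finset_biUnion _ fun Y hY => (hTc Y hY).1.irr.closed
  have h1 : (⋃ X ∈ S, X) ⊆ Z ∪ ⋃ Y ∈ T, Y := by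
    refine Set.iUnion₂_subset fun X hX => ?_
    obtain ⟨Y, hY, hXY⟩ := exists_comp hD (hS X hX) ((Set.subset_biUnion_of_mem (u := fun X => X) hX).trans (subset_cl _))
    by_cases hYW : Y = W
    · rw [hYW] at hXY
      exact (hSZ X hX hXY).trans Set.subset_union_left
    · refine hXY.trans (Set.Subset.trans ?_ Set.subset_union_right)
      refine Set.subset_biUnion_of_mem (u := fun X => X) ?_
      show Y ∈ (T : Set _)
      rw [Finset.mem_coe, hT, Finset.mem_erase, Set.Finite.mem_toFinset]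
      exact ⟨hYW, hY⟩
  rcases hW.irr.subset_or hZ hU (hW.subset.trans (cl_subset h1 (hZ.union hU))) with h3 | h3
  · exact h3
  · exfalso
    obtain ⟨Y, hY, hWY⟩ := hW.irr.subset_of_finset T (fun Y hY => (hTc Y hY).1.irr.closed) h3
    exact (hTc Y hY).2 (hW.eq_of_subset (hTc Y hY).1.irr (hTc Y hY).1.subset hWY).symm

variable {k m : ℕ}

/-- Subvarieties of a fibre: the ordinary rank. -/
theorem rk_le_fib {X : Set (Fin k ⊕ Fin m → ℂˣ)} (hX : Irr X) {y0 : Fin m → ℂˣ}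
    (hy : ∀ p ∈ X, ∀ i, p (Sum.inr i) = y0 i) : cd X ≤ k + rk ({y0} : Set (Fin m → ℂˣ)) := by
  classical
  let L : (Fin m → ℤ) →ₗ[ℤ] (Fin k ⊕ Fin m → ℤ) :=
    { toFun := fun v => yv v
      map_add' := by
        intro v w
        funext i
        rcases i with i | i <;> simp [yv]
      map_smul' := by
        intro c v
        funext i
        rcases i with i | i <;> simp [yv] }
  have hL : Function.Injective L := by
    intro v w hvw
    funext i
    exact congrFun hvw (Sum.inr i)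
  have hch : ∀ (v : Fin m → ℤ), ∀ p ∈ X, ch (yv v : Fin k ⊕ Fin m → ℤ) p = ch v y0 := by
    intro v p hp
    have h1 : (fun i => p (Sum.inr i)) = y0 := funext fun i => hy p hp i
    rw [← h1]
    unfold ch
    rw [Fintype.prod_sum_type]
    simp [yv]
  have h1 := const_le hX.pirr (Lam X ⊔ LinearMap.range L) (by
    intro v hv
    obtain ⟨a, ha, b, ⟨w, rfl⟩, rfl⟩ := Submodule.mem_sup.1 hv
    obtain ⟨c, -, hc⟩ := Lam_const hX.pirr ha
    refine ⟨c * ch w y0, fun x hx => ?_⟩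
    rw [ch_add, hc x hx]
    congr 1
    exact hch w x hx)
  have h2 := f1_finrank (Lam X) (LinearMap.range L)
  have h3 : Module.finrank ℤ (LinearMap.range L) = m := by
    rw [LinearMap.finrank_range_of_inj hL, Module.finrank_fin_fun]
  have h4 : Module.finrank ℤ (Lam X ⊓ LinearMap.range L : Submodule ℤ (Fin k ⊕ Fin m → ℤ)) ≤ rk ({y0} : Set (Fin m → ℂˣ)) := by
    have h5 : (Lam X ⊓ LinearMap.range L : Submodule ℤ (Fin k ⊕ Fin m → ℤ)) ≤ (Lam ({y0} : Set (Fin m → ℂˣ))).map L := by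
      rintro _ ⟨hv, w, rfl⟩
      refine ⟨w, ?_, rfl⟩
      obtain ⟨N, hN, h6⟩ := hv
      obtain ⟨p, hp⟩ := hX.nonempty
      refine ⟨N, hN, fun x hx => ?_⟩
      rw [Set.mem_singleton_iff.1 hx, ← hch w p hp]
      exact h6 p hp
    have h7 := Submodule.finrank_mono h5
    have h8 : Module.finrank ℤ ((Lam ({y0} : Set (Fin m → ℂˣ))).map L) = rk ({y0} : Set (Fin m → ℂˣ)) :=
      ((Submodule.equivMapOfInjective L hL _).finrank_eq).symm
    omega
  have h9 : cd X = rk X + td ℂ X := rfl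
  have h10 : rk X = Module.finrank ℤ (Lam X) := rfl
  rw [Fintype.card_sum, Fintype.card_fin, Fintype.card_fin] at h1
  omega

/-- The closure of a union of closed sets over `K` is closed over `K`. -/
theorem k9t7_cl {κ : Type} [Fintype κ] {K : Type} [Field K] [Algebra K ℂ] [IsAlgClosed K] {S : Set (Set (κ → ℂˣ))}
    (hS : ∀ X ∈ S, Irr X ∧ cl K X = X) : cl K (cl ℂ (⋃ X ∈ S, X)) = cl ℂ (⋃ X ∈ S, X) := by
  apply Set.Subset.antisymm _ (subset_cl _)
  rw [cl_cl K ℂ]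
  intro p hp q hq
  refine aeval_eq_zero_of_cmpl (k := K) fun φ => ?_
  refine hp (cmpl φ q) ?_
  rw [SetLike.mem_coe, mem_vI]
  intro x hx
  obtain ⟨X, hX, hxX⟩ := Set.mem_iUnion₂.1 hx
  have h1 : q ∈ vI ℂ (cl K X) := by
    rw [(hS X hX).2, mem_vI]
    intro z hz
    exact (mem_vI.1 hq) z (Set.mem_iUnion₂.2 ⟨X, hX, hz⟩)
  exact mem_vI.1 ((mem_vI_cl (hS X hX).1.pirr).1 h1 φ) x hxX

variable [NeZero m] {C : Set (Fin m → ℂˣ)}

/-- Row Z9-T7. FINITENESS over complex curves (helper96). -/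
theorem fin_maxx (h : HCx C) {V : Set (Fin k ⊕ Fin m → ℂˣ)} (hV : ZClosed V)
    (hVC : ∀ p ∈ V, (fun i => p (Sum.inr i)) ∈ C) :
    ∃ F : Set (Fin m → ℂˣ), F.Finite ∧ (∀ y ∈ F, y ∈ C ∧ 1 ≤ rk ({y} : Set (Fin m → ℂˣ))) ∧
      {X | X ∈ MaxE m V ∧ ¬ ∃ y0 ∈ F, ∀ x ∈ X, ∀ i, x (Sum.inr i) = y0 i}.Finite := by
  classical
  -- a field of definition
  obtain ⟨A1, hA1, hV1⟩ := exists_field_of_def hV
  obtain ⟨A2, hA2, hC2⟩ := exists_field_of_def h.irr.closed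
  obtain ⟨A, hA⟩ : ∃ A : Set ℂ, A = A1 ∪ A2 := ⟨_, rfl⟩
  have hAf : A.Finite := by
    rw [hA]
    exact hA1.union hA2
  have hVA : cl (acl A) V = V := hV1 (acl A) (by
    refine Set.Subset.trans ?_ (subset_acl A)
    rw [hA]
    exact Set.subset_union_left)
  have hCA : cl (acl A) C = C := hC2 (acl A) (by
    refine Set.Subset.trans ?_ (subset_acl A)
    rw [hA]
    exact Set.subset_union_right)
  have halg : IsAlgClosed (acl A) := isAlgClosed_acl _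
  obtain ⟨D, hD0⟩ : ∃ D, D = cl ℂ (⋃ X ∈ MaxE m V, X) := ⟨_, rfl⟩
  have hD : ZClosed D := by
    rw [hD0]
    exact zclosed_cl _
  have hDV : D ⊆ V := by
    rw [hD0]
    exact cl_subset (Set.iUnion₂_subset fun X hX => MaxE.subset hX) hV
  have hXD : ∀ X ∈ MaxE m V, X ⊆ D := by
    intro X hX
    rw [hD0]
    exact (Set.subset_biUnion_of_mem (u := fun X => X) hX).trans (subset_cl _)
  have hcdX : ∀ X ∈ MaxE m V, k + 1 ≤ cd X := by
    intro X hX
    have h1 := MaxE.lt hX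
    rw [k9g6_card] at h1
    omega
  have hDA : cl (acl A) D = D := by
    rw [hD0]
    exact k9t7_cl fun X hX => ⟨MaxE.irr hX, MaxE.closed hX hVA⟩
  have hcomp := finite_comp hD
  have hdense : ∀ W, Comp D W → ∀ Z, ZClosed Z → (∀ X ∈ MaxE m V, X ⊆ W → X ⊆ Z) → W ⊆ Z := by
    intro W hW Z hZ hSZ
    rw [hD0] at hW
    exact k9t7_dense (fun X hX => MaxE.irr hX) hW hZ hSZ
  have hone : ∀ W, Comp D W → (¬ ∃ y0 : Fin m → ℂˣ, ∀ p ∈ W, ∀ i, p (Sum.inr i) = y0 i) → k + 1 ≤ cd W := by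
    intro W hW hy
    obtain ⟨X, hX, hXS⟩ := exists_gens hAf (Y := W) hW.irr (S := {X | X ∈ MaxE m V ∧ X ⊆ W}) (Comp.cl hDA hW)
      (fun X hX => ⟨MaxE.irr hX.1, MaxE.closed hX.1 hVA, hX.2⟩)
      (fun Z hZ hSZ => hdense W hW Z hZ fun X hX hXW => hSZ X ⟨hX, hXW⟩)
    exact cdx_ge h hAf hCA hV hVC (hW.subset.trans hDV) hX (fun n => (hXS n).1) hy
  refine ⟨((hcomp.image fun W => (fun i => (if hW : W.Nonempty then hW.some (Sum.inr i) else 1) :
    Fin m → ℂˣ)).inter_of_left {y : Fin m → ℂˣ | y ∈ C ∧ 1 ≤ rk ({y} : Set (Fin m → ℂˣ))}).toFinset, ?_, ?_, ?_⟩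
  · exact Finset.finite_toSet _
  · intro y hy
    rw [Finset.mem_coe, Set.Finite.mem_toFinset] at hy
    exact hy.2
  refine hcomp.subset ?_
  rintro X ⟨hX, hXF⟩
  have hXi := MaxE.irr hX
  obtain ⟨W, hW, hXW⟩ := exists_comp hD hXi (hXD X hX)
  by_cases hy : ∃ y0 : Fin m → ℂˣ, ∀ p ∈ W, ∀ i, p (Sum.inr i) = y0 i
  · exfalso
    obtain ⟨y0, hy0⟩ := hy
    have hne : W.Nonempty := hW.irr.nonempty
    refine hXF ⟨y0, ?_, fun x hx i => hy0 x (hXW hx) i⟩
    rw [Finset.mem_coe, Set.Finite.mem_toFinset]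
    refine ⟨⟨W, hW, ?_⟩, ?_⟩
    · funext i
      beta_reduce
      rw [dif_pos hne]
      exact hy0 _ hne.some_mem i
    · obtain ⟨p, hp⟩ := hXi.nonempty
      have h1 := hVC p (MaxE.subset hX hp)
      have h2 : (fun i => p (Sum.inr i)) = y0 := funext fun i => hy0 _ (hXW hp) i
      rw [h2] at h1
      refine ⟨h1, ?_⟩
      have h3 := rk_le_fib hXi (y0 := y0) fun q hq i => hy0 q (hXW hq) i
      have h4 := hcdX X hX
      omega
  · have h1 := hone W hW hy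
    rw [MaxE.eq hX hW.irr (hW.subset.trans hDV) (by rw [k9g6_card]; omega) hXW]
    exact hW

end Pool.Agent.Z9
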