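import Pool.Agent.Z9.H0

namespace Pool.Agent.Z9

open Pool.Agent.ZL2 Filter Topology
open Pool.Agent.Z5 (fr Gen ev2 Alg d1_H d1_mk d1_ev d1_ev_mk d1_ext)
open Pool.Agent.Z6 (dt w6_L)
open Pool.Agent.Z7 (lg Cv HHp Chart)
open Pool.Agent.Z8 (sp evk rwk lev)

variable {k m : ℕ} [NeZero m] {S : Sk k m} {u' : Fin m → ℝ} {y1 : Fin m → ℂ} {ρ0 ρ : ℝ} {η ℓ : Fin m → ℂ → ℂ} {χ : ℂ → ℂ}

/-- Row Z9-W0a. PROOF. `f0 t = ∑ i, u' i * ℓ i t`, `deriv f0 = dF u' η` (`Chart.der`), not zero at `y1 0`, so not zero on a smaller ball `ρ0` (`Chart` restricts to smaller balls: see `Chart.mono`/`hch.mono` in Z7, e.g. Z7/W1.lean; its field `uniq` by intersecting). `(f0 t).re = dt u' (lg (η t))` (`Chart.re_eq`). `schwarz` (Z5/D?, used in Z7/W1.lean and Z8/B3.lean) gives `χ` with `χ t = conj t` on the level curve,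
and `reflect` with `g = f0` (accumulating zeros: `hacc`, `hch.uniq`) gives `f0 t + conj (f0 (conj (χ t))) = 0` and `conj (χ t) ∈ ball ρ0` on a ball `ρ`. See the proofs of `Z7.W1` and `k8b3_setup`. -/
theorem exists_Loc (S : Sk k m) {y1 : Fin m → ℂ} (hy : y1 ∈ S.C) (hyE : y1 ∉ S.E) {u' : Fin m → ℝ}
    (hu : dt u' (lg y1) = 0) {ρ1 : ℝ} {η ℓ : Fin m → ℂ → ℂ} (hch : Chart S.toCv y1 ρ1 η ℓ)
    (hcr : dF u' η (y1 0) ≠ 0) (hacc : ∀ O ∈ 𝓝 y1, ∃ y ∈ O, y ∈ S.C ∧ y 0 ≠ y1 0 ∧ dt u' (lg y) = 0) :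
    ∃ (ρ0 ρ : ℝ) (χ : ℂ → ℂ), ρ0 ≤ ρ1 ∧ Loc S u' y1 ρ0 ρ η ℓ χ := by
  have ht0m : y1 0 ∈ Metric.ball (y1 0) ρ1 := Metric.mem_ball_self hch.pos
  have hcont : ContinuousAt (dF u' η) (y1 0) := by
    unfold dF
    refine tendsto_finsetSum _ fun i _ => ?_
    have h1 : ContinuousAt (deriv (η i)) (y1 0) :=
      (((hch.diff i).deriv Metric.isOpen_ball).differentiableAt (Metric.ball_mem_nhds _ hch.pos)).continuousAt
    have h2 : ContinuousAt (η i) (y1 0) :=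
      ((hch.diff i).differentiableAt (Metric.ball_mem_nhds _ hch.pos)).continuousAt
    exact continuousAt_const.mul (h1.div h2 (hch.ne i _ ht0m))
  obtain ⟨ρa, hρa, hba⟩ := Metric.mem_nhds_iff.1 (hcont.eventually_ne hcr)
  have hre : ∀ t ∈ Metric.ball (y1 0) ρ1, (∑ i, (u' i : ℂ) * ℓ i t).re = dt u' (lg fun i => η i t) := by
    intro t ht
    rw [Complex.re_sum]
    unfold Z6.dt
    refine Finset.sum_congr rfl fun i _ => ?_
    rw [Complex.re_ofReal_mul, hch.re_eq i ht]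
  have hfd : ∀ t ∈ Metric.ball (y1 0) ρ1,
      HasDerivAt (fun t => ∑ i, (u' i : ℂ) * ℓ i t) (∑ i, (u' i : ℂ) * (deriv (η i) t / η i t)) t := by
    intro t ht
    exact HasDerivAt.fun_sum (u := Finset.univ) (A := fun i t => (u' i : ℂ) * ℓ i t)
      (A' := fun i => (u' i : ℂ) * (deriv (η i) t / η i t)) (x := t)
      (fun i _ => (hch.der i t ht).const_mul _)
  have hb : (fun i => η i (y1 0)) = y1 := funext hch.base
  have hre0 : (∑ i, (u' i : ℂ) * ℓ i (y1 0)).re = 0 := by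
    rw [hre _ ht0m, hb]; exact hu
  obtain ⟨ρb, hρb, χ, hχ, hχ2⟩ := Pool.Agent.Z5.schwarz (f := fun t => ∑ i, (u' i : ℂ) * ℓ i t) (t0 := y1 0)
    (by
      filter_upwards [Metric.ball_mem_nhds (y1 0) hch.pos] with t ht
      exact (hfd t ht).differentiableAt)
    (by rw [(hfd _ ht0m).deriv]; exact hcr)
    hre0
  obtain ⟨ρ0, hρ0, h01, h0a, h0b⟩ : ∃ ρ0, 0 < ρ0 ∧ ρ0 ≤ ρ1 ∧ ρ0 ≤ ρa ∧ ρ0 ≤ ρb :=
    ⟨min ρ1 (min ρa ρb), lt_min hch.pos (lt_min hρa hρb), min_le_left _ _,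
      (min_le_right _ _).trans (min_le_left _ _), (min_le_right _ _).trans (min_le_right _ _)⟩
  have s1 := Metric.ball_subset_ball (x := y1 0) h01
  have sa := Metric.ball_subset_ball (x := y1 0) h0a
  have sb := Metric.ball_subset_ball (x := y1 0) h0b
  have hch0 : Chart S.toCv y1 ρ0 η ℓ := hch.mono hρ0 h01
  obtain ⟨ρ, hρ, hρρ0, href⟩ := Pool.Agent.Z5.reflect (f := fun t => ∑ i, (u' i : ℂ) * ℓ i t)
    (g := fun t => ∑ i, (u' i : ℂ) * ℓ i t) (χ := χ) hρ0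
    (fun t ht => (hfd t (s1 ht)).differentiableAt.differentiableWithinAt) (hχ.mono sb)
    (fun t ht h => hχ2 t (sb ht) h) hre0 (by
      intro O hO
      have h1 : {y : Fin m → ℂ | y 0 ∈ O} ∈ 𝓝 y1 :=
        ((continuous_apply (0 : Fin m)).continuousAt (x := y1)).eventually hO
      obtain ⟨y, hyO, hyC, hy0, hyu⟩ := hacc _ (Filter.inter_mem h1 hch0.uniq)
      obtain ⟨hyb, hyη⟩ := hyO.2 hyC
      have h2 : (∑ i, (u' i : ℂ) * ℓ i (y 0)).re = 0 := by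
        rw [hre _ (s1 hyb)]
        have h3 : (fun i => η i (y 0)) = y := funext fun i => (hyη i).symm
        rw [h3]
        exact hyu
      exact ⟨y 0, hyO.1, hy0, h2, h2⟩)
  refine ⟨ρ0, ρ, χ, h01, ⟨hch0, hρ, hρρ0, hy, hyE, hu, fun t ht => hba (sa ht),
    hχ.mono ((Metric.ball_subset_ball hρρ0).trans sb), fun t ht => (href t ht).1, ?_, ?_, hacc⟩⟩
  · intro t ht h
    have ht0 := Metric.ball_subset_ball hρρ0 ht
    rw [hχ2 t (sb ht0) (by rw [hre t (s1 ht0)]; exact h), Complex.conj_conj]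
  · intro t ht
    have h1 := (href t ht).2
    rw [map_sum] at h1
    rw [← h1, ← Finset.sum_add_distrib]
    refine Finset.sum_congr rfl fun i _ => ?_
    rw [map_mul, Complex.conj_ofReal, mul_add]

/-- Row Z9-W0b. Differentiability of the coefficient functions (compositions; `w7_L_deriv`; `conj ∘ g ∘ conj` is holomorphic, `hasDerivAt_conj_conj`). -/
theorem Loc.aF_diff (h : Loc S u' y1 ρ0 ρ η ℓ χ) (α : Fin k →₀ ℕ) :
    DifferentiableOn ℂ (aF S η α) (Metric.ball (y1 0) ρ0) := by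
  unfold aF
  simp only [MvPolynomial.eval_eq']
  refine DifferentiableOn.fun_sum fun d _ => DifferentiableOn.const_mul ?_ _
  intro t ht
  refine DifferentiableAt.differentiableWithinAt ?_
  refine DifferentiableAt.fun_finsetProd fun i _ => ?_
  exact ((h.ch.diff i).differentiableAt (Metric.isOpen_ball.mem_nhds ht)).fun_pow _

theorem Loc.dF_diff (h : Loc S u' y1 ρ0 ρ η ℓ χ) (w : Fin m → ℝ) :
    DifferentiableOn ℂ (dF w η) (Metric.ball (y1 0) ρ0) := by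
  unfold dF
  refine DifferentiableOn.fun_sum fun i _ => DifferentiableOn.const_mul ?_ _
  exact ((h.ch.diff i).deriv Metric.isOpen_ball).fun_div (h.ch.diff i) fun t ht => h.ch.ne i t ht

theorem Loc.lF_diff (h : Loc S u' y1 ρ0 ρ η ℓ χ) (w : Fin m → ℝ) :
    DifferentiableOn ℂ (lF w ℓ χ) (Metric.ball (y1 0) ρ) := by
  unfold lF
  refine DifferentiableOn.fun_sum fun i _ => DifferentiableOn.const_mul ?_ _
  intro t ht
  exact (Pool.Agent.Z7.w7_L_deriv h.le h.ch.diff h.ch.ne h.ch.der h.χd h.χb i t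
    ht).differentiableAt.differentiableWithinAt

theorem Loc.nF_diff (h : Loc S u' y1 ρ0 ρ η ℓ χ) (M' : Fin k → Fin m → ℝ) (α : Fin k →₀ ℕ) :
    DifferentiableOn ℂ (nF S M' η ℓ χ α) (Metric.ball (y1 0) ρ) := by
  intro t ht
  have e1 : HasDerivAt (aF S η α) (deriv (aF S η α) ((starRingEnd ℂ) (χ t))) ((starRingEnd ℂ) (χ t)) :=
    ((h.aF_diff α).differentiableAt (Metric.isOpen_ball.mem_nhds (h.χb t ht))).hasDerivAt
  have e2 : HasDerivAt χ (deriv χ t) t := (h.χd.differentiableAt (Metric.isOpen_ball.mem_nhds ht)).hasDerivAt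
  have e3 : DifferentiableAt ℂ (fun t => (starRingEnd ℂ) (aF S η α ((starRingEnd ℂ) (χ t)))) t :=
    ((Pool.Agent.Z5.hasDerivAt_conj_conj e1).comp t e2).differentiableAt
  have e4 : DifferentiableAt ℂ (fun t => ∏ j, Complex.exp (2 * lF (M' j) ℓ χ t) ^ α j) t := by
    refine DifferentiableAt.fun_finsetProd fun j _ => ?_
    have e5 := (h.lF_diff (M' j)).differentiableAt (Metric.isOpen_ball.mem_nhds ht)
    exact ((e5.const_mul 2).cexp).fun_pow _
  exact (e3.fun_mul e4).differentiableWithinAt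

theorem Loc.bF_diff (h : Loc S u' y1 ρ0 ρ η ℓ χ) (u1 : Fin m → ℝ) (M' M1 : Fin k → Fin m → ℝ) (j : Fin k) :
    DifferentiableOn ℂ (bF u' u1 M' M1 η ℓ χ j) (Metric.ball (y1 0) ρ) := by
  have hs : Metric.ball (y1 0) ρ ⊆ Metric.ball (y1 0) ρ0 := Metric.ball_subset_ball h.le
  unfold bF
  exact (((h.dF_diff (M' j)).mono hs).fun_mul (h.lF_diff u1)).fun_sub
    ((h.lF_diff (M1 j)).fun_mul ((h.dF_diff u').mono hs))

/-- On the level curve `L_i = log |y_i|`. -/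
theorem Loc.lF_real (h : Loc S u' y1 ρ0 ρ η ℓ χ) (w : Fin m → ℝ) {t : ℂ} (ht : t ∈ Metric.ball (y1 0) ρ)
    (hr : dt u' (lg fun i => η i t) = 0) : lF w ℓ χ t = ((dt w (lg fun i => η i t) : ℝ) : ℂ) := by
  unfold lF w6_L Pool.Agent.Z6.dt
  rw [h.χr t ht hr]
  push_cast
  refine Finset.sum_congr rfl fun i _ => ?_
  rw [← h.ch.re_eq i (Metric.ball_subset_ball h.le ht), Complex.add_conj]
  push_cast
  ring

theorem k9w0b_evk (Φ : MvPolynomial (Fin k) (MvPolynomial (Fin m) ℂ)) (x : Fin k → ℂ) (y : Fin m → ℂ) :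
    evk Φ x y = ∑ α ∈ Φ.support, MvPolynomial.eval y (Φ.coeff α) * ∏ j, x j ^ α j := by
  unfold evk sp
  rw [MvPolynomial.eval_map, MvPolynomial.eval₂_eq']

/-- Row Z9-W0c. Values of the polynomials. -/
theorem Loc.evH_Phi (h : Loc S u' y1 ρ0 ρ η ℓ χ) (x : Fin k → ℂ) {t : ℂ} (ht : t ∈ Metric.ball (y1 0) ρ) :
    evH (PhiH S (y1 0) ρ η) x t = evk S.Φ x (fun i => η i t) := by
  unfold PhiH
  rw [evH_sum _ _ _ ht, k9w0b_evk]
  refine Finset.sum_congr rfl fun α _ => ?_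
  rw [evH_monomial _ _ _ ht, fnH_mk ((h.aF_diff α).mono (Metric.ball_subset_ball h.le)) ht]
  rfl

theorem Loc.PhiH_ne (h : Loc S u' y1 ρ0 ρ η ℓ χ) (hk : 1 ≤ k) : PhiH S (y1 0) ρ η ≠ 0 := by
  intro h0
  have he : (fun _ => 1 : Fin k → ℤ) ≠ 0 := by
    intro h1
    have h2 := congrFun h1 ⟨0, hk⟩
    simp at h2
  obtain ⟨α, hα, -⟩ := S.full _ he
  have h1 := congrArg (fun P => MvPolynomial.coeff α P) h0
  simp only [MvPolynomial.coeff_zero] at h1
  unfold PhiH at h1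
  classical
  rw [MvPolynomial.coeff_sum] at h1
  simp only [MvPolynomial.coeff_monomial] at h1
  rw [Finset.sum_ite_eq', if_pos hα] at h1
  have ht := Metric.mem_ball_self (x := y1 0) h.pos
  have h2 := fnH_mk ((h.aF_diff α).mono (Metric.ball_subset_ball h.le)) ht
  rw [h1, fnH_zero] at h2
  have h3 : aF S η α (y1 0) = MvPolynomial.eval y1 (S.Φ.coeff α) := by
    unfold aF
    have : (fun i => η i (y1 0)) = y1 := funext fun i => h.ch.base i
    rw [this]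
  rw [h3] at h2
  exact S.coef y1 h.mem h.nE α hα h2.symm

/-- `N(x, t) = x^D * conj (Φ (conj R / conj x, conj χ))`. -/
theorem Loc.evH_N (h : Loc S u' y1 ρ0 ρ η ℓ χ) (M' : Fin k → Fin m → ℝ) {x : Fin k → ℂ} (hx : ∀ j, x j ≠ 0) {t : ℂ}
    (ht : t ∈ Metric.ball (y1 0) ρ) :
    evH (NH S (y1 0) ρ M' η ℓ χ) x t = (∏ j, x j ^ (S.Φ.support.sup id) j) * (starRingEnd ℂ) (evk S.Φ
      (fun j => (starRingEnd ℂ) (Complex.exp (2 * lF (M' j) ℓ χ t)) / (starRingEnd ℂ) (x j))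
      (fun i => η i ((starRingEnd ℂ) (χ t)))) := by
  unfold NH
  rw [evH_sum _ _ _ ht, k9w0b_evk, map_sum, Finset.mul_sum]
  refine Finset.sum_congr rfl fun α hα => ?_
  rw [evH_monomial _ _ _ ht, fnH_mk (h.nF_diff M' α) ht, map_mul, map_prod]
  have hle : α ≤ S.Φ.support.sup id := Finset.le_sup (f := id) hα
  have e1 : ∀ j, x j ^ (S.Φ.support.sup id - α) j * Complex.exp (2 * lF (M' j) ℓ χ t) ^ α j =
      x j ^ (S.Φ.support.sup id) j * (starRingEnd ℂ) (((starRingEnd ℂ) (Complex.exp (2 * lF (M' j) ℓ χ t)) /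
        (starRingEnd ℂ) (x j)) ^ α j) := by
    intro j
    rw [map_pow, map_div₀, Complex.conj_conj, Complex.conj_conj, div_pow, Finsupp.tsub_apply]
    have e2 : x j ^ (S.Φ.support.sup id) j = x j ^ ((S.Φ.support.sup id) j - α j) * x j ^ α j := by
      rw [← pow_add, Nat.sub_add_cancel (hle j)]
    rw [e2]
    have := hx j
    field_simp
  unfold nF
  have e3 : (∏ j, Complex.exp (2 * lF (M' j) ℓ χ t) ^ α j) * ∏ j, x j ^ (S.Φ.support.sup id - α) j =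
      (∏ j, x j ^ (S.Φ.support.sup id) j) * ∏ j, (starRingEnd ℂ) (((starRingEnd ℂ)
        (Complex.exp (2 * lF (M' j) ℓ χ t)) / (starRingEnd ℂ) (x j)) ^ α j) := by
    rw [← Finset.prod_mul_distrib, ← Finset.prod_mul_distrib]
    exact Finset.prod_congr rfl fun j _ => by rw [← e1 j, mul_comm]
  rw [mul_assoc, e3]
  unfold aF
  ring

/-- Row Z9-W0d. At the limit points the reflected polynomial vanishes: `evH_N`, the reflection fixes the point (`χr`, `lF_real`: `exp (2 lF (M' j)) = |x_j|^2`). -/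
theorem NH_lim (h : Loc S u' y1 ρ0 ρ η ℓ χ) (M' : Fin k → Fin m → ℝ) {p : (Fin k → ℂ) × (Fin m → ℂ)}
    (hp0 : ∀ j, p.1 j ≠ 0) (hpr : dt u' (lg p.2) = 0) (hpM : ∀ j, lg p.1 j = dt (M' j) (lg p.2))
    (hpb : p.2 0 ∈ Metric.ball (y1 0) ρ) (hpη : ∀ i, p.2 i = η i (p.2 0)) (hΦ : evk S.Φ p.1 p.2 = 0) :
    evH (NH S (y1 0) ρ M' η ℓ χ) p.1 (p.2 0) = 0 := by
  have hη : (fun i => η i (p.2 0)) = p.2 := funext fun i => (hpη i).symm
  have hr : dt u' (lg fun i => η i (p.2 0)) = 0 := by rw [hη]; exact hpr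
  rw [h.evH_N M' hp0 hpb, h.χr _ hpb hr, hη]
  have e1 : (fun j => (starRingEnd ℂ) (Complex.exp (2 * lF (M' j) ℓ χ (p.2 0))) / (starRingEnd ℂ) (p.1 j)) = p.1 := by
    funext j
    have n1 : (starRingEnd ℂ) (p.1 j) ≠ 0 := (_root_.map_ne_zero _).2 (hp0 j)
    have n2 : 0 < ‖p.1 j‖ := norm_pos_iff.2 (hp0 j)
    rw [h.lF_real (M' j) hpb hr, hη, ← hpM j, div_eq_iff n1, Complex.mul_conj, Complex.normSq_eq_norm_sq]
    have e2 : Complex.exp (2 * ((lg p.1 j : ℝ) : ℂ)) = ((‖p.1 j‖ ^ 2 : ℝ) : ℂ) := by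
      have e3 : (2 * ((lg p.1 j : ℝ) : ℂ)) = ((Real.log (‖p.1 j‖ ^ 2) : ℝ) : ℂ) := by
        rw [Real.log_pow]
        unfold lg
        push_cast
        ring
      rw [e3, ← Complex.ofReal_exp, Real.exp_log (by positivity)]
    rw [e2, Complex.conj_ofReal]
  rw [e1, hΦ, map_zero, mul_zero]

end Pool.Agent.Z9
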