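import Pool.Agent.Z9.W0
import Pool.Agent.Z9.L0

namespace Pool.Agent.Z9

open Pool.Agent.ZL2 Filter Topology
open Pool.Agent.Z5 (fr Gen ev2 Alg d1_H d1_mk d1_ev d1_ev_mk d1_ext)
open Pool.Agent.Z6 (dt w6_L)
open Pool.Agent.Z7 (lg Cv HHp Chart)
open Pool.Agent.Z8 (sp evk rwk lev)

variable {k m : ℕ} [NeZero m] {S : Sk k m} {U : Ultrafilter ℕ} {u' u1 : Fin m → ℝ} {M' M1 : Fin k → Fin m → ℝ} {ε : ℕ → ℝ}
  {y1 : Fin m → ℂ} {ρ0 ρ : ℝ} {η ℓ : Fin m → ℂ → ℂ} {χ : ℂ → ℂ}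

/-- The slope of a strictly differentiable function tends to the derivative. -/
theorem k9w1ab_slope {U : Filter ℕ} {f : ℂ → ℂ} {a t' : ℂ} (hf : HasStrictDerivAt f a t') {s τ : ℕ → ℂ}
    (hs : Tendsto s U (𝓝 t')) (hτ : Tendsto τ U (𝓝 t')) :
    ∃ g : ℕ → ℂ, Tendsto g U (𝓝 a) ∧ ∀ n, f (s n) - f (τ n) = g n * (s n - τ n) := by
  classical
  refine ⟨fun n => if s n = τ n then a else (f (s n) - f (τ n)) / (s n - τ n), ?_, ?_⟩
  · rw [Metric.tendsto_nhds]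
    intro c hc
    have h1 := hf.isLittleO.def (half_pos hc)
    have h2 := (hs.prodMk_nhds hτ).eventually h1
    filter_upwards [h2] with n hn
    by_cases h : s n = τ n
    · simp only [if_pos h, dist_self]
      exact hc
    · simp only [if_neg h]
      have h3 : s n - τ n ≠ 0 := sub_ne_zero.2 h
      have h4 : 0 < ‖s n - τ n‖ := norm_pos_iff.2 h3
      rw [dist_eq_norm]
      have h5 : (f (s n) - f (τ n)) / (s n - τ n) - a = (f (s n) - f (τ n) - (s n - τ n) * a) / (s n - τ n) := by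
        field_simp
      rw [h5, norm_div, div_lt_iff₀ h4]
      have h6 : ‖f (s n) - f (τ n) - (s n - τ n) * a‖ ≤ c / 2 * ‖s n - τ n‖ := by
        simpa using hn
      nlinarith
  · intro n
    by_cases h : s n = τ n
    · simp only [h, sub_self, mul_zero]
    · simp only [if_neg h]
      have h3 : s n - τ n ≠ 0 := sub_ne_zero.2 h
      field_simp

theorem k9w1ab_quot {U : Filter ℕ} {f : ℂ → ℂ} {a t' c : ℂ} (hf : HasStrictDerivAt f a t') (ha : a ≠ 0)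
    {s τ e : ℕ → ℂ} (hs : Tendsto s U (𝓝 t')) (hτ : Tendsto τ U (𝓝 t'))
    (h : Tendsto (fun n => (f (s n) - f (τ n)) / e n) U (𝓝 c)) :
    Tendsto (fun n => (s n - τ n) / e n) U (𝓝 (c / a)) := by
  obtain ⟨g, hg, hg2⟩ := k9w1ab_slope hf hs hτ
  refine (h.div hg ha).congr' ?_
  filter_upwards [hg.eventually_ne ha] with n hn
  rw [Pi.div_apply, hg2 n]
  field_simp

theorem k9w1ab_mul {U : Filter ℕ} {f : ℂ → ℂ} {a t' c : ℂ} (hf : HasStrictDerivAt f a t')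
    {s τ e : ℕ → ℂ} (hs : Tendsto s U (𝓝 t')) (hτ : Tendsto τ U (𝓝 t'))
    (h : Tendsto (fun n => (s n - τ n) / e n) U (𝓝 c)) :
    Tendsto (fun n => (f (s n) - f (τ n)) / e n) U (𝓝 (a * c)) := by
  obtain ⟨g, hg, hg2⟩ := k9w1ab_slope hf hs hτ
  refine (hg.mul h).congr' (Filter.Eventually.of_forall fun n => ?_)
  simp only [hg2 n]
  ring

theorem k9w1ab_strict (hL : Loc S u' y1 ρ0 ρ η ℓ χ) (w : Fin m → ℝ) {t : ℂ} (ht : t ∈ Metric.ball (y1 0) ρ0) :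
    HasStrictDerivAt (fun s => ∑ i, (w i : ℂ) * ℓ i s) (dF w η t) t := by
  have hd : ∀ s ∈ Metric.ball (y1 0) ρ0, HasDerivAt (fun s => ∑ i, (w i : ℂ) * ℓ i s) (dF w η s) s := by
    intro s hs
    unfold dF
    exact HasDerivAt.fun_sum fun i _ => (hL.ch.der i s hs).const_mul _
  have hdo : DifferentiableOn ℂ (fun s => ∑ i, (w i : ℂ) * ℓ i s) (Metric.ball (y1 0) ρ0) :=
    fun s hs => (hd s hs).differentiableAt.differentiableWithinAt
  have han : AnalyticAt ℂ (fun s => ∑ i, (w i : ℂ) * ℓ i s) t :=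
    hdo.analyticAt (Metric.isOpen_ball.mem_nhds ht)
  have h := han.hasStrictDerivAt
  rwa [(hd t ht).deriv] at h

theorem k9w1ab_lg (hL : Loc S u' y1 ρ0 ρ η ℓ χ) {t : ℂ} (ht : t ∈ Metric.ball (y1 0) ρ0) {y : Fin m → ℂ}
    (hy : ∀ i, y i = η i t) (w : Fin m → ℝ) :
    ∑ i, (w i : ℂ) * ℓ i t + (starRingEnd ℂ) (∑ i, (w i : ℂ) * ℓ i t) = 2 * ((dt w (lg y) : ℝ) : ℂ) := by
  have h1 : y = fun i => η i t := funext hy
  have h2 : ∀ i, lg y i = (ℓ i t).re := fun i => by rw [h1, hL.ch.re_eq i ht]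
  rw [Complex.add_conj]
  unfold Z6.dt
  simp only [h2, Complex.re_sum, Complex.re_ofReal_mul]
  push_cast
  ring

omit [NeZero m] in
theorem k9w1ab_dt_sub (c : ℝ) (v w y : Fin m → ℝ) : dt (c • (v - w)) y = c * (dt v y - dt w y) := by
  unfold Z6.dt
  rw [← Finset.sum_sub_distrib, Finset.mul_sum]
  exact Finset.sum_congr rfl fun i _ => by simp only [Pi.smul_apply, Pi.sub_apply, smul_eq_mul]; ring

/-- The basic facts along the sequence. -/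
theorem k9w1ab_basic {Z : Sq S U} (hL : Loc S u' y1 ρ0 ρ η ℓ χ)
    {p : (Fin k → ℂ) × (Fin m → ℂ)} {σ : ∀ n, Z.ι n}
    (hσ : Tendsto (fun n => (Z.x n (σ n), Z.y n (σ n))) (U : Filter ℕ) (𝓝 p)) (hpr : dt u' (lg p.2) = 0)
    (hpb : p.2 0 ∈ Metric.ball (y1 0) ρ) (hpη : ∀ i, p.2 i = η i (p.2 0)) :
    Tendsto (fun n => Z.y n (σ n) 0) (U : Filter ℕ) (𝓝 (p.2 0)) ∧
    (∀ᶠ n in (U : Filter ℕ), Z.y n (σ n) 0 ∈ Metric.ball (y1 0) ρ) ∧
    Tendsto (fun n => (starRingEnd ℂ) (χ (Z.y n (σ n) 0))) (U : Filter ℕ) (𝓝 (p.2 0)) ∧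
    Tendsto (fun n => lg (Z.y n (σ n))) (U : Filter ℕ) (𝓝 (lg p.2)) := by
  have hy : Tendsto (fun n => Z.y n (σ n)) (U : Filter ℕ) (𝓝 p.2) := (continuous_snd.tendsto p).comp hσ
  have ht : Tendsto (fun n => Z.y n (σ n) 0) (U : Filter ℕ) (𝓝 (p.2 0)) := tendsto_pi_nhds.1 hy 0
  have hp' : p.2 = fun i => η i (p.2 0) := funext hpη
  have hfix : (starRingEnd ℂ) (χ (p.2 0)) = p.2 0 := by
    refine hL.χr _ hpb ?_
    rw [← hp']
    exact hpr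
  refine ⟨ht, ht.eventually (Metric.isOpen_ball.mem_nhds hpb), ?_, ?_⟩
  · have h1 : ContinuousAt χ (p.2 0) :=
      (hL.χd.differentiableAt (Metric.isOpen_ball.mem_nhds hpb)).continuousAt
    have h2 := (Complex.continuous_conj.tendsto _).comp (h1.tendsto.comp ht)
    rwa [hfix] at h2
  · refine tendsto_pi_nhds.2 fun i => ?_
    have h1 : p.2 i ≠ 0 := by
      rw [hpη i]
      exact hL.ch.ne i _ (Metric.ball_subset_ball hL.le hpb)
    have h2 : ContinuousAt (fun z : ℂ => Real.log ‖z‖) (p.2 i) :=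
      continuous_norm.continuousAt.log (norm_ne_zero_iff.2 h1)
    exact h2.tendsto.comp (tendsto_pi_nhds.1 hy i)

/-- Row Z9-W1a. The first order of the reflection. PROOF. Let `t n = Z.y n (σ n) 0`, `τ n = conj (χ (t n))`, `t' = p.2 0`; `τ n → t'` (`χr` at `t'`, continuity of `χ`). `f0 = ∑ i, u' i * ℓ i` is holomorphic near `t'` with derivative `dF u' η t' ≠ 0`. By `χf`, `f0 (τ n) = - conj (f0 (t n))`, so `f0 (t n) - f0 (τ n) = 2 (f0 (t n)).re = 2 dt u' (lg y_n) = -2 dt (u n - u') (lg y_n)` (`r0`),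
divided by `ε n` it tends to `-2 dt u1 (lg p.2)`. `f0` is strictly differentiable at `t'` (analytic) with a nonzero derivative, so `t n - τ n = O (f0 (t n) - f0 (τ n))` and `(t n - τ n) / ε n → -2 dt u1 (lg p.2) / dF u' η t'` (`HasStrictDerivAt`, `isLittleO`). Compare `star` in Z5/Z7 (Z7/C1.lean). -/
theorem tau_lim {Z : Sq S U} (hB : Blow Z u' u1 M' M1 ε) (hL : Loc S u' y1 ρ0 ρ η ℓ χ)
    {p : (Fin k → ℂ) × (Fin m → ℂ)} {σ : ∀ n, Z.ι n}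
    (hσ : Tendsto (fun n => (Z.x n (σ n), Z.y n (σ n))) (U : Filter ℕ) (𝓝 p)) (hpr : dt u' (lg p.2) = 0)
    (hpb : p.2 0 ∈ Metric.ball (y1 0) ρ) (hpη : ∀ i, p.2 i = η i (p.2 0))
    (hη : ∀ᶠ n in (U : Filter ℕ), ∀ i, Z.y n (σ n) i = η i (Z.y n (σ n) 0)) :
    Tendsto (fun n => (starRingEnd ℂ) (χ (Z.y n (σ n) 0))) (U : Filter ℕ) (𝓝 (p.2 0)) ∧
    Tendsto (fun n => (Z.y n (σ n) 0 - (starRingEnd ℂ) (χ (Z.y n (σ n) 0))) / (ε n : ℂ)) (U : Filter ℕ)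
      (𝓝 (-2 * ((dt u1 (lg p.2) : ℝ) : ℂ) / dF u' η (p.2 0))) := by
  obtain ⟨ht, htb, hτ, hlg⟩ := k9w1ab_basic hL hσ hpr hpb hpη
  have hpb0 : p.2 0 ∈ Metric.ball (y1 0) ρ0 := Metric.ball_subset_ball hL.le hpb
  refine ⟨hτ, k9w1ab_quot (k9w1ab_strict hL u' hpb0) (hL.cr _ hpb0) ht hτ ?_⟩
  have h1 : Tendsto (fun n => dt ((ε n)⁻¹ • (Z.u n - u')) (lg (Z.y n (σ n)))) (U : Filter ℕ)
      (𝓝 (dt u1 (lg p.2))) := Z6.c3_dt hB.h1 hlg
  have h2 : Tendsto (fun n => -2 * ((dt ((ε n)⁻¹ • (Z.u n - u')) (lg (Z.y n (σ n))) : ℝ) : ℂ)) (U : Filter ℕ)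
      (𝓝 (-2 * ((dt u1 (lg p.2) : ℝ) : ℂ))) :=
    ((Complex.continuous_ofReal.tendsto _).comp h1).const_mul _
  refine h2.congr' ?_
  filter_upwards [htb, hη, hB.pos] with n hn1 hn2 hn3
  have hn0 : Z.y n (σ n) 0 ∈ Metric.ball (y1 0) ρ0 := Metric.ball_subset_ball hL.le hn1
  have h3 := hL.χf _ hn1
  have h4 := k9w1ab_lg hL hn0 hn2 u'
  have h5 : ∑ i, (u' i : ℂ) * ℓ i ((starRingEnd ℂ) (χ (Z.y n (σ n) 0))) =
      - (starRingEnd ℂ) (∑ i, (u' i : ℂ) * ℓ i (Z.y n (σ n) 0)) := by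
    have h6 := congrArg (starRingEnd ℂ) h3
    rw [map_sum, map_zero] at h6
    rw [map_sum, eq_neg_iff_add_eq_zero, ← Finset.sum_add_distrib, ← h6]
    refine Finset.sum_congr rfl fun i _ => ?_
    simp only [map_mul, map_add, Complex.conj_ofReal, Complex.conj_conj]
    ring
  have h7 : (ε n : ℂ) ≠ 0 := Complex.ofReal_ne_zero.2 hn3.ne'
  rw [k9w1ab_dt_sub, Z.r0 n (σ n), h5, sub_neg_eq_add, h4]
  push_cast
  field_simp
  ring

/-- Row Z9-W1b. The first order of the reflection of `x_j`. PROOF. `x_j conj(x_j) = exp (2 dt (M n j) (lg y_n))` (`r1`), so the quotient of `x_j` and `conj (exp (2 lF (M' j) ℓ χ (t n))) / conj (x_j)` is `exp (λ n)` with `λ n = 2 dt (M n j) (lg y_n) - 2 conj (lF (M' j) ℓ χ (t n)) = 2 dt (M n j - M' j) (lg y_n) + ∑ i, M' j i * (ℓ i (t n) - ℓ i (τ n))`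
(`lF` is `∑ M' j i (ℓ_i(t) + conj (ℓ_i (τ))) / 2`, `lg y_n i = re (ℓ i (t n)) = (ℓ i (t n) + conj (ℓ i (t n))) / 2`). Divided by `ε n`: `→ 2 dt (M1 j) (lg p.2) + dF (M' j) η t' * lim (t n - τ n) / ε n` (`tau_lim`, `HasStrictDerivAt` of `∑ i, M' j i * ℓ i` at `t'`). -/
theorem lam_lim {Z : Sq S U} (hB : Blow Z u' u1 M' M1 ε) (hL : Loc S u' y1 ρ0 ρ η ℓ χ)
    {p : (Fin k → ℂ) × (Fin m → ℂ)} {σ : ∀ n, Z.ι n}
    (hσ : Tendsto (fun n => (Z.x n (σ n), Z.y n (σ n))) (U : Filter ℕ) (𝓝 p)) (hpr : dt u' (lg p.2) = 0)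
    (hpb : p.2 0 ∈ Metric.ball (y1 0) ρ) (hpη : ∀ i, p.2 i = η i (p.2 0))
    (hη : ∀ᶠ n in (U : Filter ℕ), ∀ i, Z.y n (σ n) i = η i (Z.y n (σ n) 0)) (j : Fin k) :
    ∃ lam : ℕ → ℂ, (∀ᶠ n in (U : Filter ℕ), Z.x n (σ n) j = Complex.exp (lam n) *
      ((starRingEnd ℂ) (Complex.exp (2 * lF (M' j) ℓ χ (Z.y n (σ n) 0))) / (starRingEnd ℂ) (Z.x n (σ n) j))) ∧
    Tendsto (fun n => lam n / (ε n : ℂ)) (U : Filter ℕ) (𝓝 (2 * ((dt (M1 j) (lg p.2) : ℝ) : ℂ) +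
      dF (M' j) η (p.2 0) * (-2 * ((dt u1 (lg p.2) : ℝ) : ℂ) / dF u' η (p.2 0)))) := by
  obtain ⟨ht, htb, hτ, hlg⟩ := k9w1ab_basic hL hσ hpr hpb hpη
  have hpb0 : p.2 0 ∈ Metric.ball (y1 0) ρ0 := Metric.ball_subset_ball hL.le hpb
  have hq := (tau_lim hB hL hσ hpr hpb hpη hη).2
  refine ⟨fun n => 2 * ((dt (Z.M n j) (lg (Z.y n (σ n))) : ℝ) : ℂ) -
    (starRingEnd ℂ) (2 * lF (M' j) ℓ χ (Z.y n (σ n) 0)), ?_, ?_⟩
  · refine Filter.Eventually.of_forall fun n => ?_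
    have hx := Z.hx n (σ n) j
    have hxc : (starRingEnd ℂ) (Z.x n (σ n) j) ≠ 0 := (map_ne_zero _).2 hx
    have h1 : Z.x n (σ n) j * (starRingEnd ℂ) (Z.x n (σ n) j) =
        Complex.exp (2 * ((dt (Z.M n j) (lg (Z.y n (σ n))) : ℝ) : ℂ)) := by
      rw [← Z.r1 n (σ n) j, Complex.mul_conj, Complex.normSq_eq_norm_sq]
      have h2 : ‖Z.x n (σ n) j‖ = Real.exp (lg (Z.x n (σ n)) j) := by
        unfold lg
        rw [Real.exp_log (norm_pos_iff.2 hx)]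
      rw [h2, ← Real.exp_nat_mul]
      push_cast
      rfl
    rw [← Complex.exp_conj, ← mul_div_assoc, ← Complex.exp_add, sub_add_cancel, ← h1]
    field_simp
  · have h1 : Tendsto (fun n => dt (((ε n)⁻¹ • (Z.M n - M')) j) (lg (Z.y n (σ n)))) (U : Filter ℕ)
        (𝓝 (dt (M1 j) (lg p.2))) := Z6.c3_dt (tendsto_pi_nhds.1 hB.h2 j) hlg
    have h2 : Tendsto (fun n => 2 * ((dt (((ε n)⁻¹ • (Z.M n - M')) j) (lg (Z.y n (σ n))) : ℝ) : ℂ)) (U : Filter ℕ)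
        (𝓝 (2 * ((dt (M1 j) (lg p.2) : ℝ) : ℂ))) :=
      ((Complex.continuous_ofReal.tendsto _).comp h1).const_mul _
    have h3 := k9w1ab_mul (k9w1ab_strict hL (M' j) hpb0) ht hτ hq
    refine (h2.add h3).congr' ?_
    filter_upwards [htb, hη, hB.pos] with n hn1 hn2 hn3
    have hn0 : Z.y n (σ n) 0 ∈ Metric.ball (y1 0) ρ0 := Metric.ball_subset_ball hL.le hn1
    have h4 := k9w1ab_lg hL hn0 hn2 (M' j)
    have h5 : (starRingEnd ℂ) (2 * lF (M' j) ℓ χ (Z.y n (σ n) 0)) =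
        (starRingEnd ℂ) (∑ i, (M' j i : ℂ) * ℓ i (Z.y n (σ n) 0)) +
        ∑ i, (M' j i : ℂ) * ℓ i ((starRingEnd ℂ) (χ (Z.y n (σ n) 0))) := by
      unfold lF w6_L
      rw [map_mul, map_sum, map_sum, ← Finset.sum_add_distrib, Finset.mul_sum]
      refine Finset.sum_congr rfl fun i _ => ?_
      simp only [map_mul, map_div₀, map_add, Complex.conj_ofReal, Complex.conj_conj, map_ofNat]
      ring
    have h7 : (ε n : ℂ) ≠ 0 := Complex.ofReal_ne_zero.2 hn3.ne'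
    have h8 : ((ε n)⁻¹ • (Z.M n - M')) j = (ε n)⁻¹ • (Z.M n j - M' j) := rfl
    rw [h8, k9w1ab_dt_sub, h5]
    have h9 : (starRingEnd ℂ) (∑ i, (M' j i : ℂ) * ℓ i (Z.y n (σ n) 0)) =
        2 * ((dt (M' j) (lg (Z.y n (σ n))) : ℝ) : ℂ) - ∑ i, (M' j i : ℂ) * ℓ i (Z.y n (σ n) 0) := by
      rw [← h4]
      ring
    rw [h9]
    push_cast
    field_simp
    ring

/-- Strict differentiability along two sequences. -/
theorem k9w1c_strict {l : Filter ℕ} {f : ℂ → ℂ} {f' a c : ℂ} (hf : HasStrictDerivAt f f' a) {u v : ℕ → ℂ} {ε : ℕ → ℝ}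
    (hu : Tendsto u l (𝓝 a)) (hv : Tendsto v l (𝓝 a))
    (h : Tendsto (fun n => (u n - v n) / (ε n : ℂ)) l (𝓝 c)) :
    Tendsto (fun n => (f (u n) - f (v n)) / (ε n : ℂ)) l (𝓝 (f' * c)) := by
  have h1 := (hf.hasStrictFDerivAt.isLittleO.comp_tendsto (hu.prodMk_nhds hv)).tendsto_div_nhds_zero
  have h2 := (h1.mul h).add (h.const_mul f')
  rw [zero_mul, zero_add] at h2
  refine h2.congr fun n => ?_
  simp only [Function.comp_apply, ContinuousLinearMap.toSpanSingleton_apply, smul_eq_mul]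
  by_cases hn : u n - v n = 0
  · have hn' : u n = v n := sub_eq_zero.1 hn
    rw [hn']
    simp
  · rw [div_mul_div_cancel₀ hn]
    ring

/-- The first order of the difference of two sums which vanish. -/
theorem k9w1c_lim (s : Finset (Fin k →₀ ℕ)) (a : (Fin k →₀ ℕ) → ℂ → ℂ) (a' : (Fin k →₀ ℕ) → ℂ) (t' : ℂ)
    (ha : ∀ α ∈ s, HasStrictDerivAt (a α) (a' α) t') {V : Filter ℕ} [V.NeBot] {ε : ℕ → ℝ}
    (hε : ∀ᶠ n in V, 0 < ε n) (hε0 : Tendsto ε V (𝓝 0)) {t τ : ℕ → ℂ} (ht : Tendsto t V (𝓝 t'))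
    (hτ : Tendsto τ V (𝓝 t')) {T1 : ℂ} (hT : Tendsto (fun n => (t n - τ n) / (ε n : ℂ)) V (𝓝 T1))
    {x xs : ℕ → Fin k → ℂ} {lam : Fin k → ℕ → ℂ} {Λ : Fin k → ℂ} {q : Fin k → ℂ} (hx : Tendsto x V (𝓝 q))
    (hxs : ∀ j, ∀ᶠ n in V, x n j = Complex.exp (lam j n) * xs n j)
    (hlam : ∀ j, Tendsto (fun n => lam j n / (ε n : ℂ)) V (𝓝 (Λ j)))
    (h1 : ∀ᶠ n in V, ∑ α ∈ s, a α (t n) * ∏ j, x n j ^ α j = 0)
    (h2 : ∀ᶠ n in V, ∑ α ∈ s, a α (τ n) * ∏ j, xs n j ^ α j = 0) :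
    ∑ α ∈ s, (a' α * T1 + a α t' * ∑ j, (α j : ℂ) * Λ j) * ∏ j, q j ^ α j = 0 := by
  have hall : ∀ᶠ n in V, ∀ j, x n j = Complex.exp (lam j n) * xs n j := eventually_all.2 hxs
  have key : ∀ α ∈ s, Tendsto (fun n => (a α (t n) * ∏ j, x n j ^ α j - a α (τ n) * ∏ j, xs n j ^ α j) / (ε n : ℂ)) V
      (𝓝 ((a' α * T1 + a α t' * ∑ j, (α j : ℂ) * Λ j) * ∏ j, q j ^ α j)) := by
    intro α hα
    set S : ℕ → ℂ := fun n => ∑ j, (α j : ℂ) * lam j n with hS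
    have hSε : Tendsto (fun n => S n / (ε n : ℂ)) V (𝓝 (∑ j, (α j : ℂ) * Λ j)) := by
      have := tendsto_finsetSum Finset.univ fun j (_ : j ∈ Finset.univ) => (hlam j).const_mul (α j : ℂ)
      refine this.congr fun n => ?_
      rw [hS, Finset.sum_div]
      exact Finset.sum_congr rfl fun j _ => (mul_div_assoc _ _ _).symm
    have hε0' : Tendsto (fun n => (ε n : ℂ)) V (𝓝 0) := by
      have := (Complex.continuous_ofReal.tendsto 0).comp hε0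
      rwa [Complex.ofReal_zero] at this
    have hS0 : Tendsto S V (𝓝 0) := by
      have := hSε.mul hε0'
      rw [mul_zero] at this
      refine this.congr' (hε.mono fun n hn => ?_)
      exact div_mul_cancel₀ _ (Complex.ofReal_ne_zero.2 hn.ne')
    have hexp : Tendsto (fun n => (Complex.exp (S n) - Complex.exp 0) / (ε n : ℂ)) V
        (𝓝 (Complex.exp 0 * ∑ j, (α j : ℂ) * Λ j)) := by
      refine k9w1c_strict (Complex.hasStrictDerivAt_exp 0) hS0 tendsto_const_nhds ?_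
      simpa using hSε
    rw [Complex.exp_zero, one_mul] at hexp
    have hX : Tendsto (fun n => ∏ j, x n j ^ α j) V (𝓝 (∏ j, q j ^ α j)) :=
      tendsto_finsetProd _ fun j _ => ((tendsto_pi_nhds.1 hx j).pow (α j))
    have hXs : ∀ᶠ n in V, ∏ j, x n j ^ α j = Complex.exp (S n) * ∏ j, xs n j ^ α j := by
      filter_upwards [hall] with n hn
      rw [hS, Complex.exp_sum, ← Finset.prod_mul_distrib]
      refine Finset.prod_congr rfl fun j _ => ?_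
      rw [hn j, mul_pow, ← Complex.exp_nat_mul]
    have hXs0 : Tendsto (fun n => ∏ j, xs n j ^ α j) V (𝓝 (∏ j, q j ^ α j)) := by
      have h3 : Tendsto (fun n => Complex.exp (-S n)) V (𝓝 1) := by
        have := (Complex.continuous_exp.tendsto (-0)).comp hS0.neg
        rwa [neg_zero, Complex.exp_zero] at this
      have h4 := h3.mul hX
      rw [one_mul] at h4
      refine h4.congr' (hXs.mono fun n hn => ?_)
      rw [hn, ← mul_assoc, ← Complex.exp_add, neg_add_cancel, Complex.exp_zero, one_mul]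
    have h5 := (k9w1c_strict (ha α hα) ht hτ hT).mul hX
    have h6 : Tendsto (fun n => a α (τ n)) V (𝓝 (a α t')) :=
      (ha α hα).hasDerivAt.continuousAt.tendsto.comp hτ
    have h7 := h5.add ((h6.mul hexp).mul hXs0)
    have h8 : a' α * T1 * ∏ j, q j ^ α j + a α t' * (∑ j, (α j : ℂ) * Λ j) * ∏ j, q j ^ α j =
        (a' α * T1 + a α t' * ∑ j, (α j : ℂ) * Λ j) * ∏ j, q j ^ α j := by ring
    rw [h8] at h7
    refine h7.congr' (hXs.mono fun n hn => ?_)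
    simp only [hn]
    ring
  have hsum := tendsto_finsetSum s key
  have h0 : Tendsto (fun n => ∑ α ∈ s, (a α (t n) * ∏ j, x n j ^ α j - a α (τ n) * ∏ j, xs n j ^ α j) / (ε n : ℂ)) V
      (𝓝 0) := by
    refine (tendsto_congr' ?_).2 tendsto_const_nhds
    filter_upwards [h1, h2] with n h3 h4
    rw [← Finset.sum_div, Finset.sum_sub_distrib, h3, h4, sub_zero, zero_div]
  exact tendsto_nhds_unique hsum h0

omit [NeZero m] in
theorem k9w1c_evk (Φ : MvPolynomial (Fin k) (MvPolynomial (Fin m) ℂ)) (x : Fin k → ℂ) (y : Fin m → ℂ) :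
    evk Φ x y = ∑ α ∈ Φ.support, MvPolynomial.eval y (Φ.coeff α) * ∏ j, x j ^ α j := by
  unfold evk sp
  rw [MvPolynomial.eval_map, MvPolynomial.eval₂_eq']

/-- The value of the derivative along the vector field. -/
theorem k9w1c_XH (hL : Loc S u' y1 ρ0 ρ η ℓ χ) (x : Fin k → ℂ) {t : ℂ} (ht : t ∈ Metric.ball (y1 0) ρ) :
    evH (XH S (y1 0) ρ u' u1 M' M1 η ℓ χ) x t = ∑ α ∈ S.Φ.support, (lF u1 ℓ χ t * deriv (aF S η α) t +
      (∑ j, (α j : ℂ) * bF u' u1 M' M1 η ℓ χ j t) * aF S η α t) * ∏ j, x j ^ α j := by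
  classical
  have hco : ∀ α, (PhiH S (y1 0) ρ η).coeff α =
      if α ∈ S.Φ.support then mkH (y1 0) ρ (aF S η α) else 0 := by
    intro α
    unfold PhiH
    rw [MvPolynomial.coeff_sum]
    simp only [MvPolynomial.coeff_monomial]
    rw [Finset.sum_ite_eq']
  have hsub : (PhiH S (y1 0) ρ η).support ⊆ S.Φ.support := by
    intro α hα
    rw [MvPolynomial.mem_support_iff, hco] at hα
    by_contra h
    exact hα (if_neg h)
  unfold XH xi
  rw [evH_sum _ _ _ ht]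
  refine (Finset.sum_subset hsub fun α _ h2 => ?_).trans (Finset.sum_congr rfl fun α hα => ?_)
  · rw [MvPolynomial.notMem_support_iff.1 h2, dH_zero, mul_zero, mul_zero, add_zero, map_zero, evH_of _ _ ht,
      MvPolynomial.eval₂_zero]
  · have hd1 : DifferentiableOn ℂ (aF S η α) (Metric.ball (y1 0) ρ) :=
      (hL.aF_diff α).mono (Metric.ball_subset_ball hL.le)
    have h3 : fnH (mkH (y1 0) ρ (aF S η α)) =ᶠ[𝓝 t] aF S η α :=
      Filter.eventually_of_mem (Metric.isOpen_ball.mem_nhds ht) fun s hs => fnH_mk hd1 hs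
    rw [evH_monomial _ _ _ ht, hco, if_pos hα, fnH_add _ _ ht, fnH_mul _ _ ht, fnH_mul _ _ ht,
      fnH_mk (hL.lF_diff u1) ht, fnH_dH _ ht, h3.deriv_eq, fnH_mk hd1 ht, fnH_sum _ _ ht]
    congr 3
    refine Finset.sum_congr rfl fun j _ => ?_
    rw [fnH_mul _ _ ht, fnH_nat _ ht, fnH_mk (hL.bF_diff u1 M' M1 j) ht]

/-- Row Z9-W1c. PROOF. Let `x* j = conj (exp (2 lF (M' j) ℓ χ (t n))) / conj (x_j)`. `evH_N` and `hN`: `evk S.Φ x* (η (τ n)) = 0`, and `evk S.Φ x (y_n) = 0` (`hΦ`), i.e. `∑_α aF α (t n) x^α - ∑_α aF α (τ n) x*^α = 0`. Write the terms as `(aF α (t n) - aF α (τ n)) x^α + aF α (τ n) (x^α - x*^α)`, `x^α = exp (∑_j α_j lam_j) x*^α` (`lam_lim`), divide by `ε n` and take the limit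
(`HasStrictDerivAt` of `aF α`; `(exp z - 1) / z → 1`): `∑_α (deriv (aF α) t' * τ1 + aF α t' * ∑_j α_j λ1_j) p.1^α = 0` with `τ1`, `λ1_j` the limits of `tau_lim`, `lam_lim`. Multiply by `- dF u' η t' / 2`: this is `evH XH` (`xi_coeff`, `fnH_mk`, `fnH_dH`, `lF_real`: `lF u1 ℓ χ t' = dt u1 (lg p.2)`, `bF j t' = - dF u' η t' / 2 * λ1_j`). -/
theorem first_order {Z : Sq S U} (hB : Blow Z u' u1 M' M1 ε) (hL : Loc S u' y1 ρ0 ρ η ℓ χ)
    {p : (Fin k → ℂ) × (Fin m → ℂ)} {σ : ∀ n, Z.ι n}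
    (hσ : Tendsto (fun n => (Z.x n (σ n), Z.y n (σ n))) (U : Filter ℕ) (𝓝 p)) (hp0 : ∀ j, p.1 j ≠ 0)
    (hpr : dt u' (lg p.2) = 0) (hpM : ∀ j, lg p.1 j = dt (M' j) (lg p.2))
    (hpb : p.2 0 ∈ Metric.ball (y1 0) ρ) (hpη : ∀ i, p.2 i = η i (p.2 0))
    (hη : ∀ᶠ n in (U : Filter ℕ), ∀ i, Z.y n (σ n) i = η i (Z.y n (σ n) 0))
    (hN : ∀ᶠ n in (U : Filter ℕ), evH (NH S (y1 0) ρ M' η ℓ χ) (Z.x n (σ n)) (Z.y n (σ n) 0) = 0) :
    evH (XH S (y1 0) ρ u' u1 M' M1 η ℓ χ) p.1 (p.2 0) = 0 := by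
  obtain ⟨hτ, hτ1⟩ := tau_lim hB hL hσ hpr hpb hpη hη
  choose lam hlam1 hlam2 using fun j => lam_lim hB hL hσ hpr hpb hpη hη j
  have hx : Tendsto (fun n => Z.x n (σ n)) (U : Filter ℕ) (𝓝 p.1) := (continuous_fst.tendsto p).comp hσ
  have hy : Tendsto (fun n => Z.y n (σ n)) (U : Filter ℕ) (𝓝 p.2) := (continuous_snd.tendsto p).comp hσ
  have ht : Tendsto (fun n => Z.y n (σ n) 0) (U : Filter ℕ) (𝓝 (p.2 0)) := tendsto_pi_nhds.1 hy 0
  have htb : ∀ᶠ n in (U : Filter ℕ), Z.y n (σ n) 0 ∈ Metric.ball (y1 0) ρ :=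
    ht.eventually (Metric.isOpen_ball.mem_nhds hpb)
  have hD0 : dF u' η (p.2 0) ≠ 0 := hL.cr _ (Metric.ball_subset_ball hL.le hpb)
  have hpη' : (fun i => η i (p.2 0)) = p.2 := funext fun i => (hpη i).symm
  have hlim := k9w1c_lim S.Φ.support (aF S η) (fun α => deriv (aF S η α) (p.2 0)) (p.2 0) (fun α _ => ?_)
    hB.pos hB.zero ht hτ hτ1 hx hlam1 hlam2 ?_ ?_
  · rw [k9w1c_XH hL _ hpb]
    have hbF : ∀ j, bF u' u1 M' M1 η ℓ χ j (p.2 0) = -(dF u' η (p.2 0) / 2) *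
        (2 * ((dt (M1 j) (lg p.2) : ℝ) : ℂ) +
          dF (M' j) η (p.2 0) * (-2 * ((dt u1 (lg p.2) : ℝ) : ℂ) / dF u' η (p.2 0))) := by
      intro j
      unfold bF
      rw [hL.lF_real _ hpb (by rw [hpη']; exact hpr), hL.lF_real _ hpb (by rw [hpη']; exact hpr), hpη']
      field_simp
      ring
    have hlF : lF u1 ℓ χ (p.2 0) = -(dF u' η (p.2 0) / 2) *
        (-2 * ((dt u1 (lg p.2) : ℝ) : ℂ) / dF u' η (p.2 0)) := by
      rw [hL.lF_real _ hpb (by rw [hpη']; exact hpr), hpη']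
      field_simp
    have h9 : ∀ α ∈ S.Φ.support, (lF u1 ℓ χ (p.2 0) * deriv (aF S η α) (p.2 0) +
        (∑ j, (α j : ℂ) * bF u' u1 M' M1 η ℓ χ j (p.2 0)) * aF S η α (p.2 0)) * ∏ j, p.1 j ^ α j =
        -(dF u' η (p.2 0) / 2) * ((deriv (aF S η α) (p.2 0) *
          (-2 * ((dt u1 (lg p.2) : ℝ) : ℂ) / dF u' η (p.2 0)) + aF S η α (p.2 0) * ∑ j, (α j : ℂ) *
          (2 * ((dt (M1 j) (lg p.2) : ℝ) : ℂ) +
          dF (M' j) η (p.2 0) * (-2 * ((dt u1 (lg p.2) : ℝ) : ℂ) / dF u' η (p.2 0)))) * ∏ j, p.1 j ^ α j) := by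
      intro α _
      have h10 : ∑ j, (α j : ℂ) * bF u' u1 M' M1 η ℓ χ j (p.2 0) = -(dF u' η (p.2 0) / 2) * ∑ j, (α j : ℂ) *
          (2 * ((dt (M1 j) (lg p.2) : ℝ) : ℂ) +
          dF (M' j) η (p.2 0) * (-2 * ((dt u1 (lg p.2) : ℝ) : ℂ) / dF u' η (p.2 0))) := by
        rw [Finset.mul_sum]
        refine Finset.sum_congr rfl fun j _ => ?_
        rw [hbF j]
        ring
      rw [h10, hlF]
      ring
    rw [Finset.sum_congr rfl h9, ← Finset.mul_sum, hlim, mul_zero]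
  · have h11 : AnalyticAt ℂ (aF S η α) (p.2 0) :=
      (hL.aF_diff α).analyticAt (Metric.isOpen_ball.mem_nhds (Metric.ball_subset_ball hL.le hpb))
    exact (h11.contDiffAt (n := 1)).hasStrictDerivAt one_ne_zero
  · filter_upwards [hη] with n hn
    have h12 := Z.hΦ n (σ n)
    rw [k9w1c_evk] at h12
    have h13 : (fun i => η i (Z.y n (σ n) 0)) = Z.y n (σ n) := funext fun i => (hn i).symm
    unfold aF
    rw [h13]
    exact h12
  · filter_upwards [hN, htb] with n hn htn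
    rw [hL.evH_N M' (Z.hx n (σ n)) htn] at hn
    have h14 : (∏ j, Z.x n (σ n) j ^ (S.Φ.support.sup id) j) ≠ 0 :=
      Finset.prod_ne_zero_iff.2 fun j _ => pow_ne_zero _ (Z.hx n (σ n) j)
    have h15 := (map_eq_zero _).1 ((mul_eq_zero.1 hn).resolve_left h14)
    rw [k9w1c_evk] at h15
    exact h15

end Pool.Agent.Z9
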