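import Pool.Agent.Z9.W1
import Pool.Agent.Z9.SF
import Pool.Agent.Z9.F1

namespace Pool.Agent.Z9

open Pool.Agent.ZL2 Filter Topology
open Pool.Agent.Z5 (fr Gen ev2 Alg d1_H d1_mk d1_ev d1_ev_mk d1_ext)
open Pool.Agent.Z6 (dt w6_L)
open Pool.Agent.Z7 (lg Cv HHp Chart)
open Pool.Agent.Z8 (sp evk rwk lev)

variable {k m : ℕ} [NeZero m] {S : Sk k m} {U : Ultrafilter ℕ} {u' u1 : Fin m → ℝ} {M' M1 : Fin k → Fin m → ℝ} {ε : ℕ → ℝ}
  {y1 : Fin m → ℂ} {ρ0 ρ : ℝ} {η ℓ : Fin m → ℂ → ℂ} {χ : ℂ → ℂ}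

/-- A prime factor of `Φ` over the field of the meromorphic functions near `y1` which divides its derivative along the
vector field and vanishes at points of almost all orbits. -/
def BadAt (Z : Sq S U) (u' u1 : Fin m → ℝ) (M' M1 : Fin k → Fin m → ℝ) : Prop :=
  ∃ (y1 : Fin m → ℂ) (ρ0 ρ : ℝ) (η ℓ : Fin m → ℂ → ℂ) (χ : ℂ → ℂ) (P : MvPolynomial (Fin k) (d1_H (y1 0) ρ)),
    Loc S u' y1 ρ0 ρ η ℓ χ ∧ PrM P ∧ DvM P (PhiH S (y1 0) ρ η) ∧ DvM P (XH S (y1 0) ρ u' u1 M' M1 η ℓ χ) ∧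
    ∀ O ∈ 𝓝 y1, ∀ᶠ n in (U : Filter ℕ), ∃ σ, Z.y n σ ∈ O ∧ Z.y n σ 0 ≠ y1 0 ∧ evH P (Z.x n σ) (Z.y n σ 0) = 0

theorem k9w2_supp {t0 : ℂ} {ρ : ℝ} {k : ℕ} {j0 : Fin k} {P Q : MvPolynomial (Fin k) (d1_H t0 ρ)}
    (hP : ∀ γ ∈ P.support, γ j0 = 0) (hQ : ∀ γ ∈ Q.support, γ j0 = 0) : ∀ γ ∈ (P * Q).support, γ j0 = 0 := by
  classical
  intro γ hγ
  have h1 := MvPolynomial.support_mul P Q hγ
  obtain ⟨a, ha, b, hb, rfl⟩ := Finset.mem_add.1 h1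
  rw [Finsupp.add_apply, hP a ha, hQ b hb]

theorem k9w2_supp_one {t0 : ℂ} {ρ : ℝ} {k : ℕ} {j0 : Fin k} :
    ∀ γ ∈ (1 : MvPolynomial (Fin k) (d1_H t0 ρ)).support, γ j0 = 0 := by
  classical
  intro γ hγ
  by_contra hne
  rw [MvPolynomial.mem_support_iff, MvPolynomial.coeff_one] at hγ
  apply hγ
  rw [if_neg]
  rintro rfl
  exact hne rfl

theorem k9w2_supp_prod {t0 : ℂ} {ρ : ℝ} {k : ℕ} {j0 : Fin k} {ι : Type*} (s : Finset ι)
    (P : ι → MvPolynomial (Fin k) (d1_H t0 ρ)) (hP : ∀ i, ∀ γ ∈ (P i).support, γ j0 = 0) :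
    ∀ γ ∈ (∏ i ∈ s, P i).support, γ j0 = 0 := by
  classical
  induction s using Finset.induction_on with
  | empty => rw [Finset.prod_empty]; exact k9w2_supp_one
  | insert a s ha ih => rw [Finset.prod_insert ha]; exact k9w2_supp (hP a) ih

theorem k9w2_tend {t0 : ℂ} {ρ : ℝ} {k : ℕ} (P : MvPolynomial (Fin k) (d1_H t0 ρ)) {l : Filter ℕ}
    {x : ℕ → Fin k → ℂ} {t : ℕ → ℂ} {x' : Fin k → ℂ} {t' : ℂ} (hx : Tendsto x l (𝓝 x')) (ht : Tendsto t l (𝓝 t'))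
    (hb : t' ∈ Metric.ball t0 ρ) : Tendsto (fun n => evH P (x n) (t n)) l (𝓝 (evH P x' t')) := by
  unfold evH
  refine tendsto_finsetSum _ fun α _ => Tendsto.mul ?_ ?_
  · exact (((fnH_diff (P.coeff α)).differentiableAt (Metric.isOpen_ball.mem_nhds hb)).continuousAt.tendsto).comp ht
  · refine tendsto_finsetProd _ fun j _ => ?_
    exact (((continuous_apply j).tendsto x').comp hx).pow _

theorem k9w2_zero {t0 : ℂ} {ρ : ℝ} {k : ℕ} (P : MvPolynomial (Fin k) (d1_H t0 ρ)) {l : Filter ℕ} [l.NeBot]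
    {x : ℕ → Fin k → ℂ} {t : ℕ → ℂ} {x' : Fin k → ℂ} {t' : ℂ} (hx : Tendsto x l (𝓝 x')) (ht : Tendsto t l (𝓝 t'))
    (hb : t' ∈ Metric.ball t0 ρ) (h0 : ∀ᶠ n in l, evH P (x n) (t n) = 0) : evH P x' t' = 0 := by
  have h1 := k9w2_tend P hx ht hb
  have h2 : Tendsto (fun n => evH P (x n) (t n)) l (𝓝 0) :=
    tendsto_const_nhds.congr' (h0.mono fun n hn => hn.symm)
  exact tendsto_nhds_unique h1 h2

/-- The statement about one factor. -/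
theorem k9w2_one (Z : Sq S U) {A1 : ℝ} (hA : Z.Bdd A1) (hB : Blow Z u' u1 M' M1 ε)
    (hbad : ¬ BadAt Z u' u1 M' M1) (hL : Loc S u' y1 ρ0 ρ η ℓ χ) (P : MvPolynomial (Fin k) (d1_H (y1 0) ρ))
    (hP : PrM P) (hPΦ : DvM P (PhiH S (y1 0) ρ η)) :
    ∃ (R : MvPolynomial (Fin k) (d1_H (y1 0) ρ)) (O : Set (Fin m → ℂ)), R ≠ 0 ∧ (∀ γ ∈ R.support, γ S.j0 = 0) ∧
      IsOpen O ∧ y1 ∈ O ∧ ∀ (p : (Fin k → ℂ) × (Fin m → ℂ)) (σ : ∀ n, Z.ι n), p ∈ Z.Lim → p.2 ∈ S.C → p.2 ∈ O →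
        p.2 0 ≠ y1 0 → p.2 0 ∈ Metric.ball (y1 0) ρ → (∀ i, p.2 i = η i (p.2 0)) →
        Tendsto (fun n => (Z.x n (σ n), Z.y n (σ n))) (U : Filter ℕ) (𝓝 p) →
        (∀ᶠ n in (U : Filter ℕ), ∀ i, Z.y n (σ n) i = η i (Z.y n (σ n) 0)) →
        (∀ᶠ n in (U : Filter ℕ), evH P (Z.x n (σ n)) (Z.y n (σ n) 0) = 0) → evH R p.1 (p.2 0) = 0 := by
  classical
  have hbase : y1 0 ∈ Metric.ball (y1 0) ρ := Metric.mem_ball_self hL.pos
  have hnt : Nontrivial (d1_H (y1 0) ρ) := Z6.s2_nontrivial hL.pos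
  have hxy : ∀ (p : (Fin k → ℂ) × (Fin m → ℂ)) (σ : ∀ n, Z.ι n),
      Tendsto (fun n => (Z.x n (σ n), Z.y n (σ n))) (U : Filter ℕ) (𝓝 p) →
      Tendsto (fun n => Z.x n (σ n)) (U : Filter ℕ) (𝓝 p.1) ∧ Tendsto (fun n => Z.y n (σ n)) (U : Filter ℕ) (𝓝 p.2) ∧
        Tendsto (fun n => Z.y n (σ n) 0) (U : Filter ℕ) (𝓝 (p.2 0)) := by
    intro p σ h
    have h1 := (continuous_fst.tendsto p).comp h
    have h2 := (continuous_snd.tendsto p).comp h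
    exact ⟨h1, h2, ((continuous_apply (0 : Fin m)).tendsto p.2).comp h2⟩
  rcases elimP hL.pos S.j0 (Q := NH S (y1 0) ρ M' η ℓ χ) hP with hN | ⟨R, V, W, hR, hRj, hVW⟩
  swap
  · refine ⟨R, Set.univ, hR, hRj, isOpen_univ, Set.mem_univ _, ?_⟩
    intro p σ hp hC _ hne hpb hpη hσ hη hPz
    obtain ⟨hp0, hpr, hpM, hΦ⟩ := lim_rel Z hA hB.hu hB.hM hp hC
    obtain ⟨h1, h2, h3⟩ := hxy p σ hσ
    have hP0 := k9w2_zero P h1 h3 hpb hPz
    have hN0 := NH_lim hL M' hp0 hpr hpM hpb hpη hΦ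
    rw [← hVW, evH_add _ _ _ hpb, evH_mul _ _ _ hpb, evH_mul _ _ _ hpb, hP0, hN0, mul_zero, mul_zero, add_zero]
  obtain ⟨hh, W0, hh0, hhW⟩ := hN
  obtain ⟨ON, hON, hONb, hONz⟩ := fnH_ne hh0 hbase
  have hNpt : ∀ (x : Fin k → ℂ) (t : ℂ), t ∈ ON → t ≠ y1 0 → evH P x t = 0 → evH (NH S (y1 0) ρ M' η ℓ χ) x t = 0 := by
    intro x t ht hne h0
    have htb := hONb ht
    have h1 : fnH hh t * evH (NH S (y1 0) ρ M' η ℓ χ) x t = 0 := by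
      rw [← evH_C hh x htb, ← evH_mul _ _ _ htb, hhW, evH_mul _ _ _ htb, h0, zero_mul]
    exact (mul_eq_zero.1 h1).resolve_left (hONz t ht hne)
  rcases elimP hL.pos S.j0 (Q := XH S (y1 0) ρ u' u1 M' M1 η ℓ χ) hP with hX | ⟨R, V, W, hR, hRj, hVW⟩
  swap
  · refine ⟨R, (fun y => y 0) ⁻¹' (interior ON), hR, hRj, isOpen_interior.preimage (continuous_apply 0),
      mem_interior_iff_mem_nhds.2 hON, ?_⟩
    intro p σ hp hC hO hne hpb hpη hσ hη hPz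
    obtain ⟨hp0, hpr, hpM, hΦ⟩ := lim_rel Z hA hB.hu hB.hM hp hC
    obtain ⟨h1, h2, h3⟩ := hxy p σ hσ
    have hP0 := k9w2_zero P h1 h3 hpb hPz
    have hev1 : ∀ᶠ n in (U : Filter ℕ), Z.y n (σ n) 0 ∈ ON :=
      (h3.eventually (isOpen_interior.mem_nhds hO)).mono fun n hn => interior_subset hn
    have hev2 : ∀ᶠ n in (U : Filter ℕ), Z.y n (σ n) 0 ≠ y1 0 :=
      h3 (isOpen_ne.mem_nhds hne)
    have hX0 := first_order hB hL hσ hp0 hpr hpM hpb hpη hη (by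
      filter_upwards [hev1, hev2, hPz] with n hn1 hn2 hn3
      exact hNpt _ _ hn1 hn2 hn3)
    rw [← hVW, evH_add _ _ _ hpb, evH_mul _ _ _ hpb, evH_mul _ _ _ hpb, hP0, hX0, mul_zero, mul_zero, add_zero]
  have hnb : ¬ ∀ O ∈ 𝓝 y1, ∀ᶠ n in (U : Filter ℕ), ∃ σ, Z.y n σ ∈ O ∧ Z.y n σ 0 ≠ y1 0 ∧
      evH P (Z.x n σ) (Z.y n σ 0) = 0 := fun h =>
    hbad ⟨y1, ρ0, ρ, η, ℓ, χ, P, hL, hP, hPΦ, hX, h⟩
  push Not at hnb
  obtain ⟨O, hO, hn⟩ := hnb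
  refine ⟨1, interior O, one_ne_zero, k9w2_supp_one, isOpen_interior, mem_interior_iff_mem_nhds.2 hO, ?_⟩
  intro p σ hp hC hO' hne hpb hpη hσ hη hPz
  exfalso
  obtain ⟨h1, h2, h3⟩ := hxy p σ hσ
  have hev1 : ∀ᶠ n in (U : Filter ℕ), Z.y n (σ n) ∈ O :=
    (h2.eventually (isOpen_interior.mem_nhds hO')).mono fun n hn => interior_subset hn
  have hev2 : ∀ᶠ n in (U : Filter ℕ), Z.y n (σ n) 0 ≠ y1 0 := h3 (isOpen_ne.mem_nhds hne)
  obtain ⟨n, hn1, hn2, hn3, hn4⟩ := (hev1.and (hev2.and (hPz.and hn))).exists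
  exact hn4 (σ n) hn1 hn2 hn3

/-- Row Z9-W2. PROOF. `factor` for `PhiH`: `h Φ = c ∏ P_i`. For every `i` one of: (1) `elimP` with `Q = NH` gives `R_i`; (2) `DvM (P i) NH` and `elimP` with `Q = XH` gives `R_i`; (3) `DvM (P i) NH` and `DvM (P i) XH`; then, as `¬ BadAt`, there is `O_i ∈ 𝓝 y1` such that for `U`-many `n` no point `σ` with `y n σ ∈ O_i`, `y n σ 0 ≠ y1 0`, `P_i = 0` (ultrafilter). Let `R` = the product of the `R_i` over the `i` of type (1), (2) (`γ S.j0 = 0` for its exponents; `R ≠ 0`).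
`O1` = a neighbourhood of `y1` inside all the `O_i`, such that `c`, and the denominators of the `DvM`, have no zeros `y 0 ≠ y1 0` (`fnH_ne`), and `y ∈ C ∩ O1` is on the chart (`hL.ch.uniq`), take it open. `good_of_eq` with `Λ = Z.Lim`: let `p ∈ Z.Lim`, `p.2 ∈ O1`, `p.2 0 ≠ y1 0`. `lim_rel` gives the relations and the bound (`|lg p.1 j| ≤ A`: `lg` is bounded near `y1`; shrink `O1`). `lim_seq`: `σ`;
eventually the points are in `O1`, on the chart, `∏ P_i = 0` at them (`c ≠ 0` there and `hΦ`), so a fixed `P_i` vanishes at them for `U`-many `n` (finite pigeonhole for the ultrafilter), so at `p` (continuity of `evH` at points over the ball), and `i` is of type (1) or (2). Type (1): `NH = 0` at `p` (`NH_lim`), so `R_i = 0`. Type (2): `NH = 0` at the points (`DvM (P i) NH`), `first_order`: `XH = 0` at `p`, so `R_i = 0`. -/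
theorem local_good (hk : 1 ≤ k) (Z : Sq S U) {A1 : ℝ} (hA : Z.Bdd A1) (hB : Blow Z u' u1 M' M1 ε)
    (hbad : ¬ BadAt Z u' u1 M' M1) (hL : Loc S u' y1 ρ0 ρ η ℓ χ) :
    ∃ O ∈ 𝓝 y1, ∀ y2 ∈ O, y2 ∈ S.C → y2 ≠ y1 → Good S Z.Lim y2 := by
  classical
  have hbase : y1 0 ∈ Metric.ball (y1 0) ρ := Metric.mem_ball_self hL.pos
  have hnt : Nontrivial (d1_H (y1 0) ρ) := Z6.s2_nontrivial hL.pos
  obtain ⟨r, P, c, h, hc, hh, heq, hP⟩ := factor hL.pos (PhiH S (y1 0) ρ η) (hL.PhiH_ne hk)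
  have hPΦ : ∀ i, DvM (P i) (PhiH S (y1 0) ρ η) := by
    intro i
    refine ⟨h, MvPolynomial.C c * ∏ j ∈ Finset.univ.erase i, P j, hh, ?_⟩
    rw [heq, ← Finset.mul_prod_erase Finset.univ P (Finset.mem_univ i)]
    ring
  have hone := fun i => k9w2_one Z hA hB hbad hL (P i) (hP i) (hPΦ i)
  choose R OR hR hRj hOo hOm hlim using hone
  have hRR : (∏ i, R i) ≠ 0 := Finset.prod_ne_zero_iff.2 fun i _ => hR i
  obtain ⟨Oc, hOc, hOcb, hOcz⟩ := fnH_ne hc hbase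
  -- the neighbourhood
  have hev : ∀ᶠ y in 𝓝 y1, (y ∈ S.C → y 0 ∈ Metric.ball (y1 0) ρ0 ∧ ∀ i, y i = η i (y 0)) ∧ (∀ i, y ∈ OR i) ∧
      y 0 ∈ Oc ∧ (∀ i, |lg y i| ≤ |lg y1 i| + 1) := by
    refine (hL.ch.uniq).and ((eventually_all.2 fun i => (hOo i).mem_nhds (hOm i)).and
      (((continuous_apply (0 : Fin m)).continuousAt.eventually hOc).and (eventually_all.2 fun i => ?_)))
    have h1 : ContinuousAt (fun y : Fin m → ℂ => lg y i) y1 := Z7.continuousAt_lg (S.ne y1 hL.mem i)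
    have h2 := (h1.abs).eventually (gt_mem_nhds (lt_add_one (|lg y1 i|)))
    exact h2.mono fun y hy => le_of_lt hy
  obtain ⟨O1, hO1sub, hO1o, hO1m⟩ := eventually_nhds_iff.1 hev
  refine good_of_eq hk S hL.mem hL.ch hL.pos hL.le hRR
    (k9w2_supp_prod Finset.univ R hRj) (Λ := Z.Lim) (A := ∑ j, ∑ i, |M' j i| * (|lg y1 i| + 1))
    (O1 := O1) (hO1o.mem_nhds hO1m) ?_
  intro p hp hC hpO hne hpb hpη
  obtain ⟨hp0, hpr, hpM, hΦ⟩ := lim_rel Z hA hB.hu hB.hM hp hC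
  obtain ⟨hq1, hq2, hq3, hq4⟩ := hO1sub p.2 hpO
  refine ⟨hp0, ?_, ?_⟩
  · intro j
    rw [hpM j]
    have e1 : |dt (M' j) (lg p.2)| ≤ ∑ i, |M' j i| * (|lg y1 i| + 1) := by
      unfold Z6.dt
      refine (Finset.abs_sum_le_sum_abs _ _).trans (Finset.sum_le_sum fun i _ => ?_)
      rw [abs_mul]
      exact mul_le_mul_of_nonneg_left (hq4 i) (abs_nonneg _)
    refine e1.trans ?_
    exact Finset.single_le_sum (f := fun j => ∑ i, |M' j i| * (|lg y1 i| + 1))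
      (fun j _ => Finset.sum_nonneg fun i _ => mul_nonneg (abs_nonneg _) (by positivity)) (Finset.mem_univ j)
  · obtain ⟨σ, hσ⟩ := lim_seq Z hp
    have h1 : Tendsto (fun n => Z.x n (σ n)) (U : Filter ℕ) (𝓝 p.1) := (continuous_fst.tendsto p).comp hσ
    have h2 : Tendsto (fun n => Z.y n (σ n)) (U : Filter ℕ) (𝓝 p.2) := (continuous_snd.tendsto p).comp hσ
    have h3 : Tendsto (fun n => Z.y n (σ n) 0) (U : Filter ℕ) (𝓝 (p.2 0)) :=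
      ((continuous_apply (0 : Fin m)).tendsto p.2).comp h2
    have hevO : ∀ᶠ n in (U : Filter ℕ), Z.y n (σ n) ∈ O1 := h2 (hO1o.mem_nhds hpO)
    have hevb : ∀ᶠ n in (U : Filter ℕ), Z.y n (σ n) 0 ∈ Metric.ball (y1 0) ρ := h3 (Metric.isOpen_ball.mem_nhds hpb)
    have hevne : ∀ᶠ n in (U : Filter ℕ), Z.y n (σ n) 0 ≠ y1 0 := h3 (isOpen_ne.mem_nhds hne)
    have hη : ∀ᶠ n in (U : Filter ℕ), ∀ i, Z.y n (σ n) i = η i (Z.y n (σ n) 0) := by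
      filter_upwards [hevO] with n hn
      exact ((hO1sub _ hn).1 (Z.hy n (σ n))).2
    have hex : ∀ᶠ n in (U : Filter ℕ), ∃ i, evH (P i) (Z.x n (σ n)) (Z.y n (σ n) 0) = 0 := by
      filter_upwards [hevO, hevb, hevne, hη] with n hn1 hn2 hn3 hn4
      have hy' : (fun i => η i (Z.y n (σ n) 0)) = Z.y n (σ n) := funext fun i => (hn4 i).symm
      have e1 : evH (PhiH S (y1 0) ρ η) (Z.x n (σ n)) (Z.y n (σ n) 0) = 0 := by
        rw [hL.evH_Phi _ hn2, hy']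
        exact Z.hΦ n (σ n)
      have e2 : fnH c (Z.y n (σ n) 0) * ∏ i, evH (P i) (Z.x n (σ n)) (Z.y n (σ n) 0) = 0 := by
        rw [← evH_prod _ _ _ hn2, ← evH_C c (Z.x n (σ n)) hn2, ← evH_mul _ _ _ hn2, ← heq, evH_mul _ _ _ hn2, e1,
          mul_zero]
      have e3 := (mul_eq_zero.1 e2).resolve_left (hOcz _ (hO1sub _ hn1).2.2.1 hn3)
      obtain ⟨i, _, hi⟩ := Finset.prod_eq_zero_iff.1 e3
      exact ⟨i, hi⟩
    have hpick : ∃ i, ∀ᶠ n in (U : Filter ℕ), evH (P i) (Z.x n (σ n)) (Z.y n (σ n) 0) = 0 := by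
      by_contra hcon
      push Not at hcon
      have h4 : ∀ i, ∀ᶠ n in (U : Filter ℕ), ¬ evH (P i) (Z.x n (σ n)) (Z.y n (σ n) 0) = 0 := fun i => hcon i
      have h5 := eventually_all.2 h4
      obtain ⟨n, hn1, i, hi⟩ := (h5.and hex).exists
      exact hn1 i hi
    obtain ⟨i, hi⟩ := hpick
    rw [evH_prod _ _ _ hpb]
    exact Finset.prod_eq_zero (Finset.mem_univ i) (hlim i p σ hp hC (hq2 i) hne hpb hpη hσ hη hi)

end Pool.Agent.Z9
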